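import Mathlib

set_option autoImplicit false

namespace Pool.Agent.Helper209.PL

open MeasureTheory Set
open scoped SchwartzMap InnerProductSpace FourierTransform

/-- `T` is an absolutely convergent series of operators `A D B` -/
def Nuc {H : Type} [NormedAddCommGroup H] [InnerProductSpace ℂ H] [CompleteSpace H]
    (D T : H →L[ℂ] H) (N : ℝ) : Prop :=
  ∃ (A B : ℕ → H →L[ℂ] H) (s : ℕ → ℝ), (∀ k, ‖A k‖ * ‖B k‖ ≤ s k) ∧ HasSum s N ∧
    HasSum (fun k => (A k).comp (D.comp (B k))) T

/-- product of two Hilbert-Schmidt operators, basis version -/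
def TCb {H : Type} [NormedAddCommGroup H] [InnerProductSpace ℂ H] [CompleteSpace H]
    (b : HilbertBasis ℕ ℂ H) (T : H →L[ℂ] H) : Prop :=
  ∃ X Y : H →L[ℂ] H, Summable (fun i => ‖X (b i)‖ ^ 2) ∧ Summable (fun i => ‖Y (b i)‖ ^ 2) ∧
      T = (ContinuousLinearMap.adjoint X).comp Y

end Pool.Agent.Helper209.PL
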