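import Pool.Agent.Helper209.PL.Defs
import Pool.Agent.Helper209.PL.NDefs

set_option autoImplicit false

namespace Pool.Agent.Helper209.PL.Basis

open MeasureTheory Set
open scoped SchwartzMap InnerProductSpace FourierTransform


lemma B1_disj {i j : ℕ} (hij : i ≠ j) (x : ℝ) (h1 : x ∈ Ioc (i : ℝ) (i + 1)) :
    x ∉ Ioc (j : ℝ) (j + 1) := by
  intro h2
  have h3 : (i : ℝ) < j + 1 := lt_of_lt_of_le h1.1 h2.2
  have h4 : (j : ℝ) < i + 1 := lt_of_lt_of_le h2.1 h1.2
  have h5 : i < j + 1 := by exact_mod_cast h3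
  have h6 : j < i + 1 := by exact_mod_cast h4
  omega

lemma B1_infinite : ¬ Module.Finite ℂ (Lp ℂ 2 (volume : Measure ℝ)) := by
  intro hfin
  set v : ℕ → Lp ℂ 2 (volume : Measure ℝ) := fun i =>
    indicatorConstLp 2 (measurableSet_Ioc (a := (i : ℝ)) (b := (i : ℝ) + 1)) (by simp) (1 : ℂ) with hv
  have hli : LinearIndependent ℂ v := by
    apply linearIndependent_of_ne_zero_of_inner_eq_zero (𝕜 := ℂ)
    · intro i h0
      have h1 : ‖v i‖ = 0 := by rw [h0, norm_zero]
      rw [hv, norm_indicatorConstLp (by norm_num) (by norm_num)] at h1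
      simp at h1
    · intro i j hij
      rw [L2.inner_def]
      apply integral_eq_zero_of_ae
      filter_upwards [indicatorConstLp_coeFn (p := 2) (hs := measurableSet_Ioc (a := (i : ℝ)) (b := (i : ℝ) + 1))
        (hμs := (by simp : (volume : Measure ℝ) (Ioc (i : ℝ) (i + 1)) ≠ ⊤)) (c := (1 : ℂ)),
        indicatorConstLp_coeFn (p := 2) (hs := measurableSet_Ioc (a := (j : ℝ)) (b := (j : ℝ) + 1))
        (hμs := (by simp : (volume : Measure ℝ) (Ioc (j : ℝ) (j + 1)) ≠ ⊤)) (c := (1 : ℂ))] with x h1 h2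
      simp only [hv]
      rw [h1, h2]
      by_cases h3 : x ∈ Ioc (i : ℝ) (i + 1)
      · have h4 := B1_disj hij x h3
        rw [indicator_of_notMem h4]
        simp
      · rw [indicator_of_notMem h3]
        simp
  have := hli.finite
  exact not_finite ℕ

/-- `L²(ℝ; ℂ)` has a Hilbert basis indexed by `ℕ` -/
theorem nonempty_basis : Nonempty (HilbertBasis ℕ ℂ (Lp ℂ 2 (volume : Measure ℝ))) := by
  obtain ⟨w, b, hb⟩ := exists_hilbertBasis ℂ (Lp ℂ 2 (volume : Measure ℝ))
  have hdisc : DiscreteTopology w := by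
    apply DiscreteTopology.of_forall_le_dist (r := 1) one_pos
    intro x y hxy
    have h1 := b.orthonormal
    rw [hb] at h1
    have h2 : ‖(x : Lp ℂ 2 (volume : Measure ℝ)) - y‖ ^ 2 = 2 := by
      rw [@norm_sub_sq ℂ, h1.1 x, h1.1 y, h1.2 hxy]
      simp
      norm_num
    have h3 : dist x y = ‖(x : Lp ℂ 2 (volume : Measure ℝ)) - y‖ := by
      rw [Subtype.dist_eq, dist_eq_norm]
    rw [h3]
    by_contra hcon
    push Not at hcon
    have := norm_nonneg ((x : Lp ℂ 2 (volume : Measure ℝ)) - y)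
    nlinarith
  have hcount : Countable w := by
    have : Fact ((2 : ENNReal) ≠ ⊤) := ⟨by norm_num⟩
    have : SecondCountableTopology (Lp ℂ 2 (volume : Measure ℝ)) := by
      infer_instance
    exact (TopologicalSpace.separableSpace_iff_countable).1 inferInstance
  have hinf : Infinite w := by
    by_contra hcon
    rw [not_infinite_iff_finite] at hcon
    have := Fintype.ofFinite w
    exact B1_infinite (Module.Finite.of_basis b.toOrthonormalBasis.toBasis)
  obtain ⟨hden⟩ := nonempty_denumerable w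
  set e : w ≃ ℕ := Denumerable.eqv w with he
  refine ⟨HilbertBasis.mk (v := fun i => b (e.symm i)) (b.orthonormal.comp _ e.symm.injective) ?_⟩
  have h1 : Set.range (fun i => b (e.symm i)) = Set.range b := by
    ext x
    constructor
    · rintro ⟨i, rfl⟩
      exact ⟨_, rfl⟩
    · rintro ⟨i, rfl⟩
      exact ⟨e i, by simp⟩
  rw [h1, b.dense_span]

end Pool.Agent.Helper209.PL.Basis
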