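import Pool.Agent.Helper209.PL.Defs

set_option autoImplicit false

namespace Pool.Agent.Helper209.PL.BoxLevel

open MeasureTheory Set
open scoped SchwartzMap InnerProductSpace FourierTransform





section Stmts2
/-- the following statements are proved elsewhere; use them as hypotheses -/
def FineStmt : Prop := ∀ {ι : Type} [Fintype ι] (L μ ν : ℝ), 0 < L → 0 < ν → ν ≤ μ → ∀ (s : Finset ℤ)
    (c : ι → ℤ → ℂ), Bes s c → ∀ (V : ℝ → ℝ), Continuous V →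
    (∑ i, (ν * (∑ n ∈ s, ‖c i n‖ ^ 2) - enr L V s (c i)))
      - (∑ n ∈ s, max (ν - mom L n ^ 2) 0)
      + (1 / L) * ((s.filter (fun n => mom L n ^ 2 < ν)).card : ℝ) * (∫ x in (-(L / 2))..(L / 2), V x)
    ≤ (8 / Real.sqrt ν) * (∫ x in (-(L / 2))..(L / 2), V1 μ (V x) ^ 2)
      + 11 * (∫ x in (-(L / 2))..(L / 2), V2 μ (V x) ^ (3 / 2 : ℝ))
      + (Real.sqrt ν / Real.pi + 1 / L) * (∫ x in (-(L / 2))..(L / 2), (V2 μ (V x) + V3 μ (V x)))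
      + (8 / L) * (∫ x in (-(L / 2))..(L / 2), |V x|)
      + 2 * ∑ m ∈ s.filter (fun m => mom L m ^ 2 < ν), ∑ n ∈ s.filter (fun n => ν ≤ mom L n ^ 2),
          ‖vh L (fun x => V1 μ (V x)) m n‖ ^ 2 / (mom L n ^ 2 - mom L m ^ 2)

def CoarseStmt : Prop := ∀ {ι : Type} [Fintype ι] (L ν : ℝ), 0 < L → 0 < ν → ∀ (s : Finset ℤ)
    (c : ι → ℤ → ℂ), Bes s c → ∀ (V : ℝ → ℝ), Continuous V →
    (∑ i, (ν * (∑ n ∈ s, ‖c i n‖ ^ 2) - enr L V s (c i)))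
      - (∑ n ∈ s, max (ν - mom L n ^ 2) 0)
      + (1 / L) * ((s.filter (fun n => mom L n ^ 2 < ν)).card : ℝ) * (∫ x in (-(L / 2))..(L / 2), V x)
    ≤ 3 * (∫ x in (-(L / 2))..(L / 2), (max (-V x) 0) ^ (3 / 2 : ℝ))
      + (Real.sqrt ν / Real.pi + 9 / L) * (∫ x in (-(L / 2))..(L / 2), |V x|)

def NegStmt : Prop := ∀ {ι : Type} [Fintype ι] (L σ : ℝ), 0 < L → 0 ≤ σ → ∀ (s : Finset ℤ)
    (c : ι → ℤ → ℂ), Bes s c → ∀ (V : ℝ → ℝ), Continuous V →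
    (∑ i, (-σ * (∑ n ∈ s, ‖c i n‖ ^ 2) - enr L V s (c i)))
    ≤ (∫ x in (-(L / 2))..(L / 2), (max (-V x - σ) 0) ^ (3 / 2 : ℝ))
      + (2 / L) * (∫ x in (-(L / 2))..(L / 2), max (-V x - σ) 0)

def EnrTendstoStmt : Prop := ∀ (L : ℝ), 0 < L → ∀ (V : ℝ → ℝ), Continuous V → ∀ (u : ℝ → ℂ), ContDiff ℝ 1 u →
    u (-(L / 2)) = u (L / 2) →
    Filter.Tendsto (fun K : ℕ => ∑ n ∈ Finset.Icc (-(K : ℤ)) K, ‖coef L u n‖ ^ 2) Filter.atTop
        (nhds (∫ x in (-(L / 2))..(L / 2), ‖u x‖ ^ 2)) ∧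
    Filter.Tendsto (fun K : ℕ => enr L V (Finset.Icc (-(K : ℤ)) K) (coef L u)) Filter.atTop
        (nhds (∫ x in (-(L / 2))..(L / 2), (‖deriv u x‖ ^ 2 + V x * ‖u x‖ ^ 2)))

def BesCoefStmt : Prop := ∀ {ι : Type} [Fintype ι] (L : ℝ), 0 < L → ∀ (u : ι → ℝ → ℂ), (∀ i, Continuous (u i)) →
    (∀ a : ℝ → ℂ, Continuous a →
      ∑ i, ‖∫ x in (-(L / 2))..(L / 2), u i x * (starRingEnd ℂ) (a x)‖ ^ 2
        ≤ ∫ x in (-(L / 2))..(L / 2), ‖a x‖ ^ 2) → ∀ (s : Finset ℤ), Bes s (fun i => coef L (u i))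

def OffLeStmt : Prop := ∀ (L : ℝ) (W : ℝ → ℝ) (ν : ℝ) (s : Finset ℤ),
    ENNReal.ofReal (∑ m ∈ s.filter (fun m => mom L m ^ 2 < ν), ∑ n ∈ s.filter (fun n => ν ≤ mom L n ^ 2),
          ‖vh L W m n‖ ^ 2 / (mom L n ^ 2 - mom L m ^ 2)) ≤ offE L W ν

def VhBesselStmt : Prop := ∀ (L : ℝ), 0 < L → ∀ (W : ℝ → ℝ), Continuous W → ∀ (m : ℤ) (s : Finset ℤ),
    ∑ n ∈ s, ‖vh L W m n‖ ^ 2 ≤ (1 / L) * ∫ x in (-(L / 2))..(L / 2), W x ^ 2
end Stmts2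

theorem exists_K (L ν : ℝ) (hL : 0 < L) :
    ∃ K0 : ℕ, ∀ m : ℤ, m ∉ Finset.Icc (-(K0 : ℤ)) K0 → ν ≤ mom L m ^ 2 := by
  refine ⟨⌈|ν| * L ^ 2⌉₊, fun m hm => ?_⟩
  have h1 : |ν| * L ^ 2 ≤ (⌈|ν| * L ^ 2⌉₊ : ℝ) := Nat.le_ceil _
  set K0 := ⌈|ν| * L ^ 2⌉₊
  have h2 : (K0 : ℤ) + 1 ≤ |m| := by
    rw [Finset.mem_Icc, not_and_or] at hm
    rcases hm with hm | hm
    · rw [abs_of_neg (by omega)]; omega
    · rw [abs_of_pos (by omega)]; omega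
  have h3 : (K0 : ℝ) + 1 ≤ |(m : ℝ)| := by exact_mod_cast h2
  have h4 : (m : ℝ) ^ 2 = |(m : ℝ)| ^ 2 := (sq_abs _).symm
  have h5 : (K0 : ℝ) ≤ (m : ℝ) ^ 2 := by
    rw [h4]
    have : (0 : ℝ) ≤ K0 := Nat.cast_nonneg _
    nlinarith
  have h6 : mom L m ^ 2 = 4 * Real.pi ^ 2 * ((m : ℝ) ^ 2 / L ^ 2) := by
    unfold mom; ring
  have h7 : |ν| ≤ (m : ℝ) ^ 2 / L ^ 2 := by
    rw [le_div_iff₀ (by positivity)]; linarith
  have h8 : 1 ≤ 4 * Real.pi ^ 2 := by nlinarith [Real.pi_gt_three]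
  have h9 : 0 ≤ (m : ℝ) ^ 2 / L ^ 2 := by positivity
  rw [h6]
  calc ν ≤ |ν| := le_abs_self _
    _ ≤ (m : ℝ) ^ 2 / L ^ 2 := h7
    _ ≤ 4 * Real.pi ^ 2 * ((m : ℝ) ^ 2 / L ^ 2) := by nlinarith

theorem bgsum_eq (L ν : ℝ) {K0 : ℕ} (hK0 : ∀ m : ℤ, m ∉ Finset.Icc (-(K0 : ℤ)) K0 → ν ≤ mom L m ^ 2)
    (K : ℕ) (hK : K0 ≤ K) :
    bgsum L ν = ∑ n ∈ Finset.Icc (-(K : ℤ)) K, max (ν - mom L n ^ 2) 0 := by
  unfold bgsum
  refine tsum_eq_sum fun n hn => ?_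
  have h1 : n ∉ Finset.Icc (-(K0 : ℤ)) K0 := by
    rw [Finset.mem_Icc] at hn ⊢
    omega
  have := hK0 n h1
  exact max_eq_right (by linarith)

theorem bgcount_eq (L ν : ℝ) {K0 : ℕ}
    (hK0 : ∀ m : ℤ, m ∉ Finset.Icc (-(K0 : ℤ)) K0 → ν ≤ mom L m ^ 2) (K : ℕ) (hK : K0 ≤ K) :
    bgcount L ν = (((Finset.Icc (-(K : ℤ)) K).filter (fun n => mom L n ^ 2 < ν)).card : ℝ) := by
  unfold bgcount
  rw [← Finset.sum_boole]
  refine tsum_eq_sum fun n hn => ?_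
  have h1 : n ∉ Finset.Icc (-(K0 : ℤ)) K0 := by
    rw [Finset.mem_Icc] at hn ⊢
    omega
  have := hK0 n h1
  exact if_neg (not_lt.2 this)

/-- finiteness of the off-diagonal term at each level -/
theorem offE_lt_top (hVB : VhBesselStmt) (L : ℝ) (hL : 0 < L) (W : ℝ → ℝ) (hW : Continuous W) (ν : ℝ) :
    offE L W ν < ⊤ := by
  obtain ⟨K0, hK0⟩ := exists_K L ν hL
  unfold offE
  have hz : ∀ m ∉ Finset.Icc (-(K0 : ℤ)) K0, ∑' n : ℤ, ENNReal.ofReal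
      (if mom L m ^ 2 < ν ∧ ν ≤ mom L n ^ 2 then
        ‖vh L W m n‖ ^ 2 / (mom L n ^ 2 - mom L m ^ 2) else 0) = 0 := by
    intro m hm
    rw [ENNReal.tsum_eq_zero]
    intro n
    rw [if_neg (fun h => absurd h.1 (not_lt.2 (hK0 m hm)))]
    simp
  rw [tsum_eq_sum hz]
  refine ENNReal.sum_lt_top.2 fun m _ => ?_
  by_cases hm : mom L m ^ 2 < ν
  · have hgap : 0 < ν - mom L m ^ 2 := by linarith
    have hle : ∑' n : ℤ, ENNReal.ofReal (if mom L m ^ 2 < ν ∧ ν ≤ mom L n ^ 2 then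
        ‖vh L W m n‖ ^ 2 / (mom L n ^ 2 - mom L m ^ 2) else 0) ≤
        ENNReal.ofReal (((1 / L) * ∫ x in (-(L / 2))..(L / 2), W x ^ 2) / (ν - mom L m ^ 2)) := by
      rw [ENNReal.tsum_eq_iSup_sum]
      refine iSup_le fun s => ?_
      have hterm : ∀ n ∈ s, (0 : ℝ) ≤ (if mom L m ^ 2 < ν ∧ ν ≤ mom L n ^ 2 then
          ‖vh L W m n‖ ^ 2 / (mom L n ^ 2 - mom L m ^ 2) else 0) := by
        intro n _
        split_ifs with h
        · exact div_nonneg (sq_nonneg _) (by linarith [h.2])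
        · exact le_refl _
      rw [← ENNReal.ofReal_sum_of_nonneg hterm]
      refine ENNReal.ofReal_le_ofReal ?_
      calc ∑ n ∈ s, (if mom L m ^ 2 < ν ∧ ν ≤ mom L n ^ 2 then
            ‖vh L W m n‖ ^ 2 / (mom L n ^ 2 - mom L m ^ 2) else 0)
          ≤ ∑ n ∈ s, ‖vh L W m n‖ ^ 2 / (ν - mom L m ^ 2) := by
            refine Finset.sum_le_sum fun n _ => ?_
            split_ifs with h
            · exact div_le_div_of_nonneg_left (sq_nonneg _) hgap (by linarith [h.2])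
            · exact div_nonneg (sq_nonneg _) hgap.le
        _ = (∑ n ∈ s, ‖vh L W m n‖ ^ 2) / (ν - mom L m ^ 2) := by rw [Finset.sum_div]
        _ ≤ _ := div_le_div_of_nonneg_right (hVB L hL W hW m s) hgap.le
    exact hle.trans_lt ENNReal.ofReal_lt_top
  · have h0 : ∑' n : ℤ, ENNReal.ofReal (if mom L m ^ 2 < ν ∧ ν ≤ mom L n ^ 2 then
        ‖vh L W m n‖ ^ 2 / (mom L n ^ 2 - mom L m ^ 2) else 0) = 0 := by
      rw [ENNReal.tsum_eq_zero]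
      intro n
      rw [if_neg (fun h => hm h.1)]
      simp
    rw [h0]
    exact ENNReal.zero_lt_top

/-- level bounds for Bessel families of `C¹` functions on the box -/
theorem box_level (hF : FineStmt) (hC : CoarseStmt) (hN : NegStmt) (hE : EnrTendstoStmt) (hB : BesCoefStmt)
    (hO : OffLeStmt) (hVB : VhBesselStmt)
    {ι : Type} [Fintype ι] (L μ : ℝ) (hL : 0 < L) (hμ : 0 < μ) (V : ℝ → ℝ) (hV : Continuous V)
    (u : ι → ℝ → ℂ) (hu : ∀ i, ContDiff ℝ 1 (u i)) (hper : ∀ i, u i (-(L / 2)) = u i (L / 2))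
    (hBes : ∀ a : ℝ → ℂ, Continuous a →
      ∑ i, ‖∫ x in (-(L / 2))..(L / 2), u i x * (starRingEnd ℂ) (a x)‖ ^ 2
        ≤ ∫ x in (-(L / 2))..(L / 2), ‖a x‖ ^ 2) (t : ℝ) (ht : 0 < t) (G : ℝ)
    (hG : G = (∑ i, ((μ - t) * (∫ x in (-(L / 2))..(L / 2), ‖u i x‖ ^ 2)
          - ∫ x in (-(L / 2))..(L / 2), (‖deriv (u i) x‖ ^ 2 + V x * ‖u i x‖ ^ 2)))
        - bgsum L (μ - t) + (1 / L) * bgcount L (μ - t) * (∫ x in (-(L / 2))..(L / 2), V x)) :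
    (t < μ → G ≤ 3 * (∫ x in (-(L / 2))..(L / 2), (max (-V x) 0) ^ (3 / 2 : ℝ))
      + (Real.sqrt (μ - t) / Real.pi + 9 / L) * (∫ x in (-(L / 2))..(L / 2), |V x|)) ∧
    (t < μ → G ≤ (8 / Real.sqrt (μ - t)) * (∫ x in (-(L / 2))..(L / 2), V1 μ (V x) ^ 2)
      + 11 * (∫ x in (-(L / 2))..(L / 2), V2 μ (V x) ^ (3 / 2 : ℝ))
      + (Real.sqrt (μ - t) / Real.pi + 1 / L) * (∫ x in (-(L / 2))..(L / 2), (V2 μ (V x) + V3 μ (V x)))
      + (8 / L) * (∫ x in (-(L / 2))..(L / 2), |V x|)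
      + 2 * (offE L (fun x => V1 μ (V x)) (μ - t)).toReal) ∧
    (μ ≤ t → G ≤ (∫ x in (-(L / 2))..(L / 2), (max (-V x - (t - μ)) 0) ^ (3 / 2 : ℝ))
      + (2 / L) * (∫ x in (-(L / 2))..(L / 2), max (-V x - (t - μ)) 0)) := by
  set c : ι → ℤ → ℂ := fun i => coef L (u i) with hc
  have hBs : ∀ s : Finset ℤ, Bes s c := hB L hL u (fun i => (hu i).continuous) hBes
  obtain ⟨K0, hK0⟩ := exists_K L (μ - t) hL
  set IV : ℝ := ∫ x in (-(L / 2))..(L / 2), V x with hIV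
  -- the main limit
  have hlim0 : Filter.Tendsto (fun K : ℕ => ∑ i, ((μ - t) *
      (∑ n ∈ Finset.Icc (-(K : ℤ)) K, ‖c i n‖ ^ 2) - enr L V (Finset.Icc (-(K : ℤ)) K) (c i)))
      Filter.atTop (nhds (∑ i, ((μ - t) * (∫ x in (-(L / 2))..(L / 2), ‖u i x‖ ^ 2)
          - ∫ x in (-(L / 2))..(L / 2), (‖deriv (u i) x‖ ^ 2 + V x * ‖u i x‖ ^ 2)))) := by
    refine tendsto_finsetSum _ fun i _ => ?_
    obtain ⟨h1, h2⟩ := hE L hL V hV (u i) (hu i) (hper i)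
    exact (h1.const_mul (μ - t)).sub h2
  have hlim : Filter.Tendsto (fun K : ℕ => (∑ i, ((μ - t) *
      (∑ n ∈ Finset.Icc (-(K : ℤ)) K, ‖c i n‖ ^ 2) - enr L V (Finset.Icc (-(K : ℤ)) K) (c i)))
      - (∑ n ∈ Finset.Icc (-(K : ℤ)) K, max ((μ - t) - mom L n ^ 2) 0)
      + (1 / L) * (((Finset.Icc (-(K : ℤ)) K).filter
          (fun n => mom L n ^ 2 < (μ - t))).card : ℝ) * IV) Filter.atTop (nhds G) := by
    have h1 := (hlim0.sub_const (bgsum L (μ - t))).add_const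
      ((1 / L) * bgcount L (μ - t) * IV)
    rw [← hG] at h1
    refine h1.congr' ?_
    filter_upwards [Filter.eventually_ge_atTop K0] with K hK
    rw [bgsum_eq L (μ - t) hK0 K hK, bgcount_eq L (μ - t) hK0 K hK]
  refine ⟨?_, ?_, ?_⟩
  · intro htμ
    refine le_of_tendsto' hlim fun K => ?_
    exact hC L (μ - t) hL (by linarith) (Finset.Icc (-(K : ℤ)) K) c (hBs _) V hV
  · intro htμ
    refine le_of_tendsto' hlim fun K => ?_
    refine (hF L μ (μ - t) hL (by linarith) (by linarith) (Finset.Icc (-(K : ℤ)) K) c (hBs _) V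
      hV).trans ?_
    have hWc : Continuous fun x => V1 μ (V x) := by
      unfold V1
      exact continuous_const.max (continuous_const.min hV)
    have h1 := hO L (fun x => V1 μ (V x)) (μ - t) (Finset.Icc (-(K : ℤ)) K)
    rw [ENNReal.ofReal_le_iff_le_toReal (offE_lt_top hVB L hL _ hWc (μ - t)).ne] at h1
    linarith
  · intro htμ
    have hbs : bgsum L (μ - t) = 0 := by
      unfold bgsum
      have : ∀ n : ℤ, max (μ - t - mom L n ^ 2) 0 = 0 := fun n =>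
        max_eq_right (by have := sq_nonneg (mom L n); linarith)
      simp only [this, tsum_zero]
    have hbc : bgcount L (μ - t) = 0 := by
      unfold bgcount
      have : ∀ n : ℤ, (if mom L n ^ 2 < μ - t then (1 : ℝ) else 0) = 0 := fun n =>
        if_neg (by have := sq_nonneg (mom L n); linarith)
      simp only [this, tsum_zero]
    rw [hbs, hbc] at hG
    have hG' : G = ∑ i, ((μ - t) * (∫ x in (-(L / 2))..(L / 2), ‖u i x‖ ^ 2)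
          - ∫ x in (-(L / 2))..(L / 2), (‖deriv (u i) x‖ ^ 2 + V x * ‖u i x‖ ^ 2)) := by
      rw [hG]; ring
    rw [← hG'] at hlim0
    refine le_of_tendsto' hlim0 fun K => ?_
    have h1 := hN L (t - μ) hL (by linarith) (Finset.Icc (-(K : ℤ)) K) c (hBs _) V hV
    rw [show -(t - μ) = μ - t by ring] at h1
    exact h1

end Pool.Agent.Helper209.PL.BoxLevel
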