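import Pool.Agent.Helper209.PL.Defs

set_option autoImplicit false

namespace Pool.Agent.Helper209.PL.Cfc1

open MeasureTheory Set
open scoped SchwartzMap InnerProductSpace FourierTransform


/-- the level function in a continuous form -/
theorem lev_eq {B t r : ℝ} (hB : 0 < B) (ht : 0 ≤ t) :
    (if 0 < r then max (B - t - 1 / r) 0 else 0) = max (B - t - 1 / max r (1 / B)) 0 := by
  have hδ : 0 < 1 / B := by positivity
  rcases le_total (1 / B) r with h | h
  · rw [if_pos (hδ.trans_le h), max_eq_left h]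
  · rw [max_eq_right h, one_div_one_div]
    have h1 : max (B - t - B) 0 = 0 := max_eq_right (by linarith)
    rw [h1]
    split_ifs with h2
    · apply max_eq_right
      have h3 : B ≤ 1 / r := by
        rw [le_div_iff₀ h2]
        rw [le_div_iff₀ hB] at h
        linarith
      linarith
    · rfl

theorem lev_cont {B : ℝ} (hB : 0 < B) :
    Continuous (fun p : ℝ × ℝ => max (B - p.1 - 1 / max p.2 (1 / B)) 0) := by
  have hδ : 0 < 1 / B := by positivity
  have h1 : ∀ p : ℝ × ℝ, max p.2 (1 / B) ≠ 0 := fun p => (lt_max_of_lt_right hδ).ne'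
  fun_prop (disch := exact h1)

/-- the real part of a matrix coefficient as a continuous linear functional -/
noncomputable def LL {H : Type*} [NormedAddCommGroup H] [InnerProductSpace ℂ H] [CompleteSpace H]
    (φ : H) : (H →L[ℂ] H) →L[ℝ] ℝ :=
  Complex.reCLM.comp (((innerSL ℂ φ).comp (ContinuousLinearMap.apply ℂ H φ)).restrictScalars ℝ)

theorem LL_apply {H : Type*} [NormedAddCommGroup H] [InnerProductSpace ℂ H] [CompleteSpace H]
    (φ : H) (T : H →L[ℂ] H) : LL φ T = (⟪φ, T φ⟫_ℂ).re := rfl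

/-- scalar layer cake formula -/
theorem layer_scalar {γ B x : ℝ} (hγ : 1 < γ) (hB : 0 < B) (hx : x ≤ B) :
    ∫ t in Ioc 0 B, γ * (γ - 1) * t ^ (γ - 2) * max (x - t) 0 = (max x 0) ^ γ := by
  rcases le_or_gt x 0 with h | h
  · rw [max_eq_right h, Real.zero_rpow (by linarith)]
    apply setIntegral_eq_zero_of_forall_eq_zero
    intro t ht
    rw [max_eq_right (by linarith [ht.1]), mul_zero]
  · rw [max_eq_left h.le]
    have h1 : Ioc 0 B = Ioc 0 x ∪ Ioc x B := (Ioc_union_Ioc_eq_Ioc h.le hx).symm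
    have h2 : ∫ t in Ioc 0 B, γ * (γ - 1) * t ^ (γ - 2) * max (x - t) 0
        = ∫ t in Ioc 0 x, γ * (γ - 1) * t ^ (γ - 2) * max (x - t) 0 := by
      rw [h1]
      apply setIntegral_eq_of_subset_of_forall_sdiff_eq_zero (measurableSet_Ioc.union
        measurableSet_Ioc) subset_union_left
      intro t ht
      have : x < t := by
        rcases ht.1 with h3 | h3
        · exact absurd h3 ht.2
        · exact h3.1
      rw [max_eq_right (by linarith), mul_zero]
    have h3 : ∫ t in Ioc 0 x, γ * (γ - 1) * t ^ (γ - 2) * max (x - t) 0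
        = ∫ t in Ioc 0 x, γ * (γ - 1) * (x * t ^ (γ - 2) - t ^ (γ - 1)) := by
      apply setIntegral_congr_fun measurableSet_Ioc
      intro t ht
      have h4 : t ^ (γ - 1) = t ^ (γ - 2) * t := by
        rw [← Real.rpow_add_one ht.1.ne']
        congr 1
        ring
      show γ * (γ - 1) * t ^ (γ - 2) * max (x - t) 0
        = γ * (γ - 1) * (x * t ^ (γ - 2) - t ^ (γ - 1))
      rw [max_eq_left (by linarith [ht.2]), h4]
      ring
    rw [h2, h3, ← intervalIntegral.integral_of_le h.le, intervalIntegral.integral_const_mul,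
      intervalIntegral.integral_sub, intervalIntegral.integral_const_mul,
      integral_rpow (Or.inl (by linarith)), integral_rpow (Or.inl (by linarith))]
    · have e1 : γ - 2 + 1 = γ - 1 := by ring
      have e2 : γ - 1 + 1 = γ := by ring
      rw [e1, e2, Real.zero_rpow (by linarith), Real.zero_rpow (by linarith)]
      have e3 : x ^ γ = x ^ (γ - 1) * x := by
        rw [← Real.rpow_add_one h.ne']
        congr 1
        ring
      have hγ0 : γ ≠ 0 := by linarith
      have hγ1 : γ - 1 ≠ 0 := by linarith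
      rw [e3]
      field_simp
      ring
    · exact (intervalIntegral.intervalIntegrable_rpow' (by linarith)).const_mul _
    · exact intervalIntegral.intervalIntegrable_rpow' (by linarith)

/-- layer cake inside the functional calculus -/
theorem layer_cfc {H : Type*} [NormedAddCommGroup H] [InnerProductSpace ℂ H] [CompleteSpace H]
    (γ μ c : ℝ) (hγ : 1 < γ) (hμ : 0 < μ) (hc : 0 < c) (R : H →L[ℂ] H) (hR : IsSelfAdjoint R) (φ : H) :
    IntervalIntegrable (fun t : ℝ => t ^ (γ - 2) * (⟪φ, negPow 1 (μ - t) c R φ⟫_ℂ).re) volume 0 (μ + c) ∧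
    (⟪φ, negPow γ μ c R φ⟫_ℂ).re
      = γ * (γ - 1) * ∫ t in (0 : ℝ)..(μ + c), t ^ (γ - 2) * (⟪φ, negPow 1 (μ - t) c R φ⟫_ℂ).re := by
  set B := μ + c with hBdef
  have hB : 0 < B := by linarith
  set K : ℝ := γ * (γ - 1) with hK
  have hK0 : 0 < K := mul_pos (by linarith) (by linarith)
  set h : ℝ → ℝ → ℝ := fun t r => K * t ^ (γ - 2) * max (B - t - 1 / max r (1 / B)) 0 with hh
  have hcont : ContinuousOn (Function.uncurry h) (Ioc 0 B ×ˢ spectrum ℝ R) := by
    have h1 : ContinuousOn (fun p : ℝ × ℝ => K * p.1 ^ (γ - 2)) (Ioc 0 B ×ˢ spectrum ℝ R) := by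
      apply ContinuousOn.mul continuousOn_const
      apply ContinuousOn.rpow_const continuousOn_fst
      intro p hp
      exact Or.inl (hp.1.1.ne')
    exact h1.mul (lev_cont hB).continuousOn
  have hbd : ∀ᵐ t ∂((volume : Measure ℝ).restrict (Ioc 0 B)), ∀ z ∈ spectrum ℝ R,
      ‖h t z‖ ≤ K * t ^ (γ - 2) * B := by
    apply ae_restrict_of_forall_mem measurableSet_Ioc
    intro t ht z _
    have h1 : 0 ≤ K * t ^ (γ - 2) := mul_nonneg hK0.le (Real.rpow_nonneg ht.1.le _)
    have h2 : 0 ≤ max (B - t - 1 / max z (1 / B)) 0 := le_max_right _ _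
    have h3 : max (B - t - 1 / max z (1 / B)) 0 ≤ B := by
      apply max_le _ hB.le
      have : 0 < 1 / max z (1 / B) := by
        have : 0 < max z (1 / B) := lt_max_of_lt_right (by positivity)
        positivity
      linarith [ht.1]
    rw [Real.norm_eq_abs, abs_of_nonneg (mul_nonneg h1 h2)]
    exact mul_le_mul_of_nonneg_left h3 h1
  have hint : IntegrableOn (fun t : ℝ => K * t ^ (γ - 2) * B) (Ioc 0 B) volume := by
    have := (intervalIntegral.intervalIntegrable_rpow' (a := 0) (b := B) (r := γ - 2) (by linarith))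
    rw [intervalIntegrable_iff_integrableOn_Ioc_of_le hB.le] at this
    exact (this.const_mul K).mul_const B
  have hI := integrableOn_cfc measurableSet_Ioc h (fun t => K * t ^ (γ - 2) * B) R hcont hbd
    hint.2 (ha := hR)
  have hS := cfc_setIntegral measurableSet_Ioc h (fun t => K * t ^ (γ - 2) * B) R hcont hbd
    hint.2 (ha := hR)
  -- the inner operators
  have hin : ∀ t ∈ Ioc 0 B, cfc (h t) R = (K * t ^ (γ - 2)) • negPow 1 (μ - t) c R := by
    intro t ht
    have h1 : negPow 1 (μ - t) c R = cfc (fun r => max (B - t - 1 / max r (1 / B)) 0) R := by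
      unfold negPow
      apply cfc_congr
      intro r _
      show (if 0 < r then (max (μ - t + c - 1 / r) 0) ^ (1 : ℝ) else 0)
        = max (B - t - 1 / max r (1 / B)) 0
      rw [Real.rpow_one, ← lev_eq hB ht.1.le, hBdef]
      have e : μ - t + c - 1 / r = μ + c - t - 1 / r := by ring
      rw [e]
    have h2 := (lev_cont hB).comp (Continuous.prodMk_right t)
    rw [h1, ← cfc_const_mul (K * t ^ (γ - 2)) (fun r => max (B - t - 1 / max r (1 / B)) 0) R
      h2.continuousOn]
  have hout : cfc (fun r => ∫ t in Ioc 0 B, h t r) R = negPow γ μ c R := by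
    unfold negPow
    apply cfc_congr
    intro r _
    show ∫ t in Ioc 0 B, h t r = if 0 < r then (max (μ + c - 1 / r) 0) ^ γ else 0
    have h1 : ∫ t in Ioc 0 B, h t r = ∫ t in Ioc 0 B, γ * (γ - 1) * t ^ (γ - 2) *
        max ((B - 1 / max r (1 / B)) - t) 0 := by
      apply setIntegral_congr_fun measurableSet_Ioc
      intro t _
      show K * t ^ (γ - 2) * max (B - t - 1 / max r (1 / B)) 0 = _
      rw [hK]
      have e : B - t - 1 / max r (1 / B) = B - 1 / max r (1 / B) - t := by ring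
      rw [e]
    have hpos : 0 < 1 / max r (1 / B) := by
      have : 0 < max r (1 / B) := lt_max_of_lt_right (by positivity)
      positivity
    rw [h1, layer_scalar hγ hB (by linarith)]
    have h2 := lev_eq (r := r) hB le_rfl
    rw [sub_zero] at h2
    rw [← h2]
    split_ifs
    · rw [hBdef]
    · exact Real.zero_rpow (by linarith)
  rw [hout] at hS
  have hL : ∀ t ∈ Ioc 0 B, LL φ (cfc (h t) R)
      = K * (t ^ (γ - 2) * (⟪φ, negPow 1 (μ - t) c R φ⟫_ℂ).re) := by
    intro t ht
    rw [hin t ht, map_smul, LL_apply, smul_eq_mul]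
    ring
  have hI2 : IntegrableOn (fun t => LL φ (cfc (h t) R)) (Ioc 0 B) volume :=
    ContinuousLinearMap.integrable_comp (LL φ) hI
  have hI3 : IntegrableOn (fun t => t ^ (γ - 2) * (⟪φ, negPow 1 (μ - t) c R φ⟫_ℂ).re)
      (Ioc 0 B) volume := by
    have h1 : IntegrableOn (fun t => K⁻¹ * LL φ (cfc (h t) R)) (Ioc 0 B) volume :=
      hI2.const_mul K⁻¹
    refine IntegrableOn.congr_fun h1 ?_ measurableSet_Ioc
    intro t ht
    show K⁻¹ * LL φ (cfc (h t) R) = _
    rw [hL t ht, ← mul_assoc, inv_mul_cancel₀ hK0.ne', one_mul]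
  refine ⟨(intervalIntegrable_iff_integrableOn_Ioc_of_le hB.le).mpr hI3, ?_⟩
  rw [intervalIntegral.integral_of_le hB.le, ← integral_const_mul, ← LL_apply, hS,
    ← ContinuousLinearMap.integral_comp_comm (LL φ) hI]
  apply setIntegral_congr_fun measurableSet_Ioc
  intro t ht
  exact hL t ht

/-- positivity -/
theorem negPow_nonneg {H : Type*} [NormedAddCommGroup H] [InnerProductSpace ℂ H] [CompleteSpace H]
    (γ μ c : ℝ) (R : H →L[ℂ] H) (hR : IsSelfAdjoint R) (φ : H) :
    0 ≤ (⟪φ, negPow γ μ c R φ⟫_ℂ).re ∧ IsSelfAdjoint (negPow γ μ c R) := by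
  refine ⟨?_, ?_⟩
  · have h1 : 0 ≤ negPow γ μ c R := by
      unfold negPow
      apply cfc_nonneg
      intro r _
      split_ifs
      · exact Real.rpow_nonneg (le_max_right _ _) _
      · exact le_rfl
    have h2 := (ContinuousLinearMap.nonneg_iff_isPositive _).mp h1
    exact h2.re_inner_nonneg_right φ
  · exact cfc_predicate _ _

/-- factorisation through (approximate) spectral projections -/
theorem level_factor {H : Type*} [NormedAddCommGroup H] [InnerProductSpace ℂ H] [CompleteSpace H]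
    (ν c : ℝ) (hνc : 0 < ν + c) (R : H →L[ℂ] H) (hR : IsSelfAdjoint R) (k : ℕ) (hk : 0 < k) :
    ∃ P P1 Q : H →L[ℂ] H, IsSelfAdjoint P ∧ IsSelfAdjoint Q ∧ IsSelfAdjoint P1 ∧
      P = R.comp P1 ∧ Q = ((ν + c : ℝ) : ℂ) • P - P1 ∧ ‖P1‖ ≤ ν + c ∧ ‖P‖ ≤ 1 ∧
      (∀ φ : H, 0 ≤ (⟪P φ, Q φ⟫_ℂ).re) ∧
      (∀ φ : H, (⟪φ, negPow 1 ν c R φ⟫_ℂ).re ≤ (⟪P φ, Q φ⟫_ℂ).re + ‖φ‖ ^ 2 / k) := by
  set B := ν + c with hBdef
  have hk' : (0 : ℝ) < k := by exact_mod_cast hk
  have hδ : 0 < 1 / B := by positivity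
  set m : ℝ → ℝ := fun r => max r (1 / B) with hm
  have hmpos : ∀ r, 0 < m r := fun r => lt_max_of_lt_right hδ
  have hmc : Continuous m := by fun_prop
  have hminv : ∀ r, 1 / m r ≤ B := by
    intro r
    rw [div_le_iff₀ (hmpos r)]
    have : 1 / B ≤ m r := le_max_right _ _
    rw [div_le_iff₀ hνc] at this
    linarith
  set F : ℝ → ℝ := fun r => B - 1 / m r with hF
  have hFc : Continuous F := by
    have h1 : ∀ r, m r ≠ 0 := fun r => (hmpos r).ne'
    exact continuous_const.sub (continuous_const.div hmc h1)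
  have hF0 : ∀ r, 0 ≤ F r := fun r => sub_nonneg.mpr (hminv r)
  set g : ℝ → ℝ := fun r => min 1 (k * F r) with hg
  have hgc : Continuous g := by fun_prop
  have hg0 : ∀ r, 0 ≤ g r := fun r => le_min zero_le_one (mul_nonneg hk'.le (hF0 r))
  have hg1 : ∀ r, g r ≤ 1 := fun r => min_le_left _ _
  set sg : ℝ → ℝ := fun r => Real.sqrt (g r) with hsg
  have hsgc : Continuous sg := by fun_prop
  have hsg0 : ∀ r, 0 ≤ sg r := fun r => Real.sqrt_nonneg _
  have hsg1 : ∀ r, sg r ≤ 1 := fun r => by
    rw [hsg]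
    simp only
    rw [Real.sqrt_le_one]
    exact hg1 r
  have hsgsq : ∀ r, sg r * sg r = g r := fun r => Real.mul_self_sqrt (hg0 r)
  set p1 : ℝ → ℝ := fun r => sg r / m r with hp1
  have hp1c : Continuous p1 := hsgc.div hmc (fun r => (hmpos r).ne')
  set P : H →L[ℂ] H := cfc sg R with hP
  set P1 : H →L[ℂ] H := cfc p1 R with hP1
  set Q : H →L[ℂ] H := cfc (fun r => F r * sg r) R with hQ
  have hPQ : P * Q = cfc (fun r => F r * g r) R := by
    rw [hP, hQ, ← cfc_mul sg (fun r => F r * sg r) R hsgc.continuousOn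
      (hFc.mul hsgc).continuousOn]
    apply cfc_congr
    intro r _
    show sg r * (F r * sg r) = F r * g r
    rw [← hsgsq r]
    ring
  have hPsa : IsSelfAdjoint P := cfc_predicate _ _
  have hinner : ∀ φ : H, ⟪P φ, Q φ⟫_ℂ = ⟪φ, (P * Q) φ⟫_ℂ := by
    intro φ
    have h1 : ContinuousLinearMap.adjoint P = P := hPsa.star_eq
    rw [ContinuousLinearMap.mul_apply]
    nth_rewrite 1 [← h1]
    rw [ContinuousLinearMap.adjoint_inner_left]
  refine ⟨P, P1, Q, hPsa, cfc_predicate _ _, cfc_predicate _ _, ?_, ?_, ?_, ?_, ?_, ?_⟩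
  · have h1 : R.comp P1 = R * P1 := rfl
    have h2 := cfc_mul (fun r : ℝ => r) p1 R continuousOn_id hp1c.continuousOn
    rw [cfc_id' ℝ R hR] at h2
    rw [h1, hP1, ← h2, hP]
    apply cfc_congr
    intro r _
    show sg r = r * (sg r / m r)
    rcases le_total (1 / B) r with h | h
    · have h2 : m r = r := max_eq_left h
      have h3 := hmpos r
      rw [h2] at h3 ⊢
      field_simp
    · have h2 : m r = 1 / B := max_eq_right h
      have h3 : sg r = 0 := by
        show Real.sqrt (min 1 (k * (B - 1 / m r))) = 0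
        rw [h2, one_div_one_div, sub_self, mul_zero, min_eq_right zero_le_one, Real.sqrt_zero]
      rw [h3]
      ring
  · rw [Complex.coe_smul, hP, hP1, hQ, ← cfc_const_mul B sg R hsgc.continuousOn,
      ← cfc_sub (fun r => B * sg r) p1 R (continuous_const.mul hsgc).continuousOn
        hp1c.continuousOn]
    apply cfc_congr
    intro r _
    show (B - 1 / m r) * sg r = B * sg r - sg r / m r
    ring
  · apply norm_cfc_le hνc.le
    intro r _
    rw [Real.norm_eq_abs, abs_of_nonneg (div_nonneg (hsg0 r) (hmpos r).le)]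
    calc sg r / m r ≤ 1 / m r := div_le_div_of_nonneg_right (hsg1 r) (hmpos r).le
      _ ≤ B := hminv r
  · apply norm_cfc_le zero_le_one
    intro r _
    rw [Real.norm_eq_abs, abs_of_nonneg (hsg0 r)]
    exact hsg1 r
  · intro φ
    rw [hinner, hPQ]
    have h1 : 0 ≤ cfc (fun r => F r * g r) R := by
      apply cfc_nonneg
      intro r _
      exact mul_nonneg (hF0 r) (hg0 r)
    have h2 := (ContinuousLinearMap.nonneg_iff_isPositive _).mp h1
    exact h2.re_inner_nonneg_right φ
  · intro φ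
    rw [hinner, hPQ]
    have h1 : negPow 1 ν c R = cfc F R := by
      unfold negPow
      apply cfc_congr
      intro r _
      show (if 0 < r then (max (ν + c - 1 / r) 0) ^ (1 : ℝ) else 0) = B - 1 / m r
      have h2 := lev_eq (r := r) hνc le_rfl
      rw [sub_zero] at h2
      rw [Real.rpow_one, h2]
      exact max_eq_left (hF0 r)
    have h2 : negPow 1 ν c R - cfc (fun r => F r * g r) R = cfc (fun r => F r - F r * g r) R := by
      rw [h1, ← cfc_sub F (fun r => F r * g r) R hFc.continuousOn (hFc.mul hgc).continuousOn]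
    have h3 : ‖cfc (fun r => F r - F r * g r) R‖ ≤ 1 / k := by
      apply norm_cfc_le (by positivity)
      intro r _
      have e1 : 0 ≤ F r - F r * g r := by
        have := mul_le_mul_of_nonneg_left (hg1 r) (hF0 r)
        linarith
      rw [Real.norm_eq_abs, abs_of_nonneg e1]
      rcases le_total 1 (k * F r) with h | h
      · have : g r = 1 := min_eq_left h
        rw [this, mul_one, sub_self]
        positivity
      · have h4 : F r ≤ 1 / k := by
          rw [le_div_iff₀ hk']
          linarith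
        have h5 := mul_nonneg (hF0 r) (hg0 r)
        linarith
    have h4 : (⟪φ, negPow 1 ν c R φ⟫_ℂ).re - (⟪φ, (cfc (fun r => F r * g r) R : H →L[ℂ] H) φ⟫_ℂ).re
        = (⟪φ, (cfc (fun r => F r - F r * g r) R : H →L[ℂ] H) φ⟫_ℂ).re := by
      rw [← h2, ContinuousLinearMap.sub_apply, inner_sub_right, Complex.sub_re]
    have h5 : (⟪φ, (cfc (fun r => F r - F r * g r) R : H →L[ℂ] H) φ⟫_ℂ).re ≤ ‖φ‖ ^ 2 / k := by
      calc (⟪φ, (cfc (fun r => F r - F r * g r) R : H →L[ℂ] H) φ⟫_ℂ).re
          ≤ ‖⟪φ, (cfc (fun r => F r - F r * g r) R : H →L[ℂ] H) φ⟫_ℂ‖ := Complex.re_le_norm _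
        _ ≤ ‖φ‖ * ‖(cfc (fun r => F r - F r * g r) R : H →L[ℂ] H) φ‖ := norm_inner_le_norm _ _
        _ ≤ ‖φ‖ * (‖(cfc (fun r => F r - F r * g r) R : H →L[ℂ] H)‖ * ‖φ‖) := by
            gcongr
            exact ContinuousLinearMap.le_opNorm _ _
        _ ≤ ‖φ‖ * (1 / k * ‖φ‖) := by gcongr
        _ = ‖φ‖ ^ 2 / k := by ring
    linarith

end Pool.Agent.Helper209.PL.Cfc1
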