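import Pool.Agent.Helper209.PL.Defs

set_option autoImplicit false

namespace Pool.Agent.Helper209.PL.Cfc2

open MeasureTheory Set
open scoped SchwartzMap InnerProductSpace FourierTransform


section lf
variable {H : Type*} [NormedAddCommGroup H] [InnerProductSpace ℂ H] [CompleteSpace H]

omit [CompleteSpace H] in
lemma lf_pos_inner {D : H →L[ℂ] H} (hD : 0 ≤ D) (φ : H) : 0 ≤ (⟪φ, D φ⟫_ℂ).re := by
  rw [ContinuousLinearMap.nonneg_iff_isPositive] at hD
  exact hD.re_inner_nonneg_right φ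

lemma lf_sa_inner {P : H →L[ℂ] H} (hP : IsSelfAdjoint P) (x y : H) : ⟪P x, y⟫_ℂ = ⟪x, P y⟫_ℂ :=
  (ContinuousLinearMap.isSelfAdjoint_iff_isSymmetric.mp hP) x y

end lf

/-- factorisation through (approximate) spectral projections -/
theorem level_factor {H : Type*} [NormedAddCommGroup H] [InnerProductSpace ℂ H] [CompleteSpace H]
    (ν c : ℝ) (hνc : 0 < ν + c) (R : H →L[ℂ] H) (hR : IsSelfAdjoint R) (k : ℕ) (hk : 0 < k) :
    ∃ P P1 P2 Q : H →L[ℂ] H, IsSelfAdjoint P ∧ IsSelfAdjoint Q ∧ IsSelfAdjoint P1 ∧ IsSelfAdjoint P2 ∧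
      P = R.comp P1 ∧ P1 = R.comp P2 ∧ Q = ((ν + c : ℝ) : ℂ) • P - P1 ∧ ‖P1‖ ≤ ν + c ∧ ‖P‖ ≤ 1 ∧
      (∀ φ : H, 0 ≤ (⟪P φ, Q φ⟫_ℂ).re) ∧
      (∀ φ : H, (⟪φ, negPow 1 ν c R φ⟫_ℂ).re ≤ (⟪P φ, Q φ⟫_ℂ).re + ‖φ‖ ^ 2 / k) := by
  set s : ℝ := ν + c with hs
  have hkR : (0 : ℝ) < k := by exact_mod_cast hk
  -- the basic functions
  set m : ℝ → ℝ := fun r => (max r s⁻¹)⁻¹ with hm
  have hmaxpos : ∀ r : ℝ, 0 < max r s⁻¹ := fun r => lt_max_of_lt_right (inv_pos.mpr hνc)
  have hmc : Continuous m := by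
    rw [hm]
    exact (continuous_id.max continuous_const).inv₀ (fun r => (hmaxpos r).ne')
  have hm0 : ∀ r, 0 < m r := fun r => inv_pos.mpr (hmaxpos r)
  have hms : ∀ r, m r ≤ s := by
    intro r
    have h1 : s⁻¹ ≤ max r s⁻¹ := le_max_right _ _
    have h2 := inv_anti₀ (inv_pos.mpr hνc) h1
    rw [inv_inv] at h2
    exact h2
  set F : ℝ → ℝ := fun r => s - m r with hF
  have hFc : Continuous F := continuous_const.sub hmc
  have hF0 : ∀ r, 0 ≤ F r := fun r => sub_nonneg.mpr (hms r)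
  have hFle : ∀ r, r ≤ s⁻¹ → F r = 0 := by
    intro r hr
    simp only [hF, hm]
    rw [max_eq_right hr, inv_inv, sub_self]
  set q : ℝ → ℝ := fun r => Real.sqrt (min 1 (k * F r)) with hq
  have hqc : Continuous q := (continuous_const.min (continuous_const.mul hFc)).sqrt
  have hg0 : ∀ r, 0 ≤ min 1 (k * F r) := fun r => le_min zero_le_one (mul_nonneg hkR.le (hF0 r))
  have hq0 : ∀ r, 0 ≤ q r := fun r => Real.sqrt_nonneg _
  have hq1 : ∀ r, q r ≤ 1 := by
    intro r
    rw [hq]
    simp only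
    exact Real.sqrt_le_iff.mpr ⟨zero_le_one, by rw [one_pow]; exact min_le_left _ _⟩
  have hqq : ∀ r, q r * q r = min 1 (k * F r) := fun r => Real.mul_self_sqrt (hg0 r)
  have hqz : ∀ r, r ≤ s⁻¹ → q r = 0 := by
    intro r hr
    simp only [hq]
    rw [hFle r hr, mul_zero, min_eq_right zero_le_one, Real.sqrt_zero]
  have hrm : ∀ r, r * (q r * m r) = q r := by
    intro r
    rcases le_or_gt r s⁻¹ with h | h
    · rw [hqz r h]; ring
    · have hr : 0 < r := (inv_pos.mpr hνc).trans h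
      simp only [hm]
      rw [max_eq_left h.le]
      field_simp
  -- negPow
  have hneg : negPow 1 ν c R = cfc F R := by
    unfold negPow
    congr 1
    funext r
    rw [Real.rpow_one, ← hs]
    split_ifs with h
    · simp only [hF, hm]
      rcases le_or_gt r s⁻¹ with h1 | h1
      · rw [max_eq_right h1, inv_inv, sub_self, max_eq_right]
        have h2 := inv_anti₀ h h1
        rw [inv_inv] at h2
        rw [one_div]; linarith
      · rw [max_eq_left h1.le, one_div, max_eq_left]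
        have h2 := inv_anti₀ (inv_pos.mpr hνc) h1.le
        rw [inv_inv] at h2
        linarith
    · push Not at h
      exact (hFle r (h.trans (inv_pos.mpr hνc).le)).symm
  set P : H →L[ℂ] H := cfc q R with hP
  set P1 : H →L[ℂ] H := cfc (fun r => q r * m r) R with hP1
  set P2 : H →L[ℂ] H := cfc (fun r => q r * m r * m r) R with hP2
  have c1 : Continuous (fun r => q r * m r) := hqc.mul hmc
  have c2 : Continuous (fun r => q r * m r * m r) := c1.mul hmc
  have hRid : cfc (fun r : ℝ => r) R = R := cfc_id' ℝ R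
  have e1 : P = R.comp P1 := by
    change P = R * P1
    conv_rhs => rw [← hRid]
    rw [hP1, ← cfc_mul (fun r : ℝ => r) (fun r => q r * m r) R continuous_id.continuousOn
      c1.continuousOn]
    rw [hP]
    congr 1
    funext r
    exact (hrm r).symm
  have e2 : P1 = R.comp P2 := by
    change P1 = R * P2
    conv_rhs => rw [← hRid]
    rw [hP2, ← cfc_mul (fun r : ℝ => r) (fun r => q r * m r * m r) R continuous_id.continuousOn
      c2.continuousOn]
    rw [hP1]
    congr 1
    funext r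
    rw [← mul_assoc, hrm r]
  set Q : H →L[ℂ] H := cfc (fun r => q r * F r) R with hQ
  have c3 : Continuous (fun r => q r * F r) := hqc.mul hFc
  have e3 : Q = ((s : ℝ) : ℂ) • P - P1 := by
    have h1 : ((s : ℝ) : ℂ) • P = cfc (fun r => s * q r) R := by
      rw [cfc_const_mul s q R hqc.continuousOn]
      rfl
    rw [h1, hP1, ← cfc_sub (fun r => s * q r) (fun r => q r * m r) R
      (continuous_const.mul hqc).continuousOn c1.continuousOn, hQ]
    congr 1
    funext r
    simp only [hF]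
    ring
  have hPQ : P * Q = cfc (fun r => q r * (q r * F r)) R := by
    rw [hP, hQ, ← cfc_mul q (fun r => q r * F r) R hqc.continuousOn c3.continuousOn]
  have hPsa : IsSelfAdjoint P := cfc_predicate q R
  have c4 : Continuous (fun r => q r * (q r * F r)) := hqc.mul c3
  refine ⟨P, P1, P2, Q, hPsa, cfc_predicate _ R, cfc_predicate _ R, cfc_predicate _ R, e1, e2, e3,
    ?_, ?_, ?_, ?_⟩
  · apply norm_cfc_le hνc.le
    intro r _
    rw [Real.norm_eq_abs, abs_of_nonneg (mul_nonneg (hq0 r) (hm0 r).le)]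
    calc q r * m r ≤ 1 * s := mul_le_mul (hq1 r) (hms r) (hm0 r).le zero_le_one
      _ = s := one_mul s
  · apply norm_cfc_le zero_le_one
    intro r _
    rw [Real.norm_eq_abs, abs_of_nonneg (hq0 r)]
    exact hq1 r
  · intro φ
    rw [lf_sa_inner hPsa]
    have h1 : P (Q φ) = (P * Q) φ := rfl
    rw [h1]
    apply lf_pos_inner
    rw [hPQ]
    apply cfc_nonneg
    intro r _
    exact mul_nonneg (hq0 r) (mul_nonneg (hq0 r) (hF0 r))
  · intro φ
    rw [lf_sa_inner hPsa, hneg]
    have h1 : P (Q φ) = (P * Q) φ := rfl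
    rw [h1]
    have hD : 0 ≤ P * Q + (((1 / k : ℝ) : ℂ) • (1 : H →L[ℂ] H)) - cfc F R := by
      have h2 : (((1 / k : ℝ) : ℂ) • (1 : H →L[ℂ] H)) = cfc (fun _ : ℝ => (1 / k : ℝ)) R := by
        rw [cfc_const (1 / k : ℝ) R]
        rw [Algebra.algebraMap_eq_smul_one]
        rfl
      rw [hPQ, h2, ← cfc_add _ _ _ c4.continuousOn continuous_const.continuousOn,
        ← cfc_sub (fun x => q x * (q x * F x) + 1 / (k : ℝ)) F R
          (c4.add continuous_const).continuousOn hFc.continuousOn]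
      apply cfc_nonneg
      intro r _
      rw [← mul_assoc, hqq]
      have hFr := hF0 r
      rcases le_or_gt 1 (k * F r) with h | h
      · rw [min_eq_left h]
        have : (0 : ℝ) ≤ 1 / k := by positivity
        linarith
      · rw [min_eq_right h.le]
        have h3 : F r ≤ 1 / k := by
          rw [le_div_iff₀ hkR]; linarith
        have h4 : 0 ≤ k * F r * F r := by positivity
        linarith
    have h5 := lf_pos_inner hD φ
    have h6 : (⟪φ, (P * Q + (((1 / k : ℝ) : ℂ) • (1 : H →L[ℂ] H)) - cfc F R) φ⟫_ℂ).re =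
        (⟪φ, (P * Q) φ⟫_ℂ).re + ‖φ‖ ^ 2 / k - (⟪φ, cfc F R φ⟫_ℂ).re := by
      rw [sub_apply, add_apply, smul_apply, one_apply_eq_self, inner_sub_right,
        inner_add_right, inner_smul_right, inner_self_eq_norm_sq_to_K, Complex.sub_re,
        Complex.add_re]
      have h7 : ((((1 / k : ℝ) : ℂ)) * ((‖φ‖ : ℂ)) ^ 2).re = ‖φ‖ ^ 2 / k := by
        rw [← Complex.ofReal_pow, ← Complex.ofReal_mul, Complex.ofReal_re]
        ring
      rw [← h7]
      rfl
    rw [h6] at h5
    linarith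

end Pool.Agent.Helper209.PL.Cfc2
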