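import Pool.Agent.Helper209.PL.Defs

set_option autoImplicit false

namespace Pool.Agent.Helper209.PL.CfcFour

open MeasureTheory Set
open scoped SchwartzMap InnerProductSpace FourierTransform


section WStmts
def FreeFourierStmt : Prop := ∀ (c : ℝ), 0 < c → ∀ (R0 : L2R →L[ℂ] L2R), IsResolvent (fun _ => 0) c R0 → ∀ (f : L2R),
    ((𝓕 (R0 f) : L2R) : ℝ → ℂ) =ᵐ[volume]
      (fun ξ => ((1 / ((2 * Real.pi * ξ) ^ 2 + c) : ℝ) : ℂ) * ((𝓕 f : L2R) : ℝ → ℂ) ξ)
end WStmts

theorem approx_aux {H : Type*} [NormedAddCommGroup H] [InnerProductSpace ℂ H] [CompleteSpace H]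
    (R : H →L[ℂ] H) (hsa : IsSelfAdjoint R) (h : ℝ → ℝ) (hc : Continuous h) (K : ℝ)
    (hK : ‖R‖ * ‖(1 : H →L[ℂ] H)‖ ≤ K) (p : Polynomial ℝ) (ε : ℝ) (hε : 0 ≤ ε)
    (hp : ∀ x ∈ Icc (-K) K, |p.eval x - h x| ≤ ε) : ‖Polynomial.aeval R p - cfc h R‖ ≤ ε := by
  rw [← cfc_polynomial p R, ← cfc_sub (fun x => p.eval x) h R (by fun_prop) hc.continuousOn]
  refine norm_cfc_le hε fun x hx => ?_
  have h1 := spectrum.norm_le_norm_mul_of_mem hx
  have h2 : |x| ≤ K := le_trans h1 hK
  rw [Real.norm_eq_abs]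
  exact hp x (abs_le.1 h2)

/-- the function of the functional calculus -/
noncomputable def hfun (γ μ c : ℝ) (r : ℝ) : ℝ := if 0 < r then (max (μ + c - 1 / r) 0) ^ γ else 0

theorem hfun_continuous {γ μ c : ℝ} (hγ : 0 < γ) (hμc : 0 < μ + c) : Continuous (hfun γ μ c) := by
  rw [continuous_iff_continuousAt]
  intro r0
  by_cases hr : 0 < r0
  · have h1 : hfun γ μ c =ᶠ[nhds r0] fun r => (max (μ + c - 1 / r) 0) ^ γ := by
      filter_upwards [lt_mem_nhds hr] with r hr'
      unfold hfun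
      rw [if_pos hr']
    refine ContinuousAt.congr ?_ h1.symm
    refine ContinuousAt.rpow_const ?_ (Or.inr hγ.le)
    refine Filter.Tendsto.max ?_ tendsto_const_nhds
    refine continuousAt_const.sub ?_
    exact continuousAt_const.div continuousAt_id hr.ne'
  · have h0 : r0 < 1 / (μ + c) := lt_of_le_of_lt (not_lt.1 hr) (by positivity)
    have h1 : hfun γ μ c =ᶠ[nhds r0] fun _ => 0 := by
      filter_upwards [gt_mem_nhds h0] with r hr'
      unfold hfun
      split_ifs with h2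
      · have h3 : μ + c ≤ 1 / r := by
          rw [le_div_iff₀ h2]
          have := (lt_div_iff₀ hμc).1 hr'
          linarith [mul_comm r (μ + c)]
        rw [max_eq_right (by linarith), Real.zero_rpow hγ.ne']
      · rfl
    exact continuousAt_const.congr h1.symm

theorem negPow_approx {H : Type*} [NormedAddCommGroup H] [InnerProductSpace ℂ H] [CompleteSpace H]
    (γ μ c : ℝ) (R : H →L[ℂ] H) (hsa : IsSelfAdjoint R) (hγ : 0 < γ) (hμc : 0 < μ + c) (K0 : ℝ) :
    ∃ p : ℕ → Polynomial ℝ,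
      Filter.Tendsto (fun n => Polynomial.aeval R (p n)) Filter.atTop (nhds (negPow γ μ c R)) ∧
      ∀ x ∈ Icc (-K0) K0, Filter.Tendsto (fun n => (p n).eval x) Filter.atTop
        (nhds (hfun γ μ c x)) := by
  have hcont := hfun_continuous hγ hμc
  set K : ℝ := max (‖R‖ * ‖(1 : H →L[ℂ] H)‖) K0 with hK
  have h1 : ∀ n : ℕ, ∃ p : Polynomial ℝ, ∀ x ∈ Icc (-K) K,
      |p.eval x - hfun γ μ c x| < 1 / ((n : ℝ) + 1) := fun n =>
    exists_polynomial_near_of_continuousOn (-K) K _ hcont.continuousOn _ (by positivity)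
  choose p hp using h1
  refine ⟨p, ?_, ?_⟩
  · rw [tendsto_iff_norm_sub_tendsto_zero]
    refine squeeze_zero (fun n => norm_nonneg _) (fun n => ?_)
      tendsto_one_div_add_atTop_nhds_zero_nat
    exact approx_aux R hsa (hfun γ μ c) hcont K (le_max_left _ _) (p n) _ (by positivity)
      (fun x hx => (hp n x hx).le)
  · intro x hx
    rw [tendsto_iff_norm_sub_tendsto_zero]
    refine squeeze_zero (fun n => norm_nonneg _) (fun n => ?_)
      tendsto_one_div_add_atTop_nhds_zero_nat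
    have hx' : x ∈ Icc (-K) K := by
      have := le_max_right (‖R‖ * ‖(1 : H →L[ℂ] H)‖) K0
      exact ⟨by linarith [hx.1], by linarith [hx.2]⟩
    exact (hp n x hx').le

theorem poly_fourier (hF : FreeFourierStmt) (c : ℝ) (hc : 0 < c)
    (R0 : L2R →L[ℂ] L2R) (hR : IsResolvent (fun _ => 0) c R0) (p : Polynomial ℝ) :
    ∀ f : L2R, ((𝓕 (Polynomial.aeval R0 p f) : L2R) : ℝ → ℂ) =ᵐ[volume]
      (fun ξ => ((p.eval (1 / ((2 * Real.pi * ξ) ^ 2 + c)) : ℝ) : ℂ) * ((𝓕 f : L2R) : ℝ → ℂ) ξ) := by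
  induction p using Polynomial.induction_on' with
  | add p q hp hq =>
    intro f
    have e1 : Polynomial.aeval R0 (p + q) f = Polynomial.aeval R0 p f + Polynomial.aeval R0 q f := by
      rw [map_add]; rfl
    rw [e1, FourierTransform.fourier_add]
    filter_upwards [hp f, hq f, Lp.coeFn_add (𝓕 (Polynomial.aeval R0 p f) : L2R)
      (𝓕 (Polynomial.aeval R0 q f) : L2R)] with ξ h1 h2 h3
    rw [h3, Pi.add_apply, h1, h2, Polynomial.eval_add]
    push_cast
    ring
  | monomial n a =>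
    induction n generalizing a with
    | zero =>
      intro f
      have e1 : Polynomial.aeval R0 (Polynomial.monomial 0 a) f = (a : ℂ) • f := by
        rw [Polynomial.monomial_zero_left, Polynomial.aeval_C]
        rfl
      rw [e1, FourierTransform.fourier_smul]
      filter_upwards [Lp.coeFn_smul (a : ℂ) (𝓕 f : L2R)] with ξ h1
      rw [h1, Polynomial.monomial_zero_left, Polynomial.eval_C, Pi.smul_apply, smul_eq_mul]
    | succ n ih =>
      intro f
      have e1 : Polynomial.aeval R0 (Polynomial.monomial (n + 1) a) f =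
          Polynomial.aeval R0 (Polynomial.monomial n a) (R0 f) := by
        rw [← Polynomial.monomial_mul_X, map_mul, Polynomial.aeval_X]
        rfl
      rw [e1]
      filter_upwards [ih a (R0 f), hF c hc R0 hR f] with ξ h1 h2
      rw [h1, h2, ← Polynomial.monomial_mul_X, Polynomial.eval_mul, Polynomial.eval_X]
      push_cast
      ring

/-- functional calculus of the free resolvent is a Fourier multiplier -/
theorem negPow_fourier (hF : FreeFourierStmt) (s μ c : ℝ) (hs : 0 < s) (hμ : 0 < μ) (hc : 0 < c)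
    (R0 : L2R →L[ℂ] L2R) (hR : IsResolvent (fun _ => 0) c R0) (hsa : IsSelfAdjoint R0) (f : L2R) :
    ((𝓕 (negPow s μ c R0 f) : L2R) : ℝ → ℂ) =ᵐ[volume]
      (fun ξ => (((max (μ - (2 * Real.pi * ξ) ^ 2) 0) ^ s : ℝ) : ℂ) * ((𝓕 f : L2R) : ℝ → ℂ) ξ) := by
  obtain ⟨p, hp1, hp2⟩ := negPow_approx s μ c R0 hsa hs (by linarith) (1 / c)
  have h1 : Filter.Tendsto (fun n => Polynomial.aeval R0 (p n) f) Filter.atTop
      (nhds (negPow s μ c R0 f)) := by
    have hcont : Continuous (fun T : L2R →L[ℂ] L2R => T f) :=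
      (ContinuousLinearMap.apply ℂ L2R f).continuous
    exact (hcont.tendsto _).comp hp1
  have h2 : Filter.Tendsto (fun n => (𝓕 (Polynomial.aeval R0 (p n) f) : L2R)) Filter.atTop
      (nhds (𝓕 (negPow s μ c R0 f) : L2R)) :=
    ((FourierTransform.continuous_fourier (E := L2R) (F := L2R)).tendsto _).comp h1
  obtain ⟨ns, hns, hae⟩ := (tendstoInMeasure_of_tendsto_Lp h2).exists_seq_tendsto_ae
  have hall : ∀ᵐ ξ : ℝ, ∀ n : ℕ, ((𝓕 (Polynomial.aeval R0 (p n) f) : L2R) : ℝ → ℂ) ξ =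
      (((p n).eval (1 / ((2 * Real.pi * ξ) ^ 2 + c)) : ℝ) : ℂ) * ((𝓕 f : L2R) : ℝ → ℂ) ξ := by
    rw [ae_all_iff]
    intro n
    exact poly_fourier hF c hc R0 hR (p n) f
  filter_upwards [hae, hall] with ξ hξ1 hξ2
  have hpos : 0 < (2 * Real.pi * ξ) ^ 2 + c := by positivity
  have hmem : 1 / ((2 * Real.pi * ξ) ^ 2 + c) ∈ Icc (-(1 / c)) (1 / c) := by
    constructor
    · have : 0 < 1 / ((2 * Real.pi * ξ) ^ 2 + c) := by positivity
      have h3 : 0 < 1 / c := by positivity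
      linarith
    · exact one_div_le_one_div_of_le hc (by nlinarith [sq_nonneg (2 * Real.pi * ξ)])
  have h3 := (hp2 _ hmem).comp hns.tendsto_atTop
  have h4 : Filter.Tendsto (fun i => ((𝓕 (Polynomial.aeval R0 (p (ns i)) f) : L2R) : ℝ → ℂ) ξ)
      Filter.atTop (nhds (((hfun s μ c (1 / ((2 * Real.pi * ξ) ^ 2 + c)) : ℝ) : ℂ) *
        ((𝓕 f : L2R) : ℝ → ℂ) ξ)) := by
    simp only [hξ2]
    exact ((Complex.continuous_ofReal.tendsto _).comp h3).mul_const _
  rw [tendsto_nhds_unique hξ1 h4]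
  congr 2
  unfold hfun
  rw [if_pos (by positivity), one_div_one_div]
  congr 2
  ring

end Pool.Agent.Helper209.PL.CfcFour
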