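import Pool.Agent.Helper209.PL.Defs

set_option autoImplicit false

namespace Pool.Agent.Helper209.PL.Coarse

open MeasureTheory Set
open scoped SchwartzMap InnerProductSpace FourierTransform





lemma wave_cont (L : ℝ) (n : ℤ) : Continuous (wave L n) := by
  unfold wave; fun_prop

lemma trig_cont (L : ℝ) (s : Finset ℤ) (c : ℤ → ℂ) : Continuous (trig L s c) := by
  unfold trig
  exact continuous_finsetSum _ fun n _ => continuous_const.mul (wave_cont L n)

lemma dens_cont {ι : Type} [Fintype ι] (L : ℝ) (s : Finset ℤ) (c : ι → ℤ → ℂ) : Continuous (dens L s c) := by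
  unfold dens
  exact continuous_finsetSum _ fun i _ => ((trig_cont L s (c i)).norm).pow 2

lemma dens_nonneg {ι : Type} [Fintype ι] (L : ℝ) (s : Finset ℤ) (c : ι → ℤ → ℂ) (x : ℝ) : 0 ≤ dens L s c x :=
  Finset.sum_nonneg fun _ _ => by positivity

lemma wave_normsq {L : ℝ} (hL : 0 < L) (n : ℤ) (x : ℝ) : ‖wave L n x‖ ^ 2 = 1 / L := by
  unfold wave
  rw [norm_mul, Complex.norm_exp_ofReal_mul_I, mul_one, Complex.norm_real, Real.norm_eq_abs, sq_abs, div_pow,
    one_pow, Real.sq_sqrt hL.le]

lemma bes_sub {ι : Type} [Fintype ι] {s A : Finset ℤ} (hA : A ⊆ s) {c : ι → ℤ → ℂ} (hc : Bes s c) : Bes A c := by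
  classical
  intro a
  have h := hc (fun n => if n ∈ A then a n else 0)
  have e1 : ∀ i, ∑ n ∈ s, c i n * (if n ∈ A then a n else 0) = ∑ n ∈ A, c i n * a n := by
    intro i
    rw [← Finset.sum_subset hA]
    · exact Finset.sum_congr rfl fun n hn => by rw [if_pos hn]
    · intro n _ hn; rw [if_neg hn, mul_zero]
  have e2 : ∑ n ∈ s, ‖(if n ∈ A then a n else 0 : ℂ)‖ ^ 2 = ∑ n ∈ A, ‖a n‖ ^ 2 := by
    rw [← Finset.sum_subset hA]
    · exact Finset.sum_congr rfl fun n hn => by rw [if_pos hn]
    · intro n _ hn; rw [if_neg hn, norm_zero]; norm_num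
  simp only [e1] at h
  rw [e2] at h
  exact h

lemma bes_le_one {ι : Type} [Fintype ι] {s : Finset ℤ} {c : ι → ℤ → ℂ} (hc : Bes s c) {m : ℤ} (hm : m ∈ s) :
    ∑ i, ‖c i m‖ ^ 2 ≤ 1 := by
  classical
  have h := bes_sub (Finset.singleton_subset_iff.mpr hm) hc (fun _ => 1)
  simpa using h

lemma dens_le {ι : Type} [Fintype ι] {L : ℝ} (hL : 0 < L) {B : Finset ℤ} {c : ι → ℤ → ℂ} (hc : Bes B c) (x : ℝ) :
    dens L B c x ≤ (1 / L) * (B.card : ℝ) := by
  have h := hc (fun n => wave L n x)
  simp only [wave_normsq hL, Finset.sum_const, nsmul_eq_mul] at h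
  unfold dens trig
  rw [mul_comm]; exact h

lemma enr_sum {ι : Type} [Fintype ι] (L : ℝ) (V : ℝ → ℝ) (hV : Continuous V) (s : Finset ℤ) (c : ι → ℤ → ℂ) :
    ∑ i, enr L V s (c i) = (∑ n ∈ s, mom L n ^ 2 * ∑ i, ‖c i n‖ ^ 2) +
      ∫ x in (-(L / 2))..(L / 2), V x * dens L s c x := by
  unfold enr dens
  rw [Finset.sum_add_distrib]
  congr 1
  · rw [Finset.sum_comm]
    exact Finset.sum_congr rfl fun n _ => by rw [Finset.mul_sum]
  · simp only [Finset.mul_sum]
    rw [intervalIntegral.integral_finsetSum]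
    intro i _
    exact (hV.mul ((trig_cont L s (c i)).norm.pow 2)).intervalIntegrable _ _

lemma dens_split {ι : Type} [Fintype ι] (L : ℝ) (s A B : Finset ℤ) (hd : Disjoint A B) (hu : A ∪ B = s)
    (c : ι → ℤ → ℂ) (x : ℝ) : dens L s c x ≤ 2 * dens L A c x + 2 * dens L B c x := by
  classical
  unfold dens
  rw [Finset.mul_sum, Finset.mul_sum, ← Finset.sum_add_distrib]
  refine Finset.sum_le_sum fun i _ => ?_
  have h1 : trig L s (c i) x = trig L A (c i) x + trig L B (c i) x := by
    unfold trig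
    rw [← hu, Finset.sum_union hd]
  rw [h1]
  have h2 := norm_add_le (trig L A (c i) x) (trig L B (c i) x)
  have h3 := norm_nonneg (trig L A (c i) x + trig L B (c i) x)
  have h4 : ‖trig L A (c i) x + trig L B (c i) x‖ ^ 2 ≤ (‖trig L A (c i) x‖ + ‖trig L B (c i) x‖) ^ 2 :=
    pow_le_pow_left₀ h3 h2 2
  nlinarith [sq_nonneg (‖trig L A (c i) x‖ - ‖trig L B (c i) x‖)]

lemma eta_cont (k : ℝ) : Continuous (fun e : ℝ => Real.sqrt e / Real.pi + k) :=
  (Real.continuous_sqrt.div_const _).add continuous_const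

lemma eta_mono (k : ℝ) : MonotoneOn (fun e : ℝ => Real.sqrt e / Real.pi + k) (Ici 0) := by
  intro a _ b _ hab
  have : Real.sqrt a ≤ Real.sqrt b := Real.sqrt_le_sqrt hab
  simp only
  gcongr

lemma sqrt_mul_rpow {w : ℝ} (hw : 0 ≤ w) : w * Real.sqrt w = w ^ (3 / 2 : ℝ) := by
  rcases hw.eq_or_lt with h | h
  · rw [← h]; simp
  · rw [Real.sqrt_eq_rpow]
    nth_rewrite 1 [← Real.rpow_one w]
    rw [← Real.rpow_add h]; norm_num

/-- level inequality, coarse version -/
theorem core_coarse (hO : OrthStmt) (hT : TrigNormStmt) (hCle : CountLeStmt) (hClt : CountLtStmt)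
    (hR : RuminStmt)
    {ι : Type} [Fintype ι] (L ν : ℝ) (hL : 0 < L) (hν : 0 < ν) (s : Finset ℤ)
    (c : ι → ℤ → ℂ) (hc : Bes s c) (V : ℝ → ℝ) (hV : Continuous V) :
    (∑ i, (ν * (∑ n ∈ s, ‖c i n‖ ^ 2) - enr L V s (c i)))
      - (∑ n ∈ s, max (ν - mom L n ^ 2) 0)
      + (1 / L) * ((s.filter (fun n => mom L n ^ 2 < ν)).card : ℝ) * (∫ x in (-(L / 2))..(L / 2), V x)
    ≤ 3 * (∫ x in (-(L / 2))..(L / 2), (max (-V x) 0) ^ (3 / 2 : ℝ))
      + (Real.sqrt ν / Real.pi + 9 / L) * (∫ x in (-(L / 2))..(L / 2), |V x|) := by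
  classical
  set B := s.filter (fun n => mom L n ^ 2 < ν) with hB
  set A := s.filter (fun n => ¬ mom L n ^ 2 < ν) with hA
  have hABd : Disjoint A B := (Finset.disjoint_filter_filter_not s s _).symm
  have hABu : A ∪ B = s := by rw [Finset.union_comm]; exact Finset.filter_union_filter_not_eq _ s
  have hAs : A ⊆ s := Finset.filter_subset _ _
  have hBs : B ⊆ s := Finset.filter_subset _ _
  have hle : -(L / 2) ≤ L / 2 := by linarith
  set P : ℤ → ℝ := fun n => ∑ i, ‖c i n‖ ^ 2 with hP
  have hP0 : ∀ n, 0 ≤ P n := fun n => Finset.sum_nonneg fun _ _ => by positivity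
  set KA : ℝ := ∑ n ∈ A, (mom L n ^ 2 - ν) * P n with hKA
  set q : ℝ := (1 / L) * (B.card : ℝ) with hq
  have hq0 : 0 ≤ q := by positivity
  -- integrals
  set W : ℝ → ℝ := fun x => max (-V x) 0 with hW
  have hWc : Continuous W := hV.neg.max continuous_const
  have hW0 : ∀ x, 0 ≤ W x := fun x => le_max_right _ _
  have hsum1 : (∑ i, (ν * (∑ n ∈ s, ‖c i n‖ ^ 2) - enr L V s (c i))) =
      (∑ n ∈ s, (ν - mom L n ^ 2) * P n) - ∫ x in (-(L / 2))..(L / 2), V x * dens L s c x := by
    rw [Finset.sum_sub_distrib, enr_sum L V hV s c, ← Finset.mul_sum, Finset.sum_comm, Finset.mul_sum,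
      ← sub_sub, ← Finset.sum_sub_distrib]
    congr 1
    refine Finset.sum_congr rfl fun n _ => ?_
    simp only [hP]; ring
  have hsum2 : (∑ n ∈ s, (ν - mom L n ^ 2) * P n) - (∑ n ∈ s, max (ν - mom L n ^ 2) 0) ≤ -KA := by
    rw [← Finset.sum_sub_distrib, ← hABu, Finset.sum_union hABd, hKA]
    have h1 : ∑ n ∈ A, ((ν - mom L n ^ 2) * P n - max (ν - mom L n ^ 2) 0) =
        -∑ n ∈ A, (mom L n ^ 2 - ν) * P n := by
      rw [← Finset.sum_neg_distrib]
      refine Finset.sum_congr rfl fun n hn => ?_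
      have h2 : ν ≤ mom L n ^ 2 := not_lt.mp (Finset.mem_filter.mp hn).2
      rw [max_eq_right (by linarith)]; ring
    have h3 : ∑ n ∈ B, ((ν - mom L n ^ 2) * P n - max (ν - mom L n ^ 2) 0) ≤ 0 := by
      refine Finset.sum_nonpos fun n hn => ?_
      have h2 : mom L n ^ 2 < ν := (Finset.mem_filter.mp hn).2
      have h4 := bes_le_one hc (hBs hn)
      rw [max_eq_left (by linarith)]
      have : (ν - mom L n ^ 2) * P n ≤ (ν - mom L n ^ 2) * 1 :=
        mul_le_mul_of_nonneg_left h4 (by linarith)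
      linarith
    linarith
  -- potential part
  have hdc := dens_cont L s c
  have hdA := dens_cont L A c
  have hpot : -(∫ x in (-(L / 2))..(L / 2), V x * dens L s c x) + q * (∫ x in (-(L / 2))..(L / 2), V x) ≤
      (∫ x in (-(L / 2))..(L / 2), (2 * W x) * dens L A c x) + q * ∫ x in (-(L / 2))..(L / 2), |V x| := by
    rw [← intervalIntegral.integral_neg, ← intervalIntegral.integral_const_mul,
      ← intervalIntegral.integral_const_mul, ← intervalIntegral.integral_add, ← intervalIntegral.integral_add]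
    · refine intervalIntegral.integral_mono_on hle ?_ ?_ ?_
      · exact ((hV.mul hdc).neg.add (continuous_const.mul hV)).intervalIntegrable _ _
      · exact (((continuous_const.mul hWc).mul hdA).add (continuous_const.mul hV.abs)).intervalIntegrable _ _
      · intro x _
        have d1 := dens_split L s A B hABd hABu c x
        have d2 := dens_le hL (bes_sub hBs hc) x
        have d3 := dens_nonneg L s c x
        have d4 := dens_nonneg L A c x
        rw [← hq] at d2
        rcases le_total 0 (V x) with h0 | h0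
        · have hWx : W x = 0 := by simp only [hW]; exact max_eq_right (by linarith)
          rw [hWx, abs_of_nonneg h0]
          nlinarith [mul_nonneg h0 d3]
        · have hWx : W x = -V x := by simp only [hW]; exact max_eq_left (by linarith)
          rw [hWx, abs_of_nonpos h0]
          have h5 : dens L s c x ≤ 2 * dens L A c x + 2 * q := by linarith
          nlinarith [mul_le_mul_of_nonneg_left h5 (show 0 ≤ -V x by linarith)]
    · exact ((continuous_const.mul hWc).mul hdA).intervalIntegrable _ _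
    · exact (continuous_const.mul hV.abs).intervalIntegrable _ _
    · exact (hV.mul hdc).neg.intervalIntegrable _ _
    · exact (continuous_const.mul hV).intervalIntegrable _ _
  -- Rumin
  have hcount : ∀ e : ℝ, 0 ≤ e → ((A.filter (fun n => mom L n ^ 2 - ν ≤ e)).card : ℝ) ≤
      L * (Real.sqrt e / Real.pi + 2 / L) := by
    intro e he
    have h1 := hCle L (Real.sqrt ν) (Real.sqrt (ν + e)) hL (Real.sqrt_nonneg _)
      (Real.sqrt_le_sqrt (by linarith)) (A.filter (fun n => mom L n ^ 2 - ν ≤ e)) (by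
        intro n hn
        have hn' := Finset.mem_filter.mp hn
        have h2 : ν ≤ mom L n ^ 2 := not_lt.mp (Finset.mem_filter.mp hn'.1).2
        have h3 : mom L n ^ 2 ≤ ν + e := by linarith [hn'.2]
        rw [← Real.sqrt_sq_eq_abs]
        exact ⟨Real.sqrt_le_sqrt h2, Real.sqrt_le_sqrt h3⟩)
    refine h1.trans ?_
    have h4 : Real.sqrt (ν + e) ≤ Real.sqrt ν + Real.sqrt e := by
      rw [Real.sqrt_le_left (by positivity)]
      have a1 := Real.sq_sqrt hν.le
      have a2 := Real.sq_sqrt he
      nlinarith [Real.sqrt_nonneg ν, Real.sqrt_nonneg e, mul_nonneg (Real.sqrt_nonneg ν) (Real.sqrt_nonneg e)]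
    have h5 : Real.sqrt (ν + e) - Real.sqrt ν ≤ Real.sqrt e := by linarith
    gcongr
  have hrum := hR L hL A c (bes_sub hAs hc) (fun n => mom L n ^ 2 - ν) (fun n hn => by
      have h2 : ν ≤ mom L n ^ 2 := not_lt.mp (Finset.mem_filter.mp hn).2
      show 0 ≤ mom L n ^ 2 - ν
      linarith) (fun e => Real.sqrt e / Real.pi + 2 / L) (eta_cont _) (eta_mono _) hcount
      (fun x => 2 * W x) (continuous_const.mul hWc) (fun x => by have := hW0 x; positivity) 2 (by norm_num)
  have hrum' : (∫ x in (-(L / 2))..(L / 2), (2 * W x) * dens L A c x) ≤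
      KA + 2 * ∫ x in (-(L / 2))..(L / 2), (2 * W x) * (Real.sqrt (2 * (2 * W x)) / Real.pi + 2 / L) := by
    have : KA = ∑ n ∈ A, (mom L n ^ 2 - ν) * ∑ i, ‖c i n‖ ^ 2 := rfl
    rw [← this] at hrum
    linarith
  have hfin : 2 * (∫ x in (-(L / 2))..(L / 2), (2 * W x) * (Real.sqrt (2 * (2 * W x)) / Real.pi + 2 / L)) ≤
      3 * (∫ x in (-(L / 2))..(L / 2), (W x) ^ (3 / 2 : ℝ)) + (8 / L) * (∫ x in (-(L / 2))..(L / 2), |V x|) := by
    have hrp : Continuous (fun x => (W x) ^ (3 / 2 : ℝ)) := hWc.rpow_const (fun x => Or.inr (by norm_num))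
    rw [← intervalIntegral.integral_const_mul, ← intervalIntegral.integral_const_mul,
      ← intervalIntegral.integral_const_mul, ← intervalIntegral.integral_add]
    · refine intervalIntegral.integral_mono_on hle ?_ ?_ ?_
      · refine Continuous.intervalIntegrable ?_ _ _
        have : Continuous (fun x => Real.sqrt (2 * (2 * W x))) :=
          Real.continuous_sqrt.comp (continuous_const.mul (continuous_const.mul hWc))
        exact continuous_const.mul ((continuous_const.mul hWc).mul ((this.div_const _).add continuous_const))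
      · exact ((continuous_const.mul hrp).add (continuous_const.mul hV.abs)).intervalIntegrable _ _
      · intro x _
        have h0 := hW0 x
        have h1 : Real.sqrt (2 * (2 * W x)) = 2 * Real.sqrt (W x) := by
          have : 2 * (2 * W x) = 2 ^ 2 * W x := by ring
          rw [this, Real.sqrt_mul (by norm_num), Real.sqrt_sq (by norm_num)]
        have h2 := sqrt_mul_rpow h0
        have h3 : W x ≤ |V x| := by
          simp only [hW]; exact max_le (neg_le_abs _) (abs_nonneg _)
        rw [h1, ← h2]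
        have h4 : 2 * (2 * W x * (2 * Real.sqrt (W x) / Real.pi + 2 / L)) =
            (8 / Real.pi) * (W x * Real.sqrt (W x)) + (8 / L) * W x := by
          field_simp; ring
        rw [h4]
        have h5 : 8 / Real.pi ≤ 3 := by
          rw [div_le_iff₀ Real.pi_pos]; linarith [Real.pi_gt_three]
        have h6 : 0 ≤ W x * Real.sqrt (W x) := mul_nonneg h0 (Real.sqrt_nonneg _)
        have h7 : (8 / L) * W x ≤ (8 / L) * |V x| := mul_le_mul_of_nonneg_left h3 (by positivity)
        have h8 := mul_le_mul_of_nonneg_right h5 h6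
        linarith
    · exact (continuous_const.mul hrp).intervalIntegrable _ _
    · exact (continuous_const.mul hV.abs).intervalIntegrable _ _
  have hqle : q ≤ Real.sqrt ν / Real.pi + 1 / L := by
    have h1 := hClt L (Real.sqrt ν) hL (Real.sqrt_nonneg _) B (by
      intro n hn
      have h2 : mom L n ^ 2 < ν := (Finset.mem_filter.mp hn).2
      rw [← Real.sqrt_sq_eq_abs]
      exact Real.sqrt_le_sqrt h2.le)
    have h3 : q = (B.card : ℝ) / L := by rw [hq]; ring
    rw [h3, div_le_iff₀ hL]
    linarith [h1, mul_comm L (Real.sqrt ν / Real.pi + 1 / L)]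
  have hVabs : 0 ≤ ∫ x in (-(L / 2))..(L / 2), |V x| :=
    intervalIntegral.integral_nonneg hle fun x _ => abs_nonneg _
  have hql := mul_le_mul_of_nonneg_right hqle hVabs
  have e9 : (Real.sqrt ν / Real.pi + 9 / L) * (∫ x in (-(L / 2))..(L / 2), |V x|) =
      (Real.sqrt ν / Real.pi + 1 / L) * (∫ x in (-(L / 2))..(L / 2), |V x|) +
      (8 / L) * (∫ x in (-(L / 2))..(L / 2), |V x|) := by ring
  rw [hsum1, e9]
  linarith

/-- level inequality for nonpositive level `-σ` -/
theorem core_neg (hO : OrthStmt) (hT : TrigNormStmt) (hCle : CountLeStmt) (hClt : CountLtStmt)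
    (hR : RuminStmt)
    {ι : Type} [Fintype ι] (L σ : ℝ) (hL : 0 < L) (hσ : 0 ≤ σ) (s : Finset ℤ)
    (c : ι → ℤ → ℂ) (hc : Bes s c) (V : ℝ → ℝ) (hV : Continuous V) :
    (∑ i, (-σ * (∑ n ∈ s, ‖c i n‖ ^ 2) - enr L V s (c i)))
    ≤ (∫ x in (-(L / 2))..(L / 2), (max (-V x - σ) 0) ^ (3 / 2 : ℝ))
      + (2 / L) * (∫ x in (-(L / 2))..(L / 2), max (-V x - σ) 0) := by
  classical
  have hle : -(L / 2) ≤ L / 2 := by linarith
  set v : ℝ → ℝ := fun x => max (-V x - σ) 0 with hv
  have hvc : Continuous v := (hV.neg.sub continuous_const).max continuous_const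
  have hv0 : ∀ x, 0 ≤ v x := fun x => le_max_right _ _
  have hdc := dens_cont L s c
  set K0 : ℝ := ∑ n ∈ s, mom L n ^ 2 * ∑ i, ‖c i n‖ ^ 2 with hK0
  have hnorm : ∑ i, ∑ n ∈ s, ‖c i n‖ ^ 2 = ∫ x in (-(L / 2))..(L / 2), dens L s c x := by
    unfold dens
    rw [intervalIntegral.integral_finsetSum]
    · exact Finset.sum_congr rfl fun i _ => (hT L hL s (c i)).symm
    · intro i _
      exact ((trig_cont L s (c i)).norm.pow 2).intervalIntegrable _ _
  have hsum : (∑ i, (-σ * (∑ n ∈ s, ‖c i n‖ ^ 2) - enr L V s (c i))) ≤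
      -K0 + ∫ x in (-(L / 2))..(L / 2), v x * dens L s c x := by
    rw [Finset.sum_sub_distrib, enr_sum L V hV s c, ← Finset.mul_sum, hnorm, ← hK0,
      ← intervalIntegral.integral_const_mul, ← sub_sub]
    have h1 : (∫ x in (-(L / 2))..(L / 2), -σ * dens L s c x) - (∫ x in (-(L / 2))..(L / 2), V x * dens L s c x) ≤
        ∫ x in (-(L / 2))..(L / 2), v x * dens L s c x := by
      rw [← intervalIntegral.integral_sub]
      · refine intervalIntegral.integral_mono_on hle ?_ ?_ ?_
        · exact ((continuous_const.mul hdc).sub (hV.mul hdc)).intervalIntegrable _ _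
        · exact (hvc.mul hdc).intervalIntegrable _ _
        · intro x _
          have h2 : -V x - σ ≤ v x := le_max_left _ _
          have h3 := mul_le_mul_of_nonneg_right h2 (dens_nonneg L s c x)
          linarith
      · exact (continuous_const.mul hdc).intervalIntegrable _ _
      · exact (hV.mul hdc).intervalIntegrable _ _
    linarith
  have hcount : ∀ e : ℝ, 0 ≤ e → ((s.filter (fun n => mom L n ^ 2 ≤ e)).card : ℝ) ≤
      L * (Real.sqrt e / Real.pi + 1 / L) := by
    intro e he
    refine hClt L (Real.sqrt e) hL (Real.sqrt_nonneg _) _ ?_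
    intro n hn
    have h2 : mom L n ^ 2 ≤ e := (Finset.mem_filter.mp hn).2
    rw [← Real.sqrt_sq_eq_abs]
    exact Real.sqrt_le_sqrt h2
  have hrum := hR L hL s c hc (fun n => mom L n ^ 2) (fun n _ => by positivity)
      (fun e => Real.sqrt e / Real.pi + 1 / L) (eta_cont _) (eta_mono _) hcount
      v hvc hv0 2 (by norm_num)
  have hrum' : (∫ x in (-(L / 2))..(L / 2), v x * dens L s c x) ≤
      K0 + 2 * ∫ x in (-(L / 2))..(L / 2), v x * (Real.sqrt (2 * v x) / Real.pi + 1 / L) := by
    simp only [← hK0] at hrum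
    linarith
  have hfin : 2 * (∫ x in (-(L / 2))..(L / 2), v x * (Real.sqrt (2 * v x) / Real.pi + 1 / L)) ≤
      (∫ x in (-(L / 2))..(L / 2), (v x) ^ (3 / 2 : ℝ)) + (2 / L) * (∫ x in (-(L / 2))..(L / 2), v x) := by
    have hrp : Continuous (fun x => (v x) ^ (3 / 2 : ℝ)) := hvc.rpow_const (fun x => Or.inr (by norm_num))
    rw [← intervalIntegral.integral_const_mul, ← intervalIntegral.integral_const_mul,
      ← intervalIntegral.integral_add]
    · refine intervalIntegral.integral_mono_on hle ?_ ?_ ?_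
      · refine Continuous.intervalIntegrable ?_ _ _
        have : Continuous (fun x => Real.sqrt (2 * v x)) :=
          Real.continuous_sqrt.comp (continuous_const.mul hvc)
        exact continuous_const.mul (hvc.mul ((this.div_const _).add continuous_const))
      · exact (hrp.add (continuous_const.mul hvc)).intervalIntegrable _ _
      · intro x _
        have h0 := hv0 x
        have h1 : Real.sqrt (2 * v x) = Real.sqrt 2 * Real.sqrt (v x) := Real.sqrt_mul (by norm_num) _
        have h2 := sqrt_mul_rpow h0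
        rw [h1, ← h2]
        have h4 : 2 * (v x * (Real.sqrt 2 * Real.sqrt (v x) / Real.pi + 1 / L)) =
            (2 * Real.sqrt 2 / Real.pi) * (v x * Real.sqrt (v x)) + (2 / L) * v x := by
          field_simp
        rw [h4]
        have h5 : 2 * Real.sqrt 2 / Real.pi ≤ 1 := by
          rw [div_le_one Real.pi_pos]
          have h6 : Real.sqrt 2 ≤ 1.5 := by
            rw [Real.sqrt_le_left (by norm_num)]; norm_num
          linarith [Real.pi_gt_three]
        have h6 : 0 ≤ v x * Real.sqrt (v x) := mul_nonneg h0 (Real.sqrt_nonneg _)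
        have h8 := mul_le_mul_of_nonneg_right h5 h6
        linarith
    · exact hrp.intervalIntegrable _ _
    · exact (continuous_const.mul hvc).intervalIntegrable _ _
  linarith

end Pool.Agent.Helper209.PL.Coarse
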