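import Pool.Agent.Helper209.PL.Defs

set_option autoImplicit false

namespace Pool.Agent.Helper209.PL.Count

open MeasureTheory Set
open scoped SchwartzMap InnerProductSpace FourierTransform


theorem card_Icc_real (s : Finset ℤ) (u v : ℝ) (huv : u ≤ v) (h : ∀ n ∈ s, u ≤ (n : ℝ) ∧ (n : ℝ) ≤ v) :
    (s.card : ℝ) ≤ v - u + 1 := by
  have hsub : s ⊆ Finset.Icc ⌈u⌉ ⌊v⌋ := by
    intro n hn
    rw [Finset.mem_Icc]
    exact ⟨Int.ceil_le.2 (h n hn).1, Int.le_floor.2 (h n hn).2⟩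
  have h1 := Finset.card_le_card hsub
  rw [Int.card_Icc] at h1
  have h2 : (s.card : ℤ) ≤ ((⌊v⌋ + 1 - ⌈u⌉).toNat : ℤ) := by exact_mod_cast h1
  rw [Int.toNat_eq_max] at h2
  have h3 : (s.card : ℝ) ≤ ((max (⌊v⌋ + 1 - ⌈u⌉) 0 : ℤ) : ℝ) := by exact_mod_cast h2
  refine h3.trans ?_
  rw [Int.cast_max]
  apply max_le
  · push_cast
    have := Int.floor_le v
    have := Int.le_ceil u
    linarith
  · push_cast; linarith

theorem count_le (L a b : ℝ) (hL : 0 < L) (ha : 0 ≤ a) (hab : a ≤ b) (s : Finset ℤ)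
    (h : ∀ n ∈ s, a ≤ |mom L n| ∧ |mom L n| ≤ b) : (s.card : ℝ) ≤ L * ((b - a) / Real.pi + 2 / L) := by
  have hpi := Real.pi_pos
  have hab' : a * L / (2 * Real.pi) ≤ b * L / (2 * Real.pi) := by gcongr
  have key : ∀ t : ℝ, (a ≤ 2 * Real.pi * t / L ↔ a * L / (2 * Real.pi) ≤ t) ∧
      (2 * Real.pi * t / L ≤ b ↔ t ≤ b * L / (2 * Real.pi)) := by
    intro t
    constructor
    · rw [le_div_iff₀ hL, div_le_iff₀ (by positivity)]
      constructor <;> intro h <;> linarith
    · rw [div_le_iff₀ hL, le_div_iff₀ (by positivity)]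
      constructor <;> intro h <;> linarith
  have h1 : ((s.filter (fun n => 0 ≤ n)).card : ℝ) ≤
      b * L / (2 * Real.pi) - a * L / (2 * Real.pi) + 1 := by
    apply card_Icc_real _ _ _ hab'
    intro n hn
    rw [Finset.mem_filter] at hn
    obtain ⟨h2, h3⟩ := h n hn.1
    have hn0 : (0 : ℝ) ≤ n := by exact_mod_cast hn.2
    have h4 : 0 ≤ mom L n := by unfold mom; positivity
    rw [abs_of_nonneg h4] at h2 h3
    exact ⟨(key n).1.1 h2, (key n).2.1 h3⟩
  have h2 : ((s.filter (fun n => ¬ 0 ≤ n)).card : ℝ) ≤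
      -(a * L / (2 * Real.pi)) - -(b * L / (2 * Real.pi)) + 1 := by
    apply card_Icc_real _ _ _ (by linarith)
    intro n hn
    rw [Finset.mem_filter] at hn
    obtain ⟨h2, h3⟩ := h n hn.1
    have hn0 : (n : ℝ) ≤ 0 := by
      have := hn.2
      push Not at this
      exact_mod_cast this.le
    have h4 : mom L n ≤ 0 := by
      unfold mom
      apply div_nonpos_of_nonpos_of_nonneg _ hL.le
      exact mul_nonpos_of_nonneg_of_nonpos (by positivity) hn0
    rw [abs_of_nonpos h4] at h2 h3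
    have h5 : -mom L n = 2 * Real.pi * (-(n : ℝ)) / L := by unfold mom; ring
    rw [h5] at h2 h3
    have h6 := (key (-(n : ℝ))).1.1 h2
    have h7 := (key (-(n : ℝ))).2.1 h3
    constructor <;> linarith
  have h3 := Finset.card_filter_add_card_filter_not (s := s) (fun n : ℤ => 0 ≤ n)
  have h4 : (s.card : ℝ) = ((s.filter (fun n => 0 ≤ n)).card : ℝ) +
      ((s.filter (fun n => ¬ 0 ≤ n)).card : ℝ) := by
    exact_mod_cast h3.symm
  have h5 : L * ((b - a) / Real.pi + 2 / L) =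
      2 * (b * L / (2 * Real.pi) - a * L / (2 * Real.pi) + 1) := by
    field_simp
  rw [h4, h5]
  linarith

theorem count_lt (L b : ℝ) (hL : 0 < L) (hb : 0 ≤ b) (s : Finset ℤ)
    (h : ∀ n ∈ s, |mom L n| ≤ b) : (s.card : ℝ) ≤ L * (b / Real.pi + 1 / L) := by
  have hpi := Real.pi_pos
  have h0 : 0 ≤ b * L / (2 * Real.pi) := by positivity
  have h1 : (s.card : ℝ) ≤ b * L / (2 * Real.pi) - -(b * L / (2 * Real.pi)) + 1 := by
    apply card_Icc_real _ _ _ (by linarith)
    intro n hn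
    have h2 := abs_le.1 (h n hn)
    unfold mom at h2
    rw [div_le_iff₀ hL, le_div_iff₀ hL] at h2
    constructor
    · rw [neg_le, div_eq_mul_inv, ← div_eq_mul_inv, le_div_iff₀ (by positivity)]
      linarith
    · rw [le_div_iff₀ (by positivity)]
      linarith
  have h5 : L * (b / Real.pi + 1 / L) = b * L / (2 * Real.pi) - -(b * L / (2 * Real.pi)) + 1 := by
    field_simp
    ring
  rw [h5]
  exact h1

end Pool.Agent.Helper209.PL.Count
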