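import Pool.Agent.Helper209.PL.Defs

set_option autoImplicit false

namespace Pool.Agent.Helper209.PL.Cut

open MeasureTheory Set
open scoped SchwartzMap InnerProductSpace FourierTransform


section aux26
open Filter Topology

theorem At_contDiff26 (ρ : ℝ) (hρ : 0 < ρ) : ContDiff ℝ 2 (fun x : ℝ => Real.smoothTransition (|x| / ρ - 1)) := by
  rw [contDiff_iff_contDiffAt]
  intro x
  by_cases hx : x = 0
  · have h1 : (fun x : ℝ => Real.smoothTransition (|x| / ρ - 1)) =ᶠ[𝓝 x] (fun _ => (0 : ℝ)) := by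
      have h2 : ∀ᶠ y in 𝓝 x, |y| < ρ := by
        have h3 : Tendsto (fun y : ℝ => |y|) (𝓝 x) (𝓝 |x|) := continuous_abs.tendsto x
        rw [hx, abs_zero] at h3
        rw [hx]
        exact h3.eventually (gt_mem_nhds hρ)
      filter_upwards [h2] with y hy
      apply Real.smoothTransition.zero_of_nonpos
      have : |y| / ρ < 1 := (div_lt_one hρ).2 hy
      linarith
    exact contDiffAt_const.congr_of_eventuallyEq h1
  · have h1 : ContDiffAt ℝ 2 (fun x : ℝ => |x| / ρ - 1) x :=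
      ((contDiffAt_abs hx).div_const ρ).sub contDiffAt_const
    exact (Real.smoothTransition.contDiff (n := 2)).contDiffAt.comp x h1

theorem At_mem26 (ρ x : ℝ) : 0 ≤ Real.smoothTransition (|x| / ρ - 1) ∧ Real.smoothTransition (|x| / ρ - 1) ≤ 1 :=
  ⟨Real.smoothTransition.nonneg _, Real.smoothTransition.le_one _⟩

theorem integral_le26 (g : ℝ → ℝ) (ρ B : ℝ) (hρ : 0 < ρ) (h0 : ∀ x, 2 * ρ < |x| → g x = 0)
    (hB : ∀ x, |g x| ≤ B) : ∫ x, g x ≤ B * (4 * ρ) := by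
  have h1 : ∫ x in Icc (-(2 * ρ)) (2 * ρ), g x = ∫ x, g x := by
    apply setIntegral_eq_integral_of_forall_compl_eq_zero
    intro x hx
    apply h0
    by_contra h
    push Not at h
    exact hx (abs_le.1 h)
  rw [← h1]
  have h2 := norm_setIntegral_le_of_norm_le_const (μ := (volume : Measure ℝ)) (s := Icc (-(2 * ρ)) (2 * ρ))
    (f := g) (C := B) (by rw [Real.volume_Icc]; exact ENNReal.ofReal_lt_top) (fun x _ => by
      rw [Real.norm_eq_abs]; exact hB x)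
  have h3 : (volume : Measure ℝ).real (Icc (-(2 * ρ)) (2 * ρ)) = 4 * ρ := by
    rw [Measure.real, Real.volume_Icc, ENNReal.toReal_ofReal (by linarith)]
    ring
  rw [h3] at h2
  exact (le_abs_self _).trans h2

theorem bdd_deriv26 (f : ℝ → ℝ) (hf : ContDiff ℝ 2 f) (h0 : ∀ x, 2 < |x| → deriv f x = 0) :
    ∃ K : ℝ, 0 < K ∧ ∀ x, |deriv f x| ≤ K := by
  have hc : Continuous (deriv f) := hf.continuous_deriv (by norm_num)
  obtain ⟨K, hK⟩ := (isCompact_Icc (a := (-2 : ℝ)) (b := 2)).exists_bound_of_continuousOn hc.continuousOn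
  refine ⟨|K| + 1, by positivity, fun x => ?_⟩
  by_cases hx : 2 < |x|
  · rw [h0 x hx, abs_zero]
    positivity
  · push Not at hx
    have := hK x (abs_le.1 hx)
    rw [Real.norm_eq_abs] at this
    linarith [le_abs_self K]

end aux26

/-- elementary properties of the cutoffs -/
theorem cutoff_facts (ρ : ℝ) (hρ : 0 < ρ) :
    ContDiff ℝ 2 (cutoff ρ) ∧ ContDiff ℝ 2 (cocut ρ) ∧ HasCompactSupport (cutoff ρ) ∧
    (∀ x, 0 ≤ cutoff ρ x ∧ cutoff ρ x ≤ 1) ∧ (∀ x, 0 ≤ cocut ρ x ∧ cocut ρ x ≤ 1) ∧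
    (∀ x, cutoff ρ x ^ 2 + cocut ρ x ^ 2 = 1) ∧
    (∀ x, |x| ≤ ρ → cutoff ρ x = 1 ∧ cocut ρ x = 0) ∧
    (∀ x, 2 * ρ ≤ |x| → cutoff ρ x = 0 ∧ cocut ρ x = 1) := by
  have hA := At_contDiff26 ρ hρ
  have h0 : ∀ x, |x| ≤ ρ → Real.smoothTransition (|x| / ρ - 1) = 0 := by
    intro x hx
    apply Real.smoothTransition.zero_of_nonpos
    have : |x| / ρ ≤ 1 := (div_le_one hρ).2 hx
    linarith
  have h1 : ∀ x, 2 * ρ ≤ |x| → Real.smoothTransition (|x| / ρ - 1) = 1 := by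
    intro x hx
    apply Real.smoothTransition.one_of_one_le
    have : 2 ≤ |x| / ρ := (le_div_iff₀ hρ).2 hx
    linarith
  have hrange : ∀ x, 0 ≤ (Real.pi / 2) * Real.smoothTransition (|x| / ρ - 1) ∧
      (Real.pi / 2) * Real.smoothTransition (|x| / ρ - 1) ≤ Real.pi / 2 := by
    intro x
    obtain ⟨h2, h3⟩ := At_mem26 ρ x
    have hpi := Real.pi_pos
    constructor
    · positivity
    · nlinarith
  have hout : ∀ x, 2 * ρ ≤ |x| → cutoff ρ x = 0 ∧ cocut ρ x = 1 := by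
    intro x hx
    unfold cutoff cocut
    rw [h1 x hx, mul_one, Real.cos_pi_div_two, Real.sin_pi_div_two]
    exact ⟨rfl, rfl⟩
  refine ⟨?_, ?_, ?_, ?_, ?_, ?_, ?_, hout⟩
  · exact Real.contDiff_cos.comp (contDiff_const.mul hA)
  · exact Real.contDiff_sin.comp (contDiff_const.mul hA)
  · refine HasCompactSupport.intro (isCompact_Icc (a := -(2 * ρ)) (b := 2 * ρ)) ?_
    intro x hx
    refine (hout x ?_).1
    by_contra h
    push Not at h
    exact hx (abs_le.1 h.le)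
  · intro x
    obtain ⟨h2, h3⟩ := hrange x
    exact ⟨Real.cos_nonneg_of_neg_pi_div_two_le_of_le (by linarith [Real.pi_pos]) h3, Real.cos_le_one _⟩
  · intro x
    obtain ⟨h2, h3⟩ := hrange x
    exact ⟨Real.sin_nonneg_of_nonneg_of_le_pi h2 (by linarith [Real.pi_pos]), Real.sin_le_one _⟩
  · intro x
    exact Real.cos_sq_add_sin_sq _
  · intro x hx
    unfold cutoff cocut
    rw [h0 x hx, mul_zero, Real.cos_zero, Real.sin_zero]
    exact ⟨rfl, rfl⟩

/-- derivative bounds -/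
theorem cutoff_deriv : ∃ K : ℝ, 0 < K ∧ ∀ ρ : ℝ, 0 < ρ →
    (∀ x, |deriv (cutoff ρ) x| ≤ K / ρ ∧ |deriv (cocut ρ) x| ≤ K / ρ) ∧
    (∀ x, 2 * ρ < |x| → deriv (cutoff ρ) x = 0 ∧ deriv (cocut ρ) x = 0) ∧
    (∫ x, deriv (cutoff ρ) x ^ 2) ≤ K / ρ ∧
    (∀ L : ℝ, 0 < L → (∫ x in (-(L / 2))..(L / 2), deriv (cocut ρ) x ^ 2) ≤ K / ρ) ∧
    (∫ x, cutoff ρ x ^ 2) ≤ 4 * ρ := by
  -- derivatives vanish outside
  have hout : ∀ ρ : ℝ, 0 < ρ → ∀ x, 2 * ρ < |x| → deriv (cutoff ρ) x = 0 ∧ deriv (cocut ρ) x = 0 := by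
    intro ρ hρ x hx
    obtain ⟨_, _, _, _, _, _, _, h⟩ := cutoff_facts ρ hρ
    have hev : ∀ᶠ y in nhds x, 2 * ρ < |y| := by
      have h3 : Filter.Tendsto (fun y : ℝ => |y|) (nhds x) (nhds |x|) := continuous_abs.tendsto x
      exact h3.eventually (lt_mem_nhds hx)
    constructor
    · have h1 : cutoff ρ =ᶠ[nhds x] (fun _ => (0 : ℝ)) := by
        filter_upwards [hev] with y hy
        exact (h y hy.le).1
      rw [h1.deriv_eq, deriv_const]
    · have h1 : cocut ρ =ᶠ[nhds x] (fun _ => (1 : ℝ)) := by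
        filter_upwards [hev] with y hy
        exact (h y hy.le).2
      rw [h1.deriv_eq, deriv_const]
  obtain ⟨c1, c2, _, _, _, _, _, _⟩ := cutoff_facts 1 one_pos
  obtain ⟨K1, hK1, hb1⟩ := bdd_deriv26 (cutoff 1) c1 (fun x hx => (hout 1 one_pos x (by linarith)).1)
  obtain ⟨K2, hK2, hb2⟩ := bdd_deriv26 (cocut 1) c2 (fun x hx => (hout 1 one_pos x (by linarith)).2)
  have hsc1 : ∀ ρ : ℝ, 0 < ρ → cutoff ρ = fun x => cutoff 1 (ρ⁻¹ * x) := by
    intro ρ hρ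
    funext x
    unfold cutoff
    rw [abs_mul, abs_of_pos (inv_pos.2 hρ), div_one, div_eq_inv_mul |x| ρ]
  have hsc2 : ∀ ρ : ℝ, 0 < ρ → cocut ρ = fun x => cocut 1 (ρ⁻¹ * x) := by
    intro ρ hρ
    funext x
    unfold cocut
    rw [abs_mul, abs_of_pos (inv_pos.2 hρ), div_one, div_eq_inv_mul |x| ρ]
  set M := max K1 K2 with hM
  have hM0 : 0 < M := lt_max_of_lt_left hK1
  have hbd : ∀ ρ : ℝ, 0 < ρ → ∀ x, |deriv (cutoff ρ) x| ≤ M / ρ ∧ |deriv (cocut ρ) x| ≤ M / ρ := by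
    intro ρ hρ x
    rw [hsc1 ρ hρ, hsc2 ρ hρ, deriv_comp_mul_left, deriv_comp_mul_left, smul_eq_mul, smul_eq_mul,
      abs_mul, abs_mul, abs_of_pos (inv_pos.2 hρ), div_eq_inv_mul]
    have hi : 0 ≤ ρ⁻¹ := (inv_pos.2 hρ).le
    exact ⟨mul_le_mul_of_nonneg_left ((hb1 _).trans (le_max_left _ _)) hi,
      mul_le_mul_of_nonneg_left ((hb2 _).trans (le_max_right _ _)) hi⟩
  refine ⟨M + 4 * M ^ 2, by positivity, ?_⟩
  intro ρ hρ
  have hKρ : M / ρ ≤ (M + 4 * M ^ 2) / ρ := by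
    apply div_le_div_of_nonneg_right _ hρ.le
    nlinarith
  have hint : ∀ g : ℝ → ℝ, (∀ x, 2 * ρ < |x| → g x = 0) → (∀ x, |g x| ≤ M / ρ) →
      ∫ x, g x ^ 2 ≤ (M + 4 * M ^ 2) / ρ := by
    intro g hg0 hg1
    have h1 := integral_le26 (fun x => g x ^ 2) ρ ((M / ρ) ^ 2) hρ (fun x hx => by
      beta_reduce; rw [hg0 x hx]; norm_num) (fun x => by
      beta_reduce
      rw [abs_pow]
      exact pow_le_pow_left₀ (abs_nonneg _) (hg1 x) 2)
    refine h1.trans ?_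
    have h2 : (M / ρ) ^ 2 * (4 * ρ) = 4 * M ^ 2 / ρ := by
      field_simp
    rw [h2]
    apply div_le_div_of_nonneg_right _ hρ.le
    linarith
  refine ⟨fun x => ⟨(hbd ρ hρ x).1.trans hKρ, (hbd ρ hρ x).2.trans hKρ⟩, hout ρ hρ, ?_, ?_, ?_⟩
  · exact hint _ (fun x hx => (hout ρ hρ x hx).1) (fun x => (hbd ρ hρ x).1)
  · intro L hL
    have h1 := hint (deriv (cocut ρ)) (fun x hx => (hout ρ hρ x hx).2) (fun x => (hbd ρ hρ x).2)
    refine le_trans ?_ h1
    rw [intervalIntegral.integral_of_le (by linarith)]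
    apply setIntegral_le_integral
    · obtain ⟨_, c2, _⟩ := cutoff_facts ρ hρ
      have hc : Continuous (fun x => deriv (cocut ρ) x ^ 2) := (c2.continuous_deriv (by norm_num)).pow 2
      apply hc.integrable_of_hasCompactSupport
      refine HasCompactSupport.intro (isCompact_Icc (a := -(2 * ρ)) (b := 2 * ρ)) ?_
      intro x hx
      have : deriv (cocut ρ) x = 0 := by
        refine (hout ρ hρ x ?_).2
        by_contra h
        push Not at h
        exact hx (abs_le.1 h)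
      beta_reduce
      rw [this]; norm_num
    · exact Filter.Eventually.of_forall fun x => by
        rw [Pi.zero_apply]; positivity
  · obtain ⟨_, _, _, h4, _, _, _, h8⟩ := cutoff_facts ρ hρ
    have h1 := integral_le26 (fun x => cutoff ρ x ^ 2) ρ 1 hρ (fun x hx => by
      beta_reduce; rw [(h8 x hx.le).1]; norm_num) (fun x => by
      beta_reduce
      rw [abs_pow]
      apply pow_le_one₀ (abs_nonneg _)
      rw [abs_of_nonneg (h4 x).1]
      exact (h4 x).2)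
    linarith

/-- localisation formula -/
theorem ims (θ : ℝ → ℝ) (hθ : ContDiff ℝ 2 θ) (hs : HasCompactSupport θ) (V : ℝ → ℝ) (hV : Continuous V)
    (χ : 𝓢(ℝ, ℂ)) :
    (∫ x, (‖deriv (fun y : ℝ => (θ y : ℂ) * χ y) x‖ ^ 2 + V x * ‖(θ x : ℂ) * χ x‖ ^ 2))
      = (∫ x, θ x ^ 2 * ((starRingEnd ℂ) (χ x) * (-(deriv (deriv (χ : ℝ → ℂ)) x) + (V x : ℂ) * χ x)).re)
        + ∫ x, deriv θ x ^ 2 * ‖χ x‖ ^ 2 := by
  set χ1 : 𝓢(ℝ, ℂ) := SchwartzMap.derivCLM ℝ ℂ χ with hχ1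
  set χ2 : 𝓢(ℝ, ℂ) := SchwartzMap.derivCLM ℝ ℂ χ1 with hχ2
  have e1 : ∀ x, HasDerivAt (χ : ℝ → ℂ) (χ1 x) x := fun x => χ.hasDerivAt x
  have e2 : ∀ x, HasDerivAt (χ1 : ℝ → ℂ) (χ2 x) x := fun x => χ1.hasDerivAt x
  have hdd : ∀ x, deriv (deriv (χ : ℝ → ℂ)) x = χ2 x := fun x => rfl
  have hθd : ∀ x, HasDerivAt θ (deriv θ x) x := fun x =>
    (hθ.differentiable (by norm_num) x).hasDerivAt
  have hθc : Continuous θ := hθ.continuous
  have hθ'c : Continuous (deriv θ) := hθ.continuous_deriv (by norm_num)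
  have hs' : HasCompactSupport (deriv θ) := hs.deriv
  have hderiv : ∀ x, deriv (fun y : ℝ => (θ y : ℂ) * χ y) x = ((deriv θ x : ℝ) : ℂ) * χ x + (θ x : ℂ) * χ1 x := by
    intro x
    exact ((hθd x).ofReal_comp.mul (e1 x)).deriv
  have hG : ∀ x, HasDerivAt (fun y => θ y ^ 2 * ⟪χ y, χ1 y⟫_ℝ)
      (2 * θ x * deriv θ x * ⟪χ x, χ1 x⟫_ℝ + θ x ^ 2 * (⟪χ x, χ2 x⟫_ℝ + ⟪χ1 x, χ1 x⟫_ℝ)) x := by
    intro x
    have h1 := ((hθd x).pow 2).mul (HasDerivAt.inner ℝ (e1 x) (e2 x))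
    refine h1.congr_deriv ?_
    norm_num
  have cχ := χ.continuous
  have cχ1 := χ1.continuous
  have cχ2 := χ2.continuous
  have hGc : Continuous (fun y => θ y ^ 2 * ⟪χ y, χ1 y⟫_ℝ) := (hθc.pow 2).mul (cχ.inner cχ1)
  have hG'c : Continuous (fun x => 2 * θ x * deriv θ x * ⟪χ x, χ1 x⟫_ℝ + θ x ^ 2 * (⟪χ x, χ2 x⟫_ℝ + ⟪χ1 x, χ1 x⟫_ℝ)) :=
    (((continuous_const.mul hθc).mul hθ'c).mul (cχ.inner cχ1)).add
      ((hθc.pow 2).mul ((cχ.inner cχ2).add (cχ1.inner cχ1)))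
  -- support: everything vanishes outside the topological support of θ
  have hz : ∀ x, x ∉ tsupport θ → θ x = 0 ∧ deriv θ x = 0 := by
    intro x hx
    refine ⟨image_eq_zero_of_notMem_tsupport hx, ?_⟩
    have h1 : θ =ᶠ[nhds x] (fun _ => (0 : ℝ)) := by
      have h2 : (tsupport θ)ᶜ ∈ nhds x := (isClosed_tsupport θ).isOpen_compl.mem_nhds hx
      filter_upwards [h2] with y hy
      exact image_eq_zero_of_notMem_tsupport hy
    rw [h1.deriv_eq, deriv_const]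
  have hcs : ∀ F : ℝ → ℝ, Continuous F → (∀ x, θ x = 0 → deriv θ x = 0 → F x = 0) → Integrable F volume := by
    intro F hF h0
    apply hF.integrable_of_hasCompactSupport
    refine HasCompactSupport.intro hs ?_
    intro x hx
    obtain ⟨h1, h2⟩ := hz x hx
    exact h0 x h1 h2
  have hI := integral_eq_zero_of_hasDerivAt_of_integrable hG (hcs _ hG'c (fun x h1 h2 => by
    beta_reduce; rw [h1, h2]; ring)) (hcs _ hGc (fun x h1 h2 => by beta_reduce; rw [h1]; ring))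
  have hpt : ∀ x, ‖deriv (fun y : ℝ => (θ y : ℂ) * χ y) x‖ ^ 2 + V x * ‖(θ x : ℂ) * χ x‖ ^ 2
      = (θ x ^ 2 * ((starRingEnd ℂ) (χ x) * (-(deriv (deriv (χ : ℝ → ℂ)) x) + (V x : ℂ) * χ x)).re
        + deriv θ x ^ 2 * ‖χ x‖ ^ 2) +
        (2 * θ x * deriv θ x * ⟪χ x, χ1 x⟫_ℝ + θ x ^ 2 * (⟪χ x, χ2 x⟫_ℝ + ⟪χ1 x, χ1 x⟫_ℝ)) := by
    intro x
    rw [hderiv, hdd, Complex.inner, Complex.inner, Complex.inner, Complex.sq_norm, Complex.sq_norm,
      Complex.sq_norm, Complex.normSq_apply, Complex.normSq_apply, Complex.normSq_apply]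
    simp only [Complex.add_re, Complex.add_im, Complex.mul_re, Complex.mul_im, Complex.ofReal_re,
      Complex.ofReal_im, Complex.conj_re, Complex.conj_im, Complex.neg_re, Complex.neg_im]
    ring
  have i1 : Integrable (fun x => θ x ^ 2 * ((starRingEnd ℂ) (χ x) * (-(deriv (deriv (χ : ℝ → ℂ)) x) + (V x : ℂ) * χ x)).re) volume := by
    apply hcs
    · have c1 : Continuous (fun x => deriv (deriv (χ : ℝ → ℂ)) x) := cχ2
      have c2 : Continuous (fun x => (V x : ℂ)) := Complex.continuous_ofReal.comp hV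
      exact (hθc.pow 2).mul (Complex.continuous_re.comp
        ((Complex.continuous_conj.comp cχ).mul (c1.neg.add (c2.mul cχ))))
    · intro x h1 h2
      beta_reduce
      rw [h1]; ring
  have i2 : Integrable (fun x => deriv θ x ^ 2 * ‖χ x‖ ^ 2) volume := by
    apply hcs
    · exact (hθ'c.pow 2).mul (cχ.norm.pow 2)
    · intro x h1 h2
      beta_reduce
      rw [h2]; ring
  have i3 := hcs _ hG'c (fun x h1 h2 => by beta_reduce; rw [h1, h2]; ring)
  simp_rw [hpt]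
  have i12 : Integrable (fun x => θ x ^ 2 * ((starRingEnd ℂ) (χ x) * (-(deriv (deriv (χ : ℝ → ℂ)) x) + (V x : ℂ) * χ x)).re
        + deriv θ x ^ 2 * ‖χ x‖ ^ 2) volume := i1.add i2
  rw [integral_add i12 i3, hI, add_zero, integral_add i1 i2]

end Pool.Agent.Helper209.PL.Cut
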