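import Mathlib

set_option autoImplicit false

namespace Pool.Agent.Helper209.PL

open MeasureTheory Set
open scoped SchwartzMap InnerProductSpace FourierTransform

section Defs
/-- momenta of the periodic box of length `L` -/
noncomputable def mom (L : ℝ) (n : ℤ) : ℝ := 2 * Real.pi * n / L

/-- normalised plane wave -/
noncomputable def wave (L : ℝ) (n : ℤ) (x : ℝ) : ℂ :=
  ((1 / Real.sqrt L : ℝ) : ℂ) * Complex.exp (((mom L n * x : ℝ) : ℂ) * Complex.I)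

/-- trigonometric polynomial with modes in `s` -/
noncomputable def trig (L : ℝ) (s : Finset ℤ) (c : ℤ → ℂ) (x : ℝ) : ℂ := ∑ n ∈ s, c n * wave L n x

/-- Bessel family of coefficient vectors supported in `s` -/
def Bes {ι : Type} [Fintype ι] (s : Finset ℤ) (c : ι → ℤ → ℂ) : Prop :=
  ∀ a : ℤ → ℂ, ∑ i, ‖∑ n ∈ s, c i n * a n‖ ^ 2 ≤ ∑ n ∈ s, ‖a n‖ ^ 2

/-- density of the family -/
noncomputable def dens {ι : Type} [Fintype ι] (L : ℝ) (s : Finset ℤ) (c : ι → ℤ → ℂ) (x : ℝ) : ℝ :=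
  ∑ i, ‖trig L s (c i) x‖ ^ 2

/-- kinetic plus potential energy -/
noncomputable def enr (L : ℝ) (V : ℝ → ℝ) (s : Finset ℤ) (c : ℤ → ℂ) : ℝ :=
  (∑ n ∈ s, mom L n ^ 2 * ‖c n‖ ^ 2) + ∫ x in (-(L / 2))..(L / 2), V x * ‖trig L s c x‖ ^ 2

/-- matrix elements of a multiplication operator -/
noncomputable def vh (L : ℝ) (W : ℝ → ℝ) (m n : ℤ) : ℂ :=
  ∫ x in (-(L / 2))..(L / 2), (W x : ℂ) * wave L n x * (starRingEnd ℂ) (wave L m x)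

/-- truncations of the potential: `y = V1 - V2 + V3` -/
noncomputable def V1 (μ y : ℝ) : ℝ := max (-μ) (min μ y)
noncomputable def V2 (μ y : ℝ) : ℝ := max (-y - μ) 0
noncomputable def V3 (μ y : ℝ) : ℝ := max (y - μ) 0
end Defs

section WDefs
/-- the Hilbert space `L²(ℝ; ℂ)` -/
noncomputable abbrev L2R := Lp ℂ 2 (volume : Measure ℝ)

/-- `R = (-d²/dx² + V + c)⁻¹` -/
def IsResolvent (V : ℝ → ℝ) (c : ℝ) (R : L2R →L[ℂ] L2R) : Prop :=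
  ∀ (χ : 𝓢(ℝ, ℂ)) (f : L2R),
    (f : ℝ → ℂ) =ᵐ[volume] (fun x => -(deriv (deriv (χ : ℝ → ℂ)) x) + ((V x + c : ℝ) : ℂ) * χ x) →
    ((R f : L2R) : ℝ → ℂ) =ᵐ[volume] (χ : ℝ → ℂ)

/-- multiplication by the function `v` -/
def IsMul (v : ℝ → ℝ) (M : L2R →L[ℂ] L2R) : Prop :=
  ∀ f : L2R, ((M f : L2R) : ℝ → ℂ) =ᵐ[volume] (fun x => (v x : ℂ) * (f : ℝ → ℂ) x)

/-- `(A - μ)_-^γ` for the self-adjoint operator `A = R⁻¹ - c` -/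
noncomputable def negPow {H : Type*} [NormedAddCommGroup H] [InnerProductSpace ℂ H] [CompleteSpace H]
    (γ μ c : ℝ) (R : H →L[ℂ] H) : H →L[ℂ] H :=
  cfc (fun r : ℝ => if 0 < r then (max (μ + c - 1 / r) 0) ^ γ else 0) R

/-- smooth cutoff functions, `cutoff² + cocut² = 1` -/
noncomputable def cutoff (ρ x : ℝ) : ℝ := Real.cos ((Real.pi / 2) * Real.smoothTransition (|x| / ρ - 1))
noncomputable def cocut (ρ x : ℝ) : ℝ := Real.sin ((Real.pi / 2) * Real.smoothTransition (|x| / ρ - 1))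
end WDefs

section Defs2
/-- Fourier coefficients on the box -/
noncomputable def coef (L : ℝ) (u : ℝ → ℂ) (n : ℤ) : ℂ :=
  ∫ x in (-(L / 2))..(L / 2), u x * (starRingEnd ℂ) (wave L n x)

/-- off-diagonal contribution at level `ν`, all pairs -/
noncomputable def offE (L : ℝ) (W : ℝ → ℝ) (ν : ℝ) : ENNReal :=
  ∑' m : ℤ, ∑' n : ℤ, ENNReal.ofReal
    (if mom L m ^ 2 < ν ∧ ν ≤ mom L n ^ 2 then ‖vh L W m n‖ ^ 2 / (mom L n ^ 2 - mom L m ^ 2) else 0)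

/-- main (background) term at level `ν` -/
noncomputable def bgsum (L ν : ℝ) : ℝ := ∑' n : ℤ, max (ν - mom L n ^ 2) 0

/-- number of modes below level `ν` -/
noncomputable def bgcount (L ν : ℝ) : ℝ := ∑' n : ℤ, (if mom L n ^ 2 < ν then (1 : ℝ) else 0)

/-- level bounds: `G t` at level `ν = μ - t` -/
def LevelBounds (L μ M : ℝ) (V : ℝ → ℝ) (G : ℝ → ℝ) : Prop :=
  (∀ t : ℝ, 0 < t → t < μ → G t ≤ 3 * (∫ x in (-(L / 2))..(L / 2), (max (-V x) 0) ^ (3 / 2 : ℝ))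
      + (Real.sqrt (μ - t) / Real.pi + 9 / L) * (∫ x in (-(L / 2))..(L / 2), |V x|)) ∧
  (∀ t : ℝ, 0 < t → t < μ → G t ≤ (8 / Real.sqrt (μ - t)) * (∫ x in (-(L / 2))..(L / 2), V1 μ (V x) ^ 2)
      + 11 * (∫ x in (-(L / 2))..(L / 2), V2 μ (V x) ^ (3 / 2 : ℝ))
      + (Real.sqrt (μ - t) / Real.pi + 1 / L) * (∫ x in (-(L / 2))..(L / 2), (V2 μ (V x) + V3 μ (V x)))
      + (8 / L) * (∫ x in (-(L / 2))..(L / 2), |V x|)
      + 2 * (offE L (fun x => V1 μ (V x)) (μ - t)).toReal) ∧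
  (∀ t : ℝ, μ ≤ t → t < M → G t ≤ (∫ x in (-(L / 2))..(L / 2), (max (-V x - (t - μ)) 0) ^ (3 / 2 : ℝ))
      + (2 / L) * (∫ x in (-(L / 2))..(L / 2), max (-V x - (t - μ)) 0))
end Defs2

/-- integrand of the right-hand side -/
noncomputable def FF (γ μ y : ℝ) : ℝ :=
  (max (μ - y) 0) ^ (γ + 1 / 2) - μ ^ (γ + 1 / 2) + (γ + 1 / 2) * μ ^ (γ - 1 / 2) * y

/-- the energy functional of a family of Schwartz functions, localised by the cutoff -/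
noncomputable def locEn {ι : Type} [Fintype ι] (V : ℝ → ℝ) (ρ ν : ℝ) (χ : ι → 𝓢(ℝ, ℂ)) : ℝ :=
  ∑ j, (ν * (∫ x, cutoff ρ x ^ 2 * ‖χ j x‖ ^ 2)
    - ∫ x, (‖deriv (fun y : ℝ => (cutoff ρ y : ℂ) * χ j y) x‖ ^ 2 + V x * ‖(cutoff ρ x : ℂ) * χ j x‖ ^ 2))

section Stmts
/-- the following statements are proved elsewhere; use them as hypotheses -/
def OrthStmt : Prop := ∀ (L : ℝ), 0 < L → ∀ (m n : ℤ),
    ∫ x in (-(L / 2))..(L / 2), wave L n x * (starRingEnd ℂ) (wave L m x) = if m = n then 1 else 0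

def TrigNormStmt : Prop := ∀ (L : ℝ), 0 < L → ∀ (s : Finset ℤ) (c : ℤ → ℂ),
    ∫ x in (-(L / 2))..(L / 2), ‖trig L s c x‖ ^ 2 = ∑ n ∈ s, ‖c n‖ ^ 2

def CountLeStmt : Prop := ∀ (L a b : ℝ), 0 < L → 0 ≤ a → a ≤ b → ∀ (s : Finset ℤ),
    (∀ n ∈ s, a ≤ |mom L n| ∧ |mom L n| ≤ b) → (s.card : ℝ) ≤ L * ((b - a) / Real.pi + 2 / L)

def CountLtStmt : Prop := ∀ (L b : ℝ), 0 < L → 0 ≤ b → ∀ (s : Finset ℤ),
    (∀ n ∈ s, |mom L n| ≤ b) → (s.card : ℝ) ≤ L * (b / Real.pi + 1 / L)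

def RuminStmt : Prop := ∀ {ι : Type} [Fintype ι] (L : ℝ), 0 < L → ∀ (s : Finset ℤ) (c : ι → ℤ → ℂ), Bes s c →
    ∀ (h : ℤ → ℝ), (∀ n ∈ s, 0 ≤ h n) → ∀ (η : ℝ → ℝ), Continuous η → MonotoneOn η (Ici 0) →
    (∀ e : ℝ, 0 ≤ e → ((s.filter (fun n => h n ≤ e)).card : ℝ) ≤ L * η e) →
    ∀ (v : ℝ → ℝ), Continuous v → (∀ x, 0 ≤ v x) → ∀ (κ : ℝ), 0 < κ →
    κ * ∫ x in (-(L / 2))..(L / 2), v x * dens L s c x
      ≤ 2 * (∑ n ∈ s, h n * ∑ i, ‖c i n‖ ^ 2)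
        + 2 * κ * ∫ x in (-(L / 2))..(L / 2), v x * η (κ * v x)

def HolesStmt : Prop := ∀ {ι : Type} [Fintype ι] (B : Finset ℤ) (c : ι → ℤ → ℂ), Bes B c →
    ∃ (N : ℕ) (d : Fin N → ℤ → ℂ), ∀ a : ℤ → ℂ,
      ∑ j, ‖∑ n ∈ B, d j n * a n‖ ^ 2 = ∑ n ∈ B, ‖a n‖ ^ 2 - ∑ i, ‖∑ n ∈ B, c i n * a n‖ ^ 2

def SumruleStmt : Prop := ∀ {ι : Type} [Fintype ι] (s : Finset ℤ) (c : ι → ℤ → ℂ), Bes s c →
    ∀ (E : ℤ → ℝ) (ν : ℝ),
    ∑ m ∈ s.filter (fun m => E m < ν), ∑ n ∈ s.filter (fun n => ν ≤ E n),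
        (E n - E m) * ‖∑ i, c i n * (starRingEnd ℂ) (c i m)‖ ^ 2
      ≤ (∑ n ∈ s.filter (fun n => ν ≤ E n), (E n - ν) * ∑ i, ‖c i n‖ ^ 2)
        + ∑ m ∈ s.filter (fun m => E m < ν), (ν - E m) * (1 - ∑ i, ‖c i m‖ ^ 2)
end Stmts

end Pool.Agent.Helper209.PL
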