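import Pool.Agent.Helper209.PL.Defs

set_option autoImplicit false

namespace Pool.Agent.Helper209.PL.FFB

open MeasureTheory Set
open scoped SchwartzMap InnerProductSpace FourierTransform





theorem fb_key1 {a : ℝ} (ha1 : 1 < a) (ha2 : a ≤ 2) {z : ℝ} (hz1 : -1 ≤ z) (hz2 : z ≤ 1) :
    (a - 1) ^ 2 / 2 * z ^ 2 ≤ (1 - z) ^ a - 1 + a * z := by
  rcases eq_or_lt_of_le hz2 with rfl | hlt
  · rw [sub_self, Real.zero_rpow (by linarith)]
    nlinarith
  · have hx : 0 < 1 - z := by linarith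
    have hD : 0 < (1 - z) ^ (2 - a) := Real.rpow_pos_of_pos hx _
    have hM : (1 - z) ^ (2 - a) ≤ 1 + (2 - a) * (-z) := by
      have := rpow_one_add_le_one_add_mul_self (s := -z) (by linarith) (p := 2 - a)
        (by linarith) (by linarith)
      rw [← sub_eq_add_neg] at this
      exact this
    have hM0 : 0 < 1 + (2 - a) * (-z) := hD.trans_le hM
    have hM2 : 1 + (2 - a) * (-z) ≤ 2 := by nlinarith
    have h1 : (1 - z) ^ a = (1 - z) ^ 2 / (1 - z) ^ (2 - a) := by
      rw [← Real.rpow_natCast (1 - z) 2, ← Real.rpow_sub hx]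
      congr 1
      push_cast
      ring
    have h2 : (1 - z) ^ 2 / (1 + (2 - a) * (-z)) ≤ (1 - z) ^ a := by
      rw [h1]
      exact div_le_div_of_nonneg_left (by positivity) hD hM
    have h3 : (1 - z) ^ 2 / (1 + (2 - a) * (-z)) - 1 + a * z =
        (a - 1) ^ 2 * z ^ 2 / (1 + (2 - a) * (-z)) := by
      rw [eq_div_iff hM0.ne', add_mul, sub_mul, div_mul_cancel₀ _ hM0.ne']
      ring
    have h4 : (a - 1) ^ 2 * z ^ 2 / 2 ≤ (a - 1) ^ 2 * z ^ 2 / (1 + (2 - a) * (-z)) :=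
      div_le_div_of_nonneg_left (by positivity) hM0 hM2
    have h5 : (a - 1) ^ 2 / 2 * z ^ 2 = (a - 1) ^ 2 * z ^ 2 / 2 := by ring
    linarith

theorem fb_key1' {a : ℝ} (ha2 : 2 ≤ a) {z : ℝ} (hz2 : z ≤ 1) :
    a / 2 * z ^ 2 ≤ (1 - z) ^ a - 1 + a * z := by
  have hx : 0 ≤ 1 - z := by linarith
  have h1 : (1 - z) ^ a = (1 + ((1 - z) ^ 2 - 1)) ^ (a / 2) := by
    rw [add_sub_cancel, ← Real.rpow_natCast (1 - z) 2, ← Real.rpow_mul hx]
    congr 1
    push_cast
    ring
  have h2 : 1 + a / 2 * ((1 - z) ^ 2 - 1) ≤ (1 + ((1 - z) ^ 2 - 1)) ^ (a / 2) :=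
    one_add_mul_self_le_rpow_one_add (by nlinarith [sq_nonneg (1 - z)]) (by linarith)
  rw [h1]
  nlinarith

theorem fb_key2 {a : ℝ} (ha : 1 < a) : ∃ c : ℝ, 0 < c ∧ ∀ z : ℝ, -1 ≤ z → z ≤ 1 →
    c * z ^ 2 ≤ (1 - z) ^ a - 1 + a * z := by
  rcases le_total a 2 with h | h
  · exact ⟨(a - 1) ^ 2 / 2, by have : 0 < a - 1 := by linarith
                               positivity, fun z h1 h2 => fb_key1 ha h h1 h2⟩
  · exact ⟨a / 2, by positivity, fun z _ h2 => fb_key1' h h2⟩

theorem fb_h {a : ℝ} (ha : 1 < a) : ∃ c : ℝ, 0 < c ∧ ∀ u : ℝ, 0 < u → u ≤ 1 →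
    c ≤ (1 + u) ^ a - u ^ a - a * u ^ (a - 1) := by
  rcases le_total a 2 with h | h
  · have ha1 : 0 < a - 1 := by linarith
    refine ⟨3 / 8 * (a - 1) ^ 2, by positivity, fun u hu0 hu1 => ?_⟩
    have h1 := fb_key1 ha h (z := -u) (by linarith) (by linarith)
    rw [sub_neg_eq_add] at h1
    have h2 : u ^ (a - 1) ≤ 1 + (a - 1) * (u - 1) := by
      have := rpow_one_add_le_one_add_mul_self (s := u - 1) (by linarith) (p := a - 1)
        (by linarith) (by linarith)
      rw [add_sub_cancel] at this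
      exact this
    have h3 : u ^ a = u * u ^ (a - 1) := by
      rw [mul_comm, ← Real.rpow_add_one hu0.ne']
      congr 1
      ring
    have h4 : u * u ^ (a - 1) ≤ u * (1 + (a - 1) * (u - 1)) := mul_le_mul_of_nonneg_left h2 hu0.le
    have h5 : a * u ^ (a - 1) ≤ a * (1 + (a - 1) * (u - 1)) :=
      mul_le_mul_of_nonneg_left h2 (by linarith)
    have h6 : 1 + a * u + (a - 1) ^ 2 / 2 * u ^ 2 - u * (1 + (a - 1) * (u - 1)) -
        a * (1 + (a - 1) * (u - 1)) =
        (a - 1) * ((1 - u) * (a - 1 + u)) + (a - 1) ^ 2 / 2 * u ^ 2 := by ring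
    have h7 : (a - 1) * ((1 - u) * (a - 1)) ≤ (a - 1) * ((1 - u) * (a - 1 + u)) := by
      have : 0 ≤ 1 - u := by linarith
      gcongr
      linarith
    have h8 : 3 / 8 * (a - 1) ^ 2 ≤ (a - 1) * ((1 - u) * (a - 1)) + (a - 1) ^ 2 / 2 * u ^ 2 := by
      have h9 : (a - 1) * ((1 - u) * (a - 1)) + (a - 1) ^ 2 / 2 * u ^ 2 - 3 / 8 * (a - 1) ^ 2 =
        (a - 1) ^ 2 * (1 - u + u ^ 2 / 2 - 3 / 8) := by ring
      have h10 : 0 ≤ 1 - u + u ^ 2 / 2 - 3 / 8 := by nlinarith [sq_nonneg (u - 1)]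
      have h11 : 0 ≤ (a - 1) ^ 2 * (1 - u + u ^ 2 / 2 - 3 / 8) := by positivity
      linarith
    rw [h3]
    nlinarith
  · refine ⟨1, one_pos, fun u hu0 hu1 => ?_⟩
    have h1 := fb_key1' h (z := -u) (by linarith)
    rw [sub_neg_eq_add] at h1
    have h2 : u ^ a ≤ u ^ 2 := by
      rw [← Real.rpow_natCast u 2]
      apply Real.rpow_le_rpow_of_exponent_ge hu0 hu1
      push_cast
      exact h
    have h3 : u ^ (a - 1) ≤ u := by
      conv_rhs => rw [← Real.rpow_one u]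
      apply Real.rpow_le_rpow_of_exponent_ge hu0 hu1
      linarith
    have h4 : a * u ^ (a - 1) ≤ a * u := mul_le_mul_of_nonneg_left h3 (by linarith)
    nlinarith [sq_nonneg u]

theorem fb_key3 {a : ℝ} (ha : 1 < a) : ∃ c : ℝ, 0 < c ∧ ∀ w : ℝ, 1 ≤ w →
    c * w ^ a ≤ (1 + w) ^ a - 1 - a * w := by
  obtain ⟨c, hc, h⟩ := fb_h ha
  refine ⟨c, hc, fun w hw => ?_⟩
  have hw0 : 0 < w := by linarith
  have hu0 : 0 < w⁻¹ := by positivity
  have hu1 : w⁻¹ ≤ 1 := inv_le_one_of_one_le₀ hw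
  have h1 := h w⁻¹ hu0 hu1
  have hwa : 0 < w ^ a := Real.rpow_pos_of_pos hw0 _
  have h2 := mul_le_mul_of_nonneg_left h1 hwa.le
  have e1 : w ^ a * (1 + w⁻¹) ^ a = (1 + w) ^ a := by
    rw [← Real.mul_rpow hw0.le (by positivity)]
    congr 1
    field_simp
    ring
  have e2 : w ^ a * (w⁻¹) ^ a = 1 := by
    rw [← Real.mul_rpow hw0.le (by positivity), mul_inv_cancel₀ hw0.ne', Real.one_rpow]
  have e3 : w ^ a * (w⁻¹) ^ (a - 1) = w := by
    rw [Real.inv_rpow hw0.le, ← Real.rpow_neg hw0.le, ← Real.rpow_add hw0]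
    have : a + -(a - 1) = 1 := by ring
    rw [this, Real.rpow_one]
  have e4 : w ^ a * ((1 + w⁻¹) ^ a - (w⁻¹) ^ a - a * (w⁻¹) ^ (a - 1)) =
      (1 + w) ^ a - 1 - a * w := by
    calc w ^ a * ((1 + w⁻¹) ^ a - (w⁻¹) ^ a - a * (w⁻¹) ^ (a - 1)) =
        w ^ a * (1 + w⁻¹) ^ a - w ^ a * (w⁻¹) ^ a - a * (w ^ a * (w⁻¹) ^ (a - 1)) := by ring
      _ = _ := by rw [e1, e2, e3]
  rw [e4] at h2
  linarith

noncomputable def ph (a z : ℝ) : ℝ := (max (1 - z) 0) ^ a - 1 + a * z

theorem fb_ph {a : ℝ} (ha : 1 < a) : ∃ c : ℝ, 0 < c ∧ ∀ z : ℝ,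
    (-1 ≤ z → z ≤ 1 → c * z ^ 2 ≤ ph a z) ∧ (z ≤ -1 → c * (-z) ^ a ≤ ph a z) ∧
      (1 ≤ z → c * z ≤ ph a z) := by
  obtain ⟨c1, hc1, h1⟩ := fb_key2 ha
  obtain ⟨c2, hc2, h2⟩ := fb_key3 ha
  have ha1 : 0 < a - 1 := by linarith
  refine ⟨min c1 (min c2 (a - 1)), by positivity, fun z => ⟨fun hz1 hz2 => ?_, fun hz => ?_,
    fun hz => ?_⟩⟩
  · unfold ph
    rw [max_eq_left (by linarith)]
    refine le_trans ?_ (h1 z hz1 hz2)
    apply mul_le_mul_of_nonneg_right (min_le_left _ _) (by positivity)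
  · unfold ph
    rw [max_eq_left (by linarith)]
    have h3 := h2 (-z) (by linarith)
    have h4 : (1 + -z) ^ a - 1 - a * -z = (1 - z) ^ a - 1 + a * z := by
      rw [← sub_eq_add_neg]; ring
    rw [h4] at h3
    refine le_trans ?_ h3
    apply mul_le_mul_of_nonneg_right ((min_le_right _ _).trans (min_le_left _ _))
    exact Real.rpow_nonneg (by linarith) _
  · unfold ph
    rw [max_eq_right (by linarith), Real.zero_rpow (by linarith)]
    have h3 : min c1 (min c2 (a - 1)) ≤ a - 1 := (min_le_right _ _).trans (min_le_right _ _)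
    have h4 : min c1 (min c2 (a - 1)) * z ≤ (a - 1) * z :=
      mul_le_mul_of_nonneg_right h3 (by linarith)
    nlinarith

theorem fb_exp {p w : ℝ} (hp : 0 ≤ p) (hw0 : 0 ≤ w) (hw1 : w ≤ 1) :
    (1 + w) ^ p - 1 ≤ p * Real.exp p * w := by
  have h1 : (1 + w) ^ p ≤ Real.exp (p * w) := by
    rw [Real.rpow_def_of_pos (by linarith)]
    apply Real.exp_le_exp.2
    rw [mul_comm]
    apply mul_le_mul_of_nonneg_left _ hp
    have := Real.log_le_sub_one_of_pos (show (0 : ℝ) < 1 + w by linarith)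
    linarith
  have h2 : Real.exp (p * w) ≤ 1 + p * w * Real.exp (p * w) := by
    have h3 := Real.add_one_le_exp (-(p * w))
    have h4 : 0 < Real.exp (p * w) := Real.exp_pos _
    have h5 : Real.exp (-(p * w)) * Real.exp (p * w) = 1 := by
      rw [← Real.exp_add]; simp
    nlinarith
  have h3 : Real.exp (p * w) ≤ Real.exp p := by
    apply Real.exp_le_exp.2
    nlinarith
  have h4 : p * w * Real.exp (p * w) ≤ p * w * Real.exp p :=
    mul_le_mul_of_nonneg_left h3 (by positivity)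
  linarith

/-- pointwise comparison -/
theorem ff_bounds (γ : ℝ) (hγ : 1 < γ) : ∃ C : ℝ, 0 < C ∧ ∀ (μ : ℝ), 0 < μ → ∀ y : ℝ,
    0 ≤ FF γ μ y ∧
    μ ^ (γ - 3 / 2) * V1 μ y ^ 2 ≤ C * FF γ μ y ∧
    μ ^ (γ - 1) * V2 μ y ^ (3 / 2 : ℝ) ≤ C * FF γ μ y ∧
    μ ^ (γ - 1 / 2) * (V2 μ y + V3 μ y) ≤ C * FF γ μ y ∧
    (max (-y) 0) ^ (3 / 2 : ℝ) * ((μ + max (-y) 0) ^ (γ - 1) - μ ^ (γ - 1)) ≤ C * FF γ μ y := by
  obtain ⟨c, hc, hph⟩ := fb_ph (a := γ + 1 / 2) (by linarith)
  set a := γ + 1 / 2 with ha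
  set D : ℝ := 1 + (γ - 1) * Real.exp (γ - 1) + 2 ^ (γ - 1) with hD
  have hp0 : 0 < γ - 1 := by linarith
  have hDpos : 0 < D := by positivity
  have hD1 : 1 ≤ D := by
    have : 0 ≤ (γ - 1) * Real.exp (γ - 1) := by positivity
    have : (0 : ℝ) ≤ 2 ^ (γ - 1) := by positivity
    linarith
  refine ⟨D / c, by positivity, fun μ hμ y => ?_⟩
  obtain ⟨z, rfl⟩ : ∃ z, y = μ * z := ⟨y / μ, by field_simp⟩
  set P := μ ^ a with hP
  have hP0 : 0 < P := Real.rpow_pos_of_pos hμ _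
  have hmax : ∀ x : ℝ, max (μ * x) 0 = μ * max x 0 := by
    intro x
    have := mul_max_of_nonneg x 0 hμ.le
    rw [mul_zero] at this
    exact this.symm
  have hFF : FF γ μ (μ * z) = P * ph a z := by
    unfold FF ph
    have h1 : μ - μ * z = μ * (1 - z) := by ring
    rw [h1, hmax, Real.mul_rpow hμ.le (le_max_right _ _)]
    have h2 : μ ^ (γ - 1 / 2) * μ = P := by
      rw [hP, ← Real.rpow_add_one hμ.ne', ha]
      congr 1
      ring
    have h3 : (γ + 1 / 2) * μ ^ (γ - 1 / 2) * (μ * z) = (γ + 1 / 2) * (μ ^ (γ - 1 / 2) * μ) * z := by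
      ring
    rw [h3, h2, ← ha, ← hP]
    ring
  have hV1 : μ ^ (γ - 3 / 2) * V1 μ (μ * z) ^ 2 = P * (max (-1) (min 1 z)) ^ 2 := by
    unfold V1
    have h1 : max (-μ) (min μ (μ * z)) = μ * max (-1) (min 1 z) := by
      rw [mul_max_of_nonneg _ _ hμ.le, mul_min_of_nonneg _ _ hμ.le, mul_one, mul_neg, mul_one]
    rw [h1, mul_pow, ← mul_assoc]
    congr 1
    rw [hP, ← Real.rpow_natCast μ 2, ← Real.rpow_add hμ, ha]
    congr 1
    push_cast
    ring
  have hV2 : V2 μ (μ * z) = μ * max (-z - 1) 0 := by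
    unfold V2
    rw [← hmax]
    congr 1
    ring
  have hV3 : V3 μ (μ * z) = μ * max (z - 1) 0 := by
    unfold V3
    rw [← hmax]
    congr 1
    ring
  have hV2' : μ ^ (γ - 1) * V2 μ (μ * z) ^ (3 / 2 : ℝ) = P * (max (-z - 1) 0) ^ (3 / 2 : ℝ) := by
    rw [hV2, Real.mul_rpow hμ.le (le_max_right _ _), ← mul_assoc]
    congr 1
    rw [hP, ← Real.rpow_add hμ, ha]
    congr 1
    ring
  have hV23 : μ ^ (γ - 1 / 2) * (V2 μ (μ * z) + V3 μ (μ * z)) =
      P * (max (-z - 1) 0 + max (z - 1) 0) := by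
    rw [hV2, hV3, ← mul_add, ← mul_assoc]
    congr 1
    rw [hP, ← Real.rpow_add_one hμ.ne', ha]
    congr 1
    ring
  have hL : (max (-(μ * z)) 0) ^ (3 / 2 : ℝ) *
      ((μ + max (-(μ * z)) 0) ^ (γ - 1) - μ ^ (γ - 1)) =
      P * ((max (-z) 0) ^ (3 / 2 : ℝ) * ((1 + max (-z) 0) ^ (γ - 1) - 1)) := by
    have h1 : -(μ * z) = μ * (-z) := by ring
    have hm := le_max_right (-z) 0
    have h2 : μ + μ * max (-z) 0 = μ * (1 + max (-z) 0) := by ring
    rw [h1, hmax, h2, Real.mul_rpow hμ.le hm, Real.mul_rpow hμ.le (by positivity)]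
    have h3 : μ ^ (3 / 2 : ℝ) * μ ^ (γ - 1) = P := by
      rw [hP, ← Real.rpow_add hμ, ha]
      congr 1
      ring
    rw [← h3]
    ring
  obtain ⟨b1, b2, b3⟩ := hph z
  -- it is enough to treat the scaled quantities
  have hscale : ∀ X : ℝ, c * X ≤ D * ph a z → P * X ≤ D / c * (P * ph a z) := by
    intro X hX
    have h1 : D / c * (P * ph a z) = P * (D * ph a z / c) := by ring
    rw [h1]
    apply mul_le_mul_of_nonneg_left _ hP0.le
    rw [le_div_iff₀ hc]
    linarith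
  have hnn : 0 ≤ ph a z := by
    rcases le_total z (-1) with h | h
    · exact le_trans (mul_nonneg hc.le (Real.rpow_nonneg (by linarith) _)) (b2 h)
    · rcases le_total z 1 with h' | h'
      · exact le_trans (by positivity) (b1 h h')
      · exact le_trans (mul_nonneg hc.le (by linarith)) (b3 h')
  have hDph : ph a z ≤ D * ph a z := le_mul_of_one_le_left hnn hD1
  have ha1 : 1 ≤ a := by linarith
  have ha32 : 3 / 2 ≤ a := by linarith
  refine ⟨?_, ?_, ?_, ?_, ?_⟩
  · rw [hFF]; positivity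
  · rw [hFF, hV1]
    apply hscale
    refine le_trans ?_ hDph
    rcases le_total z (-1) with h | h
    · have h1 : (max (-1) (min 1 z)) ^ 2 = 1 := by
        rw [min_eq_right (by linarith), max_eq_left h]; norm_num
      rw [h1]
      refine le_trans ?_ (b2 h)
      apply mul_le_mul_of_nonneg_left _ hc.le
      exact Real.one_le_rpow (by linarith) (by linarith)
    · rcases le_total z 1 with h' | h'
      · rw [min_eq_right h', max_eq_right h]
        exact b1 h h'
      · rw [min_eq_left h', max_eq_right (by norm_num)]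
        refine le_trans ?_ (b3 h')
        apply mul_le_mul_of_nonneg_left _ hc.le
        linarith
  · rw [hFF, hV2']
    apply hscale
    refine le_trans ?_ hDph
    rcases le_total z (-1) with h | h
    · refine le_trans ?_ (b2 h)
      apply mul_le_mul_of_nonneg_left _ hc.le
      rw [max_eq_left (by linarith)]
      calc (-z - 1) ^ (3 / 2 : ℝ) ≤ (-z) ^ (3 / 2 : ℝ) :=
            Real.rpow_le_rpow (by linarith) (by linarith) (by norm_num)
        _ ≤ (-z) ^ a := Real.rpow_le_rpow_of_exponent_le (by linarith) ha32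
    · rw [max_eq_right (by linarith), Real.zero_rpow (by norm_num), mul_zero]
      exact hnn
  · rw [hFF, hV23]
    apply hscale
    refine le_trans ?_ hDph
    rcases le_total z (-1) with h | h
    · refine le_trans ?_ (b2 h)
      apply mul_le_mul_of_nonneg_left _ hc.le
      rw [max_eq_left (by linarith), max_eq_right (by linarith), add_zero]
      have h1 : (-z) ^ (1 : ℝ) ≤ (-z) ^ a := Real.rpow_le_rpow_of_exponent_le (by linarith) ha1
      rw [Real.rpow_one] at h1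
      linarith
    · rcases le_total z 1 with h' | h'
      · rw [max_eq_right (by linarith), max_eq_right (by linarith), add_zero, mul_zero]
        exact hnn
      · rw [max_eq_right (by linarith), max_eq_left (by linarith), zero_add]
        refine le_trans ?_ (b3 h')
        apply mul_le_mul_of_nonneg_left _ hc.le
        linarith
  · rw [hFF, hL]
    apply hscale
    rcases le_total 0 z with h0 | h0
    · rw [max_eq_right (by linarith), Real.zero_rpow (by norm_num), zero_mul, mul_zero]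
      positivity
    · rw [max_eq_left (by linarith)]
      have hexp0 : 0 ≤ (γ - 1) * Real.exp (γ - 1) := by positivity
      have h20 : (0 : ℝ) ≤ 2 ^ (γ - 1) := by positivity
      rcases le_total z (-1) with h | h
      · have hw : 1 ≤ -z := by linarith
        have h1 : (1 + -z) ^ (γ - 1) - 1 ≤ 2 ^ (γ - 1) * (-z) ^ (γ - 1) := by
          have h2 : (1 + -z) ^ (γ - 1) ≤ (2 * -z) ^ (γ - 1) :=
            Real.rpow_le_rpow (by linarith) (by linarith) hp0.le
          rw [Real.mul_rpow (by norm_num) (by linarith)] at h2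
          linarith
        have h3 : (-z) ^ (3 / 2 : ℝ) * (-z) ^ (γ - 1) = (-z) ^ a := by
          rw [← Real.rpow_add (by linarith), ha]
          congr 1
          ring
        have h4 : (-z) ^ (3 / 2 : ℝ) * ((1 + -z) ^ (γ - 1) - 1) ≤ 2 ^ (γ - 1) * (-z) ^ a := by
          calc _ ≤ (-z) ^ (3 / 2 : ℝ) * (2 ^ (γ - 1) * (-z) ^ (γ - 1)) :=
                mul_le_mul_of_nonneg_left h1 (Real.rpow_nonneg (by linarith) _)
            _ = 2 ^ (γ - 1) * ((-z) ^ (3 / 2 : ℝ) * (-z) ^ (γ - 1)) := by ring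
            _ = _ := by rw [h3]
        calc c * ((-z) ^ (3 / 2 : ℝ) * ((1 + -z) ^ (γ - 1) - 1))
            ≤ c * (2 ^ (γ - 1) * (-z) ^ a) := mul_le_mul_of_nonneg_left h4 hc.le
          _ = 2 ^ (γ - 1) * (c * (-z) ^ a) := by ring
          _ ≤ 2 ^ (γ - 1) * ph a z := mul_le_mul_of_nonneg_left (b2 h) h20
          _ ≤ D * ph a z := by
              apply mul_le_mul_of_nonneg_right _ hnn
              linarith
      · have h1 := fb_exp (p := γ - 1) (w := -z) hp0.le (by linarith) (by linarith)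
        have h2 : (-z) ^ (3 / 2 : ℝ) ≤ -z := by
          rcases eq_or_lt_of_le h0 with rfl | h0'
          · rw [neg_zero, Real.zero_rpow (by norm_num)]
          · conv_rhs => rw [← Real.rpow_one (-z)]
            apply Real.rpow_le_rpow_of_exponent_ge (by linarith) (by linarith)
            norm_num
        have h3 : 0 ≤ (1 + -z) ^ (γ - 1) - 1 := by
          have := Real.one_le_rpow (show (1 : ℝ) ≤ 1 + -z by linarith) hp0.le
          linarith
        have h4 : (-z) ^ (3 / 2 : ℝ) * ((1 + -z) ^ (γ - 1) - 1) ≤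
            (-z) * ((γ - 1) * Real.exp (γ - 1) * (-z)) :=
          mul_le_mul h2 h1 h3 (by linarith)
        calc c * ((-z) ^ (3 / 2 : ℝ) * ((1 + -z) ^ (γ - 1) - 1))
            ≤ c * ((-z) * ((γ - 1) * Real.exp (γ - 1) * (-z))) :=
              mul_le_mul_of_nonneg_left h4 hc.le
          _ = (γ - 1) * Real.exp (γ - 1) * (c * z ^ 2) := by ring
          _ ≤ (γ - 1) * Real.exp (γ - 1) * ph a z :=
              mul_le_mul_of_nonneg_left (b1 h (by linarith)) hexp0
          _ ≤ D * ph a z := by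
              apply mul_le_mul_of_nonneg_right _ hnn
              linarith

end Pool.Agent.Helper209.PL.FFB
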