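import Pool.Agent.Helper209.PL.Defs

set_option autoImplicit false

namespace Pool.Agent.Helper209.PL.Fine

open MeasureTheory Set
open scoped SchwartzMap InnerProductSpace FourierTransform




section Aux

open scoped ComplexConjugate

theorem aux_cont_wave (L : ℝ) (n : ℤ) : Continuous (wave L n) := by
  unfold wave
  fun_prop

theorem aux_cont_trig (L : ℝ) (s : Finset ℤ) (c : ℤ → ℂ) : Continuous (trig L s c) := by
  unfold trig
  exact continuous_finsetSum _ (fun n _ => continuous_const.mul (aux_cont_wave L n))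

theorem aux_cont_dens {ι : Type} [Fintype ι] (L : ℝ) (s : Finset ℤ) (c : ι → ℤ → ℂ) :
    Continuous (dens L s c) := by
  unfold dens
  exact continuous_finsetSum _ (fun i _ => (aux_cont_trig L s (c i)).norm.pow 2)

theorem aux_norm_wave {L : ℝ} (hL : 0 < L) (n : ℤ) (x : ℝ) : ‖wave L n x‖ ^ 2 = 1 / L := by
  unfold wave
  rw [norm_mul, Complex.norm_exp_ofReal_mul_I, mul_one, Complex.norm_real,
    Real.norm_of_nonneg (by positivity), div_pow, one_pow, Real.sq_sqrt hL.le]

theorem aux_sum_wave {L : ℝ} (hL : 0 < L) (B : Finset ℤ) (x : ℝ) :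
    ∑ n ∈ B, ‖wave L n x‖ ^ 2 = 1 / L * B.card := by
  rw [Finset.sum_congr rfl (fun n _ => aux_norm_wave hL n x), Finset.sum_const, nsmul_eq_mul]
  ring

theorem aux_dens_nonneg {ι : Type} [Fintype ι] (L : ℝ) (s : Finset ℤ) (c : ι → ℤ → ℂ) (x : ℝ) :
    0 ≤ dens L s c x := by
  unfold dens
  exact Finset.sum_nonneg (fun i _ => by positivity)

theorem aux_bes_mono {ι : Type} [Fintype ι] {s B : Finset ℤ} (hBs : B ⊆ s) {c : ι → ℤ → ℂ}
    (hc : Bes s c) : Bes B c := by
  intro a
  have h := hc (fun n => if n ∈ B then a n else 0)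
  have h1 : ∀ i, ∑ n ∈ s, c i n * (if n ∈ B then a n else 0) = ∑ n ∈ B, c i n * a n := by
    intro i
    rw [← Finset.sum_subset hBs (fun n _ hn => by rw [if_neg hn, mul_zero])]
    exact Finset.sum_congr rfl (fun n hn => by rw [if_pos hn])
  have h2 : ∑ n ∈ s, ‖(if n ∈ B then a n else 0)‖ ^ 2 = ∑ n ∈ B, ‖a n‖ ^ 2 := by
    rw [← Finset.sum_subset hBs (fun n _ hn => by rw [if_neg hn]; simp)]
    exact Finset.sum_congr rfl (fun n hn => by rw [if_pos hn])
  rw [h2] at h
  simp only [h1] at h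
  exact h

theorem aux_single {B : Finset ℤ} {m : ℤ} (hm : m ∈ B) (c : ℤ → ℂ) :
    ∑ n ∈ B, c n * (if n = m then 1 else 0) = c m := by
  simp [hm]

theorem aux_dens_split {ι : Type} [Fintype ι] {L : ℝ} {s A B : Finset ℤ} {c : ι → ℤ → ℂ}
    {x : ℝ} (h : ∀ i, trig L s (c i) x = trig L A (c i) x + trig L B (c i) x) :
    dens L s c x = dens L A c x + dens L B c x +
      2 * (∑ i, trig L A (c i) x * conj (trig L B (c i) x)).re := by
  unfold dens
  rw [Complex.re_sum, Finset.mul_sum, ← Finset.sum_add_distrib, ← Finset.sum_add_distrib]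
  refine Finset.sum_congr rfl (fun i _ => ?_)
  rw [h, Complex.sq_norm, Complex.sq_norm, Complex.sq_norm, Complex.normSq_add]

theorem aux_dens_two {ι : Type} [Fintype ι] {L : ℝ} {s A B : Finset ℤ} {c : ι → ℤ → ℂ}
    {x : ℝ} (h : ∀ i, trig L s (c i) x = trig L A (c i) x + trig L B (c i) x) :
    dens L s c x ≤ 2 * dens L A c x + 2 * dens L B c x := by
  unfold dens
  rw [Finset.mul_sum, Finset.mul_sum, ← Finset.sum_add_distrib]
  refine Finset.sum_le_sum (fun i _ => ?_)
  rw [h]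
  have h1 := norm_add_le (trig L A (c i) x) (trig L B (c i) x)
  have h2 := pow_le_pow_left₀ (norm_nonneg _) h1 2
  nlinarith [sq_nonneg (‖trig L A (c i) x‖ - ‖trig L B (c i) x‖)]

theorem aux_cross {ι : Type} [Fintype ι] (L : ℝ) (A B : Finset ℤ) (c : ι → ℤ → ℂ) (W : ℝ → ℝ)
    (hW : Continuous W) :
    ∫ x in (-(L / 2))..(L / 2), (W x : ℂ) *
      ∑ i, trig L A (c i) x * conj (trig L B (c i) x) =
      ∑ m ∈ B, ∑ n ∈ A, (∑ i, c i n * (starRingEnd ℂ) (c i m)) * vh L W m n := by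
  have h : ∀ x, (W x : ℂ) * ∑ i, trig L A (c i) x * conj (trig L B (c i) x) =
      ∑ m ∈ B, ∑ n ∈ A, (∑ i, c i n * (starRingEnd ℂ) (c i m)) *
        ((W x : ℂ) * wave L n x * (starRingEnd ℂ) (wave L m x)) := by
    intro x
    calc _ = ∑ i, ∑ n ∈ A, ∑ m ∈ B, (c i n * conj (c i m)) *
          ((W x : ℂ) * wave L n x * conj (wave L m x)) := by
          simp only [trig, map_sum, map_mul]
          rw [Finset.mul_sum]
          refine Finset.sum_congr rfl fun i _ => ?_
          rw [Finset.sum_mul_sum, Finset.mul_sum]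
          refine Finset.sum_congr rfl fun n _ => ?_
          rw [Finset.mul_sum]
          refine Finset.sum_congr rfl fun m _ => ?_
          ring
      _ = ∑ n ∈ A, ∑ i, ∑ m ∈ B, (c i n * conj (c i m)) *
          ((W x : ℂ) * wave L n x * conj (wave L m x)) := Finset.sum_comm
      _ = ∑ n ∈ A, ∑ m ∈ B, ∑ i, (c i n * conj (c i m)) *
          ((W x : ℂ) * wave L n x * conj (wave L m x)) :=
          Finset.sum_congr rfl fun n _ => Finset.sum_comm
      _ = ∑ m ∈ B, ∑ n ∈ A, ∑ i, (c i n * conj (c i m)) *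
          ((W x : ℂ) * wave L n x * conj (wave L m x)) := Finset.sum_comm
      _ = _ := by simp only [Finset.sum_mul]
  have hcont : ∀ m n, Continuous (fun x : ℝ => (∑ i, c i n * (starRingEnd ℂ) (c i m)) *
        ((W x : ℂ) * wave L n x * (starRingEnd ℂ) (wave L m x))) := by
    intro m n
    apply continuous_const.mul
    exact ((Complex.continuous_ofReal.comp hW).mul (aux_cont_wave L n)).mul
      (Complex.continuous_conj.comp (aux_cont_wave L m))
  simp only [h]
  rw [intervalIntegral.integral_finsetSum (fun m _ =>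
    (continuous_finsetSum _ (fun n _ => hcont m n)).intervalIntegrable _ _)]
  refine Finset.sum_congr rfl fun m _ => ?_
  rw [intervalIntegral.integral_finsetSum (fun n _ => (hcont m n).intervalIntegrable _ _)]
  refine Finset.sum_congr rfl fun n _ => ?_
  rw [intervalIntegral.integral_const_mul]
  rfl

theorem aux_young {D p v : ℝ} (hD : 0 < D) : 2 * (p * v) ≤ 1 / 2 * (D * p ^ 2) + 2 * (v ^ 2 / D) := by
  have h : 1 / 2 * (D * p ^ 2) + 2 * (v ^ 2 / D) - 2 * (p * v) = (D * p - 2 * v) ^ 2 / (2 * D) := by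
    field_simp
    ring
  have : 0 ≤ (D * p - 2 * v) ^ 2 / (2 * D) := by positivity
  linarith

theorem aux_lhs {ι : Type} [Fintype ι] (L ν : ℝ) (s : Finset ℤ) (c : ι → ℤ → ℂ) (V : ℝ → ℝ)
    (hV : Continuous V) :
    (∑ i, (ν * (∑ n ∈ s, ‖c i n‖ ^ 2) - enr L V s (c i))) =
      (∑ n ∈ s, (ν - mom L n ^ 2) * ∑ i, ‖c i n‖ ^ 2) -
        ∫ x in (-(L / 2))..(L / 2), V x * dens L s c x := by
  have h1 : ∫ x in (-(L / 2))..(L / 2), V x * dens L s c x =
      ∑ i, ∫ x in (-(L / 2))..(L / 2), V x * ‖trig L s (c i) x‖ ^ 2 := by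
    unfold dens
    simp only [Finset.mul_sum]
    rw [intervalIntegral.integral_finsetSum]
    intro i _
    exact (hV.mul ((aux_cont_trig L s (c i)).norm.pow 2)).intervalIntegrable _ _
  rw [h1]
  have h2 : (∑ n ∈ s, (ν - mom L n ^ 2) * ∑ i, ‖c i n‖ ^ 2) =
      ∑ i, ((ν * ∑ n ∈ s, ‖c i n‖ ^ 2) - ∑ n ∈ s, mom L n ^ 2 * ‖c i n‖ ^ 2) := by
    simp only [Finset.mul_sum]
    rw [Finset.sum_comm]
    refine Finset.sum_congr rfl fun i _ => ?_
    rw [← Finset.sum_sub_distrib]
    exact Finset.sum_congr rfl fun n _ => by ring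
  rw [h2, ← Finset.sum_sub_distrib]
  refine Finset.sum_congr rfl fun i _ => ?_
  unfold enr
  ring

theorem aux_kin (s : Finset ℤ) (E p : ℤ → ℝ) (ν : ℝ) :
    (∑ n ∈ s, (ν - E n) * p n) - (∑ n ∈ s, max (ν - E n) 0) =
      -((∑ n ∈ s.filter (fun n => ν ≤ E n), (E n - ν) * p n) +
        ∑ m ∈ s.filter (fun m => E m < ν), (ν - E m) * (1 - p m)) := by
  rw [← Finset.sum_sub_distrib, Finset.sum_filter, Finset.sum_filter, ← Finset.sum_add_distrib,
    ← Finset.sum_neg_distrib]
  refine Finset.sum_congr rfl fun n _ => ?_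
  by_cases h : E n < ν
  · rw [if_neg (not_le.2 h), if_pos h, max_eq_left (by linarith)]
    ring
  · rw [if_pos (not_lt.1 h), if_neg h, max_eq_right (by linarith)]
    ring

theorem aux_V_eq {μ : ℝ} (hμ : 0 ≤ μ) (y : ℝ) : y = V1 μ y - V2 μ y + V3 μ y := by
  unfold V1 V2 V3
  rcases le_total y (-μ) with h | h
  · rw [min_eq_right (by linarith), max_eq_left h, max_eq_left (by linarith),
      max_eq_right (by linarith)]
    ring
  · rcases le_total y μ with h' | h'
    · rw [min_eq_right h', max_eq_right h, max_eq_right (by linarith), max_eq_right (by linarith)]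
      ring
    · rw [min_eq_left h', max_eq_right (by linarith), max_eq_right (by linarith),
        max_eq_left (by linarith)]
      ring

theorem aux_V_abs {μ : ℝ} (hμ : 0 ≤ μ) (y : ℝ) : |V1 μ y| + V2 μ y ≤ |y| := by
  unfold V1 V2
  rcases le_total y (-μ) with h | h
  · rw [min_eq_right (by linarith), max_eq_left h, max_eq_left (by linarith), abs_neg,
      abs_of_nonneg hμ, abs_of_nonpos (by linarith)]
    linarith
  · rw [max_eq_right (by linarith : -y - μ ≤ 0)]
    rcases le_total y μ with h' | h'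
    · rw [min_eq_right h', max_eq_right h]
      simp
    · rw [min_eq_left h', max_eq_right (by linarith), abs_of_nonneg hμ]
      have := le_abs_self y
      linarith

theorem aux_V2_nonneg (μ y : ℝ) : 0 ≤ V2 μ y := le_max_right _ _
theorem aux_V3_nonneg (μ y : ℝ) : 0 ≤ V3 μ y := le_max_right _ _

theorem aux_pt1 {Vx v1 v2 v3 ρ ρA ρB ρR ρP g : ℝ} (hV : Vx = v1 - v2 + v3) (h2 : 0 ≤ v2)
    (h3 : 0 ≤ v3) (hρ : ρ = ρA + ρB + 2 * g) (hρ2 : ρ ≤ 2 * ρA + 2 * ρB) (hρ0 : 0 ≤ ρ)
    (hA : 0 ≤ ρA) (hR : 0 ≤ ρR) (hRB : ρR = ρP - ρB) :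
    -(Vx * (ρ - ρP)) ≤ -(2 * (v1 * g)) + (|v1| + 2 * v2) * ρA + |v1| * ρR + ρP * (v2 + v3) := by
  have e1 : -(v1 * ρA) ≤ |v1| * ρA := by
    have := mul_le_mul_of_nonneg_right (neg_le_abs v1) hA
    linarith
  have e2 : v1 * ρR ≤ |v1| * ρR := mul_le_mul_of_nonneg_right (le_abs_self v1) hR
  have e3 : v2 * ρ ≤ v2 * (2 * ρA + 2 * ρB) := mul_le_mul_of_nonneg_left hρ2 h2
  have e4 : 0 ≤ v2 * ρR := mul_nonneg h2 hR
  have e5 : 0 ≤ v3 * ρ := mul_nonneg h3 hρ0
  have e6 : -(Vx * (ρ - ρP)) = -(v1 * ρA) + v1 * ρR - 2 * (v1 * g) + v2 * ρ - v2 * ρP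
      - v3 * ρ + v3 * ρP := by
    rw [hV, hRB]
    have : v1 * ρ = v1 * (ρA + ρB + 2 * g) := by rw [hρ]
    linear_combination -this
  have e7 : v2 * (2 * ρA + 2 * ρB) - v2 * ρP = 2 * v2 * ρA + v2 * ρP - 2 * (v2 * ρR) := by
    rw [hRB]; ring
  rw [e6]
  nlinarith

theorem aux_pt2 {ν L μ : ℝ} (hν : 0 < ν) (hL : 0 < L) (hμ : 0 ≤ μ) (y : ℝ) :
    2 * ((|V1 μ y| + 2 * V2 μ y) *
      ((Real.sqrt (ν + max (4 * (|V1 μ y| + 2 * V2 μ y)) 0) - Real.sqrt ν) / Real.pi + 2 / L)) +
      2 * (|V1 μ y| * (4 * |V1 μ y| / (Real.pi * Real.sqrt ν) + 2 / L)) ≤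
    8 / Real.sqrt ν * V1 μ y ^ 2 + 11 * V2 μ y ^ (3 / 2 : ℝ) + 8 / L * |y| := by
  have hq : 0 ≤ V2 μ y := aux_V2_nonneg μ y
  have ha : 0 ≤ |V1 μ y| := abs_nonneg _
  have hy := aux_V_abs hμ y
  have hsq : V1 μ y ^ 2 = |V1 μ y| ^ 2 := (sq_abs _).symm
  have hrp : V2 μ y ^ (3 / 2 : ℝ) = V2 μ y * Real.sqrt (V2 μ y) := by
    rw [show (3 / 2 : ℝ) = 1 + 1 / 2 by norm_num,
      Real.rpow_add_of_nonneg hq (by norm_num) (by norm_num), Real.rpow_one, ← Real.sqrt_eq_rpow]
  rw [hsq, hrp]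
  generalize |V1 μ y| = a at *
  generalize V2 μ y = q at *
  have hv : 0 ≤ a + 2 * q := by positivity
  rw [max_eq_left (by positivity : (0 : ℝ) ≤ 4 * (a + 2 * q))]
  set S := Real.sqrt ν with hS
  have hS0 : 0 < S := Real.sqrt_pos.2 hν
  have hSS : S ^ 2 = ν := Real.sq_sqrt hν.le
  set v := a + 2 * q with hvdef
  have hX : 2 * v * (Real.sqrt (ν + 4 * v) - S) ≤ 16 * (a ^ 2 / S) + 32 * (q * Real.sqrt q) := by
    rcases le_total (2 * q) a with h | h
    · have h1 : Real.sqrt (ν + 4 * v) ≤ S + 2 * v / S := by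
        apply Real.sqrt_le_iff.2
        constructor
        · positivity
        · have : (S + 2 * v / S) ^ 2 = S ^ 2 + 4 * v + (2 * v / S) ^ 2 := by
            field_simp
            ring
          rw [this, hSS]
          have : 0 ≤ (2 * v / S) ^ 2 := by positivity
          linarith
      have h2 : 2 * v * (Real.sqrt (ν + 4 * v) - S) ≤ 2 * v * (2 * v / S) :=
        mul_le_mul_of_nonneg_left (by linarith) (by positivity)
      have h3 : 2 * v * (2 * v / S) ≤ 16 * (a ^ 2 / S) := by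
        have h4 : 2 * v * (2 * v / S) = 4 * v ^ 2 / S := by ring
        have h5 : 16 * (a ^ 2 / S) = 4 * (2 * a) ^ 2 / S := by ring
        rw [h4, h5]
        have h6 : v ≤ 2 * a := by rw [hvdef]; linarith
        have h7 : v ^ 2 ≤ (2 * a) ^ 2 := pow_le_pow_left₀ hv h6 2
        gcongr
      have h8 : 0 ≤ q * Real.sqrt q := by positivity
      linarith
    · have h1 : Real.sqrt (ν + 4 * v) ≤ S + 2 * Real.sqrt v := by
        apply Real.sqrt_le_iff.2
        constructor
        · positivity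
        · have h9 : Real.sqrt v ^ 2 = v := Real.sq_sqrt hv
          have h10 : 0 ≤ S * Real.sqrt v := by positivity
          nlinarith
      have h2 : 2 * v * (Real.sqrt (ν + 4 * v) - S) ≤ 2 * v * (2 * Real.sqrt v) :=
        mul_le_mul_of_nonneg_left (by linarith) (by positivity)
      have h6 : v ≤ 4 * q := by rw [hvdef]; linarith
      have h7 : Real.sqrt v ≤ 2 * Real.sqrt q := by
        have : Real.sqrt (4 * q) = 2 * Real.sqrt q := by
          rw [Real.sqrt_mul (by norm_num), show (4 : ℝ) = 2 ^ 2 by norm_num,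
            Real.sqrt_sq (by norm_num)]
        rw [← this]
        exact Real.sqrt_le_sqrt h6
      have h8 : 2 * v * (2 * Real.sqrt v) ≤ 2 * (4 * q) * (2 * (2 * Real.sqrt q)) := by
        gcongr
      have h9 : 0 ≤ a ^ 2 / S := by positivity
      nlinarith
  have hpi : 3 < Real.pi := Real.pi_gt_three
  have hpi0 : 0 < Real.pi := Real.pi_pos
  have e1 : 2 * (v * ((Real.sqrt (ν + 4 * v) - S) / Real.pi + 2 / L)) =
      (2 * v * (Real.sqrt (ν + 4 * v) - S)) / Real.pi + 4 * v / L := by ring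
  have e2 : 2 * (a * (4 * a / (Real.pi * S) + 2 / L)) = 8 * (a ^ 2 / S) / Real.pi + 4 * a / L := by
    field_simp
    ring
  have e3 : (2 * v * (Real.sqrt (ν + 4 * v) - S)) / Real.pi + 8 * (a ^ 2 / S) / Real.pi ≤
      8 * (a ^ 2 / S) + 11 * (q * Real.sqrt q) := by
    rw [← add_div, div_le_iff₀ hpi0]
    have h1 : 0 ≤ a ^ 2 / S := by positivity
    have h2 : 0 ≤ q * Real.sqrt q := by positivity
    nlinarith
  have e4 : 4 * v / L + 4 * a / L ≤ 8 / L * |y| := by
    have h1 : 4 * v / L + 4 * a / L = 8 / L * (a + q) := by rw [hvdef]; ring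
    rw [h1]
    gcongr
  have e5 : 8 / S * a ^ 2 = 8 * (a ^ 2 / S) := by ring
  rw [e1, e2, e5]
  linarith

theorem aux_cont_V1 (μ : ℝ) {V : ℝ → ℝ} (hV : Continuous V) : Continuous (fun x => V1 μ (V x)) := by
  unfold V1
  fun_prop

theorem aux_cont_V2 (μ : ℝ) {V : ℝ → ℝ} (hV : Continuous V) : Continuous (fun x => V2 μ (V x)) := by
  unfold V2
  fun_prop

theorem aux_cont_V3 (μ : ℝ) {V : ℝ → ℝ} (hV : Continuous V) : Continuous (fun x => V3 μ (V x)) := by
  unfold V3
  fun_prop

theorem aux_count_A (hCle : CountLeStmt) {L ν : ℝ} (hL : 0 < L) (hν : 0 < ν) (s : Finset ℤ)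
    {e : ℝ} (he : 0 ≤ e) :
    ((((s.filter (fun n => ν ≤ mom L n ^ 2)).filter
      (fun n => mom L n ^ 2 - ν ≤ e)).card : ℕ) : ℝ) ≤
      L * ((Real.sqrt (ν + max e 0) - Real.sqrt ν) / Real.pi + 2 / L) := by
  rw [max_eq_left he]
  apply hCle L (Real.sqrt ν) (Real.sqrt (ν + e)) hL (Real.sqrt_nonneg _)
    (Real.sqrt_le_sqrt (by linarith))
  intro n hn
  rw [Finset.mem_filter, Finset.mem_filter] at hn
  constructor
  · apply Real.sqrt_le_iff.2
    exact ⟨abs_nonneg _, by rw [sq_abs]; exact hn.1.2⟩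
  · apply Real.le_sqrt_of_sq_le
    rw [sq_abs]
    linarith [hn.2]

theorem aux_count_B (hCle : CountLeStmt) {L ν : ℝ} (hL : 0 < L) (hν : 0 < ν) (s : Finset ℤ)
    {e : ℝ} (he : 0 ≤ e) :
    ((((s.filter (fun n => mom L n ^ 2 < ν)).filter
      (fun n => ν - mom L n ^ 2 ≤ e)).card : ℕ) : ℝ) ≤
      L * (e / (Real.pi * Real.sqrt ν) + 2 / L) := by
  have hS0 : 0 < Real.sqrt ν := Real.sqrt_pos.2 hν
  have hSS : Real.sqrt ν ^ 2 = ν := Real.sq_sqrt hν.le
  have h1 := hCle L (Real.sqrt (max (ν - e) 0)) (Real.sqrt ν) hL (Real.sqrt_nonneg _)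
    (Real.sqrt_le_sqrt (max_le (by linarith) hν.le))
    ((s.filter (fun n => mom L n ^ 2 < ν)).filter (fun n => ν - mom L n ^ 2 ≤ e)) (by
      intro n hn
      rw [Finset.mem_filter, Finset.mem_filter] at hn
      constructor
      · apply Real.sqrt_le_iff.2
        refine ⟨abs_nonneg _, ?_⟩
        rw [sq_abs]
        exact max_le (by linarith [hn.2]) (sq_nonneg _)
      · apply Real.le_sqrt_of_sq_le
        rw [sq_abs]
        exact hn.1.2.le)
  refine h1.trans ?_
  apply mul_le_mul_of_nonneg_left _ hL.le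
  have h2 : Real.sqrt ν - Real.sqrt (max (ν - e) 0) ≤ e / Real.sqrt ν := by
    set T := Real.sqrt (max (ν - e) 0) with hT
    have hT0 : 0 ≤ T := Real.sqrt_nonneg _
    have hTT : T ^ 2 = max (ν - e) 0 := Real.sq_sqrt (le_max_right _ _)
    have hTS : T ≤ Real.sqrt ν := Real.sqrt_le_sqrt (max_le (by linarith) hν.le)
    rw [le_div_iff₀ hS0]
    have h3 : ν - e ≤ T ^ 2 := by rw [hTT]; exact le_max_left _ _
    nlinarith
  have h4 : e / (Real.pi * Real.sqrt ν) = (e / Real.sqrt ν) / Real.pi := by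
    field_simp
  rw [h4]
  have hpi0 : 0 < Real.pi := Real.pi_pos
  gcongr

end Aux

/-- level inequality, fine version -/
theorem core_fine (hO : OrthStmt) (hT : TrigNormStmt) (hCle : CountLeStmt) (hClt : CountLtStmt)
    (hR : RuminStmt) (hH : HolesStmt) (hS : SumruleStmt)
    {ι : Type} [Fintype ι] (L μ ν : ℝ) (hL : 0 < L) (hν : 0 < ν) (hνμ : ν ≤ μ) (s : Finset ℤ)
    (c : ι → ℤ → ℂ) (hc : Bes s c) (V : ℝ → ℝ) (hV : Continuous V) :
    (∑ i, (ν * (∑ n ∈ s, ‖c i n‖ ^ 2) - enr L V s (c i)))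
      - (∑ n ∈ s, max (ν - mom L n ^ 2) 0)
      + (1 / L) * ((s.filter (fun n => mom L n ^ 2 < ν)).card : ℝ) * (∫ x in (-(L / 2))..(L / 2), V x)
    ≤ (8 / Real.sqrt ν) * (∫ x in (-(L / 2))..(L / 2), V1 μ (V x) ^ 2)
      + 11 * (∫ x in (-(L / 2))..(L / 2), V2 μ (V x) ^ (3 / 2 : ℝ))
      + (Real.sqrt ν / Real.pi + 1 / L) * (∫ x in (-(L / 2))..(L / 2), (V2 μ (V x) + V3 μ (V x)))
      + (8 / L) * (∫ x in (-(L / 2))..(L / 2), |V x|)
      + 2 * ∑ m ∈ s.filter (fun m => mom L m ^ 2 < ν), ∑ n ∈ s.filter (fun n => ν ≤ mom L n ^ 2),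
          ‖vh L (fun x => V1 μ (V x)) m n‖ ^ 2 / (mom L n ^ 2 - mom L m ^ 2) := by
  have hμ : 0 ≤ μ := hν.le.trans hνμ
  have hSr := hS s c hc (fun n => mom L n ^ 2) ν
  have hkin := aux_kin s (fun n => mom L n ^ 2) (fun n => ∑ i, ‖c i n‖ ^ 2) ν
  have hAc : ∀ e : ℝ, 0 ≤ e → _ := fun e he => aux_count_A hCle hL hν s he
  have hBc : ∀ e : ℝ, 0 ≤ e → _ := fun e he => aux_count_B hCle hL hν s he
  set A := s.filter (fun n => ν ≤ mom L n ^ 2) with hA
  set B := s.filter (fun n => mom L n ^ 2 < ν) with hB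
  have hAs : A ⊆ s := Finset.filter_subset _ _
  have hBs : B ⊆ s := Finset.filter_subset _ _
  have hcA : Bes A c := aux_bes_mono hAs hc
  have hcB : Bes B c := aux_bes_mono hBs hc
  have hsplit : ∀ i x, trig L s (c i) x = trig L A (c i) x + trig L B (c i) x := by
    intro i x
    have h1 : A = s.filter (fun n => ¬ mom L n ^ 2 < ν) := by
      rw [hA]
      exact Finset.filter_congr (fun n _ => not_lt.symm)
    unfold trig
    rw [h1, hB, add_comm]
    exact (Finset.sum_filter_add_sum_filter_not s _ _).symm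
  obtain ⟨N, d, hd⟩ := hH B c hcB
  have hdB : Bes B d := by
    intro a
    rw [hd a]
    have : 0 ≤ ∑ i, ‖∑ n ∈ B, c i n * a n‖ ^ 2 := Finset.sum_nonneg (fun i _ => by positivity)
    linarith
  have hρR : ∀ x, dens L B d x = 1 / L * B.card - dens L B c x := by
    intro x
    have h1 := hd (fun n => wave L n x)
    rw [aux_sum_wave hL] at h1
    exact h1
  have hdm : ∀ m ∈ B, ∑ j, ‖d j m‖ ^ 2 = 1 - ∑ i, ‖c i m‖ ^ 2 := by
    intro m hm
    have h1 := hd (fun n => if n = m then 1 else 0)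
    simp only [aux_single hm] at h1
    rw [h1]
    congr 1
    rw [Finset.sum_eq_single m]
    · simp
    · intro n _ hn
      simp [hn]
    · intro h; exact absurd hm h
  -- continuity
  have hcV1 := aux_cont_V1 μ hV
  have hcV2 := aux_cont_V2 μ hV
  have hcV3 := aux_cont_V3 μ hV
  have hcA' := aux_cont_dens L A c
  have hcs := aux_cont_dens L s c
  have hcR := aux_cont_dens L B d
  set g : ℝ → ℂ := fun x => ∑ i, trig L A (c i) x * (starRingEnd ℂ) (trig L B (c i) x) with hg
  have hcg : Continuous g := by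
    apply continuous_finsetSum
    intro i _
    exact (aux_cont_trig L A (c i)).mul (Complex.continuous_conj.comp (aux_cont_trig L B (c i)))
  have hab : -(L / 2) ≤ L / 2 := by linarith
  set ρP : ℝ := 1 / L * (B.card : ℝ) with hρP
  -- pointwise inequality 1
  have hpt1 : ∀ x, -(V x * (dens L s c x - ρP)) ≤ -(2 * (V1 μ (V x) * (g x).re)) +
      (|V1 μ (V x)| + 2 * V2 μ (V x)) * dens L A c x + |V1 μ (V x)| * dens L B d x +
      ρP * (V2 μ (V x) + V3 μ (V x)) := by
    intro x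
    exact aux_pt1 (aux_V_eq hμ (V x)) (aux_V2_nonneg _ _) (aux_V3_nonneg _ _)
      (aux_dens_split (fun i => hsplit i x)) (aux_dens_two (fun i => hsplit i x))
      (aux_dens_nonneg _ _ _ _) (aux_dens_nonneg _ _ _ _) (aux_dens_nonneg _ _ _ _) (hρR x)
  -- integrals
  have hi1 : IntervalIntegrable (fun x => -(2 * (V1 μ (V x) * (g x).re))) volume (-(L / 2)) (L / 2) :=
    Continuous.intervalIntegrable (by fun_prop) _ _
  have hi2 : IntervalIntegrable (fun x => (|V1 μ (V x)| + 2 * V2 μ (V x)) * dens L A c x) volume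
      (-(L / 2)) (L / 2) := Continuous.intervalIntegrable (by fun_prop) _ _
  have hi3 : IntervalIntegrable (fun x => |V1 μ (V x)| * dens L B d x) volume
      (-(L / 2)) (L / 2) := Continuous.intervalIntegrable (by fun_prop) _ _
  have hi4 : IntervalIntegrable (fun x => ρP * (V2 μ (V x) + V3 μ (V x))) volume
      (-(L / 2)) (L / 2) := Continuous.intervalIntegrable (by fun_prop) _ _
  have hi5 : IntervalIntegrable (fun x => -(V x * (dens L s c x - ρP))) volume
      (-(L / 2)) (L / 2) := Continuous.intervalIntegrable (by fun_prop) _ _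
  have hI1 := intervalIntegral.integral_mono_on hab hi5 (((hi1.add hi2).add hi3).add hi4)
    (fun x _ => hpt1 x)
  rw [intervalIntegral.integral_add ((hi1.add hi2).add hi3) hi4,
    intervalIntegral.integral_add (hi1.add hi2) hi3, intervalIntegral.integral_add hi1 hi2,
    intervalIntegral.integral_neg, intervalIntegral.integral_neg,
    intervalIntegral.integral_const_mul, intervalIntegral.integral_const_mul] at hI1
  have hI2 : ∫ x in (-(L / 2))..(L / 2), V x * (dens L s c x - ρP) =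
      (∫ x in (-(L / 2))..(L / 2), V x * dens L s c x) -
        ρP * ∫ x in (-(L / 2))..(L / 2), V x := by
    rw [← intervalIntegral.integral_const_mul, ← intervalIntegral.integral_sub]
    · congr 1
      funext x
      ring
    · exact Continuous.intervalIntegrable (by fun_prop) _ _
    · exact Continuous.intervalIntegrable (by fun_prop) _ _
  -- the cross term
  have hcr : |∫ x in (-(L / 2))..(L / 2), V1 μ (V x) * (g x).re| ≤
      ‖∑ m ∈ B, ∑ n ∈ A, (∑ i, c i n * (starRingEnd ℂ) (c i m)) *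
        vh L (fun x => V1 μ (V x)) m n‖ := by
    rw [← aux_cross L A B c (fun x => V1 μ (V x)) hcV1]
    have h1 : ∫ x in (-(L / 2))..(L / 2), V1 μ (V x) * (g x).re =
        (∫ x in (-(L / 2))..(L / 2), (V1 μ (V x) : ℂ) * g x).re := by
      have h2 : IntervalIntegrable (fun x => (V1 μ (V x) : ℂ) * g x) volume (-(L / 2)) (L / 2) :=
        Continuous.intervalIntegrable (by fun_prop) _ _
      have h3 := Complex.reCLM.intervalIntegral_comp_comm h2
      simp only [Complex.reCLM_apply] at h3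
      rw [← h3]
      congr 1
      funext x
      rw [Complex.re_ofReal_mul]
    rw [h1]
    exact Complex.abs_re_le_norm _
  have hcr2 : 2 * ‖∑ m ∈ B, ∑ n ∈ A, (∑ i, c i n * (starRingEnd ℂ) (c i m)) *
        vh L (fun x => V1 μ (V x)) m n‖ ≤
      1 / 2 * (∑ m ∈ B, ∑ n ∈ A, (mom L n ^ 2 - mom L m ^ 2) *
        ‖∑ i, c i n * (starRingEnd ℂ) (c i m)‖ ^ 2) +
      2 * ∑ m ∈ B, ∑ n ∈ A,
          ‖vh L (fun x => V1 μ (V x)) m n‖ ^ 2 / (mom L n ^ 2 - mom L m ^ 2) := by
    calc _ ≤ 2 * ∑ m ∈ B, ∑ n ∈ A, ‖∑ i, c i n * (starRingEnd ℂ) (c i m)‖ *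
          ‖vh L (fun x => V1 μ (V x)) m n‖ := by
          apply mul_le_mul_of_nonneg_left _ (by norm_num)
          refine (norm_sum_le _ _).trans (Finset.sum_le_sum fun m _ => ?_)
          refine (norm_sum_le _ _).trans (Finset.sum_le_sum fun n _ => ?_)
          rw [norm_mul]
      _ ≤ _ := by
          rw [Finset.mul_sum, Finset.mul_sum, Finset.mul_sum, ← Finset.sum_add_distrib]
          refine Finset.sum_le_sum fun m hm => ?_
          rw [Finset.mul_sum, Finset.mul_sum, Finset.mul_sum, ← Finset.sum_add_distrib]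
          refine Finset.sum_le_sum fun n hn => ?_
          have h1 : ν ≤ mom L n ^ 2 := (Finset.mem_filter.1 hn).2
          have h2 : mom L m ^ 2 < ν := (Finset.mem_filter.1 hm).2
          exact aux_young (by linarith)
  -- Rumin on A
  have hpi0 : 0 < Real.pi := Real.pi_pos
  have hS0 : 0 < Real.sqrt ν := Real.sqrt_pos.2 hν
  have hRA := hR L hL A c hcA (fun n => mom L n ^ 2 - ν)
    (fun n hn => by
      have h1 : ν ≤ mom L n ^ 2 := (Finset.mem_filter.1 hn).2
      linarith)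
    (fun e => (Real.sqrt (ν + max e 0) - Real.sqrt ν) / Real.pi + 2 / L)
    (by fun_prop)
    (by
      intro a _ b _ hab
      have : Real.sqrt (ν + max a 0) ≤ Real.sqrt (ν + max b 0) := by
        apply Real.sqrt_le_sqrt
        gcongr
      simp only
      gcongr)
    hAc (fun x => |V1 μ (V x)| + 2 * V2 μ (V x)) (by fun_prop)
    (fun x => by
      have := aux_V2_nonneg μ (V x)
      positivity) 4 (by norm_num)
  have hRB := hR L hL B d hdB (fun n => ν - mom L n ^ 2)
    (fun n hn => by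
      have h1 : mom L n ^ 2 < ν := (Finset.mem_filter.1 hn).2
      linarith)
    (fun e => e / (Real.pi * Real.sqrt ν) + 2 / L)
    (by fun_prop)
    (by
      intro a _ b _ hab
      simp only
      gcongr)
    hBc (fun x => |V1 μ (V x)|) (by fun_prop)
    (fun x => abs_nonneg _) 4 (by norm_num)
  have hKB : ∑ n ∈ B, (ν - mom L n ^ 2) * ∑ j, ‖d j n‖ ^ 2 =
      ∑ m ∈ B, (ν - mom L m ^ 2) * (1 - ∑ i, ‖c i m‖ ^ 2) :=
    Finset.sum_congr rfl fun m hm => by rw [hdm m hm]
  rw [hKB] at hRB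
  -- pointwise inequality 2 integrated
  have hj1 : IntervalIntegrable (fun x => (|V1 μ (V x)| + 2 * V2 μ (V x)) *
      ((Real.sqrt (ν + max (4 * (|V1 μ (V x)| + 2 * V2 μ (V x))) 0) - Real.sqrt ν) / Real.pi
        + 2 / L)) volume (-(L / 2)) (L / 2) := Continuous.intervalIntegrable (by fun_prop) _ _
  have hj2 : IntervalIntegrable (fun x => |V1 μ (V x)| *
      (4 * |V1 μ (V x)| / (Real.pi * Real.sqrt ν) + 2 / L)) volume (-(L / 2)) (L / 2) :=
    Continuous.intervalIntegrable (by fun_prop) _ _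
  have hj3 : IntervalIntegrable (fun x => V1 μ (V x) ^ 2) volume (-(L / 2)) (L / 2) :=
    Continuous.intervalIntegrable (by fun_prop) _ _
  have hj4 : IntervalIntegrable (fun x => V2 μ (V x) ^ (3 / 2 : ℝ)) volume (-(L / 2)) (L / 2) :=
    Continuous.intervalIntegrable (hcV2.rpow_const (fun x => Or.inr (by norm_num))) _ _
  have hj5 : IntervalIntegrable (fun x => |V x|) volume (-(L / 2)) (L / 2) :=
    Continuous.intervalIntegrable (by fun_prop) _ _
  have hI3 := intervalIntegral.integral_mono_on hab ((hj1.const_mul 2).add (hj2.const_mul 2))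
    (((hj3.const_mul (8 / Real.sqrt ν)).add (hj4.const_mul 11)).add (hj5.const_mul (8 / L)))
    (fun x _ => aux_pt2 hν hL hμ (V x))
  rw [intervalIntegral.integral_add (hj1.const_mul 2) (hj2.const_mul 2),
    intervalIntegral.integral_add ((hj3.const_mul (8 / Real.sqrt ν)).add (hj4.const_mul 11))
      (hj5.const_mul (8 / L)),
    intervalIntegral.integral_add (hj3.const_mul (8 / Real.sqrt ν)) (hj4.const_mul 11),
    intervalIntegral.integral_const_mul, intervalIntegral.integral_const_mul,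
    intervalIntegral.integral_const_mul, intervalIntegral.integral_const_mul,
    intervalIntegral.integral_const_mul] at hI3
  -- the density of the modes below the level
  have hPle : ρP * (∫ x in (-(L / 2))..(L / 2), (V2 μ (V x) + V3 μ (V x))) ≤
      (Real.sqrt ν / Real.pi + 1 / L) *
        (∫ x in (-(L / 2))..(L / 2), (V2 μ (V x) + V3 μ (V x))) := by
    apply mul_le_mul_of_nonneg_right
    · have h1 := hClt L (Real.sqrt ν) hL (Real.sqrt_nonneg _) B (by
        intro n hn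
        apply Real.le_sqrt_of_sq_le
        rw [sq_abs]
        exact ((Finset.mem_filter.1 hn).2).le)
      rw [hρP, div_mul_eq_mul_div, one_mul, div_le_iff₀ hL]
      linarith
    · apply intervalIntegral.integral_nonneg hab
      intro x _
      have := aux_V2_nonneg μ (V x)
      have := aux_V3_nonneg μ (V x)
      positivity
  have hlhs := aux_lhs L ν s c V hV
  rw [hlhs]
  have hcr3 := abs_le.1 hcr
  linarith [hcr3.1, hcr3.2]

end Pool.Agent.Helper209.PL.Fine
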