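import Pool.Agent.Helper209.PL.Defs

set_option autoImplicit false

namespace Pool.Agent.Helper209.PL.Four

open MeasureTheory Set
open scoped SchwartzMap InnerProductSpace FourierTransform






theorem conj_wave_eq_833 (L : ℝ) (hL : 0 < L) (n : ℤ) (x : ℝ) :
    (starRingEnd ℂ) (wave L n x) = ((1 / Real.sqrt L : ℝ) : ℂ) *
      fourier (-n) (x : AddCircle (L / 2 - -(L / 2))) := by
  have hLc : (L : ℂ) ≠ 0 := by exact_mod_cast hL.ne'
  rw [fourier_coe_apply, wave, map_mul, Complex.conj_ofReal, ← Complex.exp_conj]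
  congr 2
  rw [map_mul, Complex.conj_ofReal, Complex.conj_I, mom]
  push_cast
  have : (L : ℂ) / 2 - -((L : ℂ) / 2) = L := by ring
  rw [this]
  field_simp

theorem wave_continuous_833 (L : ℝ) (n : ℤ) : Continuous (wave L n) := by
  unfold wave
  fun_prop

theorem cwave_continuous_833 (L : ℝ) (n : ℤ) :
    Continuous (fun x => (starRingEnd ℂ) (wave L n x)) :=
  Complex.continuous_conj.comp (wave_continuous_833 L n)

/-- Parseval on the box -/
theorem coef_parseval (L : ℝ) (hL : 0 < L) (u : ℝ → ℂ) (hu : Continuous u) :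
    HasSum (fun n : ℤ => ‖coef L u n‖ ^ 2) (∫ x in (-(L / 2))..(L / 2), ‖u x‖ ^ 2) := by
  have hab : -(L / 2) < L / 2 := by linarith
  have hmem : MemLp u 2 (volume.restrict (Ioc (-(L / 2)) (L / 2))) := by
    have h1 : IntegrableOn (fun x => ‖u x‖ ^ 2) (Ioc (-(L / 2)) (L / 2)) :=
      ((hu.norm.pow 2).integrableOn_Icc).mono_set Ioc_subset_Icc_self
    exact (memLp_two_iff_integrable_sq_norm hu.aestronglyMeasurable).2 h1
  have key := hasSum_sq_fourierCoeffOn hab hmem
  have hs : 0 < Real.sqrt L := Real.sqrt_pos.2 hL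
  have hcoef : ∀ n : ℤ, ‖coef L u n‖ ^ 2 = L * ‖fourierCoeffOn hab u n‖ ^ 2 := by
    intro n
    rw [fourierCoeffOn_eq_integral]
    have h1 : coef L u n = ((1 / Real.sqrt L : ℝ) : ℂ) *
        ∫ x in (-(L / 2))..(L / 2), fourier (-n) (x : AddCircle (L / 2 - -(L / 2))) • u x := by
      rw [coef, ← intervalIntegral.integral_const_mul]
      refine intervalIntegral.integral_congr (fun x _ => ?_)
      simp only [smul_eq_mul]
      rw [conj_wave_eq_833 L hL]
      ring
    rw [h1, norm_mul, norm_smul, mul_pow, mul_pow]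
    have h2 : ‖((1 / Real.sqrt L : ℝ) : ℂ)‖ ^ 2 = 1 / L := by
      rw [Complex.norm_real, Real.norm_eq_abs, sq_abs, div_pow, Real.sq_sqrt hL.le, one_pow]
    have h3 : ‖(1 / (L / 2 - -(L / 2)) : ℝ)‖ ^ 2 = 1 / L ^ 2 := by
      have : L / 2 - -(L / 2) = L := by ring
      rw [this, Real.norm_eq_abs, sq_abs, div_pow, one_pow]
    rw [h2, h3]
    field_simp
  have h4 := key.mul_left L
  have h5 : L * ((L / 2 - -(L / 2))⁻¹ • ∫ x in (-(L / 2))..(L / 2), ‖u x‖ ^ 2)
      = ∫ x in (-(L / 2))..(L / 2), ‖u x‖ ^ 2 := by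
    have : L / 2 - -(L / 2) = L := by ring
    rw [this, smul_eq_mul]
    field_simp
  rw [h5] at h4
  simp_rw [hcoef]
  exact h4

theorem wave_hasDeriv_833 (L : ℝ) (n : ℤ) (x : ℝ) :
    HasDerivAt (wave L n) (((mom L n : ℝ) : ℂ) * Complex.I * wave L n x) x := by
  unfold wave
  have h1 : HasDerivAt (fun x : ℝ => (((mom L n * x : ℝ) : ℂ) * Complex.I))
      (((mom L n : ℝ) : ℂ) * Complex.I) x := by
    have h0 : HasDerivAt (fun x : ℝ => ((mom L n * x : ℝ) : ℂ)) ((mom L n : ℝ) : ℂ) x := by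
      have := ((hasDerivAt_id x).const_mul (mom L n)).ofReal_comp
      simpa using this
    exact h0.mul_const _
  have h2 := (h1.cexp).const_mul ((1 / Real.sqrt L : ℝ) : ℂ)
  refine h2.congr_deriv ?_
  ring

theorem cwave_hasDeriv_833 (L : ℝ) (n : ℤ) (x : ℝ) :
    HasDerivAt (fun x => (starRingEnd ℂ) (wave L n x))
      (-(((mom L n : ℝ) : ℂ) * Complex.I) * (starRingEnd ℂ) (wave L n x)) x := by
  have h := (wave_hasDeriv_833 L n x).star
  refine (HasDerivAt.congr_deriv h ?_)
  simp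

theorem wave_per_833 (L : ℝ) (hL : 0 < L) (n : ℤ) : wave L n (-(L / 2)) = wave L n (L / 2) := by
  unfold wave
  congr 1
  have hLc : (L : ℂ) ≠ 0 := by exact_mod_cast hL.ne'
  have : (((mom L n * (L / 2) : ℝ) : ℂ) * Complex.I)
      = (((mom L n * -(L / 2) : ℝ) : ℂ) * Complex.I) + n * (2 * Real.pi * Complex.I) := by
    unfold mom
    push_cast
    field_simp
    ring
  rw [this, Complex.exp_add, Complex.exp_int_mul_two_pi_mul_I, mul_one]

/-- Fourier coefficients of the derivative -/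
theorem coef_deriv (L : ℝ) (hL : 0 < L) (u : ℝ → ℂ) (hu : ContDiff ℝ 1 u)
    (hper : u (-(L / 2)) = u (L / 2)) (n : ℤ) :
    coef L (deriv u) n = ((mom L n : ℝ) : ℂ) * Complex.I * coef L u n := by
  have hd : ∀ x, HasDerivAt u (deriv u x) x := fun x =>
    (hu.differentiable one_ne_zero x).hasDerivAt
  have hcd : Continuous (deriv u) := hu.continuous_deriv le_rfl
  have hib := intervalIntegral.integral_mul_deriv_eq_deriv_mul (a := -(L / 2)) (b := L / 2)
    (u := u) (v := fun x => (starRingEnd ℂ) (wave L n x)) (u' := deriv u)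
    (v' := fun x => -(((mom L n : ℝ) : ℂ) * Complex.I) * (starRingEnd ℂ) (wave L n x))
    (fun x _ => hd x) (fun x _ => cwave_hasDeriv_833 L n x)
    (hcd.intervalIntegrable _ _)
    ((continuous_const.mul (cwave_continuous_833 L n)).intervalIntegrable _ _)
  have h1 : ∫ x in (-(L / 2))..(L / 2), u x * (-(((mom L n : ℝ) : ℂ) * Complex.I) *
      (starRingEnd ℂ) (wave L n x)) = -(((mom L n : ℝ) : ℂ) * Complex.I) * coef L u n := by
    rw [coef, ← intervalIntegral.integral_const_mul]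
    refine intervalIntegral.integral_congr (fun x _ => ?_)
    ring
  rw [h1, wave_per_833 L hL, hper, sub_self, zero_sub] at hib
  unfold coef at hib ⊢
  linear_combination hib

theorem coef_mul_833 (L : ℝ) (u : ℝ → ℂ) (c : ℂ) (n : ℤ) :
    coef L (fun x => c * u x) n = c * coef L u n := by
  rw [coef, coef, ← intervalIntegral.integral_const_mul]
  refine intervalIntegral.integral_congr (fun x _ => ?_)
  ring

theorem coef_wave_833 (L : ℝ) (hL : 0 < L) (m n : ℤ) :
    coef L (wave L m) n = if m = n then 1 else 0 := by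
  split_ifs with h
  · subst h
    rw [coef]
    have hs : 0 < Real.sqrt L := Real.sqrt_pos.2 hL
    have h1 : ∀ x : ℝ, wave L m x * (starRingEnd ℂ) (wave L m x) = ((1 / L : ℝ) : ℂ) := by
      intro x
      rw [Complex.mul_conj, Complex.normSq_eq_norm_sq, wave, norm_mul, Complex.norm_exp_ofReal_mul_I,
        Complex.norm_real, Real.norm_eq_abs, mul_one, sq_abs, div_pow, Real.sq_sqrt hL.le, one_pow]
    simp_rw [h1]
    rw [intervalIntegral.integral_const]
    have hLc : (L : ℂ) ≠ 0 := by exact_mod_cast hL.ne'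
    simp only [Complex.real_smul]
    push_cast
    field_simp
    ring
  · have hcd : ContDiff ℝ 1 (wave L m) := by
      unfold wave
      have h0 : ContDiff ℝ 1 (fun x : ℝ => ((mom L m * x : ℝ) : ℂ)) :=
        Complex.ofRealCLM.contDiff.comp (contDiff_const.mul contDiff_id)
      exact contDiff_const.mul ((h0.mul contDiff_const).cexp)
    have h1 := coef_deriv L hL (wave L m) hcd (wave_per_833 L hL m) n
    have h2 : deriv (wave L m) = fun x => ((mom L m : ℝ) : ℂ) * Complex.I * wave L m x := by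
      funext x
      exact (wave_hasDeriv_833 L m x).deriv
    rw [h2, coef_mul_833] at h1
    have h3 : (((mom L m : ℝ) : ℂ) - ((mom L n : ℝ) : ℂ)) * Complex.I ≠ 0 := by
      refine mul_ne_zero ?_ Complex.I_ne_zero
      rw [sub_ne_zero]
      intro he
      have he' : mom L m = mom L n := by exact_mod_cast he
      unfold mom at he'
      have hpi : (2 * Real.pi : ℝ) ≠ 0 := by positivity
      rw [div_left_inj' hL.ne'] at he'
      have := mul_left_cancel₀ hpi he'
      exact h (by exact_mod_cast this)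
    have h4 : ((((mom L m : ℝ) : ℂ) - ((mom L n : ℝ) : ℂ)) * Complex.I) * coef L (wave L m) n = 0 := by
      linear_combination h1
    exact (mul_eq_zero.1 h4).resolve_left h3

theorem trig_continuous_833 (L : ℝ) (s : Finset ℤ) (a : ℤ → ℂ) : Continuous (trig L s a) := by
  unfold trig
  exact continuous_finsetSum _ (fun n _ => continuous_const.mul (wave_continuous_833 L n))

theorem int_conj_trig_833 (L : ℝ) (s : Finset ℤ) (a : ℤ → ℂ) (f : ℝ → ℂ) (hf : Continuous f) :
    ∫ x in (-(L / 2))..(L / 2), f x * (starRingEnd ℂ) (trig L s a x)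
      = ∑ n ∈ s, (starRingEnd ℂ) (a n) * coef L f n := by
  have h1 : ∀ x, f x * (starRingEnd ℂ) (trig L s a x)
      = ∑ n ∈ s, (starRingEnd ℂ) (a n) * (f x * (starRingEnd ℂ) (wave L n x)) := by
    intro x
    rw [trig, map_sum, Finset.mul_sum]
    refine Finset.sum_congr rfl (fun n _ => ?_)
    rw [map_mul]
    ring
  simp_rw [h1]
  rw [intervalIntegral.integral_finsetSum]
  · refine Finset.sum_congr rfl (fun n _ => ?_)
    rw [intervalIntegral.integral_const_mul, coef]
  · intro n _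
    exact (continuous_const.mul (hf.mul (cwave_continuous_833 L n))).intervalIntegrable _ _

theorem coef_trig_833 (L : ℝ) (hL : 0 < L) (s : Finset ℤ) (a : ℤ → ℂ) (n : ℤ) (hn : n ∈ s) :
    coef L (trig L s a) n = a n := by
  have h1 : coef L (trig L s a) n = ∑ m ∈ s, a m * coef L (wave L m) n := by
    rw [coef]
    have h2 : ∀ x, trig L s a x * (starRingEnd ℂ) (wave L n x)
        = ∑ m ∈ s, a m * (wave L m x * (starRingEnd ℂ) (wave L n x)) := by
      intro x
      rw [trig, Finset.sum_mul]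
      refine Finset.sum_congr rfl (fun m _ => ?_)
      ring
    simp_rw [h2]
    rw [intervalIntegral.integral_finsetSum]
    · refine Finset.sum_congr rfl (fun m _ => ?_)
      rw [intervalIntegral.integral_const_mul, coef]
    · intro m _
      exact (continuous_const.mul ((wave_continuous_833 L m).mul
        (cwave_continuous_833 L n))).intervalIntegrable _ _
  rw [h1]
  simp_rw [coef_wave_833 L hL]
  simp [hn]

theorem int_norm_trig_833 (L : ℝ) (hL : 0 < L) (s : Finset ℤ) (a : ℤ → ℂ) :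
    ∫ x in (-(L / 2))..(L / 2), ‖trig L s a x‖ ^ 2 = ∑ n ∈ s, ‖a n‖ ^ 2 := by
  have h1 := int_conj_trig_833 L s a (trig L s a) (trig_continuous_833 L s a)
  have h2 : ∑ n ∈ s, (starRingEnd ℂ) (a n) * coef L (trig L s a) n
      = ((∑ n ∈ s, ‖a n‖ ^ 2 : ℝ) : ℂ) := by
    push_cast
    refine Finset.sum_congr rfl (fun n hn => ?_)
    rw [coef_trig_833 L hL s a n hn, mul_comm, Complex.mul_conj, Complex.normSq_eq_norm_sq]
    push_cast
    rfl
  rw [h2] at h1
  have h3 : ∫ x in (-(L / 2))..(L / 2), trig L s a x * (starRingEnd ℂ) (trig L s a x)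
      = ((∫ x in (-(L / 2))..(L / 2), ‖trig L s a x‖ ^ 2 : ℝ) : ℂ) := by
    rw [← intervalIntegral.integral_ofReal]
    refine intervalIntegral.integral_congr (fun x _ => ?_)
    rw [Complex.mul_conj, Complex.normSq_eq_norm_sq]
  rw [h3] at h1
  exact_mod_cast h1

theorem int_norm_sub_trig_833 (L : ℝ) (hL : 0 < L) (s : Finset ℤ) (u : ℝ → ℂ) (hu : Continuous u) :
    ∫ x in (-(L / 2))..(L / 2), ‖trig L s (coef L u) x - u x‖ ^ 2
      = (∫ x in (-(L / 2))..(L / 2), ‖u x‖ ^ 2) - ∑ n ∈ s, ‖coef L u n‖ ^ 2 := by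
  obtain ⟨t, ht⟩ : ∃ t : ℝ → ℂ, t = trig L s (coef L u) := ⟨_, rfl⟩
  have htc : Continuous t := by rw [ht]; exact trig_continuous_833 L s _
  have h1 : ∀ x, ‖t x - u x‖ ^ 2 = ‖t x‖ ^ 2 + ‖u x‖ ^ 2
      - 2 * (u x * (starRingEnd ℂ) (t x)).re := by
    intro x
    rw [← Complex.normSq_eq_norm_sq, ← Complex.normSq_eq_norm_sq, ← Complex.normSq_eq_norm_sq,
      Complex.normSq_sub]
    have : (t x * (starRingEnd ℂ) (u x)).re = (u x * (starRingEnd ℂ) (t x)).re := by
      simp [Complex.mul_re]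
      ring
    rw [this]
  have h2 : ∫ x in (-(L / 2))..(L / 2), (u x * (starRingEnd ℂ) (t x)).re
      = ∑ n ∈ s, ‖coef L u n‖ ^ 2 := by
    have h3 := int_conj_trig_833 L s (coef L u) u hu
    rw [← ht] at h3
    have h4 : ∑ n ∈ s, (starRingEnd ℂ) (coef L u n) * coef L u n
        = ((∑ n ∈ s, ‖coef L u n‖ ^ 2 : ℝ) : ℂ) := by
      push_cast
      refine Finset.sum_congr rfl (fun n hn => ?_)
      rw [mul_comm, Complex.mul_conj, Complex.normSq_eq_norm_sq]
      push_cast
      rfl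
    rw [h4] at h3
    have hint : IntervalIntegrable (fun x => u x * (starRingEnd ℂ) (t x)) volume (-(L / 2)) (L / 2) :=
      (hu.mul (Complex.continuous_conj.comp htc)).intervalIntegrable _ _
    have h5 := Complex.reCLM.intervalIntegral_comp_comm hint
    simp only [Complex.reCLM_apply] at h5
    rw [h5, h3, Complex.ofReal_re]
  have i1 : IntervalIntegrable (fun x => ‖t x‖ ^ 2) volume (-(L / 2)) (L / 2) :=
    (htc.norm.pow 2).intervalIntegrable _ _
  have i2 : IntervalIntegrable (fun x => ‖u x‖ ^ 2) volume (-(L / 2)) (L / 2) :=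
    (hu.norm.pow 2).intervalIntegrable _ _
  have i3 : IntervalIntegrable (fun x => 2 * (u x * (starRingEnd ℂ) (t x)).re) volume
      (-(L / 2)) (L / 2) :=
    (continuous_const.mul (Complex.continuous_re.comp
      (hu.mul (Complex.continuous_conj.comp htc)))).intervalIntegrable _ _
  rw [← ht]
  simp_rw [h1]
  rw [intervalIntegral.integral_sub (i1.add i2) i3, intervalIntegral.integral_add i1 i2,
    intervalIntegral.integral_const_mul, h2, ht, int_norm_trig_833 L hL]
  ring

/-- energy of the Fourier truncations converges -/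
theorem enr_tendsto (L : ℝ) (hL : 0 < L) (V : ℝ → ℝ) (hV : Continuous V) (u : ℝ → ℂ) (hu : ContDiff ℝ 1 u)
    (hper : u (-(L / 2)) = u (L / 2)) :
    Filter.Tendsto (fun K : ℕ => ∑ n ∈ Finset.Icc (-(K : ℤ)) K, ‖coef L u n‖ ^ 2) Filter.atTop
        (nhds (∫ x in (-(L / 2))..(L / 2), ‖u x‖ ^ 2)) ∧
    Filter.Tendsto (fun K : ℕ => enr L V (Finset.Icc (-(K : ℤ)) K) (coef L u)) Filter.atTop
        (nhds (∫ x in (-(L / 2))..(L / 2), (‖deriv u x‖ ^ 2 + V x * ‖u x‖ ^ 2))) := by
  have huc : Continuous u := hu.continuous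
  have hcd : Continuous (deriv u) := hu.continuous_deriv le_rfl
  have hle : -(L / 2) ≤ L / 2 := by linarith
  have hfin : Filter.Tendsto (fun K : ℕ => Finset.Icc (-(K : ℤ)) K) Filter.atTop Filter.atTop := by
    refine Filter.tendsto_atTop_finset_of_monotone ?_ ?_
    · intro a b hab
      refine Finset.Icc_subset_Icc ?_ ?_
      · have : (a : ℤ) ≤ b := by exact_mod_cast hab
        simpa using this
      · exact_mod_cast hab
    · intro x
      refine ⟨x.natAbs, ?_⟩
      rw [Finset.mem_Icc]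
      omega
  have hP := (coef_parseval L hL u huc).comp hfin
  have hP' := (coef_parseval L hL (deriv u) hcd).comp hfin
  refine ⟨hP, ?_⟩
  -- the distance
  obtain ⟨D, hD⟩ : ∃ D : ℕ → ℝ, ∀ K, D K =
      ∫ x in (-(L / 2))..(L / 2), ‖trig L (Finset.Icc (-(K : ℤ)) K) (coef L u) x - u x‖ ^ 2 :=
    ⟨_, fun _ => rfl⟩
  have hD0 : ∀ K, 0 ≤ D K := by
    intro K
    rw [hD]
    exact intervalIntegral.integral_nonneg hle (fun x _ => sq_nonneg _)
  have hDt : Filter.Tendsto D Filter.atTop (nhds 0) := by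
    have h1 : D = fun K : ℕ => (∫ x in (-(L / 2))..(L / 2), ‖u x‖ ^ 2)
        - ∑ n ∈ Finset.Icc (-(K : ℤ)) K, ‖coef L u n‖ ^ 2 := by
      funext K
      rw [hD, int_norm_sub_trig_833 L hL _ u huc]
    rw [h1]
    have := (tendsto_const_nhds (x := ∫ x in (-(L / 2))..(L / 2), ‖u x‖ ^ 2)).sub hP
    rw [sub_self] at this
    exact this
  obtain ⟨M, hM⟩ := (isCompact_Icc (a := -(L / 2)) (b := L / 2)).exists_bound_of_continuousOn
    hV.continuousOn
  have hM0 : 0 ≤ M := (norm_nonneg _).trans (hM (-(L / 2)) (left_mem_Icc.2 hle))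
  obtain ⟨U, hU⟩ : ∃ U : ℝ, U = ∫ x in (-(L / 2))..(L / 2), ‖u x‖ ^ 2 := ⟨_, rfl⟩
  have hU0 : 0 ≤ U := by
    rw [hU]
    exact intervalIntegral.integral_nonneg hle (fun x _ => sq_nonneg _)
  have hbound : ∀ K : ℕ, ∀ ε : ℝ, 0 < ε →
      |(∫ x in (-(L / 2))..(L / 2), V x * ‖trig L (Finset.Icc (-(K : ℤ)) K) (coef L u) x‖ ^ 2)
        - ∫ x in (-(L / 2))..(L / 2), V x * ‖u x‖ ^ 2| ≤ M * ((1 + 1 / ε) * D K + ε * U) := by
    intro K ε hε
    obtain ⟨t, ht⟩ : ∃ t : ℝ → ℂ, t = trig L (Finset.Icc (-(K : ℤ)) K) (coef L u) := ⟨_, rfl⟩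
    have htc : Continuous t := by rw [ht]; exact trig_continuous_833 L _ _
    rw [hD, ← ht]
    have i1 : IntervalIntegrable (fun x => V x * ‖t x‖ ^ 2) volume (-(L / 2)) (L / 2) :=
      (hV.mul (htc.norm.pow 2)).intervalIntegrable _ _
    have i2 : IntervalIntegrable (fun x => V x * ‖u x‖ ^ 2) volume (-(L / 2)) (L / 2) :=
      (hV.mul (huc.norm.pow 2)).intervalIntegrable _ _
    rw [← intervalIntegral.integral_sub i1 i2, ← Real.norm_eq_abs]
    refine (intervalIntegral.norm_integral_le_integral_norm hle).trans ?_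
    have h2 : M * ((1 + 1 / ε) * (∫ x in (-(L / 2))..(L / 2), ‖t x - u x‖ ^ 2) + ε * U)
        = ∫ x in (-(L / 2))..(L / 2), M * ((1 + 1 / ε) * ‖t x - u x‖ ^ 2 + ε * ‖u x‖ ^ 2) := by
      rw [intervalIntegral.integral_const_mul, intervalIntegral.integral_add,
        intervalIntegral.integral_const_mul, intervalIntegral.integral_const_mul, hU]
      · exact (continuous_const.mul ((htc.sub huc).norm.pow 2)).intervalIntegrable _ _
      · exact (continuous_const.mul (huc.norm.pow 2)).intervalIntegrable _ _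
    rw [h2]
    refine intervalIntegral.integral_mono_on hle ?_ ?_ ?_
    · exact ((hV.mul (htc.norm.pow 2)).sub (hV.mul (huc.norm.pow 2))).norm.intervalIntegrable _ _
    · exact (continuous_const.mul ((continuous_const.mul ((htc.sub huc).norm.pow 2)).add
        (continuous_const.mul (huc.norm.pow 2)))).intervalIntegrable _ _
    · intro x hx
      have h3 : V x * ‖t x‖ ^ 2 - V x * ‖u x‖ ^ 2 = V x * (‖t x‖ ^ 2 - ‖u x‖ ^ 2) := by ring
      rw [h3, norm_mul]
      refine mul_le_mul (hM x hx) ?_ (norm_nonneg _) hM0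
      rw [Real.norm_eq_abs]
      have h4 : |‖t x‖ - ‖u x‖| ≤ ‖t x - u x‖ := abs_norm_sub_norm_le _ _
      have h5 : ‖t x‖ ^ 2 - ‖u x‖ ^ 2 = (‖t x‖ - ‖u x‖) * (‖t x‖ + ‖u x‖) := by ring
      rw [h5, abs_mul]
      have h6 : |‖t x‖ + ‖u x‖| ≤ ‖t x - u x‖ + 2 * ‖u x‖ := by
        rw [abs_of_nonneg (by positivity)]
        have := (abs_le.1 h4).2
        linarith
      have h7 : |‖t x‖ - ‖u x‖| * |‖t x‖ + ‖u x‖| ≤ ‖t x - u x‖ * (‖t x - u x‖ + 2 * ‖u x‖) :=
        mul_le_mul h4 h6 (abs_nonneg _) (norm_nonneg _)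
      refine h7.trans ?_
      obtain ⟨a, ha⟩ : ∃ a : ℝ, a = ‖t x - u x‖ := ⟨_, rfl⟩
      obtain ⟨b, hb⟩ : ∃ b : ℝ, b = ‖u x‖ := ⟨_, rfl⟩
      rw [← ha, ← hb]
      have h8 : 2 * (a * b) ≤ 1 / ε * a ^ 2 + ε * b ^ 2 := by
        have h9 : 0 ≤ (a - ε * b) ^ 2 / ε := by positivity
        have h10 : (a - ε * b) ^ 2 / ε = 1 / ε * a ^ 2 + ε * b ^ 2 - 2 * (a * b) := by
          field_simp
          ring
        linarith
      nlinarith [h8]
  -- convergence of the potential term
  have hpot : Filter.Tendsto (fun K : ℕ =>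
      ∫ x in (-(L / 2))..(L / 2), V x * ‖trig L (Finset.Icc (-(K : ℤ)) K) (coef L u) x‖ ^ 2)
      Filter.atTop (nhds (∫ x in (-(L / 2))..(L / 2), V x * ‖u x‖ ^ 2)) := by
    rw [tendsto_iff_dist_tendsto_zero]
    have hlim : Filter.Tendsto (fun K : ℕ => M * ((D K + Real.sqrt (D K)) +
        (Real.sqrt (D K) + 1 / ((K : ℝ) + 1)) * U)) Filter.atTop (nhds 0) := by
      have h1 : Filter.Tendsto (fun K => Real.sqrt (D K)) Filter.atTop (nhds 0) := by
        have := (Real.continuous_sqrt.tendsto 0).comp hDt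
        rw [Real.sqrt_zero] at this
        exact this
      have h2 := ((hDt.add h1).add ((h1.add
        (tendsto_one_div_add_atTop_nhds_zero_nat (𝕜 := ℝ))).mul_const U)).const_mul M
      simpa using h2
    refine squeeze_zero (fun _ => dist_nonneg) ?_ hlim
    intro K
    rw [Real.dist_eq]
    have hε : 0 < Real.sqrt (D K) + 1 / ((K : ℝ) + 1) := by positivity
    refine (hbound K _ hε).trans ?_
    refine mul_le_mul_of_nonneg_left ?_ hM0
    have h3 : 1 / (Real.sqrt (D K) + 1 / ((K : ℝ) + 1)) * D K ≤ Real.sqrt (D K) := by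
      rw [one_div, inv_mul_le_iff₀ hε]
      have h4 : D K = Real.sqrt (D K) * Real.sqrt (D K) := (Real.mul_self_sqrt (hD0 K)).symm
      have h5 : 0 ≤ 1 / ((K : ℝ) + 1) := by positivity
      nlinarith [Real.sqrt_nonneg (D K), mul_nonneg h5 (Real.sqrt_nonneg (D K))]
    have h6 : (1 + 1 / (Real.sqrt (D K) + 1 / ((K : ℝ) + 1))) * D K
        = D K + 1 / (Real.sqrt (D K) + 1 / ((K : ℝ) + 1)) * D K := by ring
    rw [h6]
    linarith
  have hsum : (fun K : ℕ => enr L V (Finset.Icc (-(K : ℤ)) K) (coef L u)) = fun K : ℕ =>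
      (∑ n ∈ Finset.Icc (-(K : ℤ)) K, ‖coef L (deriv u) n‖ ^ 2) +
      ∫ x in (-(L / 2))..(L / 2), V x * ‖trig L (Finset.Icc (-(K : ℤ)) K) (coef L u) x‖ ^ 2 := by
    funext K
    rw [enr]
    congr 1
    refine Finset.sum_congr rfl (fun n _ => ?_)
    rw [coef_deriv L hL u hu hper, norm_mul, norm_mul, Complex.norm_I, mul_one, Complex.norm_real,
      mul_pow, Real.norm_eq_abs, sq_abs]
  rw [hsum]
  have hadd : ∫ x in (-(L / 2))..(L / 2), (‖deriv u x‖ ^ 2 + V x * ‖u x‖ ^ 2)
      = (∫ x in (-(L / 2))..(L / 2), ‖deriv u x‖ ^ 2)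
        + ∫ x in (-(L / 2))..(L / 2), V x * ‖u x‖ ^ 2 := by
    rw [intervalIntegral.integral_add]
    · exact (hcd.norm.pow 2).intervalIntegrable _ _
    · exact (hV.mul (huc.norm.pow 2)).intervalIntegrable _ _
  rw [hadd]
  exact hP'.add hpot

/-- Bessel property of the coefficient family -/
theorem bes_coef {ι : Type} [Fintype ι] (L : ℝ) (hL : 0 < L)
    (horth : ∀ m n : ℤ, ∫ x in (-(L / 2))..(L / 2), wave L n x * (starRingEnd ℂ) (wave L m x)
      = if m = n then 1 else 0)
    (u : ι → ℝ → ℂ) (hu : ∀ i, Continuous (u i))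
    (hB : ∀ a : ℝ → ℂ, Continuous a →
      ∑ i, ‖∫ x in (-(L / 2))..(L / 2), u i x * (starRingEnd ℂ) (a x)‖ ^ 2
        ≤ ∫ x in (-(L / 2))..(L / 2), ‖a x‖ ^ 2) (s : Finset ℤ) :
    Bes s (fun i => coef L (u i)) := by
  intro a
  have h := hB (trig L s (fun n => (starRingEnd ℂ) (a n))) (trig_continuous_833 L s _)
  rw [int_norm_trig_833 L hL] at h
  simp_rw [fun i => int_conj_trig_833 L s (fun n => (starRingEnd ℂ) (a n)) (u i) (hu i)] at h
  simpa [mul_comm] using h

end Pool.Agent.Helper209.PL.Four
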