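import Pool.Agent.Helper209.PL.Defs

set_option autoImplicit false

namespace Pool.Agent.Helper209.PL.FourTr

open MeasureTheory Set
open scoped SchwartzMap InnerProductSpace FourierTransform


/-- the `L²` Fourier transform of an integrable function is the Fourier integral -/
theorem fourier_ae (u : L2R) (hu : Integrable (u : ℝ → ℂ)) :
    ((𝓕 u : L2R) : ℝ → ℂ) =ᵐ[volume] 𝓕 (u : ℝ → ℂ) := by
  have hcont : Continuous (𝓕 (u : ℝ → ℂ)) :=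
    VectorFourier.fourierIntegral_continuous Real.continuous_fourierChar
      (innerSL ℝ).continuous₂ hu
  apply ae_eq_of_integral_contDiff_smul_eq
    ((Lp.memLp (𝓕 u : L2R)).locallyIntegrable one_le_two) hcont.locallyIntegrable
  intro g hg hgs
  have hg₁ : HasCompactSupport (Complex.ofRealCLM ∘ g) := hgs.comp_left rfl
  have hg₂ : ContDiff ℝ (⊤ : ℕ∞) (Complex.ofRealCLM ∘ g) := by fun_prop
  obtain ⟨φ, hφ⟩ : ∃ φ : 𝓢(ℝ, ℂ), ∀ x, φ x = (g x : ℂ) := ⟨hg₁.toSchwartzMap hg₂, fun x => rfl⟩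
  have e1 : ∫ x, g x • ((𝓕 u : L2R) : ℝ → ℂ) x = Lp.toTemperedDistribution (𝓕 u : L2R) φ := by
    rw [Lp.toTemperedDistribution_apply]
    apply integral_congr_ae
    filter_upwards with x
    rw [hφ]
    simp
  have e2 : Lp.toTemperedDistribution (𝓕 u : L2R) φ = Lp.toTemperedDistribution u (𝓕 φ) := by
    rw [← Lp.fourier_toTemperedDistribution_eq]
    rfl
  have e3 : ∫ x, g x • (𝓕 (u : ℝ → ℂ)) x = ∫ x, φ x • (𝓕 (u : ℝ → ℂ)) x := by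
    apply integral_congr_ae
    filter_upwards with x
    rw [hφ]
    simp
  rw [e1, e2, e3, Lp.toTemperedDistribution_apply]
  have h := VectorFourier.integral_fourierIntegral_smul_eq_flip (μ := (volume : Measure ℝ))
    (ν := (volume : Measure ℝ)) (e := Real.fourierChar) (L := innerₗ ℝ)
    (f := (φ : ℝ → ℂ)) (g := (u : ℝ → ℂ)) Real.continuous_fourierChar
    (innerSL ℝ).continuous₂ φ.integrable hu
  rw [flip_innerₗ] at h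
  exact h


theorem ek_memLp (θ : ℝ → ℝ) (h : Continuous θ) (hs : HasCompactSupport θ) (ξ : ℝ) :
    MemLp (fun x : ℝ => Complex.exp ((2 * Real.pi * x * ξ : ℝ) * Complex.I) * (θ x : ℂ)) 2
      (volume : Measure ℝ) := by
  apply Continuous.memLp_of_hasCompactSupport
  · fun_prop
  · have h1 : HasCompactSupport (fun x => (θ x : ℂ)) := hs.comp_left (g := fun r : ℝ => (r : ℂ)) rfl
    exact h1.mul_left

/-- the function `e^{2πixξ} θ(x)` -/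
noncomputable def ek (θ : ℝ → ℝ) (h : Continuous θ) (hs : HasCompactSupport θ) (ξ : ℝ) : L2R :=
  (ek_memLp θ h hs ξ).toLp _

theorem ek_ae (θ : ℝ → ℝ) (h : Continuous θ) (hs : HasCompactSupport θ) (ξ : ℝ) :
    ((ek θ h hs ξ : L2R) : ℝ → ℂ) =ᵐ[volume]
      fun x : ℝ => Complex.exp ((2 * Real.pi * x * ξ : ℝ) * Complex.I) * (θ x : ℂ) :=
  (ek_memLp θ h hs ξ).coeFn_toLp

theorem ek_inner (θ₁ θ₂ : ℝ → ℝ) (h1 : Continuous θ₁) (h1s : HasCompactSupport θ₁)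
    (h2 : Continuous θ₂) (h2s : HasCompactSupport θ₂) (ξ : ℝ) :
    ⟪ek θ₂ h2 h2s ξ, ek θ₁ h1 h1s ξ⟫_ℂ = ((∫ x, θ₁ x * θ₂ x : ℝ) : ℂ) := by
  rw [L2.inner_def, ← integral_complex_ofReal]
  apply integral_congr_ae
  filter_upwards [ek_ae θ₁ h1 h1s ξ, ek_ae θ₂ h2 h2s ξ] with x hx1 hx2
  rw [hx1, hx2]
  simp only [RCLike.inner_apply, map_mul, Complex.conj_ofReal]
  have e : (starRingEnd ℂ) (Complex.exp ((2 * Real.pi * x * ξ : ℝ) * Complex.I)) *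
      Complex.exp ((2 * Real.pi * x * ξ : ℝ) * Complex.I) = 1 := by
    rw [← Complex.exp_conj, ← Complex.exp_add, map_mul, Complex.conj_ofReal, Complex.conj_I,
      mul_neg, neg_add_cancel, Complex.exp_zero]
  push_cast at e ⊢
  linear_combination (θ₁ x : ℂ) * (θ₂ x : ℂ) * e

theorem ek_norm (θ : ℝ → ℝ) (h : Continuous θ) (hs : HasCompactSupport θ) (ξ : ℝ) :
    ‖ek θ h hs ξ‖ ^ 2 = ∫ x, θ x * θ x := by
  have h1 := ek_inner θ θ h hs h hs ξ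
  rw [inner_self_eq_norm_sq_to_K] at h1
  apply Complex.ofReal_injective
  rw [← h1]
  push_cast
  rfl

theorem mul_integrable (θ : ℝ → ℝ) (h : Continuous θ) (hs : HasCompactSupport θ) (Θ : L2R →L[ℂ] L2R)
    (hΘ : IsMul θ Θ) (f : L2R) : Integrable ((Θ f : L2R) : ℝ → ℂ) := by
  have h1 : MemLp (fun x => (θ x : ℂ)) 2 (volume : Measure ℝ) := by
    apply Continuous.memLp_of_hasCompactSupport
    · fun_prop
    · exact hs.comp_left (g := fun r : ℝ => (r : ℂ)) rfl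
  have h2 : Integrable (fun x => (θ x : ℂ) * (f : ℝ → ℂ) x) := h1.integrable_mul (Lp.memLp f)
  exact h2.congr (hΘ f).symm

theorem mul_fourier (θ : ℝ → ℝ) (h : Continuous θ) (hs : HasCompactSupport θ) (Θ : L2R →L[ℂ] L2R)
    (hΘ : IsMul θ Θ) (f : L2R) (ξ : ℝ) :
    𝓕 ((Θ f : L2R) : ℝ → ℂ) ξ = ⟪ek θ h hs ξ, f⟫_ℂ := by
  rw [L2.inner_def, Real.fourier_real_eq_integral_exp_smul]
  apply integral_congr_ae
  filter_upwards [ek_ae θ h hs ξ, hΘ f] with x hx1 hx2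
  rw [hx1, hx2]
  simp only [RCLike.inner_apply, map_mul, Complex.conj_ofReal, smul_eq_mul]
  rw [← Complex.exp_conj]
  simp only [map_mul, Complex.conj_ofReal, Complex.conj_I]
  have e : ((-2 * Real.pi * x * ξ : ℝ) : ℂ) * Complex.I =
      ((2 * Real.pi * x * ξ : ℝ) : ℂ) * -Complex.I := by
    push_cast
    ring
  rw [e]
  ring

theorem parseval_real (b : HilbertBasis ℕ ℂ L2R) (x : L2R) :
    HasSum (fun i => ‖⟪x, b i⟫_ℂ‖ ^ 2) (‖x‖ ^ 2) := by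
  have h1 := (RCLike.hasSum_re ℂ (b.hasSum_inner_mul_inner x x))
  rw [inner_self_eq_norm_sq] at h1
  have e : (fun i => ‖⟪x, b i⟫_ℂ‖ ^ 2) = fun i => RCLike.re (⟪x, b i⟫_ℂ * ⟪b i, x⟫_ℂ) := by
    funext i
    rw [inner_mul_symm_re_eq_norm, norm_mul, norm_inner_symm (b i) x, sq]
  rw [e]
  exact h1

/-- trace of a localised Fourier multiplier -/
theorem fourier_trace (b : HilbertBasis ℕ ℂ L2R) (g : ℝ → ℝ) (hg : Continuous g) (hgs : HasCompactSupport g)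
    (N0 : L2R →L[ℂ] L2R)
    (hN : ∀ f : L2R, ((𝓕 (N0 f) : L2R) : ℝ → ℂ) =ᵐ[volume] (fun ξ => (g ξ : ℂ) * ((𝓕 f : L2R) : ℝ → ℂ) ξ))
    (θ₁ θ₂ : ℝ → ℝ) (h1 : Continuous θ₁) (h1s : HasCompactSupport θ₁) (h2 : Continuous θ₂)
    (h2s : HasCompactSupport θ₂) (Θ₁ Θ₂ : L2R →L[ℂ] L2R) (hΘ₁ : IsMul θ₁ Θ₁) (hΘ₂ : IsMul θ₂ Θ₂) :
    HasSum (fun i => ⟪Θ₁ (b i), N0 (Θ₂ (b i))⟫_ℂ) (((∫ ξ, g ξ) * ∫ x, θ₁ x * θ₂ x : ℝ) : ℂ) := by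
  obtain ⟨c, hc⟩ : ∃ c : ℝ, c = ∫ x, θ₁ x * θ₂ x := ⟨_, rfl⟩
  let F : ℕ → ℝ → ℂ := fun i ξ =>
    (g ξ : ℂ) * (⟪ek θ₂ h2 h2s ξ, b i⟫_ℂ * ⟪b i, ek θ₁ h1 h1s ξ⟫_ℂ)
  have hF : ∀ i, (fun ξ => ⟪((𝓕 (Θ₁ (b i)) : L2R) : ℝ → ℂ) ξ,
      ((𝓕 (N0 (Θ₂ (b i))) : L2R) : ℝ → ℂ) ξ⟫_ℂ) =ᵐ[volume] F i := by
    intro i
    filter_upwards [fourier_ae (Θ₁ (b i)) (mul_integrable θ₁ h1 h1s Θ₁ hΘ₁ (b i)),
      fourier_ae (Θ₂ (b i)) (mul_integrable θ₂ h2 h2s Θ₂ hΘ₂ (b i)), hN (Θ₂ (b i))]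
      with ξ e1 e2 e3
    rw [e3, e2, e1, mul_fourier θ₁ h1 h1s Θ₁ hΘ₁, mul_fourier θ₂ h2 h2s Θ₂ hΘ₂]
    show _ = (g ξ : ℂ) * (⟪ek θ₂ h2 h2s ξ, b i⟫_ℂ * ⟪b i, ek θ₁ h1 h1s ξ⟫_ℂ)
    rw [← inner_conj_symm (b i) (ek θ₁ h1 h1s ξ)]
    simp only [RCLike.inner_apply]
    ring
  have hterm : ∀ i, ⟪Θ₁ (b i), N0 (Θ₂ (b i))⟫_ℂ = ∫ ξ, F i ξ := by
    intro i
    rw [← Lp.inner_fourier_eq, L2.inner_def]
    exact integral_congr_ae (hF i)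
  obtain ⟨C, hC⟩ : ∃ C : ℝ, C = ((∫ x, θ₂ x * θ₂ x) + ∫ x, θ₁ x * θ₁ x) / 2 := ⟨_, rfl⟩
  have hbs : ∀ ξ, HasSum (fun i => |g ξ| * ((‖⟪ek θ₂ h2 h2s ξ, b i⟫_ℂ‖ ^ 2 +
      ‖⟪ek θ₁ h1 h1s ξ, b i⟫_ℂ‖ ^ 2) / 2)) (|g ξ| * C) := by
    intro ξ
    have h3 := ((parseval_real b (ek θ₂ h2 h2s ξ)).add
      (parseval_real b (ek θ₁ h1 h1s ξ))).div_const 2
    rw [ek_norm, ek_norm, ← hC] at h3
    exact h3.mul_left _
  have key := hasSum_integral_of_dominated_convergence (μ := (volume : Measure ℝ)) (F := F)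
    (f := fun ξ => (g ξ : ℂ) * (c : ℂ))
    (fun i ξ => |g ξ| * ((‖⟪ek θ₂ h2 h2s ξ, b i⟫_ℂ‖ ^ 2 +
      ‖⟪ek θ₁ h1 h1s ξ, b i⟫_ℂ‖ ^ 2) / 2)) ?_ ?_ ?_ ?_ ?_
  · have e : ∫ ξ, (g ξ : ℂ) * (c : ℂ) = (((∫ ξ, g ξ) * ∫ x, θ₁ x * θ₂ x : ℝ) : ℂ) := by
      rw [integral_mul_const, integral_complex_ofReal, ← hc]
      push_cast
      rfl
    rw [e] at key
    rw [show (fun i => ⟪Θ₁ (b i), N0 (Θ₂ (b i))⟫_ℂ) = fun i => ∫ ξ, F i ξ from funext hterm]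
    exact key
  · intro i
    exact ((L2.integrable_inner (𝕜 := ℂ) _ _).aestronglyMeasurable).congr (hF i)
  · intro i
    filter_upwards with ξ
    show ‖(g ξ : ℂ) * (⟪ek θ₂ h2 h2s ξ, b i⟫_ℂ * ⟪b i, ek θ₁ h1 h1s ξ⟫_ℂ)‖ ≤ _
    rw [norm_mul, norm_mul, Complex.norm_real, Real.norm_eq_abs, norm_inner_symm (b i)]
    apply mul_le_mul_of_nonneg_left _ (abs_nonneg _)
    nlinarith [sq_nonneg (‖⟪ek θ₂ h2 h2s ξ, b i⟫_ℂ‖ - ‖⟪ek θ₁ h1 h1s ξ, b i⟫_ℂ‖)]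
  · filter_upwards with ξ
    exact (hbs ξ).summable
  · have e : (fun ξ => ∑' i, |g ξ| * ((‖⟪ek θ₂ h2 h2s ξ, b i⟫_ℂ‖ ^ 2 +
      ‖⟪ek θ₁ h1 h1s ξ, b i⟫_ℂ‖ ^ 2) / 2)) = fun ξ => |g ξ| * C := by
      funext ξ
      exact (hbs ξ).tsum_eq
    rw [e]
    exact ((hg.integrable_of_hasCompactSupport hgs).abs).mul_const C
  · filter_upwards with ξ
    have h3 := b.hasSum_inner_mul_inner (ek θ₂ h2 h2s ξ) (ek θ₁ h1 h1s ξ)
    rw [ek_inner, ← hc] at h3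
    exact h3.mul_left _

end Pool.Agent.Helper209.PL.FourTr
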