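import Pool.Agent.Helper209.PL.Defs

set_option autoImplicit false

namespace Pool.Agent.Helper209.PL.Holes

open MeasureTheory Set
open scoped SchwartzMap InnerProductSpace FourierTransform


namespace J4Aux

open Matrix
open scoped ComplexOrder MatrixOrder

theorem key {β κ : Type*} [Fintype β] [Fintype κ] (C : Matrix κ β ℂ) (x : β → ℂ) :
    star x ⬝ᵥ ((Cᴴ * C) *ᵥ x) = ((∑ i, ‖∑ n, C i n * x n‖ ^ 2 : ℝ) : ℂ) := by
  rw [← Matrix.mulVec_mulVec, Matrix.dotProduct_mulVec, ← Matrix.star_mulVec]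
  rw [dotProduct, Complex.ofReal_sum]
  refine Finset.sum_congr rfl fun i _ => ?_
  rw [Pi.star_apply, Complex.star_def, Complex.conj_mul']
  simp [Matrix.mulVec, dotProduct]

theorem key1 {β : Type*} [Fintype β] [DecidableEq β] (x : β → ℂ) :
    star x ⬝ᵥ ((1 : Matrix β β ℂ) *ᵥ x) = ((∑ n, ‖x n‖ ^ 2 : ℝ) : ℂ) := by
  rw [Matrix.one_mulVec, dotProduct, Complex.ofReal_sum]
  refine Finset.sum_congr rfl fun i _ => ?_
  rw [Pi.star_apply, Complex.star_def, Complex.conj_mul']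
  simp

theorem exists_D {β κ : Type*} [Fintype β] [DecidableEq β] [Fintype κ] (C : Matrix κ β ℂ)
    (hC : ∀ x : β → ℂ, ∑ i, ‖∑ n, C i n * x n‖ ^ 2 ≤ ∑ n, ‖x n‖ ^ 2) :
    ∃ D : Matrix β β ℂ, ∀ x : β → ℂ,
      ∑ i, ‖∑ n, D i n * x n‖ ^ 2 = ∑ n, ‖x n‖ ^ 2 - ∑ i, ‖∑ n, C i n * x n‖ ^ 2 := by
  have hM : ∀ x : β → ℂ, star x ⬝ᵥ ((1 - Cᴴ * C) *ᵥ x) =
      ((∑ n, ‖x n‖ ^ 2 - ∑ i, ‖∑ n, C i n * x n‖ ^ 2 : ℝ) : ℂ) := by
    intro x
    rw [Matrix.sub_mulVec, dotProduct_sub, key, key1, Complex.ofReal_sub]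
  have hpos : (1 - Cᴴ * C).PosSemidef := by
    refine Matrix.PosSemidef.of_dotProduct_mulVec_nonneg ?_ fun x => ?_
    · exact Matrix.isHermitian_one.sub (Matrix.isHermitian_conjTranspose_mul_self _)
    · rw [hM, Complex.zero_le_real]
      linarith [hC x]
  obtain ⟨D, hD⟩ := CStarAlgebra.nonneg_iff_eq_star_mul_self.mp hpos.nonneg
  rw [Matrix.star_eq_conjTranspose] at hD
  refine ⟨D, fun x => ?_⟩
  have h1 := hM x
  rw [hD, key] at h1
  exact_mod_cast h1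

end J4Aux

open J4Aux

/-- complementary family: `1 - P` as a Gram operator -/
theorem holes {ι : Type} [Fintype ι] (B : Finset ℤ) (c : ι → ℤ → ℂ) (hc : Bes B c) :
    ∃ (N : ℕ) (d : Fin N → ℤ → ℂ), ∀ a : ℤ → ℂ,
      ∑ j, ‖∑ n ∈ B, d j n * a n‖ ^ 2 = ∑ n ∈ B, ‖a n‖ ^ 2 - ∑ i, ‖∑ n ∈ B, c i n * a n‖ ^ 2 := by
  classical
  obtain ⟨D, hD⟩ := exists_D (β := {n // n ∈ B}) (κ := ι) (fun i n => c i n) (by
    intro x
    have h := hc (fun n => if h : n ∈ B then x ⟨n, h⟩ else 0)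
    rw [← Finset.sum_attach B (fun n => ‖if h : n ∈ B then x ⟨n, h⟩ else 0‖ ^ 2)] at h
    simp only [Finset.univ_eq_attach]
    convert h using 2
    · congr 2
      rw [← Finset.sum_attach B]
      refine Finset.sum_congr rfl fun n _ => ?_
      simp
    · simp)
  let e : Fin (Fintype.card {n // n ∈ B}) ≃ {n // n ∈ B} := (Fintype.equivFin _).symm
  refine ⟨Fintype.card {n // n ∈ B}, fun j n => if h : n ∈ B then D (e j) ⟨n, h⟩ else 0, fun a => ?_⟩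
  have h := hD (fun n => a n)
  have h1 : ∑ j, ‖∑ n ∈ B, (if h : n ∈ B then D (e j) ⟨n, h⟩ else 0) * a n‖ ^ 2 =
      ∑ i, ‖∑ n, D i n * a n‖ ^ 2 := by
    rw [← e.sum_comp]
    refine Finset.sum_congr rfl fun j _ => ?_
    congr 2
    rw [← Finset.sum_attach B, Finset.univ_eq_attach]
    refine Finset.sum_congr rfl fun n _ => ?_
    simp
  rw [h1, h]
  congr 1
  · rw [Finset.univ_eq_attach, Finset.sum_attach B (fun n => ‖a n‖ ^ 2)]
  · refine Finset.sum_congr rfl fun i _ => ?_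
    congr 2
    rw [Finset.univ_eq_attach, Finset.sum_attach B (fun n => c i n * a n)]

end Pool.Agent.Helper209.PL.Holes
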