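import Pool.Agent.Helper209.PL.Defs

set_option autoImplicit false

namespace Pool.Agent.Helper209.PL.Hs

open MeasureTheory Set
open scoped SchwartzMap InnerProductSpace FourierTransform


section HSAux

variable {H : Type*} [NormedAddCommGroup H] [InnerProductSpace ℂ H] [CompleteSpace H]

theorem hs_parseval (b : HilbertBasis ℕ ℂ H) (x : H) :
    HasSum (fun i => ‖⟪b i, x⟫_ℂ‖ ^ 2) (‖x‖ ^ 2) := by
  have h := b.hasSum_inner_mul_inner x x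
  rw [← Complex.hasSum_ofReal]
  have e1 : ((‖x‖ ^ 2 : ℝ) : ℂ) = ⟪x, x⟫_ℂ := by
    rw [inner_self_eq_norm_sq_to_K]
    push_cast
    rfl
  have e2 : (fun i => ((‖⟪b i, x⟫_ℂ‖ ^ 2 : ℝ) : ℂ)) = fun i => ⟪x, b i⟫_ℂ * ⟪b i, x⟫_ℂ := by
    funext i
    rw [← inner_conj_symm x (b i), Complex.conj_mul']
    push_cast
    rfl
  rw [e1, e2]
  exact h

theorem hs_sum2 (b b' : HilbertBasis ℕ ℂ H) (X : H →L[ℂ] H)
    (hX : Summable (fun i => ‖X (b i)‖ ^ 2)) :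
    Summable (fun p : ℕ × ℕ => ‖⟪b' p.2, X (b p.1)⟫_ℂ‖ ^ 2) := by
  rw [summable_prod_of_nonneg (fun p => by positivity)]
  refine ⟨fun j => (hs_parseval b' (X (b j))).summable, ?_⟩
  refine hX.congr fun j => ?_
  exact (hs_parseval b' (X (b j))).tsum_eq.symm

theorem hs_adj (b b' : HilbertBasis ℕ ℂ H) (X : H →L[ℂ] H)
    (hX : Summable (fun i => ‖X (b i)‖ ^ 2)) :
    Summable (fun i => ‖ContinuousLinearMap.adjoint X (b' i)‖ ^ 2) := by
  have h1 := (hs_sum2 b b' X hX).prod_symm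
  have h2 := h1.prod
  refine h2.congr fun i => ?_
  have h3 := (hs_parseval b (ContinuousLinearMap.adjoint X (b' i))).tsum_eq
  rw [← h3]
  apply tsum_congr
  intro j
  show ‖⟪b' i, X (b j)⟫_ℂ‖ ^ 2 = _
  rw [ContinuousLinearMap.adjoint_inner_right, norm_inner_symm]

theorem hs_swap (b b' : HilbertBasis ℕ ℂ H) (X Y : H →L[ℂ] H)
    (hX : Summable (fun i => ‖X (b i)‖ ^ 2)) (hY : Summable (fun i => ‖Y (b i)‖ ^ 2)) :
    Summable (fun j => ⟪Y (b j), X (b j)⟫_ℂ) ∧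
    HasSum (fun i => ⟪ContinuousLinearMap.adjoint X (b' i), ContinuousLinearMap.adjoint Y (b' i)⟫_ℂ)
      (∑' j, ⟪Y (b j), X (b j)⟫_ℂ) := by
  have hg : Summable (fun p : ℕ × ℕ => ⟪Y (b p.1), b' p.2⟫_ℂ * ⟪b' p.2, X (b p.1)⟫_ℂ) := by
    apply Summable.of_norm_bounded ((hs_sum2 b b' X hX).add (hs_sum2 b b' Y hY))
    rintro ⟨j, i⟩
    rw [norm_mul]
    show ‖⟪Y (b j), b' i⟫_ℂ‖ * ‖⟪b' i, X (b j)⟫_ℂ‖ ≤
      ‖⟪b' i, X (b j)⟫_ℂ‖ ^ 2 + ‖⟪b' i, Y (b j)⟫_ℂ‖ ^ 2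
    rw [norm_inner_symm (Y (b j)) (b' i)]
    nlinarith [sq_nonneg (‖⟪b' i, X (b j)⟫_ℂ‖ - ‖⟪b' i, Y (b j)⟫_ℂ‖),
      norm_nonneg ⟪b' i, X (b j)⟫_ℂ, norm_nonneg ⟪b' i, Y (b j)⟫_ℂ,
      mul_nonneg (norm_nonneg ⟪b' i, X (b j)⟫_ℂ) (norm_nonneg ⟪b' i, Y (b j)⟫_ℂ)]
  have h1 : HasSum (fun j => ⟪Y (b j), X (b j)⟫_ℂ)
      (∑' p : ℕ × ℕ, ⟪Y (b p.1), b' p.2⟫_ℂ * ⟪b' p.2, X (b p.1)⟫_ℂ) :=
    hg.hasSum.prod_fiberwise (fun j => b'.hasSum_inner_mul_inner (Y (b j)) (X (b j)))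
  have h2 : HasSum (fun p : ℕ × ℕ => ⟪Y (b p.2), b' p.1⟫_ℂ * ⟪b' p.1, X (b p.2)⟫_ℂ)
      (∑' p : ℕ × ℕ, ⟪Y (b p.1), b' p.2⟫_ℂ * ⟪b' p.2, X (b p.1)⟫_ℂ) :=
    (Equiv.prodComm ℕ ℕ).hasSum_iff.2 hg.hasSum
  refine ⟨h1.summable, ?_⟩
  rw [h1.tsum_eq]
  apply h2.prod_fiberwise
  intro i
  have h3 := b.hasSum_inner_mul_inner (ContinuousLinearMap.adjoint X (b' i))
    (ContinuousLinearMap.adjoint Y (b' i))
  have e : (fun j => ⟪ContinuousLinearMap.adjoint X (b' i), b j⟫_ℂ *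
      ⟪b j, ContinuousLinearMap.adjoint Y (b' i)⟫_ℂ) =
      fun j => ⟪Y (b j), b' i⟫_ℂ * ⟪b' i, X (b j)⟫_ℂ := by
    funext j
    rw [ContinuousLinearMap.adjoint_inner_left, ContinuousLinearMap.adjoint_inner_right, mul_comm]
  rw [e] at h3
  exact h3

end HSAux

/-- cyclicity of the trace for Hilbert-Schmidt factors -/
theorem hs_cyclic {H : Type*} [NormedAddCommGroup H] [InnerProductSpace ℂ H] [CompleteSpace H]
    (b : HilbertBasis ℕ ℂ H) (X Y : H →L[ℂ] H) (hX : Summable (fun i => ‖X (b i)‖ ^ 2))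
    (hY : Summable (fun i => ‖Y (b i)‖ ^ 2)) :
    Summable (fun j => ⟪Y (b j), X (b j)⟫_ℂ) ∧
    HasSum (fun i => ⟪ContinuousLinearMap.adjoint X (b i), ContinuousLinearMap.adjoint Y (b i)⟫_ℂ)
      (∑' j, ⟪Y (b j), X (b j)⟫_ℂ) := hs_swap b b X Y hX hY

/-- local traces of a trace class operator converge to its trace -/
theorem trace_limit {H : Type*} [NormedAddCommGroup H] [InnerProductSpace ℂ H] [CompleteSpace H]
    (b : HilbertBasis ℕ ℂ H) (X Y : H →L[ℂ] H) (hX : Summable (fun i => ‖X (b i)‖ ^ 2))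
    (hY : Summable (fun i => ‖Y (b i)‖ ^ 2)) (T : H →L[ℂ] H)
    (hT : T = (ContinuousLinearMap.adjoint X).comp Y)
    (Θ : ℕ → H →L[ℂ] H) (hsa : ∀ n, IsSelfAdjoint (Θ n)) (hn : ∀ n, ‖Θ n‖ ≤ 1)
    (hlim : ∀ φ : H, Filter.Tendsto (fun n => Θ n φ) Filter.atTop (nhds φ)) :
    Summable (fun i => ⟪b i, T (b i)⟫_ℂ) ∧
    Filter.Tendsto (fun n => ∑' i, ⟪Θ n (b i), T (Θ n (b i))⟫_ℂ) Filter.atTop
      (nhds (∑' i, ⟪b i, T (b i)⟫_ℂ)) := by
  have hTin : ∀ x y : H, ⟪x, T y⟫_ℂ = ⟪X x, Y y⟫_ℂ := by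
    intro x y
    rw [hT, ContinuousLinearMap.comp_apply, ContinuousLinearMap.adjoint_inner_right]
  simp only [hTin]
  obtain ⟨hs1, hs2⟩ := hs_swap b b Y X hY hX
  refine ⟨hs1, ?_⟩
  rw [← hs2.tsum_eq]
  have hXa := hs_adj b b X hX
  have hYa := hs_adj b b Y hY
  have hΘle : ∀ n x, ‖Θ n x‖ ≤ ‖x‖ := by
    intro n x
    refine le_trans ((Θ n).le_opNorm x) ?_
    calc ‖Θ n‖ * ‖x‖ ≤ 1 * ‖x‖ := mul_le_mul_of_nonneg_right (hn n) (norm_nonneg _)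
      _ = ‖x‖ := one_mul _
  have hkey : ∀ n, ∑' i, ⟪X (Θ n (b i)), Y (Θ n (b i))⟫_ℂ =
      ∑' j, ⟪Θ n (ContinuousLinearMap.adjoint Y (b j)),
        Θ n (ContinuousLinearMap.adjoint X (b j))⟫_ℂ := by
    intro n
    have hX' : Summable (fun i => ‖((Θ n).comp (ContinuousLinearMap.adjoint X)) (b i)‖ ^ 2) := by
      apply Summable.of_nonneg_of_le (fun i => by positivity) _ hXa
      intro i
      exact pow_le_pow_left₀ (norm_nonneg _) (hΘle n _) 2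
    have hY' : Summable (fun i => ‖((Θ n).comp (ContinuousLinearMap.adjoint Y)) (b i)‖ ^ 2) := by
      apply Summable.of_nonneg_of_le (fun i => by positivity) _ hYa
      intro i
      exact pow_le_pow_left₀ (norm_nonneg _) (hΘle n _) 2
    have h := (hs_swap b b _ _ hX' hY').2.tsum_eq
    have hΘadj : ContinuousLinearMap.adjoint (Θ n) = Θ n := (hsa n)
    rw [ContinuousLinearMap.adjoint_comp, ContinuousLinearMap.adjoint_comp,
      ContinuousLinearMap.adjoint_adjoint, ContinuousLinearMap.adjoint_adjoint, hΘadj] at h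
    exact h
  simp only [hkey]
  apply tendsto_tsum_of_dominated_convergence (hXa.add hYa)
  · intro j
    exact (hlim _).inner (hlim _)
  · refine Filter.Eventually.of_forall fun n j => ?_
    refine le_trans (norm_inner_le_norm _ _) ?_
    have h1 := hΘle n (ContinuousLinearMap.adjoint Y (b j))
    have h2 := hΘle n (ContinuousLinearMap.adjoint X (b j))
    have h3 := mul_le_mul h1 h2 (norm_nonneg _) (norm_nonneg _)
    refine le_trans h3 ?_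
    nlinarith [sq_nonneg (‖ContinuousLinearMap.adjoint X (b j)‖ -
      ‖ContinuousLinearMap.adjoint Y (b j)‖), norm_nonneg (ContinuousLinearMap.adjoint X (b j)),
      norm_nonneg (ContinuousLinearMap.adjoint Y (b j)),
      mul_nonneg (norm_nonneg (ContinuousLinearMap.adjoint X (b j)))
        (norm_nonneg (ContinuousLinearMap.adjoint Y (b j)))]

/-- the trace does not depend on the basis -/
theorem trace_basis_indep {H : Type*} [NormedAddCommGroup H] [InnerProductSpace ℂ H] [CompleteSpace H]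
    (b b' : HilbertBasis ℕ ℂ H) (X Y : H →L[ℂ] H) (hX : Summable (fun i => ‖X (b i)‖ ^ 2))
    (hY : Summable (fun i => ‖Y (b i)‖ ^ 2)) (T : H →L[ℂ] H)
    (hT : T = (ContinuousLinearMap.adjoint X).comp Y) :
    Summable (fun i => ‖X (b' i)‖ ^ 2) ∧ Summable (fun i => ‖Y (b' i)‖ ^ 2) ∧
    ∑' i, ⟪b' i, T (b' i)⟫_ℂ = ∑' i, ⟪b i, T (b i)⟫_ℂ := by
  have hTin : ∀ x y : H, ⟪x, T y⟫_ℂ = ⟪X x, Y y⟫_ℂ := by
    intro x y
    rw [hT, ContinuousLinearMap.comp_apply, ContinuousLinearMap.adjoint_inner_right]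
  simp only [hTin]
  have hX' : Summable (fun i => ‖X (b' i)‖ ^ 2) := by
    have h := hs_adj b b' _ (hs_adj b b X hX)
    rwa [ContinuousLinearMap.adjoint_adjoint] at h
  have hY' : Summable (fun i => ‖Y (b' i)‖ ^ 2) := by
    have h := hs_adj b b' _ (hs_adj b b Y hY)
    rwa [ContinuousLinearMap.adjoint_adjoint] at h
  refine ⟨hX', hY', ?_⟩
  rw [← (hs_swap b b Y X hY hX).2.tsum_eq, ← (hs_swap b' b Y X hY' hX').2.tsum_eq]

end Pool.Agent.Helper209.PL.Hs
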