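import Pool.Agent.Helper209.PL.Defs

set_option autoImplicit false

namespace Pool.Agent.Helper209.PL.Integ

open MeasureTheory Set
open scoped SchwartzMap InnerProductSpace FourierTransform







section Stmts3
/-- the following statements are proved elsewhere; use them as hypotheses -/
def LayerPosStmt : Prop := ∀ (β : ℝ), 0 < β → ∀ (x M : ℝ), 0 ≤ M → x ≤ M →
    IntervalIntegrable (fun t : ℝ => t ^ (β - 1) * max (x - t) 0) volume 0 M ∧
    ∫ t in (0 : ℝ)..M, t ^ (β - 1) * max (x - t) 0 = (max x 0) ^ (β + 1) / (β * (β + 1))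

def LayerCountStmt : Prop := ∀ (β : ℝ), 0 < β → ∀ (x M : ℝ), 0 ≤ M → x ≤ M →
    IntervalIntegrable (fun t : ℝ => t ^ (β - 1) * (if t < x then (1 : ℝ) else 0)) volume 0 M ∧
    ∫ t in (0 : ℝ)..M, t ^ (β - 1) * (if t < x then (1 : ℝ) else 0) = (max x 0) ^ β / β

def BetaIntStmt : Prop := ∀ (β : ℝ), 0 < β → ∃ C : ℝ, 0 < C ∧ ∀ μ : ℝ, 0 < μ →
    IntervalIntegrable (fun t : ℝ => t ^ (β - 1) * (1 / Real.sqrt (μ - t))) volume 0 μ ∧
    ∫ t in (0 : ℝ)..μ, t ^ (β - 1) * (1 / Real.sqrt (μ - t)) ≤ C * μ ^ (β - 1 / 2)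

def FFBoundsStmt : Prop := ∀ (γ : ℝ), 1 < γ → ∃ C : ℝ, 0 < C ∧ ∀ (μ : ℝ), 0 < μ → ∀ y : ℝ,
    0 ≤ FF γ μ y ∧
    μ ^ (γ - 3 / 2) * V1 μ y ^ 2 ≤ C * FF γ μ y ∧
    μ ^ (γ - 1) * V2 μ y ^ (3 / 2 : ℝ) ≤ C * FF γ μ y ∧
    μ ^ (γ - 1 / 2) * (V2 μ y + V3 μ y) ≤ C * FF γ μ y ∧
    (max (-y) 0) ^ (3 / 2 : ℝ) * ((μ + max (-y) 0) ^ (γ - 1) - μ ^ (γ - 1)) ≤ C * FF γ μ y

def NegLayerStmt : Prop := ∀ (β : ℝ), 0 < β → ∀ (q : ℝ), 0 < q → ∀ (μ : ℝ), 0 < μ → ∀ (M : ℝ), μ ≤ M →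
    ∀ (L : ℝ), 0 < L → ∀ (v : ℝ → ℝ), Continuous v →
    IntervalIntegrable (fun t : ℝ => t ^ (β - 1) * ∫ x in (-(L / 2))..(L / 2), (max (v x - (t - μ)) 0) ^ q)
      volume μ M ∧
    ∫ t in μ..M, t ^ (β - 1) * (∫ x in (-(L / 2))..(L / 2), (max (v x - (t - μ)) 0) ^ q)
      ≤ (1 / β) * ∫ x in (-(L / 2))..(L / 2),
          (max (v x) 0) ^ q * ((μ + max (v x) 0) ^ β - μ ^ β)

def OffMeasStmt : Prop := ∀ (L : ℝ) (W : ℝ → ℝ) (μ : ℝ), Measurable (fun t : ℝ => offE L W (μ - t))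

def OffLtTopStmt : Prop := ∀ (L : ℝ), 0 < L → ∀ (W : ℝ → ℝ), Continuous W → ∀ (ν : ℝ), offE L W ν < ⊤

def OffIntegralStmt : Prop := ∀ (β : ℝ), 0 < β → ∃ C : ℝ, 0 < C ∧ ∀ (μ δ : ℝ), 0 < δ → δ < μ →
    ∃ L0 : ℝ, 0 < L0 ∧ ∀ L : ℝ, L0 ≤ L → ∀ (W : ℝ → ℝ), Continuous W →
      ∫⁻ t in Ioo δ μ, ENNReal.ofReal (t ^ (β - 1)) * offE L W (μ - t)
        ≤ ENNReal.ofReal (C * μ ^ (β - 1 / 2) * ∫ x in (-(L / 2))..(L / 2), W x ^ 2)
end Stmts3

/-- background terms: exact layer cake, with `γ = β + 1` -/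
theorem bg_layer (hP : LayerPosStmt) (hQ : LayerCountStmt) (β : ℝ) (hβ : 0 < β) (μ : ℝ) (hμ : 0 < μ) (M : ℝ)
    (hM : μ ≤ M) (L : ℝ) (hL : 0 < L) :
    IntervalIntegrable (fun t : ℝ => t ^ (β - 1) * bgsum L (μ - t)) volume 0 M ∧
    (∫ t in (0 : ℝ)..M, t ^ (β - 1) * bgsum L (μ - t))
      = (∑' n : ℤ, (max (μ - mom L n ^ 2) 0) ^ (β + 1)) / (β * (β + 1)) ∧
    IntervalIntegrable (fun t : ℝ => t ^ (β - 1) * bgcount L (μ - t)) volume 0 M ∧
    (∫ t in (0 : ℝ)..M, t ^ (β - 1) * bgcount L (μ - t))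
      = (∑' n : ℤ, (max (μ - mom L n ^ 2) 0) ^ β) / β := by
  have hM0 : 0 ≤ M := hμ.le.trans hM
  -- finiteness of the set of relevant modes
  have hfin : {n : ℤ | mom L n ^ 2 < μ}.Finite := by
    have hc : 0 < 2 * Real.pi / L := by positivity
    refine (Set.finite_Icc (-⌈√μ / (2 * Real.pi / L)⌉) ⌈√μ / (2 * Real.pi / L)⌉).subset ?_
    intro n hn
    simp only [Set.mem_ofPred_eq] at hn
    have h1 : |mom L n| < √μ := by
      rw [← Real.sqrt_sq_eq_abs]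
      exact Real.sqrt_lt_sqrt (sq_nonneg _) hn
    have h2 : mom L n = 2 * Real.pi / L * n := by unfold mom; ring
    rw [h2, abs_mul, abs_of_pos hc] at h1
    have h3 : |(n : ℝ)| < √μ / (2 * Real.pi / L) := by
      rw [lt_div_iff₀ hc]; linarith
    have h4 := Int.le_ceil (√μ / (2 * Real.pi / L))
    rw [Set.mem_Icc]
    have h5 := abs_lt.1 h3
    constructor
    · have : (-⌈√μ / (2 * Real.pi / L)⌉ : ℝ) < n := by linarith [h5.1]
      exact_mod_cast this.le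
    · have : (n : ℝ) < ⌈√μ / (2 * Real.pi / L)⌉ := by linarith [h5.2]
      exact_mod_cast this.le
  set S : Finset ℤ := hfin.toFinset with hS
  have hSmem : ∀ n : ℤ, n ∉ S → μ ≤ mom L n ^ 2 := by
    intro n hn
    by_contra h
    exact hn (hfin.mem_toFinset.2 (not_le.1 h))
  have hsum1 : ∀ t : ℝ, 0 ≤ t → t ^ (β - 1) * bgsum L (μ - t) =
      ∑ n ∈ S, t ^ (β - 1) * max ((μ - mom L n ^ 2) - t) 0 := by
    intro t ht
    unfold bgsum
    rw [tsum_eq_sum (s := S), Finset.mul_sum]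
    · refine Finset.sum_congr rfl fun n _ => ?_
      congr 2; ring
    · intro n hn
      have := hSmem n hn
      exact max_eq_right (by linarith)
  have hsum2 : ∀ t : ℝ, 0 ≤ t → t ^ (β - 1) * bgcount L (μ - t) =
      ∑ n ∈ S, t ^ (β - 1) * (if t < μ - mom L n ^ 2 then (1 : ℝ) else 0) := by
    intro t ht
    unfold bgcount
    rw [tsum_eq_sum (s := S), Finset.mul_sum]
    · refine Finset.sum_congr rfl fun n _ => ?_
      congr 2
      rw [eq_iff_iff]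
      constructor <;> intro h <;> linarith
    · intro n hn
      have := hSmem n hn
      rw [if_neg (by linarith)]
  have hx : ∀ n : ℤ, μ - mom L n ^ 2 ≤ M := fun n => by nlinarith [sq_nonneg (mom L n)]
  have hi1 : IntervalIntegrable (fun t : ℝ => ∑ n ∈ S, t ^ (β - 1) * max ((μ - mom L n ^ 2) - t) 0)
      volume 0 M := by
    simpa only [Finset.sum_fn] using
      IntervalIntegrable.sum S fun n _ => (hP β hβ _ M hM0 (hx n)).1
  have hi2 : IntervalIntegrable (fun t : ℝ => ∑ n ∈ S, t ^ (β - 1) *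
      (if t < μ - mom L n ^ 2 then (1 : ℝ) else 0)) volume 0 M := by
    simpa only [Finset.sum_fn] using
      IntervalIntegrable.sum S fun n _ => (hQ β hβ _ M hM0 (hx n)).1
  have hmem : ∀ t ∈ Set.uIoc 0 M, 0 ≤ t := fun t ht => by
    rw [Set.uIoc_of_le hM0] at ht; exact ht.1.le
  have hmem' : ∀ t ∈ Set.uIcc 0 M, 0 ≤ t := fun t ht => by
    rw [Set.uIcc_of_le hM0] at ht; exact ht.1
  refine ⟨hi1.congr fun t ht => (hsum1 t (hmem t ht)).symm, ?_,
    hi2.congr fun t ht => (hsum2 t (hmem t ht)).symm, ?_⟩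
  · rw [intervalIntegral.integral_congr fun t ht => hsum1 t (hmem' t ht),
      intervalIntegral.integral_finsetSum fun n _ => (hP β hβ _ M hM0 (hx n)).1,
      tsum_eq_sum (s := S), Finset.sum_div]
    · exact Finset.sum_congr rfl fun n _ => (hP β hβ _ M hM0 (hx n)).2
    · intro n hn
      have := hSmem n hn
      rw [max_eq_right (by linarith), Real.zero_rpow (by positivity)]
  · rw [intervalIntegral.integral_congr fun t ht => hsum2 t (hmem' t ht),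
      intervalIntegral.integral_finsetSum fun n _ => (hQ β hβ _ M hM0 (hx n)).1,
      tsum_eq_sum (s := S), Finset.sum_div]
    · exact Finset.sum_congr rfl fun n _ => (hQ β hβ _ M hM0 (hx n)).2
    · intro n hn
      have := hSmem n hn
      rw [max_eq_right (by linarith), Real.zero_rpow hβ.ne']


theorem integ_box_le_all {f : ℝ → ℝ} (hf : Continuous f) (hc : HasCompactSupport f) (h0 : ∀ x, 0 ≤ f x)
    {L : ℝ} (hL : 0 ≤ L) : ∫ x in (-(L / 2))..(L / 2), f x ≤ ∫ x, f x := by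
  rw [intervalIntegral.integral_of_le (by linarith)]
  exact setIntegral_le_integral (hf.integrable_of_hasCompactSupport hc)
    (Filter.Eventually.of_forall h0)

theorem integ_box_mono {f g : ℝ → ℝ} (hf : Continuous f) (hg : Continuous g) (c d : ℝ) {L : ℝ} (hL : 0 ≤ L)
    (h : ∀ x, c * f x ≤ d * g x) :
    c * ∫ x in (-(L / 2))..(L / 2), f x ≤ d * ∫ x in (-(L / 2))..(L / 2), g x := by
  rw [← intervalIntegral.integral_const_mul, ← intervalIntegral.integral_const_mul]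
  exact intervalIntegral.integral_mono (by linarith)
    ((continuous_const.mul hf).intervalIntegrable _ _)
    ((continuous_const.mul hg).intervalIntegrable _ _) h

theorem integ_box_nonneg {f : ℝ → ℝ} (h0 : ∀ x, 0 ≤ f x)
    {L : ℝ} (hL : 0 ≤ L) : 0 ≤ ∫ x in (-(L / 2))..(L / 2), f x :=
  intervalIntegral.integral_nonneg_of_forall (by linarith) h0

theorem integ_off (hOM : OffMeasStmt) (hOT : OffLtTopStmt) (β C3 μ δ L : ℝ) (hL : 0 < L) (hδ : 0 < δ)
    (hδμ : δ < μ) (hC3 : 0 ≤ C3)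
    (W : ℝ → ℝ) (hW : Continuous W)
    (h : ∫⁻ t in Ioo δ μ, ENNReal.ofReal (t ^ (β - 1)) * offE L W (μ - t)
        ≤ ENNReal.ofReal (C3 * μ ^ (β - 1 / 2) * ∫ x in (-(L / 2))..(L / 2), W x ^ 2)) :
    IntervalIntegrable (fun t : ℝ => t ^ (β - 1) * (offE L W (μ - t)).toReal) volume δ μ ∧
    ∫ t in δ..μ, t ^ (β - 1) * (offE L W (μ - t)).toReal
      ≤ C3 * μ ^ (β - 1 / 2) * ∫ x in (-(L / 2))..(L / 2), W x ^ 2 := by
  have hμ : 0 < μ := hδ.trans hδμ
  have hR : 0 ≤ C3 * μ ^ (β - 1 / 2) * ∫ x in (-(L / 2))..(L / 2), W x ^ 2 := by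
    have := integ_box_nonneg (f := fun x => W x ^ 2) (fun x => sq_nonneg _) hL.le
    positivity
  have hmeas : Measurable (fun t : ℝ => t ^ (β - 1) * (offE L W (μ - t)).toReal) :=
    (measurable_id.pow_const _).mul (hOM L W μ).ennreal_toReal
  have heq : ∫⁻ t in Ioo δ μ, ENNReal.ofReal (t ^ (β - 1) * (offE L W (μ - t)).toReal)
      = ∫⁻ t in Ioo δ μ, ENNReal.ofReal (t ^ (β - 1)) * offE L W (μ - t) := by
    refine setLIntegral_congr_fun measurableSet_Ioo fun t ht => ?_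
    have ht0 : 0 < t := hδ.trans ht.1
    rw [ENNReal.ofReal_mul (Real.rpow_nonneg ht0.le _), ENNReal.ofReal_toReal (hOT L hL W hW _).ne]
  have hnn : 0 ≤ᵐ[volume.restrict (Ioo δ μ)] fun t : ℝ => t ^ (β - 1) * (offE L W (μ - t)).toReal := by
    refine (ae_restrict_iff' measurableSet_Ioo).2 (Filter.Eventually.of_forall fun t ht => ?_)
    have ht0 : 0 < t := hδ.trans ht.1
    exact mul_nonneg (Real.rpow_nonneg ht0.le _) ENNReal.toReal_nonneg
  have hint : IntegrableOn (fun t : ℝ => t ^ (β - 1) * (offE L W (μ - t)).toReal) (Ioo δ μ) := by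
    rw [IntegrableOn, ← lintegral_ofReal_ne_top_iff_integrable hmeas.aestronglyMeasurable hnn, heq]
    exact (h.trans_lt ENNReal.ofReal_lt_top).ne
  refine ⟨(intervalIntegrable_iff_integrableOn_Ioo_of_le hδμ.le).2 hint, ?_⟩
  rw [intervalIntegral.integral_of_le hδμ.le, integral_Ioc_eq_integral_Ioo,
    integral_eq_lintegral_of_nonneg_ae hnn hmeas.aestronglyMeasurable, heq]
  exact ENNReal.toReal_le_of_le_ofReal hR h

theorem integ_pow (β : ℝ) (hβ : 0 < β) (a b : ℝ) :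
    IntervalIntegrable (fun t : ℝ => t ^ (β - 1)) volume a b ∧
    ∫ t in a..b, t ^ (β - 1) = (b ^ β - a ^ β) / β := by
  have h1 : -1 < β - 1 := by linarith
  refine ⟨intervalIntegral.intervalIntegrable_rpow' h1, ?_⟩
  rw [integral_rpow (Or.inl h1), sub_add_cancel]

theorem integ_aux (β P Q : ℝ) (hβ : β ≠ 0) :
    (β + 1) * β * (P + Q / β) = (β + 1) * β * P + (β + 1) * Q := by
  field_simp

/-- first range -/
theorem integ_r1 (β : ℝ) (hβ : 0 < β) (δ : ℝ) (hδ : 0 < δ) (B : ℝ) (G : ℝ → ℝ)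
    (hG : IntervalIntegrable (fun t : ℝ => t ^ (β - 1) * G t) volume 0 δ)
    (h : ∀ t ∈ Ioo 0 δ, G t ≤ B) :
    ∫ t in (0 : ℝ)..δ, t ^ (β - 1) * G t ≤ B * (δ ^ β / β) := by
  have h1 := integ_pow β hβ 0 δ
  have h2 : ∫ t in (0 : ℝ)..δ, t ^ (β - 1) * G t ≤ ∫ t in (0 : ℝ)..δ, t ^ (β - 1) * B := by
    refine intervalIntegral.integral_mono_on_of_le_Ioo hδ.le hG (h1.1.mul_const B) fun t ht => ?_
    exact mul_le_mul_of_nonneg_left (h t ht) (Real.rpow_nonneg ht.1.le _)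
  rw [intervalIntegral.integral_mul_const, h1.2, Real.zero_rpow hβ.ne', sub_zero] at h2
  linarith

/-- second range -/
theorem integ_r2 (β : ℝ) (hβ : 0 < β) (δ μ : ℝ) (hδ : 0 < δ) (hδμ : δ < μ) (C1 a K : ℝ) (ha : 0 ≤ a)
    (hK : 0 ≤ K)
    (hI : IntervalIntegrable (fun t : ℝ => t ^ (β - 1) * (1 / Real.sqrt (μ - t))) volume 0 μ)
    (hC : ∫ t in (0 : ℝ)..μ, t ^ (β - 1) * (1 / Real.sqrt (μ - t)) ≤ C1 * μ ^ (β - 1 / 2))
    (o : ℝ → ℝ) (ho : IntervalIntegrable (fun t : ℝ => t ^ (β - 1) * o t) volume δ μ)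
    (G : ℝ → ℝ)
    (hG : IntervalIntegrable (fun t : ℝ => t ^ (β - 1) * G t) volume δ μ)
    (h : ∀ t ∈ Ioo δ μ, G t ≤ a * (1 / Real.sqrt (μ - t)) + K + 2 * o t) :
    ∫ t in δ..μ, t ^ (β - 1) * G t ≤ a * (C1 * μ ^ (β - 1 / 2)) + K * (μ ^ β / β)
      + 2 * ∫ t in δ..μ, t ^ (β - 1) * o t := by
  have hμ : 0 < μ := hδ.trans hδμ
  have h1 := integ_pow β hβ δ μ
  have hsub : uIcc δ μ ⊆ uIcc 0 μ := by
    rw [uIcc_of_le hδμ.le, uIcc_of_le hμ.le]; exact Icc_subset_Icc hδ.le le_rfl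
  have hI' : IntervalIntegrable (fun t : ℝ => t ^ (β - 1) * (1 / Real.sqrt (μ - t))) volume δ μ :=
    hI.mono_set hsub
  have hI0 : IntervalIntegrable (fun t : ℝ => t ^ (β - 1) * (1 / Real.sqrt (μ - t))) volume 0 δ :=
    hI.mono_set (by rw [uIcc_of_le hδ.le, uIcc_of_le hμ.le]; exact Icc_subset_Icc le_rfl hδμ.le)
  have hadd := intervalIntegral.integral_add_adjacent_intervals hI0 hI'
  have h0 : 0 ≤ ∫ t in (0 : ℝ)..δ, t ^ (β - 1) * (1 / Real.sqrt (μ - t)) :=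
    intervalIntegral.integral_nonneg hδ.le fun t ht =>
      mul_nonneg (Real.rpow_nonneg ht.1 _) (by positivity)
  have hle : ∫ t in δ..μ, t ^ (β - 1) * (1 / Real.sqrt (μ - t)) ≤ C1 * μ ^ (β - 1 / 2) := by linarith
  have h2 : ∫ t in δ..μ, t ^ (β - 1) * G t ≤
      ∫ t in δ..μ, (a * (t ^ (β - 1) * (1 / Real.sqrt (μ - t))) + t ^ (β - 1) * K)
        + 2 * (t ^ (β - 1) * o t) := by
    refine intervalIntegral.integral_mono_on_of_le_Ioo hδμ.le hG
      (((hI'.const_mul a).add (h1.1.mul_const K)).add (ho.const_mul 2)) fun t ht => ?_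
    have ht0 : 0 < t := hδ.trans ht.1
    have := mul_le_mul_of_nonneg_left (h t ht) (Real.rpow_nonneg ht0.le (β - 1))
    linarith
  rw [intervalIntegral.integral_add ((hI'.const_mul a).add (h1.1.mul_const K)) (ho.const_mul 2),
    intervalIntegral.integral_add (hI'.const_mul a) (h1.1.mul_const K),
    intervalIntegral.integral_const_mul, intervalIntegral.integral_mul_const,
    intervalIntegral.integral_const_mul, h1.2] at h2
  have h3 : a * (∫ t in δ..μ, t ^ (β - 1) * (1 / Real.sqrt (μ - t))) ≤ a * (C1 * μ ^ (β - 1 / 2)) :=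
    mul_le_mul_of_nonneg_left hle ha
  have h4 : (μ ^ β - δ ^ β) / β * K ≤ K * (μ ^ β / β) := by
    rw [mul_comm K]
    refine mul_le_mul_of_nonneg_right ?_ hK
    have : 0 ≤ δ ^ β := Real.rpow_nonneg hδ.le _
    exact div_le_div_of_nonneg_right (by linarith) hβ.le
  linarith

/-- third range -/
theorem integ_r3 (hNL : NegLayerStmt) (β : ℝ) (hβ : 0 < β) (μ M L : ℝ) (hμ : 0 < μ) (hM : μ ≤ M) (hL : 0 < L)
    (V : ℝ → ℝ) (hV : Continuous V) (G : ℝ → ℝ)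
    (hG : IntervalIntegrable (fun t : ℝ => t ^ (β - 1) * G t) volume μ M)
    (h : ∀ t : ℝ, μ ≤ t → t < M → G t ≤ (∫ x in (-(L / 2))..(L / 2), (max (-V x - (t - μ)) 0) ^ (3 / 2 : ℝ))
      + (2 / L) * (∫ x in (-(L / 2))..(L / 2), max (-V x - (t - μ)) 0)) :
    ∫ t in μ..M, t ^ (β - 1) * G t ≤
      (1 / β) * (∫ x in (-(L / 2))..(L / 2),
          (max (-V x) 0) ^ (3 / 2 : ℝ) * ((μ + max (-V x) 0) ^ β - μ ^ β))
      + (2 / L) * ((1 / β) * (∫ x in (-(L / 2))..(L / 2),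
          (max (-V x) 0) * ((μ + max (-V x) 0) ^ β - μ ^ β))) := by
  obtain ⟨hi1, hl1⟩ := hNL β hβ (3 / 2) (by norm_num) μ hμ M hM L hL (fun x => -V x) hV.neg
  obtain ⟨hi2, hl2⟩ := hNL β hβ 1 (by norm_num) μ hμ M hM L hL (fun x => -V x) hV.neg
  simp only [Real.rpow_one] at hi2 hl2
  have h2 : ∫ t in μ..M, t ^ (β - 1) * G t ≤
      ∫ t in μ..M, t ^ (β - 1) * (∫ x in (-(L / 2))..(L / 2), (max (-V x - (t - μ)) 0) ^ (3 / 2 : ℝ))
        + (2 / L) * (t ^ (β - 1) * ∫ x in (-(L / 2))..(L / 2), max (-V x - (t - μ)) 0) := by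
    refine intervalIntegral.integral_mono_on_of_le_Ioo hM hG (hi1.add (hi2.const_mul (2 / L)))
      fun t ht => ?_
    have ht0 : 0 < t := hμ.trans ht.1
    have := mul_le_mul_of_nonneg_left (h t ht.1.le ht.2) (Real.rpow_nonneg ht0.le (β - 1))
    linarith
  rw [intervalIntegral.integral_add hi1 (hi2.const_mul (2 / L)),
    intervalIntegral.integral_const_mul] at h2
  have h3 := mul_le_mul_of_nonneg_left hl2 (show 0 ≤ 2 / L by positivity)
  linarith

set_option maxHeartbeats 4000000 in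
/-- the three level ranges, integrated -/
theorem integ (hBI : BetaIntStmt) (hFF : FFBoundsStmt) (hNL : NegLayerStmt) (hOM : OffMeasStmt)
    (hOT : OffLtTopStmt) (hOI : OffIntegralStmt) (γ : ℝ) (hγ : 1 < γ) :
    ∃ C : ℝ, 0 < C ∧ ∀ (μ : ℝ), 0 < μ → ∀ (V : ℝ → ℝ), Continuous V → HasCompactSupport V → ∀ (ε : ℝ), 0 < ε →
      ∃ L0 : ℝ, 0 < L0 ∧ ∀ L : ℝ, L0 ≤ L → ∀ (M : ℝ), μ ≤ M → ∀ (G : ℝ → ℝ),
        IntervalIntegrable (fun t : ℝ => t ^ (γ - 2) * G t) volume 0 M → LevelBounds L μ M V G →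
        γ * (γ - 1) * ∫ t in (0 : ℝ)..M, t ^ (γ - 2) * G t ≤ C * (∫ x, FF γ μ (V x)) + ε := by
  obtain ⟨β, rfl⟩ : ∃ β, γ = β + 1 := ⟨γ - 1, by ring⟩
  have hβ : 0 < β := by linarith
  obtain ⟨C1, hC1, hBI⟩ := hBI β hβ
  obtain ⟨C2, hC2, hFF⟩ := hFF (β + 1) hγ
  obtain ⟨C3, hC3, hOI⟩ := hOI β hβ
  refine ⟨(β + 1) * β * (C2 * (8 * C1 + 14 / β + 2 * C3)), by positivity, ?_⟩
  intro μ hμ V hV hVc ε hε
  -- global quantities
  set J1 : ℝ := ∫ x, |V x| with hJ1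
  set J32 : ℝ := ∫ x, (max (-V x) 0) ^ (3 / 2 : ℝ) with hJ32
  set D : ℝ := ∫ x, (max (-V x) 0) * ((μ + max (-V x) 0) ^ β - μ ^ β) with hD
  set I : ℝ := ∫ x, FF (β + 1) μ (V x) with hI
  -- continuity and compact support
  have c1 : Continuous fun x => |V x| := hV.abs
  have c1' : HasCompactSupport fun x => |V x| := hVc.comp_left (g := fun y : ℝ => |y|) abs_zero
  have c2 : Continuous fun x => (max (-V x) 0) ^ (3 / 2 : ℝ) :=
    (hV.neg.max continuous_const).rpow_const fun x => Or.inr (by norm_num)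
  have c2' : HasCompactSupport fun x => (max (-V x) 0) ^ (3 / 2 : ℝ) :=
    hVc.comp_left (g := fun y : ℝ => (max (-y) 0) ^ (3 / 2 : ℝ)) (by
      rw [neg_zero, max_self, Real.zero_rpow (by norm_num)])
  have c3 : Continuous fun x => (μ + max (-V x) 0) ^ β - μ ^ β :=
    ((continuous_const.add (hV.neg.max continuous_const)).rpow_const
      fun x => Or.inr hβ.le).sub continuous_const
  have c4 : Continuous fun x => (max (-V x) 0) * ((μ + max (-V x) 0) ^ β - μ ^ β) :=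
    (hV.neg.max continuous_const).mul c3
  have c4' : HasCompactSupport fun x => (max (-V x) 0) * ((μ + max (-V x) 0) ^ β - μ ^ β) :=
    hVc.comp_left (g := fun y : ℝ => (max (-y) 0) * ((μ + max (-y) 0) ^ β - μ ^ β)) (by
      rw [neg_zero, max_self, zero_mul])
  have c5 : Continuous fun x => (max (-V x) 0) ^ (3 / 2 : ℝ) * ((μ + max (-V x) 0) ^ β - μ ^ β) :=
    c2.mul c3
  have c6 : Continuous fun x => FF (β + 1) μ (V x) := by
    unfold FF
    exact ((((continuous_const.sub hV).max continuous_const).rpow_const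
      fun x => Or.inr (by positivity)).sub continuous_const).add (continuous_const.mul hV)
  have c6' : HasCompactSupport fun x => FF (β + 1) μ (V x) :=
    hVc.comp_left (g := fun y : ℝ => FF (β + 1) μ y) (by
      unfold FF
      rw [sub_zero, max_eq_left hμ.le]; ring)
  have c7 : Continuous fun x => V1 μ (V x) := by
    unfold V1; exact continuous_const.max (continuous_const.min hV)
  have c8 : Continuous fun x => V2 μ (V x) := by
    unfold V2; exact (hV.neg.sub continuous_const).max continuous_const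
  have c9 : Continuous fun x => V3 μ (V x) := by
    unfold V3; exact (hV.sub continuous_const).max continuous_const
  have c8' : Continuous fun x => V2 μ (V x) ^ (3 / 2 : ℝ) :=
    c8.rpow_const fun x => Or.inr (by norm_num)
  -- nonnegativity
  have n3 : ∀ x, 0 ≤ (μ + max (-V x) 0) ^ β - μ ^ β := fun x => by
    have : μ ^ β ≤ (μ + max (-V x) 0) ^ β :=
      Real.rpow_le_rpow hμ.le (by linarith [le_max_right (-V x) 0]) hβ.le
    linarith
  have n4 : ∀ x, 0 ≤ (max (-V x) 0) * ((μ + max (-V x) 0) ^ β - μ ^ β) := fun x =>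
    mul_nonneg (le_max_right _ _) (n3 x)
  have n2 : ∀ x, 0 ≤ (max (-V x) 0) ^ (3 / 2 : ℝ) := fun x =>
    Real.rpow_nonneg (le_max_right _ _) _
  have n6 : ∀ x, 0 ≤ FF (β + 1) μ (V x) := fun x => (hFF μ hμ (V x)).1
  have nJ1 : 0 ≤ J1 := integral_nonneg fun x => abs_nonneg _
  have nJ32 : 0 ≤ J32 := integral_nonneg n2
  have nD : 0 ≤ D := integral_nonneg n4
  have nI : 0 ≤ I := integral_nonneg n6
  -- constants
  set B1 : ℝ := 3 * J32 + (√μ + 9) * J1 with hB1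
  have nB1 : 0 ≤ B1 := by positivity
  -- choice of δ
  obtain ⟨δ, hδ, hδμ, hδB⟩ : ∃ δ : ℝ, 0 < δ ∧ δ < μ ∧ (β + 1) * B1 * δ ^ β ≤ ε / 2 := by
    have hp : 0 < ε / (2 * (β + 1) * (B1 + 1)) := by positivity
    refine ⟨min (μ / 2) ((ε / (2 * (β + 1) * (B1 + 1))) ^ (1 / β)), by positivity, ?_, ?_⟩
    · exact (min_le_left _ _).trans_lt (by linarith)
    · have h1 : (min (μ / 2) ((ε / (2 * (β + 1) * (B1 + 1))) ^ (1 / β))) ^ β
          ≤ ε / (2 * (β + 1) * (B1 + 1)) := by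
        calc (min (μ / 2) ((ε / (2 * (β + 1) * (B1 + 1))) ^ (1 / β))) ^ β
            ≤ ((ε / (2 * (β + 1) * (B1 + 1))) ^ (1 / β)) ^ β :=
              Real.rpow_le_rpow (by positivity) (min_le_right _ _) hβ.le
          _ = ε / (2 * (β + 1) * (B1 + 1)) := by
              rw [← Real.rpow_mul hp.le, one_div, inv_mul_cancel₀ hβ.ne', Real.rpow_one]
      calc (β + 1) * B1 * (min (μ / 2) ((ε / (2 * (β + 1) * (B1 + 1))) ^ (1 / β))) ^ β
          ≤ (β + 1) * (B1 + 1) * (ε / (2 * (β + 1) * (B1 + 1))) := by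
            refine mul_le_mul (mul_le_mul_of_nonneg_left (by linarith) (by positivity)) h1
              (by positivity) (by positivity)
        _ = ε / 2 := by field_simp
  obtain ⟨L1, hL1, hOI⟩ := hOI μ δ hδ hδμ
  refine ⟨max (max 1 (1 / √μ)) (max L1 (2 * (β + 1) * (8 * J1 * μ ^ β + 2 * D) / ε)),
    lt_max_of_lt_left (lt_max_of_lt_left one_pos), ?_⟩
  intro L hL M hM G hG hLB
  have hL1' : 1 ≤ L := (le_max_left _ _).trans ((le_max_left _ _).trans hL)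
  have hLμ : 1 / √μ ≤ L := (le_max_right _ _).trans ((le_max_left _ _).trans hL)
  have hLL1 : L1 ≤ L := (le_max_left _ _).trans ((le_max_right _ _).trans hL)
  have hLε : 2 * (β + 1) * (8 * J1 * μ ^ β + 2 * D) / ε ≤ L :=
    (le_max_right _ _).trans ((le_max_right _ _).trans hL)
  have hL0 : 0 < L := by linarith
  have hsμ : 0 < √μ := Real.sqrt_pos.2 hμ
  have hinvL : 1 / L ≤ √μ := by
    rw [div_le_iff₀ hL0]
    rw [div_le_iff₀ hsμ] at hLμ
    linarith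
  have hinvL1 : 1 / L ≤ 1 := by
    rw [div_le_one hL0]; exact hL1'
  have hinvL0 : 0 < 1 / L := by positivity
  have hLε' : (β + 1) * (8 * J1 * μ ^ β + 2 * D) * (1 / L) ≤ ε / 2 := by
    rw [div_le_iff₀ hε] at hLε
    rw [mul_one_div, div_le_iff₀ hL0]
    linarith
  obtain ⟨hB, hC, hE⟩ := hLB
  -- exponents
  have e1 : (β + 1 : ℝ) - 2 = β - 1 := by ring
  have e2 : (β + 1 : ℝ) - 1 = β := by ring
  have e3 : (β + 1 : ℝ) - 3 / 2 = β - 1 / 2 := by ring
  have e4 : (β + 1 : ℝ) - 1 / 2 = β + 1 / 2 := by ring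
  rw [e1] at hG ⊢
  rw [e2]
  simp only [e2, e3, e4] at hFF
  -- box quantities
  set A1 : ℝ := ∫ x in (-(L / 2))..(L / 2), V1 μ (V x) ^ 2 with hA1
  set A2 : ℝ := ∫ x in (-(L / 2))..(L / 2), V2 μ (V x) ^ (3 / 2 : ℝ) with hA2
  set A3 : ℝ := ∫ x in (-(L / 2))..(L / 2), (V2 μ (V x) + V3 μ (V x)) with hA3
  set K1 : ℝ := ∫ x in (-(L / 2))..(L / 2), |V x| with hK1
  set K32 : ℝ := ∫ x in (-(L / 2))..(L / 2), (max (-V x) 0) ^ (3 / 2 : ℝ) with hK32
  set KD : ℝ := ∫ x in (-(L / 2))..(L / 2), (max (-V x) 0) * ((μ + max (-V x) 0) ^ β - μ ^ β) with hKD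
  set K5 : ℝ := ∫ x in (-(L / 2))..(L / 2),
    (max (-V x) 0) ^ (3 / 2 : ℝ) * ((μ + max (-V x) 0) ^ β - μ ^ β) with hK5
  set KI : ℝ := ∫ x in (-(L / 2))..(L / 2), FF (β + 1) μ (V x) with hKI
  have b1 : K1 ≤ J1 := integ_box_le_all c1 c1' (fun x => abs_nonneg _) hL0.le
  have b2 : K32 ≤ J32 := integ_box_le_all c2 c2' n2 hL0.le
  have b3 : KD ≤ D := integ_box_le_all c4 c4' n4 hL0.le
  have b4 : KI ≤ I := integ_box_le_all c6 c6' n6 hL0.le
  have nA1 : 0 ≤ A1 := integ_box_nonneg (fun x => sq_nonneg _) hL0.le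
  have nA2 : 0 ≤ A2 := integ_box_nonneg (fun x => Real.rpow_nonneg (le_max_right _ _) _) hL0.le
  have nA3 : 0 ≤ A3 := integ_box_nonneg
    (fun x => add_nonneg (le_max_right _ _) (le_max_right _ _)) hL0.le
  have nK1 : 0 ≤ K1 := integ_box_nonneg (fun x => abs_nonneg _) hL0.le
  have nK32 : 0 ≤ K32 := integ_box_nonneg n2 hL0.le
  have nKI : 0 ≤ KI := integ_box_nonneg n6 hL0.le
  have f1 : μ ^ (β - 1 / 2) * A1 ≤ C2 * I :=
    (integ_box_mono (c7.pow 2) c6 (μ ^ (β - 1 / 2)) C2 hL0.le fun x => (hFF μ hμ (V x)).2.1).trans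
      (mul_le_mul_of_nonneg_left b4 hC2.le)
  have f2 : μ ^ β * A2 ≤ C2 * I :=
    (integ_box_mono c8' c6 (μ ^ β) C2 hL0.le fun x => (hFF μ hμ (V x)).2.2.1).trans
      (mul_le_mul_of_nonneg_left b4 hC2.le)
  have f3 : μ ^ (β + 1 / 2) * A3 ≤ C2 * I :=
    (integ_box_mono (c8.add c9) c6 (μ ^ (β + 1 / 2)) C2 hL0.le
      fun x => (hFF μ hμ (V x)).2.2.2.1).trans (mul_le_mul_of_nonneg_left b4 hC2.le)
  have f5 : 1 * K5 ≤ C2 * I :=
    (integ_box_mono c5 c6 1 C2 hL0.le fun x => by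
      rw [one_mul]; exact (hFF μ hμ (V x)).2.2.2.2).trans (mul_le_mul_of_nonneg_left b4 hC2.le)
  -- splitting
  have hμM : (0 : ℝ) ≤ M := hμ.le.trans hM
  have hG1 : IntervalIntegrable (fun t : ℝ => t ^ (β - 1) * G t) volume 0 δ :=
    hG.mono_set (by
      rw [uIcc_of_le hδ.le, uIcc_of_le hμM]; exact Icc_subset_Icc le_rfl (hδμ.le.trans hM))
  have hG2 : IntervalIntegrable (fun t : ℝ => t ^ (β - 1) * G t) volume δ μ :=
    hG.mono_set (by
      rw [uIcc_of_le hδμ.le, uIcc_of_le hμM]; exact Icc_subset_Icc hδ.le hM)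
  have hG3 : IntervalIntegrable (fun t : ℝ => t ^ (β - 1) * G t) volume μ M :=
    hG.mono_set (by
      rw [uIcc_of_le hM, uIcc_of_le hμM]; exact Icc_subset_Icc hμ.le le_rfl)
  have hsplit : ∫ t in (0 : ℝ)..M, t ^ (β - 1) * G t =
      (∫ t in (0 : ℝ)..δ, t ^ (β - 1) * G t) + (∫ t in δ..μ, t ^ (β - 1) * G t)
        + ∫ t in μ..M, t ^ (β - 1) * G t := by
    rw [intervalIntegral.integral_add_adjacent_intervals hG1 hG2,
      intervalIntegral.integral_add_adjacent_intervals (hG1.trans hG2) hG3]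
  have hpi : 1 ≤ Real.pi := by linarith [Real.pi_gt_three]
  have hsq : ∀ t : ℝ, 0 < t → √(μ - t) / Real.pi ≤ √μ := fun t ht =>
    (div_le_self (Real.sqrt_nonneg _) hpi).trans (Real.sqrt_le_sqrt (by linarith))
  -- first range
  have hr1 : ∫ t in (0 : ℝ)..δ, t ^ (β - 1) * G t ≤ B1 * (δ ^ β / β) := by
    refine integ_r1 β hβ δ hδ B1 G hG1 fun t ht => ?_
    refine (hB t ht.1 (ht.2.trans hδμ)).trans ?_
    have h1 : √(μ - t) / Real.pi + 9 / L ≤ √μ + 9 := by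
      have : 9 / L = 9 * (1 / L) := by ring
      linarith [hsq t ht.1]
    have h2 : (√(μ - t) / Real.pi + 9 / L) * K1 ≤ (√μ + 9) * J1 :=
      mul_le_mul h1 b1 nK1 (by positivity)
    linarith
  -- second range
  obtain ⟨hBI1, hBI2⟩ := hBI μ hμ
  obtain ⟨ho1, ho2⟩ := integ_off hOM hOT β C3 μ δ L hL0 hδ hδμ hC3.le (fun x => V1 μ (V x)) c7
    (hOI L hLL1 (fun x => V1 μ (V x)) c7)
  have hr2 := integ_r2 β hβ δ μ hδ hδμ C1 (8 * A1) (11 * A2 + 2 * √μ * A3 + 8 * J1 * (1 / L))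
    (by positivity) (by positivity) hBI1 hBI2
    (fun t => (offE L (fun x => V1 μ (V x)) (μ - t)).toReal) ho1 G hG2 (fun t ht => by
      have ht0 : 0 < t := hδ.trans ht.1
      refine (hC t ht0 ht.2).trans ?_
      have h1 : √(μ - t) / Real.pi + 1 / L ≤ 2 * √μ := by linarith [hsq t ht0]
      have h2 : (√(μ - t) / Real.pi + 1 / L) * A3 ≤ 2 * √μ * A3 :=
        mul_le_mul_of_nonneg_right h1 nA3
      have h3 : 8 / L * K1 ≤ 8 * J1 * (1 / L) := by
        have : 8 / L * K1 = 8 * (1 / L) * K1 := by ring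
        rw [this]
        nlinarith
      have h4 : 8 / √(μ - t) * A1 = 8 * A1 * (1 / √(μ - t)) := by ring
      linarith)
  -- third range
  have hr3 := integ_r3 hNL β hβ μ M L hμ hM hL0 V hV G hG3 hE
  -- final assembly
  have hμβ : 0 < μ ^ β := Real.rpow_pos_of_pos hμ _
  have hsqrt : μ ^ (β + 1 / 2) = √μ * μ ^ β := by
    rw [Real.rpow_add hμ, Real.sqrt_eq_rpow, mul_comm]
  rw [hsqrt] at f3
  have t2 : ∫ t in δ..μ, t ^ (β - 1) * G t ≤
      (8 * C1 + 13 / β + 2 * C3) * (C2 * I) + 8 * J1 * μ ^ β * (1 / L) / β := by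
    have g1 : 8 * A1 * (C1 * μ ^ (β - 1 / 2)) ≤ 8 * C1 * (C2 * I) := by
      have : 8 * A1 * (C1 * μ ^ (β - 1 / 2)) = 8 * C1 * (μ ^ (β - 1 / 2) * A1) := by ring
      rw [this]
      exact mul_le_mul_of_nonneg_left f1 (by positivity)
    have g2 : (11 * A2 + 2 * √μ * A3 + 8 * J1 * (1 / L)) * (μ ^ β / β) ≤
        13 / β * (C2 * I) + 8 * J1 * μ ^ β * (1 / L) / β := by
      have : (11 * A2 + 2 * √μ * A3 + 8 * J1 * (1 / L)) * (μ ^ β / β) =
        11 / β * (μ ^ β * A2) + 2 / β * (√μ * μ ^ β * A3) + 8 * J1 * μ ^ β * (1 / L) / β := by ring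
      rw [this]
      have g3 := mul_le_mul_of_nonneg_left f2 (show 0 ≤ 11 / β by positivity)
      have g4 := mul_le_mul_of_nonneg_left f3 (show 0 ≤ 2 / β by positivity)
      have g5 : 13 / β * (C2 * I) = 11 / β * (C2 * I) + 2 / β * (C2 * I) := by ring
      linarith
    have g6 : 2 * (∫ t in δ..μ, t ^ (β - 1) * (offE L (fun x => V1 μ (V x)) (μ - t)).toReal) ≤
        2 * C3 * (C2 * I) := by
      have : C3 * μ ^ (β - 1 / 2) * A1 ≤ C3 * (C2 * I) := by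
        rw [mul_assoc]; exact mul_le_mul_of_nonneg_left f1 hC3.le
      linarith
    linarith
  have t3 : ∫ t in μ..M, t ^ (β - 1) * G t ≤ 1 / β * (C2 * I) + 2 * D * (1 / L) / β := by
    have g1 := mul_le_mul_of_nonneg_left f5 (show 0 ≤ 1 / β by positivity)
    have g2 : 2 / L * (1 / β * KD) ≤ 2 * D * (1 / L) / β := by
      have : 2 / L * (1 / β * KD) = 2 * (1 / L) * (1 / β) * KD := by ring
      rw [this]
      have g3 := mul_le_mul_of_nonneg_left b3 (show 0 ≤ 2 * (1 / L) * (1 / β) by positivity)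
      have g4 : 2 * (1 / L) * (1 / β) * D = 2 * D * (1 / L) / β := by ring
      linarith
    linarith
  have hfin : ∫ t in (0 : ℝ)..M, t ^ (β - 1) * G t ≤
      C2 * (8 * C1 + 14 / β + 2 * C3) * I + (B1 * δ ^ β + (8 * J1 * μ ^ β + 2 * D) * (1 / L)) / β := by
    rw [hsplit]
    have : C2 * (8 * C1 + 14 / β + 2 * C3) * I + (B1 * δ ^ β + (8 * J1 * μ ^ β + 2 * D) * (1 / L)) / β
      = B1 * (δ ^ β / β) + ((8 * C1 + 13 / β + 2 * C3) * (C2 * I) + 8 * J1 * μ ^ β * (1 / L) / β)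
        + (1 / β * (C2 * I) + 2 * D * (1 / L) / β) := by ring
    rw [this]
    linarith
  calc (β + 1) * β * ∫ t in (0 : ℝ)..M, t ^ (β - 1) * G t
      ≤ (β + 1) * β * (C2 * (8 * C1 + 14 / β + 2 * C3) * I
          + (B1 * δ ^ β + (8 * J1 * μ ^ β + 2 * D) * (1 / L)) / β) :=
        mul_le_mul_of_nonneg_left hfin (by positivity)
    _ = (β + 1) * β * (C2 * (8 * C1 + 14 / β + 2 * C3)) * I
          + ((β + 1) * B1 * δ ^ β + (β + 1) * (8 * J1 * μ ^ β + 2 * D) * (1 / L)) := by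
        rw [integ_aux _ _ _ hβ.ne']; ring
    _ ≤ (β + 1) * β * (C2 * (8 * C1 + 14 / β + 2 * C3)) * I + ε := by linarith

end Pool.Agent.Helper209.PL.Integ
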