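import Pool.Agent.Helper209.PL.Integ

set_option autoImplicit false

namespace Pool.Agent.Helper209.PL.Integ2

open MeasureTheory Set Pool.Agent.Helper209.PL.Integ
open scoped SchwartzMap InnerProductSpace FourierTransform

def OffIntegral0Stmt : Prop := ∀ (β : ℝ), 0 < β → ∃ C : ℝ, 0 < C ∧ ∀ (μ L : ℝ), 0 < μ → 0 < L → ∀ k : ℕ,
    Real.sqrt μ * L = 2 * Real.pi * (k + 1 / 2) → ∀ (W : ℝ → ℝ), Continuous W →
      ∫⁻ t in Ioo 0 μ, ENNReal.ofReal (t ^ (β - 1)) * offE L W (μ - t)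
        ≤ ENNReal.ofReal (C * μ ^ (β - 1 / 2) * ∫ x in (-(L / 2))..(L / 2), W x ^ 2)

theorem integ_off0 (hOM : OffMeasStmt) (hOT : OffLtTopStmt) (β C3 μ L : ℝ) (hL : 0 < L)
    (hμ : 0 < μ) (hC3 : 0 ≤ C3)
    (W : ℝ → ℝ) (hW : Continuous W)
    (h : ∫⁻ t in Ioo 0 μ, ENNReal.ofReal (t ^ (β - 1)) * offE L W (μ - t)
        ≤ ENNReal.ofReal (C3 * μ ^ (β - 1 / 2) * ∫ x in (-(L / 2))..(L / 2), W x ^ 2)) :
    IntervalIntegrable (fun t : ℝ => t ^ (β - 1) * (offE L W (μ - t)).toReal) volume 0 μ ∧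
    ∫ t in (0 : ℝ)..μ, t ^ (β - 1) * (offE L W (μ - t)).toReal
      ≤ C3 * μ ^ (β - 1 / 2) * ∫ x in (-(L / 2))..(L / 2), W x ^ 2 := by
  have hR : 0 ≤ C3 * μ ^ (β - 1 / 2) * ∫ x in (-(L / 2))..(L / 2), W x ^ 2 := by
    have := integ_box_nonneg (f := fun x => W x ^ 2) (fun x => sq_nonneg _) hL.le
    positivity
  have hmeas : Measurable (fun t : ℝ => t ^ (β - 1) * (offE L W (μ - t)).toReal) :=
    (measurable_id.pow_const _).mul (hOM L W μ).ennreal_toReal
  have heq : ∫⁻ t in Ioo 0 μ, ENNReal.ofReal (t ^ (β - 1) * (offE L W (μ - t)).toReal)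
      = ∫⁻ t in Ioo 0 μ, ENNReal.ofReal (t ^ (β - 1)) * offE L W (μ - t) := by
    refine setLIntegral_congr_fun measurableSet_Ioo fun t ht => ?_
    have ht0 : 0 < t := ht.1
    rw [ENNReal.ofReal_mul (Real.rpow_nonneg ht0.le _), ENNReal.ofReal_toReal (hOT L hL W hW _).ne]
  have hnn : 0 ≤ᵐ[volume.restrict (Ioo 0 μ)] fun t : ℝ => t ^ (β - 1) * (offE L W (μ - t)).toReal := by
    refine (ae_restrict_iff' measurableSet_Ioo).2 (Filter.Eventually.of_forall fun t ht => ?_)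
    have ht0 : 0 < t := ht.1
    exact mul_nonneg (Real.rpow_nonneg ht0.le _) ENNReal.toReal_nonneg
  have hint : IntegrableOn (fun t : ℝ => t ^ (β - 1) * (offE L W (μ - t)).toReal) (Ioo 0 μ) := by
    rw [IntegrableOn, ← lintegral_ofReal_ne_top_iff_integrable hmeas.aestronglyMeasurable hnn, heq]
    exact (h.trans_lt ENNReal.ofReal_lt_top).ne
  refine ⟨(intervalIntegrable_iff_integrableOn_Ioo_of_le hμ.le).2 hint, ?_⟩
  rw [intervalIntegral.integral_of_le hμ.le, integral_Ioc_eq_integral_Ioo,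
    integral_eq_lintegral_of_nonneg_ae hnn hmeas.aestronglyMeasurable, heq]
  exact ENNReal.toReal_le_of_le_ofReal hR h

theorem integ_r20 (β : ℝ) (hβ : 0 < β) (μ : ℝ) (hμ : 0 < μ) (C1 a K : ℝ) (ha : 0 ≤ a)
    (_hK : 0 ≤ K)
    (hI : IntervalIntegrable (fun t : ℝ => t ^ (β - 1) * (1 / Real.sqrt (μ - t))) volume 0 μ)
    (hC : ∫ t in (0 : ℝ)..μ, t ^ (β - 1) * (1 / Real.sqrt (μ - t)) ≤ C1 * μ ^ (β - 1 / 2))
    (o : ℝ → ℝ) (ho : IntervalIntegrable (fun t : ℝ => t ^ (β - 1) * o t) volume 0 μ)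
    (G : ℝ → ℝ)
    (hG : IntervalIntegrable (fun t : ℝ => t ^ (β - 1) * G t) volume 0 μ)
    (h : ∀ t ∈ Ioo 0 μ, G t ≤ a * (1 / Real.sqrt (μ - t)) + K + 2 * o t) :
    ∫ t in (0 : ℝ)..μ, t ^ (β - 1) * G t ≤ a * (C1 * μ ^ (β - 1 / 2)) + K * (μ ^ β / β)
      + 2 * ∫ t in (0 : ℝ)..μ, t ^ (β - 1) * o t := by
  have h1 := integ_pow β hβ 0 μ
  have h2 : ∫ t in (0 : ℝ)..μ, t ^ (β - 1) * G t ≤
      ∫ t in (0 : ℝ)..μ, (a * (t ^ (β - 1) * (1 / Real.sqrt (μ - t))) + t ^ (β - 1) * K)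
        + 2 * (t ^ (β - 1) * o t) := by
    refine intervalIntegral.integral_mono_on_of_le_Ioo hμ.le hG
      (((hI.const_mul a).add (h1.1.mul_const K)).add (ho.const_mul 2)) fun t ht => ?_
    have ht0 : 0 < t := ht.1
    have := mul_le_mul_of_nonneg_left (h t ht) (Real.rpow_nonneg ht0.le (β - 1))
    linarith
  rw [intervalIntegral.integral_add ((hI.const_mul a).add (h1.1.mul_const K)) (ho.const_mul 2),
    intervalIntegral.integral_add (hI.const_mul a) (h1.1.mul_const K),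
    intervalIntegral.integral_const_mul, intervalIntegral.integral_mul_const,
    intervalIntegral.integral_const_mul, h1.2, Real.zero_rpow hβ.ne', sub_zero] at h2
  have h3 : a * (∫ t in (0 : ℝ)..μ, t ^ (β - 1) * (1 / Real.sqrt (μ - t))) ≤ a * (C1 * μ ^ (β - 1 / 2)) :=
    mul_le_mul_of_nonneg_left hC ha
  linarith

theorem pow_diff (β μ y : ℝ) (hβ : 0 < β) (hμ : 0 < μ) (hy : 0 ≤ y) (hy1 : y ≤ 1) :
    (μ + y) ^ β - μ ^ β ≤ (β * μ ^ (β - 1) * (1 + 1 / μ) ^ β) * y := by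
  set x : ℝ := y / μ with hx
  have hx0 : 0 ≤ x := by positivity
  have hx1 : x ≤ 1 / μ := by
    rw [hx]; gcongr
  have hyx : y = μ * x := by rw [hx]; field_simp
  have e1 : (μ + y) ^ β = μ ^ β * (1 + x) ^ β := by
    rw [hyx, ← Real.mul_rpow hμ.le (by positivity)]
    congr 1
    ring
  have e2 : μ ^ β = μ ^ (β - 1) * μ := by
    rw [Real.rpow_sub_one hμ.ne']
    field_simp
  have key : (1 + x) ^ β - 1 ≤ β * x * (1 + 1 / μ) ^ β := by
    have hge : 1 ≤ (1 + 1 / μ) ^ β := Real.one_le_rpow (by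
      have : 0 < 1 / μ := by positivity
      linarith) hβ.le
    rcases le_total β 1 with h | h
    · have h1 := rpow_one_add_le_one_add_mul_self (s := x) (by linarith) hβ.le h
      have h2 : β * x ≤ β * x * (1 + 1 / μ) ^ β := le_mul_of_one_le_right (by positivity) hge
      linarith
    · have hs : -1 ≤ -(x / (1 + x)) := by
        have : x / (1 + x) ≤ 1 := by
          rw [div_le_one (by positivity)]; linarith
        linarith
      have h1 := one_add_mul_self_le_rpow_one_add hs h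
      have e3 : 1 + -(x / (1 + x)) = (1 + x)⁻¹ := by
        field_simp
        ring
      rw [e3, Real.inv_rpow (by positivity)] at h1
      have hp : 0 < (1 + x) ^ β := Real.rpow_pos_of_pos (by positivity) _
      have h2 : (1 + β * -(x / (1 + x))) * (1 + x) ^ β ≤ 1 := by
        calc (1 + β * -(x / (1 + x))) * (1 + x) ^ β ≤ ((1 + x) ^ β)⁻¹ * (1 + x) ^ β := by gcongr
          _ = 1 := inv_mul_cancel₀ hp.ne'
      have h3 : β * (x / (1 + x)) * (1 + x) ^ β ≤ β * x * (1 + 1 / μ) ^ β := by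
        have h4 : x / (1 + x) ≤ x := div_le_self hx0 (by linarith)
        have h5 : (1 + x) ^ β ≤ (1 + 1 / μ) ^ β := Real.rpow_le_rpow (by positivity) (by linarith) hβ.le
        gcongr
      nlinarith [h2, h3]
  rw [e1]
  have h6 : μ ^ β * (1 + x) ^ β - μ ^ β = μ ^ β * ((1 + x) ^ β - 1) := by ring
  rw [h6]
  calc μ ^ β * ((1 + x) ^ β - 1) ≤ μ ^ β * (β * x * (1 + 1 / μ) ^ β) := by
        have : 0 ≤ μ ^ β := (Real.rpow_pos_of_pos hμ _).le
        gcongr
    _ = (β * μ ^ (β - 1) * (1 + 1 / μ) ^ β) * y := by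
        rw [e2, hyx]; ring


theorem box_cs (V : ℝ → ℝ) (hV : Continuous V) (L B : ℝ) (hL : 0 < L) (hB : 0 ≤ B)
    (h : (∫ x in (-(L / 2))..(L / 2), V x ^ 2) ≤ B ^ 2) :
    (∫ x in (-(L / 2))..(L / 2), |V x|) ≤ Real.sqrt L * B := by
  have hsL : 0 < Real.sqrt L := Real.sqrt_pos.2 hL
  -- `|v| ≤ (s v² + 1/s)/2` with `s = √L / B'`
  by_contra hcon
  push Not at hcon
  set K : ℝ := ∫ x in (-(L / 2))..(L / 2), |V x| with hK
  have hK0 : 0 < K := lt_of_le_of_lt (by positivity) hcon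
  have hi1 : IntervalIntegrable (fun x => |V x|) volume (-(L / 2)) (L / 2) := hV.abs.intervalIntegrable _ _
  have hi2 : IntervalIntegrable (fun x => V x ^ 2) volume (-(L / 2)) (L / 2) := (hV.pow 2).intervalIntegrable _ _
  have hi3 : IntervalIntegrable (fun _ : ℝ => (K / L) ^ 2) volume (-(L / 2)) (L / 2) :=
    continuous_const.intervalIntegrable _ _
  have h1 : ∫ x in (-(L / 2))..(L / 2), (2 * (K / L)) * |V x| ≤ ∫ x in (-(L / 2))..(L / 2), (V x ^ 2 + (K / L) ^ 2) := by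
    refine intervalIntegral.integral_mono (by linarith) (hi1.const_mul _) (hi2.add hi3) (fun x => ?_)
    have h2 : (|V x| - K / L) ^ 2 ≥ 0 := sq_nonneg _
    have h3 : |V x| ^ 2 = V x ^ 2 := sq_abs _
    nlinarith
  rw [intervalIntegral.integral_const_mul, intervalIntegral.integral_add hi2 hi3, intervalIntegral.integral_const,
    smul_eq_mul] at h1
  have h4 : (L / 2 - -(L / 2)) * (K / L) ^ 2 = K ^ 2 / L := by
    field_simp
    ring
  rw [h4, ← hK] at h1
  have h5 : 2 * (K / L) * K = 2 * (K ^ 2 / L) := by ring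
  rw [h5] at h1
  have h6 : K ^ 2 / L ≤ B ^ 2 := by linarith
  rw [div_le_iff₀ hL] at h6
  have h7 : (Real.sqrt L * B) ^ 2 = B ^ 2 * L := by
    rw [mul_pow, Real.sq_sqrt hL.le]; ring
  have h8 : K ^ 2 ≤ (Real.sqrt L * B) ^ 2 := by linarith
  have h9 := pow_le_pow_left₀ (by positivity : (0 : ℝ) ≤ Real.sqrt L * B) hcon.le 2
  have h10 : (Real.sqrt L * B) ^ 2 < K ^ 2 := pow_lt_pow_left₀ hcon (by positivity) (by norm_num)
  linarith

set_option maxHeartbeats 4000000 in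
/-- the level ranges, integrated; uniform version without resonances -/
theorem integ2 (hBI : BetaIntStmt) (hFF : FFBoundsStmt) (hNL : NegLayerStmt) (hOM : OffMeasStmt)
    (hOT : OffLtTopStmt) (hOI : OffIntegral0Stmt) (γ : ℝ) (hγ : 1 < γ) :
    ∃ C : ℝ, 0 < C ∧ ∀ (μ : ℝ), 0 < μ → ∀ (B F ε : ℝ), 0 ≤ B → 0 ≤ F → 0 < ε →
      ∃ L0 : ℝ, 0 < L0 ∧ ∀ L : ℝ, L0 ≤ L → ∀ k : ℕ, Real.sqrt μ * L = 2 * Real.pi * (k + 1 / 2) →
        ∀ (V : ℝ → ℝ), Continuous V → HasCompactSupport V → (∫ x, V x ^ 2) ≤ B ^ 2 → (∫ x, FF γ μ (V x)) ≤ F →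
        ∀ (M : ℝ), μ ≤ M → ∀ (G : ℝ → ℝ),
        IntervalIntegrable (fun t : ℝ => t ^ (γ - 2) * G t) volume 0 M → LevelBounds L μ M V G →
        γ * (γ - 1) * ∫ t in (0 : ℝ)..M, t ^ (γ - 2) * G t ≤ C * (∫ x, FF γ μ (V x)) + ε := by
  obtain ⟨β, rfl⟩ : ∃ β, γ = β + 1 := ⟨γ - 1, by ring⟩
  have hβ : 0 < β := by linarith
  obtain ⟨C1, hC1, hBI⟩ := hBI β hβ
  obtain ⟨C2, hC2, hFF⟩ := hFF (β + 1) hγ
  obtain ⟨C3, hC3, hOI⟩ := hOI β hβ
  refine ⟨(β + 1) * β * (C2 * (8 * C1 + 14 / β + 2 * C3)), by positivity, ?_⟩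
  intro μ hμ B F ε hB0 hF0 hε
  have hμβ : 0 < μ ^ β := Real.rpow_pos_of_pos hμ _
  set Lβ : ℝ := β * μ ^ (β - 1) * (1 + 1 / μ) ^ β with hLβ
  have hLβ0 : 0 ≤ Lβ := by
    have := Real.rpow_nonneg hμ.le (β - 1)
    positivity
  set D : ℝ := Lβ * B ^ 2 + C2 * F with hD
  have nD : 0 ≤ D := by positivity
  refine ⟨max (max 1 (1 / √μ)) (max ((32 * (β + 1) * (B * μ ^ β) / ε) ^ 2) (8 * (β + 1) * D / ε)),
    lt_max_of_lt_left (lt_max_of_lt_left one_pos), ?_⟩
  intro L hL k hk V hV hVc hVB hVF M hM G hG hLB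
  have hL1' : 1 ≤ L := (le_max_left _ _).trans ((le_max_left _ _).trans hL)
  have hLμ : 1 / √μ ≤ L := (le_max_right _ _).trans ((le_max_left _ _).trans hL)
  have hLB2 : (32 * (β + 1) * (B * μ ^ β) / ε) ^ 2 ≤ L := (le_max_left _ _).trans ((le_max_right _ _).trans hL)
  have hLD : 8 * (β + 1) * D / ε ≤ L := (le_max_right _ _).trans ((le_max_right _ _).trans hL)
  have hL0 : 0 < L := by linarith
  -- global quantities
  set I : ℝ := ∫ x, FF (β + 1) μ (V x) with hI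
  -- continuity and compact support
  have c1 : Continuous fun x => |V x| := hV.abs
  have cq : Continuous fun x => V x ^ 2 := hV.pow 2
  have cq' : HasCompactSupport fun x => V x ^ 2 := hVc.comp_left (g := fun y : ℝ => y ^ 2) (by simp)
  have c3 : Continuous fun x => (μ + max (-V x) 0) ^ β - μ ^ β :=
    ((continuous_const.add (hV.neg.max continuous_const)).rpow_const
      fun x => Or.inr hβ.le).sub continuous_const
  have c4 : Continuous fun x => (max (-V x) 0) * ((μ + max (-V x) 0) ^ β - μ ^ β) :=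
    (hV.neg.max continuous_const).mul c3
  have c2 : Continuous fun x => (max (-V x) 0) ^ (3 / 2 : ℝ) :=
    (hV.neg.max continuous_const).rpow_const fun x => Or.inr (by norm_num)
  have c5 : Continuous fun x => (max (-V x) 0) ^ (3 / 2 : ℝ) * ((μ + max (-V x) 0) ^ β - μ ^ β) :=
    c2.mul c3
  have c6 : Continuous fun x => FF (β + 1) μ (V x) := by
    unfold FF
    exact ((((continuous_const.sub hV).max continuous_const).rpow_const
      fun x => Or.inr (by positivity)).sub continuous_const).add (continuous_const.mul hV)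
  have c6' : HasCompactSupport fun x => FF (β + 1) μ (V x) :=
    hVc.comp_left (g := fun y : ℝ => FF (β + 1) μ y) (by
      unfold FF
      rw [sub_zero, max_eq_left hμ.le]; ring)
  have c7 : Continuous fun x => V1 μ (V x) := by
    unfold V1; exact continuous_const.max (continuous_const.min hV)
  have c8 : Continuous fun x => V2 μ (V x) := by
    unfold V2; exact (hV.neg.sub continuous_const).max continuous_const
  have c9 : Continuous fun x => V3 μ (V x) := by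
    unfold V3; exact (hV.sub continuous_const).max continuous_const
  have c8' : Continuous fun x => V2 μ (V x) ^ (3 / 2 : ℝ) :=
    c8.rpow_const fun x => Or.inr (by norm_num)
  -- nonnegativity
  have n6 : ∀ x, 0 ≤ FF (β + 1) μ (V x) := fun x => (hFF μ hμ (V x)).1
  have nI : 0 ≤ I := integral_nonneg n6
  have hsμ : 0 < √μ := Real.sqrt_pos.2 hμ
  have hinvL : 1 / L ≤ √μ := by
    rw [div_le_iff₀ hL0]
    rw [div_le_iff₀ hsμ] at hLμ
    linarith
  obtain ⟨hB, hC, hE⟩ := hLB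
  -- exponents
  have e1 : (β + 1 : ℝ) - 2 = β - 1 := by ring
  have e2 : (β + 1 : ℝ) - 1 = β := by ring
  have e3 : (β + 1 : ℝ) - 3 / 2 = β - 1 / 2 := by ring
  have e4 : (β + 1 : ℝ) - 1 / 2 = β + 1 / 2 := by ring
  rw [e1] at hG ⊢
  rw [e2]
  simp only [e2, e3, e4] at hFF
  -- box quantities
  set A1 : ℝ := ∫ x in (-(L / 2))..(L / 2), V1 μ (V x) ^ 2 with hA1
  set A2 : ℝ := ∫ x in (-(L / 2))..(L / 2), V2 μ (V x) ^ (3 / 2 : ℝ) with hA2
  set A3 : ℝ := ∫ x in (-(L / 2))..(L / 2), (V2 μ (V x) + V3 μ (V x)) with hA3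
  set K1 : ℝ := ∫ x in (-(L / 2))..(L / 2), |V x| with hK1
  set KD : ℝ := ∫ x in (-(L / 2))..(L / 2), (max (-V x) 0) * ((μ + max (-V x) 0) ^ β - μ ^ β) with hKD
  set K5 : ℝ := ∫ x in (-(L / 2))..(L / 2),
    (max (-V x) 0) ^ (3 / 2 : ℝ) * ((μ + max (-V x) 0) ^ β - μ ^ β) with hK5
  set KI : ℝ := ∫ x in (-(L / 2))..(L / 2), FF (β + 1) μ (V x) with hKI
  set KQ : ℝ := ∫ x in (-(L / 2))..(L / 2), V x ^ 2 with hKQ
  have b4 : KI ≤ I := integ_box_le_all c6 c6' n6 hL0.le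
  have bQ : KQ ≤ B ^ 2 := (integ_box_le_all cq cq' (fun x => sq_nonneg _) hL0.le).trans hVB
  have b1 : K1 ≤ √L * B := box_cs V hV L B hL0 hB0 bQ
  have b3 : KD ≤ D := by
    have h1 : KD ≤ ∫ x in (-(L / 2))..(L / 2), (Lβ * V x ^ 2 + C2 * FF (β + 1) μ (V x)) := by
      refine intervalIntegral.integral_mono (by linarith) (c4.intervalIntegrable _ _)
        (((continuous_const.mul cq).add (continuous_const.mul c6)).intervalIntegrable _ _) (fun x => ?_)
      dsimp only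
      set y : ℝ := max (-V x) 0 with hy
      have hy0 : 0 ≤ y := le_max_right _ _
      have hyV : y ^ 2 ≤ V x ^ 2 := by
        rw [hy]
        rcases le_total (-V x) 0 with h | h
        · rw [max_eq_right h]; simpa using sq_nonneg (V x)
        · rw [max_eq_left h]; simp
      have hF1 := (hFF μ hμ (V x)).2.2.2.2
      rw [← hy] at hF1
      have hn : 0 ≤ (μ + y) ^ β - μ ^ β := by
        have : μ ^ β ≤ (μ + y) ^ β := Real.rpow_le_rpow hμ.le (by linarith) hβ.le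
        linarith
      rcases le_total y 1 with h | h
      · have h2 := pow_diff β μ y hβ hμ hy0 h
        rw [← hLβ] at h2
        have h3 : y * ((μ + y) ^ β - μ ^ β) ≤ y * (Lβ * y) := mul_le_mul_of_nonneg_left h2 hy0
        have h4 : Lβ * y ^ 2 ≤ Lβ * V x ^ 2 := mul_le_mul_of_nonneg_left hyV hLβ0
        have h5 : 0 ≤ C2 * FF (β + 1) μ (V x) := mul_nonneg hC2.le (n6 x)
        nlinarith
      · have h2 : y ≤ y ^ (3 / 2 : ℝ) := by
          calc y = y ^ (1 : ℝ) := (Real.rpow_one y).symm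
            _ ≤ y ^ (3 / 2 : ℝ) := Real.rpow_le_rpow_of_exponent_le h (by norm_num)
        have h3 : y * ((μ + y) ^ β - μ ^ β) ≤ y ^ (3 / 2 : ℝ) * ((μ + y) ^ β - μ ^ β) :=
          mul_le_mul_of_nonneg_right h2 hn
        have h4 : 0 ≤ Lβ * V x ^ 2 := by positivity
        linarith
    have h2 : (∫ x in (-(L / 2))..(L / 2), (Lβ * V x ^ 2 + C2 * FF (β + 1) μ (V x))) = Lβ * KQ + C2 * KI := by
      have j1 : IntervalIntegrable (fun x => Lβ * V x ^ 2) volume (-(L / 2)) (L / 2) :=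
        (continuous_const.mul cq).intervalIntegrable _ _
      have j2 : IntervalIntegrable (fun x => C2 * FF (β + 1) μ (V x)) volume (-(L / 2)) (L / 2) :=
        (continuous_const.mul c6).intervalIntegrable _ _
      rw [intervalIntegral.integral_add j1 j2, intervalIntegral.integral_const_mul,
        intervalIntegral.integral_const_mul]
    rw [h2] at h1
    have h3 : Lβ * KQ ≤ Lβ * B ^ 2 := mul_le_mul_of_nonneg_left bQ hLβ0
    have h4 : C2 * KI ≤ C2 * F := mul_le_mul_of_nonneg_left (b4.trans hVF) hC2.le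
    linarith
  have nA1 : 0 ≤ A1 := integ_box_nonneg (fun x => sq_nonneg _) hL0.le
  have nA2 : 0 ≤ A2 := integ_box_nonneg (fun x => Real.rpow_nonneg (le_max_right _ _) _) hL0.le
  have nA3 : 0 ≤ A3 := integ_box_nonneg
    (fun x => add_nonneg (le_max_right _ _) (le_max_right _ _)) hL0.le
  have nK1 : 0 ≤ K1 := integ_box_nonneg (fun x => abs_nonneg _) hL0.le
  have nKI : 0 ≤ KI := integ_box_nonneg n6 hL0.le
  have f1 : μ ^ (β - 1 / 2) * A1 ≤ C2 * I :=
    (integ_box_mono (c7.pow 2) c6 (μ ^ (β - 1 / 2)) C2 hL0.le fun x => (hFF μ hμ (V x)).2.1).trans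
      (mul_le_mul_of_nonneg_left b4 hC2.le)
  have f2 : μ ^ β * A2 ≤ C2 * I :=
    (integ_box_mono c8' c6 (μ ^ β) C2 hL0.le fun x => (hFF μ hμ (V x)).2.2.1).trans
      (mul_le_mul_of_nonneg_left b4 hC2.le)
  have f3 : μ ^ (β + 1 / 2) * A3 ≤ C2 * I :=
    (integ_box_mono (c8.add c9) c6 (μ ^ (β + 1 / 2)) C2 hL0.le
      fun x => (hFF μ hμ (V x)).2.2.2.1).trans (mul_le_mul_of_nonneg_left b4 hC2.le)
  have f5 : 1 * K5 ≤ C2 * I :=
    (integ_box_mono c5 c6 1 C2 hL0.le fun x => by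
      rw [one_mul]; exact (hFF μ hμ (V x)).2.2.2.2).trans (mul_le_mul_of_nonneg_left b4 hC2.le)
  -- splitting
  have hμM : (0 : ℝ) ≤ M := hμ.le.trans hM
  have hG2 : IntervalIntegrable (fun t : ℝ => t ^ (β - 1) * G t) volume 0 μ :=
    hG.mono_set (by
      rw [uIcc_of_le hμ.le, uIcc_of_le hμM]; exact Icc_subset_Icc le_rfl hM)
  have hG3 : IntervalIntegrable (fun t : ℝ => t ^ (β - 1) * G t) volume μ M :=
    hG.mono_set (by
      rw [uIcc_of_le hM, uIcc_of_le hμM]; exact Icc_subset_Icc hμ.le le_rfl)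
  have hsplit : ∫ t in (0 : ℝ)..M, t ^ (β - 1) * G t =
      (∫ t in (0 : ℝ)..μ, t ^ (β - 1) * G t) + ∫ t in μ..M, t ^ (β - 1) * G t := by
    rw [intervalIntegral.integral_add_adjacent_intervals hG2 hG3]
  have hpi : 1 ≤ Real.pi := by linarith [Real.pi_gt_three]
  have hsq : ∀ t : ℝ, 0 < t → √(μ - t) / Real.pi ≤ √μ := fun t ht =>
    (div_le_self (Real.sqrt_nonneg _) hpi).trans (Real.sqrt_le_sqrt (by linarith))
  -- first range
  obtain ⟨hBI1, hBI2⟩ := hBI μ hμ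
  obtain ⟨ho1, ho2⟩ := integ_off0 hOM hOT β C3 μ L hL0 hμ hC3.le (fun x => V1 μ (V x)) c7
    (hOI μ L hμ hL0 k hk (fun x => V1 μ (V x)) c7)
  have hr2 := integ_r20 β hβ μ hμ C1 (8 * A1) (11 * A2 + 2 * √μ * A3 + 8 * K1 * (1 / L))
    (by positivity) (by positivity) hBI1 hBI2
    (fun t => (offE L (fun x => V1 μ (V x)) (μ - t)).toReal) ho1 G hG2 (fun t ht => by
      have ht0 : 0 < t := ht.1
      refine (hC t ht0 ht.2).trans ?_
      have h1 : √(μ - t) / Real.pi + 1 / L ≤ 2 * √μ := by linarith [hsq t ht0]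
      have h2 : (√(μ - t) / Real.pi + 1 / L) * A3 ≤ 2 * √μ * A3 :=
        mul_le_mul_of_nonneg_right h1 nA3
      have h3 : 8 / L * K1 = 8 * K1 * (1 / L) := by ring
      have h4 : 8 / √(μ - t) * A1 = 8 * A1 * (1 / √(μ - t)) := by ring
      linarith)
  -- third range
  have hr3 := integ_r3 hNL β hβ μ M L hμ hM hL0 V hV G hG3 hE
  -- final assembly
  have hsqrt : μ ^ (β + 1 / 2) = √μ * μ ^ β := by
    rw [Real.rpow_add hμ, Real.sqrt_eq_rpow, mul_comm]
  rw [hsqrt] at f3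
  have t2 : ∫ t in (0 : ℝ)..μ, t ^ (β - 1) * G t ≤
      (8 * C1 + 13 / β + 2 * C3) * (C2 * I) + 8 * K1 * μ ^ β * (1 / L) / β := by
    have g1 : 8 * A1 * (C1 * μ ^ (β - 1 / 2)) ≤ 8 * C1 * (C2 * I) := by
      have : 8 * A1 * (C1 * μ ^ (β - 1 / 2)) = 8 * C1 * (μ ^ (β - 1 / 2) * A1) := by ring
      rw [this]
      exact mul_le_mul_of_nonneg_left f1 (by positivity)
    have g2 : (11 * A2 + 2 * √μ * A3 + 8 * K1 * (1 / L)) * (μ ^ β / β) ≤
        13 / β * (C2 * I) + 8 * K1 * μ ^ β * (1 / L) / β := by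
      have : (11 * A2 + 2 * √μ * A3 + 8 * K1 * (1 / L)) * (μ ^ β / β) =
        11 / β * (μ ^ β * A2) + 2 / β * (√μ * μ ^ β * A3) + 8 * K1 * μ ^ β * (1 / L) / β := by ring
      rw [this]
      have g3 := mul_le_mul_of_nonneg_left f2 (show 0 ≤ 11 / β by positivity)
      have g4 := mul_le_mul_of_nonneg_left f3 (show 0 ≤ 2 / β by positivity)
      have g5 : 13 / β * (C2 * I) = 11 / β * (C2 * I) + 2 / β * (C2 * I) := by ring
      linarith
    have g6 : 2 * (∫ t in (0 : ℝ)..μ, t ^ (β - 1) * (offE L (fun x => V1 μ (V x)) (μ - t)).toReal) ≤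
        2 * C3 * (C2 * I) := by
      have : C3 * μ ^ (β - 1 / 2) * A1 ≤ C3 * (C2 * I) := by
        rw [mul_assoc]; exact mul_le_mul_of_nonneg_left f1 hC3.le
      linarith
    linarith
  have t3 : ∫ t in μ..M, t ^ (β - 1) * G t ≤ 1 / β * (C2 * I) + 2 * D * (1 / L) / β := by
    have g1 := mul_le_mul_of_nonneg_left f5 (show 0 ≤ 1 / β by positivity)
    have g2 : 2 / L * (1 / β * KD) ≤ 2 * D * (1 / L) / β := by
      have : 2 / L * (1 / β * KD) = 2 * (1 / L) * (1 / β) * KD := by ring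
      rw [this]
      have g3 := mul_le_mul_of_nonneg_left b3 (show 0 ≤ 2 * (1 / L) * (1 / β) by positivity)
      have g4 : 2 * (1 / L) * (1 / β) * D = 2 * D * (1 / L) / β := by ring
      linarith
    linarith
  have hfin : ∫ t in (0 : ℝ)..M, t ^ (β - 1) * G t ≤
      C2 * (8 * C1 + 14 / β + 2 * C3) * I + ((8 * K1 * μ ^ β + 2 * D) * (1 / L)) / β := by
    rw [hsplit]
    have : C2 * (8 * C1 + 14 / β + 2 * C3) * I + ((8 * K1 * μ ^ β + 2 * D) * (1 / L)) / β
      = ((8 * C1 + 13 / β + 2 * C3) * (C2 * I) + 8 * K1 * μ ^ β * (1 / L) / β)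
        + (1 / β * (C2 * I) + 2 * D * (1 / L) / β) := by ring
    rw [this]
    linarith
  -- the error
  have herr : (β + 1) * ((8 * K1 * μ ^ β + 2 * D) * (1 / L)) ≤ ε := by
    have hsL : 0 < √L := Real.sqrt_pos.2 hL0
    have hLs : √L * √L = L := Real.mul_self_sqrt hL0.le
    have h1 : (β + 1) * (8 * K1 * μ ^ β * (1 / L)) ≤ ε / 2 := by
      have h2 : 32 * (β + 1) * (B * μ ^ β) / ε ≤ √L := by
        apply Real.le_sqrt_of_sq_le hLB2
      rw [div_le_iff₀ hε] at h2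
      have h3 : (β + 1) * (8 * K1 * μ ^ β * (1 / L)) ≤ (β + 1) * (8 * (√L * B) * μ ^ β * (1 / L)) := by
        gcongr
      refine h3.trans ?_
      have h4 : (β + 1) * (8 * (√L * B) * μ ^ β * (1 / L)) = (8 * (β + 1) * (B * μ ^ β)) / √L := by
        rw [div_eq_mul_one_div _ (√L)]
        have : √L * (1 / L) = 1 / √L := by
          rw [mul_one_div, div_eq_div_iff hL0.ne' hsL.ne', one_mul, hLs]
        calc (β + 1) * (8 * (√L * B) * μ ^ β * (1 / L)) = 8 * (β + 1) * (B * μ ^ β) * (√L * (1 / L)) := by ring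
          _ = _ := by rw [this]
      rw [h4, div_le_iff₀ hsL]
      have h5 : 0 ≤ (β + 1) * (B * μ ^ β) := by positivity
      linarith
    have h2 : (β + 1) * (2 * D * (1 / L)) ≤ ε / 2 := by
      rw [div_le_iff₀ hε] at hLD
      have h3 : (β + 1) * (2 * D * (1 / L)) = (2 * (β + 1) * D) / L := by ring
      rw [h3, div_le_iff₀ hL0]
      have h5 : 0 ≤ (β + 1) * D := by positivity
      linarith
    calc (β + 1) * ((8 * K1 * μ ^ β + 2 * D) * (1 / L))
        = (β + 1) * (8 * K1 * μ ^ β * (1 / L)) + (β + 1) * (2 * D * (1 / L)) := by ring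
      _ ≤ ε := by linarith
  calc (β + 1) * β * ∫ t in (0 : ℝ)..M, t ^ (β - 1) * G t
      ≤ (β + 1) * β * (C2 * (8 * C1 + 14 / β + 2 * C3) * I
          + ((8 * K1 * μ ^ β + 2 * D) * (1 / L)) / β) :=
        mul_le_mul_of_nonneg_left hfin (by positivity)
    _ = (β + 1) * β * (C2 * (8 * C1 + 14 / β + 2 * C3)) * I
          + (β + 1) * ((8 * K1 * μ ^ β + 2 * D) * (1 / L)) := by
        rw [integ_aux _ _ _ hβ.ne']; ring
    _ ≤ (β + 1) * β * (C2 * (8 * C1 + 14 / β + 2 * C3)) * I + ε := by linarith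

end Pool.Agent.Helper209.PL.Integ2
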