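import Pool.Agent.Helper209.PL.Defs

set_option autoImplicit false

namespace Pool.Agent.Helper209.PL.Layer

open MeasureTheory Set
open scoped SchwartzMap InnerProductSpace FourierTransform



/-- layer cake for `x_+^{β+1}` -/
theorem layer_pos (β : ℝ) (hβ : 0 < β) (x M : ℝ) (hM : 0 ≤ M) (hxM : x ≤ M) :
    IntervalIntegrable (fun t : ℝ => t ^ (β - 1) * max (x - t) 0) volume 0 M ∧
    ∫ t in (0 : ℝ)..M, t ^ (β - 1) * max (x - t) 0 = (max x 0) ^ (β + 1) / (β * (β + 1)) := by
  have hrp : ∀ a b : ℝ, IntervalIntegrable (fun t : ℝ => t ^ (β - 1)) volume a b := fun a b =>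
    intervalIntegral.intervalIntegrable_rpow' (by linarith)
  have hii : ∀ a b : ℝ, IntervalIntegrable (fun t : ℝ => t ^ (β - 1) * max (x - t) 0) volume a b :=
    fun a b => (hrp a b).mul_continuousOn (by fun_prop)
  refine ⟨hii 0 M, ?_⟩
  rcases le_or_gt x 0 with hx | hx
  · have h1 : ∫ t in (0 : ℝ)..M, t ^ (β - 1) * max (x - t) 0 = ∫ t in (0 : ℝ)..M, (0 : ℝ) := by
      refine intervalIntegral.integral_congr fun t ht => ?_
      rw [uIcc_of_le hM] at ht
      show t ^ (β - 1) * max (x - t) 0 = 0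
      rw [max_eq_right (by linarith [ht.1]), mul_zero]
    rw [h1, intervalIntegral.integral_zero, max_eq_right hx, Real.zero_rpow (by linarith), zero_div]
  · rw [← intervalIntegral.integral_add_adjacent_intervals (hii 0 x) (hii x M)]
    have h2 : ∫ t in x..M, t ^ (β - 1) * max (x - t) 0 = 0 := by
      have h1 : ∫ t in x..M, t ^ (β - 1) * max (x - t) 0 = ∫ t in x..M, (0 : ℝ) := by
        refine intervalIntegral.integral_congr fun t ht => ?_
        rw [uIcc_of_le hxM] at ht
        show t ^ (β - 1) * max (x - t) 0 = 0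
        rw [max_eq_right (by linarith [ht.1]), mul_zero]
      rw [h1, intervalIntegral.integral_zero]
    have h3 : ∫ t in (0 : ℝ)..x, t ^ (β - 1) * max (x - t) 0 =
        ∫ t in (0 : ℝ)..x, (x * t ^ (β - 1) - t ^ β) := by
      refine intervalIntegral.integral_congr_ae ?_
      filter_upwards with t ht
      rw [uIoc_of_le hx.le] at ht
      rw [max_eq_left (by linarith [ht.2])]
      have e1 : t ^ β = t ^ (β - 1) * t := by
        rw [← Real.rpow_add_one ht.1.ne']; congr 1; ring
      rw [e1]; ring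
    have hrb : IntervalIntegrable (fun t : ℝ => t ^ β) volume 0 x :=
      intervalIntegral.intervalIntegrable_rpow' (by linarith)
    rw [h2, h3, add_zero, intervalIntegral.integral_sub ((hrp 0 x).const_mul x) hrb,
      intervalIntegral.integral_const_mul, integral_rpow (Or.inl (by linarith)),
      integral_rpow (Or.inl (by linarith)), sub_add_cancel, Real.zero_rpow hβ.ne',
      Real.zero_rpow (by linarith), sub_zero, sub_zero, max_eq_left hx.le]
    have e1 : x ^ (β + 1) = x ^ β * x := Real.rpow_add_one hx.ne' β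
    rw [e1]
    have : β + 1 ≠ 0 := by linarith
    field_simp
    ring

/-- layer cake for `x_+^β` -/
theorem layer_count (β : ℝ) (hβ : 0 < β) (x M : ℝ) (hM : 0 ≤ M) (hxM : x ≤ M) :
    IntervalIntegrable (fun t : ℝ => t ^ (β - 1) * (if t < x then (1 : ℝ) else 0)) volume 0 M ∧
    ∫ t in (0 : ℝ)..M, t ^ (β - 1) * (if t < x then (1 : ℝ) else 0) = (max x 0) ^ β / β := by
  have hrp : ∀ a b : ℝ, IntervalIntegrable (fun t : ℝ => t ^ (β - 1)) volume a b := fun a b =>
    intervalIntegral.intervalIntegrable_rpow' (by linarith)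
  have hii : ∀ a b : ℝ, IntervalIntegrable
      (fun t : ℝ => t ^ (β - 1) * (if t < x then (1 : ℝ) else 0)) volume a b := by
    intro a b
    have e : (fun t : ℝ => t ^ (β - 1) * (if t < x then (1 : ℝ) else 0)) =
        (Iio x).indicator (fun t : ℝ => t ^ (β - 1)) := by
      ext t
      by_cases ht : t < x
      · rw [indicator_of_mem (show t ∈ Iio x from ht), if_pos ht, mul_one]
      · rw [indicator_of_notMem (show t ∉ Iio x from ht), if_neg ht, mul_zero]
    rw [e, intervalIntegrable_iff]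
    exact ((intervalIntegrable_iff.1 (hrp a b)).indicator measurableSet_Iio)
  refine ⟨hii 0 M, ?_⟩
  rcases le_or_gt x 0 with hx | hx
  · have h1 : ∫ t in (0 : ℝ)..M, t ^ (β - 1) * (if t < x then (1 : ℝ) else 0) =
        ∫ t in (0 : ℝ)..M, (0 : ℝ) := by
      refine intervalIntegral.integral_congr fun t ht => ?_
      rw [uIcc_of_le hM] at ht
      show t ^ (β - 1) * (if t < x then (1 : ℝ) else 0) = 0
      rw [if_neg (by linarith [ht.1]), mul_zero]
    rw [h1, intervalIntegral.integral_zero, max_eq_right hx, Real.zero_rpow hβ.ne', zero_div]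
  · rw [← intervalIntegral.integral_add_adjacent_intervals (hii 0 x) (hii x M)]
    have h2 : ∫ t in x..M, t ^ (β - 1) * (if t < x then (1 : ℝ) else 0) = 0 := by
      have h1 : ∫ t in x..M, t ^ (β - 1) * (if t < x then (1 : ℝ) else 0) =
          ∫ t in x..M, (0 : ℝ) := by
        refine intervalIntegral.integral_congr fun t ht => ?_
        rw [uIcc_of_le hxM] at ht
        show t ^ (β - 1) * (if t < x then (1 : ℝ) else 0) = 0
        rw [if_neg (by linarith [ht.1]), mul_zero]
      rw [h1, intervalIntegral.integral_zero]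
    have h3 : ∫ t in (0 : ℝ)..x, t ^ (β - 1) * (if t < x then (1 : ℝ) else 0) =
        ∫ t in (0 : ℝ)..x, t ^ (β - 1) := by
      refine intervalIntegral.integral_congr_ae ?_
      have hne : ∀ᵐ t : ℝ, t ≠ x := by
        rw [ae_iff]
        simp
      filter_upwards [hne] with t htx ht
      rw [uIoc_of_le hx.le] at ht
      rw [if_pos (lt_of_le_of_ne ht.2 htx), mul_one]
    rw [h2, h3, add_zero, integral_rpow (Or.inl (by linarith)), sub_add_cancel,
      Real.zero_rpow hβ.ne', sub_zero, max_eq_left hx.le]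

/-- scaling of a Beta integral -/
theorem beta_int (β : ℝ) (hβ : 0 < β) : ∃ C : ℝ, 0 < C ∧ ∀ μ : ℝ, 0 < μ →
    IntervalIntegrable (fun t : ℝ => t ^ (β - 1) * (1 / Real.sqrt (μ - t))) volume 0 μ ∧
    ∫ t in (0 : ℝ)..μ, t ^ (β - 1) * (1 / Real.sqrt (μ - t)) ≤ C * μ ^ (β - 1 / 2) := by
  set f : ℝ → ℝ := fun s => s ^ (β - 1) * (1 / Real.sqrt (1 - s)) with hf
  have hfi : IntervalIntegrable f volume 0 1 := by
    have h1 := Complex.betaIntegral_convergent (u := (β : ℂ)) (v := ((1 / 2 : ℝ) : ℂ))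
      (by simpa using hβ) (by norm_num)
    have h2 := h1.norm
    refine h2.congr_ae ?_
    have hne : ∀ᵐ t : ℝ ∂(volume.restrict (uIoc 0 1)), t ≠ 1 := by
      refine ae_restrict_of_ae ?_
      rw [ae_iff]
      simp
    filter_upwards [hne, ae_restrict_mem measurableSet_uIoc] with t ht1 ht
    rw [uIoc_of_le zero_le_one] at ht
    have ht2 : 0 < 1 - t := by
      have := lt_of_le_of_ne ht.2 ht1
      linarith
    rw [norm_mul]
    have e1 : ‖(t : ℂ) ^ ((β : ℂ) - 1)‖ = t ^ (β - 1) := by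
      rw [Complex.norm_cpow_eq_rpow_re_of_pos ht.1]
      simp
    have e2 : ‖(1 - (t : ℂ)) ^ (((1 / 2 : ℝ) : ℂ) - 1)‖ = 1 / Real.sqrt (1 - t) := by
      rw [show (1 - (t : ℂ)) = ((1 - t : ℝ) : ℂ) by push_cast; ring,
        Complex.norm_cpow_eq_rpow_re_of_pos ht2]
      rw [show ((((1 / 2 : ℝ) : ℂ) - 1).re) = -(1 / 2 : ℝ) by
        rw [Complex.sub_re, Complex.ofReal_re, Complex.one_re]; norm_num]
      rw [Real.rpow_neg ht2.le, Real.sqrt_eq_rpow, one_div ((1 - t) ^ (1 / 2 : ℝ))]
    rw [e1, e2]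
  have hB : 0 ≤ ∫ s in (0 : ℝ)..1, f s := by
    refine intervalIntegral.integral_nonneg zero_le_one fun s hs => ?_
    have := Real.rpow_nonneg hs.1 (β - 1)
    positivity
  refine ⟨(∫ s in (0 : ℝ)..1, f s) + 1, by linarith, fun μ hμ => ?_⟩
  have hfun : ∀ t : ℝ, 0 ≤ t → t ^ (β - 1) * (1 / Real.sqrt (μ - t)) =
      (μ ^ (β - 1) * (1 / Real.sqrt μ)) * f (μ⁻¹ * t) := by
    intro t ht
    have e1 : t ^ (β - 1) = μ ^ (β - 1) * (μ⁻¹ * t) ^ (β - 1) := by
      rw [← Real.mul_rpow hμ.le (by positivity)]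
      congr 1
      field_simp
    have e2 : Real.sqrt (μ - t) = Real.sqrt μ * Real.sqrt (1 - μ⁻¹ * t) := by
      rw [← Real.sqrt_mul hμ.le]
      congr 1
      field_simp
    simp only [hf]
    rw [e1, e2]
    ring
  have hint : IntervalIntegrable (fun t => f (μ⁻¹ * t)) volume 0 μ := by
    have := hfi.comp_mul_left (c := μ⁻¹)
    simpa using this
  have hcong : ∀ᵐ t : ℝ, t ∈ uIoc 0 μ → (μ ^ (β - 1) * (1 / Real.sqrt μ)) * f (μ⁻¹ * t) =
      t ^ (β - 1) * (1 / Real.sqrt (μ - t)) := by
    filter_upwards with t ht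
    rw [uIoc_of_le hμ.le] at ht
    exact (hfun t ht.1.le).symm
  constructor
  · refine (hint.const_mul (μ ^ (β - 1) * (1 / Real.sqrt μ))).congr_ae ?_
    exact (ae_restrict_iff' measurableSet_uIoc).2 hcong
  · rw [← intervalIntegral.integral_congr_ae hcong, intervalIntegral.integral_const_mul]
    have e1 : ∫ t in (0 : ℝ)..μ, f (μ⁻¹ * t) = μ * ∫ s in (0 : ℝ)..1, f s := by
      rw [intervalIntegral.integral_comp_mul_left f (inv_ne_zero hμ.ne')]
      simp [hμ.ne']
    rw [e1]
    have e2 : μ ^ (β - 1) * (1 / Real.sqrt μ) * μ = μ ^ (β - 1 / 2) := by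
      rw [Real.sqrt_eq_rpow, one_div, ← Real.rpow_neg hμ.le]
      nth_rewrite 3 [← Real.rpow_one μ]
      rw [← Real.rpow_add hμ, ← Real.rpow_add hμ]
      congr 1
      ring
    calc μ ^ (β - 1) * (1 / Real.sqrt μ) * (μ * ∫ s in (0 : ℝ)..1, f s)
        = (μ ^ (β - 1) * (1 / Real.sqrt μ) * μ) * ∫ s in (0 : ℝ)..1, f s := by ring
      _ = μ ^ (β - 1 / 2) * ∫ s in (0 : ℝ)..1, f s := by rw [e2]
      _ ≤ ((∫ s in (0 : ℝ)..1, f s) + 1) * μ ^ (β - 1 / 2) := by
          have : 0 < μ ^ (β - 1 / 2) := Real.rpow_pos_of_pos hμ _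
          nlinarith

lemma rpow_diff (β : ℝ) (hβ : 0 < β) {x y : ℝ} (hx : 0 < x) (hy : 0 ≤ y) (hyx : y ≤ x) :
    x ^ β - y ^ β ≤ (β + 1) * ((x - y) * x ^ (β - 1)) := by
  have hxb : 0 < x ^ (β - 1) := Real.rpow_pos_of_pos hx _
  have e1 : x ^ β = x ^ (β - 1) * x := by
    rw [← Real.rpow_add_one hx.ne']; congr 1; ring
  rcases le_or_gt 1 β with h1 | h1
  · have hb := one_add_mul_self_le_rpow_one_add (s := y / x - 1)
      (by have := div_nonneg hy hx.le; linarith) h1
    rw [add_sub_cancel, Real.div_rpow hy hx.le] at hb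
    have hxβ : 0 < x ^ β := Real.rpow_pos_of_pos hx _
    have h2 : (1 + β * (y / x - 1)) * x ^ β ≤ y ^ β := by
      rwa [le_div_iff₀ hxβ] at hb
    have h3 : (1 + β * (y / x - 1)) * x ^ β = x ^ β - β * ((x - y) * x ^ (β - 1)) := by
      rw [e1]
      field_simp
      ring
    rw [h3] at h2
    have h4 : 0 ≤ (x - y) * x ^ (β - 1) := mul_nonneg (by linarith) hxb.le
    nlinarith
  · have h2 : y * x ^ (β - 1) ≤ y ^ β := by
      rcases eq_or_lt_of_le hy with h0 | h0
      · rw [← h0, zero_mul, Real.zero_rpow hβ.ne']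
      · have e2 : y ^ β = y ^ (β - 1) * y := by
          rw [← Real.rpow_add_one h0.ne']; congr 1; ring
        rw [e2, mul_comm]
        exact mul_le_mul_of_nonneg_right
          (Real.rpow_le_rpow_of_nonpos h0 hyx (by linarith)) hy
    have h4 : 0 ≤ (x - y) * x ^ (β - 1) := mul_nonneg (by linarith) hxb.le
    nlinarith

/-- weight of a pair of levels -/
theorem wbound (β : ℝ) (hβ : 0 < β) (μ δ a b : ℝ) (hδ : 0 < δ) (hδμ : δ < μ) (hab : a < b) :
    ∫⁻ t in Ioo δ μ, ENNReal.ofReal (if a < μ - t ∧ μ - t ≤ b then t ^ (β - 1) else 0)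
      ≤ ENNReal.ofReal (if a < μ - δ then (1 + 1 / β) * ((b - a) * (μ - a) ^ (β - 1)) else 0) := by
  by_cases ha : a < μ - δ
  · rw [if_pos ha]
    set x := μ - a with hx
    set y := max (μ - b) 0 with hy
    have hx0 : 0 < x := by rw [hx]; linarith
    have hy0 : 0 ≤ y := le_max_right _ _
    have hyx : y ≤ x := max_le (by rw [hx]; linarith) hx0.le
    have hxy : x - y ≤ b - a := by
      have := le_max_left (μ - b) 0
      rw [hx]; linarith
    calc ∫⁻ t in Ioo δ μ, ENNReal.ofReal (if a < μ - t ∧ μ - t ≤ b then t ^ (β - 1) else 0)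
        ≤ ∫⁻ t in Ioo δ μ, (Ico y x).indicator (fun t => ENNReal.ofReal (t ^ (β - 1))) t := by
          refine setLIntegral_mono' measurableSet_Ioo fun t ht => ?_
          by_cases hc : a < μ - t ∧ μ - t ≤ b
          · have hmem : t ∈ Ico y x := ⟨max_le (by linarith [hc.2]) (by linarith [ht.1]),
              by rw [hx]; linarith [hc.1]⟩
            rw [if_pos hc, indicator_of_mem hmem]
          · rw [if_neg hc, ENNReal.ofReal_zero]
            exact zero_le
      _ ≤ ∫⁻ t, (Ico y x).indicator (fun t => ENNReal.ofReal (t ^ (β - 1))) t :=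
          setLIntegral_le_lintegral _ _
      _ = ∫⁻ t in Ico y x, ENNReal.ofReal (t ^ (β - 1)) := lintegral_indicator measurableSet_Ico _
      _ = ENNReal.ofReal (∫ t in Ico y x, t ^ (β - 1)) := by
          refine (ofReal_integral_eq_lintegral_ofReal ?_ ?_).symm
          · have := intervalIntegral.intervalIntegrable_rpow' (a := y) (b := x) (r := β - 1)
              (by linarith)
            rw [intervalIntegrable_iff_integrableOn_Ico_of_le hyx] at this
            exact this
          · filter_upwards [ae_restrict_mem measurableSet_Ico] with t ht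
            exact Real.rpow_nonneg (hy0.trans ht.1) _
      _ = ENNReal.ofReal ((x ^ β - y ^ β) / β) := by
          congr 1
          rw [integral_Ico_eq_integral_Ioc, ← intervalIntegral.integral_of_le hyx,
            integral_rpow (Or.inl (by linarith)), sub_add_cancel]
      _ ≤ _ := by
          refine ENNReal.ofReal_le_ofReal ?_
          have h1 := rpow_diff β hβ hx0 hy0 hyx
          have hxb : 0 < x ^ (β - 1) := Real.rpow_pos_of_pos hx0 _
          have h2 : (x - y) * x ^ (β - 1) ≤ (b - a) * x ^ (β - 1) :=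
            mul_le_mul_of_nonneg_right hxy hxb.le
          rw [div_le_iff₀ hβ]
          calc x ^ β - y ^ β ≤ (β + 1) * ((x - y) * x ^ (β - 1)) := h1
            _ ≤ (β + 1) * ((b - a) * x ^ (β - 1)) :=
                mul_le_mul_of_nonneg_left h2 (by linarith)
            _ = _ := by field_simp
  · rw [if_neg ha, ENNReal.ofReal_zero]
    refine le_of_eq ?_
    rw [setLIntegral_congr_fun (g := fun _ => 0) measurableSet_Ioo ?_, lintegral_zero]
    intro t ht
    show ENNReal.ofReal (if a < μ - t ∧ μ - t ≤ b then t ^ (β - 1) else 0) = 0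
    rw [if_neg, ENNReal.ofReal_zero]
    rintro ⟨h1, _⟩
    apply ha
    linarith [ht.1]

end Pool.Agent.Helper209.PL.Layer
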