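import Pool.Agent.Helper209.PL.Defs

set_option autoImplicit false

namespace Pool.Agent.Helper209.PL.LineApprox

open MeasureTheory Set
open scoped SchwartzMap InnerProductSpace FourierTransform




section WStmts
/-- the following statements are proved elsewhere; use them as hypotheses -/
def DenseRangeStmt : Prop := ∀ (V : ℝ → ℝ), Continuous V → ∀ (b c : ℝ), (∀ x, |V x| ≤ b) → b < c →
    ∀ (f : L2R) (ε : ℝ), 0 < ε → ∃ (χ : 𝓢(ℝ, ℂ)) (w : L2R),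
      (w : ℝ → ℂ) =ᵐ[volume] (fun x => -(deriv (deriv (χ : ℝ → ℂ)) x) + ((V x + c : ℝ) : ℂ) * χ x) ∧
      ‖w - f‖ < ε

def CutoffFactsStmt : Prop := ∀ (ρ : ℝ), 0 < ρ →
    ContDiff ℝ 2 (cutoff ρ) ∧ ContDiff ℝ 2 (cocut ρ) ∧ HasCompactSupport (cutoff ρ) ∧
    (∀ x, 0 ≤ cutoff ρ x ∧ cutoff ρ x ≤ 1) ∧ (∀ x, 0 ≤ cocut ρ x ∧ cocut ρ x ≤ 1) ∧
    (∀ x, cutoff ρ x ^ 2 + cocut ρ x ^ 2 = 1) ∧
    (∀ x, |x| ≤ ρ → cutoff ρ x = 1 ∧ cocut ρ x = 0) ∧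
    (∀ x, 2 * ρ ≤ |x| → cutoff ρ x = 0 ∧ cocut ρ x = 1)

def ImsStmt : Prop := ∀ (θ : ℝ → ℝ), ContDiff ℝ 2 θ → HasCompactSupport θ → ∀ (V : ℝ → ℝ), Continuous V →
    ∀ (χ : 𝓢(ℝ, ℂ)),
    (∫ x, (‖deriv (fun y : ℝ => (θ y : ℂ) * χ y) x‖ ^ 2 + V x * ‖(θ x : ℂ) * χ x‖ ^ 2))
      = (∫ x, θ x ^ 2 * ((starRingEnd ℂ) (χ x) * (-(deriv (deriv (χ : ℝ → ℂ)) x) + (V x : ℂ) * χ x)).re)
        + ∫ x, deriv θ x ^ 2 * ‖χ x‖ ^ 2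

/-- sup-norm property with constant `K` -/
def SupProp (V : ℝ → ℝ) (c K : ℝ) : Prop := ∀ (χ : 𝓢(ℝ, ℂ)) (w : L2R),
      (w : ℝ → ℂ) =ᵐ[volume] (fun x => -(deriv (deriv (χ : ℝ → ℂ)) x) + ((V x + c : ℝ) : ℂ) * χ x) →
      ∀ x : ℝ, ‖χ x‖ ≤ K * ‖w‖

def SupFamilyStmt : Prop := ∀ (V : ℝ → ℝ), Continuous V → ∀ (c K : ℝ), 0 < K → SupProp V c K →
    ∀ {ι : Type} [Fintype ι] (χ : ι → 𝓢(ℝ, ℂ)) (w : ι → L2R),
    (∀ j, (w j : ℝ → ℂ) =ᵐ[volume]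
      (fun x => -(deriv (deriv (χ j : ℝ → ℂ)) x) + ((V x + c : ℝ) : ℂ) * χ j x)) →
    ∀ (Λ : ℝ), 0 ≤ Λ → (∀ α : ι → ℂ, ‖∑ j, α j • w j‖ ^ 2 ≤ Λ * ∑ j, ‖α j‖ ^ 2) → ∀ (x : ℝ),
    ∑ j, ‖χ j x‖ ^ 2 ≤ K ^ 2 * Λ

def ResLocalStmt : Prop := ∀ (V : ℝ → ℝ), Continuous V → ∀ (b c : ℝ), (∀ x, |V x| ≤ b) → b < c → ∀ (K : ℝ),
    0 < K → SupProp V c K → ∀ (R : L2R →L[ℂ] L2R), IsResolvent V c R → ∀ (θ : ℝ → ℝ), Continuous θ →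
    HasCompactSupport θ → ∀ (Θ : L2R →L[ℂ] L2R), IsMul θ Θ → ∀ (B : L2R →L[ℂ] L2R) (e : HilbertBasis ℕ ℂ L2R)
    (J : Finset ℕ), ∑ j ∈ J, ‖Θ (R (B (e j)))‖ ^ 2 ≤ K ^ 2 * ‖B‖ ^ 2 * ∫ x, θ x ^ 2

def HsCyclicStmt : Prop := ∀ {H : Type} [NormedAddCommGroup H] [InnerProductSpace ℂ H] [CompleteSpace H]
    (b : HilbertBasis ℕ ℂ H) (X Y : H →L[ℂ] H), Summable (fun i => ‖X (b i)‖ ^ 2) →
    Summable (fun i => ‖Y (b i)‖ ^ 2) →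
    Summable (fun j => ⟪Y (b j), X (b j)⟫_ℂ) ∧
    HasSum (fun i => ⟪ContinuousLinearMap.adjoint X (b i), ContinuousLinearMap.adjoint Y (b i)⟫_ℂ)
      (∑' j, ⟪Y (b j), X (b j)⟫_ℂ)

def LevelFactorStmt : Prop := ∀ {H : Type} [NormedAddCommGroup H] [InnerProductSpace ℂ H] [CompleteSpace H]
    (ν c : ℝ), 0 < ν + c → ∀ (R : H →L[ℂ] H), IsSelfAdjoint R → ∀ (k : ℕ), 0 < k →
    ∃ P P1 P2 Q : H →L[ℂ] H, IsSelfAdjoint P ∧ IsSelfAdjoint Q ∧ IsSelfAdjoint P1 ∧ IsSelfAdjoint P2 ∧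
      P = R.comp P1 ∧ P1 = R.comp P2 ∧ Q = ((ν + c : ℝ) : ℂ) • P - P1 ∧ ‖P1‖ ≤ ν + c ∧ ‖P‖ ≤ 1 ∧
      (∀ φ : H, 0 ≤ (⟪P φ, Q φ⟫_ℂ).re) ∧
      (∀ φ : H, (⟪φ, negPow 1 ν c R φ⟫_ℂ).re ≤ (⟪P φ, Q φ⟫_ℂ).re + ‖φ‖ ^ 2 / k)
end WStmts


theorem la_inner (f g : L2R) : ⟪f, g⟫_ℂ = ∫ x, (g : ℝ → ℂ) x * (starRingEnd ℂ) ((f : ℝ → ℂ) x) := by
  rw [MeasureTheory.L2.inner_def]
  simp only [RCLike.inner_apply]

theorem la_sa (θ : ℝ → ℝ) (Θ : L2R →L[ℂ] L2R) (hΘ : IsMul θ Θ) : IsSelfAdjoint Θ := by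
  rw [ContinuousLinearMap.isSelfAdjoint_iff_isSymmetric]
  intro f g
  show ⟪Θ f, g⟫_ℂ = ⟪f, Θ g⟫_ℂ
  rw [la_inner, la_inner]
  apply integral_congr_ae
  filter_upwards [hΘ f, hΘ g] with x hf hg
  rw [hf, hg, map_mul, Complex.conj_ofReal]
  ring

theorem la_norm (θ : ℝ → ℝ) (h1 : ∀ x, 0 ≤ θ x ∧ θ x ≤ 1) (Θ : L2R →L[ℂ] L2R) (hΘ : IsMul θ Θ)
    (f : L2R) : ‖Θ f‖ ≤ ‖f‖ := by
  apply Lp.norm_le_norm_of_ae_le
  filter_upwards [hΘ f] with x hf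
  rw [hf, norm_mul, Complex.norm_real, Real.norm_eq_abs, abs_of_nonneg (h1 x).1]
  exact mul_le_of_le_one_left (norm_nonneg _) (h1 x).2

/-- the pointwise identity -/
theorem la_q (hI : ImsStmt) (V : ℝ → ℝ) (hV : Continuous V) (c ν : ℝ)
    (θ : ℝ → ℝ) (hθ : ContDiff ℝ 2 θ) (hθc : HasCompactSupport θ)
    (Θ : L2R →L[ℂ] L2R) (hΘ : IsMul θ Θ) (R : L2R →L[ℂ] L2R) (hR : IsResolvent V c R)
    (χ : 𝓢(ℝ, ℂ)) (w : L2R)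
    (hw : (w : ℝ → ℂ) =ᵐ[volume] (fun x => -(deriv (deriv (χ : ℝ → ℂ)) x) + ((V x + c : ℝ) : ℂ) * χ x)) :
    (⟪Θ (R w), Θ (((ν + c : ℝ) : ℂ) • R w - w)⟫_ℂ).re
      = (ν * (∫ x, θ x ^ 2 * ‖χ x‖ ^ 2)
    - ∫ x, (‖deriv (fun y : ℝ => (θ y : ℂ) * χ y) x‖ ^ 2 + V x * ‖(θ x : ℂ) * χ x‖ ^ 2))
      + ∫ x, deriv θ x ^ 2 * ‖χ x‖ ^ 2 := by
  have hRw := hR χ w hw
  rw [hI θ hθ hθc V hV χ, la_inner]
  have hχc : Continuous (χ : ℝ → ℂ) := χ.continuous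
  have hχ2 : Continuous (deriv (deriv (χ : ℝ → ℂ))) := by
    have := (χ.smooth 2).continuous_iteratedDeriv 2 le_rfl
    rwa [iteratedDeriv_succ, iteratedDeriv_one] at this
  have i1 : Integrable (fun x => θ x ^ 2 * ‖χ x‖ ^ 2) := by
    apply Continuous.integrable_of_hasCompactSupport
    · exact (hθ.continuous.pow 2).mul (hχc.norm.pow 2)
    · apply HasCompactSupport.mul_right
      exact hθc.comp_left (g := fun y : ℝ => y ^ 2) (by norm_num)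
  have i2 : Integrable (fun x => θ x ^ 2 *
      ((starRingEnd ℂ) (χ x) * (-(deriv (deriv (χ : ℝ → ℂ)) x) + (V x : ℂ) * χ x)).re) := by
    apply Continuous.integrable_of_hasCompactSupport
    · refine (hθ.continuous.pow 2).mul (Complex.continuous_re.comp ?_)
      exact (Complex.continuous_conj.comp hχc).mul
        (hχ2.neg.add ((Complex.continuous_ofReal.comp hV).mul hχc))
    · apply HasCompactSupport.mul_right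
      exact hθc.comp_left (g := fun y : ℝ => y ^ 2) (by norm_num)
  have key : (fun x => ((Θ (((ν + c : ℝ) : ℂ) • R w - w) : L2R) : ℝ → ℂ) x *
      (starRingEnd ℂ) (((Θ (R w) : L2R) : ℝ → ℂ) x)) =ᵐ[volume]
      (fun x => ((θ x : ℂ) ^ 2) * ((ν : ℂ) * (χ x * (starRingEnd ℂ) (χ x))
        - (starRingEnd ℂ) (χ x) * (-(deriv (deriv (χ : ℝ → ℂ)) x) + (V x : ℂ) * χ x))) := by
    have e1 := Lp.coeFn_sub (((ν + c : ℝ) : ℂ) • R w) w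
    have e2 := Lp.coeFn_smul ((ν + c : ℝ) : ℂ) (R w)
    filter_upwards [hΘ (((ν + c : ℝ) : ℂ) • R w - w), hΘ (R w), hRw, hw, e1, e2] with x h1 h2 h3 h4 h5 h6
    rw [h1, h2, h5, Pi.sub_apply, h6, Pi.smul_apply, h3, h4, map_mul, Complex.conj_ofReal]
    simp only [smul_eq_mul]
    push_cast
    ring
  rw [integral_congr_ae key]
  have i3 : Integrable (fun x => ((θ x : ℂ) ^ 2) * ((ν : ℂ) * (χ x * (starRingEnd ℂ) (χ x))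
        - (starRingEnd ℂ) (χ x) * (-(deriv (deriv (χ : ℝ → ℂ)) x) + (V x : ℂ) * χ x))) := by
    apply Continuous.integrable_of_hasCompactSupport
    · refine ((Complex.continuous_ofReal.comp hθ.continuous).pow 2).mul ?_
      refine (continuous_const.mul (hχc.mul (Complex.continuous_conj.comp hχc))).sub ?_
      exact (Complex.continuous_conj.comp hχc).mul
        (hχ2.neg.add ((Complex.continuous_ofReal.comp hV).mul hχc))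
    · apply HasCompactSupport.mul_right
      exact hθc.comp_left (g := fun y : ℝ => (y : ℂ) ^ 2) (by norm_num)
  have hre : (∫ x, ((θ x : ℂ) ^ 2) * ((ν : ℂ) * (χ x * (starRingEnd ℂ) (χ x))
        - (starRingEnd ℂ) (χ x) * (-(deriv (deriv (χ : ℝ → ℂ)) x) + (V x : ℂ) * χ x))).re
      = ∫ x, (((θ x : ℂ) ^ 2) * ((ν : ℂ) * (χ x * (starRingEnd ℂ) (χ x))
        - (starRingEnd ℂ) (χ x) * (-(deriv (deriv (χ : ℝ → ℂ)) x) + (V x : ℂ) * χ x))).re := by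
    have := integral_re i3
    simpa using this.symm
  rw [hre]
  have hpt : ∀ x, (((θ x : ℂ) ^ 2) * ((ν : ℂ) * (χ x * (starRingEnd ℂ) (χ x))
        - (starRingEnd ℂ) (χ x) * (-(deriv (deriv (χ : ℝ → ℂ)) x) + (V x : ℂ) * χ x))).re
      = ν * (θ x ^ 2 * ‖χ x‖ ^ 2) - θ x ^ 2 *
      ((starRingEnd ℂ) (χ x) * (-(deriv (deriv (χ : ℝ → ℂ)) x) + (V x : ℂ) * χ x)).re := by
    intro x
    have h1 : ((θ x : ℂ)) ^ 2 = ((θ x ^ 2 : ℝ) : ℂ) := by push_cast; ring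
    rw [h1, Complex.re_ofReal_mul, Complex.sub_re, Complex.re_ofReal_mul, Complex.mul_conj,
      Complex.ofReal_re, Complex.normSq_eq_norm_sq]
    ring
  rw [integral_congr_ae (Filter.Eventually.of_forall hpt), integral_sub (i1.const_mul ν) i2,
    integral_const_mul]
  ring

theorem la_sum (hcut : CutoffFactsStmt) (hI : ImsStmt) (hSF : SupFamilyStmt)
    (V : ℝ → ℝ) (hV : Continuous V) (c ν K : ℝ) (hK0 : 0 < K) (hK : SupProp V c K)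
    (ρ : ℝ) (hρ : 0 < ρ)
    (Θ : L2R →L[ℂ] L2R) (hΘ : IsMul (cutoff ρ) Θ) (R : L2R →L[ℂ] L2R) (hR : IsResolvent V c R)
    {N : ℕ} (χ : Fin N → 𝓢(ℝ, ℂ)) (w : Fin N → L2R)
    (hw : ∀ j, (w j : ℝ → ℂ) =ᵐ[volume]
      (fun x => -(deriv (deriv (χ j : ℝ → ℂ)) x) + ((V x + c : ℝ) : ℂ) * χ j x))
    (Λ' : ℝ) (hΛ0' : 0 ≤ Λ') (hΛ' : ∀ α : Fin N → ℂ, ‖∑ j, α j • w j‖ ^ 2 ≤ Λ' * ∑ j, ‖α j‖ ^ 2) :
    ∑ j, (⟪Θ (R (w j)), Θ (((ν + c : ℝ) : ℂ) • R (w j) - w j)⟫_ℂ).re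
      ≤ locEn V ρ ν χ + K ^ 2 * Λ' * ∫ x, deriv (cutoff ρ) x ^ 2 ∧
    locEn V ρ ν χ ≤ ∑ j, (⟪Θ (R (w j)), Θ (((ν + c : ℝ) : ℂ) • R (w j) - w j)⟫_ℂ).re := by
  obtain ⟨hθ, -, hθc, -⟩ := hcut ρ hρ
  have h1 : ∀ j, (⟪Θ (R (w j)), Θ (((ν + c : ℝ) : ℂ) • R (w j) - w j)⟫_ℂ).re
      = (ν * (∫ x, cutoff ρ x ^ 2 * ‖χ j x‖ ^ 2)
    - ∫ x, (‖deriv (fun y : ℝ => (cutoff ρ y : ℂ) * χ j y) x‖ ^ 2 + V x * ‖(cutoff ρ x : ℂ) * χ j x‖ ^ 2))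
      + ∫ x, deriv (cutoff ρ) x ^ 2 * ‖χ j x‖ ^ 2 := fun j =>
    la_q hI V hV c ν (cutoff ρ) hθ hθc Θ hΘ R hR (χ j) (w j) (hw j)
  have h2 : ∑ j, (⟪Θ (R (w j)), Θ (((ν + c : ℝ) : ℂ) • R (w j) - w j)⟫_ℂ).re
      = locEn V ρ ν χ + ∑ j, ∫ x, deriv (cutoff ρ) x ^ 2 * ‖χ j x‖ ^ 2 := by
    rw [locEn, ← Finset.sum_add_distrib]
    exact Finset.sum_congr rfl (fun j _ => h1 j)
  have hd : Continuous (deriv (cutoff ρ)) := hθ.continuous_deriv (by norm_num)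
  have hdc : HasCompactSupport (deriv (cutoff ρ)) := hθc.deriv
  have i1 : ∀ j, Integrable (fun x => deriv (cutoff ρ) x ^ 2 * ‖χ j x‖ ^ 2) := by
    intro j
    apply Continuous.integrable_of_hasCompactSupport
    · exact (hd.pow 2).mul ((χ j).continuous.norm.pow 2)
    · apply HasCompactSupport.mul_right
      exact hdc.comp_left (g := fun y : ℝ => y ^ 2) (by norm_num)
  have i0 : Integrable (fun x => deriv (cutoff ρ) x ^ 2) := by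
    apply Continuous.integrable_of_hasCompactSupport
    · exact hd.pow 2
    · exact hdc.comp_left (g := fun y : ℝ => y ^ 2) (by norm_num)
  rw [h2]
  constructor
  · have h3 : ∑ j, ∫ x, deriv (cutoff ρ) x ^ 2 * ‖χ j x‖ ^ 2 ≤ K ^ 2 * Λ' * ∫ x, deriv (cutoff ρ) x ^ 2 := by
      rw [← integral_finsetSum _ (fun j _ => i1 j), ← integral_const_mul]
      apply integral_mono
      · exact integrable_finsetSum _ (fun j _ => i1 j)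
      · exact i0.const_mul _
      · intro x
        show ∑ j, deriv (cutoff ρ) x ^ 2 * ‖χ j x‖ ^ 2 ≤ K ^ 2 * Λ' * deriv (cutoff ρ) x ^ 2
        rw [← Finset.mul_sum, mul_comm]
        exact mul_le_mul_of_nonneg_right (hSF V hV c K hK0 hK χ w hw Λ' hΛ0' hΛ' x) (sq_nonneg _)
    linarith
  · have : 0 ≤ ∑ j, ∫ x, deriv (cutoff ρ) x ^ 2 * ‖χ j x‖ ^ 2 :=
      Finset.sum_nonneg (fun j _ => integral_nonneg (fun x => by positivity))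
    linarith

theorem la_pert {H : Type*} [NormedAddCommGroup H] [InnerProductSpace ℂ H]
    (Θ R P P1 Q : H →L[ℂ] H) (hΘ : ∀ f, ‖Θ f‖ ≤ ‖f‖) (m : ℝ) (hm : 0 ≤ m)
    (hPR : P = R.comp P1) (hQ : Q = ((m : ℝ) : ℂ) • P - P1) (hP : ‖P‖ ≤ 1) (ε' : ℝ)
    (h1 : ε' ≤ 1) (e w : H) (he : ‖e‖ = 1) (hw : ‖w - P1 e‖ ≤ ε') :
    |(⟪Θ (P e), Θ (Q e)⟫_ℂ).re - (⟪Θ (R w), Θ (((m : ℝ) : ℂ) • R w - w)⟫_ℂ).re|
      ≤ (‖R‖ * ‖Q‖ + (1 + ‖R‖) * (m * ‖R‖ + 1)) * ε' := by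
  have h0 : 0 ≤ ε' := le_trans (norm_nonneg _) hw
  have hPe : P e = R (P1 e) := by rw [hPR]; rfl
  have hQe : Q e = ((m : ℝ) : ℂ) • P e - P1 e := by rw [hQ]; rfl
  set u := R w with hu
  set u0 := P e with hu0
  set v := ((m : ℝ) : ℂ) • u - w with hv
  set v0 := Q e with hv0
  have hR0 := norm_nonneg R
  have a1 : ‖u - u0‖ ≤ ‖R‖ * ε' := by
    rw [hPe, hu, ← map_sub]
    exact le_trans (R.le_opNorm _) (mul_le_mul_of_nonneg_left hw hR0)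
  have a2 : ‖v - v0‖ ≤ (m * ‖R‖ + 1) * ε' := by
    have : v - v0 = ((m : ℝ) : ℂ) • (u - u0) - (w - P1 e) := by
      rw [hQe, hv, smul_sub]; abel
    rw [this]
    calc _ ≤ ‖((m : ℝ) : ℂ) • (u - u0)‖ + ‖w - P1 e‖ := norm_sub_le _ _
      _ ≤ m * (‖R‖ * ε') + ε' := by
        rw [norm_smul, Complex.norm_real, Real.norm_eq_abs, abs_of_nonneg hm]
        gcongr
      _ = _ := by ring
  have a3 : ‖u0‖ ≤ 1 := by
    calc ‖P e‖ ≤ ‖P‖ * ‖e‖ := P.le_opNorm _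
      _ ≤ 1 := by rw [he, mul_one]; exact hP
  have a4 : ‖v0‖ ≤ ‖Q‖ := by
    calc ‖Q e‖ ≤ ‖Q‖ * ‖e‖ := Q.le_opNorm _
      _ = ‖Q‖ := by rw [he, mul_one]
  have a5 : ‖u‖ ≤ 1 + ‖R‖ := by
    have : u = u0 + (u - u0) := by abel
    rw [this]
    calc _ ≤ ‖u0‖ + ‖u - u0‖ := norm_add_le _ _
      _ ≤ 1 + ‖R‖ * 1 := by
        refine add_le_add a3 (a1.trans ?_)
        exact mul_le_mul_of_nonneg_left h1 hR0
      _ = _ := by ring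
  have key : ⟪Θ u0, Θ v0⟫_ℂ - ⟪Θ u, Θ v⟫_ℂ = ⟪Θ (u0 - u), Θ v0⟫_ℂ + ⟪Θ u, Θ (v0 - v)⟫_ℂ := by
    rw [map_sub Θ u0 u, map_sub Θ v0 v, inner_sub_left, inner_sub_right]
    ring
  rw [← Complex.sub_re, key]
  refine (Complex.abs_re_le_norm _).trans ?_
  calc _ ≤ ‖⟪Θ (u0 - u), Θ v0⟫_ℂ‖ + ‖⟪Θ u, Θ (v0 - v)⟫_ℂ‖ := norm_add_le _ _
    _ ≤ ‖Θ (u0 - u)‖ * ‖Θ v0‖ + ‖Θ u‖ * ‖Θ (v0 - v)‖ :=
      add_le_add (norm_inner_le_norm _ _) (norm_inner_le_norm _ _)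
    _ ≤ ‖u0 - u‖ * ‖v0‖ + ‖u‖ * ‖v0 - v‖ := by
      gcongr <;> exact hΘ _
    _ ≤ (‖R‖ * ε') * ‖Q‖ + (1 + ‖R‖) * ((m * ‖R‖ + 1) * ε') := by
      rw [norm_sub_rev u0 u, norm_sub_rev v0 v]
      gcongr
    _ = _ := by ring

theorem la_riesz {H : Type*} [NormedAddCommGroup H] [InnerProductSpace ℂ H] {N : ℕ}
    (f w : Fin N → H) (hf : Orthonormal ℂ f) (T : H →L[ℂ] H) (M : ℝ) (hM : ‖T‖ ≤ M) (δ : ℝ)
    (hδ : 0 ≤ δ) (hw : ∀ j, ‖w j - T (f j)‖ ≤ δ) (α : Fin N → ℂ) :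
    ‖∑ j, α j • w j‖ ^ 2 ≤ (M + δ * Real.sqrt N) ^ 2 * ∑ j, ‖α j‖ ^ 2 := by
  have hM0 : 0 ≤ M := le_trans (norm_nonneg _) hM
  have hS0 : 0 ≤ ∑ j, ‖α j‖ ^ 2 := Finset.sum_nonneg (fun j _ => sq_nonneg _)
  set s := Real.sqrt (∑ j, ‖α j‖ ^ 2) with hs
  have hs2 : s ^ 2 = ∑ j, ‖α j‖ ^ 2 := Real.sq_sqrt hS0
  have hs0 : 0 ≤ s := Real.sqrt_nonneg _
  have h1 : ‖∑ j, α j • f j‖ = s := by
    have : ‖∑ j, α j • f j‖ ^ 2 = ∑ j, ‖α j‖ ^ 2 := by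
      rw [← inner_self_eq_norm_sq (𝕜 := ℂ), hf.inner_sum]
      simp only [Complex.conj_mul']
      rw [← Complex.ofReal_re (∑ j, ‖α j‖ ^ 2)]
      push_cast
      rfl
    rw [hs, ← this, Real.sqrt_sq (norm_nonneg _)]
  have h2 : ∑ j, ‖α j‖ ≤ Real.sqrt N * s := by
    have : (∑ j, ‖α j‖) ^ 2 ≤ (N : ℝ) * ∑ j, ‖α j‖ ^ 2 := by
      have := sq_sum_le_card_mul_sum_sq (s := (Finset.univ : Finset (Fin N))) (f := fun j => ‖α j‖)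
      simpa using this
    have h3 : ∑ j, ‖α j‖ ≤ Real.sqrt ((N : ℝ) * ∑ j, ‖α j‖ ^ 2) := Real.le_sqrt_of_sq_le this
    rwa [Real.sqrt_mul (Nat.cast_nonneg N)] at h3
  have h4 : ‖∑ j, α j • w j‖ ≤ (M + δ * Real.sqrt N) * s := by
    have : ∑ j, α j • w j = T (∑ j, α j • f j) + ∑ j, α j • (w j - T (f j)) := by
      rw [map_sum, ← Finset.sum_add_distrib]
      refine Finset.sum_congr rfl (fun j _ => ?_)
      rw [map_smul, smul_sub]; abel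
    rw [this]
    calc _ ≤ ‖T (∑ j, α j • f j)‖ + ‖∑ j, α j • (w j - T (f j))‖ := norm_add_le _ _
      _ ≤ M * s + ∑ j, ‖α j‖ * δ := by
        refine add_le_add ?_ ?_
        · refine (T.le_opNorm _).trans ?_
          rw [h1]
          exact mul_le_mul_of_nonneg_right hM hs0
        · refine (norm_sum_le _ _).trans (Finset.sum_le_sum (fun j _ => ?_))
          rw [norm_smul]
          exact mul_le_mul_of_nonneg_left (hw j) (norm_nonneg _)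
      _ ≤ M * s + (Real.sqrt N * s) * δ := by
        rw [← Finset.sum_mul]
        gcongr
      _ = _ := by ring
  calc ‖∑ j, α j • w j‖ ^ 2 ≤ ((M + δ * Real.sqrt N) * s) ^ 2 := by gcongr
    _ = _ := by rw [mul_pow, hs2]

theorem la_bessel {H : Type*} [NormedAddCommGroup H] [InnerProductSpace ℂ H] {N : ℕ}
    (u : Fin N → H) (Λ : ℝ) (hΛ : 0 ≤ Λ)
    (h : ∀ α : Fin N → ℂ, ‖∑ j, α j • u j‖ ^ 2 ≤ Λ * ∑ j, ‖α j‖ ^ 2) (a : H) :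
    ∑ j, ‖⟪u j, a⟫_ℂ‖ ^ 2 ≤ Λ * ‖a‖ ^ 2 := by
  set S := ∑ j, ‖⟪u j, a⟫_ℂ‖ ^ 2 with hS
  have hS0 : 0 ≤ S := Finset.sum_nonneg (fun j _ => sq_nonneg _)
  have h1 : ⟪∑ j, ⟪u j, a⟫_ℂ • u j, a⟫_ℂ = (S : ℂ) := by
    rw [sum_inner, hS]
    push_cast
    refine Finset.sum_congr rfl (fun j _ => ?_)
    rw [inner_smul_left, Complex.conj_mul']
  have h2 : S ≤ ‖∑ j, ⟪u j, a⟫_ℂ • u j‖ * ‖a‖ := by
    have : ‖(S : ℂ)‖ ≤ ‖∑ j, ⟪u j, a⟫_ℂ • u j‖ * ‖a‖ := by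
      rw [← h1]; exact norm_inner_le_norm _ _
    rwa [Complex.norm_real, Real.norm_eq_abs, abs_of_nonneg hS0] at this
  have h3 := h (fun j => ⟪u j, a⟫_ℂ)
  have h4 : S ^ 2 ≤ Λ * S * ‖a‖ ^ 2 := by
    calc S ^ 2 ≤ (‖∑ j, ⟪u j, a⟫_ℂ • u j‖ * ‖a‖) ^ 2 := by gcongr
      _ = ‖∑ j, ⟪u j, a⟫_ℂ • u j‖ ^ 2 * ‖a‖ ^ 2 := by ring
      _ ≤ (Λ * S) * ‖a‖ ^ 2 := by gcongr
  rcases hS0.eq_or_lt with h5 | h5
  · rw [← h5]; positivity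
  · have : S * S ≤ (Λ * ‖a‖ ^ 2) * S := by nlinarith
    exact le_of_mul_le_mul_right this h5

theorem la_trace (hRL : ResLocalStmt) (hHS : HsCyclicStmt)
    (V : ℝ → ℝ) (hV : Continuous V) (b c : ℝ) (hb : ∀ x, |V x| ≤ b) (hbc : b < c)
    (K : ℝ) (hK0 : 0 < K) (hK : SupProp V c K)
    (R : L2R →L[ℂ] L2R) (hR : IsResolvent V c R)
    (θ : ℝ → ℝ) (hθ : Continuous θ) (hθc : HasCompactSupport θ)
    (Θ : L2R →L[ℂ] L2R) (hΘ : IsMul θ Θ) (e : HilbertBasis ℕ ℂ L2R)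
    (J : Finset ℕ) (m : ℝ) (P P1 P2 Q : L2R →L[ℂ] L2R) (hPs : IsSelfAdjoint P) (hQs : IsSelfAdjoint Q)
    (hPR : P = R.comp P1) (hP1R : P1 = R.comp P2) (hQ : Q = ((m : ℝ) : ℂ) • P - P1)
    (hpos : ∀ φ : L2R, 0 ≤ (⟪P φ, Q φ⟫_ℂ).re) (ε : ℝ) (hε : 0 < ε) :
    ∃ N : ℕ, ∑ i ∈ J, (⟪P (Θ (e i)), Q (Θ (e i))⟫_ℂ).re ≤
      ∑ j : Fin N, (⟪Θ (P (e j)), Θ (Q (e j))⟫_ℂ).re + ε := by
  have hΘs : IsSelfAdjoint Θ := la_sa θ Θ hΘ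
  have hX : Summable (fun i => ‖(Θ.comp P) (e i)‖ ^ 2) := by
    apply summable_of_sum_le (c := K ^ 2 * ‖P1‖ ^ 2 * ∫ x, θ x ^ 2) (fun i => sq_nonneg _)
    intro u
    have := hRL V hV b c hb hbc K hK0 hK R hR θ hθ hθc Θ hΘ P1 e u
    refine le_trans (le_of_eq ?_) this
    refine Finset.sum_congr rfl (fun j _ => ?_)
    rw [hPR]; rfl
  have hQR : Q = R.comp (((m : ℝ) : ℂ) • P1 - P2) := by
    rw [hQ]
    ext1 f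
    rw [hPR]
    conv_lhs => rw [hP1R]
    simp only [_root_.sub_apply, _root_.smul_apply, ContinuousLinearMap.comp_apply, map_sub, map_smul, ← hP1R]
    rw [hP1R]
    rfl
  have hY : Summable (fun i => ‖(Θ.comp Q) (e i)‖ ^ 2) := by
    apply summable_of_sum_le (c := K ^ 2 * ‖((m : ℝ) : ℂ) • P1 - P2‖ ^ 2 * ∫ x, θ x ^ 2) (fun i => sq_nonneg _)
    intro u
    have := hRL V hV b c hb hbc K hK0 hK R hR θ hθ hθc Θ hΘ (((m : ℝ) : ℂ) • P1 - P2) e u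
    refine le_trans (le_of_eq ?_) this
    refine Finset.sum_congr rfl (fun j _ => ?_)
    rw [hQR]; rfl
  obtain ⟨h1, h2⟩ := hHS e (Θ.comp P) (Θ.comp Q) hX hY
  have hadjX : ContinuousLinearMap.adjoint (Θ.comp P) = P.comp Θ := by
    rw [ContinuousLinearMap.adjoint_comp, hPs.adjoint_eq, hΘs.adjoint_eq]
  have hadjY : ContinuousLinearMap.adjoint (Θ.comp Q) = Q.comp Θ := by
    rw [ContinuousLinearMap.adjoint_comp, hQs.adjoint_eq, hΘs.adjoint_eq]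
  rw [hadjX, hadjY] at h2
  have h3 := Complex.hasSum_re h2
  have h4 : ∑ i ∈ J, (⟪P (Θ (e i)), Q (Θ (e i))⟫_ℂ).re ≤ (∑' j, ⟪(Θ.comp Q) (e j), (Θ.comp P) (e j)⟫_ℂ).re :=
    sum_le_hasSum J (fun i _ => hpos (Θ (e i))) h3
  have h5 : Filter.Tendsto (fun n => ∑ j ∈ Finset.range n, (⟪Θ (Q (e j)), Θ (P (e j))⟫_ℂ).re)
      Filter.atTop (nhds (∑' j, ⟪(Θ.comp Q) (e j), (Θ.comp P) (e j)⟫_ℂ).re) :=
    (Complex.hasSum_re h1.hasSum).tendsto_sum_nat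
  have h6 := h5.eventually (lt_mem_nhds (sub_lt_self _ hε))
  obtain ⟨N, hN⟩ := h6.exists
  refine ⟨N, ?_⟩
  have h7 : ∑ j : Fin N, (⟪Θ (P (e j)), Θ (Q (e j))⟫_ℂ).re =
      ∑ j ∈ Finset.range N, (⟪Θ (Q (e j)), Θ (P (e j))⟫_ℂ).re := by
    rw [← Fin.sum_univ_eq_sum_range (fun j => (⟪Θ (Q (e j)), Θ (P (e j))⟫_ℂ).re)]
    refine Finset.sum_congr rfl (fun j _ => ?_)
    rw [← inner_conj_symm, Complex.conj_re]
  rw [h7]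
  linarith

theorem la_arith (L Λ Bnd : ℝ) (hΛ : 1 ≤ Λ) (hB0 : 0 ≤ Bnd) (hL : L ≤ Bnd) :
    L ≤ (1 / Λ) * L + (Λ - 1) * Bnd := by
  have hΛ0 : 0 < Λ := by linarith
  have h1 : 0 ≤ (Λ - 1) * Bnd := mul_nonneg (by linarith) hB0
  have hinv : 1 / Λ ≤ 1 := by rw [div_le_one hΛ0]; exact hΛ
  rcases le_or_gt L 0 with h | h
  · nlinarith
  · have h2 : L - (1 / Λ) * L = (Λ - 1) * L * (1 / Λ) := by field_simp
    have h3 : (Λ - 1) * L * (1 / Λ) ≤ (Λ - 1) * L * 1 :=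
      mul_le_mul_of_nonneg_left hinv (mul_nonneg (by linarith) h.le)
    have h4 : (Λ - 1) * L ≤ (Λ - 1) * Bnd := mul_le_mul_of_nonneg_left hL (by linarith)
    linarith

set_option maxHeartbeats 4000000 in
/-- localised traces at a fixed level are controlled by Schwartz families -/
theorem line_approx (hD : DenseRangeStmt) (hcut : CutoffFactsStmt) (hI : ImsStmt) (hSF : SupFamilyStmt)
    (hRL : ResLocalStmt) (hHS : HsCyclicStmt) (hLF : LevelFactorStmt)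
    (V : ℝ → ℝ) (hV : Continuous V) (b c : ℝ) (hb : ∀ x, |V x| ≤ b) (hbc : b < c)
    (K : ℝ) (hK0 : 0 < K) (hK : SupProp V c K)
    (R : L2R →L[ℂ] L2R) (hR : IsResolvent V c R) (hsa : IsSelfAdjoint R)
    (ρ : ℝ) (hρ : 0 < ρ) (Θ : L2R →L[ℂ] L2R) (hΘ : IsMul (cutoff ρ) Θ) (e : HilbertBasis ℕ ℂ L2R)
    (J : Finset ℕ) (ν : ℝ) (hν : 0 < ν + c) (ε : ℝ) (hε : 0 < ε) :
    ∃ (N : ℕ) (χ : Fin N → 𝓢(ℝ, ℂ)) (Λ : ℝ), 1 ≤ Λ ∧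
      (∀ a : L2R, ∑ j, ‖∫ x, χ j x * (starRingEnd ℂ) (a x)‖ ^ 2 ≤ Λ * ‖a‖ ^ 2) ∧
      ∑ i ∈ J, (⟪Θ (e i), negPow 1 ν c R (Θ (e i))⟫_ℂ).re
        ≤ (1 / Λ) * locEn V ρ ν χ + K ^ 2 * (ν + c) ^ 2 * (∫ x, deriv (cutoff ρ) x ^ 2) + ε := by
  obtain ⟨hθ2, -, hθc, hθ01, -⟩ := hcut ρ hρ
  have hΘn := la_norm (cutoff ρ) hθ01 Θ hΘ
  obtain ⟨k0, hk0⟩ := exists_nat_gt ((J.card : ℝ) * 4 / ε)
  have hkpos : (0 : ℝ) < ((k0 + 1 : ℕ) : ℝ) := by positivity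
  have hk : (J.card : ℝ) * (1 / ((k0 + 1 : ℕ) : ℝ)) ≤ ε / 4 := by
    rw [mul_one_div, div_le_iff₀ hkpos]
    rw [div_lt_iff₀ hε] at hk0
    push_cast
    nlinarith
  obtain ⟨P, P1, P2, Q, hPs, hQs, hP1s, hP2s, hPR, hP1R, hQ, hP1n, hPn, hpos, hneg⟩ :=
    hLF ν c hν R hsa (k0 + 1) (Nat.succ_pos _)
  obtain ⟨N, hN⟩ := la_trace hRL hHS V hV b c hb hbc K hK0 hK R hR (cutoff ρ) hθ2.continuous hθc
    Θ hΘ e J (ν + c) P P1 P2 Q hPs hQs hPR hP1R hQ hpos (ε / 4) (by positivity)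
  have hen : ∀ i, ‖e i‖ = 1 := fun i => e.orthonormal.1 i
  have hS : ∑ i ∈ J, (⟪Θ (e i), negPow 1 ν c R (Θ (e i))⟫_ℂ).re
      ≤ ∑ i ∈ J, (⟪P (Θ (e i)), Q (Θ (e i))⟫_ℂ).re + ε / 4 := by
    calc _ ≤ ∑ i ∈ J, ((⟪P (Θ (e i)), Q (Θ (e i))⟫_ℂ).re + 1 / ((k0 + 1 : ℕ) : ℝ)) := by
          refine Finset.sum_le_sum (fun i _ => (hneg (Θ (e i))).trans ?_)
          have : ‖Θ (e i)‖ ≤ 1 := by rw [← hen i]; exact hΘn _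
          have h2 : ‖Θ (e i)‖ ^ 2 ≤ 1 := pow_le_one₀ (norm_nonneg _) this
          gcongr
      _ = ∑ i ∈ J, (⟪P (Θ (e i)), Q (Θ (e i))⟫_ℂ).re + (J.card : ℝ) * (1 / ((k0 + 1 : ℕ) : ℝ)) := by
          rw [Finset.sum_add_distrib, Finset.sum_const, nsmul_eq_mul]
      _ ≤ _ := by linarith
  have hD0 : 0 ≤ ∫ x, deriv (cutoff ρ) x ^ 2 := integral_nonneg (fun x => sq_nonneg _)
  generalize hDI : (∫ x, deriv (cutoff ρ) x ^ 2) = DI at hD0 ⊢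
  have hR0 := norm_nonneg R
  have hQ0 := norm_nonneg Q
  obtain ⟨C1, hC1⟩ : ∃ C1, C1 = ‖R‖ * ‖Q‖ + (1 + ‖R‖) * ((ν + c) * ‖R‖ + 1) := ⟨_, rfl⟩
  have hC10 : 0 ≤ C1 := by rw [hC1]; positivity
  obtain ⟨Bnd, hBnd⟩ : ∃ Bnd, Bnd = (N : ℝ) * (‖Q‖ + C1) := ⟨_, rfl⟩
  have hB0 : 0 ≤ Bnd := by rw [hBnd]; positivity
  obtain ⟨s, hs⟩ : ∃ s, s = Real.sqrt N := ⟨_, rfl⟩
  have hs0 : 0 ≤ s := by rw [hs]; exact Real.sqrt_nonneg _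
  obtain ⟨Z, hZ⟩ : ∃ Z, Z = 1 + N * C1 + K ^ 2 * (2 * (ν + c) * s + s ^ 2) * DI
    + (2 * (‖R‖ * s) + (‖R‖ * s) ^ 2) * Bnd := ⟨_, rfl⟩
  have hZ0 : 0 < Z := by rw [hZ]; positivity
  obtain ⟨δ, hδ⟩ : ∃ δ, δ = min 1 (ε / (4 * Z)) := ⟨_, rfl⟩
  have hδ0 : 0 < δ := by rw [hδ]; exact lt_min one_pos (by positivity)
  have hδ1 : δ ≤ 1 := by rw [hδ]; exact min_le_left _ _
  have hδZ : δ * Z ≤ ε / 4 := by
    have : δ ≤ ε / (4 * Z) := by rw [hδ]; exact min_le_right _ _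
    rw [le_div_iff₀ (by positivity)] at this
    linarith
  have hch : ∀ j : Fin N, ∃ (χ : 𝓢(ℝ, ℂ)) (w : L2R),
      (w : ℝ → ℂ) =ᵐ[volume] (fun x => -(deriv (deriv (χ : ℝ → ℂ)) x) + ((V x + c : ℝ) : ℂ) * χ x) ∧
      ‖w - P1 (e j)‖ < δ := fun j => hD V hV b c hb hbc (P1 (e j)) δ hδ0
  choose χ w hw hwδ using hch
  have hON : Orthonormal ℂ (fun j : Fin N => e j) :=
    e.orthonormal.comp (fun j : Fin N => (j : ℕ)) (fun a b h => Fin.ext h)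
  obtain ⟨Λ, hΛ⟩ : ∃ Λ, Λ = (1 + (‖R‖ * δ) * Real.sqrt N) ^ 2 := ⟨_, rfl⟩
  have hΛ1 : 1 ≤ Λ := by
    rw [hΛ, ← hs]
    have : 0 ≤ (‖R‖ * δ) * s := by positivity
    nlinarith
  refine ⟨N, χ, Λ, hΛ1, ?_, ?_⟩
  · intro a
    have hu : ∀ j : Fin N, ‖R (w j) - P (e j)‖ ≤ ‖R‖ * δ := by
      intro j
      have : P (e j) = R (P1 (e j)) := by rw [hPR]; rfl
      rw [this, ← map_sub]
      exact (R.le_opNorm _).trans (mul_le_mul_of_nonneg_left (hwδ j).le hR0)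
    have h1 := la_bessel (fun j => R (w j)) Λ (by linarith) (fun α => by
      rw [hΛ]
      exact la_riesz (fun j : Fin N => e j) _ hON P 1 hPn (‖R‖ * δ) (by positivity) hu α) a
    refine le_trans (le_of_eq ?_) h1
    refine Finset.sum_congr rfl (fun j _ => ?_)
    have h2 : (∫ x, χ j x * (starRingEnd ℂ) (a x)) = ⟪a, R (w j)⟫_ℂ := by
      rw [la_inner]
      apply integral_congr_ae
      filter_upwards [hR (χ j) (w j) (hw j)] with x hx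
      rw [hx]
    rw [h2, ← norm_inner_symm]
  · have hriesz : ∀ α : Fin N → ℂ, ‖∑ j, α j • w j‖ ^ 2 ≤ ((ν + c) + δ * Real.sqrt N) ^ 2 * ∑ j, ‖α j‖ ^ 2 :=
      fun α => la_riesz (fun j : Fin N => e j) w hON P1 (ν + c) hP1n δ hδ0.le (fun j => (hwδ j).le) α
    obtain ⟨hq1, hq2⟩ := la_sum hcut hI hSF V hV c ν K hK0 hK ρ hρ Θ hΘ R hR χ w hw _ (sq_nonneg _) hriesz
    rw [hDI, ← hs] at hq1
    have hpert : ∀ j : Fin N, |(⟪Θ (P (e j)), Θ (Q (e j))⟫_ℂ).re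
        - (⟪Θ (R (w j)), Θ (((ν + c : ℝ) : ℂ) • R (w j) - w j)⟫_ℂ).re| ≤ C1 * δ := by
      intro j
      rw [hC1]
      exact la_pert Θ R P P1 Q hΘn (ν + c) hν.le hPR hQ hPn δ hδ1 (e j) (w j) (hen j) (hwδ j).le
    have hA : ∑ j : Fin N, (⟪Θ (P (e j)), Θ (Q (e j))⟫_ℂ).re
        ≤ ∑ j : Fin N, (⟪Θ (R (w j)), Θ (((ν + c : ℝ) : ℂ) • R (w j) - w j)⟫_ℂ).re + N * (C1 * δ) := by
      have : ∑ j : Fin N, (⟪Θ (P (e j)), Θ (Q (e j))⟫_ℂ).re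
        ≤ ∑ j : Fin N, ((⟪Θ (R (w j)), Θ (((ν + c : ℝ) : ℂ) • R (w j) - w j)⟫_ℂ).re + C1 * δ) := by
        refine Finset.sum_le_sum (fun j _ => ?_)
        have := (abs_le.1 (hpert j)).2
        linarith
      rw [Finset.sum_add_distrib, Finset.sum_const, Finset.card_univ, Fintype.card_fin, nsmul_eq_mul] at this
      exact this
    have hB : ∑ j : Fin N, (⟪Θ (R (w j)), Θ (((ν + c : ℝ) : ℂ) • R (w j) - w j)⟫_ℂ).re ≤ Bnd := by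
      have : ∑ j : Fin N, (⟪Θ (R (w j)), Θ (((ν + c : ℝ) : ℂ) • R (w j) - w j)⟫_ℂ).re
          ≤ ∑ j : Fin N, (‖Q‖ + C1) := by
        refine Finset.sum_le_sum (fun j _ => ?_)
        have h1 := (abs_le.1 (hpert j)).1
        have h2 : (⟪Θ (P (e j)), Θ (Q (e j))⟫_ℂ).re ≤ ‖Q‖ := by
          refine (Complex.re_le_norm _).trans ((norm_inner_le_norm _ _).trans ?_)
          have h3 : ‖Θ (P (e j))‖ ≤ 1 := by
            refine (hΘn _).trans ((P.le_opNorm _).trans ?_)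
            rw [hen j, mul_one]; exact hPn
          have h4 : ‖Θ (Q (e j))‖ ≤ ‖Q‖ := by
            refine (hΘn _).trans ((Q.le_opNorm _).trans ?_)
            rw [hen j, mul_one]
          calc _ ≤ 1 * ‖Q‖ := mul_le_mul h3 h4 (norm_nonneg _) zero_le_one
            _ = ‖Q‖ := one_mul _
        have h5 : C1 * δ ≤ C1 := mul_le_of_le_one_right hC10 hδ1
        linarith
      rw [Finset.sum_const, Finset.card_univ, Fintype.card_fin, nsmul_eq_mul] at this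
      rw [hBnd]
      exact this
    have hL := la_arith (locEn V ρ ν χ) Λ Bnd hΛ1 hB0 (hq2.trans hB)
    have hΛb : Λ - 1 ≤ δ * (2 * (‖R‖ * s) + (‖R‖ * s) ^ 2) := by
      rw [hΛ, ← hs]
      have h1 : δ ^ 2 ≤ δ := by nlinarith only [hδ0, hδ1]
      have h2 : δ ^ 2 * (‖R‖ * s) ^ 2 ≤ δ * (‖R‖ * s) ^ 2 := mul_le_mul_of_nonneg_right h1 (sq_nonneg _)
      have h3 : (1 + ‖R‖ * δ * s) ^ 2 - 1 = δ * (2 * (‖R‖ * s)) + δ ^ 2 * (‖R‖ * s) ^ 2 := by ring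
      rw [h3, mul_add]
      linarith
    have hΛb2 : (Λ - 1) * Bnd ≤ δ * (2 * (‖R‖ * s) + (‖R‖ * s) ^ 2) * Bnd :=
      mul_le_mul_of_nonneg_right hΛb hB0
    have hM : K ^ 2 * (ν + c + δ * s) ^ 2 * DI ≤ K ^ 2 * (ν + c) ^ 2 * DI
        + δ * (K ^ 2 * (2 * (ν + c) * s + s ^ 2) * DI) := by
      have h1 : δ ^ 2 ≤ δ := by nlinarith only [hδ0, hδ1]
      have h2 : (ν + c + δ * s) ^ 2 ≤ (ν + c) ^ 2 + δ * (2 * (ν + c) * s + s ^ 2) := by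
        have h3 : δ ^ 2 * s ^ 2 ≤ δ * s ^ 2 := mul_le_mul_of_nonneg_right h1 (sq_nonneg _)
        have h4 : (ν + c + δ * s) ^ 2 = (ν + c) ^ 2 + δ * (2 * (ν + c) * s) + δ ^ 2 * s ^ 2 := by ring
        rw [h4, mul_add]
        linarith
      calc K ^ 2 * (ν + c + δ * s) ^ 2 * DI
          ≤ K ^ 2 * ((ν + c) ^ 2 + δ * (2 * (ν + c) * s + s ^ 2)) * DI := by gcongr
        _ = _ := by ring
    have hfin : δ * (N * C1) + δ * (K ^ 2 * (2 * (ν + c) * s + s ^ 2) * DI)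
        + δ * (2 * (‖R‖ * s) + (‖R‖ * s) ^ 2) * Bnd ≤ ε / 4 := by
      refine le_trans ?_ hδZ
      rw [hZ]
      have : δ * (1 + N * C1 + K ^ 2 * (2 * (ν + c) * s + s ^ 2) * DI
        + (2 * (‖R‖ * s) + (‖R‖ * s) ^ 2) * Bnd) = δ + (δ * (N * C1) + δ * (K ^ 2 * (2 * (ν + c) * s + s ^ 2) * DI)
        + δ * (2 * (‖R‖ * s) + (‖R‖ * s) ^ 2) * Bnd) := by ring
      rw [this]
      linarith
    have hA' : (N : ℝ) * (C1 * δ) = δ * (N * C1) := by ring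
    rw [hA'] at hA
    linarith

end Pool.Agent.Helper209.PL.LineApprox
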