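import Pool.Agent.Helper209.PL.LineApprox
import Pool.Agent.Helper209.PL.ResLoc2

set_option autoImplicit false

namespace Pool.Agent.Helper209.PL.LineApprox2

open MeasureTheory Set Pool.Agent.Helper209.PL.LineApprox
open scoped SchwartzMap InnerProductSpace FourierTransform

theorem la_trace2 (hHS : HsCyclicStmt)
    (K : ℝ) (R : L2R →L[ℂ] L2R)
    (θ : ℝ → ℝ)
    (Θ : L2R →L[ℂ] L2R) (hΘ : IsMul θ Θ) (e : HilbertBasis ℕ ℂ L2R)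
    (J : Finset ℕ) (m : ℝ) (P P1 P2 Q : L2R →L[ℂ] L2R) (hPs : IsSelfAdjoint P) (hQs : IsSelfAdjoint Q)
    (hPR : P = R.comp P1) (hP1R : P1 = R.comp P2) (hQ : Q = ((m : ℝ) : ℂ) • P - P1)
    (hpos : ∀ φ : L2R, 0 ≤ (⟪P φ, Q φ⟫_ℂ).re) (ε : ℝ) (hε : 0 < ε)
    (hRL : ∀ (B : L2R →L[ℂ] L2R) (e : HilbertBasis ℕ ℂ L2R)
      (J : Finset ℕ), ∑ j ∈ J, ‖Θ (R (B (e j)))‖ ^ 2 ≤ K ^ 2 * ‖B‖ ^ 2 * ∫ x, θ x ^ 2) :
    ∃ N : ℕ, ∑ i ∈ J, (⟪P (Θ (e i)), Q (Θ (e i))⟫_ℂ).re ≤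
      ∑ j : Fin N, (⟪Θ (P (e j)), Θ (Q (e j))⟫_ℂ).re + ε := by
  have hΘs : IsSelfAdjoint Θ := la_sa θ Θ hΘ
  have hX : Summable (fun i => ‖(Θ.comp P) (e i)‖ ^ 2) := by
    apply summable_of_sum_le (c := K ^ 2 * ‖P1‖ ^ 2 * ∫ x, θ x ^ 2) (fun i => sq_nonneg _)
    intro u
    have := hRL P1 e u
    refine le_trans (le_of_eq ?_) this
    refine Finset.sum_congr rfl (fun j _ => ?_)
    rw [hPR]; rfl
  have hQR : Q = R.comp (((m : ℝ) : ℂ) • P1 - P2) := by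
    rw [hQ]
    ext1 f
    rw [hPR]
    conv_lhs => rw [hP1R]
    simp only [_root_.sub_apply, _root_.smul_apply, ContinuousLinearMap.comp_apply, map_sub, map_smul, ← hP1R]
    rw [hP1R]
    rfl
  have hY : Summable (fun i => ‖(Θ.comp Q) (e i)‖ ^ 2) := by
    apply summable_of_sum_le (c := K ^ 2 * ‖((m : ℝ) : ℂ) • P1 - P2‖ ^ 2 * ∫ x, θ x ^ 2) (fun i => sq_nonneg _)
    intro u
    have := hRL (((m : ℝ) : ℂ) • P1 - P2) e u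
    refine le_trans (le_of_eq ?_) this
    refine Finset.sum_congr rfl (fun j _ => ?_)
    rw [hQR]; rfl
  obtain ⟨h1, h2⟩ := hHS e (Θ.comp P) (Θ.comp Q) hX hY
  have hadjX : ContinuousLinearMap.adjoint (Θ.comp P) = P.comp Θ := by
    rw [ContinuousLinearMap.adjoint_comp, hPs.adjoint_eq, hΘs.adjoint_eq]
  have hadjY : ContinuousLinearMap.adjoint (Θ.comp Q) = Q.comp Θ := by
    rw [ContinuousLinearMap.adjoint_comp, hQs.adjoint_eq, hΘs.adjoint_eq]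
  rw [hadjX, hadjY] at h2
  have h3 := Complex.hasSum_re h2
  have h4 : ∑ i ∈ J, (⟪P (Θ (e i)), Q (Θ (e i))⟫_ℂ).re ≤ (∑' j, ⟪(Θ.comp Q) (e j), (Θ.comp P) (e j)⟫_ℂ).re :=
    sum_le_hasSum J (fun i _ => hpos (Θ (e i))) h3
  have h5 : Filter.Tendsto (fun n => ∑ j ∈ Finset.range n, (⟪Θ (Q (e j)), Θ (P (e j))⟫_ℂ).re)
      Filter.atTop (nhds (∑' j, ⟪(Θ.comp Q) (e j), (Θ.comp P) (e j)⟫_ℂ).re) :=
    (Complex.hasSum_re h1.hasSum).tendsto_sum_nat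
  have h6 := h5.eventually (lt_mem_nhds (sub_lt_self _ hε))
  obtain ⟨N, hN⟩ := h6.exists
  refine ⟨N, ?_⟩
  have h7 : ∑ j : Fin N, (⟪Θ (P (e j)), Θ (Q (e j))⟫_ℂ).re =
      ∑ j ∈ Finset.range N, (⟪Θ (Q (e j)), Θ (P (e j))⟫_ℂ).re := by
    rw [← Fin.sum_univ_eq_sum_range (fun j => (⟪Θ (Q (e j)), Θ (P (e j))⟫_ℂ).re)]
    refine Finset.sum_congr rfl (fun j _ => ?_)
    rw [← inner_conj_symm, Complex.conj_re]
  rw [h7]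
  linarith

set_option maxHeartbeats 4000000 in
/-- localised traces at a fixed level are controlled by Schwartz families -/
theorem line_approx2 (hcut : CutoffFactsStmt) (hI : ImsStmt) (hSF : SupFamilyStmt)
    (hHS : HsCyclicStmt) (hLF : LevelFactorStmt)
    (V : ℝ → ℝ) (hV : Continuous V) (c : ℝ)
    (hD : ∀ (f : L2R) (ε : ℝ), 0 < ε → ∃ (χ : 𝓢(ℝ, ℂ)) (w : L2R),
      (w : ℝ → ℂ) =ᵐ[volume] (fun x => -(deriv (deriv (χ : ℝ → ℂ)) x) + ((V x + c : ℝ) : ℂ) * χ x) ∧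
      ‖w - f‖ < ε)
    (K : ℝ) (hK0 : 0 < K) (hK : SupProp V c K)
    (R : L2R →L[ℂ] L2R) (hR : IsResolvent V c R) (hsa : IsSelfAdjoint R)
    (ρ : ℝ) (hρ : 0 < ρ) (Θ : L2R →L[ℂ] L2R) (hΘ : IsMul (cutoff ρ) Θ) (e : HilbertBasis ℕ ℂ L2R)
    (J : Finset ℕ) (ν : ℝ) (hν : 0 < ν + c) (ε : ℝ) (hε : 0 < ε) :
    ∃ (N : ℕ) (χ : Fin N → 𝓢(ℝ, ℂ)) (Λ : ℝ), 1 ≤ Λ ∧
      (∀ a : L2R, ∑ j, ‖∫ x, χ j x * (starRingEnd ℂ) (a x)‖ ^ 2 ≤ Λ * ‖a‖ ^ 2) ∧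
      ∑ i ∈ J, (⟪Θ (e i), negPow 1 ν c R (Θ (e i))⟫_ℂ).re
        ≤ (1 / Λ) * locEn V ρ ν χ + K ^ 2 * (ν + c) ^ 2 * (∫ x, deriv (cutoff ρ) x ^ 2) + ε := by
  obtain ⟨hθ2, -, hθc, hθ01, -⟩ := hcut ρ hρ
  have hΘn := la_norm (cutoff ρ) hθ01 Θ hΘ
  obtain ⟨k0, hk0⟩ := exists_nat_gt ((J.card : ℝ) * 4 / ε)
  have hkpos : (0 : ℝ) < ((k0 + 1 : ℕ) : ℝ) := by positivity
  have hk : (J.card : ℝ) * (1 / ((k0 + 1 : ℕ) : ℝ)) ≤ ε / 4 := by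
    rw [mul_one_div, div_le_iff₀ hkpos]
    rw [div_lt_iff₀ hε] at hk0
    push_cast
    nlinarith
  obtain ⟨P, P1, P2, Q, hPs, hQs, hP1s, hP2s, hPR, hP1R, hQ, hP1n, hPn, hpos, hneg⟩ :=
    hLF ν c hν R hsa (k0 + 1) (Nat.succ_pos _)
  obtain ⟨N, hN⟩ := la_trace2 hHS K R (cutoff ρ)
    Θ hΘ e J (ν + c) P P1 P2 Q hPs hQs hPR hP1R hQ hpos (ε / 4) (by positivity)
    (fun B e J => ResLoc2.res_local2 V hV c hD K hK0 hK R hR (cutoff ρ) hθ2.continuous hθc Θ hΘ B e J)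
  have hen : ∀ i, ‖e i‖ = 1 := fun i => e.orthonormal.1 i
  have hS : ∑ i ∈ J, (⟪Θ (e i), negPow 1 ν c R (Θ (e i))⟫_ℂ).re
      ≤ ∑ i ∈ J, (⟪P (Θ (e i)), Q (Θ (e i))⟫_ℂ).re + ε / 4 := by
    calc _ ≤ ∑ i ∈ J, ((⟪P (Θ (e i)), Q (Θ (e i))⟫_ℂ).re + 1 / ((k0 + 1 : ℕ) : ℝ)) := by
          refine Finset.sum_le_sum (fun i _ => (hneg (Θ (e i))).trans ?_)
          have : ‖Θ (e i)‖ ≤ 1 := by rw [← hen i]; exact hΘn _
          have h2 : ‖Θ (e i)‖ ^ 2 ≤ 1 := pow_le_one₀ (norm_nonneg _) this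
          gcongr
      _ = ∑ i ∈ J, (⟪P (Θ (e i)), Q (Θ (e i))⟫_ℂ).re + (J.card : ℝ) * (1 / ((k0 + 1 : ℕ) : ℝ)) := by
          rw [Finset.sum_add_distrib, Finset.sum_const, nsmul_eq_mul]
      _ ≤ _ := by linarith
  have hD0 : 0 ≤ ∫ x, deriv (cutoff ρ) x ^ 2 := integral_nonneg (fun x => sq_nonneg _)
  generalize hDI : (∫ x, deriv (cutoff ρ) x ^ 2) = DI at hD0 ⊢
  have hR0 := norm_nonneg R
  have hQ0 := norm_nonneg Q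
  obtain ⟨C1, hC1⟩ : ∃ C1, C1 = ‖R‖ * ‖Q‖ + (1 + ‖R‖) * ((ν + c) * ‖R‖ + 1) := ⟨_, rfl⟩
  have hC10 : 0 ≤ C1 := by rw [hC1]; positivity
  obtain ⟨Bnd, hBnd⟩ : ∃ Bnd, Bnd = (N : ℝ) * (‖Q‖ + C1) := ⟨_, rfl⟩
  have hB0 : 0 ≤ Bnd := by rw [hBnd]; positivity
  obtain ⟨s, hs⟩ : ∃ s, s = Real.sqrt N := ⟨_, rfl⟩
  have hs0 : 0 ≤ s := by rw [hs]; exact Real.sqrt_nonneg _
  obtain ⟨Z, hZ⟩ : ∃ Z, Z = 1 + N * C1 + K ^ 2 * (2 * (ν + c) * s + s ^ 2) * DI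
    + (2 * (‖R‖ * s) + (‖R‖ * s) ^ 2) * Bnd := ⟨_, rfl⟩
  have hZ0 : 0 < Z := by rw [hZ]; positivity
  obtain ⟨δ, hδ⟩ : ∃ δ, δ = min 1 (ε / (4 * Z)) := ⟨_, rfl⟩
  have hδ0 : 0 < δ := by rw [hδ]; exact lt_min one_pos (by positivity)
  have hδ1 : δ ≤ 1 := by rw [hδ]; exact min_le_left _ _
  have hδZ : δ * Z ≤ ε / 4 := by
    have : δ ≤ ε / (4 * Z) := by rw [hδ]; exact min_le_right _ _
    rw [le_div_iff₀ (by positivity)] at this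
    linarith
  have hch : ∀ j : Fin N, ∃ (χ : 𝓢(ℝ, ℂ)) (w : L2R),
      (w : ℝ → ℂ) =ᵐ[volume] (fun x => -(deriv (deriv (χ : ℝ → ℂ)) x) + ((V x + c : ℝ) : ℂ) * χ x) ∧
      ‖w - P1 (e j)‖ < δ := fun j => hD (P1 (e j)) δ hδ0
  choose χ w hw hwδ using hch
  have hON : Orthonormal ℂ (fun j : Fin N => e j) :=
    e.orthonormal.comp (fun j : Fin N => (j : ℕ)) (fun a b h => Fin.ext h)
  obtain ⟨Λ, hΛ⟩ : ∃ Λ, Λ = (1 + (‖R‖ * δ) * Real.sqrt N) ^ 2 := ⟨_, rfl⟩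
  have hΛ1 : 1 ≤ Λ := by
    rw [hΛ, ← hs]
    have : 0 ≤ (‖R‖ * δ) * s := by positivity
    nlinarith
  refine ⟨N, χ, Λ, hΛ1, ?_, ?_⟩
  · intro a
    have hu : ∀ j : Fin N, ‖R (w j) - P (e j)‖ ≤ ‖R‖ * δ := by
      intro j
      have : P (e j) = R (P1 (e j)) := by rw [hPR]; rfl
      rw [this, ← map_sub]
      exact (R.le_opNorm _).trans (mul_le_mul_of_nonneg_left (hwδ j).le hR0)
    have h1 := la_bessel (fun j => R (w j)) Λ (by linarith) (fun α => by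
      rw [hΛ]
      exact la_riesz (fun j : Fin N => e j) _ hON P 1 hPn (‖R‖ * δ) (by positivity) hu α) a
    refine le_trans (le_of_eq ?_) h1
    refine Finset.sum_congr rfl (fun j _ => ?_)
    have h2 : (∫ x, χ j x * (starRingEnd ℂ) (a x)) = ⟪a, R (w j)⟫_ℂ := by
      rw [la_inner]
      apply integral_congr_ae
      filter_upwards [hR (χ j) (w j) (hw j)] with x hx
      rw [hx]
    rw [h2, ← norm_inner_symm]
  · have hriesz : ∀ α : Fin N → ℂ, ‖∑ j, α j • w j‖ ^ 2 ≤ ((ν + c) + δ * Real.sqrt N) ^ 2 * ∑ j, ‖α j‖ ^ 2 :=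
      fun α => la_riesz (fun j : Fin N => e j) w hON P1 (ν + c) hP1n δ hδ0.le (fun j => (hwδ j).le) α
    obtain ⟨hq1, hq2⟩ := la_sum hcut hI hSF V hV c ν K hK0 hK ρ hρ Θ hΘ R hR χ w hw _ (sq_nonneg _) hriesz
    rw [hDI, ← hs] at hq1
    have hpert : ∀ j : Fin N, |(⟪Θ (P (e j)), Θ (Q (e j))⟫_ℂ).re
        - (⟪Θ (R (w j)), Θ (((ν + c : ℝ) : ℂ) • R (w j) - w j)⟫_ℂ).re| ≤ C1 * δ := by
      intro j
      rw [hC1]
      exact la_pert Θ R P P1 Q hΘn (ν + c) hν.le hPR hQ hPn δ hδ1 (e j) (w j) (hen j) (hwδ j).le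
    have hA : ∑ j : Fin N, (⟪Θ (P (e j)), Θ (Q (e j))⟫_ℂ).re
        ≤ ∑ j : Fin N, (⟪Θ (R (w j)), Θ (((ν + c : ℝ) : ℂ) • R (w j) - w j)⟫_ℂ).re + N * (C1 * δ) := by
      have : ∑ j : Fin N, (⟪Θ (P (e j)), Θ (Q (e j))⟫_ℂ).re
        ≤ ∑ j : Fin N, ((⟪Θ (R (w j)), Θ (((ν + c : ℝ) : ℂ) • R (w j) - w j)⟫_ℂ).re + C1 * δ) := by
        refine Finset.sum_le_sum (fun j _ => ?_)
        have := (abs_le.1 (hpert j)).2
        linarith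
      rw [Finset.sum_add_distrib, Finset.sum_const, Finset.card_univ, Fintype.card_fin, nsmul_eq_mul] at this
      exact this
    have hB : ∑ j : Fin N, (⟪Θ (R (w j)), Θ (((ν + c : ℝ) : ℂ) • R (w j) - w j)⟫_ℂ).re ≤ Bnd := by
      have : ∑ j : Fin N, (⟪Θ (R (w j)), Θ (((ν + c : ℝ) : ℂ) • R (w j) - w j)⟫_ℂ).re
          ≤ ∑ j : Fin N, (‖Q‖ + C1) := by
        refine Finset.sum_le_sum (fun j _ => ?_)
        have h1 := (abs_le.1 (hpert j)).1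
        have h2 : (⟪Θ (P (e j)), Θ (Q (e j))⟫_ℂ).re ≤ ‖Q‖ := by
          refine (Complex.re_le_norm _).trans ((norm_inner_le_norm _ _).trans ?_)
          have h3 : ‖Θ (P (e j))‖ ≤ 1 := by
            refine (hΘn _).trans ((P.le_opNorm _).trans ?_)
            rw [hen j, mul_one]; exact hPn
          have h4 : ‖Θ (Q (e j))‖ ≤ ‖Q‖ := by
            refine (hΘn _).trans ((Q.le_opNorm _).trans ?_)
            rw [hen j, mul_one]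
          calc _ ≤ 1 * ‖Q‖ := mul_le_mul h3 h4 (norm_nonneg _) zero_le_one
            _ = ‖Q‖ := one_mul _
        have h5 : C1 * δ ≤ C1 := mul_le_of_le_one_right hC10 hδ1
        linarith
      rw [Finset.sum_const, Finset.card_univ, Fintype.card_fin, nsmul_eq_mul] at this
      rw [hBnd]
      exact this
    have hL := la_arith (locEn V ρ ν χ) Λ Bnd hΛ1 hB0 (hq2.trans hB)
    have hΛb : Λ - 1 ≤ δ * (2 * (‖R‖ * s) + (‖R‖ * s) ^ 2) := by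
      rw [hΛ, ← hs]
      have h1 : δ ^ 2 ≤ δ := by nlinarith only [hδ0, hδ1]
      have h2 : δ ^ 2 * (‖R‖ * s) ^ 2 ≤ δ * (‖R‖ * s) ^ 2 := mul_le_mul_of_nonneg_right h1 (sq_nonneg _)
      have h3 : (1 + ‖R‖ * δ * s) ^ 2 - 1 = δ * (2 * (‖R‖ * s)) + δ ^ 2 * (‖R‖ * s) ^ 2 := by ring
      rw [h3, mul_add]
      linarith
    have hΛb2 : (Λ - 1) * Bnd ≤ δ * (2 * (‖R‖ * s) + (‖R‖ * s) ^ 2) * Bnd :=
      mul_le_mul_of_nonneg_right hΛb hB0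
    have hM : K ^ 2 * (ν + c + δ * s) ^ 2 * DI ≤ K ^ 2 * (ν + c) ^ 2 * DI
        + δ * (K ^ 2 * (2 * (ν + c) * s + s ^ 2) * DI) := by
      have h1 : δ ^ 2 ≤ δ := by nlinarith only [hδ0, hδ1]
      have h2 : (ν + c + δ * s) ^ 2 ≤ (ν + c) ^ 2 + δ * (2 * (ν + c) * s + s ^ 2) := by
        have h3 : δ ^ 2 * s ^ 2 ≤ δ * s ^ 2 := mul_le_mul_of_nonneg_right h1 (sq_nonneg _)
        have h4 : (ν + c + δ * s) ^ 2 = (ν + c) ^ 2 + δ * (2 * (ν + c) * s) + δ ^ 2 * s ^ 2 := by ring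
        rw [h4, mul_add]
        linarith
      calc K ^ 2 * (ν + c + δ * s) ^ 2 * DI
          ≤ K ^ 2 * ((ν + c) ^ 2 + δ * (2 * (ν + c) * s + s ^ 2)) * DI := by gcongr
        _ = _ := by ring
    have hfin : δ * (N * C1) + δ * (K ^ 2 * (2 * (ν + c) * s + s ^ 2) * DI)
        + δ * (2 * (‖R‖ * s) + (‖R‖ * s) ^ 2) * Bnd ≤ ε / 4 := by
      refine le_trans ?_ hδZ
      rw [hZ]
      have : δ * (1 + N * C1 + K ^ 2 * (2 * (ν + c) * s + s ^ 2) * DI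
        + (2 * (‖R‖ * s) + (‖R‖ * s) ^ 2) * Bnd) = δ + (δ * (N * C1) + δ * (K ^ 2 * (2 * (ν + c) * s + s ^ 2) * DI)
        + δ * (2 * (‖R‖ * s) + (‖R‖ * s) ^ 2) * Bnd) := by ring
      rw [this]
      linarith
    have hA' : (N : ℝ) * (C1 * δ) = δ * (N * C1) := by ring
    rw [hA'] at hA
    linarith

end Pool.Agent.Helper209.PL.LineApprox2
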