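import Pool.Agent.Helper209.PL.Defs

set_option autoImplicit false

namespace Pool.Agent.Helper209.PL.LineFam

open MeasureTheory Set
open scoped SchwartzMap InnerProductSpace FourierTransform


section BStmts
/-- proved elsewhere; use as hypothesis -/
def BoxLevelStmt : Prop := ∀ {ι : Type} [Fintype ι] (L μ : ℝ), 0 < L → 0 < μ → ∀ (V : ℝ → ℝ), Continuous V →
    ∀ (u : ι → ℝ → ℂ), (∀ i, ContDiff ℝ 1 (u i)) → (∀ i, u i (-(L / 2)) = u i (L / 2)) →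
    (∀ a : ℝ → ℂ, Continuous a →
      ∑ i, ‖∫ x in (-(L / 2))..(L / 2), u i x * (starRingEnd ℂ) (a x)‖ ^ 2
        ≤ ∫ x in (-(L / 2))..(L / 2), ‖a x‖ ^ 2) → ∀ (t : ℝ), 0 < t → ∀ (G : ℝ),
    (G = (∑ i, ((μ - t) * (∫ x in (-(L / 2))..(L / 2), ‖u i x‖ ^ 2)
          - ∫ x in (-(L / 2))..(L / 2), (‖deriv (u i) x‖ ^ 2 + V x * ‖u i x‖ ^ 2)))
        - bgsum L (μ - t) + (1 / L) * bgcount L (μ - t) * (∫ x in (-(L / 2))..(L / 2), V x)) →
    (t < μ → G ≤ 3 * (∫ x in (-(L / 2))..(L / 2), (max (-V x) 0) ^ (3 / 2 : ℝ))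
      + (Real.sqrt (μ - t) / Real.pi + 9 / L) * (∫ x in (-(L / 2))..(L / 2), |V x|)) ∧
    (t < μ → G ≤ (8 / Real.sqrt (μ - t)) * (∫ x in (-(L / 2))..(L / 2), V1 μ (V x) ^ 2)
      + 11 * (∫ x in (-(L / 2))..(L / 2), V2 μ (V x) ^ (3 / 2 : ℝ))
      + (Real.sqrt (μ - t) / Real.pi + 1 / L) * (∫ x in (-(L / 2))..(L / 2), (V2 μ (V x) + V3 μ (V x)))
      + (8 / L) * (∫ x in (-(L / 2))..(L / 2), |V x|)
      + 2 * (offE L (fun x => V1 μ (V x)) (μ - t)).toReal) ∧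
    (μ ≤ t → G ≤ (∫ x in (-(L / 2))..(L / 2), (max (-V x - (t - μ)) 0) ^ (3 / 2 : ℝ))
      + (2 / L) * (∫ x in (-(L / 2))..(L / 2), max (-V x - (t - μ)) 0))

def WaveOrthStmt : Prop := ∀ (L : ℝ), 0 < L → ∀ (m n : ℤ),
    ∫ x in (-(L / 2))..(L / 2), wave L n x * (starRingEnd ℂ) (wave L m x) = if m = n then 1 else 0

def WaveBesselStmt : Prop := ∀ (L : ℝ), 0 < L → ∀ (f : ℝ → ℂ), Continuous f → ∀ (s : Finset ℤ),
    ∑ n ∈ s, ‖∫ x in (-(L / 2))..(L / 2), f x * (starRingEnd ℂ) (wave L n x)‖ ^ 2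
      ≤ ∫ x in (-(L / 2))..(L / 2), ‖f x‖ ^ 2

def CutoffFactsStmt : Prop := ∀ (ρ : ℝ), 0 < ρ →
    ContDiff ℝ 2 (cutoff ρ) ∧ ContDiff ℝ 2 (cocut ρ) ∧ HasCompactSupport (cutoff ρ) ∧
    (∀ x, 0 ≤ cutoff ρ x ∧ cutoff ρ x ≤ 1) ∧ (∀ x, 0 ≤ cocut ρ x ∧ cocut ρ x ≤ 1) ∧
    (∀ x, cutoff ρ x ^ 2 + cocut ρ x ^ 2 = 1) ∧
    (∀ x, |x| ≤ ρ → cutoff ρ x = 1 ∧ cocut ρ x = 0) ∧
    (∀ x, 2 * ρ ≤ |x| → cutoff ρ x = 0 ∧ cocut ρ x = 1)
end BStmts



/-- integrals over the box -/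
theorem w12_box {E : Type*} [NormedAddCommGroup E] [NormedSpace ℝ E] {L : ℝ} (hL : 0 < L)
    (f : ℝ → E) (hf : ∀ x, L / 2 ≤ |x| → f x = 0) :
    ∫ x in (-(L / 2))..(L / 2), f x = ∫ x, f x := by
  rw [intervalIntegral.integral_of_le (by linarith)]
  refine setIntegral_eq_integral_of_forall_compl_eq_zero ?_
  intro x hx
  apply hf
  rw [Set.mem_Ioc, not_and_or] at hx
  rcases hx with hx | hx
  · have h1 := neg_abs_le x
    push Not at hx
    linarith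
  · have h1 := le_abs_self x
    push Not at hx
    linarith

theorem w12_wave_norm {L : ℝ} (hL : 0 < L) (n : ℤ) (x : ℝ) : ‖wave L n x‖ ^ 2 = 1 / L := by
  unfold wave
  rw [norm_mul, Complex.norm_exp_ofReal_mul_I, mul_one, Complex.norm_real, Real.norm_eq_abs,
    sq_abs, div_pow, one_pow, Real.sq_sqrt hL.le]

theorem w12_wave_deriv (L : ℝ) (n : ℤ) (x : ℝ) :
    HasDerivAt (wave L n) (((mom L n : ℝ) : ℂ) * Complex.I * wave L n x) x := by
  unfold wave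
  have h1 : HasDerivAt (fun x : ℝ => mom L n * x) (mom L n) x := by
    simpa using (hasDerivAt_id x).const_mul (mom L n)
  have h2 : HasDerivAt (fun x : ℝ => (((mom L n * x : ℝ) : ℂ) * Complex.I))
      ((mom L n : ℂ) * Complex.I) x := (h1.ofReal_comp).mul_const Complex.I
  have h3 := (h2.cexp).const_mul ((1 / Real.sqrt L : ℝ) : ℂ)
  refine h3.congr_deriv ?_
  ring

theorem w12_wave_contDiff (L : ℝ) (n : ℤ) : ContDiff ℝ 1 (wave L n) := by
  unfold wave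
  have h1 : ContDiff ℝ 1 (fun x : ℝ => ((mom L n * x : ℝ) : ℂ)) :=
    Complex.ofRealCLM.contDiff.comp (contDiff_const.mul contDiff_id)
  exact contDiff_const.mul ((h1.mul contDiff_const).cexp)

theorem w12_wave_match {L : ℝ} (hL : 0 < L) (n : ℤ) :
    wave L n (-(L / 2)) = wave L n (L / 2) := by
  unfold wave
  congr 1
  rw [Complex.exp_eq_exp_iff_exists_int]
  refine ⟨-n, ?_⟩
  have hL' : (L : ℂ) ≠ 0 := by exact_mod_cast hL.ne'
  unfold mom
  push_cast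
  field_simp
  ring

theorem w12_cont_wave (L : ℝ) (n : ℤ) : Continuous (wave L n) :=
  (w12_wave_contDiff L n).continuous

/-- the functions outside -/
noncomputable def w12out (ρ L : ℝ) (n : ℤ) (x : ℝ) : ℂ := (cocut ρ x : ℂ) * wave L n x

theorem w12_out_norm {L : ℝ} (hL : 0 < L) (ρ : ℝ) (n : ℤ) (x : ℝ) :
    ‖w12out ρ L n x‖ ^ 2 = cocut ρ x ^ 2 / L := by
  unfold w12out
  rw [norm_mul, mul_pow, w12_wave_norm hL, Complex.norm_real, Real.norm_eq_abs, sq_abs]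
  ring

theorem w12_out_deriv {L : ℝ} (hL : 0 < L) {ρ : ℝ} (hc : ContDiff ℝ 2 (cocut ρ)) (n : ℤ) (x : ℝ) :
    ‖deriv (w12out ρ L n) x‖ ^ 2 = (deriv (cocut ρ) x ^ 2 + mom L n ^ 2 * cocut ρ x ^ 2) / L := by
  have h1 : HasDerivAt (cocut ρ) (deriv (cocut ρ) x) x :=
    ((hc.differentiable (by norm_num)).differentiableAt).hasDerivAt
  have h2 := (h1.ofReal_comp).mul (w12_wave_deriv L n x)
  have h3 : deriv (w12out ρ L n) x = (((deriv (cocut ρ) x : ℝ) : ℂ) +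
      ((mom L n * cocut ρ x : ℝ) : ℂ) * Complex.I) * wave L n x := by
    have h4 : HasDerivAt (w12out ρ L n) _ x := h2
    rw [h4.deriv]
    push_cast
    ring
  rw [h3, norm_mul, mul_pow, w12_wave_norm hL, ← Complex.normSq_eq_norm_sq,
    Complex.normSq_add_mul_I]
  ring

theorem w12_out_contDiff (L : ℝ) {ρ : ℝ} (hc : ContDiff ℝ 2 (cocut ρ)) (n : ℤ) :
    ContDiff ℝ 1 (w12out ρ L n) :=
  (Complex.ofRealCLM.contDiff.comp (hc.of_le (by norm_num))).mul (w12_wave_contDiff L n)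

/-- the modes below the level -/
theorem w12_finite {L : ℝ} (hL : 0 < L) (ν : ℝ) : {n : ℤ | mom L n ^ 2 < ν}.Finite := by
  have h1 : {n : ℤ | mom L n ^ 2 < ν} ⊆ Set.Icc (-⌈ν * L ^ 2⌉) ⌈ν * L ^ 2⌉ := by
    intro n hn
    have hn' : mom L n ^ 2 < ν := hn
    have hpi := Real.pi_gt_three
    have h2 : (n : ℝ) ^ 2 ≤ ν * L ^ 2 := by
      have h3 : mom L n ^ 2 * L ^ 2 = (2 * Real.pi) ^ 2 * (n : ℝ) ^ 2 := by
        unfold mom
        field_simp
      have h4 : mom L n ^ 2 * L ^ 2 ≤ ν * L ^ 2 := mul_le_mul_of_nonneg_right hn'.le (by positivity)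
      have h5 : (1 : ℝ) ≤ (2 * Real.pi) ^ 2 := by nlinarith
      have h6 : (n : ℝ) ^ 2 ≤ (2 * Real.pi) ^ 2 * (n : ℝ) ^ 2 := by
        nlinarith [sq_nonneg (n : ℝ)]
      linarith
    have h3 : ν * L ^ 2 ≤ (⌈ν * L ^ 2⌉ : ℝ) := Int.le_ceil _
    have h4 : n ^ 2 ≤ ⌈ν * L ^ 2⌉ := by exact_mod_cast h2.trans h3
    have h5 : |n| ≤ n ^ 2 := by
      have := Int.le_self_sq |n|
      rwa [sq_abs] at this
    have h6 := abs_le.1 (h5.trans h4)
    exact ⟨h6.1, h6.2⟩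
  exact (Set.finite_Icc _ _).subset h1

theorem w12_bgsum {L : ℝ} (ν : ℝ) (B : Finset ℤ) (hB : ∀ n, n ∈ B ↔ mom L n ^ 2 < ν) :
    bgsum L ν = ∑ n ∈ B, (ν - mom L n ^ 2) := by
  unfold bgsum
  rw [tsum_eq_sum (s := B)]
  · refine Finset.sum_congr rfl ?_
    intro n hn
    exact max_eq_left (by have := (hB n).1 hn; linarith)
  · intro n hn
    exact max_eq_right (by have := (hB n).not.1 hn; linarith)

theorem w12_bgcount {L : ℝ} (ν : ℝ) (B : Finset ℤ)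
    (hB : ∀ n, n ∈ B ↔ mom L n ^ 2 < ν) : bgcount L ν = B.card := by
  unfold bgcount
  rw [tsum_eq_sum (s := B)]
  · rw [Finset.sum_congr rfl (fun n hn => if_pos ((hB n).1 hn))]
    simp
  · intro n hn
    exact if_neg ((hB n).not.1 hn)

/-- energy of one function outside -/
theorem w12_out_energy {L ρ : ℝ} (hL : 0 < L) (hc : ContDiff ℝ 2 (cocut ρ))
    (h0 : ∀ x, |x| ≤ ρ → cocut ρ x = 0) (V : ℝ → ℝ) (hVs : ∀ x, ρ ≤ |x| → V x = 0) (ν : ℝ)
    (n : ℤ) :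
    ν * (∫ x in (-(L / 2))..(L / 2), ‖w12out ρ L n x‖ ^ 2) -
      (∫ x in (-(L / 2))..(L / 2), (‖deriv (w12out ρ L n) x‖ ^ 2 + V x * ‖w12out ρ L n x‖ ^ 2)) =
    (1 / L) * ((ν - mom L n ^ 2) * (∫ x in (-(L / 2))..(L / 2), cocut ρ x ^ 2) -
      ∫ x in (-(L / 2))..(L / 2), deriv (cocut ρ) x ^ 2) := by
  have hcc : Continuous (cocut ρ) := hc.continuous
  have hdc : Continuous (deriv (cocut ρ)) := hc.continuous_deriv (by norm_num)
  have e1 : ∀ x, ‖deriv (w12out ρ L n) x‖ ^ 2 + V x * ‖w12out ρ L n x‖ ^ 2 =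
      (1 / L) * deriv (cocut ρ) x ^ 2 + (mom L n ^ 2 / L) * cocut ρ x ^ 2 := by
    intro x
    rw [w12_out_deriv hL hc, w12_out_norm hL]
    have : V x * (cocut ρ x ^ 2 / L) = 0 := by
      rcases le_total |x| ρ with hx | hx
      · rw [h0 x hx]
        simp
      · rw [hVs x hx]
        simp
    rw [this]
    ring
  have e2 : ∀ x, ‖w12out ρ L n x‖ ^ 2 = (1 / L) * cocut ρ x ^ 2 := by
    intro x
    rw [w12_out_norm hL]
    ring
  simp only [e1]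
  simp only [e2]
  rw [intervalIntegral.integral_add, intervalIntegral.integral_const_mul,
    intervalIntegral.integral_const_mul, intervalIntegral.integral_const_mul]
  · ring
  · exact (continuous_const.mul (hdc.pow 2)).intervalIntegrable _ _
  · exact (continuous_const.mul (hcc.pow 2)).intervalIntegrable _ _

/-- the functions inside -/
noncomputable def w12in (ρ Λ : ℝ) (f : ℝ → ℂ) (x : ℝ) : ℂ :=
  ((1 / Real.sqrt Λ : ℝ) : ℂ) * ((cutoff ρ x : ℂ) * f x)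

theorem w12_const_sq {Λ : ℝ} (hΛ : 0 < Λ) : ‖((1 / Real.sqrt Λ : ℝ) : ℂ)‖ ^ 2 = 1 / Λ := by
  rw [Complex.norm_real, Real.norm_eq_abs, sq_abs, div_pow, one_pow, Real.sq_sqrt hΛ.le]

theorem w12_in_norm {Λ : ℝ} (hΛ : 0 < Λ) (ρ : ℝ) (f : ℝ → ℂ) (x : ℝ) :
    ‖w12in ρ Λ f x‖ ^ 2 = (1 / Λ) * ‖(cutoff ρ x : ℂ) * f x‖ ^ 2 := by
  unfold w12in
  rw [norm_mul, mul_pow, w12_const_sq hΛ]

theorem w12_in_deriv {Λ : ℝ} (hΛ : 0 < Λ) (ρ : ℝ) (f : ℝ → ℂ)
    (hd : Differentiable ℝ (fun y : ℝ => (cutoff ρ y : ℂ) * f y)) (x : ℝ) :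
    ‖deriv (w12in ρ Λ f) x‖ ^ 2 =
      (1 / Λ) * ‖deriv (fun y : ℝ => (cutoff ρ y : ℂ) * f y) x‖ ^ 2 := by
  have h1 : deriv (w12in ρ Λ f) x = ((1 / Real.sqrt Λ : ℝ) : ℂ) *
      deriv (fun y : ℝ => (cutoff ρ y : ℂ) * f y) x :=
    ((hd x).hasDerivAt.const_mul _).deriv
  rw [h1, norm_mul, mul_pow, w12_const_sq hΛ]

/-- energy of one function inside -/
theorem w12_in_energy {L ρ Λ : ℝ} (hL : 0 < L) (hρ : 0 < ρ) (h4 : 4 * ρ < L) (hΛ : 0 < Λ)
    (h0 : ∀ x, 2 * ρ ≤ |x| → cutoff ρ x = 0) (f : ℝ → ℂ)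
    (hd : Differentiable ℝ (fun y : ℝ => (cutoff ρ y : ℂ) * f y)) (V : ℝ → ℝ) (ν : ℝ) :
    ν * (∫ x in (-(L / 2))..(L / 2), ‖w12in ρ Λ f x‖ ^ 2) -
      (∫ x in (-(L / 2))..(L / 2), (‖deriv (w12in ρ Λ f) x‖ ^ 2 + V x * ‖w12in ρ Λ f x‖ ^ 2)) =
    (1 / Λ) * (ν * (∫ x, cutoff ρ x ^ 2 * ‖f x‖ ^ 2)
    - ∫ x, (‖deriv (fun y : ℝ => (cutoff ρ y : ℂ) * f y) x‖ ^ 2 + V x * ‖(cutoff ρ x : ℂ) * f x‖ ^ 2)) := by
  have e1 : ∀ x, ‖deriv (w12in ρ Λ f) x‖ ^ 2 + V x * ‖w12in ρ Λ f x‖ ^ 2 =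
      (1 / Λ) * (‖deriv (fun y : ℝ => (cutoff ρ y : ℂ) * f y) x‖ ^ 2 +
        V x * ‖(cutoff ρ x : ℂ) * f x‖ ^ 2) := by
    intro x
    rw [w12_in_deriv hΛ ρ f hd, w12_in_norm hΛ]
    ring
  have e2 : ∀ x, ‖w12in ρ Λ f x‖ ^ 2 = (1 / Λ) * (cutoff ρ x ^ 2 * ‖f x‖ ^ 2) := by
    intro x
    rw [w12_in_norm hΛ, norm_mul, mul_pow, Complex.norm_real, Real.norm_eq_abs, sq_abs]
  simp only [e1]
  simp only [e2]
  rw [intervalIntegral.integral_const_mul, intervalIntegral.integral_const_mul]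
  rw [w12_box hL, w12_box hL]
  · ring
  · intro x hx
    have hx2 : 2 * ρ < |x| := by linarith
    have e3 : (fun y : ℝ => (cutoff ρ y : ℂ) * f y) =ᶠ[nhds x] fun _ => 0 := by
      have hopen : IsOpen {y : ℝ | 2 * ρ < |y|} := isOpen_lt continuous_const continuous_abs
      filter_upwards [hopen.mem_nhds hx2] with y hy
      have hy' : 2 * ρ < |y| := hy
      rw [h0 y hy'.le]
      simp
    rw [e3.deriv_eq, h0 x hx2.le]
    simp
  · intro x hx
    rw [h0 x (by linarith)]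
    simp

theorem w12_L2norm (a : L2R) : ‖a‖ ^ 2 = ∫ x, ‖(a : ℝ → ℂ) x‖ ^ 2 := by
  have h1 : (inner ℂ a a : ℂ) = ((‖a‖ ^ 2 : ℝ) : ℂ) := by
    rw [inner_self_eq_norm_sq_to_K]
    norm_cast
  have h2 : (inner ℂ a a : ℂ) = ((∫ x, ‖(a : ℝ → ℂ) x‖ ^ 2 : ℝ) : ℂ) := by
    have h3 : ((∫ x, ‖(a : ℝ → ℂ) x‖ ^ 2 : ℝ) : ℂ) = ∫ x, ((‖(a : ℝ → ℂ) x‖ ^ 2 : ℝ) : ℂ) :=
      integral_complex_ofReal.symm
    rw [MeasureTheory.L2.inner_def, h3]
    refine integral_congr_ae (Filter.Eventually.of_forall fun x => ?_)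
    simp only [inner_self_eq_norm_sq_to_K]
    norm_cast
  rw [h1] at h2
  exact_mod_cast h2

/-- level bounds for localised families on the line -/
theorem line_family (hBL : BoxLevelStmt) (hO : WaveOrthStmt) (hWB : WaveBesselStmt) (hcut : CutoffFactsStmt)
    {ι : Type} [Fintype ι] (L ρ μ : ℝ) (hρ : 0 < ρ) (hL : 4 * ρ < L) (hμ : 0 < μ)
    (V : ℝ → ℝ) (hV : Continuous V) (hVs : ∀ x, ρ ≤ |x| → V x = 0)
    (χ : ι → 𝓢(ℝ, ℂ)) (Λ : ℝ) (hΛ : 0 < Λ)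
    (hBes : ∀ a : L2R, ∑ j, ‖∫ x, χ j x * (starRingEnd ℂ) (a x)‖ ^ 2 ≤ Λ * ‖a‖ ^ 2)
    (t : ℝ) (ht : 0 < t) (G : ℝ)
    (hG : G = (1 / Λ) * locEn V ρ (μ - t) χ
        - ((1 / L) * ∫ x, cutoff ρ x ^ 2) * bgsum L (μ - t)
        + (1 / L) * bgcount L (μ - t) * (∫ x in (-(L / 2))..(L / 2), V x)
        - (1 / L) * bgcount L (μ - t) * (∫ x in (-(L / 2))..(L / 2), deriv (cocut ρ) x ^ 2)) :
    (t < μ → G ≤ 3 * (∫ x in (-(L / 2))..(L / 2), (max (-V x) 0) ^ (3 / 2 : ℝ))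
      + (Real.sqrt (μ - t) / Real.pi + 9 / L) * (∫ x in (-(L / 2))..(L / 2), |V x|)) ∧
    (t < μ → G ≤ (8 / Real.sqrt (μ - t)) * (∫ x in (-(L / 2))..(L / 2), V1 μ (V x) ^ 2)
      + 11 * (∫ x in (-(L / 2))..(L / 2), V2 μ (V x) ^ (3 / 2 : ℝ))
      + (Real.sqrt (μ - t) / Real.pi + 1 / L) * (∫ x in (-(L / 2))..(L / 2), (V2 μ (V x) + V3 μ (V x)))
      + (8 / L) * (∫ x in (-(L / 2))..(L / 2), |V x|)
      + 2 * (offE L (fun x => V1 μ (V x)) (μ - t)).toReal) ∧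
    (μ ≤ t → G ≤ (∫ x in (-(L / 2))..(L / 2), (max (-V x - (t - μ)) 0) ^ (3 / 2 : ℝ))
      + (2 / L) * (∫ x in (-(L / 2))..(L / 2), max (-V x - (t - μ)) 0)) := by
  classical
  obtain ⟨c1, c2, c3, c4, c5, c6, c7, c8⟩ := hcut ρ hρ
  have hL0 : 0 < L := by linarith
  have hcc : Continuous (cutoff ρ) := c1.continuous
  have hcoc : Continuous (cocut ρ) := c2.continuous
  have hbox : ∀ x, L / 2 ≤ |x| → cutoff ρ x = 0 := fun x hx => (c8 x (by linarith)).1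
  -- the modes
  obtain ⟨B, hB⟩ : ∃ B : Finset ℤ, ∀ n, n ∈ B ↔ mom L n ^ 2 < μ - t :=
    ⟨(w12_finite hL0 (μ - t)).toFinset, fun n => by
      rw [Set.Finite.mem_toFinset]
      rfl⟩
  have hχc : ∀ j, ContDiff ℝ 1 (fun y : ℝ => (cutoff ρ y : ℂ) * χ j y) := fun j =>
    (Complex.ofRealCLM.contDiff.comp (c1.of_le (by norm_num))).mul ((χ j).smooth 1)
  have hχd : ∀ j, Differentiable ℝ (fun y : ℝ => (cutoff ρ y : ℂ) * χ j y) := fun j =>
    (hχc j).differentiable (by norm_num)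
  have key := hBL (ι := ι ⊕ {n : ℤ // n ∈ B}) L μ hL0 hμ V hV
    (Sum.elim (fun j => w12in ρ Λ (fun x => χ j x)) (fun n => w12out ρ L n.1)) ?_ ?_ ?_ t ht G ?_
  · exact key
  · rintro (j | n)
    · exact contDiff_const.mul (hχc j)
    · exact w12_out_contDiff L c2 n.1
  · have e1 : L / 2 ≤ |-(L / 2)| := by rw [abs_neg]; exact le_abs_self _
    have e2 : L / 2 ≤ |L / 2| := le_abs_self _
    rintro (j | n)
    · show w12in ρ Λ (fun x => χ j x) (-(L / 2)) = w12in ρ Λ (fun x => χ j x) (L / 2)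
      unfold w12in
      rw [hbox _ e1, hbox _ e2]
      simp
    · show w12out ρ L n.1 (-(L / 2)) = w12out ρ L n.1 (L / 2)
      unfold w12out
      rw [(c8 _ (by linarith : 2 * ρ ≤ |-(L / 2)|)).2, (c8 _ (by linarith : 2 * ρ ≤ |L / 2|)).2,
        w12_wave_match hL0]
  · intro a ha
    rw [Fintype.sum_sum_type]
    simp only [Sum.elim_inl, Sum.elim_inr]
    -- inside
    have hin : ∑ j, ‖∫ x in (-(L / 2))..(L / 2), w12in ρ Λ (fun x => χ j x) x *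
        (starRingEnd ℂ) (a x)‖ ^ 2 ≤ ∫ x in (-(L / 2))..(L / 2), cutoff ρ x ^ 2 * ‖a x‖ ^ 2 := by
      have hAc : Continuous (fun x => (cutoff ρ x : ℂ) * a x) :=
        (Complex.continuous_ofReal.comp hcc).mul ha
      have hAs : HasCompactSupport (fun x => (cutoff ρ x : ℂ) * a x) := by
        refine HasCompactSupport.mul_right ?_
        exact c3.comp_left (g := fun r : ℝ => (r : ℂ)) Complex.ofReal_zero
      have hAm : MemLp (fun x => (cutoff ρ x : ℂ) * a x) 2 volume :=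
        hAc.memLp_of_hasCompactSupport hAs
      have h1 := hBes hAm.toLp
      have hco := hAm.coeFn_toLp
      have e1 : ‖hAm.toLp‖ ^ 2 = ∫ x in (-(L / 2))..(L / 2), cutoff ρ x ^ 2 * ‖a x‖ ^ 2 := by
        rw [w12_L2norm, w12_box hL0]
        · refine integral_congr_ae ?_
          filter_upwards [hco] with x hx
          rw [hx, norm_mul, mul_pow, Complex.norm_real, Real.norm_eq_abs, sq_abs]
        · intro x hx
          rw [hbox x hx]
          simp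
      have e2 : ∀ j, ‖∫ x in (-(L / 2))..(L / 2), w12in ρ Λ (fun x => χ j x) x *
          (starRingEnd ℂ) (a x)‖ ^ 2 = (1 / Λ) *
          ‖∫ x, χ j x * (starRingEnd ℂ) ((hAm.toLp : ℝ → ℂ) x)‖ ^ 2 := by
        intro j
        have e3 : ∫ x in (-(L / 2))..(L / 2), w12in ρ Λ (fun x => χ j x) x *
            (starRingEnd ℂ) (a x) = ((1 / Real.sqrt Λ : ℝ) : ℂ) *
            ∫ x, χ j x * (starRingEnd ℂ) ((hAm.toLp : ℝ → ℂ) x) := by
          rw [w12_box hL0]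
          · rw [← integral_const_mul]
            refine integral_congr_ae ?_
            filter_upwards [hco] with x hx
            rw [hx]
            unfold w12in
            rw [map_mul, Complex.conj_ofReal]
            ring
          · intro x hx
            unfold w12in
            rw [hbox x hx]
            simp
        rw [e3, norm_mul, mul_pow, w12_const_sq hΛ]
      simp only [e2]
      rw [← Finset.mul_sum, ← e1, one_div, inv_mul_le_iff₀ hΛ]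
      exact h1
    -- outside
    have hout : ∑ n : {n : ℤ // n ∈ B}, ‖∫ x in (-(L / 2))..(L / 2), w12out ρ L n.1 x *
        (starRingEnd ℂ) (a x)‖ ^ 2 ≤ ∫ x in (-(L / 2))..(L / 2), cocut ρ x ^ 2 * ‖a x‖ ^ 2 := by
      have hfc : Continuous (fun x => (cocut ρ x : ℂ) * a x) :=
        (Complex.continuous_ofReal.comp hcoc).mul ha
      have h1 := hWB L hL0 _ hfc B
      have e1 : ∀ n : ℤ, ‖∫ x in (-(L / 2))..(L / 2), w12out ρ L n x * (starRingEnd ℂ) (a x)‖ =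
          ‖∫ x in (-(L / 2))..(L / 2), ((cocut ρ x : ℂ) * a x) * (starRingEnd ℂ) (wave L n x)‖ := by
        intro n
        have e3 : ∫ x in (-(L / 2))..(L / 2), ((cocut ρ x : ℂ) * a x) *
            (starRingEnd ℂ) (wave L n x) = (starRingEnd ℂ)
            (∫ x in (-(L / 2))..(L / 2), w12out ρ L n x * (starRingEnd ℂ) (a x)) := by
          rw [intervalIntegral.integral_of_le (by linarith),
            intervalIntegral.integral_of_le (by linarith), ← integral_conj]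
          refine integral_congr_ae (Filter.Eventually.of_forall fun x => ?_)
          simp only [w12out, map_mul, Complex.conj_ofReal, Complex.conj_conj]
          ring
        rw [e3, RCLike.norm_conj]
      have e2 : ∀ x, ‖(cocut ρ x : ℂ) * a x‖ ^ 2 = cocut ρ x ^ 2 * ‖a x‖ ^ 2 := by
        intro x
        rw [norm_mul, mul_pow, Complex.norm_real, Real.norm_eq_abs, sq_abs]
      simp only [e2] at h1
      simp only [← e1] at h1
      rw [← Finset.sum_coe_sort B] at h1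
      exact h1
    refine (add_le_add hin hout).trans (le_of_eq ?_)
    rw [← intervalIntegral.integral_add]
    · refine intervalIntegral.integral_congr (fun x _ => ?_)
      have := c6 x
      show cutoff ρ x ^ 2 * ‖a x‖ ^ 2 + cocut ρ x ^ 2 * ‖a x‖ ^ 2 = ‖a x‖ ^ 2
      rw [← add_mul, this, one_mul]
    · exact ((hcc.pow 2).mul (ha.norm.pow 2)).intervalIntegrable _ _
    · exact ((hcoc.pow 2).mul (ha.norm.pow 2)).intervalIntegrable _ _
  · rw [hG, Fintype.sum_sum_type]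
    simp only [Sum.elim_inl, Sum.elim_inr]
    have s1 : ∑ j, ((μ - t) * (∫ x in (-(L / 2))..(L / 2), ‖w12in ρ Λ (fun x => χ j x) x‖ ^ 2)
          - ∫ x in (-(L / 2))..(L / 2), (‖deriv (w12in ρ Λ (fun x => χ j x)) x‖ ^ 2 +
            V x * ‖w12in ρ Λ (fun x => χ j x) x‖ ^ 2)) = (1 / Λ) * locEn V ρ (μ - t) χ := by
      unfold locEn
      rw [Finset.mul_sum]
      refine Finset.sum_congr rfl (fun j _ => ?_)
      exact w12_in_energy hL0 hρ hL hΛ (fun x hx => (c8 x hx).1) (fun x => χ j x) (hχd j) V (μ - t)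
    have s2 : ∑ n : {n : ℤ // n ∈ B}, ((μ - t) * (∫ x in (-(L / 2))..(L / 2), ‖w12out ρ L n.1 x‖ ^ 2)
          - ∫ x in (-(L / 2))..(L / 2), (‖deriv (w12out ρ L n.1) x‖ ^ 2 +
            V x * ‖w12out ρ L n.1 x‖ ^ 2)) =
        (1 / L) * (∫ x in (-(L / 2))..(L / 2), cocut ρ x ^ 2) * bgsum L (μ - t) -
        (1 / L) * bgcount L (μ - t) * (∫ x in (-(L / 2))..(L / 2), deriv (cocut ρ) x ^ 2) := by
      rw [w12_bgsum _ B hB, w12_bgcount _ B hB,
        Finset.sum_coe_sort B (fun n : ℤ => ((μ - t) *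
          (∫ x in (-(L / 2))..(L / 2), ‖w12out ρ L n x‖ ^ 2)
          - ∫ x in (-(L / 2))..(L / 2), (‖deriv (w12out ρ L n) x‖ ^ 2 +
            V x * ‖w12out ρ L n x‖ ^ 2)))]
      rw [Finset.sum_congr rfl (fun n _ => w12_out_energy hL0 c2 (fun x hx => (c7 x hx).2) V hVs
        (μ - t) n)]
      rw [← Finset.mul_sum, Finset.sum_sub_distrib, ← Finset.sum_mul, Finset.sum_const,
        nsmul_eq_mul]
      ring
    have s3 : (1 / L) * (∫ x in (-(L / 2))..(L / 2), cocut ρ x ^ 2) =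
        1 - (1 / L) * ∫ x, cutoff ρ x ^ 2 := by
      have e1 : (∫ x in (-(L / 2))..(L / 2), cutoff ρ x ^ 2) +
          (∫ x in (-(L / 2))..(L / 2), cocut ρ x ^ 2) = L := by
        rw [← intervalIntegral.integral_add]
        · simp only [c6]
          rw [intervalIntegral.integral_const]
          simp
        · exact (hcc.pow 2).intervalIntegrable _ _
        · exact (hcoc.pow 2).intervalIntegrable _ _
      have e2 : ∫ x in (-(L / 2))..(L / 2), cutoff ρ x ^ 2 = ∫ x, cutoff ρ x ^ 2 := by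
        refine w12_box hL0 _ ?_
        intro x hx
        rw [hbox x hx]
        simp
      rw [← e2]
      have e3 : (∫ x in (-(L / 2))..(L / 2), cocut ρ x ^ 2) =
          L - ∫ x in (-(L / 2))..(L / 2), cutoff ρ x ^ 2 := by linarith
      rw [e3]
      field_simp
    rw [s1, s2, s3]
    ring

end Pool.Agent.Helper209.PL.LineFam
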