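import Pool.Agent.Helper209.PL.LineFam

set_option autoImplicit false

namespace Pool.Agent.Helper209.PL.LineFam2

open MeasureTheory Set Pool.Agent.Helper209.PL.LineFam
open scoped SchwartzMap InnerProductSpace FourierTransform

/-- energy of one function outside -/
theorem out_energy2 {L ρ : ℝ} (hL : 0 < L) (hc : ContDiff ℝ 2 (cocut ρ))
    (V : ℝ → ℝ) (hV : Continuous V) (ν : ℝ) (n : ℤ) :
    ν * (∫ x in (-(L / 2))..(L / 2), ‖w12out ρ L n x‖ ^ 2) -
      (∫ x in (-(L / 2))..(L / 2), (‖deriv (w12out ρ L n) x‖ ^ 2 + V x * ‖w12out ρ L n x‖ ^ 2)) =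
    (1 / L) * ((ν - mom L n ^ 2) * (∫ x in (-(L / 2))..(L / 2), cocut ρ x ^ 2) -
      (∫ x in (-(L / 2))..(L / 2), deriv (cocut ρ) x ^ 2)
      - ∫ x in (-(L / 2))..(L / 2), cocut ρ x ^ 2 * V x) := by
  have hcc : Continuous (cocut ρ) := hc.continuous
  have hdc : Continuous (deriv (cocut ρ)) := hc.continuous_deriv (by norm_num)
  have e1 : ∀ x, ‖deriv (w12out ρ L n) x‖ ^ 2 + V x * ‖w12out ρ L n x‖ ^ 2 =
      ((1 / L) * deriv (cocut ρ) x ^ 2 + (mom L n ^ 2 / L) * cocut ρ x ^ 2)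
        + (1 / L) * (cocut ρ x ^ 2 * V x) := by
    intro x
    rw [w12_out_deriv hL hc, w12_out_norm hL]
    ring
  have e2 : ∀ x, ‖w12out ρ L n x‖ ^ 2 = (1 / L) * cocut ρ x ^ 2 := by
    intro x
    rw [w12_out_norm hL]
    ring
  simp only [e1]
  simp only [e2]
  have i1 : IntervalIntegrable (fun x => (1 / L) * deriv (cocut ρ) x ^ 2) volume (-(L / 2)) (L / 2) :=
    (continuous_const.mul (hdc.pow 2)).intervalIntegrable _ _
  have i2 : IntervalIntegrable (fun x => (mom L n ^ 2 / L) * cocut ρ x ^ 2) volume (-(L / 2)) (L / 2) :=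
    (continuous_const.mul (hcc.pow 2)).intervalIntegrable _ _
  have i3 : IntervalIntegrable (fun x => (1 / L) * (cocut ρ x ^ 2 * V x)) volume (-(L / 2)) (L / 2) :=
    (continuous_const.mul ((hcc.pow 2).mul hV)).intervalIntegrable _ _
  rw [intervalIntegral.integral_add (i1.add i2) i3, intervalIntegral.integral_add i1 i2,
    intervalIntegral.integral_const_mul, intervalIntegral.integral_const_mul,
    intervalIntegral.integral_const_mul, intervalIntegral.integral_const_mul]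
  ring

/-- level bounds for localised families on the line -/
theorem line_family2 (hBL : BoxLevelStmt) (hO : WaveOrthStmt) (hWB : WaveBesselStmt) (hcut : CutoffFactsStmt)
    {ι : Type} [Fintype ι] (L ρ μ : ℝ) (hρ : 0 < ρ) (hL : 4 * ρ < L) (hμ : 0 < μ)
    (V : ℝ → ℝ) (hV : Continuous V)
    (χ : ι → 𝓢(ℝ, ℂ)) (Λ : ℝ) (hΛ : 0 < Λ)
    (hBes : ∀ a : L2R, ∑ j, ‖∫ x, χ j x * (starRingEnd ℂ) (a x)‖ ^ 2 ≤ Λ * ‖a‖ ^ 2)
    (t : ℝ) (ht : 0 < t) (G : ℝ)
    (hG : G = (1 / Λ) * locEn V ρ (μ - t) χ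
        - ((1 / L) * ∫ x, cutoff ρ x ^ 2) * bgsum L (μ - t)
        + (1 / L) * bgcount L (μ - t) * (∫ x in (-(L / 2))..(L / 2), cutoff ρ x ^ 2 * V x)
        - (1 / L) * bgcount L (μ - t) * (∫ x in (-(L / 2))..(L / 2), deriv (cocut ρ) x ^ 2)) :
    (t < μ → G ≤ 3 * (∫ x in (-(L / 2))..(L / 2), (max (-V x) 0) ^ (3 / 2 : ℝ))
      + (Real.sqrt (μ - t) / Real.pi + 9 / L) * (∫ x in (-(L / 2))..(L / 2), |V x|)) ∧
    (t < μ → G ≤ (8 / Real.sqrt (μ - t)) * (∫ x in (-(L / 2))..(L / 2), V1 μ (V x) ^ 2)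
      + 11 * (∫ x in (-(L / 2))..(L / 2), V2 μ (V x) ^ (3 / 2 : ℝ))
      + (Real.sqrt (μ - t) / Real.pi + 1 / L) * (∫ x in (-(L / 2))..(L / 2), (V2 μ (V x) + V3 μ (V x)))
      + (8 / L) * (∫ x in (-(L / 2))..(L / 2), |V x|)
      + 2 * (offE L (fun x => V1 μ (V x)) (μ - t)).toReal) ∧
    (μ ≤ t → G ≤ (∫ x in (-(L / 2))..(L / 2), (max (-V x - (t - μ)) 0) ^ (3 / 2 : ℝ))
      + (2 / L) * (∫ x in (-(L / 2))..(L / 2), max (-V x - (t - μ)) 0)) := by
  classical
  obtain ⟨c1, c2, c3, c4, c5, c6, c7, c8⟩ := hcut ρ hρ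
  have hL0 : 0 < L := by linarith
  have hcc : Continuous (cutoff ρ) := c1.continuous
  have hcoc : Continuous (cocut ρ) := c2.continuous
  have hbox : ∀ x, L / 2 ≤ |x| → cutoff ρ x = 0 := fun x hx => (c8 x (by linarith)).1
  -- the modes
  obtain ⟨B, hB⟩ : ∃ B : Finset ℤ, ∀ n, n ∈ B ↔ mom L n ^ 2 < μ - t :=
    ⟨(w12_finite hL0 (μ - t)).toFinset, fun n => by
      rw [Set.Finite.mem_toFinset]
      rfl⟩
  have hχc : ∀ j, ContDiff ℝ 1 (fun y : ℝ => (cutoff ρ y : ℂ) * χ j y) := fun j =>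
    (Complex.ofRealCLM.contDiff.comp (c1.of_le (by norm_num))).mul ((χ j).smooth 1)
  have hχd : ∀ j, Differentiable ℝ (fun y : ℝ => (cutoff ρ y : ℂ) * χ j y) := fun j =>
    (hχc j).differentiable (by norm_num)
  have key := hBL (ι := ι ⊕ {n : ℤ // n ∈ B}) L μ hL0 hμ V hV
    (Sum.elim (fun j => w12in ρ Λ (fun x => χ j x)) (fun n => w12out ρ L n.1)) ?_ ?_ ?_ t ht G ?_
  · exact key
  · rintro (j | n)
    · exact contDiff_const.mul (hχc j)
    · exact w12_out_contDiff L c2 n.1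
  · have e1 : L / 2 ≤ |-(L / 2)| := by rw [abs_neg]; exact le_abs_self _
    have e2 : L / 2 ≤ |L / 2| := le_abs_self _
    rintro (j | n)
    · show w12in ρ Λ (fun x => χ j x) (-(L / 2)) = w12in ρ Λ (fun x => χ j x) (L / 2)
      unfold w12in
      rw [hbox _ e1, hbox _ e2]
      simp
    · show w12out ρ L n.1 (-(L / 2)) = w12out ρ L n.1 (L / 2)
      unfold w12out
      rw [(c8 _ (by linarith : 2 * ρ ≤ |-(L / 2)|)).2, (c8 _ (by linarith : 2 * ρ ≤ |L / 2|)).2,
        w12_wave_match hL0]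
  · intro a ha
    rw [Fintype.sum_sum_type]
    simp only [Sum.elim_inl, Sum.elim_inr]
    -- inside
    have hin : ∑ j, ‖∫ x in (-(L / 2))..(L / 2), w12in ρ Λ (fun x => χ j x) x *
        (starRingEnd ℂ) (a x)‖ ^ 2 ≤ ∫ x in (-(L / 2))..(L / 2), cutoff ρ x ^ 2 * ‖a x‖ ^ 2 := by
      have hAc : Continuous (fun x => (cutoff ρ x : ℂ) * a x) :=
        (Complex.continuous_ofReal.comp hcc).mul ha
      have hAs : HasCompactSupport (fun x => (cutoff ρ x : ℂ) * a x) := by
        refine HasCompactSupport.mul_right ?_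
        exact c3.comp_left (g := fun r : ℝ => (r : ℂ)) Complex.ofReal_zero
      have hAm : MemLp (fun x => (cutoff ρ x : ℂ) * a x) 2 volume :=
        hAc.memLp_of_hasCompactSupport hAs
      have h1 := hBes hAm.toLp
      have hco := hAm.coeFn_toLp
      have e1 : ‖hAm.toLp‖ ^ 2 = ∫ x in (-(L / 2))..(L / 2), cutoff ρ x ^ 2 * ‖a x‖ ^ 2 := by
        rw [w12_L2norm, w12_box hL0]
        · refine integral_congr_ae ?_
          filter_upwards [hco] with x hx
          rw [hx, norm_mul, mul_pow, Complex.norm_real, Real.norm_eq_abs, sq_abs]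
        · intro x hx
          rw [hbox x hx]
          simp
      have e2 : ∀ j, ‖∫ x in (-(L / 2))..(L / 2), w12in ρ Λ (fun x => χ j x) x *
          (starRingEnd ℂ) (a x)‖ ^ 2 = (1 / Λ) *
          ‖∫ x, χ j x * (starRingEnd ℂ) ((hAm.toLp : ℝ → ℂ) x)‖ ^ 2 := by
        intro j
        have e3 : ∫ x in (-(L / 2))..(L / 2), w12in ρ Λ (fun x => χ j x) x *
            (starRingEnd ℂ) (a x) = ((1 / Real.sqrt Λ : ℝ) : ℂ) *
            ∫ x, χ j x * (starRingEnd ℂ) ((hAm.toLp : ℝ → ℂ) x) := by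
          rw [w12_box hL0]
          · rw [← integral_const_mul]
            refine integral_congr_ae ?_
            filter_upwards [hco] with x hx
            rw [hx]
            unfold w12in
            rw [map_mul, Complex.conj_ofReal]
            ring
          · intro x hx
            unfold w12in
            rw [hbox x hx]
            simp
        rw [e3, norm_mul, mul_pow, w12_const_sq hΛ]
      simp only [e2]
      rw [← Finset.mul_sum, ← e1, one_div, inv_mul_le_iff₀ hΛ]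
      exact h1
    -- outside
    have hout : ∑ n : {n : ℤ // n ∈ B}, ‖∫ x in (-(L / 2))..(L / 2), w12out ρ L n.1 x *
        (starRingEnd ℂ) (a x)‖ ^ 2 ≤ ∫ x in (-(L / 2))..(L / 2), cocut ρ x ^ 2 * ‖a x‖ ^ 2 := by
      have hfc : Continuous (fun x => (cocut ρ x : ℂ) * a x) :=
        (Complex.continuous_ofReal.comp hcoc).mul ha
      have h1 := hWB L hL0 _ hfc B
      have e1 : ∀ n : ℤ, ‖∫ x in (-(L / 2))..(L / 2), w12out ρ L n x * (starRingEnd ℂ) (a x)‖ =
          ‖∫ x in (-(L / 2))..(L / 2), ((cocut ρ x : ℂ) * a x) * (starRingEnd ℂ) (wave L n x)‖ := by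
        intro n
        have e3 : ∫ x in (-(L / 2))..(L / 2), ((cocut ρ x : ℂ) * a x) *
            (starRingEnd ℂ) (wave L n x) = (starRingEnd ℂ)
            (∫ x in (-(L / 2))..(L / 2), w12out ρ L n x * (starRingEnd ℂ) (a x)) := by
          rw [intervalIntegral.integral_of_le (by linarith),
            intervalIntegral.integral_of_le (by linarith), ← integral_conj]
          refine integral_congr_ae (Filter.Eventually.of_forall fun x => ?_)
          simp only [w12out, map_mul, Complex.conj_ofReal, Complex.conj_conj]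
          ring
        rw [e3, RCLike.norm_conj]
      have e2 : ∀ x, ‖(cocut ρ x : ℂ) * a x‖ ^ 2 = cocut ρ x ^ 2 * ‖a x‖ ^ 2 := by
        intro x
        rw [norm_mul, mul_pow, Complex.norm_real, Real.norm_eq_abs, sq_abs]
      simp only [e2] at h1
      simp only [← e1] at h1
      rw [← Finset.sum_coe_sort B] at h1
      exact h1
    refine (add_le_add hin hout).trans (le_of_eq ?_)
    rw [← intervalIntegral.integral_add]
    · refine intervalIntegral.integral_congr (fun x _ => ?_)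
      have := c6 x
      show cutoff ρ x ^ 2 * ‖a x‖ ^ 2 + cocut ρ x ^ 2 * ‖a x‖ ^ 2 = ‖a x‖ ^ 2
      rw [← add_mul, this, one_mul]
    · exact ((hcc.pow 2).mul (ha.norm.pow 2)).intervalIntegrable _ _
    · exact ((hcoc.pow 2).mul (ha.norm.pow 2)).intervalIntegrable _ _
  · rw [hG, Fintype.sum_sum_type]
    simp only [Sum.elim_inl, Sum.elim_inr]
    have s1 : ∑ j, ((μ - t) * (∫ x in (-(L / 2))..(L / 2), ‖w12in ρ Λ (fun x => χ j x) x‖ ^ 2)
          - ∫ x in (-(L / 2))..(L / 2), (‖deriv (w12in ρ Λ (fun x => χ j x)) x‖ ^ 2 +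
            V x * ‖w12in ρ Λ (fun x => χ j x) x‖ ^ 2)) = (1 / Λ) * locEn V ρ (μ - t) χ := by
      unfold locEn
      rw [Finset.mul_sum]
      refine Finset.sum_congr rfl (fun j _ => ?_)
      exact w12_in_energy hL0 hρ hL hΛ (fun x hx => (c8 x hx).1) (fun x => χ j x) (hχd j) V (μ - t)
    have s2 : ∑ n : {n : ℤ // n ∈ B}, ((μ - t) * (∫ x in (-(L / 2))..(L / 2), ‖w12out ρ L n.1 x‖ ^ 2)
          - ∫ x in (-(L / 2))..(L / 2), (‖deriv (w12out ρ L n.1) x‖ ^ 2 +
            V x * ‖w12out ρ L n.1 x‖ ^ 2)) =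
        (1 / L) * (∫ x in (-(L / 2))..(L / 2), cocut ρ x ^ 2) * bgsum L (μ - t) -
        (1 / L) * bgcount L (μ - t) * (∫ x in (-(L / 2))..(L / 2), deriv (cocut ρ) x ^ 2) -
        (1 / L) * bgcount L (μ - t) * (∫ x in (-(L / 2))..(L / 2), cocut ρ x ^ 2 * V x) := by
      rw [w12_bgsum _ B hB, w12_bgcount _ B hB,
        Finset.sum_coe_sort B (fun n : ℤ => ((μ - t) *
          (∫ x in (-(L / 2))..(L / 2), ‖w12out ρ L n x‖ ^ 2)
          - ∫ x in (-(L / 2))..(L / 2), (‖deriv (w12out ρ L n) x‖ ^ 2 +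
            V x * ‖w12out ρ L n x‖ ^ 2)))]
      rw [Finset.sum_congr rfl (fun n _ => out_energy2 hL0 c2 V hV (μ - t) n)]
      rw [← Finset.mul_sum, Finset.sum_sub_distrib, Finset.sum_sub_distrib, ← Finset.sum_mul, Finset.sum_const,
        Finset.sum_const, nsmul_eq_mul, nsmul_eq_mul]
      ring
    have s3 : (1 / L) * (∫ x in (-(L / 2))..(L / 2), cocut ρ x ^ 2) =
        1 - (1 / L) * ∫ x, cutoff ρ x ^ 2 := by
      have e1 : (∫ x in (-(L / 2))..(L / 2), cutoff ρ x ^ 2) +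
          (∫ x in (-(L / 2))..(L / 2), cocut ρ x ^ 2) = L := by
        rw [← intervalIntegral.integral_add]
        · simp only [c6]
          rw [intervalIntegral.integral_const]
          simp
        · exact (hcc.pow 2).intervalIntegrable _ _
        · exact (hcoc.pow 2).intervalIntegrable _ _
      have e2 : ∫ x in (-(L / 2))..(L / 2), cutoff ρ x ^ 2 = ∫ x, cutoff ρ x ^ 2 := by
        refine w12_box hL0 _ ?_
        intro x hx
        rw [hbox x hx]
        simp
      rw [← e2]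
      have e3 : (∫ x in (-(L / 2))..(L / 2), cocut ρ x ^ 2) =
          L - ∫ x in (-(L / 2))..(L / 2), cutoff ρ x ^ 2 := by linarith
      rw [e3]
      field_simp
    have s4 : (∫ x in (-(L / 2))..(L / 2), cutoff ρ x ^ 2 * V x)
        = (∫ x in (-(L / 2))..(L / 2), V x) - ∫ x in (-(L / 2))..(L / 2), cocut ρ x ^ 2 * V x := by
      have e1 : (∫ x in (-(L / 2))..(L / 2), cutoff ρ x ^ 2 * V x) +
          (∫ x in (-(L / 2))..(L / 2), cocut ρ x ^ 2 * V x) = ∫ x in (-(L / 2))..(L / 2), V x := by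
        rw [← intervalIntegral.integral_add]
        · refine intervalIntegral.integral_congr (fun x _ => ?_)
          have := c6 x
          show cutoff ρ x ^ 2 * V x + cocut ρ x ^ 2 * V x = V x
          rw [← add_mul, this, one_mul]
        · exact ((hcc.pow 2).mul hV).intervalIntegrable _ _
        · exact ((hcoc.pow 2).mul hV).intervalIntegrable _ _
      linarith
    rw [s1, s2, s3, s4]
    ring

end Pool.Agent.Helper209.PL.LineFam2
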