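import Pool.Agent.Helper209.PL.Defs

set_option autoImplicit false

namespace Pool.Agent.Helper209.PL.NegLayer

open MeasureTheory Set
open scoped SchwartzMap InnerProductSpace FourierTransform



theorem layer_cont (q : ℝ) (hq : 0 < q) (μ : ℝ) (v : ℝ → ℝ) (hv : Continuous v) :
    Continuous (Function.uncurry (fun (t x : ℝ) => (max (v x - (t - μ)) 0) ^ q)) := by
  have : Continuous (fun p : ℝ × ℝ => (max (v p.2 - (p.1 - μ)) 0) ^ q) :=
    Continuous.rpow_const (by fun_prop) (fun _ => Or.inr hq.le)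
  exact this

theorem layer_cont' (β q : ℝ) (hq : 0 < q) (μ : ℝ) (hμ : 0 < μ) (v : ℝ → ℝ) (hv : Continuous v) :
    Continuous (Function.uncurry (fun (t x : ℝ) =>
      (max t μ) ^ (β - 1) * (max (v x - (t - μ)) 0) ^ q)) := by
  have h1 : Continuous (fun p : ℝ × ℝ => (max p.1 μ) ^ (β - 1)) :=
    Continuous.rpow_const (by fun_prop) (fun p => Or.inl (lt_max_of_lt_right hμ).ne')
  exact h1.mul (layer_cont q hq μ v hv)

theorem layer_pt (β : ℝ) (hβ : 0 < β) (q : ℝ) (hq : 0 < q) (μ : ℝ) (hμ : 0 < μ) (M : ℝ)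
    (hM : μ ≤ M) (y : ℝ) :
    ∫ t in μ..M, (max t μ) ^ (β - 1) * (max (y - (t - μ)) 0) ^ q ≤
      (1 / β) * ((max y 0) ^ q * ((μ + max y 0) ^ β - μ ^ β)) := by
  obtain ⟨V, hV⟩ : ∃ V : ℝ, V = max y 0 := ⟨_, rfl⟩
  have hV0 : 0 ≤ V := by rw [hV]; exact le_max_right _ _
  have hyV : y ≤ V := by rw [hV]; exact le_max_left _ _
  rw [← hV]
  obtain ⟨b, hb⟩ : ∃ b : ℝ, b = min M (μ + V) := ⟨_, rfl⟩
  have hμb : μ ≤ b := by rw [hb]; exact le_min hM (by linarith)
  have hbM : b ≤ M := by rw [hb]; exact min_le_left _ _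
  have hbV : b ≤ μ + V := by rw [hb]; exact min_le_right _ _
  have hcont : Continuous (fun t : ℝ => (max t μ) ^ (β - 1) * (max (y - (t - μ)) 0) ^ q) := by
    have h1 : Continuous (fun t : ℝ => (max t μ) ^ (β - 1)) :=
      Continuous.rpow_const (by fun_prop) (fun p => Or.inl (lt_max_of_lt_right hμ).ne')
    exact h1.mul (Continuous.rpow_const (by fun_prop) (fun _ => Or.inr hq.le))
  have hcont2 : Continuous (fun t : ℝ => (max t μ) ^ (β - 1) * V ^ q) := by
    have h1 : Continuous (fun t : ℝ => (max t μ) ^ (β - 1)) :=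
      Continuous.rpow_const (by fun_prop) (fun p => Or.inl (lt_max_of_lt_right hμ).ne')
    exact h1.mul continuous_const
  rw [← intervalIntegral.integral_add_adjacent_intervals (hcont.intervalIntegrable μ b)
    (hcont.intervalIntegrable b M)]
  have h2 : ∫ t in b..M, (max t μ) ^ (β - 1) * (max (y - (t - μ)) 0) ^ q = 0 := by
    rcases le_total M (μ + V) with h | h
    · have : b = M := by rw [hb, min_eq_left h]
      rw [this, intervalIntegral.integral_same]
    · have hb' : b = μ + V := by rw [hb, min_eq_right h]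
      rw [intervalIntegral.integral_congr (g := fun _ => (0 : ℝ))]
      · simp
      · intro t ht
        rw [uIcc_of_le hbM] at ht
        have h3 : y - (t - μ) ≤ 0 := by linarith [ht.1]
        show (max t μ) ^ (β - 1) * (max (y - (t - μ)) 0) ^ q = 0
        rw [max_eq_right h3, Real.zero_rpow hq.ne', mul_zero]
  rw [h2, add_zero]
  calc ∫ t in μ..b, (max t μ) ^ (β - 1) * (max (y - (t - μ)) 0) ^ q
      ≤ ∫ t in μ..b, (max t μ) ^ (β - 1) * V ^ q := by
        refine intervalIntegral.integral_mono_on hμb (hcont.intervalIntegrable _ _)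
          (hcont2.intervalIntegrable _ _) (fun t ht => ?_)
        refine mul_le_mul_of_nonneg_left ?_ (Real.rpow_nonneg (hμ.le.trans (le_max_right _ _)) _)
        refine Real.rpow_le_rpow (le_max_right _ _) ?_ hq.le
        exact max_le (by linarith [ht.1]) hV0
    _ = ∫ t in μ..b, t ^ (β - 1) * V ^ q := by
        refine intervalIntegral.integral_congr (fun t ht => ?_)
        rw [uIcc_of_le hμb] at ht
        show (max t μ) ^ (β - 1) * V ^ q = t ^ (β - 1) * V ^ q
        rw [max_eq_left ht.1]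
    _ = (b ^ β - μ ^ β) / β * V ^ q := by
        rw [intervalIntegral.integral_mul_const, integral_rpow (Or.inl (by linarith))]
        rw [sub_add_cancel]
    _ ≤ ((μ + V) ^ β - μ ^ β) / β * V ^ q := by
        refine mul_le_mul_of_nonneg_right ?_ (Real.rpow_nonneg hV0 _)
        refine div_le_div_of_nonneg_right ?_ hβ.le
        have := Real.rpow_le_rpow (hμ.le.trans hμb) hbV hβ.le
        linarith
    _ = (1 / β) * (V ^ q * ((μ + V) ^ β - μ ^ β)) := by ring

/-- integration of the negative levels -/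
theorem neg_layer (β : ℝ) (hβ : 0 < β) (q : ℝ) (hq : 0 < q) (μ : ℝ) (hμ : 0 < μ) (M : ℝ) (hM : μ ≤ M)
    (L : ℝ) (hL : 0 < L) (v : ℝ → ℝ) (hv : Continuous v) :
    IntervalIntegrable (fun t : ℝ => t ^ (β - 1) * ∫ x in (-(L / 2))..(L / 2), (max (v x - (t - μ)) 0) ^ q)
      volume μ M ∧
    ∫ t in μ..M, t ^ (β - 1) * (∫ x in (-(L / 2))..(L / 2), (max (v x - (t - μ)) 0) ^ q)
      ≤ (1 / β) * ∫ x in (-(L / 2))..(L / 2),
          (max (v x) 0) ^ q * ((μ + max (v x) 0) ^ β - μ ^ β) := by
  have hh : Continuous (fun t : ℝ => ∫ x in (-(L / 2))..(L / 2), (max (v x - (t - μ)) 0) ^ q) :=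
    intervalIntegral.continuous_parametric_intervalIntegral_of_continuous'
      (layer_cont q hq μ v hv) _ _
  refine ⟨?_, ?_⟩
  · apply ContinuousOn.intervalIntegrable
    refine ContinuousOn.mul ?_ hh.continuousOn
    refine ContinuousOn.rpow_const continuousOn_id (fun t ht => Or.inl ?_)
    rw [uIcc_of_le hM] at ht
    exact (hμ.trans_le ht.1).ne'
  · have e1 : ∫ t in μ..M, t ^ (β - 1) *
        (∫ x in (-(L / 2))..(L / 2), (max (v x - (t - μ)) 0) ^ q) =
        ∫ t in μ..M, ∫ x in (-(L / 2))..(L / 2),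
          (max t μ) ^ (β - 1) * (max (v x - (t - μ)) 0) ^ q := by
      refine intervalIntegral.integral_congr (fun t ht => ?_)
      rw [uIcc_of_le hM] at ht
      show t ^ (β - 1) * (∫ x in (-(L / 2))..(L / 2), (max (v x - (t - μ)) 0) ^ q) =
        ∫ x in (-(L / 2))..(L / 2), (max t μ) ^ (β - 1) * (max (v x - (t - μ)) 0) ^ q
      rw [intervalIntegral.integral_const_mul, max_eq_left ht.1]
    have hF := layer_cont' β q hq μ hμ v hv
    rw [e1, intervalIntegral_intervalIntegral_swap
      (F := fun t x => (max t μ) ^ (β - 1) * (max (v x - (t - μ)) 0) ^ q)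
      ((hF.continuousOn.integrableOn_compact (isCompact_uIcc.prod isCompact_uIcc)).mono_set
        (prod_mono uIoc_subset_uIcc uIoc_subset_uIcc))]
    rw [← intervalIntegral.integral_const_mul]
    refine intervalIntegral.integral_mono_on (by linarith) ?_ ?_ (fun x _ => ?_)
    · apply Continuous.intervalIntegrable
      exact intervalIntegral.continuous_parametric_intervalIntegral_of_continuous'
        (f := fun x t => (max t μ) ^ (β - 1) * (max (v x - (t - μ)) 0) ^ q)
        (hF.comp continuous_swap) _ _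
    · apply Continuous.intervalIntegrable
      refine continuous_const.mul (Continuous.mul ?_ (Continuous.sub ?_ continuous_const))
      · exact Continuous.rpow_const (by fun_prop) (fun _ => Or.inr hq.le)
      · exact Continuous.rpow_const (by fun_prop) (fun _ => Or.inr hβ.le)
    · exact layer_pt β hβ q hq μ hμ M hM (v x)

end Pool.Agent.Helper209.PL.NegLayer
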