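import Pool.Agent.Helper209.PL.Defs

set_option autoImplicit false

namespace Pool.Agent.Helper209.PL.Orth

open MeasureTheory Set
open scoped SchwartzMap InnerProductSpace FourierTransform


theorem wave_continuous (L : ℝ) (n : ℤ) : Continuous (wave L n) := by
  unfold wave
  fun_prop

theorem conj_wave (L : ℝ) (n : ℤ) (x : ℝ) : (starRingEnd ℂ) (wave L n x) =
    ((1 / Real.sqrt L : ℝ) : ℂ) * Complex.exp (-(((mom L n * x : ℝ) : ℂ) * Complex.I)) := by
  unfold wave
  rw [map_mul, Complex.conj_ofReal, ← Complex.exp_conj, map_mul, Complex.conj_I, Complex.conj_ofReal,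
    mul_neg]

theorem wave_mul_conj (L : ℝ) (hL : 0 < L) (m n : ℤ) (x : ℝ) :
    wave L n x * (starRingEnd ℂ) (wave L m x) =
      ((1 / L : ℝ) : ℂ) * Complex.exp ((((mom L n - mom L m : ℝ) : ℂ) * Complex.I) * x) := by
  rw [conj_wave]
  unfold wave
  have h1 : ((1 / Real.sqrt L : ℝ) : ℂ) * ((1 / Real.sqrt L : ℝ) : ℂ) = ((1 / L : ℝ) : ℂ) := by
    rw [← Complex.ofReal_mul]
    congr 1
    rw [div_mul_div_comm, Real.mul_self_sqrt hL.le, one_mul]
  rw [mul_mul_mul_comm, h1, ← Complex.exp_add]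
  congr 2
  push_cast
  ring

theorem norm_wave_sq (L : ℝ) (hL : 0 < L) (n : ℤ) (x : ℝ) : ‖wave L n x‖ ^ 2 = 1 / L := by
  unfold wave
  rw [norm_mul, Complex.norm_exp_ofReal_mul_I, mul_one, Complex.norm_real, Real.norm_eq_abs,
    sq_abs, div_pow, Real.sq_sqrt hL.le, one_pow]

theorem wave_orth (L : ℝ) (hL : 0 < L) (m n : ℤ) :
    ∫ x in (-(L / 2))..(L / 2), wave L n x * (starRingEnd ℂ) (wave L m x) = if m = n then 1 else 0 := by
  simp only [wave_mul_conj L hL]
  rw [intervalIntegral.integral_const_mul]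
  split_ifs with h
  · rw [h, sub_self]
    simp only [Complex.ofReal_zero, zero_mul, Complex.exp_zero]
    rw [intervalIntegral.integral_const]
    have : L / 2 - -(L / 2) = L := by ring
    rw [this]
    have hL' : (L : ℂ) ≠ 0 := by exact_mod_cast hL.ne'
    simp [hL']
  · have hk : (((mom L n - mom L m : ℝ) : ℂ) * Complex.I) ≠ 0 := by
      apply mul_ne_zero _ Complex.I_ne_zero
      unfold mom
      intro h1
      have h2 : 2 * Real.pi * (n : ℝ) / L - 2 * Real.pi * (m : ℝ) / L = 0 := by exact_mod_cast h1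
      rw [← sub_div, div_eq_zero_iff] at h2
      rcases h2 with h2 | h2
      · have hpi := Real.pi_pos
        have h3 : (2 * Real.pi) * ((n : ℝ) - m) = 0 := by linarith
        rcases mul_eq_zero.1 h3 with h4 | h4
        · linarith
        · apply h
          have : (m : ℝ) = n := by linarith
          exact_mod_cast this
      · exact hL.ne' h2
    rw [integral_exp_mul_complex hk]
    have e : Complex.exp ((((mom L n - mom L m : ℝ) : ℂ) * Complex.I) * ((L / 2 : ℝ) : ℂ)) =
        Complex.exp ((((mom L n - mom L m : ℝ) : ℂ) * Complex.I) * ((-(L / 2) : ℝ) : ℂ)) := by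
      have e2 : (((mom L n - mom L m : ℝ) : ℂ) * Complex.I) * ((L / 2 : ℝ) : ℂ) =
          (((mom L n - mom L m : ℝ) : ℂ) * Complex.I) * ((-(L / 2) : ℝ) : ℂ) +
            ((n - m : ℤ) : ℂ) * (2 * Real.pi * Complex.I) := by
        unfold mom
        have hL' : (L : ℂ) ≠ 0 := by exact_mod_cast hL.ne'
        push_cast
        field_simp
        ring
      rw [e2, Complex.exp_add, Complex.exp_int_mul_two_pi_mul_I, mul_one]
    rw [e, sub_self, zero_div, mul_zero]

theorem trig_continuous (L : ℝ) (s : Finset ℤ) (c : ℤ → ℂ) : Continuous (trig L s c) := by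
  unfold trig
  apply continuous_finsetSum
  intro n _
  exact continuous_const.mul (wave_continuous L n)

theorem integral_norm_sq (f : ℝ → ℂ) (a b : ℝ) :
    ((∫ x in a..b, ‖f x‖ ^ 2 : ℝ) : ℂ) = ∫ x in a..b, f x * (starRingEnd ℂ) (f x) := by
  rw [← intervalIntegral.integral_ofReal]
  congr 1
  funext x
  rw [Complex.mul_conj, Complex.normSq_eq_norm_sq]

theorem trig_conj (L : ℝ) (s : Finset ℤ) (c : ℤ → ℂ) (x : ℝ) :
    (starRingEnd ℂ) (trig L s c x) = ∑ n ∈ s, (starRingEnd ℂ) (c n) * (starRingEnd ℂ) (wave L n x) := by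
  unfold trig
  rw [map_sum]
  apply Finset.sum_congr rfl
  intro n _
  rw [map_mul]

/-- pairing with a trigonometric polynomial -/
theorem integral_mul_trig_conj (L : ℝ) (f : ℝ → ℂ) (hf : Continuous f) (s : Finset ℤ) (c : ℤ → ℂ) :
    ∫ x in (-(L / 2))..(L / 2), f x * (starRingEnd ℂ) (trig L s c x) =
      ∑ n ∈ s, (starRingEnd ℂ) (c n) *
        ∫ x in (-(L / 2))..(L / 2), f x * (starRingEnd ℂ) (wave L n x) := by
  have hc : ∀ n, Continuous (fun x => (starRingEnd ℂ) (wave L n x)) := fun n =>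
    Complex.continuous_conj.comp (wave_continuous L n)
  have e : ∀ x, f x * (starRingEnd ℂ) (trig L s c x) =
      ∑ n ∈ s, (starRingEnd ℂ) (c n) * (f x * (starRingEnd ℂ) (wave L n x)) := by
    intro x
    rw [trig_conj, Finset.mul_sum]
    apply Finset.sum_congr rfl
    intro n _
    ring
  simp only [e]
  rw [intervalIntegral.integral_finsetSum]
  · apply Finset.sum_congr rfl
    intro n _
    rw [intervalIntegral.integral_const_mul]
  · intro n _
    exact (continuous_const.mul (hf.mul (hc n))).intervalIntegrable _ _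

theorem integral_trig_mul_wave (L : ℝ) (hL : 0 < L) (s : Finset ℤ) (c : ℤ → ℂ) {n : ℤ} (hn : n ∈ s) :
    ∫ x in (-(L / 2))..(L / 2), trig L s c x * (starRingEnd ℂ) (wave L n x) = c n := by
  have hc : ∀ n, Continuous (fun x => (starRingEnd ℂ) (wave L n x)) := fun n =>
    Complex.continuous_conj.comp (wave_continuous L n)
  have e : ∀ x, trig L s c x * (starRingEnd ℂ) (wave L n x) =
      ∑ m ∈ s, c m * (wave L m x * (starRingEnd ℂ) (wave L n x)) := by
    intro x
    unfold trig
    rw [Finset.sum_mul]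
    apply Finset.sum_congr rfl
    intro m _
    ring
  simp only [e]
  rw [intervalIntegral.integral_finsetSum]
  · simp only [intervalIntegral.integral_const_mul, wave_orth L hL]
    simp [hn]
  · intro m _
    exact (continuous_const.mul ((wave_continuous L m).mul (hc n))).intervalIntegrable _ _

/-- Parseval for trigonometric polynomials -/
theorem trig_norm (L : ℝ) (hL : 0 < L) (s : Finset ℤ) (c : ℤ → ℂ) :
    ∫ x in (-(L / 2))..(L / 2), ‖trig L s c x‖ ^ 2 = ∑ n ∈ s, ‖c n‖ ^ 2 := by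
  have h : ((∫ x in (-(L / 2))..(L / 2), ‖trig L s c x‖ ^ 2 : ℝ) : ℂ) = ((∑ n ∈ s, ‖c n‖ ^ 2 : ℝ) : ℂ) := by
    rw [integral_norm_sq, integral_mul_trig_conj L _ (trig_continuous L s c)]
    push_cast
    apply Finset.sum_congr rfl
    intro n hn
    rw [integral_trig_mul_wave L hL s c hn, mul_comm, Complex.mul_conj, Complex.normSq_eq_norm_sq]
    push_cast
    rfl
  exact_mod_cast h

/-- Bessel's inequality -/
theorem wave_bessel (L : ℝ) (hL : 0 < L) (f : ℝ → ℂ) (hf : Continuous f) (s : Finset ℤ) :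
    ∑ n ∈ s, ‖∫ x in (-(L / 2))..(L / 2), f x * (starRingEnd ℂ) (wave L n x)‖ ^ 2
      ≤ ∫ x in (-(L / 2))..(L / 2), ‖f x‖ ^ 2 := by
  obtain ⟨a, ha⟩ : ∃ a : ℤ → ℂ, a = fun n => ∫ x in (-(L / 2))..(L / 2), f x * (starRingEnd ℂ) (wave L n x) :=
    ⟨_, rfl⟩
  have ha' : ∀ n, ∫ x in (-(L / 2))..(L / 2), f x * (starRingEnd ℂ) (wave L n x) = a n := by
    intro n; rw [ha]
  simp only [ha']
  have ht := trig_continuous L s a
  have h0 : 0 ≤ ∫ x in (-(L / 2))..(L / 2), ‖f x - trig L s a x‖ ^ 2 := by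
    apply intervalIntegral.integral_nonneg (by linarith)
    intro x _
    positivity
  have h1 : ∀ x, ‖f x - trig L s a x‖ ^ 2 =
      ‖f x‖ ^ 2 - 2 * (f x * (starRingEnd ℂ) (trig L s a x)).re + ‖trig L s a x‖ ^ 2 := by
    intro x
    rw [← Complex.normSq_eq_norm_sq, ← Complex.normSq_eq_norm_sq, ← Complex.normSq_eq_norm_sq,
      Complex.normSq_sub]
    ring
  simp only [h1] at h0
  have hc : Continuous (fun x => f x * (starRingEnd ℂ) (trig L s a x)) :=
    hf.mul (Complex.continuous_conj.comp ht)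
  have i1 : IntervalIntegrable (fun x => ‖f x‖ ^ 2) volume (-(L / 2)) (L / 2) :=
    (by fun_prop : Continuous (fun x => ‖f x‖ ^ 2)).intervalIntegrable _ _
  have i2 : IntervalIntegrable (fun x => 2 * (f x * (starRingEnd ℂ) (trig L s a x)).re) volume (-(L / 2)) (L / 2) :=
    (continuous_const.mul (Complex.continuous_re.comp hc)).intervalIntegrable _ _
  have i3 : IntervalIntegrable (fun x => ‖trig L s a x‖ ^ 2) volume (-(L / 2)) (L / 2) :=
    (by fun_prop : Continuous (fun x => ‖trig L s a x‖ ^ 2)).intervalIntegrable _ _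
  rw [intervalIntegral.integral_add (i1.sub i2) i3, intervalIntegral.integral_sub i1 i2,
    trig_norm L hL, intervalIntegral.integral_const_mul] at h0
  have h2 : ∫ x in (-(L / 2))..(L / 2), (f x * (starRingEnd ℂ) (trig L s a x)).re = ∑ n ∈ s, ‖a n‖ ^ 2 := by
    have h3 : ∫ x in (-(L / 2))..(L / 2), (f x * (starRingEnd ℂ) (trig L s a x)).re =
        (∫ x in (-(L / 2))..(L / 2), f x * (starRingEnd ℂ) (trig L s a x)).re := by
      have := Complex.reCLM.intervalIntegral_comp_comm (hc.intervalIntegrable (μ := volume) (-(L / 2)) (L / 2))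
      simpa using this
    rw [h3, integral_mul_trig_conj L f hf]
    simp only [ha']
    rw [Complex.re_sum]
    apply Finset.sum_congr rfl
    intro n _
    rw [mul_comm, Complex.mul_conj, Complex.ofReal_re, Complex.normSq_eq_norm_sq]
  rw [h2] at h0
  linarith

theorem vh_bessel (L : ℝ) (hL : 0 < L) (W : ℝ → ℝ) (hW : Continuous W) (m : ℤ) (s : Finset ℤ) :
    ∑ n ∈ s, ‖vh L W m n‖ ^ 2 ≤ (1 / L) * ∫ x in (-(L / 2))..(L / 2), W x ^ 2 := by
  have hf : Continuous (fun x => (W x : ℂ) * wave L m x) :=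
    (Complex.continuous_ofReal.comp hW).mul (wave_continuous L m)
  have h := wave_bessel L hL (fun x => (W x : ℂ) * wave L m x) hf s
  have e1 : ∀ n, ‖vh L W m n‖ =
      ‖∫ x in (-(L / 2))..(L / 2), (W x : ℂ) * wave L m x * (starRingEnd ℂ) (wave L n x)‖ := by
    intro n
    rw [← RCLike.norm_conj]
    congr 1
    unfold vh
    rw [← intervalIntegral.intervalIntegral_conj]
    congr 1
    funext x
    rw [map_mul, map_mul, Complex.conj_conj, Complex.conj_ofReal]
    ring
  have e2 : ∀ x, ‖(W x : ℂ) * wave L m x‖ ^ 2 = (1 / L) * W x ^ 2 := by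
    intro x
    rw [norm_mul, mul_pow, norm_wave_sq L hL, Complex.norm_real, Real.norm_eq_abs, sq_abs]
    ring
  simp only [e2] at h
  rw [intervalIntegral.integral_const_mul] at h
  simp only [e1]
  exact h

end Pool.Agent.Helper209.PL.Orth
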