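import Pool.Agent.Helper209.PL.Defs

set_option autoImplicit false

namespace Pool.Agent.Helper209.PL.Res1

open MeasureTheory Set
open scoped SchwartzMap InnerProductSpace FourierTransform



/-- the symbol -/
noncomputable def symb (c : ℝ) (ξ : ℝ) : ℝ := 1 / ((2 * Real.pi * ξ) ^ 2 + c)

theorem symb_pos (c : ℝ) (hc : 0 < c) (ξ : ℝ) : 0 < symb c ξ := by
  unfold symb; positivity

theorem symb_le (c : ℝ) (hc : 0 < c) (ξ : ℝ) : symb c ξ ≤ 1 / c := by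
  unfold symb
  apply one_div_le_one_div_of_le hc
  nlinarith [sq_nonneg (2 * Real.pi * ξ)]

theorem symb_tg (c : ℝ) (hc : 0 < c) : (symb c).HasTemperateGrowth := by
  have h1 : (fun x : ℝ => (1 + ‖x‖ ^ 2) ^ (-1 : ℝ)).HasTemperateGrowth :=
    Function.hasTemperateGrowth_one_add_norm_sq_rpow ℝ (-1)
  have h2 : (fun x : ℝ => (2 * Real.pi / Real.sqrt c) * x).HasTemperateGrowth := by fun_prop
  have h3 := h1.comp h2
  have h4 : symb c = fun x => (1/c) * ((fun x : ℝ => (1 + ‖x‖ ^ 2) ^ (-1 : ℝ)) ∘ (fun x : ℝ => (2 * Real.pi / Real.sqrt c) * x)) x := by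
    ext x
    have hs : Real.sqrt c ^ 2 = c := Real.sq_sqrt hc.le
    have hs' : Real.sqrt c ≠ 0 := (Real.sqrt_pos.mpr hc).ne'
    simp only [Function.comp, Real.rpow_neg_one, Real.norm_eq_abs, sq_abs]
    unfold symb
    rw [mul_pow (2 * Real.pi / Real.sqrt c) x 2, div_pow, hs, one_div, one_div, ← mul_inv]
    congr 1
    field_simp
    ring
  rw [h4]
  exact (Function.HasTemperateGrowth.const _).mul h3

/-- the Schwartz function `-χ'' + cχ` -/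
noncomputable def opS (c : ℝ) (χ : 𝓢(ℝ, ℂ)) : 𝓢(ℝ, ℂ) :=
  -(SchwartzMap.derivCLM ℂ ℂ (SchwartzMap.derivCLM ℂ ℂ χ)) + (c : ℂ) • χ

theorem opS_apply (c : ℝ) (χ : 𝓢(ℝ, ℂ)) (x : ℝ) :
    opS c χ x = -(deriv (deriv (χ : ℝ → ℂ)) x) + (c : ℂ) * χ x := by
  have h : ((SchwartzMap.derivCLM ℂ ℂ χ : 𝓢(ℝ, ℂ)) : ℝ → ℂ) = deriv (χ : ℝ → ℂ) := by
    ext y; exact SchwartzMap.derivCLM_apply ℂ χ y
  unfold opS
  rw [add_apply, neg_apply, SchwartzMap.derivCLM_apply, h, smul_apply, smul_eq_mul]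

theorem fourier_deriv (χ : 𝓢(ℝ, ℂ)) (ξ : ℝ) :
    (𝓕 (SchwartzMap.derivCLM ℂ ℂ χ) : 𝓢(ℝ, ℂ)) ξ = (2 * Real.pi * Complex.I * ξ) * (𝓕 χ : 𝓢(ℝ, ℂ)) ξ := by
  have h : ((SchwartzMap.derivCLM ℂ ℂ χ : 𝓢(ℝ, ℂ)) : ℝ → ℂ) = deriv (χ : ℝ → ℂ) := by
    ext y; exact SchwartzMap.derivCLM_apply ℂ χ y
  have h1 : (𝓕 (SchwartzMap.derivCLM ℂ ℂ χ) : 𝓢(ℝ, ℂ)) ξ = 𝓕 ((SchwartzMap.derivCLM ℂ ℂ χ : 𝓢(ℝ, ℂ)) : ℝ → ℂ) ξ := by
    rw [SchwartzMap.fourier_coe]
  rw [h1, h, Real.fourier_deriv χ.integrable χ.differentiable]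
  · simp [SchwartzMap.fourier_coe]
  · rw [← h]; exact (SchwartzMap.derivCLM ℂ ℂ χ).integrable

theorem fourier_opS (c : ℝ) (χ : 𝓢(ℝ, ℂ)) (ξ : ℝ) :
    (𝓕 (opS c χ) : 𝓢(ℝ, ℂ)) ξ = (((2 * Real.pi * ξ) ^ 2 + c : ℝ) : ℂ) * (𝓕 χ : 𝓢(ℝ, ℂ)) ξ := by
  have e : (𝓕 (opS c χ) : 𝓢(ℝ, ℂ)) = - 𝓕 (SchwartzMap.derivCLM ℂ ℂ (SchwartzMap.derivCLM ℂ ℂ χ)) + (c : ℂ) • 𝓕 χ := by
    unfold opS
    rw [FourierTransform.fourier_add, FourierTransform.fourier_neg, FourierTransform.fourier_smul]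
  rw [e, add_apply, neg_apply, smul_apply, fourier_deriv, fourier_deriv, smul_eq_mul]
  push_cast
  have := Complex.I_sq
  linear_combination (- (2 * Real.pi * ξ) ^ 2 * (𝓕 χ : 𝓢(ℝ, ℂ)) ξ) * this

/-- multiplication by the symbol on Schwartz space -/
noncomputable def mulS (c : ℝ) : 𝓢(ℝ, ℂ) →L[ℂ] 𝓢(ℝ, ℂ) :=
  SchwartzMap.smulLeftCLM ℂ (fun x => ((symb c x : ℝ) : ℂ))

theorem mulS_apply (c : ℝ) (hc : 0 < c) (g : 𝓢(ℝ, ℂ)) (ξ : ℝ) :
    mulS c g ξ = (symb c ξ : ℂ) * g ξ := by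
  unfold mulS
  rw [SchwartzMap.smulLeftCLM_apply_apply]
  · rfl
  · exact Function.Complex.hasTemperateGrowth_ofReal.comp (symb_tg c hc)

/-- solvability of `-χ'' + cχ = g` in Schwartz space -/
theorem free_solve_aux (c : ℝ) (hc : 0 < c) (g : 𝓢(ℝ, ℂ)) :
    opS c (𝓕⁻ (mulS c (𝓕 g)) : 𝓢(ℝ, ℂ)) = g := by
  have h : (𝓕 (opS c (𝓕⁻ (mulS c (𝓕 g)) : 𝓢(ℝ, ℂ))) : 𝓢(ℝ, ℂ)) = 𝓕 g := by
    ext ξ
    rw [fourier_opS, FourierTransform.fourier_fourierInv_eq, mulS_apply c hc]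
    have : (2 * Real.pi * ξ) ^ 2 + c ≠ 0 := by positivity
    rw [← mul_assoc, ← Complex.ofReal_mul]
    unfold symb
    rw [mul_one_div_cancel this]
    simp
  have h2 := congrArg (fun u : 𝓢(ℝ, ℂ) => (𝓕⁻ u : 𝓢(ℝ, ℂ))) h
  simpa using h2

/-- solvability of `-χ'' + cχ = g` in Schwartz space -/
theorem free_solve (c : ℝ) (hc : 0 < c) (g : 𝓢(ℝ, ℂ)) :
    ∃ χ : 𝓢(ℝ, ℂ), ∀ x : ℝ, -(deriv (deriv (χ : ℝ → ℂ)) x) + (c : ℂ) * χ x = g x := by
  refine ⟨(𝓕⁻ (mulS c (𝓕 g)) : 𝓢(ℝ, ℂ)), fun x => ?_⟩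
  rw [← opS_apply, free_solve_aux c hc g]

theorem mulL_mem (c : ℝ) (hc : 0 < c) (f : L2R) :
    MemLp (fun ξ => (symb c ξ : ℂ) * (f : ℝ → ℂ) ξ) 2 volume := by
  apply MemLp.of_le_mul (c := 1 / c) (Lp.memLp f)
  · apply AEStronglyMeasurable.mul
    · have : Continuous (fun ξ => (symb c ξ : ℂ)) := by
        apply Complex.continuous_ofReal.comp
        exact (symb_tg c hc).1.continuous
      exact this.aestronglyMeasurable
    · exact Lp.aestronglyMeasurable f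
  · filter_upwards with ξ
    rw [norm_mul, Complex.norm_real, Real.norm_eq_abs, abs_of_pos (symb_pos c hc ξ)]
    exact mul_le_mul_of_nonneg_right (symb_le c hc ξ) (norm_nonneg _)

/-- multiplication by the symbol on `L²` -/
noncomputable def mulL (c : ℝ) (hc : 0 < c) : L2R →L[ℂ] L2R :=
  LinearMap.mkContinuous
    { toFun := fun f => (mulL_mem c hc f).toLp _
      map_add' := by
        intro f g
        apply Lp.ext
        filter_upwards [(mulL_mem c hc (f + g)).coeFn_toLp, (mulL_mem c hc f).coeFn_toLp,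
          (mulL_mem c hc g).coeFn_toLp, Lp.coeFn_add f g,
          Lp.coeFn_add ((mulL_mem c hc f).toLp _) ((mulL_mem c hc g).toLp _)] with x h1 h2 h3 h4 h5
        rw [h1, h5, Pi.add_apply, h2, h3, h4, Pi.add_apply]
        ring
      map_smul' := by
        intro a f
        apply Lp.ext
        filter_upwards [(mulL_mem c hc (a • f)).coeFn_toLp, (mulL_mem c hc f).coeFn_toLp,
          Lp.coeFn_smul a f, Lp.coeFn_smul a ((mulL_mem c hc f).toLp _)] with x h1 h2 h3 h4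
        rw [h1, RingHom.id_apply, h4, Pi.smul_apply, h2, h3, Pi.smul_apply, smul_eq_mul, smul_eq_mul]
        ring }
    (1 / c) (by
      intro f
      apply Lp.norm_le_mul_norm_of_ae_le_mul
      filter_upwards [(mulL_mem c hc f).coeFn_toLp] with x h1
      show ‖((mulL_mem c hc f).toLp _ : ℝ → ℂ) x‖ ≤ _
      rw [h1, norm_mul, Complex.norm_real, Real.norm_eq_abs, abs_of_pos (symb_pos c hc x)]
      exact mul_le_mul_of_nonneg_right (symb_le c hc x) (norm_nonneg _))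

theorem mulL_coe (c : ℝ) (hc : 0 < c) (f : L2R) :
    ((mulL c hc f : L2R) : ℝ → ℂ) =ᵐ[volume] (fun ξ => (symb c ξ : ℂ) * (f : ℝ → ℂ) ξ) :=
  (mulL_mem c hc f).coeFn_toLp

theorem mulL_norm (c : ℝ) (hc : 0 < c) : ‖mulL c hc‖ ≤ 1 / c :=
  LinearMap.mkContinuous_norm_le _ (by positivity) _

theorem mulL_toLp (c : ℝ) (hc : 0 < c) (g : 𝓢(ℝ, ℂ)) :
    mulL c hc (g.toLp 2 volume) = (mulS c g).toLp 2 volume := by
  apply Lp.ext
  filter_upwards [mulL_coe c hc (g.toLp 2 volume), SchwartzMap.coeFn_toLp g 2 volume,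
    SchwartzMap.coeFn_toLp (mulS c g) 2 volume] with x h1 h2 h3
  rw [h1, h2, h3, mulS_apply c hc]

/-- the free resolvent exists -/
theorem free_resolvent (c : ℝ) (hc : 0 < c) :
    ∃ R0 : L2R →L[ℂ] L2R, IsResolvent (fun _ => 0) c R0 ∧ ‖R0‖ ≤ 1 / c := by
  let F := (Lp.fourierTransformₗᵢ ℝ ℂ)
  refine ⟨(F.symm.toContinuousLinearEquiv : L2R →L[ℂ] L2R) ∘L (mulL c hc) ∘L (F.toContinuousLinearEquiv : L2R →L[ℂ] L2R), ?_, ?_⟩
  · intro χ f hf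
    have hf' : f = (opS c χ).toLp 2 volume := by
      apply Lp.ext
      filter_upwards [hf, SchwartzMap.coeFn_toLp (opS c χ) 2 volume] with x h1 h2
      rw [h1, h2, opS_apply]
      simp
    have e : ((F.symm.toContinuousLinearEquiv : L2R →L[ℂ] L2R) ∘L (mulL c hc) ∘L (F.toContinuousLinearEquiv : L2R →L[ℂ] L2R)) f = χ.toLp 2 volume := by
      show (𝓕⁻ (mulL c hc (𝓕 f)) : L2R) = _
      rw [hf', SchwartzMap.toLp_fourier_eq, mulL_toLp, SchwartzMap.toLp_fourierInv_eq]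
      congr 1
      have : mulS c (𝓕 (opS c χ)) = 𝓕 χ := by
        ext ξ
        rw [mulS_apply c hc, fourier_opS]
        have : (2 * Real.pi * ξ) ^ 2 + c ≠ 0 := by positivity
        rw [← mul_assoc, ← Complex.ofReal_mul]
        unfold symb
        rw [one_div_mul_cancel this]
        simp
      rw [this, FourierTransform.fourierInv_fourier_eq]
    rw [e]
    exact SchwartzMap.coeFn_toLp χ 2 volume
  · apply ContinuousLinearMap.opNorm_le_bound _ (by positivity)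
    intro f
    show ‖F.symm (mulL c hc (F f))‖ ≤ _
    rw [LinearIsometryEquiv.norm_map]
    calc ‖mulL c hc (F f)‖ ≤ ‖mulL c hc‖ * ‖F f‖ := ContinuousLinearMap.le_opNorm _ _
      _ ≤ 1 / c * ‖f‖ := by
        rw [LinearIsometryEquiv.norm_map]
        exact mul_le_mul_of_nonneg_right (mulL_norm c hc) (norm_nonneg _)

/-- the free resolvent is a Fourier multiplier -/
theorem free_fourier (c : ℝ) (hc : 0 < c) (R0 : L2R →L[ℂ] L2R) (hR : IsResolvent (fun _ => 0) c R0) (f : L2R) :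
    ((𝓕 (R0 f) : L2R) : ℝ → ℂ) =ᵐ[volume]
      (fun ξ => ((1 / ((2 * Real.pi * ξ) ^ 2 + c) : ℝ) : ℂ) * ((𝓕 f : L2R) : ℝ → ℂ) ξ) := by
  have key : (𝓕 (R0 f) : L2R) = mulL c hc (𝓕 f) := by
    apply DenseRange.induction_on (p := fun f : L2R => (𝓕 (R0 f) : L2R) = mulL c hc (𝓕 f))
      (SchwartzMap.denseRange_toLpCLM (p := 2) ENNReal.ofNat_ne_top) f
    · apply isClosed_eq
      · exact (Lp.fourierTransformₗᵢ ℝ ℂ).continuous.comp R0.continuous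
      · exact (mulL c hc).continuous.comp (Lp.fourierTransformₗᵢ ℝ ℂ).continuous
    intro g
    show (𝓕 (R0 (g.toLp 2 volume)) : L2R) = mulL c hc (𝓕 (g.toLp 2 volume))
    have h1 : R0 (g.toLp 2 volume) = ((𝓕⁻ (mulS c (𝓕 g)) : 𝓢(ℝ, ℂ))).toLp 2 volume := by
      apply Lp.ext
      have h2 := hR (𝓕⁻ (mulS c (𝓕 g)) : 𝓢(ℝ, ℂ)) (g.toLp 2 volume) (by
        filter_upwards [SchwartzMap.coeFn_toLp g 2 volume] with x h2
        have h3 := opS_apply c (𝓕⁻ (mulS c (𝓕 g)) : 𝓢(ℝ, ℂ)) x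
        rw [free_solve_aux c hc g] at h3
        rw [h2, h3]
        simp)
      filter_upwards [h2, SchwartzMap.coeFn_toLp (𝓕⁻ (mulS c (𝓕 g)) : 𝓢(ℝ, ℂ)) 2 volume] with x h3 h4
      rw [h3, h4]
    rw [h1, SchwartzMap.toLp_fourier_eq, SchwartzMap.toLp_fourier_eq, mulL_toLp, FourierTransform.fourier_fourierInv_eq]
  rw [key]
  exact mulL_coe c hc (𝓕 f)

end Pool.Agent.Helper209.PL.Res1
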