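import Pool.Agent.Helper209.PL.Defs

set_option autoImplicit false

namespace Pool.Agent.Helper209.PL.Res2

open MeasureTheory Set
open scoped SchwartzMap InnerProductSpace FourierTransform


section WStmts
def FreeSolveStmt : Prop := ∀ (c : ℝ), 0 < c → ∀ (g : 𝓢(ℝ, ℂ)),
    ∃ χ : 𝓢(ℝ, ℂ), ∀ x : ℝ, -(deriv (deriv (χ : ℝ → ℂ)) x) + (c : ℂ) * χ x = g x
def FreeResolventStmt : Prop := ∀ (c : ℝ), 0 < c →
    ∃ R0 : L2R →L[ℂ] L2R, IsResolvent (fun _ => 0) c R0 ∧ ‖R0‖ ≤ 1 / c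
end WStmts

lemma w2_memLp_mul (v : ℝ → ℝ) (hv : Continuous v) (B : ℝ) (hB : ∀ x, |v x| ≤ B) (f : L2R) :
    MemLp (fun x => (v x : ℂ) * (f : ℝ → ℂ) x) 2 (volume : Measure ℝ) := by
  have hf : MemLp (f : ℝ → ℂ) 2 (volume : Measure ℝ) := Lp.memLp f
  refine MemLp.of_le_mul (c := B) hf ?_ (Filter.Eventually.of_forall fun x => ?_)
  · exact (Complex.continuous_ofReal.comp hv).aestronglyMeasurable.mul hf.1
  · rw [norm_mul, Complex.norm_real, Real.norm_eq_abs]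
    exact mul_le_mul_of_nonneg_right (hB x) (norm_nonneg _)

/-- multiplication operators exist -/
theorem exists_mul (v : ℝ → ℝ) (hv : Continuous v) (B : ℝ) (hB : ∀ x, |v x| ≤ B) :
    ∃ M : L2R →L[ℂ] L2R, IsMul v M ∧ ‖M‖ ≤ B ∧ IsSelfAdjoint M := by
  have hB0 : 0 ≤ B := (abs_nonneg _).trans (hB 0)
  let L : L2R →ₗ[ℂ] L2R :=
    { toFun := fun f => (w2_memLp_mul v hv B hB f).toLp _
      map_add' := by
        intro f g
        apply Lp.ext
        filter_upwards [(w2_memLp_mul v hv B hB (f + g)).coeFn_toLp,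
          (w2_memLp_mul v hv B hB f).coeFn_toLp, (w2_memLp_mul v hv B hB g).coeFn_toLp,
          Lp.coeFn_add f g, Lp.coeFn_add ((w2_memLp_mul v hv B hB f).toLp _)
            ((w2_memLp_mul v hv B hB g).toLp _)] with x h1 h2 h3 h4 h5
        rw [h1, h5, Pi.add_apply, h2, h3, h4, Pi.add_apply]
        ring
      map_smul' := by
        intro c f
        apply Lp.ext
        filter_upwards [(w2_memLp_mul v hv B hB (c • f)).coeFn_toLp,
          (w2_memLp_mul v hv B hB f).coeFn_toLp, Lp.coeFn_smul c f,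
          Lp.coeFn_smul c ((w2_memLp_mul v hv B hB f).toLp _)] with x h1 h2 h3 h4
        simp only [RingHom.id_apply]
        rw [h1, h4, Pi.smul_apply, h2, h3, Pi.smul_apply, smul_eq_mul, smul_eq_mul]
        ring }
  have hLmul : ∀ f : L2R, ((L f : L2R) : ℝ → ℂ) =ᵐ[volume]
      (fun x => (v x : ℂ) * (f : ℝ → ℂ) x) := fun f => (w2_memLp_mul v hv B hB f).coeFn_toLp
  have hLn : ∀ f : L2R, ‖L f‖ ≤ B * ‖f‖ := by
    intro f
    apply Lp.norm_le_mul_norm_of_ae_le_mul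
    filter_upwards [hLmul f] with x hx
    rw [hx, norm_mul, Complex.norm_real, Real.norm_eq_abs]
    exact mul_le_mul_of_nonneg_right (hB x) (norm_nonneg _)
  refine ⟨L.mkContinuous B hLn, hLmul, L.mkContinuous_norm_le hB0 hLn, ?_⟩
  rw [ContinuousLinearMap.isSelfAdjoint_iff_isSymmetric]
  intro f g
  change ⟪L f, g⟫_ℂ = ⟪f, L g⟫_ℂ
  rw [L2.inner_def, L2.inner_def]
  refine integral_congr_ae ?_
  filter_upwards [hLmul f, hLmul g] with x h1 h2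
  rw [h1, h2]
  simp only [RCLike.inner_apply, map_mul, Complex.conj_ofReal]
  ring

/-- common construction -/
theorem w2_setup (hR : FreeResolventStmt) (V : ℝ → ℝ) (hV : Continuous V) (b c : ℝ)
    (hb : ∀ x, |V x| ≤ b) (hbc : b < c) :
    ∃ (R0 MV T S : L2R →L[ℂ] L2R), IsResolvent (fun _ => 0) c R0 ∧ IsMul V MV ∧
      (∀ f, T f = f + MV (R0 f)) ∧ (∀ f, T (S f) = f) ∧ (∀ f, S (T f) = f) := by
  have hb0 : 0 ≤ b := (abs_nonneg _).trans (hb 0)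
  have hc : 0 < c := lt_of_le_of_lt hb0 hbc
  obtain ⟨R0, hR0, hR0n⟩ := hR c hc
  obtain ⟨MV, hMV, hMVn, -⟩ := exists_mul V hV b hb
  set K : L2R →L[ℂ] L2R := MV.comp R0 with hK
  have hKn : ‖-K‖ < 1 := by
    rw [norm_neg]
    calc ‖K‖ ≤ ‖MV‖ * ‖R0‖ := ContinuousLinearMap.opNorm_comp_le _ _
      _ ≤ b * (1 / c) := mul_le_mul hMVn hR0n (norm_nonneg _) hb0
      _ < 1 := by
        rw [mul_one_div, div_lt_one hc]
        exact hbc
  set u : (L2R →L[ℂ] L2R)ˣ := Units.oneSub (-K) hKn with hu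
  have huv : (u : L2R →L[ℂ] L2R) = 1 + K := by
    rw [hu, Units.val_oneSub, sub_neg_eq_add]
  refine ⟨R0, MV, (u : L2R →L[ℂ] L2R), ((u⁻¹ : (L2R →L[ℂ] L2R)ˣ) : L2R →L[ℂ] L2R), hR0, hMV,
    ?_, ?_, ?_⟩
  · intro f
    rw [huv]
    rfl
  · intro f
    have := congrArg (fun A : L2R →L[ℂ] L2R => A f) u.mul_inv
    exact this
  · intro f
    have := congrArg (fun A : L2R →L[ℂ] L2R => A f) u.inv_mul
    exact this

/-- the range of `-d²+V+c` on Schwartz functions is dense -/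
theorem dense_range (hS : FreeSolveStmt) (hR : FreeResolventStmt) (V : ℝ → ℝ) (hV : Continuous V) (b c : ℝ)
    (hb : ∀ x, |V x| ≤ b) (hbc : b < c) (f : L2R) (ε : ℝ) (hε : 0 < ε) :
    ∃ (χ : 𝓢(ℝ, ℂ)) (w : L2R),
      (w : ℝ → ℂ) =ᵐ[volume] (fun x => -(deriv (deriv (χ : ℝ → ℂ)) x) + ((V x + c : ℝ) : ℂ) * χ x) ∧
      ‖w - f‖ < ε := by
  have hb0 : 0 ≤ b := (abs_nonneg _).trans (hb 0)
  have hc : 0 < c := lt_of_le_of_lt hb0 hbc
  obtain ⟨R0, MV, T, S, hR0, hMV, hT, hTS, hST⟩ := w2_setup hR V hV b c hb hbc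
  have hTn : 0 < ‖T‖ + 1 := by positivity
  have hdense : DenseRange (SchwartzMap.toLpCLM ℝ ℂ 2 (volume : Measure ℝ)) :=
    SchwartzMap.denseRange_toLpCLM (by norm_num)
  obtain ⟨g, hg⟩ := hdense.exists_dist_lt (S f) (ε := ε / (‖T‖ + 1)) (by positivity)
  have hg' : ‖g.toLp 2 (volume : Measure ℝ) - S f‖ < ε / (‖T‖ + 1) := by
    rw [dist_comm, dist_eq_norm] at hg
    exact hg
  obtain ⟨χ, hχ⟩ := hS c hc g
  have hgae : ((g.toLp 2 (volume : Measure ℝ) : L2R) : ℝ → ℂ) =ᵐ[volume] (g : ℝ → ℂ) :=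
    SchwartzMap.coeFn_toLp g 2 volume
  have h1 : ((R0 (g.toLp 2 (volume : Measure ℝ)) : L2R) : ℝ → ℂ) =ᵐ[volume] (χ : ℝ → ℂ) := by
    apply hR0 χ
    filter_upwards [hgae] with x hx
    rw [hx, ← hχ x, zero_add]
  refine ⟨χ, T (g.toLp 2 (volume : Measure ℝ)), ?_, ?_⟩
  · rw [hT]
    filter_upwards [Lp.coeFn_add (g.toLp 2 (volume : Measure ℝ))
      (MV (R0 (g.toLp 2 (volume : Measure ℝ)))), hgae, h1,
      hMV (R0 (g.toLp 2 (volume : Measure ℝ)))] with x h2 h3 h4 h5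
    rw [h2, Pi.add_apply, h3, h5, h4, ← hχ x]
    push_cast
    ring
  · have h2 : T (g.toLp 2 (volume : Measure ℝ)) - f = T (g.toLp 2 (volume : Measure ℝ) - S f) := by
      rw [map_sub, hTS]
    rw [h2]
    calc ‖T (g.toLp 2 (volume : Measure ℝ) - S f)‖
        ≤ ‖T‖ * ‖g.toLp 2 (volume : Measure ℝ) - S f‖ := T.le_opNorm _
      _ ≤ (‖T‖ + 1) * ‖g.toLp 2 (volume : Measure ℝ) - S f‖ :=
          mul_le_mul_of_nonneg_right (by linarith) (norm_nonneg _)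
      _ < (‖T‖ + 1) * (ε / (‖T‖ + 1)) := mul_lt_mul_of_pos_left hg' hTn
      _ = ε := by field_simp

/-- the resolvent exists -/
theorem exists_resolvent (hS : FreeSolveStmt) (hR : FreeResolventStmt) (V : ℝ → ℝ) (hV : Continuous V) (b c : ℝ)
    (hb : ∀ x, |V x| ≤ b) (hbc : b < c) : ∃ R : L2R →L[ℂ] L2R, IsResolvent V c R := by
  obtain ⟨R0, MV, T, S, hR0, hMV, hT, hTS, hST⟩ := w2_setup hR V hV b c hb hbc
  refine ⟨R0.comp S, ?_⟩
  intro χ f hf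
  set g : 𝓢(ℝ, ℂ) := -(SchwartzMap.derivCLM ℂ ℂ (SchwartzMap.derivCLM ℂ ℂ χ)) + (c : ℂ) • χ
    with hg
  have hgx : ∀ x, g x = -(deriv (deriv (χ : ℝ → ℂ)) x) + (c : ℂ) * χ x := by
    intro x
    have h1 : ((SchwartzMap.derivCLM ℂ ℂ χ : 𝓢(ℝ, ℂ)) : ℝ → ℂ) = deriv (χ : ℝ → ℂ) := by
      funext y
      exact SchwartzMap.derivCLM_apply ℂ χ y
    rw [hg, SchwartzMap.add_apply, SchwartzMap.neg_apply, SchwartzMap.smul_apply,
      SchwartzMap.derivCLM_apply, h1, smul_eq_mul]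
  have hgae : ((g.toLp 2 (volume : Measure ℝ) : L2R) : ℝ → ℂ) =ᵐ[volume] (g : ℝ → ℂ) :=
    SchwartzMap.coeFn_toLp g 2 volume
  have h1 : ((R0 (g.toLp 2 (volume : Measure ℝ)) : L2R) : ℝ → ℂ) =ᵐ[volume] (χ : ℝ → ℂ) := by
    apply hR0 χ
    filter_upwards [hgae] with x hx
    rw [hx, hgx x, zero_add]
  have h2 : T (g.toLp 2 (volume : Measure ℝ)) = f := by
    apply Lp.ext
    rw [hT]
    filter_upwards [Lp.coeFn_add (g.toLp 2 (volume : Measure ℝ))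
      (MV (R0 (g.toLp 2 (volume : Measure ℝ)))), hgae, h1,
      hMV (R0 (g.toLp 2 (volume : Measure ℝ))), hf] with x h2 h3 h4 h5 h6
    rw [h2, Pi.add_apply, h3, h5, h4, hgx x, h6]
    push_cast
    ring
  have h3 : S f = g.toLp 2 (volume : Measure ℝ) := by
    rw [← h2, hST]
  change ((R0 (S f) : L2R) : ℝ → ℂ) =ᵐ[volume] (χ : ℝ → ℂ)
  rw [h3]
  exact h1

end Pool.Agent.Helper209.PL.Res2
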