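import Pool.Agent.Helper209.PL.Defs

set_option autoImplicit false

namespace Pool.Agent.Helper209.PL.Riem

open MeasureTheory Set
open scoped SchwartzMap InnerProductSpace FourierTransform



lemma sum_natAbs_le (a : ℕ → ℝ) (ha : ∀ n, 0 ≤ a n) (B : ℝ)
    (hB : ∀ N, ∑ n ∈ Finset.range N, a n ≤ B) (s : Finset ℤ) :
    ∑ m ∈ s, a m.natAbs ≤ 2 * B := by
  classical
  have key : ∀ t : Finset ℤ, Set.InjOn Int.natAbs (t : Set ℤ) → ∑ m ∈ t, a m.natAbs ≤ B := by
    intro t ht
    rw [← Finset.sum_image (f := a) (g := Int.natAbs) ht]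
    refine (Finset.sum_le_sum_of_subset_of_nonneg (t := Finset.range ((t.image Int.natAbs).sup id + 1))
      ?_ (fun i _ _ => ha i)).trans (hB _)
    intro n hn
    rw [Finset.mem_range, Nat.lt_succ_iff]
    exact Finset.le_sup (f := id) hn
  rw [← Finset.sum_filter_add_sum_filter_not s (fun m => 0 ≤ m)]
  have h1 := key (s.filter (fun m => 0 ≤ m)) (by
    intro x hx y hy hxy
    simp only [Finset.coe_filter, Set.mem_ofPred_eq] at hx hy
    have hxy' : x.natAbs = y.natAbs := hxy
    omega)
  have h2 := key (s.filter (fun m => ¬ 0 ≤ m)) (by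
    intro x hx y hy hxy
    simp only [Finset.coe_filter, Set.mem_ofPred_eq] at hx hy
    have hxy' : x.natAbs = y.natAbs := hxy
    omega)
  linarith

lemma mom_sq (L : ℝ) (m : ℤ) : mom L m ^ 2 = ((m.natAbs : ℝ) * (2 * Real.pi / L)) ^ 2 := by
  unfold mom
  have h1 : ((m.natAbs : ℝ)) ^ 2 = (m : ℝ) ^ 2 := by
    rw [Nat.cast_natAbs]
    push_cast
    exact sq_abs _
  rw [mul_pow, h1]
  ring

/-- Riemann sums of `(μ-p²)_+^{β-1}`, cut off away from the edge -/
theorem riemann_cut (β : ℝ) (hβ : 0 < β) : ∃ C : ℝ, 0 < C ∧ ∀ (μ δ : ℝ), 0 < δ → δ < μ →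
    ∃ L0 : ℝ, 0 < L0 ∧ ∀ L : ℝ, L0 ≤ L → ∀ s : Finset ℤ,
      (1 / L) * ∑ m ∈ s, (if mom L m ^ 2 < μ - δ then (μ - mom L m ^ 2) ^ (β - 1) else 0) ≤ C * μ ^ (β - 1 / 2) := by
  have hpi := Real.pi_pos
  -- it suffices to bound the sums over the natural numbers
  suffices H : ∃ C : ℝ, 0 < C ∧ ∀ (μ δ : ℝ), 0 < δ → δ < μ → ∃ h0 : ℝ, 0 < h0 ∧ ∀ h : ℝ, 0 < h →
      h ≤ h0 → ∀ N : ℕ, h * ∑ n ∈ Finset.range N,
        (if ((n : ℝ) * h) ^ 2 < μ - δ then (μ - ((n : ℝ) * h) ^ 2) ^ (β - 1) else 0) ≤
          C * μ ^ (β - 1 / 2) by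
    obtain ⟨C, hC, H⟩ := H
    refine ⟨C, hC, fun μ δ hδ hδμ => ?_⟩
    obtain ⟨h0, hh0, H⟩ := H μ δ hδ hδμ
    refine ⟨2 * Real.pi / h0, by positivity, fun L hL s => ?_⟩
    have hLp : 0 < L := lt_of_lt_of_le (by positivity) hL
    have hhp : 0 < 2 * Real.pi / L := by positivity
    have hh : 2 * Real.pi / L ≤ h0 := by
      rw [div_le_iff₀ hh0] at hL
      rw [div_le_iff₀ hLp]
      linarith
    have H1 := H (2 * Real.pi / L) hhp hh
    have H2 := sum_natAbs_le (fun n => if ((n : ℝ) * (2 * Real.pi / L)) ^ 2 < μ - δ then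
      (μ - ((n : ℝ) * (2 * Real.pi / L)) ^ 2) ^ (β - 1) else 0) (by
        intro n
        split_ifs with h
        · exact Real.rpow_nonneg (by linarith) _
        · exact le_rfl) ((C * μ ^ (β - 1 / 2)) / (2 * Real.pi / L)) (by
        intro N
        rw [le_div_iff₀ hhp, mul_comm]
        exact H1 N) s
    have H3 : ∑ m ∈ s, (if mom L m ^ 2 < μ - δ then (μ - mom L m ^ 2) ^ (β - 1) else 0) ≤
        2 * ((C * μ ^ (β - 1 / 2)) / (2 * Real.pi / L)) := by
      refine le_trans (le_of_eq ?_) H2
      refine Finset.sum_congr rfl fun m _ => ?_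
      rw [mom_sq]
    have hμ : 0 < μ := hδ.trans hδμ
    have hR : 0 < μ ^ (β - 1 / 2) := Real.rpow_pos_of_pos hμ _
    calc (1 / L) * ∑ m ∈ s, (if mom L m ^ 2 < μ - δ then (μ - mom L m ^ 2) ^ (β - 1) else 0)
        ≤ (1 / L) * (2 * ((C * μ ^ (β - 1 / 2)) / (2 * Real.pi / L))) :=
          mul_le_mul_of_nonneg_left H3 (by positivity)
      _ = (C * μ ^ (β - 1 / 2)) / Real.pi := by field_simp
      _ ≤ C * μ ^ (β - 1 / 2) := by
          apply div_le_self (by positivity)
          have := Real.pi_gt_three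
          linarith
  rcases le_or_gt 1 β with hβ1 | hβ1
  · -- β ≥ 1
    refine ⟨2, by norm_num, fun μ δ hδ hδμ => ?_⟩
    have hμ : 0 < μ := hδ.trans hδμ
    have hr : 0 < Real.sqrt μ := Real.sqrt_pos.2 hμ
    refine ⟨Real.sqrt μ, hr, fun h hh hh0 N => ?_⟩
    have hP : 0 < μ ^ (β - 1) := Real.rpow_pos_of_pos hμ _
    have key : h * ∑ n ∈ Finset.range N,
        (if ((n : ℝ) * h) ^ 2 < μ - δ then (μ - ((n : ℝ) * h) ^ 2) ^ (β - 1) else 0) ≤
          μ ^ (β - 1) * min ((N : ℝ) * h) (Real.sqrt μ + h) := by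
      induction N with
      | zero =>
        simp only [Finset.range_zero, Finset.sum_empty, mul_zero, Nat.cast_zero, zero_mul]
        exact mul_nonneg hP.le (le_min le_rfl (by positivity))
      | succ N ih =>
        rw [Finset.sum_range_succ, mul_add]
        split_ifs with hN
        · have h1 : (N : ℝ) * h < Real.sqrt μ := by
            rw [Real.lt_sqrt (by positivity)]
            linarith
          have h2 : (μ - ((N : ℝ) * h) ^ 2) ^ (β - 1) ≤ μ ^ (β - 1) := by
            apply Real.rpow_le_rpow (by linarith) _ (by linarith)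
            have := sq_nonneg ((N : ℝ) * h)
            linarith
          have h3 : min ((N : ℝ) * h) (Real.sqrt μ + h) = N * h := min_eq_left (by linarith)
          have h4 : min (((N + 1 : ℕ) : ℝ) * h) (Real.sqrt μ + h) = N * h + h := by
            push_cast
            rw [min_eq_left (by linarith)]
            ring
          rw [h3] at ih
          rw [h4, mul_add]
          have := mul_le_mul_of_nonneg_left h2 hh.le
          linarith
        · rw [mul_zero, add_zero]
          refine ih.trans (mul_le_mul_of_nonneg_left ?_ hP.le)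
          apply min_le_min_right
          push_cast
          nlinarith
    refine key.trans ?_
    have h5 : μ ^ (β - 1 / 2) = μ ^ (β - 1) * Real.sqrt μ := by
      rw [Real.sqrt_eq_rpow, ← Real.rpow_add hμ]
      congr 1
      ring
    rw [h5]
    have h6 : min ((N : ℝ) * h) (Real.sqrt μ + h) ≤ 2 * Real.sqrt μ :=
      (min_le_right _ _).trans (by linarith)
    have := mul_le_mul_of_nonneg_left h6 hP.le
    linarith
  · -- β < 1
    refine ⟨1 / β, by positivity, fun μ δ hδ hδμ => ?_⟩
    have hμ : 0 < μ := hδ.trans hδμ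
    have hr : 0 < Real.sqrt μ := Real.sqrt_pos.2 hμ
    have hrr : Real.sqrt μ * Real.sqrt μ = μ := Real.mul_self_sqrt hμ.le
    have hq : Real.sqrt (μ - δ) < Real.sqrt μ := Real.sqrt_lt_sqrt (by linarith) (by linarith)
    refine ⟨Real.sqrt μ - Real.sqrt (μ - δ), by linarith, fun h hh hh0 N => ?_⟩
    set r := Real.sqrt μ with hrdef
    have hP : 0 < r ^ (β - 1) := Real.rpow_pos_of_pos hr _
    have key : h * ∑ n ∈ Finset.range N,
        (if ((n : ℝ) * h) ^ 2 < μ - δ then (μ - ((n : ℝ) * h) ^ 2) ^ (β - 1) else 0) ≤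
          r ^ (β - 1) * (1 / β) * (r ^ β - (max (r - (N : ℝ) * h) 0) ^ β) := by
      induction N with
      | zero =>
        simp only [Finset.range_zero, Finset.sum_empty, mul_zero, Nat.cast_zero, zero_mul, sub_zero]
        rw [max_eq_left hr.le]
        simp
      | succ N ih =>
        rw [Finset.sum_range_succ, mul_add]
        split_ifs with hN
        · have h1 : (N : ℝ) * h < Real.sqrt (μ - δ) := by
            rw [Real.lt_sqrt (by positivity)]
            exact hN
          have h1' : 0 < r - (N : ℝ) * h := by linarith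
          have h2' : 0 ≤ r - ((N : ℝ) + 1) * h := by nlinarith
          have h2 : (μ - ((N : ℝ) * h) ^ 2) ^ (β - 1) ≤ r ^ (β - 1) * (r - N * h) ^ (β - 1) := by
            rw [← Real.mul_rpow hr.le h1'.le]
            apply Real.rpow_le_rpow_of_nonpos (mul_pos hr h1') _ (by linarith)
            have hNh : 0 ≤ (N : ℝ) * h := by positivity
            nlinarith
          -- Bernoulli
          have h3 : (r - ((N : ℝ) + 1) * h) ^ β ≤
              (r - N * h) ^ β - β * h * (r - N * h) ^ (β - 1) := by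
            have hb := rpow_one_add_le_one_add_mul_self (s := -(h / (r - N * h))) (p := β) (by
              have : h / (r - N * h) ≤ 1 := by
                rw [div_le_one h1']
                nlinarith
              linarith) hβ.le hβ1.le
            have e1 : (1 : ℝ) + -(h / (r - N * h)) = (r - ((N : ℝ) + 1) * h) / (r - N * h) := by
              rw [eq_div_iff h1'.ne', add_mul, neg_mul, div_mul_cancel₀ _ h1'.ne']
              ring
            rw [e1, Real.div_rpow h2' h1'.le] at hb
            have hpos : 0 < (r - N * h) ^ β := Real.rpow_pos_of_pos h1' _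
            rw [div_le_iff₀ hpos] at hb
            refine hb.trans (le_of_eq ?_)
            have e2 : (r - N * h) ^ (β - 1) = (r - N * h) ^ β / (r - N * h) := by
              rw [Real.rpow_sub h1', Real.rpow_one]
            rw [e2]
            field_simp
            ring
          have h4 : max (r - (N : ℝ) * h) 0 = r - N * h := max_eq_left h1'.le
          have h5 : max (r - ((N + 1 : ℕ) : ℝ) * h) 0 = r - ((N : ℝ) + 1) * h := by
            push_cast
            exact max_eq_left h2'
          rw [h4] at ih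
          rw [h5]
          have h6 : h * (μ - ((N : ℝ) * h) ^ 2) ^ (β - 1) ≤
              r ^ (β - 1) * (1 / β) * (β * h * (r - N * h) ^ (β - 1)) := by
            calc h * (μ - ((N : ℝ) * h) ^ 2) ^ (β - 1) ≤
                h * (r ^ (β - 1) * (r - N * h) ^ (β - 1)) := mul_le_mul_of_nonneg_left h2 hh.le
              _ = _ := by field_simp
          have h7 : r ^ (β - 1) * (1 / β) * (β * h * (r - N * h) ^ (β - 1)) ≤
              r ^ (β - 1) * (1 / β) * ((r - N * h) ^ β - (r - ((N : ℝ) + 1) * h) ^ β) := by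
            apply mul_le_mul_of_nonneg_left _ (by positivity)
            linarith
          calc _ ≤ r ^ (β - 1) * (1 / β) * (r ^ β - (r - (N : ℝ) * h) ^ β) +
                r ^ (β - 1) * (1 / β) * ((r - N * h) ^ β - (r - ((N : ℝ) + 1) * h) ^ β) :=
                add_le_add ih (h6.trans h7)
            _ = _ := by ring
        · rw [mul_zero, add_zero]
          refine ih.trans (mul_le_mul_of_nonneg_left ?_ (by positivity))
          apply sub_le_sub_left
          apply Real.rpow_le_rpow (le_max_right _ _) _ hβ.le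
          apply max_le_max_right
          push_cast
          nlinarith
    refine key.trans ?_
    have h5 : μ ^ (β - 1 / 2) = r ^ (β - 1) * r ^ β := by
      rw [← Real.rpow_add hr, ← hrr, ← sq, ← Real.rpow_natCast, ← Real.rpow_mul hr.le]
      congr 1
      push_cast
      ring
    rw [h5]
    have h6 : 0 ≤ (max (r - (N : ℝ) * h) 0) ^ β := Real.rpow_nonneg (le_max_right _ _) _
    have h7 : r ^ (β - 1) * (1 / β) * (r ^ β - (max (r - (N : ℝ) * h) 0) ^ β) ≤
        r ^ (β - 1) * (1 / β) * r ^ β :=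
      mul_le_mul_of_nonneg_left (by linarith) (by positivity)
    refine h7.trans (le_of_eq ?_)
    ring

lemma riem_gen (G : ℝ → ℝ) (hGc : Continuous G) (R : ℝ) (hR : 0 ≤ R)
    (hsupp : ∀ p, R ≤ |p| → G p = 0) (h : ℝ) (hh : 0 < h) (η : ℝ)
    (hη : ∀ c, |(∫ p in (c - h / 2)..(c + h / 2), G p) - h * G c| ≤ h * η) :
    |h * (∑' n : ℤ, G (n * h)) - ∫ p : ℝ, G p| ≤ (2 * R + 3 * h) * η := by
  have hη0 : 0 ≤ η := by
    have h1 := (abs_nonneg _).trans (hη 0)
    by_contra h2
    push Not at h2
    have := mul_neg_of_pos_of_neg hh h2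
    linarith
  set K : ℕ := ⌈R / h⌉₊ with hK
  have hK1 : R ≤ K * h := by
    have := Nat.le_ceil (R / h)
    rwa [div_le_iff₀ hh] at this
  have hK2 : (K : ℝ) * h < R + h := by
    have := Nat.ceil_lt_add_one (a := R / h) (by positivity)
    have h2 := mul_lt_mul_of_pos_right this hh
    rw [add_mul, div_mul_cancel₀ _ hh.ne', one_mul] at h2
    exact h2
  -- the sum
  have hsum : (∑' n : ℤ, G (n * h)) = ∑ k ∈ Finset.range (2 * K + 1), G (((k : ℝ) - K) * h) := by
    let e : ℕ ↪ ℤ := ⟨fun k => (k : ℤ) - K, fun a b hab => by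
      have : (a : ℤ) - K = (b : ℤ) - K := hab
      omega⟩
    rw [tsum_eq_sum (s := (Finset.range (2 * K + 1)).map e)]
    · rw [Finset.sum_map]
      refine Finset.sum_congr rfl fun k _ => ?_
      show G (((((k : ℤ) - K : ℤ)) : ℝ) * h) = _
      push_cast
      rfl
    · intro n hn
      apply hsupp
      have hn2 : (K : ℤ) + 1 ≤ |n| := by
        by_contra hcon
        apply hn
        rw [Finset.mem_map]
        have h3 : |n| ≤ K := by omega
        rw [abs_le] at h3
        refine ⟨(n + K).toNat, ?_, ?_⟩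
        · rw [Finset.mem_range]; omega
        · show (((n + K).toNat : ℤ) - K) = n
          omega
      have hn3 : (K : ℝ) + 1 ≤ |(n : ℝ)| := by exact_mod_cast hn2
      rw [abs_mul, abs_of_pos hh]
      nlinarith
  -- the integral
  set a : ℕ → ℝ := fun k => ((k : ℝ) - K) * h - h / 2 with ha
  have hint : ∫ p : ℝ, G p = ∑ k ∈ Finset.range (2 * K + 1), ∫ p in a k..a (k + 1), G p := by
    rw [intervalIntegral.sum_integral_adjacent_intervals
      (fun k _ => hGc.intervalIntegrable _ _)]
    rw [intervalIntegral.integral_eq_integral_of_support_subset]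
    intro p hp
    have hp2 : |p| < R := by
      by_contra h2
      exact hp (hsupp p (not_lt.1 h2))
    rw [abs_lt] at hp2
    simp only [ha]
    push_cast
    constructor
    · nlinarith [hp2.1]
    · nlinarith [hp2.2]
  rw [hsum, hint, Finset.mul_sum, ← Finset.sum_sub_distrib]
  refine (Finset.abs_sum_le_sum_abs _ _).trans ?_
  have hterm : ∀ k ∈ Finset.range (2 * K + 1),
      |h * G (((k : ℝ) - K) * h) - ∫ p in a k..a (k + 1), G p| ≤ h * η := by
    intro k _
    have h1 := hη (((k : ℝ) - K) * h)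
    rw [abs_sub_comm]
    have e1 : a k = ((k : ℝ) - K) * h - h / 2 := rfl
    have e2 : a (k + 1) = ((k : ℝ) - K) * h + h / 2 := by
      simp only [ha]; push_cast; ring
    rw [e1, e2]
    exact h1
  refine (Finset.sum_le_sum hterm).trans ?_
  rw [Finset.sum_const, Finset.card_range, nsmul_eq_mul]
  push_cast
  have : ((2 : ℝ) * K + 1) * h ≤ 2 * R + 3 * h := by nlinarith
  calc ((2 : ℝ) * K + 1) * (h * η) = (((2 : ℝ) * K + 1) * h) * η := by ring
    _ ≤ (2 * R + 3 * h) * η := mul_le_mul_of_nonneg_right this hη0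

lemma supp_aux (β : ℝ) (hβ : 0 < β) (μ : ℝ) (hμ : 0 < μ) (p : ℝ) (hp : Real.sqrt μ ≤ |p|) :
    (max (μ - p ^ 2) 0) ^ β = 0 := by
  have h1 : μ ≤ p ^ 2 := by
    have h2 := Real.sqrt_nonneg μ
    calc μ = Real.sqrt μ ^ 2 := (Real.sq_sqrt hμ.le).symm
      _ ≤ |p| ^ 2 := by gcongr
      _ = p ^ 2 := sq_abs p
  rw [max_eq_right (by linarith), Real.zero_rpow hβ.ne']

lemma compact_aux (G : ℝ → ℝ) (R : ℝ) (hsupp : ∀ p, R ≤ |p| → G p = 0) : HasCompactSupport G := by
  apply HasCompactSupport.intro (K := Icc (-R) R) isCompact_Icc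
  intro x hx
  apply hsupp
  by_contra h
  push Not at h
  rw [abs_lt] at h
  exact hx ⟨h.1.le, h.2.le⟩

lemma mom_eq (L : ℝ) (n : ℤ) : mom L n = n * (2 * Real.pi / L) := by
  unfold mom; ring

/-- Riemann sums, continuous case -/
theorem riem_cont (β : ℝ) (hβ : 0 < β) (μ : ℝ) (hμ : 0 < μ) (ε : ℝ) (hε : 0 < ε) :
    ∃ L0 : ℝ, 0 < L0 ∧ ∀ L : ℝ, L0 ≤ L →
      |(1 / L) * (∑' n : ℤ, (max (μ - mom L n ^ 2) 0) ^ β)
        - (1 / (2 * Real.pi)) * ∫ p : ℝ, (max (μ - p ^ 2) 0) ^ β| ≤ ε := by
  have hpi := Real.pi_pos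
  set G : ℝ → ℝ := fun p => (max (μ - p ^ 2) 0) ^ β with hG
  have hGc : Continuous G := by
    apply Continuous.rpow_const
    · fun_prop
    · intro x; right; exact hβ.le
  have hsupp : ∀ p, Real.sqrt μ ≤ |p| → G p = 0 := fun p hp => supp_aux β hβ μ hμ p hp
  have hcs := compact_aux G _ hsupp
  have huc : UniformContinuous G := hcs.uniformContinuous_of_continuous hGc
  set R := Real.sqrt μ with hR
  have hR0 : 0 ≤ R := Real.sqrt_nonneg _
  set ε' : ℝ := ε / (2 * R + 3) with hε'
  have hε'p : 0 < ε' := by positivity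
  obtain ⟨δ, hδ, hδG⟩ := Metric.uniformContinuous_iff.1 huc ε' hε'p
  refine ⟨2 * Real.pi / min δ 1, by positivity, fun L hL => ?_⟩
  have hm : 0 < min δ 1 := by positivity
  have hLp : 0 < L := lt_of_lt_of_le (by positivity) hL
  set h := 2 * Real.pi / L with hh
  have hhp : 0 < h := by positivity
  have hh1 : h ≤ min δ 1 := by
    rw [hh, div_le_iff₀ hLp]
    rw [div_le_iff₀ hm] at hL
    linarith
  have hhδ : h ≤ δ := hh1.trans (min_le_left _ _)
  have hh1 : h ≤ 1 := hh1.trans (min_le_right _ _)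
  have H := riem_gen G hGc R hR0 hsupp h hhp ε' (by
    intro c
    have e : (∫ p in (c - h / 2)..(c + h / 2), G p) - h * G c =
        ∫ p in (c - h / 2)..(c + h / 2), (G p - G c) := by
      rw [intervalIntegral.integral_sub (hGc.intervalIntegrable _ _)
        (by simp), intervalIntegral.integral_const]
      simp only [smul_eq_mul]
      ring
    rw [e]
    have h1 := intervalIntegral.norm_integral_le_of_norm_le_const (a := c - h / 2) (b := c + h / 2)
      (f := fun p => G p - G c) (C := ε') (by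
        intro x hx
        rw [uIoc_of_le (by linarith)] at hx
        have h2 : dist x c < δ := by
          rw [Real.dist_eq, abs_lt]
          constructor <;> linarith [hx.1, hx.2]
        have h3 := hδG h2
        rw [Real.dist_eq] at h3
        exact h3.le)
    rw [Real.norm_eq_abs] at h1
    refine h1.trans (le_of_eq ?_)
    rw [show c + h / 2 - (c - h / 2) = h by ring, abs_of_pos hhp]
    ring)
  have e1 : (1 / L) * (∑' n : ℤ, (max (μ - mom L n ^ 2) 0) ^ β)
        - (1 / (2 * Real.pi)) * ∫ p : ℝ, (max (μ - p ^ 2) 0) ^ β =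
        (1 / (2 * Real.pi)) * (h * (∑' n : ℤ, G (n * h)) - ∫ p : ℝ, G p) := by
    have e2 : (fun n : ℤ => (max (μ - mom L n ^ 2) 0) ^ β) = fun n : ℤ => G (n * h) := by
      ext n
      rw [mom_eq]
    rw [e2, mul_sub, ← mul_assoc]
    congr 2
    rw [hh]
    field_simp
  rw [e1, abs_mul, abs_of_pos (by positivity)]
  have h5 : (2 * R + 3 * h) * ε' ≤ ε := by
    calc (2 * R + 3 * h) * ε' ≤ (2 * R + 3) * ε' := by
          apply mul_le_mul_of_nonneg_right _ hε'p.le
          linarith
      _ = ε := by rw [hε']; field_simp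
  have h6 : 1 / (2 * Real.pi) ≤ 1 := by
    rw [div_le_one (by positivity)]
    linarith [Real.pi_gt_three]
  calc 1 / (2 * Real.pi) * |h * (∑' n : ℤ, G (n * h)) - ∫ p : ℝ, G p|
      ≤ 1 * |h * (∑' n : ℤ, G (n * h)) - ∫ p : ℝ, G p| :=
        mul_le_mul_of_nonneg_right h6 (abs_nonneg _)
    _ ≤ ε := by rw [one_mul]; exact H.trans h5

lemma hasDerivAt_posPow (γ : ℝ) (hγ : 1 < γ) (t : ℝ) :
    HasDerivAt (fun t : ℝ => (max t 0) ^ γ) (γ * (max t 0) ^ (γ - 1)) t := by
  rcases lt_trichotomy t 0 with ht | ht | ht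
  · have h1 : (fun t : ℝ => (max t 0) ^ γ) =ᶠ[nhds t] fun _ => 0 := by
      filter_upwards [gt_mem_nhds ht] with x hx
      rw [max_eq_right hx.le, Real.zero_rpow (by linarith)]
    rw [max_eq_right ht.le, Real.zero_rpow (by linarith), mul_zero]
    exact (hasDerivAt_const t (0 : ℝ)).congr_of_eventuallyEq h1
  · subst ht
    have h1 : HasDerivWithinAt (fun t : ℝ => (max t 0) ^ γ) (γ * (max (0 : ℝ) 0) ^ (γ - 1)) (Iic 0) 0 := by
      rw [max_self, Real.zero_rpow (by linarith), mul_zero]
      refine (hasDerivWithinAt_const (0 : ℝ) (Iic 0) (0 : ℝ)).congr ?_ ?_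
      · intro x hx
        rw [max_eq_right hx, Real.zero_rpow (by linarith)]
      · rw [max_self, Real.zero_rpow (by linarith)]
    have h2 : HasDerivWithinAt (fun t : ℝ => (max t 0) ^ γ) (γ * (max (0 : ℝ) 0) ^ (γ - 1)) (Ici 0) 0 := by
      rw [max_self]
      refine (Real.hasDerivAt_rpow_const (x := 0) (p := γ) (Or.inr hγ.le)).hasDerivWithinAt.congr ?_ ?_
      · intro x hx
        rw [max_eq_left hx]
      · rw [max_self]
    have h3 := h1.union h2
    rw [Iic_union_Ici, hasDerivWithinAt_univ] at h3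
    exact h3
  · have h1 : (fun t : ℝ => (max t 0) ^ γ) =ᶠ[nhds t] fun t => t ^ γ := by
      filter_upwards [lt_mem_nhds ht] with x hx
      rw [max_eq_left hx.le]
    rw [max_eq_left ht.le]
    exact (Real.hasDerivAt_rpow_const (Or.inl ht.ne')).congr_of_eventuallyEq h1

/-- Riemann sums, `C¹` case -/
theorem riem_c1 (γ : ℝ) (hγ : 1 < γ) (μ : ℝ) (hμ : 0 < μ) (ε : ℝ) (hε : 0 < ε) :
    ∃ L0 : ℝ, 0 < L0 ∧ ∀ L : ℝ, L0 ≤ L →
      |(1 / L) * (∑' n : ℤ, (max (μ - mom L n ^ 2) 0) ^ γ)
        - (1 / (2 * Real.pi)) * ∫ p : ℝ, (max (μ - p ^ 2) 0) ^ γ| ≤ ε / L := by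
  have hpi := Real.pi_pos
  set G : ℝ → ℝ := fun p => (max (μ - p ^ 2) 0) ^ γ with hG
  set G' : ℝ → ℝ := fun p => (γ * (max (μ - p ^ 2) 0) ^ (γ - 1)) * (-(2 * p)) with hG'
  have hGc : Continuous G := by
    apply Continuous.rpow_const
    · fun_prop
    · intro x; right; linarith
  have hGc' : Continuous G' := by
    apply Continuous.mul
    · apply Continuous.mul continuous_const
      apply Continuous.rpow_const
      · fun_prop
      · intro x; right; linarith
    · fun_prop
  have hGd : ∀ p, HasDerivAt G (G' p) p := by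
    intro p
    have h1 := hasDerivAt_posPow γ hγ (μ - p ^ 2)
    have h2 : HasDerivAt (fun p : ℝ => μ - p ^ 2) (-(2 * p)) p := by
      have h3 := (hasDerivAt_pow 2 p).const_sub μ
      simpa using h3
    exact h1.comp p h2
  have hsupp : ∀ p, Real.sqrt μ ≤ |p| → G p = 0 := fun p hp => supp_aux γ (by linarith) μ hμ p hp
  have hsupp' : ∀ p, Real.sqrt μ ≤ |p| → G' p = 0 := by
    intro p hp
    simp only [hG']
    rw [supp_aux (γ - 1) (by linarith) μ hμ p hp]
    ring
  have hcs := compact_aux G' _ hsupp'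
  have huc : UniformContinuous G' := hcs.uniformContinuous_of_continuous hGc'
  set R := Real.sqrt μ with hR
  have hR0 : 0 ≤ R := Real.sqrt_nonneg _
  set ε' : ℝ := ε / (2 * R + 3) with hε'
  have hε'p : 0 < ε' := by positivity
  obtain ⟨δ, hδ, hδG⟩ := Metric.uniformContinuous_iff.1 huc ε' hε'p
  refine ⟨2 * Real.pi / min δ 1, by positivity, fun L hL => ?_⟩
  have hm : 0 < min δ 1 := by positivity
  have hLp : 0 < L := lt_of_lt_of_le (by positivity) hL
  set h := 2 * Real.pi / L with hh
  have hhp : 0 < h := by positivity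
  have hh1 : h ≤ min δ 1 := by
    rw [hh, div_le_iff₀ hLp]
    rw [div_le_iff₀ hm] at hL
    linarith
  have hhδ : h ≤ δ := hh1.trans (min_le_left _ _)
  have hh1 : h ≤ 1 := hh1.trans (min_le_right _ _)
  have H := riem_gen G hGc R hR0 hsupp h hhp (h / 2 * ε') (by
    intro c
    have hi1 : ∫ p in (c - h / 2)..(c + h / 2), G' c * (p - c) = 0 := by
      rw [intervalIntegral.integral_const_mul]
      have : ∫ p in (c - h / 2)..(c + h / 2), (p - c) = 0 := by
        rw [intervalIntegral.integral_sub (by simp) (by simp), integral_id,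
          intervalIntegral.integral_const, smul_eq_mul]
        ring
      rw [this, mul_zero]
    have e : (∫ p in (c - h / 2)..(c + h / 2), G p) - h * G c =
        ∫ p in (c - h / 2)..(c + h / 2), (G p - G c - G' c * (p - c)) := by
      rw [intervalIntegral.integral_sub, intervalIntegral.integral_sub (hGc.intervalIntegrable _ _)
        (by simp), intervalIntegral.integral_const, hi1]
      · simp only [smul_eq_mul]
        ring
      · apply Continuous.intervalIntegrable; fun_prop
      · apply Continuous.intervalIntegrable; fun_prop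
    rw [e]
    have h1 := intervalIntegral.norm_integral_le_of_norm_le_const (a := c - h / 2) (b := c + h / 2)
      (f := fun p => G p - G c - G' c * (p - c)) (C := h / 2 * ε') (by
        intro x hx
        rw [uIoc_of_le (by linarith)] at hx
        have hxm : x ∈ Icc (c - h / 2) (c + h / 2) := ⟨hx.1.le, hx.2⟩
        have hcm : c ∈ Icc (c - h / 2) (c + h / 2) := ⟨by linarith, by linarith⟩
        have hmv := Convex.norm_image_sub_le_of_norm_hasDerivWithin_le
          (f := fun p => G p - G' c * p) (f' := fun p => G' p - G' c) (C := ε')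
          (s := Icc (c - h / 2) (c + h / 2)) (x := c) (y := x)
          (fun p _ => by
            have h4 := (hGd p).sub ((hasDerivAt_id p).const_mul (G' c))
            simp only [mul_one] at h4
            exact h4.hasDerivWithinAt)
          (fun p hp => by
            have h2 : dist p c < δ := by
              rw [Real.dist_eq, abs_lt]
              constructor <;> linarith [hp.1, hp.2]
            have h3 := hδG h2
            rw [Real.dist_eq] at h3
            exact h3.le)
          (convex_Icc _ _) hcm hxm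
        have e3 : G x - G c - G' c * (x - c) = (G x - G' c * x) - (G c - G' c * c) := by ring
        rw [e3]
        refine hmv.trans ?_
        have h5 : ‖x - c‖ ≤ h / 2 := by
          rw [Real.norm_eq_abs, abs_le]
          constructor <;> linarith [hx.1, hx.2]
        calc ε' * ‖x - c‖ ≤ ε' * (h / 2) := mul_le_mul_of_nonneg_left h5 hε'p.le
          _ = h / 2 * ε' := by ring)
    rw [Real.norm_eq_abs] at h1
    refine h1.trans (le_of_eq ?_)
    rw [show c + h / 2 - (c - h / 2) = h by ring, abs_of_pos hhp]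
    ring)
  have e1 : (1 / L) * (∑' n : ℤ, (max (μ - mom L n ^ 2) 0) ^ γ)
        - (1 / (2 * Real.pi)) * ∫ p : ℝ, (max (μ - p ^ 2) 0) ^ γ =
        (1 / (2 * Real.pi)) * (h * (∑' n : ℤ, G (n * h)) - ∫ p : ℝ, G p) := by
    have e2 : (fun n : ℤ => (max (μ - mom L n ^ 2) 0) ^ γ) = fun n : ℤ => G (n * h) := by
      ext n
      rw [mom_eq]
    rw [e2, mul_sub, ← mul_assoc]
    congr 2
    rw [hh]
    field_simp
  rw [e1, abs_mul, abs_of_pos (by positivity)]
  have h5 : (2 * R + 3 * h) * (h / 2 * ε') ≤ ε * (h / 2) := by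
    calc (2 * R + 3 * h) * (h / 2 * ε') ≤ (2 * R + 3) * (h / 2 * ε') := by
          apply mul_le_mul_of_nonneg_right _ (by positivity)
          linarith
      _ = ε * (h / 2) := by rw [hε']; field_simp
  calc 1 / (2 * Real.pi) * |h * (∑' n : ℤ, G (n * h)) - ∫ p : ℝ, G p|
      ≤ 1 / (2 * Real.pi) * (ε * (h / 2)) :=
        mul_le_mul_of_nonneg_left (H.trans h5) (by positivity)
    _ = ε / (2 * L) := by rw [hh]; field_simp
    _ ≤ ε / L := by
        apply div_le_div_of_nonneg_left hε.le hLp
        linarith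

end Pool.Agent.Helper209.PL.Riem
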