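import Pool.Agent.Helper209.PL.Defs

set_option autoImplicit false

namespace Pool.Agent.Helper209.PL.Rumin

open MeasureTheory Set
open scoped SchwartzMap InnerProductSpace FourierTransform


theorem rumin_step_integral (a E : ℝ) (ha : 0 ≤ a) (haE : a ≤ E) :
    ∫ e in (0:ℝ)..E, (if e < a then (1:ℝ) else 0) = a := by
  have hanti : Antitone (fun e : ℝ => if e < a then (1:ℝ) else 0) := by
    intro x y hxy
    by_cases h1 : y < a
    · have : x < a := lt_of_le_of_lt hxy h1
      simp [h1, this]
    · by_cases h2 : x < a <;> simp [h1, h2]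
  have i1 : IntervalIntegrable (fun e : ℝ => if e < a then (1:ℝ) else 0) volume 0 a :=
    hanti.intervalIntegrable
  have i2 : IntervalIntegrable (fun e : ℝ => if e < a then (1:ℝ) else 0) volume a E :=
    hanti.intervalIntegrable
  rw [← intervalIntegral.integral_add_adjacent_intervals i1 i2]
  have e2 : ∫ e in a..E, (if e < a then (1:ℝ) else 0) = 0 := by
    rw [intervalIntegral.integral_congr (g := fun _ => (0:ℝ))]
    · simp
    · intro x hx
      rw [Set.uIcc_of_le haE] at hx
      have : ¬ x < a := not_lt.mpr hx.1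
      simp [this]
  have e1 : ∫ e in (0:ℝ)..a, (if e < a then (1:ℝ) else 0) = a := by
    have : ∫ e in (0:ℝ)..a, (if e < a then (1:ℝ) else 0) = ∫ e in (0:ℝ)..a, (1:ℝ) := by
      apply intervalIntegral.integral_congr_ae
      have : ∀ᵐ x : ℝ ∂volume, x ≠ a := by
        rw [ae_iff]; simp
      filter_upwards [this] with x hx hx2
      rw [Set.uIoc_of_le ha] at hx2
      have : x < a := lt_of_le_of_ne hx2.2 hx
      simp [this]
    rw [this]; simp
  rw [e1, e2, add_zero]

theorem rumin_wave_cont (L : ℝ) (n : ℤ) : Continuous (fun x => wave L n x) := by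
  unfold wave
  fun_prop

theorem rumin_wave_norm (L : ℝ) (hL : 0 < L) (n : ℤ) (x : ℝ) : ‖wave L n x‖ ^ 2 = 1 / L := by
  unfold wave
  rw [norm_mul, Complex.norm_exp_ofReal_mul_I, mul_one, Complex.norm_real, Real.norm_eq_abs, sq_abs,
    div_pow, one_pow, Real.sq_sqrt hL.le]

theorem rumin_ii_sum {α : Type} (s : Finset α) (f : α → ℝ → ℝ) (a b : ℝ)
    (h : ∀ i ∈ s, IntervalIntegrable (f i) volume a b) :
    IntervalIntegrable (fun e => ∑ i ∈ s, f i e) volume a b := by
  have h1 := IntervalIntegrable.sum s h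
  have h2 : (fun e => ∑ i ∈ s, f i e) = ∑ i ∈ s, f i := by
    funext e; simp
  rw [h2]; exact h1

theorem rumin_sq_expand (s : Finset ℤ) (a : ℤ → ℂ) :
    ‖∑ n ∈ s, a n‖ ^ 2 = ∑ n ∈ s, ∑ m ∈ s, (a n * (starRingEnd ℂ) (a m)).re := by
  have h1 : ((‖∑ n ∈ s, a n‖ ^ 2 : ℝ) : ℂ) = (∑ n ∈ s, a n) * (starRingEnd ℂ) (∑ n ∈ s, a n) := by
    rw [Complex.mul_conj, Complex.normSq_eq_norm_sq]
  have h2 : ‖∑ n ∈ s, a n‖ ^ 2 = ((∑ n ∈ s, a n) * (starRingEnd ℂ) (∑ n ∈ s, a n)).re := by
    rw [← h1, Complex.ofReal_re]
  rw [h2, map_sum, Finset.sum_mul_sum, Complex.re_sum]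
  refine Finset.sum_congr rfl fun n _ => ?_
  rw [Complex.re_sum]

/-- averaged Rumin inequality -/
theorem rumin {ι : Type} [Fintype ι] (L : ℝ) (hL : 0 < L) (s : Finset ℤ) (c : ι → ℤ → ℂ) (hc : Bes s c)
    (h : ℤ → ℝ) (hh : ∀ n ∈ s, 0 ≤ h n) (η : ℝ → ℝ) (hη : Continuous η) (hηm : MonotoneOn η (Ici 0))
    (hcount : ∀ e : ℝ, 0 ≤ e → ((s.filter (fun n => h n ≤ e)).card : ℝ) ≤ L * η e)
    (v : ℝ → ℝ) (hv : Continuous v) (hv0 : ∀ x, 0 ≤ v x) (κ : ℝ) (hκ : 0 < κ)
    (horth : ∀ m n : ℤ, ∫ x in (-(L / 2))..(L / 2), wave L n x * (starRingEnd ℂ) (wave L m x)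
      = if m = n then 1 else 0) :
    κ * ∫ x in (-(L / 2))..(L / 2), v x * dens L s c x
      ≤ 2 * (∑ n ∈ s, h n * ∑ i, ‖c i n‖ ^ 2)
        + 2 * κ * ∫ x in (-(L / 2))..(L / 2), v x * η (κ * v x) := by
  have hLL : -(L / 2) ≤ L / 2 := by linarith
  -- bound on v on the box
  obtain ⟨Mv, hMv⟩ : ∃ M, ∀ x ∈ Set.Icc (-(L / 2)) (L / 2), v x ≤ M := by
    obtain ⟨x0, hx0, hmax⟩ := isCompact_Icc.exists_isMaxOn (Set.nonempty_Icc.mpr hLL) hv.continuousOn
    exact ⟨v x0, fun x hx => hmax hx⟩
  obtain ⟨E, hE0, hEh, hEv⟩ : ∃ E : ℝ, 0 ≤ E ∧ (∀ n ∈ s, h n ≤ E) ∧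
      ∀ x ∈ Set.Icc (-(L / 2)) (L / 2), κ * v x ≤ E := by
    refine ⟨∑ n ∈ s, |h n| + |κ * Mv|, by positivity, ?_, ?_⟩
    · intro n hn
      have h1 : |h n| ≤ ∑ n ∈ s, |h n| := Finset.single_le_sum (f := fun n => |h n|) (fun _ _ => abs_nonneg _) hn
      have h2 := le_abs_self (h n)
      have h3 := abs_nonneg (κ * Mv)
      linarith
    · intro x hx
      have h1 : κ * v x ≤ κ * Mv := mul_le_mul_of_nonneg_left (hMv x hx) hκ.le
      have h2 := le_abs_self (κ * Mv)
      have h3 : 0 ≤ ∑ n ∈ s, |h n| := Finset.sum_nonneg fun _ _ => abs_nonneg _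
      linarith
  -- kernel
  set R : ι → ℤ → ℤ → ℝ → ℝ := fun i n m x =>
    ((c i n * wave L n x) * (starRingEnd ℂ) (c i m * wave L m x)).re with hR
  have hRc : ∀ i n m, Continuous (R i n m) := by
    intro i n m
    have h1 := rumin_wave_cont L n
    have h2 := rumin_wave_cont L m
    simp only [hR]
    fun_prop
  set H : ℝ → ℝ → ℝ := fun x e =>
    ∑ i, ‖∑ n ∈ s, (if e < h n then c i n * wave L n x else 0)‖ ^ 2 with hH
  have hHexp : ∀ x e, H x e = ∑ i, ∑ n ∈ s, ∑ m ∈ s, (if e < min (h n) (h m) then (1:ℝ) else 0) * R i n m x := by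
    intro x e
    simp only [hH]
    refine Finset.sum_congr rfl fun i _ => ?_
    rw [rumin_sq_expand]
    refine Finset.sum_congr rfl fun n _ => Finset.sum_congr rfl fun m _ => ?_
    by_cases h1 : e < h n
    · by_cases h2 : e < h m
      · simp [h1, h2, hR, lt_min_iff]
      · simp [h1, h2, lt_min_iff]
    · simp [h1, lt_min_iff]
  have hint0 : ∀ (a : ℝ) (r : ℝ) (u w : ℝ), IntervalIntegrable (fun e : ℝ => (if e < a then (1:ℝ) else 0) * r) volume u w := by
    intro a r u w
    have hanti : Antitone (fun e : ℝ => if e < a then (1:ℝ) else 0) := by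
      intro x y hxy
      by_cases h1 : y < a
      · have : x < a := lt_of_le_of_lt hxy h1
        simp [h1, this]
      · by_cases h2 : x < a <;> simp [h1, h2]
    exact (hanti.intervalIntegrable).mul_const r
  have hHint : ∀ x u w, IntervalIntegrable (H x) volume u w := by
    intro x u w
    have : H x = fun e => ∑ i, ∑ n ∈ s, ∑ m ∈ s, (if e < min (h n) (h m) then (1:ℝ) else 0) * R i n m x := by
      funext e; exact hHexp x e
    rw [this]
    have h1 : ∀ i ∈ (Finset.univ : Finset ι), IntervalIntegrable (fun e => ∑ n ∈ s, ∑ m ∈ s, (if e < min (h n) (h m) then (1:ℝ) else 0) * R i n m x) volume u w := by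
      intro i _
      have h2 : ∀ n ∈ s, IntervalIntegrable (fun e => ∑ m ∈ s, (if e < min (h n) (h m) then (1:ℝ) else 0) * R i n m x) volume u w := by
        intro n _
        have h3 : ∀ m ∈ s, IntervalIntegrable (fun e => (if e < min (h n) (h m) then (1:ℝ) else 0) * R i n m x) volume u w := by
          intro m _
          exact hint0 _ _ _ _
        exact rumin_ii_sum _ _ _ _ h3
      exact rumin_ii_sum _ _ _ _ h2
    exact rumin_ii_sum _ _ _ _ h1
  have hHint2 : ∀ x, ∫ e in (0:ℝ)..E, H x e = ∑ i, ∑ n ∈ s, ∑ m ∈ s, min (h n) (h m) * R i n m x := by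
    intro x
    have : H x = fun e => ∑ i, ∑ n ∈ s, ∑ m ∈ s, (if e < min (h n) (h m) then (1:ℝ) else 0) * R i n m x := by
      funext e; exact hHexp x e
    rw [this]
    rw [intervalIntegral.integral_finsetSum]
    · refine Finset.sum_congr rfl fun i _ => ?_
      rw [intervalIntegral.integral_finsetSum]
      · refine Finset.sum_congr rfl fun n hn => ?_
        rw [intervalIntegral.integral_finsetSum]
        · refine Finset.sum_congr rfl fun m hm => ?_
          rw [intervalIntegral.integral_mul_const, rumin_step_integral _ _ (le_min (hh n hn) (hh m hm))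
            (le_trans (min_le_left _ _) (hEh n hn))]
        · intro m _; exact hint0 _ _ _ _
      · intro n _
        have h3 : ∀ m ∈ s, IntervalIntegrable (fun e => (if e < min (h n) (h m) then (1:ℝ) else 0) * R i n m x) volume 0 E := by
          intro m _
          exact hint0 _ _ _ _
        exact rumin_ii_sum _ _ _ _ h3
    · intro i _
      have h2 : ∀ n ∈ s, IntervalIntegrable (fun e => ∑ m ∈ s, (if e < min (h n) (h m) then (1:ℝ) else 0) * R i n m x) volume 0 E := by
        intro n _
        have h3 : ∀ m ∈ s, IntervalIntegrable (fun e => (if e < min (h n) (h m) then (1:ℝ) else 0) * R i n m x) volume 0 E := by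
          intro m _
          exact hint0 _ _ _ _
        exact rumin_ii_sum _ _ _ _ h3
      exact rumin_ii_sum _ _ _ _ h2
  have hH0 : ∀ x e, 0 ≤ H x e := by
    intro x e
    simp only [hH]
    positivity
  -- pointwise bound
  have hdens : ∀ x e, 0 ≤ e → dens L s c x ≤ 2 * H x e + 2 * η e := by
    intro x e he
    have hb := hc (fun n => if h n ≤ e then wave L n x else 0)
    have hb2 : ∑ n ∈ s, ‖(if h n ≤ e then wave L n x else 0)‖ ^ 2 ≤ η e := by
      have h1 : ∑ n ∈ s, ‖(if h n ≤ e then wave L n x else 0)‖ ^ 2 = ∑ n ∈ s.filter (fun n => h n ≤ e), (1 / L) := by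
        rw [Finset.sum_filter]
        refine Finset.sum_congr rfl fun n _ => ?_
        by_cases h1 : h n ≤ e
        · simp only [h1, if_true]
          exact rumin_wave_norm L hL n x
        · simp [h1]
      rw [h1, Finset.sum_const, nsmul_eq_mul, mul_one_div, div_le_iff₀ hL]
      have := hcount e he
      linarith
    have h3 : dens L s c x ≤ ∑ i, (2 * ‖∑ n ∈ s, (if e < h n then c i n * wave L n x else 0)‖ ^ 2
        + 2 * ‖∑ n ∈ s, c i n * (if h n ≤ e then wave L n x else 0)‖ ^ 2) := by
      unfold dens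
      refine Finset.sum_le_sum fun i _ => ?_
      have h4 : trig L s (c i) x = ∑ n ∈ s, (if e < h n then c i n * wave L n x else 0)
          + ∑ n ∈ s, c i n * (if h n ≤ e then wave L n x else 0) := by
        unfold trig
        rw [← Finset.sum_add_distrib]
        refine Finset.sum_congr rfl fun n _ => ?_
        by_cases h5 : e < h n
        · have : ¬ h n ≤ e := not_le.mpr h5
          simp [h5, this]
        · have : h n ≤ e := not_lt.mp h5
          simp [h5, this]
      rw [h4]
      have h5 := norm_add_le (∑ n ∈ s, (if e < h n then c i n * wave L n x else 0))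
        (∑ n ∈ s, c i n * (if h n ≤ e then wave L n x else 0))
      have h6 := norm_nonneg (∑ n ∈ s, (if e < h n then c i n * wave L n x else 0) + ∑ n ∈ s, c i n * (if h n ≤ e then wave L n x else 0))
      nlinarith [sq_nonneg (‖∑ n ∈ s, (if e < h n then c i n * wave L n x else 0)‖
        - ‖∑ n ∈ s, c i n * (if h n ≤ e then wave L n x else 0)‖)]
    rw [Finset.sum_add_distrib, ← Finset.mul_sum, ← Finset.mul_sum] at h3
    have h7 : ∑ i, ‖∑ n ∈ s, (if e < h n then c i n * wave L n x else 0)‖ ^ 2 = H x e := rfl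
    rw [h7] at h3
    linarith
  have hpt : ∀ x ∈ Set.Icc (-(L / 2)) (L / 2), κ * (v x * dens L s c x) ≤
      2 * (∑ i, ∑ n ∈ s, ∑ m ∈ s, min (h n) (h m) * R i n m x) + 2 * (κ * (v x * η (κ * v x))) := by
    intro x hx
    have ht0 : 0 ≤ κ * v x := mul_nonneg hκ.le (hv0 x)
    have htE := hEv x hx
    have h1 : ∫ e in (0:ℝ)..(κ * v x), dens L s c x ≤ ∫ e in (0:ℝ)..(κ * v x), (2 * H x e + 2 * η (κ * v x)) := by
      apply intervalIntegral.integral_mono_on ht0
      · exact intervalIntegrable_const
      · exact ((hHint x _ _).const_mul 2).add intervalIntegrable_const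
      · intro e he
        have := hdens x e he.1
        have h2 : η e ≤ η (κ * v x) := hηm he.1 ht0 he.2
        linarith
    rw [intervalIntegral.integral_const, intervalIntegral.integral_add ((hHint x _ _).const_mul 2) intervalIntegrable_const,
      intervalIntegral.integral_const_mul, intervalIntegral.integral_const] at h1
    have h3 : ∫ e in (0:ℝ)..(κ * v x), H x e ≤ ∫ e in (0:ℝ)..E, H x e := by
      rw [← intervalIntegral.integral_add_adjacent_intervals (hHint x 0 (κ * v x)) (hHint x (κ * v x) E)]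
      have : 0 ≤ ∫ e in (κ * v x)..E, H x e := intervalIntegral.integral_nonneg htE (fun e _ => hH0 x e)
      linarith
    rw [hHint2 x] at h3
    simp only [smul_eq_mul, sub_zero] at h1
    nlinarith
  -- integrate
  have hdc : Continuous (fun x => dens L s c x) := by
    unfold dens trig
    have := fun n => rumin_wave_cont L n
    fun_prop
  have hFc : Continuous (fun x => ∑ i, ∑ n ∈ s, ∑ m ∈ s, min (h n) (h m) * R i n m x) := by
    fun_prop
  have hI : ∫ x in (-(L / 2))..(L / 2), κ * (v x * dens L s c x) ≤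
      ∫ x in (-(L / 2))..(L / 2), (2 * (∑ i, ∑ n ∈ s, ∑ m ∈ s, min (h n) (h m) * R i n m x)
        + 2 * (κ * (v x * η (κ * v x)))) := by
    apply intervalIntegral.integral_mono_on hLL
    · apply Continuous.intervalIntegrable
      fun_prop
    · apply Continuous.intervalIntegrable
      fun_prop
    · exact hpt
  rw [intervalIntegral.integral_const_mul, intervalIntegral.integral_add, intervalIntegral.integral_const_mul,
    intervalIntegral.integral_const_mul, intervalIntegral.integral_const_mul] at hI
  rotate_left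
  · apply Continuous.intervalIntegrable
    fun_prop
  · apply Continuous.intervalIntegrable
    fun_prop
  have hRI : ∀ i n m, ∫ x in (-(L / 2))..(L / 2), R i n m x = if m = n then ‖c i n‖ ^ 2 else 0 := by
    intro i n m
    have h1 : ∫ x in (-(L / 2))..(L / 2), (c i n * wave L n x) * (starRingEnd ℂ) (c i m * wave L m x)
        = (c i n * (starRingEnd ℂ) (c i m)) * (if m = n then 1 else 0) := by
      rw [← horth m n, ← intervalIntegral.integral_const_mul]
      apply intervalIntegral.integral_congr
      intro x _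
      simp only [map_mul]
      ring
    have h2 : ∫ x in (-(L / 2))..(L / 2), R i n m x
        = (∫ x in (-(L / 2))..(L / 2), (c i n * wave L n x) * (starRingEnd ℂ) (c i m * wave L m x)).re := by
      have h3 : IntervalIntegrable (fun x => (c i n * wave L n x) * (starRingEnd ℂ) (c i m * wave L m x)) volume (-(L / 2)) (L / 2) := by
        apply Continuous.intervalIntegrable
        have h1 := rumin_wave_cont L n
        have h2 := rumin_wave_cont L m
        fun_prop
      have h4 := Complex.reCLM.intervalIntegral_comp_comm h3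
      simpa [hR] using h4
    rw [h2, h1]
    by_cases hmn : m = n
    · subst hmn
      simp only [if_true, mul_one]
      rw [Complex.mul_conj, Complex.ofReal_re, Complex.normSq_eq_norm_sq]
    · simp [hmn]
  have hFI : ∫ x in (-(L / 2))..(L / 2), (∑ i, ∑ n ∈ s, ∑ m ∈ s, min (h n) (h m) * R i n m x)
      = ∑ n ∈ s, h n * ∑ i, ‖c i n‖ ^ 2 := by
    rw [intervalIntegral.integral_finsetSum]
    · rw [Finset.sum_congr rfl (g := fun i => ∑ n ∈ s, h n * ‖c i n‖ ^ 2)]
      · rw [Finset.sum_comm]
        refine Finset.sum_congr rfl fun n _ => ?_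
        rw [Finset.mul_sum]
      · intro i _
        rw [intervalIntegral.integral_finsetSum]
        · refine Finset.sum_congr rfl fun n hn => ?_
          rw [intervalIntegral.integral_finsetSum]
          · rw [Finset.sum_eq_single n]
            · rw [intervalIntegral.integral_const_mul, hRI, min_self]; simp
            · intro m _ hmn
              rw [intervalIntegral.integral_const_mul, hRI]; simp [hmn]
            · intro hn'; exact absurd hn hn'
          · intro m _
            apply Continuous.intervalIntegrable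
            fun_prop
        · intro n _
          apply Continuous.intervalIntegrable
          fun_prop
    · intro i _
      apply Continuous.intervalIntegrable
      fun_prop
  rw [hFI] at hI
  linarith

end Pool.Agent.Helper209.PL.Rumin
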