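import Pool.Agent.Helper209.PL.Defs

set_option autoImplicit false

namespace Pool.Agent.Helper209.PL.Sumrule

open MeasureTheory Set
open scoped SchwartzMap InnerProductSpace FourierTransform


theorem sr_key {ι : Type} [Fintype ι] (s : Finset ℤ) (c : ι → ℤ → ℂ) (hc : Bes s c) (m : ℤ) :
    ∑ n ∈ s, ‖∑ i, c i n * (starRingEnd ℂ) (c i m)‖ ^ 2 ≤ ∑ i, ‖c i m‖ ^ 2 := by
  obtain ⟨P, hP⟩ : ∃ P : ℤ → ℂ, ∀ n, P n = ∑ i, c i n * (starRingEnd ℂ) (c i m) := ⟨_, fun _ => rfl⟩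
  simp only [← hP]
  obtain ⟨S, hS⟩ : ∃ S : ℝ, S = ∑ n ∈ s, ‖P n‖ ^ 2 := ⟨_, rfl⟩
  obtain ⟨p, hp⟩ : ∃ p : ℝ, p = ∑ i, ‖c i m‖ ^ 2 := ⟨_, rfl⟩
  have hS0 : 0 ≤ S := by rw [hS]; positivity
  have hp0 : 0 ≤ p := by rw [hp]; positivity
  have hb : ∑ i, ‖∑ n ∈ s, c i n * (starRingEnd ℂ) (P n)‖ ^ 2 ≤ S := by
    have := hc (fun n => (starRingEnd ℂ) (P n))
    simpa only [RCLike.norm_conj, ← hS] using this
  have h1 : (S : ℂ) = ∑ i, (starRingEnd ℂ) (c i m) * ∑ n ∈ s, c i n * (starRingEnd ℂ) (P n) := by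
    rw [hS]
    push_cast
    simp only [Finset.mul_sum]
    rw [Finset.sum_comm]
    refine Finset.sum_congr rfl fun n _ => ?_
    rw [← Complex.mul_conj']
    nth_rewrite 1 [hP n]
    rw [Finset.sum_mul]
    exact Finset.sum_congr rfl fun i _ => by ring
  have h2 : S ≤ ∑ i, ‖c i m‖ * ‖∑ n ∈ s, c i n * (starRingEnd ℂ) (P n)‖ := by
    calc S = ‖(S : ℂ)‖ := by rw [Complex.norm_real, Real.norm_eq_abs, abs_of_nonneg hS0]
      _ ≤ ∑ i, ‖(starRingEnd ℂ) (c i m) * ∑ n ∈ s, c i n * (starRingEnd ℂ) (P n)‖ := by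
          rw [h1]; exact norm_sum_le _ _
      _ = _ := by simp only [norm_mul, RCLike.norm_conj]
  have h3 : S ^ 2 ≤ p * S := by
    calc S ^ 2 ≤ (∑ i, ‖c i m‖ * ‖∑ n ∈ s, c i n * (starRingEnd ℂ) (P n)‖) ^ 2 :=
          pow_le_pow_left₀ hS0 h2 2
      _ ≤ (∑ i, ‖c i m‖ ^ 2) * ∑ i, ‖∑ n ∈ s, c i n * (starRingEnd ℂ) (P n)‖ ^ 2 :=
          Finset.sum_mul_sq_le_sq_mul_sq _ _ _
      _ ≤ p * S := by
          rw [← hp]; exact mul_le_mul_of_nonneg_left hb hp0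
  rw [← hS, ← hp]
  rcases hS0.eq_or_lt with h | h
  · rw [← h]; exact hp0
  · nlinarith

theorem sr_diag {ι : Type} [Fintype ι] (c : ι → ℤ → ℂ) (m : ℤ) :
    ‖∑ i, c i m * (starRingEnd ℂ) (c i m)‖ ^ 2 = (∑ i, ‖c i m‖ ^ 2) ^ 2 := by
  have h : ∑ i, c i m * (starRingEnd ℂ) (c i m) = ((∑ i, ‖c i m‖ ^ 2 : ℝ) : ℂ) := by
    push_cast
    exact Finset.sum_congr rfl fun i _ => Complex.mul_conj' _
  rw [h, Complex.norm_real, Real.norm_eq_abs, sq_abs]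

theorem sr_symm {ι : Type} [Fintype ι] (c : ι → ℤ → ℂ) (m n : ℤ) :
    ‖∑ i, c i n * (starRingEnd ℂ) (c i m)‖ = ‖∑ i, c i m * (starRingEnd ℂ) (c i n)‖ := by
  rw [← RCLike.norm_conj, map_sum]
  congr 1
  refine Finset.sum_congr rfl fun i _ => ?_
  rw [map_mul, Complex.conj_conj, mul_comm]

/-- sum rule for the off-diagonal block -/
theorem sumrule {ι : Type} [Fintype ι] (s : Finset ℤ) (c : ι → ℤ → ℂ) (hc : Bes s c) (E : ℤ → ℝ) (ν : ℝ) :
    ∑ m ∈ s.filter (fun m => E m < ν), ∑ n ∈ s.filter (fun n => ν ≤ E n),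
        (E n - E m) * ‖∑ i, c i n * (starRingEnd ℂ) (c i m)‖ ^ 2
      ≤ (∑ n ∈ s.filter (fun n => ν ≤ E n), (E n - ν) * ∑ i, ‖c i n‖ ^ 2)
        + ∑ m ∈ s.filter (fun m => E m < ν), (ν - E m) * (1 - ∑ i, ‖c i m‖ ^ 2) := by
  have hA : ∀ n ∈ s.filter (fun n => ν ≤ E n),
      ∑ m ∈ s.filter (fun m => E m < ν), ‖∑ i, c i n * (starRingEnd ℂ) (c i m)‖ ^ 2 ≤
        ∑ i, ‖c i n‖ ^ 2 := by
    intro n _
    refine le_trans ?_ (sr_key s c hc n)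
    simp only [sr_symm c _ n]
    exact Finset.sum_le_sum_of_subset_of_nonneg (Finset.filter_subset _ _)
      (fun _ _ _ => by positivity)
  have hB : ∀ m ∈ s.filter (fun m => E m < ν),
      ∑ n ∈ s.filter (fun n => ν ≤ E n), ‖∑ i, c i n * (starRingEnd ℂ) (c i m)‖ ^ 2 ≤
        1 - ∑ i, ‖c i m‖ ^ 2 := by
    intro m hm
    rw [Finset.mem_filter] at hm
    have h1 := sr_key s c hc m
    have h2 : m ∉ s.filter (fun n => ν ≤ E n) := by
      rw [Finset.mem_filter]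
      rintro ⟨-, h⟩
      linarith [hm.2]
    have h3 : insert m (s.filter (fun n => ν ≤ E n)) ⊆ s := by
      intro x hx
      rw [Finset.mem_insert] at hx
      rcases hx with rfl | hx
      · exact hm.1
      · exact (Finset.mem_filter.1 hx).1
    have h4 := Finset.sum_le_sum_of_subset_of_nonneg (f := fun n =>
      ‖∑ i, c i n * (starRingEnd ℂ) (c i m)‖ ^ 2) h3 (fun _ _ _ => by positivity)
    rw [Finset.sum_insert h2, sr_diag] at h4
    nlinarith [sq_nonneg (1 - ∑ i, ‖c i m‖ ^ 2)]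
  have e1 : ∑ m ∈ s.filter (fun m => E m < ν), ∑ n ∈ s.filter (fun n => ν ≤ E n),
        (E n - E m) * ‖∑ i, c i n * (starRingEnd ℂ) (c i m)‖ ^ 2 =
      (∑ n ∈ s.filter (fun n => ν ≤ E n), (E n - ν) * ∑ m ∈ s.filter (fun m => E m < ν),
        ‖∑ i, c i n * (starRingEnd ℂ) (c i m)‖ ^ 2) +
      ∑ m ∈ s.filter (fun m => E m < ν), (ν - E m) * ∑ n ∈ s.filter (fun n => ν ≤ E n),
        ‖∑ i, c i n * (starRingEnd ℂ) (c i m)‖ ^ 2 := by
    simp only [Finset.mul_sum]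
    rw [Finset.sum_comm (s := s.filter (fun n => ν ≤ E n)), ← Finset.sum_add_distrib]
    refine Finset.sum_congr rfl fun m _ => ?_
    rw [← Finset.sum_add_distrib]
    exact Finset.sum_congr rfl fun n _ => by ring
  rw [e1]
  refine add_le_add (Finset.sum_le_sum fun n hn => ?_) (Finset.sum_le_sum fun m hm => ?_)
  · exact mul_le_mul_of_nonneg_left (hA n hn) (by linarith [(Finset.mem_filter.1 hn).2])
  · exact mul_le_mul_of_nonneg_left (hB m hm) (by linarith [(Finset.mem_filter.1 hm).2])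

end Pool.Agent.Helper209.PL.Sumrule
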