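import Pool.Agent.Helper209.PL.Defs
import Pool.Agent.Helper209.PL.Orth
import Pool.Agent.Helper209.PL.Count
import Pool.Agent.Helper209.PL.Rumin
import Pool.Agent.Helper209.PL.Holes
import Pool.Agent.Helper209.PL.Sumrule
import Pool.Agent.Helper209.PL.Fine
import Pool.Agent.Helper209.PL.Coarse
import Pool.Agent.Helper209.PL.Layer
import Pool.Agent.Helper209.PL.Riem
import Pool.Agent.Helper209.PL.FFB
import Pool.Agent.Helper209.PL.NegLayer
import Pool.Agent.Helper209.PL.Off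
import Pool.Agent.Helper209.PL.Four
import Pool.Agent.Helper209.PL.Integ
import Pool.Agent.Helper209.PL.BoxLevel
import Pool.Agent.Helper209.PL.Res1
import Pool.Agent.Helper209.PL.Res2
import Pool.Agent.Helper209.PL.Res3
import Pool.Agent.Helper209.PL.Cfc1
import Pool.Agent.Helper209.PL.Hs
import Pool.Agent.Helper209.PL.FourTr
import Pool.Agent.Helper209.PL.CfcFour
import Pool.Agent.Helper209.PL.Cfc2
import Pool.Agent.Helper209.PL.Cut
import Pool.Agent.Helper209.PL.ResLoc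
import Pool.Agent.Helper209.PL.LineFam

set_option autoImplicit false

namespace Pool.Agent.Helper209.PL

open MeasureTheory Set
open scoped SchwartzMap InnerProductSpace FourierTransform

theorem hOrth : OrthStmt := fun L hL m n => Orth.wave_orth L hL m n
theorem hTrig : TrigNormStmt := fun L hL s c => Orth.trig_norm L hL s c
theorem hCountLe : CountLeStmt := fun L a b hL ha hab s h => Count.count_le L a b hL ha hab s h
theorem hCountLt : CountLtStmt := fun L b hL hb s h => Count.count_lt L b hL hb s h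
theorem hRumin : RuminStmt := by
  intro ι _ L hL s c hc h hh η hη hηm hcount v hv hv0 κ hκ
  exact Rumin.rumin L hL s c hc h hh η hη hηm hcount v hv hv0 κ hκ (fun m n => Orth.wave_orth L hL m n)
theorem hHoles : HolesStmt := fun B c hc => Holes.holes B c hc
theorem hSumrule : SumruleStmt := fun s c hc E ν => Sumrule.sumrule s c hc E ν

theorem hFine : BoxLevel.FineStmt := by
  intro ι _ L μ ν hL hν hνμ s c hc V hV
  exact Fine.core_fine hOrth hTrig hCountLe hCountLt hRumin hHoles hSumrule L μ ν hL hν hνμ s c hc V hV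
theorem hCoarse : BoxLevel.CoarseStmt := by
  intro ι _ L ν hL hν s c hc V hV
  exact Coarse.core_coarse hOrth hTrig hCountLe hCountLt hRumin L ν hL hν s c hc V hV
theorem hNeg : BoxLevel.NegStmt := by
  intro ι _ L σ hL hσ s c hc V hV
  exact Coarse.core_neg hOrth hTrig hCountLe hCountLt hRumin L σ hL hσ s c hc V hV
theorem hEnr : BoxLevel.EnrTendstoStmt := fun L hL V hV u hu hper => Four.enr_tendsto L hL V hV u hu hper
theorem hBesCoef : BoxLevel.BesCoefStmt := by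
  intro ι _ L hL u hu hB s
  exact Four.bes_coef L hL (fun m n => Orth.wave_orth L hL m n) u hu hB s
theorem hOffLe : BoxLevel.OffLeStmt := fun L W ν s => Off.off_le L W ν s
theorem hVh : BoxLevel.VhBesselStmt := fun L hL W hW m s => Orth.vh_bessel L hL W hW m s

theorem hBoxLevel : LineFam.BoxLevelStmt := by
  intro ι _ L μ hL hμ V hV u hu hper hBes t ht G hG
  exact BoxLevel.box_level hFine hCoarse hNeg hEnr hBesCoef hOffLe hVh L μ hL hμ V hV u hu hper hBes t ht G hG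

theorem hFFB : Integ.FFBoundsStmt := fun γ hγ => FFB.ff_bounds γ hγ

theorem hOffInt : Integ.OffIntegralStmt := by
  intro β hβ
  exact Off.off_integral (fun β hβ μ δ a b hδ hδμ hab => Layer.wbound β hβ μ δ a b hδ hδμ hab)
    (fun β hβ => Riem.riemann_cut β hβ) (fun L hL W hW m s => Orth.vh_bessel L hL W hW m s) β hβ

theorem integ (γ : ℝ) (hγ : 1 < γ) :
    ∃ C : ℝ, 0 < C ∧ ∀ (μ : ℝ), 0 < μ → ∀ (V : ℝ → ℝ), Continuous V → HasCompactSupport V → ∀ (ε : ℝ), 0 < ε →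
      ∃ L0 : ℝ, 0 < L0 ∧ ∀ L : ℝ, L0 ≤ L → ∀ (M : ℝ), μ ≤ M → ∀ (G : ℝ → ℝ),
        IntervalIntegrable (fun t : ℝ => t ^ (γ - 2) * G t) volume 0 M → LevelBounds L μ M V G →
        γ * (γ - 1) * ∫ t in (0 : ℝ)..M, t ^ (γ - 2) * G t ≤ C * (∫ x, FF γ μ (V x)) + ε :=
  Integ.integ (fun β hβ => Layer.beta_int β hβ) hFFB
    (fun β hβ q hq μ hμ M hM L hL v hv => NegLayer.neg_layer β hβ q hq μ hμ M hM L hL v hv)
    (fun L W μ => Off.off_measurable L W μ)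
    (fun L hL W hW ν => BoxLevel.offE_lt_top hVh L hL W hW ν) hOffInt γ hγ

theorem bg_layer (β : ℝ) (hβ : 0 < β) (μ : ℝ) (hμ : 0 < μ) (M : ℝ)
    (hM : μ ≤ M) (L : ℝ) (hL : 0 < L) :
    IntervalIntegrable (fun t : ℝ => t ^ (β - 1) * bgsum L (μ - t)) volume 0 M ∧
    (∫ t in (0 : ℝ)..M, t ^ (β - 1) * bgsum L (μ - t))
      = (∑' n : ℤ, (max (μ - mom L n ^ 2) 0) ^ (β + 1)) / (β * (β + 1)) ∧
    IntervalIntegrable (fun t : ℝ => t ^ (β - 1) * bgcount L (μ - t)) volume 0 M ∧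
    (∫ t in (0 : ℝ)..M, t ^ (β - 1) * bgcount L (μ - t))
      = (∑' n : ℤ, (max (μ - mom L n ^ 2) 0) ^ β) / β :=
  Integ.bg_layer (fun β hβ x M hM hx => Layer.layer_pos β hβ x M hM hx)
    (fun β hβ x M hM hx => Layer.layer_count β hβ x M hM hx) β hβ μ hμ M hM L hL

theorem hCut : LineFam.CutoffFactsStmt := fun ρ hρ => Cut.cutoff_facts ρ hρ

theorem line_family {ι : Type} [Fintype ι] (L ρ μ : ℝ) (hρ : 0 < ρ) (hL : 4 * ρ < L) (hμ : 0 < μ)
    (V : ℝ → ℝ) (hV : Continuous V) (hVs : ∀ x, ρ ≤ |x| → V x = 0)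
    (χ : ι → 𝓢(ℝ, ℂ)) (Λ : ℝ) (hΛ : 0 < Λ)
    (hBes : ∀ a : L2R, ∑ j, ‖∫ x, χ j x * (starRingEnd ℂ) (a x)‖ ^ 2 ≤ Λ * ‖a‖ ^ 2)
    (t : ℝ) (ht : 0 < t) (G : ℝ)
    (hG : G = (1 / Λ) * locEn V ρ (μ - t) χ
        - ((1 / L) * ∫ x, cutoff ρ x ^ 2) * bgsum L (μ - t)
        + (1 / L) * bgcount L (μ - t) * (∫ x in (-(L / 2))..(L / 2), V x)
        - (1 / L) * bgcount L (μ - t) * (∫ x in (-(L / 2))..(L / 2), deriv (cocut ρ) x ^ 2)) :
    (t < μ → G ≤ 3 * (∫ x in (-(L / 2))..(L / 2), (max (-V x) 0) ^ (3 / 2 : ℝ))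
      + (Real.sqrt (μ - t) / Real.pi + 9 / L) * (∫ x in (-(L / 2))..(L / 2), |V x|)) ∧
    (t < μ → G ≤ (8 / Real.sqrt (μ - t)) * (∫ x in (-(L / 2))..(L / 2), V1 μ (V x) ^ 2)
      + 11 * (∫ x in (-(L / 2))..(L / 2), V2 μ (V x) ^ (3 / 2 : ℝ))
      + (Real.sqrt (μ - t) / Real.pi + 1 / L) * (∫ x in (-(L / 2))..(L / 2), (V2 μ (V x) + V3 μ (V x)))
      + (8 / L) * (∫ x in (-(L / 2))..(L / 2), |V x|)
      + 2 * (offE L (fun x => V1 μ (V x)) (μ - t)).toReal) ∧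
    (μ ≤ t → G ≤ (∫ x in (-(L / 2))..(L / 2), (max (-V x - (t - μ)) 0) ^ (3 / 2 : ℝ))
      + (2 / L) * (∫ x in (-(L / 2))..(L / 2), max (-V x - (t - μ)) 0)) :=
  LineFam.line_family hBoxLevel (fun L hL m n => Orth.wave_orth L hL m n)
    (fun L hL f hf s => Orth.wave_bessel L hL f hf s) hCut L ρ μ hρ hL hμ V hV hVs χ Λ hΛ hBes t ht G hG

/-- resolvent facts -/
theorem hFreeSolve : Res2.FreeSolveStmt := fun c hc g => Res1.free_solve c hc g
theorem hFreeRes : Res2.FreeResolventStmt := fun c hc => Res1.free_resolvent c hc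
theorem dense_range (V : ℝ → ℝ) (hV : Continuous V) (b c : ℝ)
    (hb : ∀ x, |V x| ≤ b) (hbc : b < c) (f : L2R) (ε : ℝ) (hε : 0 < ε) :
    ∃ (χ : 𝓢(ℝ, ℂ)) (w : L2R),
      (w : ℝ → ℂ) =ᵐ[volume] (fun x => -(deriv (deriv (χ : ℝ → ℂ)) x) + ((V x + c : ℝ) : ℂ) * χ x) ∧
      ‖w - f‖ < ε := Res2.dense_range hFreeSolve hFreeRes V hV b c hb hbc f ε hε

theorem exists_resolvent (V : ℝ → ℝ) (hV : Continuous V) (b c : ℝ)
    (hb : ∀ x, |V x| ≤ b) (hbc : b < c) : ∃ R : L2R →L[ℂ] L2R, IsResolvent V c R :=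
  Res2.exists_resolvent hFreeSolve hFreeRes V hV b c hb hbc

theorem res_unique (V : ℝ → ℝ) (hV : Continuous V) (b c : ℝ)
    (hb : ∀ x, |V x| ≤ b) (hbc : b < c) (R R' : L2R →L[ℂ] L2R) (hR : IsResolvent V c R)
    (hR' : IsResolvent V c R') : R = R' :=
  Res3.res_unique (fun V hV b c hb hbc f ε hε => dense_range V hV b c hb hbc f ε hε) V hV b c hb hbc R R' hR hR'

theorem res_selfAdjoint (V : ℝ → ℝ) (hV : Continuous V) (b c : ℝ)
    (hb : ∀ x, |V x| ≤ b) (hbc : b < c) (R : L2R →L[ℂ] L2R) (hR : IsResolvent V c R) :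
    IsSelfAdjoint R ∧ ∀ f : L2R, 0 ≤ (⟪f, R f⟫_ℂ).re :=
  Res3.res_selfAdjoint (fun V hV b c hb hbc f ε hε => dense_range V hV b c hb hbc f ε hε) V hV b c hb hbc R hR

theorem negPow_fourier (s μ c : ℝ) (hs : 0 < s) (hμ : 0 < μ) (hc : 0 < c)
    (R0 : L2R →L[ℂ] L2R) (hR : IsResolvent (fun _ => 0) c R0) (hsa : IsSelfAdjoint R0) (f : L2R) :
    ((𝓕 (negPow s μ c R0 f) : L2R) : ℝ → ℂ) =ᵐ[volume]
      (fun ξ => (((max (μ - (2 * Real.pi * ξ) ^ 2) 0) ^ s : ℝ) : ℂ) * ((𝓕 f : L2R) : ℝ → ℂ) ξ) :=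
  CfcFour.negPow_fourier (fun c hc R0 hR f => Res1.free_fourier c hc R0 hR f) s μ c hs hμ hc R0 hR hsa f

end Pool.Agent.Helper209.PL
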