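import Pool.Agent.Helper209.PL.Main5
import Pool.Agent.Helper209.PL.Basis

set_option autoImplicit false

namespace Pool.Agent.Helper209.PL

open MeasureTheory Set
open scoped SchwartzMap InnerProductSpace

/-- Hilbert-Schmidt operators. -/
def IsHS (X : L2R →L[ℂ] L2R) : Prop :=
  ∀ b : HilbertBasis ℕ ℂ L2R, Summable (fun i => ‖X (b i)‖ ^ 2)

/-- Trace class operators: products of two Hilbert-Schmidt operators. -/
def IsTC (T : L2R →L[ℂ] L2R) : Prop :=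
  ∃ X Y : L2R →L[ℂ] L2R, IsHS X ∧ IsHS Y ∧ T = (ContinuousLinearMap.adjoint X).comp Y

/-- `τ` is the trace of `T`. -/
def HasTr (T : L2R →L[ℂ] L2R) (τ : ℝ) : Prop :=
  ∀ b : HilbertBasis ℕ ℂ L2R, HasSum (fun i => ⟪b i, T (b i)⟫_ℂ) (τ : ℂ)

theorem main_cc : ∀ γ : ℝ, 1 < γ → ∃ C : ℝ, 0 < C ∧ ∀ μ : ℝ, 0 < μ → ∀ V : ℝ → ℝ,
    Continuous V → HasCompactSupport V → ∀ c : ℝ, (∀ x, |V x| < c) →
    (∃! R : L2R →L[ℂ] L2R, IsResolvent V c R) ∧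
    (∃! R₀ : L2R →L[ℂ] L2R, IsResolvent (fun _ => 0) c R₀) ∧
    (∃! M : L2R →L[ℂ] L2R, IsMul V M) ∧
    ∀ R R₀ M : L2R →L[ℂ] L2R, IsResolvent V c R → IsResolvent (fun _ => 0) c R₀ → IsMul V M →
      IsTC (insideOp γ μ c R R₀ M) ∧
      ∃ τ : ℝ, HasTr (insideOp γ μ c R R₀ M) τ ∧ τ ≤ C * ∫ x, FF γ μ (V x) := by
  intro γ hγ
  obtain ⟨C, hC, h⟩ := trace_bound γ hγ
  refine ⟨C, hC, ?_⟩
  intro μ hμ V hV hVs c hc
  obtain ⟨b, hb, hbc⟩ := MulFacts.exists_bound V hV hVs c hc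
  have hc0 : 0 < c := (abs_nonneg _).trans_lt (hc 0)
  obtain ⟨R1, hR1⟩ := exists_resolvent V hV b c hb hbc
  obtain ⟨R2, hR2⟩ := exists_resolvent (fun _ => 0) continuous_const 0 c (fun x => by simp) hc0
  obtain ⟨M1, hM1, -, -⟩ := Res2.exists_mul V hV b hb
  refine ⟨⟨R1, hR1, fun R' hR' => res_unique V hV b c hb hbc R' R1 hR' hR1⟩,
    ⟨R2, hR2, fun R' hR' => res_unique (fun _ => 0) continuous_const 0 c (fun x => by simp) hc0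
      R' R2 hR' hR2⟩,
    ⟨M1, hM1, fun M' hM' => MulFacts.isMul_unique V M' M1 hM' hM1⟩, ?_⟩
  intro R R₀ M hR hR₀ hM
  obtain ⟨e⟩ := Basis.nonempty_basis
  obtain ⟨X, Y, hX, hY, hT⟩ : TCb e (insideOp γ μ c R R₀ M) :=
    inside_tc γ hγ μ hμ V hV hVs b c hb hbc R R₀ M hR hR₀ hM e
  have hind := fun b' : HilbertBasis ℕ ℂ L2R =>
    Hs.trace_basis_indep e b' X Y hX hY (insideOp γ μ c R R₀ M) hT
  refine ⟨⟨X, Y, fun b' => (hind b').1, fun b' => (hind b').2.1, hT⟩, ?_⟩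
  obtain ⟨-, h2, h3⟩ := h μ hμ V hV hVs b c hb hbc R R₀ M hR hR₀ hM e X Y hX hY hT
  refine ⟨(∑' i, ⟪e i, insideOp γ μ c R R₀ M (e i)⟫_ℂ).re, ?_, h2⟩
  intro b'
  obtain ⟨h1', -, -⟩ := h μ hμ V hV hVs b c hb hbc R R₀ M hR hR₀ hM b' X Y (hind b').1 (hind b').2.1 hT
  have h4 : ((∑' i, ⟪e i, insideOp γ μ c R R₀ M (e i)⟫_ℂ).re : ℂ)
      = ∑' i, ⟪b' i, insideOp γ μ c R R₀ M (b' i)⟫_ℂ := by
    rw [(hind b').2.2]
    apply Complex.ext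
    · rw [Complex.ofReal_re]
    · rw [Complex.ofReal_im]; exact h3.symm
  rw [h4]
  exact h1'.hasSum

end Pool.Agent.Helper209.PL
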