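import Pool.Agent.Helper209.PL.Main9
import Pool.Agent.Helper209.PL.Main6

set_option autoImplicit false

namespace Pool.Agent.Helper209.PL

open MeasureTheory Set
open scoped SchwartzMap InnerProductSpace FourierTransform

/-- `W` is the product of the multiplication by `v` and the operator `Q` -/
def IsProd (v : ℝ → ℝ) (Q W : L2R →L[ℂ] L2R) : Prop :=
  ∀ f : L2R, ((W f : L2R) : ℝ → ℂ) =ᵐ[volume] (fun x => (v x : ℂ) * ((Q f : L2R) : ℝ → ℂ) x)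

theorem isProd_unique (v : ℝ → ℝ) (Q W W' : L2R →L[ℂ] L2R) (h : IsProd v Q W) (h' : IsProd v Q W') : W = W' := by
  ext1 f
  apply Lp.ext
  exact (h f).trans (h' f).symm

/-- the operator inside the trace, for potentials in `L²` -/
noncomputable def insideW (γ μ c : ℝ) (R R0 W : L2R →L[ℂ] L2R) : L2R →L[ℂ] L2R :=
  negPow γ μ c R - negPow γ μ c R0 + (γ : ℂ) • ContinuousLinearMap.adjoint W

theorem multPoint : QH2.MultPointStmt := fun g hg hgs N0 hN => QH1.mult_point g hg hgs N0 hN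

theorem existsProd : QH3.ExistsProdStmt := fun g hg hgs N0 hN U hU hUi =>
  QH2.exists_prod multPoint g hg hgs N0 hN U hU hUi

/-- the square of the symbol -/
theorem symbol_sq (s μ : ℝ) (hs : 0 < s) (ξ : ℝ) :
    ((max (μ - (2 * Real.pi * ξ) ^ 2) 0) ^ (s / 2)) ^ 2 = (max (μ - (2 * Real.pi * ξ) ^ 2) 0) ^ s := by
  rw [← Real.rpow_natCast, ← Real.rpow_mul (le_max_right _ _)]
  congr 1
  push_cast
  ring

theorem negPow_half (s μ c : ℝ) (hs : 0 < s) (hμc : 0 < μ + c) (R : L2R →L[ℂ] L2R) (hR : IsSelfAdjoint R) :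
    (negPow (s / 2) μ c R).comp (negPow (s / 2) μ c R) = negPow s μ c R ∧ IsSelfAdjoint (negPow (s / 2) μ c R) := by
  have := QI.negPow_sq (s / 2) μ c (by positivity) hμc R hR
  have e : 2 * (s / 2) = s := by ring
  rw [e] at this
  exact this

/-- local Hilbert-Schmidt factorisation of a localised nonnegative operator -/
theorem tc_local (s μ c : ℝ) (hs : 0 < s) (hμc : 0 < μ + c) (R : L2R →L[ℂ] L2R) (hR : IsSelfAdjoint R)
    (Θ : L2R →L[ℂ] L2R) (hΘ : IsSelfAdjoint Θ) (e : HilbertBasis ℕ ℂ L2R)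
    (h : Summable (fun i => (⟪Θ (e i), negPow s μ c R (Θ (e i))⟫_ℂ).re)) :
    TCb e (Θ.comp ((negPow s μ c R).comp Θ)) := by
  obtain ⟨h1, h2⟩ := negPow_half s μ c hs hμc R hR
  set A := negPow (s / 2) μ c R with hA
  have h3 : ∀ i, ‖(A.comp Θ) (e i)‖ ^ 2 = (⟪Θ (e i), negPow s μ c R (Θ (e i))⟫_ℂ).re := by
    intro i
    rw [← h1, ContinuousLinearMap.comp_apply, ContinuousLinearMap.comp_apply]
    have h4 : ⟪Θ (e i), A (A (Θ (e i)))⟫_ℂ = ⟪A (Θ (e i)), A (Θ (e i))⟫_ℂ := by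
      have := ContinuousLinearMap.isSelfAdjoint_iff_isSymmetric.1 h2
      exact (this (Θ (e i)) (A (Θ (e i)))).symm
    rw [h4, inner_self_eq_norm_sq_to_K]
    norm_cast
  refine ⟨A.comp Θ, A.comp Θ, ?_, ?_, ?_⟩
  · simpa only [h3] using h
  · simpa only [h3] using h
  · rw [ContinuousLinearMap.adjoint_comp, h2.adjoint_eq, hΘ.adjoint_eq, ← h1]
    rfl

/-- the cutoff of large radius equals `1` on the support of a cutoff -/
theorem cutoff_mul (ρ ρ' : ℝ) (hρ : 0 < ρ) (h : 2 * ρ ≤ ρ') (x : ℝ) :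
    cutoff ρ' x * cutoff ρ x = cutoff ρ x := by
  have hρ' : 0 < ρ' := by linarith
  by_cases hx : |x| ≤ ρ'
  · have h1 : cutoff ρ' x = 1 := by
      unfold cutoff
      rw [Real.smoothTransition.zero_of_nonpos, mul_zero, Real.cos_zero]
      rw [sub_nonpos, div_le_one hρ']
      exact hx
    rw [h1, one_mul]
  · have h1 : cutoff ρ x = 0 := by
      unfold cutoff
      rw [Real.smoothTransition.one_of_one_le, mul_one, Real.cos_pi_div_two]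
      rw [le_sub_iff_add_le, le_div_iff₀ hρ]
      push Not at hx
      linarith
    rw [h1, mul_zero]

/-- local summability for all radii from large radii -/
theorem summable_all (s μ c : ℝ) (hs : 0 < s) (hμc : 0 < μ + c) (R : L2R →L[ℂ] L2R) (hR : IsSelfAdjoint R)
    (ρ0 : ℝ) (hρ0 : 0 < ρ0) (hbig : ∀ ρ : ℝ, ρ0 ≤ ρ → ∀ (Θ : L2R →L[ℂ] L2R), IsMul (cutoff ρ) Θ →
      ∀ (e : HilbertBasis ℕ ℂ L2R), Summable (fun i => (⟪Θ (e i), negPow s μ c R (Θ (e i))⟫_ℂ).re))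
    (ρ : ℝ) (hρ : 0 < ρ) (Θ : L2R →L[ℂ] L2R) (hΘ : IsMul (cutoff ρ) Θ) (e : HilbertBasis ℕ ℂ L2R) :
    Summable (fun i => (⟪Θ (e i), negPow s μ c R (Θ (e i))⟫_ℂ).re) := by
  set ρ' : ℝ := max (2 * ρ) ρ0 with hρ'
  have h1 : 2 * ρ ≤ ρ' := le_max_left _ _
  have h2 : ρ0 ≤ ρ' := le_max_right _ _
  have hρ'0 : 0 < ρ' := lt_of_lt_of_le hρ0 h2
  obtain ⟨Θ', hΘ'⟩ := MulFacts.exists_cutoff ρ' hρ'0
  have hcomp : ∀ f, Θ' (Θ f) = Θ f := by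
    intro f
    apply Lp.ext
    filter_upwards [hΘ' (Θ f), hΘ f] with x e1 e2
    rw [e1, e2, ← mul_assoc, ← Complex.ofReal_mul, cutoff_mul ρ ρ' hρ h1]
  obtain ⟨g1, g2⟩ := negPow_half s μ c hs hμc R hR
  set A := negPow (s / 2) μ c R with hA
  have h3 : ∀ f : L2R, ‖A f‖ ^ 2 = (⟪f, negPow s μ c R f⟫_ℂ).re := by
    intro f
    rw [← g1, ContinuousLinearMap.comp_apply]
    have h4 : ⟪f, A (A f)⟫_ℂ = ⟪A f, A f⟫_ℂ := by
      have := ContinuousLinearMap.isSelfAdjoint_iff_isSymmetric.1 g2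
      exact (this f (A f)).symm
    rw [h4, inner_self_eq_norm_sq_to_K]
    norm_cast
  have h5 := hbig ρ' h2 Θ' hΘ' e
  have h6 : Summable (fun i => ‖(A.comp Θ') (e i)‖ ^ 2) := by
    refine h5.congr ?_
    intro i
    rw [ContinuousLinearMap.comp_apply, h3]
  obtain ⟨-, -, -, s', -, h7⟩ := N1b.hs_indep e e (A.comp Θ') Θ _ h6.hasSum
  refine h7.summable.congr ?_
  intro i
  rw [ContinuousLinearMap.comp_apply, hcomp, h3]

/-- local traces -/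
theorem local_trace3 (γ : ℝ) (hγ : 1 < γ) : ∃ C : ℝ, 0 < C ∧ ∀ (μ : ℝ), 0 < μ →
    ∀ (V : ℝ → ℝ), Measurable V → Integrable (fun x => V x ^ 2) volume → Integrable (fun x => FF γ μ (V x)) volume →
    ∀ c : ℝ, 16 * (Real.sqrt (2 * (∫ x, V x ^ 2) + 2) + 1) ^ 2 ≤ c →
    ∀ (R R0 W : L2R →L[ℂ] L2R), IsResolvent V c R → IsResolvent (fun _ => 0) c R0 →
      IsProd V (negPow (γ - 1) μ c R0) W →
      (∀ ρ : ℝ, 0 < ρ → ∀ (Θ : L2R →L[ℂ] L2R), IsMul (cutoff ρ) Θ → ∀ (e : HilbertBasis ℕ ℂ L2R),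
        TCb e (Θ.comp ((insideW γ μ c R R0 W).comp Θ)) ∧
        Summable (fun i => ⟪Θ (e i), insideW γ μ c R R0 W (Θ (e i))⟫_ℂ) ∧
        (∑' i, ⟪Θ (e i), insideW γ μ c R R0 W (Θ (e i))⟫_ℂ).im = 0) ∧
      (∀ (ε : ℝ), 0 < ε → ∃ ρ0 : ℝ, 0 < ρ0 ∧ ∀ ρ : ℝ, ρ0 ≤ ρ →
      ∀ (Θ : L2R →L[ℂ] L2R), IsMul (cutoff ρ) Θ → ∀ (e : HilbertBasis ℕ ℂ L2R),
        (∑' i, ⟪Θ (e i), insideW γ μ c R R0 W (Θ (e i))⟫_ℂ).re ≤ C * (∫ x, FF γ μ (V x)) + ε) := by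
  obtain ⟨C, hC, hloc⟩ := local_bound3 γ hγ
  refine ⟨C, hC, ?_⟩
  intro μ hμ V hV hVi hFi c hc R R0 W hR hR0 hW
  have hV0 : 0 ≤ ∫ x, V x ^ 2 := integral_nonneg (fun x => sq_nonneg _)
  set B : ℝ := Real.sqrt (2 * (∫ x, V x ^ 2) + 2) with hB
  have hB0 : 0 ≤ B := Real.sqrt_nonneg _
  have hB2 : B ^ 2 = 2 * (∫ x, V x ^ 2) + 2 := Real.sq_sqrt (by positivity)
  have hc16 : 16 ≤ c := by nlinarith
  have hc0 : 0 < c := by linarith
  have hμc : 0 < μ + c := by linarith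
  have hVB : (∫ x, V x ^ 2) ≤ B ^ 2 := by rw [hB2]; linarith
  obtain ⟨-, -, hsa, -⟩ := QF4.l2_props V hV hVi B c hB0 hVB hc l2B l2D l2Q R hR
  obtain ⟨hsa0, -⟩ := res_selfAdjoint (fun _ => 0) continuous_const 0 c (isResolvent_zero_bound hc0).1 hc0 R0 hR0
  -- first term
  have hN := fun f : L2R => Cfc1.negPow_nonneg γ μ c R hsa f
  have hlarge : ∀ ε : ℝ, 0 < ε → ∃ ρ0 : ℝ, 0 < ρ0 ∧ ∀ ρ : ℝ, ρ0 ≤ ρ → ∀ (Θ : L2R →L[ℂ] L2R),
      IsMul (cutoff ρ) Θ → ∀ (e : HilbertBasis ℕ ℂ L2R),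
      Summable (fun i => (⟪Θ (e i), negPow γ μ c R (Θ (e i))⟫_ℂ).re) ∧
      ∑' i, (⟪Θ (e i), negPow γ μ c R (Θ (e i))⟫_ℂ).re ≤ C * (∫ x, FF γ μ (V x)) + ε
            + ((1 / (2 * Real.pi)) * ∫ p : ℝ, (max (μ - p ^ 2) 0) ^ γ) * (∫ x, cutoff ρ x ^ 2)
            - γ * (((1 / (2 * Real.pi)) * ∫ p : ℝ, (max (μ - p ^ 2) 0) ^ (γ - 1)) * ∫ x, cutoff ρ x ^ 2 * V x) := by
    intro ε hε
    obtain ⟨ρ0, hρ0, hbd0⟩ := hloc μ hμ V hV hVi hFi c hc ε hε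
    refine ⟨ρ0, hρ0, ?_⟩
    intro ρ hρρ Θ hΘ e
    have hbd := hbd0 ρ hρρ R hR
    have hsumre : Summable (fun i => (⟪Θ (e i), negPow γ μ c R (Θ (e i))⟫_ℂ).re) :=
      summable_of_sum_le (fun i => (hN (Θ (e i))).1) (fun J => hbd Θ hΘ e J)
    exact ⟨hsumre, hsumre.tsum_le_of_sum_le (fun J => hbd Θ hΘ e J)⟩
  obtain ⟨ρ1, hρ1, hl1⟩ := hlarge 1 one_pos
  have hall := summable_all γ μ c (by linarith) hμc R hsa ρ1 hρ1 (fun ρ hρρ Θ hΘ e => (hl1 ρ hρρ Θ hΘ e).1)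
  have hmain : ∀ ρ : ℝ, 0 < ρ → ∀ (Θ : L2R →L[ℂ] L2R), IsMul (cutoff ρ) Θ → ∀ (e : HilbertBasis ℕ ℂ L2R),
      TCb e (Θ.comp ((insideW γ μ c R R0 W).comp Θ)) ∧
      HasSum (fun i => ⟪Θ (e i), insideW γ μ c R R0 W (Θ (e i))⟫_ℂ)
        ((((∑' i, (⟪Θ (e i), negPow γ μ c R (Θ (e i))⟫_ℂ).re)
          - ((1 / (2 * Real.pi)) * ∫ p : ℝ, (max (μ - p ^ 2) 0) ^ γ) * (∫ x, cutoff ρ x ^ 2)
          + γ * (((1 / (2 * Real.pi)) * ∫ p : ℝ, (max (μ - p ^ 2) 0) ^ (γ - 1)) * ∫ x, cutoff ρ x ^ 2 * V x) : ℝ)) : ℂ) := by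
    intro ρ hρpos Θ hΘ e
    obtain ⟨hΘs, -⟩ := MulFacts.isMul_cutoff ρ hρpos Θ hΘ
    obtain ⟨hcC, -, hcs, -, -, -, -, -⟩ := Cut.cutoff_facts ρ hρpos
    have hreal : ∀ i, ⟪Θ (e i), negPow γ μ c R (Θ (e i))⟫_ℂ
        = (((⟪Θ (e i), negPow γ μ c R (Θ (e i))⟫_ℂ).re : ℝ) : ℂ) := by
      intro i
      have hsym := ContinuousLinearMap.isSelfAdjoint_iff_isSymmetric.1 (hN (Θ (e i))).2
      have h1 : (starRingEnd ℂ) ⟪Θ (e i), negPow γ μ c R (Θ (e i))⟫_ℂ = ⟪Θ (e i), negPow γ μ c R (Θ (e i))⟫_ℂ := by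
        rw [inner_conj_symm]
        exact hsym (Θ (e i)) (Θ (e i))
      exact (Complex.conj_eq_iff_re.1 h1).symm
    have hsumre : Summable (fun i => (⟪Θ (e i), negPow γ μ c R (Θ (e i))⟫_ℂ).re) := hall ρ hρpos Θ hΘ e
    have hS1 : HasSum (fun i => ⟪Θ (e i), negPow γ μ c R (Θ (e i))⟫_ℂ)
        (((∑' i, (⟪Θ (e i), negPow γ μ c R (Θ (e i))⟫_ℂ).re) : ℝ) : ℂ) := by
      have h3 := Complex.hasSum_ofReal.2 hsumre.hasSum
      refine h3.congr_fun ?_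
      intro i
      exact hreal i
    -- second term
    obtain ⟨hg1, hg2, hg3⟩ := MulFacts.symbol_facts γ μ (by linarith) hμ
    have hS2 := FourTr.fourier_trace e _ hg1 hg2 (negPow γ μ c R0)
      (fun f => negPow_fourier γ μ c (by linarith) hμ hc0 R0 hR0 hsa0 f) (cutoff ρ) (cutoff ρ)
      hcC.continuous hcs hcC.continuous hcs Θ Θ hΘ hΘ
    rw [hg3] at hS2
    have hQ : (∫ x, cutoff ρ x * cutoff ρ x) = ∫ x, cutoff ρ x ^ 2 := by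
      congr 1
      funext x
      ring
    rw [hQ] at hS2
    have hsumre0 : Summable (fun i => (⟪Θ (e i), negPow γ μ c R0 (Θ (e i))⟫_ℂ).re) :=
      (Complex.hasSum_re hS2).summable
    -- third term
    obtain ⟨hG1, hG2⟩ := negPow_half (γ - 1) μ c (by linarith) hμc R0 hsa0
    obtain ⟨hk1, hk2, -⟩ := MulFacts.symbol_facts ((γ - 1) / 2) μ (by linarith) hμ
    obtain ⟨-, -, hk3⟩ := MulFacts.symbol_facts (γ - 1) μ (by linarith) hμ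
    have hWG : QH3.IsProd V ((negPow ((γ - 1) / 2) μ c R0).comp (negPow ((γ - 1) / 2) μ c R0)) W := by
      rw [hG1]
      exact hW
    obtain ⟨hT3, hS3⟩ := QH3.prod_trace (fun g hg hgs N0 hN => multPoint g hg hgs N0 hN) existsProd
      (fun b b' X A s hX => N1b.hs_indep b b' X A s hX) (fun b X Y hX hY => Hs.hs_cyclic b X Y hX hY)
      (fun ξ : ℝ => (max (μ - (2 * Real.pi * ξ) ^ 2) 0) ^ ((γ - 1) / 2)) hk1 hk2
      (negPow ((γ - 1) / 2) μ c R0)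
      (fun f => negPow_fourier ((γ - 1) / 2) μ c (by linarith) hμ hc0 R0 hR0 hsa0 f) hG2 V hV hVi (cutoff ρ)
      hcC.continuous hcs Θ W hΘ hΘs hWG e
    have hsq : (∫ ξ : ℝ, ((max (μ - (2 * Real.pi * ξ) ^ 2) 0) ^ ((γ - 1) / 2)) ^ 2)
        = (1 / (2 * Real.pi)) * ∫ p : ℝ, (max (μ - p ^ 2) 0) ^ (γ - 1) := by
      rw [← hk3]
      congr 1
      funext ξ
      exact symbol_sq (γ - 1) μ (by linarith) ξ
    rw [hsq] at hS3
    have hfin := (hS1.sub hS2).add (hS3.mul_left (γ : ℂ))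
    have hcong : (fun i => ⟪Θ (e i), insideW γ μ c R R0 W (Θ (e i))⟫_ℂ)
        = fun i => ⟪Θ (e i), negPow γ μ c R (Θ (e i))⟫_ℂ - ⟪Θ (e i), negPow γ μ c R0 (Θ (e i))⟫_ℂ
          + (γ : ℂ) * ⟪Θ (e i), ContinuousLinearMap.adjoint W (Θ (e i))⟫_ℂ := by
      funext i
      simp only [insideW, ContinuousLinearMap.add_apply, ContinuousLinearMap.sub_apply,
        ContinuousLinearMap.smul_apply, inner_add_right, inner_sub_right, inner_smul_right]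
    refine ⟨?_, ?_⟩
    · -- trace class
      have t1 := tc_local γ μ c (by linarith) hμc R hsa Θ hΘs e hsumre
      have t2 := tc_local γ μ c (by linarith) hμc R0 hsa0 Θ hΘs e hsumre0
      obtain ⟨X, Y, hX, hY, hXY⟩ := hT3
      have t3 : TCb e (Θ.comp ((ContinuousLinearMap.adjoint W).comp Θ)) := ⟨X, Y, hX, hY, hXY⟩
      have t4 := N7.tc_add hsSum e _ _ (N7.tc_add hsSum e _ _ t1 t2 (-1)) t3 (γ : ℂ)
      refine (congrArg (TCb e) ?_).mp t4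
      ext1 f
      simp only [insideW, ContinuousLinearMap.add_apply, ContinuousLinearMap.sub_apply,
        ContinuousLinearMap.smul_apply, ContinuousLinearMap.comp_apply, map_add, map_sub, map_smul]
      rw [neg_one_smul, sub_eq_add_neg]
    · rw [hcong]
      refine (congrArg (HasSum _) ?_).mp hfin
      push_cast
      ring
  refine ⟨?_, ?_⟩
  · intro ρ hρ Θ hΘ e
    obtain ⟨m1, m2⟩ := hmain ρ hρ Θ hΘ e
    refine ⟨m1, m2.summable, ?_⟩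
    rw [m2.tsum_eq, Complex.ofReal_im]
  · intro ε hε
    obtain ⟨ρ0, hρ0, hl⟩ := hlarge ε hε
    refine ⟨ρ0, hρ0, ?_⟩
    intro ρ hρρ Θ hΘ e
    obtain ⟨-, m2⟩ := hmain ρ (lt_of_lt_of_le hρ0 hρρ) Θ hΘ e
    rw [m2.tsum_eq, Complex.ofReal_re]
    linarith [(hl ρ hρρ Θ hΘ e).2]

end Pool.Agent.Helper209.PL
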