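import Pool.Agent.Helper209.PL.Main10

set_option autoImplicit false

namespace Pool.Agent.Helper209.PL

open MeasureTheory Set
open scoped SchwartzMap InnerProductSpace FourierTransform

/-- `B` is the bounded extension of `Q V` -/
def IsExt (v : ℝ → ℝ) (Q B : L2R →L[ℂ] L2R) : Prop :=
  ∀ f g : L2R, (g : ℝ → ℂ) =ᵐ[volume] (fun x => (v x : ℂ) * (f : ℝ → ℂ) x) → B f = Q g

theorem isExt_adjoint (v : ℝ → ℝ) (Q W : L2R →L[ℂ] L2R) (hQ : IsSelfAdjoint Q) (hW : IsProd v Q W) :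
    IsExt v Q (ContinuousLinearMap.adjoint W) := by
  intro f g hg
  refine ext_inner_right ℂ (fun h => ?_)
  rw [ContinuousLinearMap.adjoint_inner_left]
  have h1 : ⟪Q g, h⟫_ℂ = ⟪g, Q h⟫_ℂ := (ContinuousLinearMap.isSelfAdjoint_iff_isSymmetric.1 hQ) g h
  rw [h1, L2.inner_def, L2.inner_def]
  apply integral_congr_ae
  filter_upwards [hg, hW h] with x e1 e2
  rw [e1, e2]
  simp only [RCLike.inner_apply, map_mul, Complex.conj_ofReal]
  ring

theorem isExt_unique (v : ℝ → ℝ) (hv : Measurable v) (hvi : Integrable (fun x => v x ^ 2) volume)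
    (Q B B' : L2R →L[ℂ] L2R) (h : IsExt v Q B) (h' : IsExt v Q B') : B = B' := by
  have hd : DenseRange QF4.J := SchwartzMap.denseRange_toLpCLM (F := ℂ) (p := 2) (by norm_num)
  apply ContinuousLinearMap.coeFn_injective
  refine hd.equalizer B.continuous B'.continuous ?_
  funext χ
  simp only [Function.comp_apply]
  have e : ((QF4.Mop v (QF4.memLp_mul v hv hvi) χ : L2R) : ℝ → ℂ)
      =ᵐ[volume] fun x => (v x : ℂ) * ((QF4.J χ : L2R) : ℝ → ℂ) x := by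
    filter_upwards [QF4.Mop_coe v (QF4.memLp_mul v hv hvi) χ, QF4.J_coe χ] with x h1 h2
    rw [h1, h2]
  rw [h _ _ e, h' _ _ e]

theorem isExt_mul (v : ℝ → ℝ) (Q M : L2R →L[ℂ] L2R) (hM : IsMul v M) : IsExt v Q (Q.comp M) := by
  intro f g hg
  have : g = M f := by
    apply Lp.ext
    exact hg.trans (hM f).symm
  rw [this, ContinuousLinearMap.comp_apply]

/-- the cutoffs converge strongly to the identity -/
theorem cutoff_tendsto' (u : ℕ → ℝ) (hu0 : ∀ n, 0 < u n) (hu : Filter.Tendsto u Filter.atTop Filter.atTop)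
    (Θ : ℕ → L2R →L[ℂ] L2R) (hΘ : ∀ n : ℕ, IsMul (cutoff (u n)) (Θ n)) (φ : L2R) :
    Filter.Tendsto (fun n => Θ n φ) Filter.atTop (nhds φ) := by
  rw [tendsto_iff_norm_sub_tendsto_zero]
  have hint : Integrable (fun x => ‖(φ : ℝ → ℂ) x‖ ^ 2) volume := by
    rw [← memLp_two_iff_integrable_sq_norm (Lp.aestronglyMeasurable φ)]
    exact Lp.memLp φ
  have hae : ∀ n : ℕ, (fun x => ‖((Θ n φ - φ : L2R) : ℝ → ℂ) x‖ ^ 2) =ᵐ[volume]
      (fun x => (1 - cutoff (u n) x) ^ 2 * ‖(φ : ℝ → ℂ) x‖ ^ 2) := by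
    intro n
    filter_upwards [hΘ n φ, Lp.coeFn_sub (Θ n φ) φ] with x h1 h2
    rw [h2, Pi.sub_apply, h1]
    have e : (cutoff (u n) x : ℂ) * (φ : ℝ → ℂ) x - (φ : ℝ → ℂ) x =
        ((cutoff (u n) x - 1 : ℝ) : ℂ) * (φ : ℝ → ℂ) x := by
      push_cast
      ring
    rw [e, norm_mul, Complex.norm_real, Real.norm_eq_abs, mul_pow, sq_abs]
    ring
  have hlim : Filter.Tendsto (fun n : ℕ => ∫ x, (1 - cutoff (u n) x) ^ 2 * ‖(φ : ℝ → ℂ) x‖ ^ 2)
      Filter.atTop (nhds (∫ _ : ℝ, (0 : ℝ))) := by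
    apply tendsto_integral_of_dominated_convergence (fun x => ‖(φ : ℝ → ℂ) x‖ ^ 2)
    · intro n
      exact ((continuous_const.sub (MulFacts.continuous_cutoff _)).pow 2).aestronglyMeasurable.mul
        hint.aestronglyMeasurable
    · exact hint
    · intro n
      filter_upwards with x
      have hc := MulFacts.cutoff_bounds (u n) x
      rw [Real.norm_eq_abs, abs_of_nonneg (by positivity)]
      have h1 : (1 - cutoff (u n) x) ^ 2 ≤ 1 := by nlinarith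
      calc _ ≤ 1 * ‖(φ : ℝ → ℂ) x‖ ^ 2 := mul_le_mul_of_nonneg_right h1 (by positivity)
        _ = _ := one_mul _
    · filter_upwards with x
      apply tendsto_const_nhds.congr'
      filter_upwards [hu.eventually (Filter.eventually_ge_atTop |x|)] with n hn
      have h2 : |x| / (u n) - 1 ≤ 0 := by
        rw [sub_nonpos, div_le_one (hu0 n)]
        exact hn
      have h3 : cutoff (u n) x = 1 := by
        unfold cutoff
        rw [Real.smoothTransition.zero_of_nonpos h2, mul_zero, Real.cos_zero]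
      rw [h3]
      norm_num
  rw [integral_zero] at hlim
  have hsq : Filter.Tendsto (fun n : ℕ => ‖Θ n φ - φ‖ ^ 2) Filter.atTop (nhds 0) := by
    apply hlim.congr
    intro n
    rw [MulFacts.norm_sq_eq]
    exact integral_congr_ae (hae n).symm
  have h := (Real.continuous_sqrt.tendsto 0).comp hsq
  rw [Real.sqrt_zero] at h
  apply h.congr
  intro n
  exact Real.sqrt_sq (norm_nonneg _)

/-- the operator inside the trace, `B` is the bounded extension of `(-Δ-μ)_-^{γ-1} V` -/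
noncomputable def insideB (γ μ c : ℝ) (R R0 B : L2R →L[ℂ] L2R) : L2R →L[ℂ] L2R :=
  negPow γ μ c R - negPow γ μ c R0 + (γ : ℂ) • B

/-- everything at a fixed radius -/
theorem local_all (γ : ℝ) (hγ : 1 < γ) : ∃ C : ℝ, 0 < C ∧ ∀ (μ : ℝ), 0 < μ →
    ∀ (V : ℝ → ℝ), Measurable V → Integrable (fun x => V x ^ 2) volume → Integrable (fun x => FF γ μ (V x)) volume →
    ∀ c : ℝ, 16 * (Real.sqrt (2 * (∫ x, V x ^ 2) + 2) + 1) ^ 2 ≤ c →
    ∀ (R R0 : L2R →L[ℂ] L2R), IsResolvent V c R → IsResolvent (fun _ => 0) c R0 →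
      R.IsPositive ∧ R0.IsPositive ∧ (∃! B : L2R →L[ℂ] L2R, IsExt V (negPow (γ - 1) μ c R0) B) ∧
      ∀ B : L2R →L[ℂ] L2R, IsExt V (negPow (γ - 1) μ c R0) B →
        ∃ t : ℝ → ℝ,
          (∀ ρ : ℝ, 0 < ρ → ∀ Θ : L2R →L[ℂ] L2R, IsMul (cutoff ρ) Θ →
            IsTC (Θ.comp ((insideB γ μ c R R0 B).comp Θ)) ∧
            HasTr (Θ.comp ((insideB γ μ c R R0 B).comp Θ)) (t ρ)) ∧
          (∀ ε : ℝ, 0 < ε → ∀ᶠ ρ in Filter.atTop, t ρ ≤ C * (∫ x, FF γ μ (V x)) + ε) ∧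
          (IsTC (insideB γ μ c R R0 B) → ∃ τ : ℝ, HasTr (insideB γ μ c R R0 B) τ ∧
            Filter.Tendsto t Filter.atTop (nhds τ)) := by
  obtain ⟨C, hC, hloc⟩ := local_trace3 γ hγ
  refine ⟨C, hC, ?_⟩
  intro μ hμ V hV hVi hFi c hc R R0 hR hR0
  have hV0 : 0 ≤ ∫ x, V x ^ 2 := integral_nonneg (fun x => sq_nonneg _)
  set Bn : ℝ := Real.sqrt (2 * (∫ x, V x ^ 2) + 2) with hB
  have hB0 : 0 ≤ Bn := Real.sqrt_nonneg _
  have hB2 : Bn ^ 2 = 2 * (∫ x, V x ^ 2) + 2 := Real.sq_sqrt (by positivity)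
  have hc16 : 16 ≤ c := by nlinarith
  have hc0 : 0 < c := by linarith
  have hμc : 0 < μ + c := by linarith
  have hVB : (∫ x, V x ^ 2) ≤ Bn ^ 2 := by rw [hB2]; linarith
  obtain ⟨-, -, hsa, hpos⟩ := QF4.l2_props V hV hVi Bn c hB0 hVB hc l2B l2D l2Q R hR
  obtain ⟨hsa0, hpos0⟩ := res_selfAdjoint (fun _ => 0) continuous_const 0 c (isResolvent_zero_bound hc0).1 hc0 R0 hR0
  have hposR : ∀ S : L2R →L[ℂ] L2R, IsSelfAdjoint S → (∀ f, 0 ≤ (⟪f, S f⟫_ℂ).re) → S.IsPositive := by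
    intro S hS hSf
    refine ⟨ContinuousLinearMap.isSelfAdjoint_iff_isSymmetric.1 hS, fun f => ?_⟩
    have h1 : S.reApplyInnerSelf f = (⟪f, S f⟫_ℂ).re := by
      have h2 : ⟪S f, f⟫_ℂ = ⟪f, S f⟫_ℂ := (ContinuousLinearMap.isSelfAdjoint_iff_isSymmetric.1 hS) f f
      rw [ContinuousLinearMap.reApplyInnerSelf_apply, h2]
      rfl
    rw [h1]
    exact hSf f
  -- the product
  obtain ⟨hk1, hk2, -⟩ := MulFacts.symbol_facts (γ - 1) μ (by linarith) hμ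
  obtain ⟨W, hW, -⟩ := existsProd (fun ξ : ℝ => (max (μ - (2 * Real.pi * ξ) ^ 2) 0) ^ (γ - 1)) hk1 hk2
    (negPow (γ - 1) μ c R0)
    (fun f => negPow_fourier (γ - 1) μ c (by linarith) hμ hc0 R0 hR0 hsa0 f) V hV hVi
  have hQs : IsSelfAdjoint (negPow (γ - 1) μ c R0) := (Cfc1.negPow_nonneg (γ - 1) μ c R0 hsa0 0).2
  have hE := isExt_adjoint V _ W hQs hW
  refine ⟨hposR R hsa hpos, hposR R0 hsa0 hpos0, ⟨_, hE, fun B' hB' => isExt_unique V hV hVi _ B' _ hB' hE⟩, ?_⟩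
  intro B hB'
  have hBW : B = ContinuousLinearMap.adjoint W := isExt_unique V hV hVi _ B _ hB' hE
  have hT : insideB γ μ c R R0 B = insideW γ μ c R R0 W := by
    rw [insideB, insideW, hBW]
  rw [hT]
  obtain ⟨l1, l2⟩ := hloc μ hμ V hV hVi hFi c hc R R0 W hR hR0 hW
  set T := insideW γ μ c R R0 W with hTdef
  obtain ⟨e⟩ := Basis.nonempty_basis
  have hex : ∀ ρ : ℝ, ∃ Θ : L2R →L[ℂ] L2R, 0 < ρ → IsMul (cutoff ρ) Θ := by
    intro ρ
    by_cases h : 0 < ρ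
    · obtain ⟨Θ, hΘ⟩ := MulFacts.exists_cutoff ρ h
      exact ⟨Θ, fun _ => hΘ⟩
    · exact ⟨0, fun h' => absurd h' h⟩
  choose Θc hΘc using hex
  have hsym : ∀ ρ : ℝ, 0 < ρ → ∀ f : L2R, ⟪f, (Θc ρ).comp (T.comp (Θc ρ)) f⟫_ℂ = ⟪Θc ρ f, T (Θc ρ f)⟫_ℂ := by
    intro ρ hρ f
    obtain ⟨hΘs, -⟩ := MulFacts.isMul_cutoff ρ hρ (Θc ρ) (hΘc ρ hρ)
    exact ((ContinuousLinearMap.isSelfAdjoint_iff_isSymmetric.1 hΘs) f (T (Θc ρ f))).symm
  refine ⟨fun ρ => (∑' i, ⟪Θc ρ (e i), T (Θc ρ (e i))⟫_ℂ).re, ?_, ?_, ?_⟩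
  · intro ρ hρ Θ hΘ
    have hΘeq : Θ = Θc ρ := MulFacts.isMul_unique _ Θ (Θc ρ) hΘ (hΘc ρ hρ)
    rw [hΘeq]
    obtain ⟨⟨X, Y, hX, hY, hXY⟩, hsum, him⟩ := l1 ρ hρ (Θc ρ) (hΘc ρ hρ) e
    have hind := fun b' : HilbertBasis ℕ ℂ L2R =>
      Hs.trace_basis_indep e b' X Y hX hY _ hXY
    refine ⟨⟨X, Y, fun b' => (hind b').1, fun b' => (hind b').2.1, hXY⟩, ?_⟩
    intro b'
    obtain ⟨-, hsum', him'⟩ := l1 ρ hρ (Θc ρ) (hΘc ρ hρ) b'
    have e1 : (fun i => ⟪b' i, (Θc ρ).comp (T.comp (Θc ρ)) (b' i)⟫_ℂ) = fun i => ⟪Θc ρ (b' i), T (Θc ρ (b' i))⟫_ℂ :=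
      funext (fun i => hsym ρ hρ (b' i))
    have e2 : (∑' i, ⟪Θc ρ (b' i), T (Θc ρ (b' i))⟫_ℂ) = ∑' i, ⟪Θc ρ (e i), T (Θc ρ (e i))⟫_ℂ := by
      have := (hind b').2.2
      simp only [hsym ρ hρ] at this
      exact this
    rw [e1]
    have e3 : (((∑' i, ⟪Θc ρ (e i), T (Θc ρ (e i))⟫_ℂ).re : ℝ) : ℂ) = ∑' i, ⟪Θc ρ (b' i), T (Θc ρ (b' i))⟫_ℂ := by
      rw [e2]
      apply Complex.ext
      · rw [Complex.ofReal_re]
      · rw [Complex.ofReal_im]; exact him.symm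
    show HasSum _ (((∑' i, ⟪Θc ρ (e i), T (Θc ρ (e i))⟫_ℂ).re : ℝ) : ℂ)
    rw [e3]
    exact hsum'.hasSum
  · intro ε hε
    obtain ⟨ρ0, hρ0, hb⟩ := l2 ε hε
    filter_upwards [Filter.eventually_ge_atTop ρ0] with ρ hρ
    exact hb ρ hρ (Θc ρ) (hΘc ρ (lt_of_lt_of_le hρ0 hρ)) e
  · rintro ⟨X, Y, hX, hY, hXY⟩
    have key : ∀ u : ℕ → ℝ, (∀ n, 0 < u n) → Filter.Tendsto u Filter.atTop Filter.atTop →
        Filter.Tendsto (fun n => ∑' i, ⟪Θc (u n) (e i), T (Θc (u n) (e i))⟫_ℂ) Filter.atTop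
          (nhds (∑' i, ⟪e i, T (e i)⟫_ℂ)) := by
      intro u hu0 hu
      exact (Hs.trace_limit e X Y (hX e) (hY e) T hXY (fun n => Θc (u n))
        (fun n => (MulFacts.isMul_cutoff _ (hu0 n) _ (hΘc _ (hu0 n))).1)
        (fun n => (MulFacts.isMul_cutoff _ (hu0 n) _ (hΘc _ (hu0 n))).2)
        (fun φ => cutoff_tendsto' u hu0 hu _ (fun n => hΘc _ (hu0 n)) φ)).2
    have hlim : Filter.Tendsto (fun ρ => ∑' i, ⟪Θc ρ (e i), T (Θc ρ (e i))⟫_ℂ) Filter.atTop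
          (nhds (∑' i, ⟪e i, T (e i)⟫_ℂ)) := by
      rw [Filter.tendsto_iff_seq_tendsto]
      intro u hu
      have h1 := key (fun n => max (u n) 1) (fun n => lt_of_lt_of_le one_pos (le_max_right _ _))
        (Filter.tendsto_atTop_mono (fun n => le_max_left _ _) hu)
      refine h1.congr' ?_
      filter_upwards [hu.eventually (Filter.eventually_ge_atTop 1)] with n hn
      have : max (u n) 1 = u n := max_eq_left hn
      simp only [Function.comp_apply, this]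
    have him : (∑' i, ⟪e i, T (e i)⟫_ℂ).im = 0 := by
      have h5 := (Complex.continuous_im.tendsto _).comp hlim
      refine tendsto_nhds_unique h5 ?_
      refine tendsto_const_nhds.congr' ?_
      filter_upwards [Filter.eventually_gt_atTop 0] with ρ hρ
      exact ((l1 ρ hρ (Θc ρ) (hΘc ρ hρ) e).2.2).symm
    refine ⟨(∑' i, ⟪e i, T (e i)⟫_ℂ).re, ?_, (Complex.continuous_re.tendsto _).comp hlim⟩
    intro b'
    obtain ⟨-, -, h3⟩ := Hs.trace_basis_indep e b' X Y (hX e) (hY e) T hXY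
    have h4 : (((∑' i, ⟪e i, T (e i)⟫_ℂ).re : ℝ) : ℂ) = ∑' i, ⟪b' i, T (b' i)⟫_ℂ := by
      rw [h3]
      apply Complex.ext
      · rw [Complex.ofReal_re]
      · rw [Complex.ofReal_im]; exact him.symm
    rw [h4]
    refine Summable.hasSum ?_
    exact (Hs.trace_limit b' X Y (hX b') (hY b') T hXY (fun n => Θc ((n : ℝ) + 1))
        (fun n => (MulFacts.isMul_cutoff _ (by positivity) _ (hΘc _ (by positivity))).1)
        (fun n => (MulFacts.isMul_cutoff _ (by positivity) _ (hΘc _ (by positivity))).2)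
        (fun φ => MulFacts.cutoff_tendsto _ (fun n => hΘc _ (by positivity)) φ)).1

end Pool.Agent.Helper209.PL
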