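import Pool.Agent.Helper209.PL.Main11

set_option autoImplicit false

namespace Pool.Agent.Helper209.PL

open MeasureTheory Set
open scoped SchwartzMap InnerProductSpace FourierTransform

theorem isResolvent_congr (V V' : ℝ → ℝ) (h : V =ᵐ[volume] V') (c : ℝ) (R : L2R →L[ℂ] L2R)
    (hR : IsResolvent V c R) : IsResolvent V' c R := by
  intro χ f hf
  apply hR χ f
  filter_upwards [hf, h] with x e1 e2
  rw [e1, e2]

theorem isExt_congr (V V' : ℝ → ℝ) (h : V =ᵐ[volume] V') (Q B : L2R →L[ℂ] L2R)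
    (hB : IsExt V Q B) : IsExt V' Q B := by
  intro f g hg
  apply hB f g
  filter_upwards [hg, h] with x e1 e2
  rw [e1, e2]

/-- trace class for continuous compactly supported potentials -/
theorem tc_cc (γ : ℝ) (hγ : 1 < γ) (μ : ℝ) (hμ : 0 < μ) (V : ℝ → ℝ) (hV : Continuous V)
    (hVs : HasCompactSupport V) (b c : ℝ) (hb : ∀ x, |V x| ≤ b) (hbc : b < c)
    (hVi : Integrable (fun x => V x ^ 2) volume)
    (R R0 B : L2R →L[ℂ] L2R) (hR : IsResolvent V c R) (hR0 : IsResolvent (fun _ => 0) c R0)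
    (hB : IsExt V (negPow (γ - 1) μ c R0) B) : IsTC (insideB γ μ c R R0 B) := by
  obtain ⟨M, hM, -, -⟩ := Res2.exists_mul V hV b hb
  have h1 : B = (negPow (γ - 1) μ c R0).comp M :=
    isExt_unique V hV.measurable hVi _ _ _ hB (isExt_mul V _ M hM)
  have h2 : insideB γ μ c R R0 B = insideOp γ μ c R R0 M := by
    rw [insideB, insideOp, h1]
  rw [h2]
  obtain ⟨e⟩ := Basis.nonempty_basis
  obtain ⟨X, Y, hX, hY, hT⟩ : TCb e (insideOp γ μ c R R0 M) :=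
    inside_tc γ hγ μ hμ V hV hVs b c hb hbc R R0 M hR hR0 hM e
  have hind := fun b' : HilbertBasis ℕ ℂ L2R =>
    Hs.trace_basis_indep e b' X Y hX hY (insideOp γ μ c R R0 M) hT
  exact ⟨X, Y, fun b' => (hind b').1, fun b' => (hind b').2.1, hT⟩

/-- the final theorem -/
theorem main_l2 : ∀ γ : ℝ, 1 < γ → ∃ C : ℝ, 0 < C ∧ ∀ μ : ℝ, 0 < μ → ∀ V : ℝ → ℝ, MemLp V 2 volume →
    Integrable (fun x => FF γ μ (V x)) volume → ∃ c₀ : ℝ, ∀ c : ℝ, c₀ ≤ c →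
      (∃! R : L2R →L[ℂ] L2R, IsResolvent V c R) ∧
      (∃! R₀ : L2R →L[ℂ] L2R, IsResolvent (fun _ => 0) c R₀) ∧
      ∀ R R₀ : L2R →L[ℂ] L2R, IsResolvent V c R → IsResolvent (fun _ => 0) c R₀ →
        R.IsPositive ∧ R₀.IsPositive ∧ (∃! B : L2R →L[ℂ] L2R, IsExt V (negPow (γ - 1) μ c R₀) B) ∧
        ∀ B : L2R →L[ℂ] L2R, IsExt V (negPow (γ - 1) μ c R₀) B →
          (Continuous V → HasCompactSupport V → IsTC (insideB γ μ c R R₀ B)) ∧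
          ∃ t : ℝ → ℝ,
            (∀ ρ : ℝ, 0 < ρ → ∀ Θ : L2R →L[ℂ] L2R, IsMul (cutoff ρ) Θ →
              IsTC (Θ.comp ((insideB γ μ c R R₀ B).comp Θ)) ∧
              HasTr (Θ.comp ((insideB γ μ c R R₀ B).comp Θ)) (t ρ)) ∧
            (∀ ε : ℝ, 0 < ε → ∀ᶠ ρ in Filter.atTop, t ρ ≤ C * (∫ x, FF γ μ (V x)) + ε) ∧
            (IsTC (insideB γ μ c R R₀ B) → ∃ τ : ℝ, HasTr (insideB γ μ c R R₀ B) τ ∧
              Filter.Tendsto t Filter.atTop (nhds τ)) := by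
  intro γ hγ
  obtain ⟨C, hC, h⟩ := local_all γ hγ
  refine ⟨C, hC, ?_⟩
  intro μ hμ V hV2 hFi
  set V' : ℝ → ℝ := hV2.1.mk V with hV'
  have hVV' : V =ᵐ[volume] V' := hV2.1.ae_eq_mk
  have hVm : Measurable V' := hV2.1.stronglyMeasurable_mk.measurable
  have hV2' : MemLp V' 2 volume := hV2.ae_eq hVV'
  have hVi' : Integrable (fun x => V' x ^ 2) volume :=
    (memLp_two_iff_integrable_sq hVm.aestronglyMeasurable).mp hV2'
  have hFFe : (fun x => FF γ μ (V x)) =ᵐ[volume] (fun x => FF γ μ (V' x)) := by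
    filter_upwards [hVV'] with x e
    rw [e]
  have hFi' : Integrable (fun x => FF γ μ (V' x)) volume := hFi.congr hFFe
  have hFFi : (∫ x, FF γ μ (V x)) = ∫ x, FF γ μ (V' x) := integral_congr_ae hFFe
  rw [hFFi]
  have hbd : ∃ b : ℝ, (∃ b' : ℝ, ∀ x, |V x| ≤ b') → ∀ x, |V x| ≤ b := by
    by_cases hb : ∃ b' : ℝ, ∀ x, |V x| ≤ b'
    · obtain ⟨b', hb'⟩ := hb
      exact ⟨b', fun _ => hb'⟩
    · exact ⟨0, fun h' => absurd h' hb⟩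
  obtain ⟨b, hb⟩ := hbd
  refine ⟨max (16 * (Real.sqrt (2 * (∫ x, V' x ^ 2) + 2) + 1) ^ 2) (b + 1), ?_⟩
  intro c hc
  have hc1 : 16 * (Real.sqrt (2 * (∫ x, V' x ^ 2) + 2) + 1) ^ 2 ≤ c := (le_max_left _ _).trans hc
  have hbc : b < c := by
    have := (le_max_right _ _).trans hc
    linarith
  have hV0 : 0 ≤ ∫ x, V' x ^ 2 := integral_nonneg (fun x => sq_nonneg _)
  have hB0 : 0 ≤ Real.sqrt (2 * (∫ x, V' x ^ 2) + 2) := Real.sqrt_nonneg _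
  have hB2 : (Real.sqrt (2 * (∫ x, V' x ^ 2) + 2)) ^ 2 = 2 * (∫ x, V' x ^ 2) + 2 := Real.sq_sqrt (by positivity)
  have hVB : (∫ x, V' x ^ 2) ≤ (Real.sqrt (2 * (∫ x, V' x ^ 2) + 2)) ^ 2 := by rw [hB2]; linarith
  have hc16 : 16 ≤ c := by nlinarith
  have hc0 : 0 < c := by linarith
  obtain ⟨R1, hR1⟩ := QF4.l2_exists V' hVm hVi' _ c hB0 hVB hc1 l2B l2D
  obtain ⟨hu, -, -, -⟩ := QF4.l2_props V' hVm hVi' _ c hB0 hVB hc1 l2B l2D l2Q R1 hR1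
  obtain ⟨R2, hR2⟩ := exists_resolvent (fun _ => 0) continuous_const 0 c (fun x => by simp) hc0
  refine ⟨⟨R1, isResolvent_congr V' V hVV'.symm c R1 hR1, fun R' hR' => hu R' (isResolvent_congr V V' hVV' c R' hR')⟩,
    ⟨R2, hR2, fun R' hR' => res_unique (fun _ => 0) continuous_const 0 c (fun x => by simp) hc0
      R' R2 hR' hR2⟩, ?_⟩
  intro R R₀ hR hR₀
  have hRV' := isResolvent_congr V V' hVV' c R hR
  obtain ⟨p1, p2, ⟨B1, hB1, hB1u⟩, p4⟩ := h μ hμ V' hVm hVi' hFi' c hc1 R R₀ hRV' hR₀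
  refine ⟨p1, p2, ⟨B1, isExt_congr V' V hVV'.symm _ B1 hB1, fun B' hB' => hB1u B' (isExt_congr V V' hVV' _ B' hB')⟩, ?_⟩
  intro B hB
  refine ⟨?_, p4 B (isExt_congr V V' hVV' _ B hB)⟩
  intro hVc hVs
  have hVi : Integrable (fun x => V x ^ 2) volume := by
    refine hVi'.congr ?_
    filter_upwards [hVV'] with x e
    rw [e]
  have hbb : ∀ x, |V x| ≤ b := by
    apply hb
    obtain ⟨b', hb'⟩ := hVs.exists_bound_of_continuous hVc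
    exact ⟨b', hb'⟩
  exact tc_cc γ hγ μ hμ V hVc hVs b c hbb hbc hVi R R₀ B hR hR₀ hB

/-- the final theorem, in the form of the hand-in -/
theorem main_l2_final : ∀ γ : ℝ, 1 < γ → ∃ C : ℝ, 0 < C ∧ ∀ μ : ℝ, 0 < μ → ∀ V : ℝ → ℝ,
    MemLp V 2 volume → Integrable (fun x => FF γ μ (V x)) volume → ∃ c₀ : ℝ, ∀ c : ℝ, c₀ ≤ c →
      (∃! R : L2R →L[ℂ] L2R, IsResolvent V c R) ∧
      (∃! R₀ : L2R →L[ℂ] L2R, IsResolvent (fun _ => 0) c R₀) ∧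
      ∀ R R₀ : L2R →L[ℂ] L2R, IsResolvent V c R → IsResolvent (fun _ => 0) c R₀ →
        R.IsPositive ∧ R₀.IsPositive ∧ (∃! B : L2R →L[ℂ] L2R, IsExt V (negPow (γ - 1) μ c R₀) B) ∧
        ∀ B : L2R →L[ℂ] L2R, IsExt V (negPow (γ - 1) μ c R₀) B →
          ∃ t : ℝ → ℝ,
            (∀ ρ : ℝ, 0 < ρ → ∃ Θ : L2R →L[ℂ] L2R, IsMul (cutoff ρ) Θ ∧
              IsTC (Θ.comp ((insideB γ μ c R R₀ B).comp Θ)) ∧
              HasTr (Θ.comp ((insideB γ μ c R R₀ B).comp Θ)) (t ρ)) ∧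
            (∀ ε : ℝ, 0 < ε → ∀ᶠ ρ in Filter.atTop, t ρ ≤ C * (∫ x, FF γ μ (V x)) + ε) ∧
            (IsTC (insideB γ μ c R R₀ B) → ∃ τ : ℝ, HasTr (insideB γ μ c R R₀ B) τ ∧
              Filter.Tendsto t Filter.atTop (nhds τ) ∧ τ ≤ C * ∫ x, FF γ μ (V x)) ∧
            (Continuous V → HasCompactSupport V → IsTC (insideB γ μ c R R₀ B)) := by
  intro γ hγ
  obtain ⟨C, hC, h⟩ := main_l2 γ hγ
  refine ⟨C, hC, ?_⟩
  intro μ hμ V hV hF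
  obtain ⟨c₀, h0⟩ := h μ hμ V hV hF
  refine ⟨c₀, ?_⟩
  intro c hc
  obtain ⟨h1, h2, h3⟩ := h0 c hc
  refine ⟨h1, h2, ?_⟩
  intro R R₀ hR hR₀
  obtain ⟨p1, p2, p3, p4⟩ := h3 R R₀ hR hR₀
  refine ⟨p1, p2, p3, ?_⟩
  intro B hB
  obtain ⟨q1, t, q2, q3, q4⟩ := p4 B hB
  refine ⟨t, ?_, q3, ?_, q1⟩
  · intro ρ hρ
    obtain ⟨Θ, hΘ⟩ := MulFacts.exists_cutoff ρ hρ
    exact ⟨Θ, hΘ, q2 ρ hρ Θ hΘ⟩
  · intro hT
    obtain ⟨τ, hτ, hlim⟩ := q4 hT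
    refine ⟨τ, hτ, hlim, ?_⟩
    refine le_of_forall_pos_le_add (fun ε hε => ?_)
    exact le_of_tendsto hlim (q3 ε hε)

end Pool.Agent.Helper209.PL
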