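import Pool.Agent.Helper209.PL.Main1
import Pool.Agent.Helper209.PL.LineApprox

set_option autoImplicit false

namespace Pool.Agent.Helper209.PL

open MeasureTheory Set
open scoped SchwartzMap InnerProductSpace FourierTransform

theorem line_approx (V : ℝ → ℝ) (hV : Continuous V) (b c : ℝ) (hb : ∀ x, |V x| ≤ b) (hbc : b < c)
    (K : ℝ) (hK0 : 0 < K) (hK : LineApprox.SupProp V c K)
    (R : L2R →L[ℂ] L2R) (hR : IsResolvent V c R) (hsa : IsSelfAdjoint R)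
    (ρ : ℝ) (hρ : 0 < ρ) (Θ : L2R →L[ℂ] L2R) (hΘ : IsMul (cutoff ρ) Θ) (e : HilbertBasis ℕ ℂ L2R)
    (J : Finset ℕ) (ν : ℝ) (hν : 0 < ν + c) (ε : ℝ) (hε : 0 < ε) :
    ∃ (N : ℕ) (χ : Fin N → 𝓢(ℝ, ℂ)) (Λ : ℝ), 1 ≤ Λ ∧
      (∀ a : L2R, ∑ j, ‖∫ x, χ j x * (starRingEnd ℂ) (a x)‖ ^ 2 ≤ Λ * ‖a‖ ^ 2) ∧
      ∑ i ∈ J, (⟪Θ (e i), negPow 1 ν c R (Θ (e i))⟫_ℂ).re
        ≤ (1 / Λ) * locEn V ρ ν χ + K ^ 2 * (ν + c) ^ 2 * (∫ x, deriv (cutoff ρ) x ^ 2) + ε := by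
  refine LineApprox.line_approx (fun V hV b c hb hbc f ε hε => dense_range V hV b c hb hbc f ε hε)
    hCut (fun θ hθ hs V hV χ => Cut.ims θ hθ hs V hV χ) ?_ ?_ ?_ ?_
    V hV b c hb hbc K hK0 hK R hR hsa ρ hρ Θ hΘ e J ν hν ε hε
  · intro V hV c K hK0 hK ι _ χ w hw Λ hΛ0 hΛ x
    exact ResLoc.sup_family V hV c K hK0 hK χ w hw Λ hΛ0 hΛ x
  · intro V hV b c hb hbc K hK0 hK R hR θ hθ hθs Θ hΘ B e J
    exact ResLoc.res_local (fun V hV b c hb hbc f ε hε => dense_range V hV b c hb hbc f ε hε) V hV b c hb hbc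
      K hK0 hK R hR θ hθ hθs Θ hΘ B e J
  · intro H _ _ _ b X Y hX hY
    exact Hs.hs_cyclic b X Y hX hY
  · intro H _ _ _ ν c hνc R hR k hk
    exact Cfc2.level_factor ν c hνc R hR k hk

theorem bgcount_bound (L : ℝ) (hL : 0 < L) (μ ν : ℝ) (hν : ν ≤ μ) (hμ : 0 < μ) :
    0 ≤ (1 / L) * bgcount L ν ∧ (1 / L) * bgcount L ν ≤ Real.sqrt μ / Real.pi + 1 / L := by
  obtain ⟨K0, hK0⟩ := BoxLevel.exists_K L ν hL
  rw [BoxLevel.bgcount_eq L ν hK0 K0 le_rfl]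
  set s := (Finset.Icc (-(K0 : ℤ)) K0).filter (fun n => mom L n ^ 2 < ν) with hs
  refine ⟨by positivity, ?_⟩
  have h1 : (s.card : ℝ) ≤ L * (Real.sqrt μ / Real.pi + 1 / L) := by
    refine Count.count_lt L (Real.sqrt μ) hL (Real.sqrt_nonneg _) s ?_
    intro n hn
    rw [hs, Finset.mem_filter] at hn
    rw [← Real.sqrt_sq_eq_abs]
    exact Real.sqrt_le_sqrt (by linarith [hn.2])
  calc (1 / L) * (s.card : ℝ) ≤ (1 / L) * (L * (Real.sqrt μ / Real.pi + 1 / L)) := by gcongr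
    _ = _ := by field_simp

/-- level bounds for localised traces on the line -/
theorem line_level (V : ℝ → ℝ) (hV : Continuous V) (b c : ℝ) (hb : ∀ x, |V x| ≤ b) (hbc : b < c)
    (K : ℝ) (hK0 : 0 < K) (hK : LineApprox.SupProp V c K)
    (R : L2R →L[ℂ] L2R) (hR : IsResolvent V c R) (hsa : IsSelfAdjoint R)
    (Kc ρ : ℝ) (hρ : 0 < ρ)
    (hKc1 : (∫ x, deriv (cutoff ρ) x ^ 2) ≤ Kc / ρ)
    (hKc2 : ∀ L : ℝ, 0 < L → (∫ x in (-(L / 2))..(L / 2), deriv (cocut ρ) x ^ 2) ≤ Kc / ρ)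
    (hKc0 : 0 < Kc)
    (hVs : ∀ x, ρ ≤ |x| → V x = 0) (L : ℝ) (hL : 4 * ρ < L) (μ : ℝ) (hμ : 0 < μ)
    (Θ : L2R →L[ℂ] L2R) (hΘ : IsMul (cutoff ρ) Θ) (e : HilbertBasis ℕ ℂ L2R) (J : Finset ℕ) :
    LevelBounds L μ (μ + c) V (fun t =>
      (∑ i ∈ J, (⟪Θ (e i), negPow 1 (μ - t) c R (Θ (e i))⟫_ℂ).re)
        - ((1 / L) * ∫ x, cutoff ρ x ^ 2) * bgsum L (μ - t)
        + (1 / L) * bgcount L (μ - t) * (∫ x in (-(L / 2))..(L / 2), V x)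
        - ((Real.sqrt μ / Real.pi + 1 / L) * (Kc / ρ) + K ^ 2 * (μ + c) ^ 2 * (Kc / ρ))) := by
  have hL0 : 0 < L := by linarith
  have hb0 : 0 ≤ b := (abs_nonneg _).trans (hb 0)
  have hc0 : 0 < c := by linarith
  have key : ∀ t : ℝ, 0 < t → t < μ + c → ∀ ε : ℝ, 0 < ε → ∃ G0 : ℝ,
      ((∑ i ∈ J, (⟪Θ (e i), negPow 1 (μ - t) c R (Θ (e i))⟫_ℂ).re)
        - ((1 / L) * ∫ x, cutoff ρ x ^ 2) * bgsum L (μ - t)
        + (1 / L) * bgcount L (μ - t) * (∫ x in (-(L / 2))..(L / 2), V x)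
        - ((Real.sqrt μ / Real.pi + 1 / L) * (Kc / ρ) + K ^ 2 * (μ + c) ^ 2 * (Kc / ρ))) ≤ G0 + ε ∧
      (t < μ → G0 ≤ 3 * (∫ x in (-(L / 2))..(L / 2), (max (-V x) 0) ^ (3 / 2 : ℝ))
      + (Real.sqrt (μ - t) / Real.pi + 9 / L) * (∫ x in (-(L / 2))..(L / 2), |V x|)) ∧
    (t < μ → G0 ≤ (8 / Real.sqrt (μ - t)) * (∫ x in (-(L / 2))..(L / 2), V1 μ (V x) ^ 2)
      + 11 * (∫ x in (-(L / 2))..(L / 2), V2 μ (V x) ^ (3 / 2 : ℝ))
      + (Real.sqrt (μ - t) / Real.pi + 1 / L) * (∫ x in (-(L / 2))..(L / 2), (V2 μ (V x) + V3 μ (V x)))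
      + (8 / L) * (∫ x in (-(L / 2))..(L / 2), |V x|)
      + 2 * (offE L (fun x => V1 μ (V x)) (μ - t)).toReal) ∧
    (μ ≤ t → G0 ≤ (∫ x in (-(L / 2))..(L / 2), (max (-V x - (t - μ)) 0) ^ (3 / 2 : ℝ))
      + (2 / L) * (∫ x in (-(L / 2))..(L / 2), max (-V x - (t - μ)) 0)) := by
    intro t ht htc ε hε
    obtain ⟨N, χ, Λ, hΛ1, hBes, hS⟩ := line_approx V hV b c hb hbc K hK0 hK R hR hsa ρ hρ Θ hΘ e J (μ - t)
      (by linarith) ε hε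
    refine ⟨_, ?_, line_family L ρ μ hρ hL hμ V hV hVs χ Λ (by linarith) hBes t ht _ rfl⟩
    obtain ⟨hc1, hc2⟩ := bgcount_bound L hL0 μ (μ - t) (by linarith) hμ
    have h1 : (1 / L) * bgcount L (μ - t) * (∫ x in (-(L / 2))..(L / 2), deriv (cocut ρ) x ^ 2)
        ≤ (Real.sqrt μ / Real.pi + 1 / L) * (Kc / ρ) := by
      have hn : 0 ≤ ∫ x in (-(L / 2))..(L / 2), deriv (cocut ρ) x ^ 2 :=
        intervalIntegral.integral_nonneg (by linarith) (fun x _ => sq_nonneg _)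
      exact mul_le_mul hc2 (hKc2 L hL0) hn (hc1.trans hc2)
    have h2 : K ^ 2 * (μ - t + c) ^ 2 * (∫ x, deriv (cutoff ρ) x ^ 2)
        ≤ K ^ 2 * (μ + c) ^ 2 * (Kc / ρ) := by
      have hn : 0 ≤ ∫ x, deriv (cutoff ρ) x ^ 2 := integral_nonneg (fun x => sq_nonneg _)
      have h3 : (μ - t + c) ^ 2 ≤ (μ + c) ^ 2 := by
        apply pow_le_pow_left₀ (by linarith) (by linarith)
      exact mul_le_mul (mul_le_mul_of_nonneg_left h3 (sq_nonneg _)) hKc1 hn (by positivity)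
    linarith
  refine ⟨?_, ?_, ?_⟩
  · intro t ht htμ
    refine le_of_forall_pos_le_add (fun ε hε => ?_)
    obtain ⟨G0, h1, h2, -, -⟩ := key t ht (by linarith) ε hε
    have := h2 htμ
    dsimp only
    linarith
  · intro t ht htμ
    refine le_of_forall_pos_le_add (fun ε hε => ?_)
    obtain ⟨G0, h1, -, h2, -⟩ := key t ht (by linarith) ε hε
    have := h2 htμ
    dsimp only
    linarith
  · intro t htμ htM
    refine le_of_forall_pos_le_add (fun ε hε => ?_)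
    obtain ⟨G0, h1, -, -, h2⟩ := key t (by linarith) htM ε hε
    have := h2 htμ
    dsimp only
    linarith

end Pool.Agent.Helper209.PL
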