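import Pool.Agent.Helper209.PL.Defs

set_option autoImplicit false

namespace Pool.Agent.Helper209.PL.MulFacts

open MeasureTheory Set
open scoped SchwartzMap InnerProductSpace FourierTransform


theorem continuous_cutoff (ρ : ℝ) : Continuous (cutoff ρ) := by
  unfold cutoff
  exact Real.continuous_cos.comp (continuous_const.mul
    (Real.smoothTransition.continuous.comp ((continuous_abs.div_const ρ).sub continuous_const)))

theorem cutoff_bounds (ρ x : ℝ) : 0 ≤ cutoff ρ x ∧ cutoff ρ x ≤ 1 := by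
  unfold cutoff
  have h1 := Real.smoothTransition.nonneg (|x| / ρ - 1)
  have h2 := Real.smoothTransition.le_one (|x| / ρ - 1)
  have hp := Real.pi_pos
  refine ⟨Real.cos_nonneg_of_mem_Icc ⟨?_, ?_⟩, Real.cos_le_one _⟩
  · have : 0 ≤ Real.pi / 2 * Real.smoothTransition (|x| / ρ - 1) := by positivity
    linarith
  · nlinarith

theorem norm_mul_le_of {v : ℝ} (hv : |v| ≤ 1) (z : ℂ) : ‖(v : ℂ) * z‖ ≤ ‖z‖ := by
  rw [norm_mul, Complex.norm_real, Real.norm_eq_abs]
  calc |v| * ‖z‖ ≤ 1 * ‖z‖ := mul_le_mul_of_nonneg_right hv (norm_nonneg _)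
    _ = ‖z‖ := one_mul _

/-- multiplication by a cutoff is a selfadjoint contraction; multiplication operators are unique and compose -/
theorem isMul_cutoff (ρ : ℝ) (hρ : 0 < ρ) (Θ : L2R →L[ℂ] L2R) (hΘ : IsMul (cutoff ρ) Θ) :
    IsSelfAdjoint Θ ∧ ‖Θ‖ ≤ 1 := by
  constructor
  · rw [ContinuousLinearMap.isSelfAdjoint_iff_isSymmetric]
    intro f g
    show inner ℂ (Θ f) g = inner ℂ f (Θ g)
    rw [L2.inner_def, L2.inner_def]
    apply integral_congr_ae
    filter_upwards [hΘ f, hΘ g] with x hx1 hx2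
    rw [hx1, hx2, RCLike.inner_apply, RCLike.inner_apply, map_mul, Complex.conj_ofReal]
    ring
  · apply ContinuousLinearMap.opNorm_le_bound _ zero_le_one
    intro f
    rw [one_mul]
    apply Lp.norm_le_norm_of_ae_le
    filter_upwards [hΘ f] with x hx
    rw [hx]
    apply norm_mul_le_of
    have := cutoff_bounds ρ x
    rw [abs_of_nonneg this.1]
    exact this.2

theorem isMul_unique (v : ℝ → ℝ) (M M' : L2R →L[ℂ] L2R) (h : IsMul v M) (h' : IsMul v M') : M = M' := by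
  ext1 f
  apply Lp.ext
  exact (h f).trans (h' f).symm

theorem isMul_comp (v w : ℝ → ℝ) (M M' : L2R →L[ℂ] L2R) (h : IsMul v M) (h' : IsMul w M') :
    IsMul (fun x => v x * w x) (M.comp M') := by
  intro f
  filter_upwards [h (M' f), h' f] with x h1 h2
  rw [ContinuousLinearMap.comp_apply, h1, h2]
  push_cast
  ring

theorem exists_mul (v : ℝ → ℝ) (hv : Continuous v) (hb : ∀ x, |v x| ≤ 1) :
    ∃ Θ : L2R →L[ℂ] L2R, IsMul v Θ := by
  have hmem : ∀ f : L2R, MemLp (fun x => (v x : ℂ) * (f : ℝ → ℂ) x) 2 volume := by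
    intro f
    apply (Lp.memLp f).of_le
    · exact (Complex.continuous_ofReal.comp hv).aestronglyMeasurable.mul (Lp.aestronglyMeasurable f)
    · exact Filter.Eventually.of_forall (fun x => norm_mul_le_of (hb x) _)
  obtain ⟨T, hT⟩ : ∃ T : L2R → L2R, ∀ f, ((T f : L2R) : ℝ → ℂ) =ᵐ[volume] (fun x => (v x : ℂ) * (f : ℝ → ℂ) x) :=
    ⟨fun f => (hmem f).toLp _, fun f => (hmem f).coeFn_toLp⟩
  have hadd : ∀ f g, T (f + g) = T f + T g := by
    intro f g
    apply Lp.ext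
    filter_upwards [hT (f + g), hT f, hT g, Lp.coeFn_add f g, Lp.coeFn_add (T f) (T g)] with x h1 h2 h3 h4 h5
    rw [h1, h5, h4, Pi.add_apply, Pi.add_apply, h2, h3]
    ring
  have hsmul : ∀ (c : ℂ) f, T (c • f) = c • T f := by
    intro c f
    apply Lp.ext
    filter_upwards [hT (c • f), hT f, Lp.coeFn_smul c f, Lp.coeFn_smul c (T f)] with x h1 h2 h3 h4
    rw [h1, h4, h3, Pi.smul_apply, Pi.smul_apply, h2, smul_eq_mul, smul_eq_mul]
    ring
  refine ⟨LinearMap.mkContinuous ⟨⟨T, hadd⟩, hsmul⟩ 1 ?_, ?_⟩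
  · intro f
    rw [one_mul]
    apply Lp.norm_le_norm_of_ae_le
    filter_upwards [hT f] with x hx
    show ‖(T f : ℝ → ℂ) x‖ ≤ _
    rw [hx]
    exact norm_mul_le_of (hb x) _
  · intro f
    exact hT f

theorem exists_cutoff (ρ : ℝ) (hρ : 0 < ρ) : ∃ Θ : L2R →L[ℂ] L2R, IsMul (cutoff ρ) Θ := by
  apply exists_mul _ (continuous_cutoff ρ)
  intro x
  have := cutoff_bounds ρ x
  rw [abs_of_nonneg this.1]
  exact this.2

theorem norm_sq_eq (f : L2R) : ‖f‖ ^ 2 = ∫ x, ‖(f : ℝ → ℂ) x‖ ^ 2 := by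
  have h1 : ((‖f‖ ^ 2 : ℝ) : ℂ) = inner ℂ f f := by
    rw [inner_self_eq_norm_sq_to_K]
    push_cast
    rfl
  have h2 : (inner ℂ f f : ℂ) = ((∫ x, ‖(f : ℝ → ℂ) x‖ ^ 2 : ℝ) : ℂ) := by
    rw [L2.inner_def, ← integral_complex_ofReal]
    apply integral_congr_ae
    filter_upwards with x
    rw [inner_self_eq_norm_sq_to_K]
    push_cast
    rfl
  rw [h2] at h1
  exact_mod_cast h1

/-- the cutoffs converge strongly to the identity -/
theorem cutoff_tendsto (Θ : ℕ → L2R →L[ℂ] L2R) (hΘ : ∀ n : ℕ, IsMul (cutoff ((n : ℝ) + 1)) (Θ n)) (φ : L2R) :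
    Filter.Tendsto (fun n => Θ n φ) Filter.atTop (nhds φ) := by
  rw [tendsto_iff_norm_sub_tendsto_zero]
  have hint : Integrable (fun x => ‖(φ : ℝ → ℂ) x‖ ^ 2) volume := by
    rw [← memLp_two_iff_integrable_sq_norm (Lp.aestronglyMeasurable φ)]
    exact Lp.memLp φ
  have hae : ∀ n : ℕ, (fun x => ‖((Θ n φ - φ : L2R) : ℝ → ℂ) x‖ ^ 2) =ᵐ[volume]
      (fun x => (1 - cutoff ((n : ℝ) + 1) x) ^ 2 * ‖(φ : ℝ → ℂ) x‖ ^ 2) := by
    intro n
    filter_upwards [hΘ n φ, Lp.coeFn_sub (Θ n φ) φ] with x h1 h2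
    rw [h2, Pi.sub_apply, h1]
    have e : (cutoff ((n : ℝ) + 1) x : ℂ) * (φ : ℝ → ℂ) x - (φ : ℝ → ℂ) x =
        ((cutoff ((n : ℝ) + 1) x - 1 : ℝ) : ℂ) * (φ : ℝ → ℂ) x := by
      push_cast
      ring
    rw [e, norm_mul, Complex.norm_real, Real.norm_eq_abs, mul_pow, sq_abs]
    ring
  have hlim : Filter.Tendsto (fun n : ℕ => ∫ x, (1 - cutoff ((n : ℝ) + 1) x) ^ 2 * ‖(φ : ℝ → ℂ) x‖ ^ 2)
      Filter.atTop (nhds (∫ _ : ℝ, (0 : ℝ))) := by
    apply tendsto_integral_of_dominated_convergence (fun x => ‖(φ : ℝ → ℂ) x‖ ^ 2)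
    · intro n
      exact ((continuous_const.sub (continuous_cutoff _)).pow 2).aestronglyMeasurable.mul
        hint.aestronglyMeasurable
    · exact hint
    · intro n
      filter_upwards with x
      have hc := cutoff_bounds ((n : ℝ) + 1) x
      rw [Real.norm_eq_abs, abs_of_nonneg (by positivity)]
      have h1 : (1 - cutoff ((n : ℝ) + 1) x) ^ 2 ≤ 1 := by nlinarith
      calc _ ≤ 1 * ‖(φ : ℝ → ℂ) x‖ ^ 2 := mul_le_mul_of_nonneg_right h1 (by positivity)
        _ = _ := one_mul _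
    · filter_upwards with x
      apply tendsto_const_nhds.congr'
      filter_upwards [Filter.eventually_ge_atTop (⌈|x|⌉₊)] with n hn
      have h1 : |x| ≤ n := (Nat.le_ceil _).trans (by exact_mod_cast hn)
      have h2 : |x| / ((n : ℝ) + 1) - 1 ≤ 0 := by
        rw [sub_nonpos, div_le_one (by positivity)]
        linarith
      have h3 : cutoff ((n : ℝ) + 1) x = 1 := by
        unfold cutoff
        rw [Real.smoothTransition.zero_of_nonpos h2, mul_zero, Real.cos_zero]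
      rw [h3]
      norm_num
  rw [integral_zero] at hlim
  have hsq : Filter.Tendsto (fun n : ℕ => ‖Θ n φ - φ‖ ^ 2) Filter.atTop (nhds 0) := by
    apply hlim.congr
    intro n
    rw [norm_sq_eq]
    exact integral_congr_ae (hae n).symm
  have h := (Real.continuous_sqrt.tendsto 0).comp hsq
  rw [Real.sqrt_zero] at h
  apply h.congr
  intro n
  exact Real.sqrt_sq (norm_nonneg _)

/-- a bounded-below compactly supported continuous function attains its maximal modulus -/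
theorem exists_bound (V : ℝ → ℝ) (hV : Continuous V) (hVs : HasCompactSupport V) (c : ℝ) (hc : ∀ x, |V x| < c) :
    ∃ b : ℝ, (∀ x, |V x| ≤ b) ∧ b < c := by
  have h1 : Continuous (fun x => ‖V x‖) := hV.norm
  have h2 : HasCompactSupport (fun x => ‖V x‖) := hVs.norm
  obtain ⟨x₀, hx₀⟩ := h1.exists_forall_ge_of_hasCompactSupport h2
  exact ⟨|V x₀|, fun x => hx₀ x, hc x₀⟩

/-- the symbol -/
theorem symbol_facts (s μ : ℝ) (hs : 0 < s) (hμ : 0 < μ) :
    Continuous (fun ξ : ℝ => (max (μ - (2 * Real.pi * ξ) ^ 2) 0) ^ s) ∧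
    HasCompactSupport (fun ξ : ℝ => (max (μ - (2 * Real.pi * ξ) ^ 2) 0) ^ s) ∧
    (∫ ξ : ℝ, (max (μ - (2 * Real.pi * ξ) ^ 2) 0) ^ s) = (1 / (2 * Real.pi)) * ∫ p : ℝ, (max (μ - p ^ 2) 0) ^ s := by
  have hp := Real.pi_gt_three
  refine ⟨?_, ?_, ?_⟩
  · apply Continuous.rpow_const
    · fun_prop
    · intro x
      right
      exact hs.le
  · apply HasCompactSupport.intro (K := Icc (-Real.sqrt μ) (Real.sqrt μ)) isCompact_Icc
    intro ξ hξ
    have h1 : μ ≤ ξ ^ 2 := by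
      by_contra hcon
      push Not at hcon
      apply hξ
      have h2 : |ξ| ≤ Real.sqrt μ := Real.abs_le_sqrt hcon.le
      exact ⟨(abs_le.1 h2).1, (abs_le.1 h2).2⟩
    have h2 : ξ ^ 2 ≤ (2 * Real.pi * ξ) ^ 2 := by
      have h3 : (2 * Real.pi * ξ) ^ 2 = (2 * Real.pi) ^ 2 * ξ ^ 2 := by ring
      rw [h3]
      have h4 : 1 ≤ (2 * Real.pi) ^ 2 := by nlinarith
      nlinarith [sq_nonneg ξ]
    rw [max_eq_right (by linarith), Real.zero_rpow hs.ne']
  · have h := Measure.integral_comp_mul_left (fun p : ℝ => (max (μ - p ^ 2) 0) ^ s) (2 * Real.pi)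
    rw [h, smul_eq_mul, abs_of_pos (by positivity), one_div]

end Pool.Agent.Helper209.PL.MulFacts
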