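import Pool.Agent.Helper209.PL.Main3
import Pool.Agent.Helper209.PL.MulFacts

set_option autoImplicit false

namespace Pool.Agent.Helper209.PL

open MeasureTheory Set
open scoped SchwartzMap InnerProductSpace FourierTransform

/-- the operator inside the trace -/
noncomputable def insideOp (γ μ c : ℝ) (R R0 M : L2R →L[ℂ] L2R) : L2R →L[ℂ] L2R :=
  negPow γ μ c R - negPow γ μ c R0 + (γ : ℂ) • (negPow (γ - 1) μ c R0).comp M

theorem isResolvent_zero_bound {c : ℝ} (hc : 0 < c) : (∀ x : ℝ, |(fun _ : ℝ => (0 : ℝ)) x| ≤ 0) ∧ (0 : ℝ) < c :=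
  ⟨fun x => by simp, hc⟩

theorem local_trace (γ : ℝ) (hγ : 1 < γ) : ∃ C : ℝ, 0 < C ∧ ∀ (μ : ℝ), 0 < μ →
    ∀ (V : ℝ → ℝ), Continuous V → HasCompactSupport V → ∀ (b c : ℝ), (∀ x, |V x| ≤ b) → b < c →
    ∀ (R R0 M : L2R →L[ℂ] L2R), IsResolvent V c R → IsResolvent (fun _ => 0) c R0 → IsMul V M →
    ∀ (ε : ℝ), 0 < ε → ∃ ρ0 : ℝ, 0 < ρ0 ∧ ∀ ρ : ℝ, ρ0 ≤ ρ →
      ∀ (Θ : L2R →L[ℂ] L2R), IsMul (cutoff ρ) Θ → ∀ (e : HilbertBasis ℕ ℂ L2R),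
        Summable (fun i => ⟪Θ (e i), insideOp γ μ c R R0 M (Θ (e i))⟫_ℂ) ∧
        (∑' i, ⟪Θ (e i), insideOp γ μ c R R0 M (Θ (e i))⟫_ℂ).re ≤ C * (∫ x, FF γ μ (V x)) + ε ∧
        (∑' i, ⟪Θ (e i), insideOp γ μ c R R0 M (Θ (e i))⟫_ℂ).im = 0 := by
  obtain ⟨C, hC, hloc⟩ := local_bound γ hγ
  refine ⟨C, hC, ?_⟩
  intro μ hμ V hV hVs b c hb hbc R R0 M hR hR0 hM ε hε
  have hb0 : 0 ≤ b := (abs_nonneg _).trans (hb 0)
  have hc0 : 0 < c := by linarith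
  obtain ⟨ρ0, hρ0, hρ⟩ := hloc μ hμ V hV hVs b c hb hbc R hR ε hε
  refine ⟨ρ0, hρ0, ?_⟩
  intro ρ hρρ Θ hΘ e
  obtain ⟨hVρ, hbd⟩ := hρ ρ hρρ
  have hρpos : 0 < ρ := lt_of_lt_of_le hρ0 hρρ
  obtain ⟨hsa, -⟩ := res_selfAdjoint V hV b c hb hbc R hR
  obtain ⟨hsa0, -⟩ := res_selfAdjoint (fun _ => 0) continuous_const 0 c (isResolvent_zero_bound hc0).1 hc0 R0 hR0
  obtain ⟨hcC, -, hcs, -, -, -, hc1, -⟩ := Cut.cutoff_facts ρ hρpos
  -- first term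
  have hN := fun i => Cfc1.negPow_nonneg γ μ c R hsa (Θ (e i))
  have hreal : ∀ i, ⟪Θ (e i), negPow γ μ c R (Θ (e i))⟫_ℂ
      = (((⟪Θ (e i), negPow γ μ c R (Θ (e i))⟫_ℂ).re : ℝ) : ℂ) := by
    intro i
    have hsym := ContinuousLinearMap.isSelfAdjoint_iff_isSymmetric.1 (hN i).2
    have h1 : (starRingEnd ℂ) ⟪Θ (e i), negPow γ μ c R (Θ (e i))⟫_ℂ = ⟪Θ (e i), negPow γ μ c R (Θ (e i))⟫_ℂ := by
      rw [inner_conj_symm]
      exact hsym (Θ (e i)) (Θ (e i))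
    exact (Complex.conj_eq_iff_re.1 h1).symm
  set B1 : ℝ := C * (∫ x, FF γ μ (V x)) + ε
            + ((1 / (2 * Real.pi)) * ∫ p : ℝ, (max (μ - p ^ 2) 0) ^ γ) * (∫ x, cutoff ρ x ^ 2)
            - γ * (((1 / (2 * Real.pi)) * ∫ p : ℝ, (max (μ - p ^ 2) 0) ^ (γ - 1)) * ∫ x, V x) with hB1
  have hsumre : Summable (fun i => (⟪Θ (e i), negPow γ μ c R (Θ (e i))⟫_ℂ).re) :=
    summable_of_sum_le (fun i => (hN i).1) (fun J => hbd Θ hΘ e J)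
  have hle : (∑' i, (⟪Θ (e i), negPow γ μ c R (Θ (e i))⟫_ℂ).re) ≤ B1 :=
    hsumre.tsum_le_of_sum_le (fun J => hbd Θ hΘ e J)
  have hS1 : HasSum (fun i => ⟪Θ (e i), negPow γ μ c R (Θ (e i))⟫_ℂ)
      (((∑' i, (⟪Θ (e i), negPow γ μ c R (Θ (e i))⟫_ℂ).re) : ℝ) : ℂ) := by
    have h2 := hsumre.hasSum
    have h3 := Complex.hasSum_ofReal.2 h2
    refine h3.congr_fun ?_
    intro i
    exact hreal i
  -- second term
  obtain ⟨hg1, hg2, hg3⟩ := MulFacts.symbol_facts γ μ (by linarith) hμ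
  have hS2 := FourTr.fourier_trace e _ hg1 hg2 (negPow γ μ c R0)
    (fun f => negPow_fourier γ μ c (by linarith) hμ hc0 R0 hR0 hsa0 f) (cutoff ρ) (cutoff ρ)
    hcC.continuous hcs hcC.continuous hcs Θ Θ hΘ hΘ
  rw [hg3] at hS2
  -- third term
  obtain ⟨hk1, hk2, hk3⟩ := MulFacts.symbol_facts (γ - 1) μ (by linarith) hμ
  have hS3 := FourTr.fourier_trace e _ hk1 hk2 (negPow (γ - 1) μ c R0)
    (fun f => negPow_fourier (γ - 1) μ c (by linarith) hμ hc0 R0 hR0 hsa0 f) (cutoff ρ)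
    (fun x => V x * cutoff ρ x) hcC.continuous hcs (hV.mul hcC.continuous) hVs.mul_right Θ (M.comp Θ) hΘ
    (MulFacts.isMul_comp V (cutoff ρ) M Θ hM hΘ)
  rw [hk3] at hS3
  have hVc : (∫ x, cutoff ρ x * (V x * cutoff ρ x)) = ∫ x, V x := by
    congr 1
    funext x
    by_cases h : |x| ≤ ρ
    · rw [(hc1 x h).1]; ring
    · rw [hVρ x (le_of_lt (not_le.1 h))]; ring
  have hQ : (∫ x, cutoff ρ x * cutoff ρ x) = ∫ x, cutoff ρ x ^ 2 := by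
    congr 1
    funext x
    ring
  rw [hVc] at hS3
  rw [hQ] at hS2
  have hfin := (hS1.sub hS2).add (hS3.mul_left (γ : ℂ))
  have hcong : (fun i => ⟪Θ (e i), insideOp γ μ c R R0 M (Θ (e i))⟫_ℂ)
      = fun i => ⟪Θ (e i), negPow γ μ c R (Θ (e i))⟫_ℂ - ⟪Θ (e i), negPow γ μ c R0 (Θ (e i))⟫_ℂ
        + (γ : ℂ) * ⟪Θ (e i), negPow (γ - 1) μ c R0 ((M.comp Θ) (e i))⟫_ℂ := by
    funext i
    simp only [insideOp, ContinuousLinearMap.add_apply, ContinuousLinearMap.sub_apply,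
      ContinuousLinearMap.smul_apply, ContinuousLinearMap.comp_apply, inner_add_right, inner_sub_right,
      inner_smul_right]
  rw [hcong]
  refine ⟨hfin.summable, ?_, ?_⟩
  · rw [hfin.tsum_eq]
    simp only [Complex.add_re, Complex.sub_re, Complex.ofReal_re, ← Complex.ofReal_mul]
    linarith [hle]
  · rw [hfin.tsum_eq]
    simp only [Complex.add_im, Complex.sub_im, Complex.ofReal_im, ← Complex.ofReal_mul]
    ring

/-- trace version: for trace class operators the trace itself is bounded -/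
theorem trace_bound (γ : ℝ) (hγ : 1 < γ) : ∃ C : ℝ, 0 < C ∧ ∀ (μ : ℝ), 0 < μ →
    ∀ (V : ℝ → ℝ), Continuous V → HasCompactSupport V → ∀ (b c : ℝ), (∀ x, |V x| ≤ b) → b < c →
    ∀ (R R0 M : L2R →L[ℂ] L2R), IsResolvent V c R → IsResolvent (fun _ => 0) c R0 → IsMul V M →
    ∀ (e : HilbertBasis ℕ ℂ L2R) (X Y : L2R →L[ℂ] L2R), Summable (fun i => ‖X (e i)‖ ^ 2) →
      Summable (fun i => ‖Y (e i)‖ ^ 2) →
      insideOp γ μ c R R0 M = (ContinuousLinearMap.adjoint X).comp Y →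
      Summable (fun i => ⟪e i, insideOp γ μ c R R0 M (e i)⟫_ℂ) ∧
      (∑' i, ⟪e i, insideOp γ μ c R R0 M (e i)⟫_ℂ).re ≤ C * (∫ x, FF γ μ (V x)) ∧
      (∑' i, ⟪e i, insideOp γ μ c R R0 M (e i)⟫_ℂ).im = 0 := by
  obtain ⟨C, hC, hloc⟩ := local_trace γ hγ
  refine ⟨C, hC, ?_⟩
  intro μ hμ V hV hVs b c hb hbc R R0 M hR hR0 hM e X Y hX hY hT
  have hex : ∀ n : ℕ, ∃ Θ : L2R →L[ℂ] L2R, IsMul (cutoff ((n : ℝ) + 1)) Θ :=
    fun n => MulFacts.exists_cutoff _ (by positivity)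
  choose Θ hΘ using hex
  have h1 : ∀ n, IsSelfAdjoint (Θ n) := fun n => (MulFacts.isMul_cutoff _ (by positivity) _ (hΘ n)).1
  have h2 : ∀ n, ‖Θ n‖ ≤ 1 := fun n => (MulFacts.isMul_cutoff _ (by positivity) _ (hΘ n)).2
  obtain ⟨h3, h4⟩ := Hs.trace_limit e X Y hX hY (insideOp γ μ c R R0 M) hT Θ h1 h2
    (fun φ => MulFacts.cutoff_tendsto Θ hΘ φ)
  refine ⟨h3, ?_, ?_⟩
  · have h5 := (Complex.continuous_re.tendsto _).comp h4
    refine le_of_forall_pos_le_add (fun ε hε => ?_)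
    obtain ⟨ρ0, hρ0, hb2⟩ := hloc μ hμ V hV hVs b c hb hbc R R0 M hR hR0 hM ε hε
    refine le_of_tendsto h5 ?_
    filter_upwards [Filter.eventually_ge_atTop ⌈ρ0⌉₊] with n hn
    have hn' : ρ0 ≤ (n : ℝ) + 1 := by
      have := Nat.ceil_le.1 hn
      linarith
    exact (hb2 _ hn' (Θ n) (hΘ n) e).2.1
  · have h5 := (Complex.continuous_im.tendsto _).comp h4
    obtain ⟨ρ0, hρ0, hb2⟩ := hloc μ hμ V hV hVs b c hb hbc R R0 M hR hR0 hM 1 one_pos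
    refine tendsto_nhds_unique h5 ?_
    refine tendsto_const_nhds.congr' ?_
    filter_upwards [Filter.eventually_ge_atTop ⌈ρ0⌉₊] with n hn
    have hn' : ρ0 ≤ (n : ℝ) + 1 := by
      have := Nat.ceil_le.1 hn
      linarith
    exact ((hb2 _ hn' (Θ n) (hΘ n) e).2.2).symm

end Pool.Agent.Helper209.PL
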