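import Pool.Agent.Helper209.PL.Defs
import Pool.Agent.Helper209.PL.NDefs

set_option autoImplicit false

namespace Pool.Agent.Helper209.PL.N1a

open MeasureTheory Set
open scoped SchwartzMap InnerProductSpace FourierTransform


section aux
variable {H : Type} [NormedAddCommGroup H] [InnerProductSpace ℂ H] [CompleteSpace H]

theorem parseval (b : HilbertBasis ℕ ℂ H) (x : H) :
    HasSum (fun n => ‖⟪b n, x⟫_ℂ‖ ^ 2) (‖x‖ ^ 2) := by
  have h := b.hasSum_inner_mul_inner x x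
  have h3 := Complex.reCLM.hasSum h
  convert h3 using 1
  · ext n
    rw [← inner_conj_symm x (b n), Complex.reCLM_apply, mul_comm,
      Complex.mul_conj, Complex.ofReal_re, Complex.normSq_eq_norm_sq]
  · rw [inner_self_eq_norm_sq_to_K, Complex.reCLM_apply]
    norm_cast

theorem hs_bound (b : HilbertBasis ℕ ℂ H) (X : H →L[ℂ] H) {s : ℝ}
    (hX : HasSum (fun i => ‖X (b i)‖ ^ 2) s) (f : H) : ‖X f‖ ^ 2 ≤ s * ‖f‖ ^ 2 := by
  have h1 : HasSum (fun i => ⟪b i, f⟫_ℂ • b i) f := by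
    have := b.hasSum_repr f
    simpa only [b.repr_apply_apply] using this
  have h2 := X.hasSum h1
  have h3 : Filter.Tendsto (fun t : Finset ℕ => ‖∑ i ∈ t, X (⟪b i, f⟫_ℂ • b i)‖ ^ 2) Filter.atTop
      (nhds (‖X f‖ ^ 2)) := by
    have h4 : Filter.Tendsto (fun t : Finset ℕ => ∑ i ∈ t, X (⟪b i, f⟫_ℂ • b i)) Filter.atTop
      (nhds (X f)) := h2
    exact (h4.norm).pow 2
  refine le_of_tendsto' h3 fun t => ?_
  simp only [map_smul]
  have h5 : ‖∑ i ∈ t, ⟪b i, f⟫_ℂ • X (b i)‖ ≤ ∑ i ∈ t, ‖⟪b i, f⟫_ℂ‖ * ‖X (b i)‖ := by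
    refine (norm_sum_le _ _).trans (Finset.sum_le_sum fun i _ => ?_)
    rw [norm_smul]
  have h6 : (∑ i ∈ t, ‖⟪b i, f⟫_ℂ‖ * ‖X (b i)‖) ^ 2 ≤
      (∑ i ∈ t, ‖⟪b i, f⟫_ℂ‖ ^ 2) * ∑ i ∈ t, ‖X (b i)‖ ^ 2 :=
    Finset.sum_mul_sq_le_sq_mul_sq _ _ _
  have h7 : ∑ i ∈ t, ‖⟪b i, f⟫_ℂ‖ ^ 2 ≤ ‖f‖ ^ 2 :=
    sum_le_hasSum t (fun i _ => by positivity) (parseval b f)
  have h8 : ∑ i ∈ t, ‖X (b i)‖ ^ 2 ≤ s := sum_le_hasSum t (fun i _ => by positivity) hX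
  have h9 : 0 ≤ ∑ i ∈ t, ‖X (b i)‖ ^ 2 := Finset.sum_nonneg fun i _ => by positivity
  calc ‖∑ i ∈ t, ⟪b i, f⟫_ℂ • X (b i)‖ ^ 2 ≤ (∑ i ∈ t, ‖⟪b i, f⟫_ℂ‖ * ‖X (b i)‖) ^ 2 := by gcongr
    _ ≤ _ := h6
    _ ≤ ‖f‖ ^ 2 * s := by gcongr
    _ = _ := by ring

theorem build (b : HilbertBasis ℕ ℂ H) (X : ℕ → H →L[ℂ] H) (sx : ℕ → ℝ)
    (hX : ∀ k, HasSum (fun i => ‖X k (b i)‖ ^ 2) (sx k)) (hsx : Summable sx) :
    ∃ X' : H →L[ℂ] H, (∀ f k i, ⟪b (Nat.pair k i), X' f⟫_ℂ = ⟪b i, X k f⟫_ℂ) ∧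
      (∀ f, HasSum (fun k => ‖X k f‖ ^ 2) (‖X' f‖ ^ 2)) := by
  obtain ⟨D, hD⟩ : ∃ D : H → ℕ → ℂ, ∀ f n, D f n = ⟪b n.unpair.2, X n.unpair.1 f⟫_ℂ :=
    ⟨_, fun _ _ => rfl⟩
  have hsumk : ∀ f, Summable (fun k => ‖X k f‖ ^ 2) := fun f =>
    Summable.of_nonneg_of_le (fun k => by positivity) (fun k => hs_bound b (X k) (hX k) f)
      (hsx.mul_right _)
  have hpair : ∀ f, Summable (fun p : ℕ × ℕ => ‖⟪b p.2, X p.1 f⟫_ℂ‖ ^ 2) := by
    intro f
    rw [summable_prod_of_nonneg (fun p => by positivity)]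
    refine ⟨fun k => (parseval b (X k f)).summable, ?_⟩
    simp only [fun k => (parseval b (X k f)).tsum_eq]
    exact hsumk f
  have hsD : ∀ f, Summable (fun n => ‖D f n‖ ^ 2) := by
    intro f
    have h := (Nat.pairEquiv.symm.summable_iff).2 (hpair f)
    refine h.congr fun n => ?_
    rw [hD]
    rfl
  have hmem : ∀ f, Memℓp (D f) 2 := by
    intro f
    refine memℓp_gen ?_
    simpa using hsD f
  let L : H →ₗ[ℂ] H :=
    { toFun := fun f => b.repr.symm ⟨D f, hmem f⟩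
      map_add' := fun f g => by
        rw [← map_add]
        congr 1
        ext n
        show D (f + g) n = D f n + D g n
        rw [hD, hD, hD, map_add, inner_add_right]
      map_smul' := fun c f => by
        rw [RingHom.id_apply, ← map_smul]
        congr 1
        ext n
        show D (c • f) n = c * D f n
        rw [hD, hD, map_smul, inner_smul_right] }
  have hL : ∀ f n, ⟪b n, L f⟫_ℂ = D f n := by
    intro f n
    rw [← b.repr_apply_apply]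
    show b.repr (b.repr.symm ⟨D f, hmem f⟩) n = D f n
    rw [LinearIsometryEquiv.apply_symm_apply]
  have hLp : ∀ f k i, ⟪b (Nat.pair k i), L f⟫_ℂ = ⟪b i, X k f⟫_ℂ := by
    intro f k i
    rw [hL, hD, Nat.unpair_pair]
  have hnorm : ∀ f, HasSum (fun k => ‖X k f‖ ^ 2) (‖L f‖ ^ 2) := by
    intro f
    have h1 := (Nat.pairEquiv.hasSum_iff).2 (parseval b (L f))
    refine h1.prod_fiberwise fun k => ?_
    have h2 := parseval b (X k f)
    refine h2.congr_fun fun i => ?_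
    rw [Function.comp_apply]
    show ‖⟪b (Nat.pair k i), L f⟫_ℂ‖ ^ 2 = _
    rw [hLp]
  have hbd : ∀ f, ‖L f‖ ≤ Real.sqrt (∑' k, sx k) * ‖f‖ := by
    intro f
    have h1 : ‖L f‖ ^ 2 ≤ (∑' k, sx k) * ‖f‖ ^ 2 := by
      rw [← tsum_mul_right, ← (hnorm f).tsum_eq]
      exact (hnorm f).summable.tsum_le_tsum (fun k => hs_bound b (X k) (hX k) f)
        (hsx.mul_right _)
    have h0 : 0 ≤ ∑' k, sx k := tsum_nonneg fun k => (hX k).nonneg fun i => by positivity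
    rw [← sq_le_sq₀ (norm_nonneg _) (by positivity), mul_pow, Real.sq_sqrt h0]
    exact h1
  exact ⟨L.mkContinuous _ hbd, hLp, hnorm⟩

end aux

/-- countable sums of products of Hilbert-Schmidt operators are products of two Hilbert-Schmidt operators -/
theorem hs_sum {H : Type} [NormedAddCommGroup H] [InnerProductSpace ℂ H] [CompleteSpace H]
    (b : HilbertBasis ℕ ℂ H) (X Y : ℕ → H →L[ℂ] H) (sx sy : ℕ → ℝ)
    (hX : ∀ k, HasSum (fun i => ‖X k (b i)‖ ^ 2) (sx k)) (hY : ∀ k, HasSum (fun i => ‖Y k (b i)‖ ^ 2) (sy k))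
    (hsx : Summable sx) (hsy : Summable sy) (T : H →L[ℂ] H)
    (hT : ∀ f : H, HasSum (fun k => (ContinuousLinearMap.adjoint (X k)) (Y k f)) (T f)) :
    ∃ X' Y' : H →L[ℂ] H, Summable (fun i => ‖X' (b i)‖ ^ 2) ∧ Summable (fun i => ‖Y' (b i)‖ ^ 2) ∧
      T = (ContinuousLinearMap.adjoint X').comp Y' := by
  obtain ⟨X', hX1, hX2⟩ := build b X sx hX hsx
  obtain ⟨Y', hY1, hY2⟩ := build b Y sy hY hsy
  have hsum : ∀ (Z : ℕ → H →L[ℂ] H) (Z' : H →L[ℂ] H) (sz : ℕ → ℝ),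
      (∀ k, HasSum (fun i => ‖Z k (b i)‖ ^ 2) (sz k)) → Summable sz →
      (∀ f, HasSum (fun k => ‖Z k f‖ ^ 2) (‖Z' f‖ ^ 2)) → Summable (fun i => ‖Z' (b i)‖ ^ 2) := by
    intro Z Z' sz hZ hsz hZ2
    have h1 : Summable (fun p : ℕ × ℕ => ‖Z p.1 (b p.2)‖ ^ 2) := by
      rw [summable_prod_of_nonneg (fun p => by positivity)]
      refine ⟨fun k => (hZ k).summable, ?_⟩
      simp only [fun k => (hZ k).tsum_eq]
      exact hsz
    have h2 := h1.prod_symm.prod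
    refine h2.congr fun i => ?_
    exact (hZ2 (b i)).tsum_eq
  refine ⟨X', Y', hsum X X' sx hX hsx hX2, hsum Y Y' sy hY hsy hY2, ?_⟩
  ext g
  refine ext_inner_left ℂ fun f => ?_
  rw [ContinuousLinearMap.comp_apply, ContinuousLinearMap.adjoint_inner_right]
  have h1 := (Nat.pairEquiv.hasSum_iff).2 (b.hasSum_inner_mul_inner (X' f) (Y' g))
  have h2 : HasSum (fun k => ⟪X k f, Y k g⟫_ℂ) ⟪X' f, Y' g⟫_ℂ := by
    refine h1.prod_fiberwise fun k => ?_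
    have h3 := b.hasSum_inner_mul_inner (X k f) (Y k g)
    refine h3.congr_fun fun i => ?_
    rw [Function.comp_apply]
    show ⟪X' f, b (Nat.pair k i)⟫_ℂ * ⟪b (Nat.pair k i), Y' g⟫_ℂ = _
    rw [hY1, ← inner_conj_symm, hX1, inner_conj_symm]
  have h4 : HasSum (fun k => ⟪X k f, Y k g⟫_ℂ) ⟪f, T g⟫_ℂ := by
    have h5 := (innerSL ℂ f).hasSum (hT g)
    refine h5.congr_fun fun k => ?_
    rw [innerSL_apply_apply, ContinuousLinearMap.adjoint_inner_right]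
  exact h4.unique h2

end Pool.Agent.Helper209.PL.N1a
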