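import Pool.Agent.Helper209.PL.Defs
import Pool.Agent.Helper209.PL.NDefs

set_option autoImplicit false

namespace Pool.Agent.Helper209.PL.N1b

open MeasureTheory Set
open scoped SchwartzMap InnerProductSpace FourierTransform


theorem j5847_conv {f : ℕ → ℝ} (hf : ∀ i, 0 ≤ f i) {s : ℝ} (h : HasSum f s) :
    ∑' i, ENNReal.ofReal (f i) = ENNReal.ofReal s := by
  rw [← ENNReal.ofReal_tsum_of_nonneg hf h.summable, h.tsum_eq]

theorem j5847_conv' {f : ℕ → ℝ} (hf : ∀ i, 0 ≤ f i) {s : ℝ} (hs : 0 ≤ s)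
    (h : ∑' i, ENNReal.ofReal (f i) = ENNReal.ofReal s) : HasSum f s := by
  have h1 : ∑' i, ENNReal.ofReal (f i) ≠ ⊤ := by rw [h]; exact ENNReal.ofReal_ne_top
  have h2 : Summable f := by
    have h3 := ENNReal.summable_toReal h1
    have e : (fun i => (ENNReal.ofReal (f i)).toReal) = f := by
      funext i
      exact ENNReal.toReal_ofReal (hf i)
    rwa [e] at h3
  have h4 : ENNReal.ofReal (∑' i, f i) = ENNReal.ofReal s := by
    rw [ENNReal.ofReal_tsum_of_nonneg hf h2, h]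
  have h5 : ∑' i, f i = s := (ENNReal.ofReal_eq_ofReal_iff (tsum_nonneg hf) hs).mp h4
  rw [← h5]
  exact h2.hasSum

theorem j5847_parseval {H : Type} [NormedAddCommGroup H] [InnerProductSpace ℂ H] [CompleteSpace H]
    (b : HilbertBasis ℕ ℂ H) (v : H) :
    ENNReal.ofReal (‖v‖ ^ 2) = ∑' j, ENNReal.ofReal (‖⟪b j, v⟫_ℂ‖ ^ 2) := by
  symm
  apply j5847_conv (fun j => by positivity)
  have h := b.hasSum_inner_mul_inner v v
  have h1 := Complex.hasSum_re h
  have e1 : (⟪v, v⟫_ℂ).re = ‖v‖ ^ 2 := by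
    have := inner_self_eq_norm_sq (𝕜 := ℂ) v
    simpa using this
  have e2 : (fun i => (⟪v, b i⟫_ℂ * ⟪b i, v⟫_ℂ).re) = fun i => ‖⟪b i, v⟫_ℂ‖ ^ 2 := by
    funext i
    rw [← inner_conj_symm v (b i), mul_comm, Complex.mul_conj, Complex.ofReal_re,
      Complex.normSq_eq_norm_sq]
  rw [e1, e2] at h1
  exact h1

theorem j5847_swap {H : Type} [NormedAddCommGroup H] [InnerProductSpace ℂ H] [CompleteSpace H]
    (b b' : HilbertBasis ℕ ℂ H) (X : H →L[ℂ] H) :
    ∑' i, ENNReal.ofReal (‖X (b i)‖ ^ 2)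
      = ∑' j, ENNReal.ofReal (‖ContinuousLinearMap.adjoint X (b' j)‖ ^ 2) := by
  have h1 : ∀ i, ENNReal.ofReal (‖X (b i)‖ ^ 2) = ∑' j, ENNReal.ofReal (‖⟪b' j, X (b i)⟫_ℂ‖ ^ 2) :=
    fun i => j5847_parseval b' (X (b i))
  have h2 : ∀ j, ENNReal.ofReal (‖ContinuousLinearMap.adjoint X (b' j)‖ ^ 2)
      = ∑' i, ENNReal.ofReal (‖⟪b' j, X (b i)⟫_ℂ‖ ^ 2) := by
    intro j
    rw [j5847_parseval b]
    refine tsum_congr fun i => ?_
    rw [ContinuousLinearMap.adjoint_inner_right, norm_inner_symm]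
  rw [tsum_congr h1, tsum_congr h2, ENNReal.tsum_comm]

theorem j5847_left {H : Type} [NormedAddCommGroup H] [InnerProductSpace ℂ H] [CompleteSpace H]
    (b : HilbertBasis ℕ ℂ H) (X A : H →L[ℂ] H) (s : ℝ) (hX : HasSum (fun i => ‖X (b i)‖ ^ 2) s) :
    ∃ s' : ℝ, s' ≤ ‖A‖ ^ 2 * s ∧ HasSum (fun i => ‖A (X (b i))‖ ^ 2) s' := by
  have hle : ∀ i, ‖A (X (b i))‖ ^ 2 ≤ ‖A‖ ^ 2 * ‖X (b i)‖ ^ 2 := by
    intro i
    rw [← mul_pow]
    exact pow_le_pow_left₀ (norm_nonneg _) (A.le_opNorm _) 2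
  have h1 := hX.mul_left (‖A‖ ^ 2)
  have h2 : Summable (fun i => ‖A (X (b i))‖ ^ 2) :=
    Summable.of_nonneg_of_le (fun i => by positivity) hle h1.summable
  exact ⟨_, hasSum_le hle h2.hasSum h1, h2.hasSum⟩

/-- the Hilbert-Schmidt property and norm do not depend on the basis; ideal property -/
theorem hs_indep {H : Type} [NormedAddCommGroup H] [InnerProductSpace ℂ H] [CompleteSpace H]
    (b b' : HilbertBasis ℕ ℂ H) (X A : H →L[ℂ] H) (s : ℝ) (hX : HasSum (fun i => ‖X (b i)‖ ^ 2) s) :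
    HasSum (fun i => ‖X (b' i)‖ ^ 2) s ∧ HasSum (fun i => ‖ContinuousLinearMap.adjoint X (b i)‖ ^ 2) s ∧
    (∃ s' : ℝ, s' ≤ ‖A‖ ^ 2 * s ∧ HasSum (fun i => ‖A (X (b i))‖ ^ 2) s') ∧
    (∃ s' : ℝ, s' ≤ ‖A‖ ^ 2 * s ∧ HasSum (fun i => ‖X (A (b i))‖ ^ 2) s') := by
  have hs : 0 ≤ s := hX.nonneg (fun i => by positivity)
  have h0 := j5847_conv (fun i => by positivity) hX
  have hadj : ∀ c : HilbertBasis ℕ ℂ H,
      HasSum (fun i => ‖ContinuousLinearMap.adjoint X (c i)‖ ^ 2) s := fun c =>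
    j5847_conv' (fun i => by positivity) hs (by rw [← j5847_swap b c X]; exact h0)
  refine ⟨?_, hadj b, j5847_left b X A s hX, ?_⟩
  · apply j5847_conv' (fun i => by positivity) hs
    rw [j5847_swap b' b X, ← j5847_swap b b X]
    exact h0
  · rcases j5847_left b (ContinuousLinearMap.adjoint X) (ContinuousLinearMap.adjoint A) s (hadj b) with
      ⟨s', hs', h⟩
    refine ⟨s', ?_, ?_⟩
    · rw [LinearIsometryEquiv.norm_map] at hs'
      exact hs'
    · have h1 := j5847_conv (fun i => by positivity) h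
      have hs0 : 0 ≤ s' := h.nonneg (fun i => by positivity)
      apply j5847_conv' (fun i => by positivity) hs0
      have h2 := j5847_swap b b (X ∘L A)
      rw [ContinuousLinearMap.adjoint_comp] at h2
      simp only [ContinuousLinearMap.comp_apply] at h2
      rw [h2]
      exact h1

end Pool.Agent.Helper209.PL.N1b
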