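import Pool.Agent.Helper209.PL.Defs
import Pool.Agent.Helper209.PL.NDefs

set_option autoImplicit false

namespace Pool.Agent.Helper209.PL.N2

open MeasureTheory Set
open scoped SchwartzMap InnerProductSpace FourierTransform




theorem nuc_self {H : Type} [NormedAddCommGroup H] [InnerProductSpace ℂ H] [CompleteSpace H]
    (D : H →L[ℂ] H) : ∃ N : ℝ, Nuc D D N := by
  refine ⟨‖(1 : H →L[ℂ] H)‖ * ‖(1 : H →L[ℂ] H)‖, fun k => if k = 0 then 1 else 0, fun k => if k = 0 then 1 else 0,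
    fun k => if k = 0 then ‖(1 : H →L[ℂ] H)‖ * ‖(1 : H →L[ℂ] H)‖ else 0, ?_, ?_, ?_⟩
  · intro k
    by_cases hk : k = 0
    · simp only [hk, if_true]; exact le_refl _
    · simp [hk]
  · have := hasSum_single (f := fun k : ℕ => if k = 0 then ‖(1 : H →L[ℂ] H)‖ * ‖(1 : H →L[ℂ] H)‖ else 0) 0
      (fun k hk => by simp only [hk, if_false])
    simpa only [if_true] using this
  · have := hasSum_single (f := fun k : ℕ => (if k = 0 then (1 : H →L[ℂ] H) else 0).comp
      (D.comp (if k = 0 then (1 : H →L[ℂ] H) else 0))) 0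
      (fun k hk => by simp only [hk, if_false]; ext x; simp)
    have h2 : (if (0:ℕ) = 0 then (1 : H →L[ℂ] H) else 0).comp
      (D.comp (if (0:ℕ) = 0 then (1 : H →L[ℂ] H) else 0)) = D := by
      simp only [if_true]; ext x; simp
    rw [h2] at this
    exact this

theorem nuc_mul {H : Type} [NormedAddCommGroup H] [InnerProductSpace ℂ H] [CompleteSpace H]
    (D T P Q : H →L[ℂ] H) (N : ℝ) (h : Nuc D T N) : Nuc D (P.comp (T.comp Q)) (‖P‖ * ‖Q‖ * N) := by
  obtain ⟨A, B, s, h1, h2, h3⟩ := h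
  refine ⟨fun k => P.comp (A k), fun k => (B k).comp Q, fun k => ‖P‖ * ‖Q‖ * s k, ?_, h2.mul_left _, ?_⟩
  · intro k
    calc ‖P.comp (A k)‖ * ‖(B k).comp Q‖ ≤ (‖P‖ * ‖A k‖) * (‖B k‖ * ‖Q‖) :=
          mul_le_mul (ContinuousLinearMap.opNorm_comp_le _ _) (ContinuousLinearMap.opNorm_comp_le _ _)
            (norm_nonneg _) (by positivity)
      _ = ‖P‖ * ‖Q‖ * (‖A k‖ * ‖B k‖) := by ring
      _ ≤ ‖P‖ * ‖Q‖ * s k := mul_le_mul_of_nonneg_left (h1 k) (by positivity)
  · exact (h3.mul_right Q).mul_left P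

theorem nuc_sum {H : Type} [NormedAddCommGroup H] [InnerProductSpace ℂ H] [CompleteSpace H]
    {ι : Type} [Countable ι] (D T : H →L[ℂ] H) (S : ι → H →L[ℂ] H) (N : ι → ℝ) (N0 : ℝ) (h : ∀ k, Nuc D (S k) (N k))
    (hN : HasSum N N0) (hS : HasSum S T) : Nuc D T N0 := by
  choose A B s h1 h2 h3 using h
  obtain ⟨e, he⟩ := Countable.exists_injective_nat (ι × ℕ)
  have hs0 : ∀ i k, 0 ≤ s i k := fun i k => le_trans (by positivity) (h1 i k)
  have hsum : Summable (fun p : ι × ℕ => s p.1 p.2) := by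
    rw [summable_prod_of_nonneg (fun p => hs0 p.1 p.2)]
    refine ⟨fun i => (h2 i).summable, ?_⟩
    have : (fun i => ∑' k, s i k) = N := funext fun i => (h2 i).tsum_eq
    simp only [this]
    exact hN.summable
  have hsN : HasSum (fun p : ι × ℕ => s p.1 p.2) N0 := by
    have h4 := hsum.hasSum
    have h5 := h4.prod_fiberwise (fun i => h2 i)
    rw [h5.unique hN] at h4
    exact h4
  have hopS : Summable (fun p : ι × ℕ => (A p.1 p.2).comp (D.comp (B p.1 p.2))) := by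
    refine Summable.of_norm_bounded (g := fun p : ι × ℕ => ‖D‖ * s p.1 p.2) (hsum.mul_left _) ?_
    intro p
    calc ‖(A p.1 p.2).comp (D.comp (B p.1 p.2))‖ ≤ ‖A p.1 p.2‖ * (‖D‖ * ‖B p.1 p.2‖) :=
          (ContinuousLinearMap.opNorm_comp_le _ _).trans
            (mul_le_mul_of_nonneg_left (ContinuousLinearMap.opNorm_comp_le _ _) (norm_nonneg _))
      _ = ‖D‖ * (‖A p.1 p.2‖ * ‖B p.1 p.2‖) := by ring
      _ ≤ ‖D‖ * s p.1 p.2 := mul_le_mul_of_nonneg_left (h1 _ _) (norm_nonneg _)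
  have hop : HasSum (fun p : ι × ℕ => (A p.1 p.2).comp (D.comp (B p.1 p.2))) T := by
    have h4 := hopS.hasSum
    have h5 := h4.prod_fiberwise (fun i => h3 i)
    rw [h5.unique hS] at h4
    exact h4
  refine ⟨Function.extend e (fun p => A p.1 p.2) 0, Function.extend e (fun p => B p.1 p.2) 0,
    Function.extend e (fun p => s p.1 p.2) 0, ?_, (hasSum_extend_zero he).2 hsN, ?_⟩
  · intro n
    by_cases hn : ∃ p, e p = n
    · obtain ⟨p, rfl⟩ := hn
      rw [he.extend_apply, he.extend_apply, he.extend_apply]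
      exact h1 _ _
    · rw [Function.extend_apply' _ _ _ hn, Function.extend_apply' _ _ _ hn, Function.extend_apply' _ _ _ hn]
      simp
  · have h6 : (fun k => (Function.extend e (fun p => A p.1 p.2) 0 k).comp
        (D.comp (Function.extend e (fun p => B p.1 p.2) 0 k)))
        = Function.extend e (fun p : ι × ℕ => (A p.1 p.2).comp (D.comp (B p.1 p.2))) 0 := by
      funext n
      by_cases hn : ∃ p, e p = n
      · obtain ⟨p, rfl⟩ := hn
        rw [he.extend_apply, he.extend_apply, he.extend_apply]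
      · rw [Function.extend_apply' _ _ _ hn, Function.extend_apply' _ _ _ hn, Function.extend_apply' _ _ _ hn]
        ext x
        simp
    rw [h6]
    exact (hasSum_extend_zero he).2 hop

theorem nuc_nonneg {H : Type} [NormedAddCommGroup H] [InnerProductSpace ℂ H] [CompleteSpace H]
    (D T : H →L[ℂ] H) (N : ℝ) (h : Nuc D T N) : 0 ≤ N := by
  obtain ⟨A, B, s, h1, h2, h3⟩ := h
  exact h2.nonneg (fun k => le_trans (by positivity) (h1 k))

theorem nuc_mono {H : Type} [NormedAddCommGroup H] [InnerProductSpace ℂ H] [CompleteSpace H]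
    (D T : H →L[ℂ] H) (N N' : ℝ) (h : Nuc D T N) (hN : N ≤ N') : Nuc D T N' := by
  obtain ⟨A, B, s, h1, h2, h3⟩ := h
  refine ⟨A, B, fun k => s k + (if k = 0 then N' - N else 0), ?_, ?_, h3⟩
  · intro k
    refine (h1 k).trans ?_
    show s k ≤ s k + (if k = 0 then N' - N else 0)
    split_ifs
    · linarith
    · linarith
  · have h4 : HasSum (fun k : ℕ => if k = 0 then N' - N else 0) (N' - N) := by
      have := hasSum_single (f := fun k : ℕ => if k = 0 then N' - N else 0) 0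
        (fun k hk => by simp only [hk, if_false])
      simpa only [if_true] using this
    have h5 := h2.add h4
    rwa [show N + (N' - N) = N' by ring] at h5

theorem nuc_zero {H : Type} [NormedAddCommGroup H] [InnerProductSpace ℂ H] [CompleteSpace H]
    (D : H →L[ℂ] H) : Nuc D 0 0 := by
  refine ⟨fun _ => 0, fun _ => 0, fun _ => 0, by simp, hasSum_zero, ?_⟩
  have : (fun _ : ℕ => (0 : H →L[ℂ] H).comp (D.comp (0 : H →L[ℂ] H))) = fun _ => 0 := by
    funext n; ext x; simp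
  rw [this]
  exact hasSum_zero

theorem nuc_add {H : Type} [NormedAddCommGroup H] [InnerProductSpace ℂ H] [CompleteSpace H]
    (D T T' : H →L[ℂ] H) (N N' : ℝ) (h : Nuc D T N) (h' : Nuc D T' N') : Nuc D (T + T') (N + N') := by
  have h1 : HasSum (fun b : Bool => if b then N else N') (N + N') := by
    have := hasSum_fintype (fun b : Bool => if b then N else N')
    simpa using this
  have h2 : HasSum (fun b : Bool => if b then T else T') (T + T') := by
    have := hasSum_fintype (fun b : Bool => if b then T else T')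
    simpa using this
  refine nuc_sum D (T + T') (fun b : Bool => if b then T else T') (fun b : Bool => if b then N else N') (N + N') ?_ h1 h2
  intro b
  cases b
  · simpa using h'
  · simpa using h

theorem nuc_pow_gen {H : Type} [NormedAddCommGroup H] [InnerProductSpace ℂ H] [CompleteSpace H]
    (D U U0 : H →L[ℂ] H) (a : ℝ) (ha : 1 ≤ a) (hU : ‖U‖ ≤ a) (hU0 : ‖U0‖ ≤ a) (N : ℝ) (hN : 0 ≤ N)
    (h : Nuc D (U - U0) N) (k : ℕ) :
    Nuc D (U ^ k - U0 ^ k) (k * a ^ k * N) := by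
  have hone : ‖(1 : H →L[ℂ] H)‖ ≤ 1 := ContinuousLinearMap.norm_id_le
  have hpow : ∀ k : ℕ, ‖U0 ^ k‖ ≤ a ^ k := by
    intro k
    induction k with
    | zero => simpa using hone
    | succ k ih =>
      rw [pow_succ, pow_succ]
      exact (norm_mul_le _ _).trans (mul_le_mul ih hU0 (norm_nonneg _) (by positivity))
  induction k with
  | zero => simpa using nuc_zero D
  | succ k ih =>
    have h1 := nuc_mul D _ U 1 _ ih
    have h2 := nuc_mul D _ 1 (U0 ^ k) _ h
    have h3 := nuc_add D _ _ _ _ h1 h2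
    have h4 : U.comp ((U ^ k - U0 ^ k).comp (1 : H →L[ℂ] H)) + (1 : H →L[ℂ] H).comp ((U - U0).comp (U0 ^ k))
        = U ^ (k + 1) - U0 ^ (k + 1) := by
      change U * ((U ^ k - U0 ^ k) * 1) + 1 * ((U - U0) * U0 ^ k) = _
      rw [pow_succ', pow_succ']
      noncomm_ring
    rw [h4] at h3
    refine nuc_mono _ _ _ _ h3 ?_
    have e1 : ‖U‖ * ‖(1 : H →L[ℂ] H)‖ * (k * a ^ k * N) ≤ a * 1 * (k * a ^ k * N) := by
      apply mul_le_mul_of_nonneg_right _ (by positivity)
      exact mul_le_mul hU hone (norm_nonneg _) (by positivity)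
    have e2 : ‖(1 : H →L[ℂ] H)‖ * ‖U0 ^ k‖ * N ≤ 1 * a ^ k * N := by
      apply mul_le_mul_of_nonneg_right _ hN
      exact mul_le_mul hone (hpow k) (norm_nonneg _) (by positivity)
    have e3 : 1 * a ^ k * N ≤ a ^ (k + 1) * N := by
      apply mul_le_mul_of_nonneg_right _ hN
      rw [one_mul]
      exact pow_le_pow_right₀ ha (by omega)
    push_cast
    rw [pow_succ] at e3 ⊢
    nlinarith [e1, e2, e3]

/-- differences of exponentials -/
theorem nuc_exp {H : Type} [NormedAddCommGroup H] [InnerProductSpace ℂ H] [CompleteSpace H]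
    (R R0 : H →L[ℂ] H) (z : ℂ) :
    ∃ N : ℝ, Nuc (R - R0) (NormedSpace.exp (z • R) - NormedSpace.exp (z • R0)) N := by
  obtain ⟨N0, h0⟩ := nuc_self (R - R0)
  have hone : ‖(1 : H →L[ℂ] H)‖ ≤ 1 := ContinuousLinearMap.norm_id_le
  have h1 := nuc_mul (R - R0) _ (z • (1 : H →L[ℂ] H)) 1 _ h0
  set N1 : ℝ := ‖z • (1 : H →L[ℂ] H)‖ * ‖(1 : H →L[ℂ] H)‖ * N0 with hN1
  have hN1' : 0 ≤ N1 := nuc_nonneg _ _ _ h1
  have h2 : (z • (1 : H →L[ℂ] H)).comp ((R - R0).comp (1 : H →L[ℂ] H)) = z • R - z • R0 := by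
    ext x; simp [smul_sub]
  rw [h2] at h1
  set a : ℝ := max 1 (max ‖z • R‖ ‖z • R0‖) with ha
  have ha1 : 1 ≤ a := le_max_left _ _
  have ha2 : ‖z • R‖ ≤ a := (le_max_left _ _).trans (le_max_right _ _)
  have ha3 : ‖z • R0‖ ≤ a := (le_max_right _ _).trans (le_max_right _ _)
  have h3 := nuc_pow_gen (R - R0) (z • R) (z • R0) a ha1 ha2 ha3 N1 hN1' h1
  have h4 : HasSum (fun n : ℕ => ((n.factorial : ℂ)⁻¹) • (z • R) ^ n - ((n.factorial : ℂ)⁻¹) • (z • R0) ^ n)
      (NormedSpace.exp (z • R) - NormedSpace.exp (z • R0)) :=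
    (NormedSpace.exp_series_hasSum_exp' (𝕂 := ℂ) (z • R)).sub (NormedSpace.exp_series_hasSum_exp' (𝕂 := ℂ) (z • R0))
  have h5 : Summable (fun n : ℕ => (2 * a) ^ n / (n.factorial : ℝ) * N1) :=
    (Real.summable_pow_div_factorial (2 * a)).mul_right N1
  refine ⟨_, nuc_sum (R - R0) _ _ _ _ ?_ h5.hasSum h4⟩
  intro n
  have h6 := nuc_mul (R - R0) _ (((n.factorial : ℂ)⁻¹) • (1 : H →L[ℂ] H)) 1 _ (h3 n)
  have h7 : (((n.factorial : ℂ)⁻¹) • (1 : H →L[ℂ] H)).comp (((z • R) ^ n - (z • R0) ^ n).comp (1 : H →L[ℂ] H))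
      = ((n.factorial : ℂ)⁻¹) • (z • R) ^ n - ((n.factorial : ℂ)⁻¹) • (z • R0) ^ n := by
    rw [← smul_sub]
    change (((n.factorial : ℂ)⁻¹) • (1 : H →L[ℂ] H)) * (((z • R) ^ n - (z • R0) ^ n) * 1) = _
    rw [mul_one, smul_mul_assoc, one_mul]
  rw [h7] at h6
  refine nuc_mono _ _ _ _ h6 ?_
  have e1 : ‖((n.factorial : ℂ)⁻¹) • (1 : H →L[ℂ] H)‖ ≤ (n.factorial : ℝ)⁻¹ := by
    rw [norm_smul, norm_inv, Complex.norm_natCast]
    calc (n.factorial : ℝ)⁻¹ * ‖(1 : H →L[ℂ] H)‖ ≤ (n.factorial : ℝ)⁻¹ * 1 :=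
          mul_le_mul_of_nonneg_left hone (by positivity)
      _ = _ := mul_one _
  have e2 : (n : ℝ) ≤ 2 ^ n := by
    exact_mod_cast (Nat.lt_two_pow_self (n := n)).le
  have e3 : ‖((n.factorial : ℂ)⁻¹) • (1 : H →L[ℂ] H)‖ * ‖(1 : H →L[ℂ] H)‖ ≤ (n.factorial : ℝ)⁻¹ * 1 :=
    mul_le_mul e1 hone (norm_nonneg _) (by positivity)
  calc ‖((n.factorial : ℂ)⁻¹) • (1 : H →L[ℂ] H)‖ * ‖(1 : H →L[ℂ] H)‖ * (n * a ^ n * N1)
      ≤ (n.factorial : ℝ)⁻¹ * 1 * (2 ^ n * a ^ n * N1) := by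
        apply mul_le_mul e3 _ (by positivity) (by positivity)
        apply mul_le_mul_of_nonneg_right _ hN1'
        apply mul_le_mul_of_nonneg_right e2 (by positivity)
    _ = (2 * a) ^ n / (n.factorial : ℝ) * N1 := by
        rw [mul_pow]
        field_simp

/-- differences of powers of contractions -/
theorem nuc_pow {H : Type} [NormedAddCommGroup H] [InnerProductSpace ℂ H] [CompleteSpace H]
    (D U U0 : H →L[ℂ] H) (hU : ‖U‖ ≤ 1) (hU0 : ‖U0‖ ≤ 1) (N : ℝ) (hN : 0 ≤ N) (h : Nuc D (U - U0) N) (k : ℕ) :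
    Nuc D (U ^ k - U0 ^ k) (k * N) := by
  have := nuc_pow_gen D U U0 1 le_rfl hU hU0 N hN h k
  simpa using this

end Pool.Agent.Helper209.PL.N2
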