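import Pool.Agent.Helper209.PL.Defs
import Pool.Agent.Helper209.PL.NDefs

set_option autoImplicit false

namespace Pool.Agent.Helper209.PL.N3

open MeasureTheory Set
open scoped SchwartzMap InnerProductSpace FourierTransform


/-- the function `x_+^p e^{-x}` -/
noncomputable def n3G (p : ℝ) (x : ℝ) : ℂ :=
  ((if 0 < x then x ^ p * Real.exp (-x) else 0 : ℝ) : ℂ)

theorem n3G_pos {p x : ℝ} (hx : 0 < x) : n3G p x = ((x ^ p * Real.exp (-x) : ℝ) : ℂ) := by
  unfold n3G
  rw [if_pos hx]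

theorem n3G_neg {p x : ℝ} (hx : x ≤ 0) : n3G p x = 0 := by
  unfold n3G
  rw [if_neg (not_lt.2 hx), Complex.ofReal_zero]

theorem n3G_int {p : ℝ} (hp : -1 < p) : Integrable (n3G p) := by
  have h1 : IntegrableOn (fun x : ℝ => Real.exp (-x) * x ^ ((p + 1) - 1)) (Ioi 0) :=
    Real.GammaIntegral_convergent (by linarith)
  have h2 : Integrable ((Ioi (0 : ℝ)).indicator (fun x : ℝ => Real.exp (-x) * x ^ ((p + 1) - 1))) :=
    (integrable_indicator_iff measurableSet_Ioi).2 h1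
  have h3 : n3G p = fun x => (((Ioi (0 : ℝ)).indicator
      (fun x : ℝ => Real.exp (-x) * x ^ ((p + 1) - 1)) x : ℝ) : ℂ) := by
    funext x
    by_cases hx : 0 < x
    · rw [n3G_pos hx, indicator_of_mem (mem_Ioi.2 hx), add_sub_cancel_right, mul_comm]
    · rw [n3G_neg (not_lt.1 hx), indicator_of_notMem (by simpa using hx), Complex.ofReal_zero]
  rw [h3]
  exact h2.ofReal

theorem n3G_deriv {p : ℝ} (hp : 1 < p) (x : ℝ) :
    HasDerivAt (n3G p) ((p : ℂ) * n3G (p - 1) x - n3G p x) x := by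
  have key : ∀ y : ℝ, HasDerivAt (fun z : ℝ => z ^ p * Real.exp (-z))
      (p * (y ^ (p - 1) * Real.exp (-y)) - y ^ p * Real.exp (-y)) y := by
    intro y
    have h1 := Real.hasDerivAt_rpow_const (x := y) (p := p) (Or.inr hp.le)
    have h2 : HasDerivAt (fun z : ℝ => Real.exp (-z)) (Real.exp (-y) * (-1)) y :=
      (hasDerivAt_neg y).exp
    have h3 := h1.mul h2
    convert! h3 using 1
    ring
  rcases lt_trichotomy x 0 with hx | hx | hx
  · have h1 : n3G p =ᶠ[nhds x] fun _ => (0 : ℂ) := by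
      filter_upwards [Iio_mem_nhds hx] with y hy
      exact n3G_neg (le_of_lt hy)
    rw [n3G_neg hx.le, n3G_neg hx.le, mul_zero, sub_zero]
    exact (hasDerivAt_const x (0 : ℂ)).congr_of_eventuallyEq h1
  · subst hx
    have hL : HasDerivWithinAt (n3G p) 0 (Iic 0) 0 := by
      refine (hasDerivWithinAt_const (0 : ℝ) (Iic 0) (0 : ℂ)).congr ?_ ?_
      · intro y hy
        exact n3G_neg hy
      · exact n3G_neg le_rfl
    have hR : HasDerivWithinAt (n3G p) 0 (Ici 0) 0 := by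
      have h1 := (key 0).ofReal_comp
      have h2 : ((p * ((0 : ℝ) ^ (p - 1) * Real.exp (-0)) - (0 : ℝ) ^ p * Real.exp (-0) : ℝ) : ℂ) = 0 := by
        rw [Real.zero_rpow (by linarith), Real.zero_rpow (by linarith)]
        simp
      rw [h2] at h1
      refine h1.hasDerivWithinAt.congr ?_ ?_
      · intro y hy
        rcases (mem_Ici.1 hy).lt_or_eq with h | h
        · exact n3G_pos h
        · rw [← h, n3G_neg le_rfl, Real.zero_rpow (by linarith)]
          simp
      · rw [n3G_neg le_rfl, Real.zero_rpow (by linarith)]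
        simp
    rw [n3G_neg le_rfl, n3G_neg le_rfl, mul_zero, sub_zero]
    have h3 := hL.union hR
    rwa [Iic_union_Ici, hasDerivWithinAt_univ] at h3
  · have h1 : n3G p =ᶠ[nhds x] fun y => ((y ^ p * Real.exp (-y) : ℝ) : ℂ) := by
      filter_upwards [Ioi_mem_nhds hx] with y hy
      exact n3G_pos hy
    have h2 := (key x).ofReal_comp.congr_of_eventuallyEq h1
    convert! h2 using 1
    rw [n3G_pos hx, n3G_pos hx]
    push_cast
    ring

theorem n3G_cont {p : ℝ} (hp : 1 < p) : Continuous (n3G p) :=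
  continuous_iff_continuousAt.2 fun x => (n3G_deriv hp x).continuousAt

/-- first relation -/
theorem n3G_rel {p : ℝ} (hp : 1 < p) (ξ : ℝ) :
    (1 + 2 * Real.pi * Complex.I * ξ) * 𝓕 (n3G p) ξ = (p : ℂ) * 𝓕 (n3G (p - 1)) ξ := by
  have hd : deriv (n3G p) = fun x => (p : ℂ) * n3G (p - 1) x - n3G p x :=
    funext fun x => (n3G_deriv hp x).deriv
  have i1 : Integrable (n3G p) := n3G_int (by linarith)
  have i2 : Integrable (n3G (p - 1)) := n3G_int (by linarith)
  have i3 : Integrable (fun x => (p : ℂ) * n3G (p - 1) x) := i2.const_mul _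
  have h1 := Real.fourier_deriv i1 (fun x => (n3G_deriv hp x).differentiableAt)
    (by rw [hd]; exact i3.sub i1)
  have h2 := congrFun h1 ξ
  rw [hd] at h2
  have h3 : 𝓕 (fun x => (p : ℂ) * n3G (p - 1) x - n3G p x) ξ =
      (p : ℂ) * 𝓕 (n3G (p - 1)) ξ - 𝓕 (n3G p) ξ := by
    rw [Real.fourier_real_eq, Real.fourier_real_eq, Real.fourier_real_eq]
    have h4 : ∀ v : ℝ, Real.fourierChar (-(v * ξ)) • ((p : ℂ) * n3G (p - 1) v - n3G p v) =
        (p : ℂ) * (Real.fourierChar (-(v * ξ)) • n3G (p - 1) v) -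
          Real.fourierChar (-(v * ξ)) • n3G p v := by
      intro v
      rw [smul_sub]
      simp only [Circle.smul_def, smul_eq_mul]
      ring
    simp only [h4]
    have j1 : Integrable (fun v : ℝ => Real.fourierChar (-(v * ξ)) • n3G p v) := by
      simpa [mul_comm] using (Real.fourierIntegral_convergent_iff (μ := volume) (f := n3G p) ξ).2 i1
    have j2 : Integrable (fun v : ℝ => Real.fourierChar (-(v * ξ)) • n3G (p - 1) v) := by
      simpa [mul_comm] using
        (Real.fourierIntegral_convergent_iff (μ := volume) (f := n3G (p - 1)) ξ).2 i2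
    rw [integral_sub (j2.const_mul _) j1, integral_const_mul]
  rw [h3] at h2
  rw [smul_eq_mul] at h2
  linear_combination -h2


/-- explicit modulus of the Fourier transform -/
theorem n3G_fourier {p : ℝ} (hp : 0 < p) (ξ : ℝ) :
    𝓕 (n3G p) ξ * (1 + 2 * Real.pi * Complex.I * ξ) ^ ((p + 1 : ℝ) : ℂ) = 𝓕 (n3G p) 0 := by
  have i1 : Integrable (n3G p) := n3G_int (by linarith)
  have i2 : Integrable (n3G (p + 1)) := n3G_int (by linarith)
  have hx : (fun x : ℝ => x • n3G p x) = n3G (p + 1) := by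
    funext x
    by_cases hx : 0 < x
    · rw [n3G_pos hx, n3G_pos hx, Real.rpow_add hx, Real.rpow_one, Complex.real_smul]
      push_cast
      ring
    · rw [n3G_neg (not_lt.1 hx), n3G_neg (not_lt.1 hx), smul_zero]
  have hre : ∀ w : ℝ, (1 + 2 * Real.pi * Complex.I * w : ℂ).re = 1 := by
    intro w
    simp
  have hne : ∀ w : ℝ, (1 + 2 * Real.pi * Complex.I * w : ℂ) ≠ 0 := by
    intro w h
    have := hre w
    rw [h, Complex.zero_re] at this
    exact zero_ne_one this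
  have hslit : ∀ w : ℝ, (1 + 2 * Real.pi * Complex.I * w : ℂ) ∈ Complex.slitPlane := by
    intro w
    left
    rw [hre w]
    exact one_pos
  have hder : ∀ w : ℝ, HasDerivAt (𝓕 (n3G p)) (-2 * Real.pi * Complex.I * 𝓕 (n3G (p + 1)) w) w := by
    intro w
    have h1 := Real.hasDerivAt_fourier i1 (by rw [hx]; exact i2) w
    have h2 : 𝓕 (fun x : ℝ => (-2 * Real.pi * Complex.I * x) • n3G p x) w =
        -2 * Real.pi * Complex.I * 𝓕 (n3G (p + 1)) w := by
      rw [Real.fourier_real_eq, Real.fourier_real_eq, ← integral_const_mul]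
      refine integral_congr_ae (Filter.Eventually.of_forall fun v => ?_)
      have h3 : n3G (p + 1) v = (v : ℂ) * n3G p v := by
        rw [← congrFun hx v, Complex.real_smul]
      simp only [h3, Circle.smul_def, smul_eq_mul]
      ring
    rw [h2] at h1
    exact h1
  have hrel : ∀ w : ℝ, (1 + 2 * Real.pi * Complex.I * w) * 𝓕 (n3G (p + 1)) w =
      ((p + 1 : ℝ) : ℂ) * 𝓕 (n3G p) w := by
    intro w
    have h1 := n3G_rel (p := p + 1) (by linarith) w
    rw [add_sub_cancel_right] at h1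
    exact h1
  have hpow : ∀ w : ℝ, HasDerivAt
      (fun w : ℝ => (1 + 2 * Real.pi * Complex.I * w : ℂ) ^ ((p + 1 : ℝ) : ℂ))
      (((p + 1 : ℝ) : ℂ) * (1 + 2 * Real.pi * Complex.I * w : ℂ) ^ (((p + 1 : ℝ) : ℂ) - 1) *
        (2 * Real.pi * Complex.I)) w := by
    intro w
    have h1 : HasDerivAt (fun z : ℂ => (1 + 2 * Real.pi * Complex.I * z : ℂ))
        (2 * Real.pi * Complex.I) (w : ℂ) := by
      have h2 := ((hasDerivAt_id (w : ℂ)).const_mul (2 * Real.pi * Complex.I)).const_add 1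
      simpa using h2
    exact (HasDerivAt.cpow_const (c := ((p + 1 : ℝ) : ℂ)) h1 (hslit w)).comp_ofReal
  have hW : ∀ w : ℝ, HasDerivAt (fun w : ℝ => 𝓕 (n3G p) w *
      (1 + 2 * Real.pi * Complex.I * w) ^ ((p + 1 : ℝ) : ℂ)) 0 w := by
    intro w
    have h1 := (hder w).mul (hpow w)
    convert! h1 using 1
    have h2 : (1 + 2 * Real.pi * Complex.I * w : ℂ) ^ ((p + 1 : ℝ) : ℂ) =
        (1 + 2 * Real.pi * Complex.I * w : ℂ) ^ (((p + 1 : ℝ) : ℂ) - 1) *
          (1 + 2 * Real.pi * Complex.I * w) := by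
      rw [Complex.cpow_sub _ _ (hne w), Complex.cpow_one, div_mul_cancel₀ _ (hne w)]
    rw [h2]
    linear_combination (2 * Real.pi * Complex.I *
      (1 + 2 * Real.pi * Complex.I * w : ℂ) ^ (((p + 1 : ℝ) : ℂ) - 1)) * hrel w
  have hconst := is_const_of_deriv_eq_zero (fun w => (hW w).differentiableAt)
    (fun w => (hW w).deriv) ξ 0
  simpa using hconst

theorem n3G_bound {p : ℝ} (hp : 0 < p) : ∃ C : ℝ, 0 ≤ C ∧ ∀ ξ : ℝ,
    ‖𝓕 (n3G p) ξ‖ ≤ C * (1 + |ξ|) ^ (-(p + 1)) := by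
  refine ⟨‖𝓕 (n3G p) 0‖ * 2 ^ (p + 1), by positivity, fun ξ => ?_⟩
  have h1 := congrArg norm (n3G_fourier hp ξ)
  rw [norm_mul, Complex.norm_cpow_real] at h1
  have h2 : (1 + |ξ|) / 2 ≤ ‖(1 + 2 * Real.pi * Complex.I * ξ : ℂ)‖ := by
    have h3 : (1 : ℝ) ≤ ‖(1 + 2 * Real.pi * Complex.I * ξ : ℂ)‖ := by
      have := Complex.abs_re_le_norm (1 + 2 * Real.pi * Complex.I * ξ : ℂ)
      simpa using this
    have h4 : |ξ| ≤ ‖(1 + 2 * Real.pi * Complex.I * ξ : ℂ)‖ := by
      have h5 := Complex.abs_im_le_norm (1 + 2 * Real.pi * Complex.I * ξ : ℂ)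
      have h6 : (1 + 2 * Real.pi * Complex.I * ξ : ℂ).im = 2 * Real.pi * ξ := by simp
      rw [h6, abs_mul, abs_of_pos (by positivity)] at h5
      have h7 : |ξ| ≤ 2 * Real.pi * |ξ| := by
        have := Real.pi_gt_three
        nlinarith [abs_nonneg ξ]
      linarith
    linarith
  have h8 : 0 < (1 + |ξ|) / 2 := by positivity
  have h9 : ((1 + |ξ|) / 2) ^ (p + 1) ≤ ‖(1 + 2 * Real.pi * Complex.I * ξ : ℂ)‖ ^ (p + 1) :=
    Real.rpow_le_rpow h8.le h2 (by linarith)
  have h10 : ‖𝓕 (n3G p) ξ‖ * ((1 + |ξ|) / 2) ^ (p + 1) ≤ ‖𝓕 (n3G p) 0‖ := by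
    rw [← h1]
    exact mul_le_mul_of_nonneg_left h9 (norm_nonneg _)
  rw [Real.div_rpow (by positivity) (by norm_num)] at h10
  rw [Real.rpow_neg (by positivity)]
  have h11 : 0 < (1 + |ξ|) ^ (p + 1) := by positivity
  have h12 : (0 : ℝ) < 2 ^ (p + 1) := by positivity
  rw [← div_eq_mul_inv, le_div_iff₀ h11]
  rw [mul_div_assoc', div_le_iff₀ h12] at h10
  exact h10


theorem n3_prod {p : ℝ} (hp : 0 < p) (φ : 𝓢(ℝ, ℂ)) : ∃ C : ℝ, 0 ≤ C ∧ ∀ ξ : ℝ,
    ‖𝓕 (fun x : ℝ => n3G p x * φ x) ξ‖ ≤ C * (1 + |ξ|) ^ (-(p + 1)) := by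
  obtain ⟨C, hC0, hC⟩ := n3G_bound hp
  obtain ⟨u, hu⟩ : ∃ u : 𝓢(ℝ, ℂ), 𝓕 u = φ := ⟨𝓕⁻ φ, FourierTransform.fourier_fourierInv_eq φ⟩
  obtain ⟨N, hN⟩ := exists_nat_ge (p + 1)
  -- weight integral
  have hw0 : Integrable (fun η : ℝ => ‖u η‖) := u.integrable.norm
  have hwN : Integrable (fun η : ℝ => |η| ^ N * ‖u η‖) := by
    simpa using u.integrable_pow_mul volume N
  have hw : ∀ η : ℝ, (1 + |η|) ^ (p + 1) * ‖u η‖ ≤ 2 ^ N * (‖u η‖ + |η| ^ N * ‖u η‖) := by
    intro η
    have h1 : (1 + |η|) ^ (p + 1) ≤ (1 + |η|) ^ N := by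
      rw [← Real.rpow_natCast (1 + |η|) N]
      exact Real.rpow_le_rpow_of_exponent_le (by linarith [abs_nonneg η]) hN
    have h2 : (1 + |η|) ^ N ≤ 2 ^ N * (1 + |η| ^ N) := by
      rcases le_total |η| 1 with h | h
      · have h3 : (1 + |η|) ^ N ≤ 2 ^ N := pow_le_pow_left₀ (by positivity) (by linarith) N
        have h4 : (0 : ℝ) ≤ 2 ^ N * |η| ^ N := by positivity
        linarith
      · have h3 : (1 + |η|) ^ N ≤ (2 * |η|) ^ N := pow_le_pow_left₀ (by positivity) (by linarith) N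
        rw [mul_pow] at h3
        have h4 : (0 : ℝ) ≤ 2 ^ N := by positivity
        linarith
    calc (1 + |η|) ^ (p + 1) * ‖u η‖ ≤ (2 ^ N * (1 + |η| ^ N)) * ‖u η‖ :=
          mul_le_mul_of_nonneg_right (h1.trans h2) (norm_nonneg _)
      _ = 2 ^ N * (‖u η‖ + |η| ^ N * ‖u η‖) := by ring
  have hwi : Integrable (fun η : ℝ => 2 ^ N * (‖u η‖ + |η| ^ N * ‖u η‖)) :=
    (hw0.add hwN).const_mul _
  obtain ⟨D, hD⟩ : ∃ D : ℝ, D = ∫ η : ℝ, 2 ^ N * (‖u η‖ + |η| ^ N * ‖u η‖) := ⟨_, rfl⟩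
  have hD0 : 0 ≤ D := by
    rw [hD]
    exact integral_nonneg fun η => by positivity
  refine ⟨C * D, mul_nonneg hC0 hD0, fun ξ => ?_⟩
  -- modulated function
  obtain ⟨g, hg⟩ : ∃ g : ℝ → ℂ, g = fun x : ℝ => Real.fourierChar (-(x * ξ)) • n3G p x := ⟨_, rfl⟩
  have i1 : Integrable (n3G p) := n3G_int (by linarith)
  have hgi : Integrable g := by
    rw [hg]
    simpa [mul_comm] using (Real.fourierIntegral_convergent_iff (μ := volume) (f := n3G p) ξ).2 i1
  have hgF : ∀ η : ℝ, 𝓕 g η = 𝓕 (n3G p) (η + ξ) := by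
    intro η
    rw [Real.fourier_real_eq, Real.fourier_real_eq, hg]
    refine integral_congr_ae (Filter.Eventually.of_forall fun v => ?_)
    simp only [Circle.smul_def, smul_eq_mul]
    rw [← mul_assoc, ← Circle.coe_mul, ← AddChar.map_add_eq_mul]
    congr 3
    ring
  have hflip : ∫ η : ℝ, 𝓕 g η * u η = ∫ x : ℝ, g x * φ x := by
    have h1 := VectorFourier.integral_fourierIntegral_smul_eq_flip (L := innerₗ ℝ)
      Real.continuous_fourierChar continuous_inner hgi u.integrable (μ := volume) (ν := volume)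
    rw [← hu]
    simpa [smul_eq_mul, SchwartzMap.fourier_coe] using! h1
  have hmain : 𝓕 (fun x : ℝ => n3G p x * φ x) ξ = ∫ η : ℝ, 𝓕 (n3G p) (η + ξ) * u η := by
    have h1 : ∫ η : ℝ, 𝓕 (n3G p) (η + ξ) * u η = ∫ η : ℝ, 𝓕 g η * u η := by
      simp only [hgF]
    rw [h1, hflip, Real.fourier_real_eq]
    refine integral_congr_ae (Filter.Eventually.of_forall fun v => ?_)
    simp only [hg, Circle.smul_def, smul_eq_mul]
    ring
  rw [hmain]
  have hle : ∀ η : ℝ, ‖𝓕 (n3G p) (η + ξ) * u η‖ ≤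
      (C * (1 + |ξ|) ^ (-(p + 1))) * (2 ^ N * (‖u η‖ + |η| ^ N * ‖u η‖)) := by
    intro η
    have h1 : (1 + |η + ξ|) ^ (-(p + 1)) ≤ (1 + |ξ|) ^ (-(p + 1)) * (1 + |η|) ^ (p + 1) := by
      have h2 : 1 + |ξ| ≤ (1 + |η + ξ|) * (1 + |η|) := by
        have h3 : |ξ| ≤ |η + ξ| + |η| := by
          have h4 : ξ = (η + ξ) + (-η) := by ring
          calc |ξ| = |(η + ξ) + (-η)| := by rw [← h4]
            _ ≤ |η + ξ| + |-η| := abs_add_le _ _
            _ = |η + ξ| + |η| := by rw [abs_neg]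
        nlinarith [mul_nonneg (abs_nonneg (η + ξ)) (abs_nonneg η)]
      have h5 : (1 + |ξ|) ^ (p + 1) ≤ (1 + |η + ξ|) ^ (p + 1) * (1 + |η|) ^ (p + 1) := by
        rw [← Real.mul_rpow (by positivity) (by positivity)]
        exact Real.rpow_le_rpow (by positivity) h2 (by linarith)
      rw [Real.rpow_neg (by positivity), Real.rpow_neg (by positivity)]
      have h6 : 0 < (1 + |ξ|) ^ (p + 1) := by positivity
      have h7 : 0 < (1 + |η + ξ|) ^ (p + 1) := by positivity
      rw [inv_mul_eq_div, le_div_iff₀ h6, inv_mul_eq_div, div_le_iff₀ h7]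
      linarith
    rw [norm_mul]
    calc ‖𝓕 (n3G p) (η + ξ)‖ * ‖u η‖ ≤ (C * (1 + |η + ξ|) ^ (-(p + 1))) * ‖u η‖ :=
          mul_le_mul_of_nonneg_right (hC _) (norm_nonneg _)
      _ ≤ (C * ((1 + |ξ|) ^ (-(p + 1)) * (1 + |η|) ^ (p + 1))) * ‖u η‖ :=
          mul_le_mul_of_nonneg_right (mul_le_mul_of_nonneg_left h1 hC0) (norm_nonneg _)
      _ = (C * (1 + |ξ|) ^ (-(p + 1))) * ((1 + |η|) ^ (p + 1) * ‖u η‖) := by ring
      _ ≤ _ := mul_le_mul_of_nonneg_left (hw η) (by positivity)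
  calc ‖∫ η : ℝ, 𝓕 (n3G p) (η + ξ) * u η‖
      ≤ ∫ η : ℝ, (C * (1 + |ξ|) ^ (-(p + 1))) * (2 ^ N * (‖u η‖ + |η| ^ N * ‖u η‖)) :=
        norm_integral_le_of_norm_le (hwi.const_mul _) (Filter.Eventually.of_forall hle)
    _ = C * D * (1 + |ξ|) ^ (-(p + 1)) := by
        rw [integral_const_mul, ← hD]
        ring


theorem n3_summable {γ : ℝ} (hγ : 1 < γ) {F : ℝ → ℂ} {C : ℝ} (hC : 0 ≤ C)
    (hF : ∀ ξ : ℝ, ‖F ξ‖ ≤ C * (1 + |ξ|) ^ (-(γ + 1))) :
    Summable (fun k : ℤ => (1 + |(k : ℝ)|) * ‖F k‖) := by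
  have h1 : Summable (fun k : ℤ => C * |(k : ℝ)| ^ (-γ)) :=
    (Real.summable_abs_int_rpow hγ).mul_left C
  refine Summable.of_norm_bounded_eventually h1 ?_
  have h2 : ({0} : Set ℤ)ᶜ ∈ (Filter.cofinite : Filter ℤ) := (finite_singleton 0).compl_mem_cofinite
  filter_upwards [h2] with k hk
  have hk0 : k ≠ 0 := by simpa using hk
  have hkpos : 0 < |(k : ℝ)| := by
    rw [abs_pos]
    exact_mod_cast hk0
  rw [Real.norm_of_nonneg (by positivity)]
  calc (1 + |(k : ℝ)|) * ‖F k‖ ≤ (1 + |(k : ℝ)|) * (C * (1 + |(k : ℝ)|) ^ (-(γ + 1))) :=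
        mul_le_mul_of_nonneg_left (hF _) (by positivity)
    _ = C * (1 + |(k : ℝ)|) ^ (-γ) := by
        have h3 : (1 + |(k : ℝ)|) ^ (-γ) = (1 + |(k : ℝ)|) * (1 + |(k : ℝ)|) ^ (-(γ + 1)) := by
          have h4 : (-γ : ℝ) = 1 + (-(γ + 1)) := by ring
          conv_lhs => rw [h4, Real.rpow_add (by positivity), Real.rpow_one]
        rw [h3]
        ring
    _ ≤ C * |(k : ℝ)| ^ (-γ) := by
        refine mul_le_mul_of_nonneg_left ?_ hC
        exact Real.rpow_le_rpow_of_nonpos hkpos (by linarith) (by linarith)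

/-- absolutely convergent Fourier expansion with one derivative -/
theorem fourier_expansion (γ m a : ℝ) (hγ : 1 < γ) (hm : 0 < m) (ha : 0 < a) :
    ∃ (ω : ℝ) (cf : ℤ → ℂ), Summable (fun k : ℤ => (1 + |(k : ℝ)|) * ‖cf k‖) ∧
      ∀ r : ℝ, |r| ≤ a → HasSum (fun k : ℤ => cf k * Complex.exp (((k : ℝ) * ω * r : ℝ) * Complex.I))
        (((if 0 < r then (max (m - 1 / r) 0) ^ γ else 0 : ℝ)) : ℂ) := by
  obtain ⟨T, hT⟩ : ∃ T : ℝ, T = 4 * (a + 1 / m) := ⟨_, rfl⟩
  have hm' : 0 < 1 / m := by positivity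
  have hTpos : 0 < T := by rw [hT]; positivity
  obtain ⟨xs, hxs⟩ : ∃ xs : ℝ, xs = 1 / (m * T) := ⟨_, rfl⟩
  obtain ⟨b, hb⟩ : ∃ b : ℝ, b = a / T := ⟨_, rfl⟩
  have hxs0 : 0 < xs := by rw [hxs]; positivity
  have hb0 : 0 < b := by rw [hb]; positivity
  have hsum : xs + b = 1 / 4 := by
    rw [hxs, hb]
    have h1 : (m * T) ≠ 0 := by positivity
    have h2 : T ≠ 0 := hTpos.ne'
    field_simp
    rw [hT]
    field_simp
    ring
  have hmxs : m * xs * T = 1 := by
    rw [hxs]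
    field_simp
  -- the bump function
  obtain ⟨ψ, hψI, hψO⟩ : ∃ ψ : ContDiffBump (b / 2 : ℝ), ψ.rIn = b / 2 ∧ ψ.rOut = b / 2 + xs / 2 :=
    ⟨⟨b / 2, b / 2 + xs / 2, by positivity, by linarith⟩, rfl, rfl⟩
  have hψ1 : ∀ x : ℝ, 0 ≤ x → x ≤ b → ψ x = 1 := by
    intro x h0 h1
    apply ψ.one_of_mem_closedBall
    rw [Metric.mem_closedBall, Real.dist_eq, hψI, abs_le]
    constructor <;> linarith
  have hψ0 : ∀ x : ℝ, (x ≤ -(xs / 2) ∨ b + xs / 2 ≤ x) → ψ x = 0 := by
    intro x hx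
    apply ψ.zero_of_le_dist
    rw [hψO, Real.dist_eq]
    rcases hx with h | h
    · rw [abs_of_nonpos (by linarith)]
      linarith
    · rw [abs_of_nonneg (by linarith)]
      linarith
  obtain ⟨q, hq⟩ : ∃ q : ℝ → ℝ, q = fun x => ψ x * (Real.exp x * (m / (x + xs)) ^ γ) := ⟨_, rfl⟩
  have hqs : ContDiff ℝ (⊤ : ℕ∞) q := by
    rw [contDiff_iff_contDiffAt]
    intro x
    by_cases hx : -xs < x
    · rw [hq]
      have h0 : x + xs ≠ 0 := by linarith
      have h1 : m / (x + xs) ≠ 0 := div_ne_zero hm.ne' h0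
      refine ψ.contDiff.contDiffAt.mul (Real.contDiff_exp.contDiffAt.mul ?_)
      exact (contDiffAt_const.div (contDiffAt_id.add contDiffAt_const) h0).rpow_const_of_ne h1
    · have h2 : q =ᶠ[nhds x] fun _ => (0 : ℝ) := by
        have h3 : x < -(xs / 2) := by linarith
        filter_upwards [Iio_mem_nhds h3] with y hy
        rw [hq]
        simp only
        rw [hψ0 y (Or.inl (le_of_lt hy)), zero_mul]
      exact contDiffAt_const.congr_of_eventuallyEq h2
  have hqc : HasCompactSupport q := by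
    rw [hq]
    exact ψ.hasCompactSupport.mul_right
  have hqs' : ContDiff ℝ (⊤ : ℕ∞) (fun x : ℝ => (q x : ℂ)) := Complex.ofRealCLM.contDiff.comp hqs
  have hqc' : HasCompactSupport (fun x : ℝ => (q x : ℂ)) :=
    hqc.comp_left (g := fun y : ℝ => (y : ℂ)) Complex.ofReal_zero
  obtain ⟨φ, hφ⟩ : ∃ φ : 𝓢(ℝ, ℂ), ∀ x, φ x = (q x : ℂ) := ⟨hqc'.toSchwartzMap hqs', fun x => rfl⟩
  obtain ⟨f, hf⟩ : ∃ f : ℝ → ℂ, f = fun x => n3G γ x * φ x := ⟨_, rfl⟩
  obtain ⟨C, hC0, hC⟩ := n3_prod (p := γ) (by linarith) φ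
  rw [← hf] at hC
  have hw := n3_summable hγ hC0 hC
  have hfc : Continuous f := by
    rw [hf]
    exact (n3G_cont hγ).mul φ.continuous
  have hf0 : ∀ x : ℝ, (x ≤ 0 ∨ b + xs / 2 ≤ x) → f x = 0 := by
    intro x hx
    rw [hf]
    simp only
    rcases hx with h | h
    · rw [n3G_neg h, zero_mul]
    · rw [hφ, hq]
      simp only
      rw [hψ0 x (Or.inr h), zero_mul, Complex.ofReal_zero, mul_zero]
  have hfO : f =O[Filter.cocompact ℝ] fun x : ℝ => |x| ^ (-2 : ℝ) := by
    have h1 : HasCompactSupport f := by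
      have h2 : HasCompactSupport (fun x => φ x) := by
        have h3 : (fun x => φ x) = fun x : ℝ => (q x : ℂ) := funext hφ
        rw [h3]
        exact hqc'
      rw [hf]
      exact h2.mul_left
    rw [hasCompactSupport_iff_eventuallyEq, Filter.coclosedCompact_eq_cocompact] at h1
    exact h1.trans_isBigO (Asymptotics.isBigO_zero _ _)
  have hFs : Summable (fun n : ℤ => 𝓕 f (n : ℝ)) := by
    refine Summable.of_norm (Summable.of_nonneg_of_le (fun _ => norm_nonneg _) ?_ hw)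
    intro k
    nlinarith [norm_nonneg (𝓕 f (k : ℝ)), abs_nonneg (k : ℝ),
      mul_nonneg (abs_nonneg (k : ℝ)) (norm_nonneg (𝓕 f (k : ℝ)))]
  refine ⟨2 * Real.pi / T, fun k => 𝓕 f (k : ℝ) *
    Complex.exp ((-(2 * Real.pi * k * xs) : ℝ) * Complex.I), ?_, ?_⟩
  · refine hw.congr fun k => ?_
    rw [norm_mul, Complex.norm_exp_ofReal_mul_I, mul_one]
  · intro r hr
    have hr' := abs_le.1 hr
    obtain ⟨x, hx⟩ : ∃ x : ℝ, x = r / T - xs := ⟨_, rfl⟩
    have hrx : r = T * (x + xs) := by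
      rw [hx]
      field_simp
      ring
    have hx1 : x ≤ b - xs := by
      rw [hx, hb]
      have : r / T ≤ a / T := div_le_div_of_nonneg_right hr'.2 hTpos.le
      linarith
    have hx2 : -b - xs ≤ x := by
      rw [hx, hb]
      have : (-a) / T ≤ r / T := div_le_div_of_nonneg_right hr'.1 hTpos.le
      rw [neg_div] at this
      linarith
    have hpoi := Real.tsum_eq_tsum_fourier_of_rpow_decay_of_summable hfc one_lt_two hfO hFs x
    have hlhs : ∑' n : ℤ, f (x + n) = f x := by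
      rw [tsum_eq_single 0]
      · rw [Int.cast_zero, add_zero]
      · intro n hn
        apply hf0
        rcases lt_or_gt_of_ne hn with h | h
        · left
          have : (n : ℝ) ≤ -1 := by exact_mod_cast (by omega : n ≤ -1)
          linarith
        · right
          have : (1 : ℝ) ≤ n := by exact_mod_cast (by omega : (1 : ℤ) ≤ n)
          linarith
    have hterm : ∀ k : ℤ, 𝓕 f (k : ℝ) * Complex.exp ((-(2 * Real.pi * k * xs) : ℝ) * Complex.I) *
        Complex.exp (((k : ℝ) * (2 * Real.pi / T) * r : ℝ) * Complex.I) =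
        𝓕 f (k : ℝ) * fourier k (x : UnitAddCircle) := by
      intro k
      rw [fourier_coe_apply, mul_assoc, ← Complex.exp_add]
      congr 2
      rw [hx]
      push_cast
      field_simp
      ring
    have hfx : f x = (((if 0 < r then (max (m - 1 / r) 0) ^ γ else 0 : ℝ)) : ℂ) := by
      by_cases hr0 : 0 < r
      · rw [if_pos hr0]
        by_cases hx0 : 0 < x
        · have h1 : m - 1 / r = m / (x + xs) * x := by
            rw [hrx]
            have h2 : x + xs ≠ 0 := by linarith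
            have h3 : T ≠ 0 := hTpos.ne'
            field_simp
            linear_combination hmxs
          rw [h1, max_eq_left (by positivity), Real.mul_rpow (by positivity) hx0.le, hf]
          simp only
          rw [n3G_pos hx0, hφ, hq]
          simp only
          rw [hψ1 x hx0.le (by linarith), one_mul, ← Complex.ofReal_mul]
          congr 1
          have h4 : Real.exp (-x) * Real.exp x = 1 := by
            rw [← Real.exp_add, neg_add_cancel, Real.exp_zero]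
          linear_combination (x ^ γ * (m / (x + xs)) ^ γ) * h4
        · rw [hf0 x (Or.inl (not_lt.1 hx0))]
          have h1 : m - 1 / r ≤ 0 := by
            rw [sub_nonpos, le_div_iff₀ hr0, hrx]
            have h2 : x ≤ 0 := not_lt.1 hx0
            have h3 : m * (T * (x + xs)) = m * T * x + m * xs * T := by ring
            rw [h3, hmxs]
            have : m * T * x ≤ 0 := mul_nonpos_of_nonneg_of_nonpos (by positivity) h2
            linarith
          rw [max_eq_right h1, Real.zero_rpow (by linarith), Complex.ofReal_zero]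
      · rw [if_neg hr0, hf0 x (Or.inl ?_), Complex.ofReal_zero]
        rw [hx]
        have : r / T ≤ 0 := div_nonpos_of_nonpos_of_nonneg (not_lt.1 hr0) hTpos.le
        linarith
    simp only [hterm]
    have hs : Summable (fun k : ℤ => 𝓕 f (k : ℝ) * fourier k (x : UnitAddCircle)) := by
      refine Summable.of_norm ?_
      refine Summable.of_nonneg_of_le (fun _ => norm_nonneg _) ?_ hFs.norm
      intro k
      rw [norm_mul, fourier_coe_apply]
      have h1 : ‖Complex.exp (2 * Real.pi * Complex.I * k * x / (1 : ℝ))‖ = 1 := by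
        have h2 : (2 * Real.pi * Complex.I * k * x / (1 : ℝ) : ℂ) =
            ((2 * Real.pi * k * x : ℝ) : ℂ) * Complex.I := by
          push_cast
          ring
        rw [h2, Complex.norm_exp_ofReal_mul_I]
      rw [h1, mul_one]
    have h5 := hs.hasSum
    rw [← hpoi, hlhs, hfx] at h5
    exact h5

end Pool.Agent.Helper209.PL.N3
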