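import Pool.Agent.Helper209.PL.Defs
import Pool.Agent.Helper209.PL.NDefs

set_option autoImplicit false

namespace Pool.Agent.Helper209.PL.N5

open MeasureTheory Set
open scoped SchwartzMap InnerProductSpace FourierTransform


section WDefs





end WDefs

section WStmts
/-- proved elsewhere, use as hypotheses -/
def DenseRangeStmt : Prop := ∀ (V : ℝ → ℝ), Continuous V → ∀ (b c : ℝ), (∀ x, |V x| ≤ b) → b < c →
    ∀ (f : L2R) (ε : ℝ), 0 < ε → ∃ (χ : 𝓢(ℝ, ℂ)) (w : L2R),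
      (w : ℝ → ℂ) =ᵐ[volume] (fun x => -(deriv (deriv (χ : ℝ → ℂ)) x) + ((V x + c : ℝ) : ℂ) * χ x) ∧
      ‖w - f‖ < ε

def SelfAdjStmt : Prop := ∀ (V : ℝ → ℝ), Continuous V → ∀ (b c : ℝ), (∀ x, |V x| ≤ b) → b < c →
    ∀ (R : L2R →L[ℂ] L2R), IsResolvent V c R → IsSelfAdjoint R

def ExistsMulStmt : Prop := ∀ (v : ℝ → ℝ), Continuous v → ∀ (B : ℝ), (∀ x, |v x| ≤ B) →
    ∃ M : L2R →L[ℂ] L2R, IsMul v M ∧ ‖M‖ ≤ B ∧ IsSelfAdjoint M

/-- local Hilbert-Schmidt bound -/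
def LocalHSStmt : Prop := ∀ (V : ℝ → ℝ), Continuous V → ∀ (b c : ℝ), (∀ x, |V x| ≤ b) → b < c →
    ∀ (R : L2R →L[ℂ] L2R), IsResolvent V c R → ∃ C : ℝ, ∀ (θ : ℝ → ℝ), Continuous θ → HasCompactSupport θ →
    ∀ (Θ : L2R →L[ℂ] L2R), IsMul θ Θ → ∀ (e : HilbertBasis ℕ ℂ L2R) (J : Finset ℕ),
    ∑ j ∈ J, ‖Θ (R (e j))‖ ^ 2 ≤ C * ∫ x, θ x ^ 2
end WStmts

/-- second resolvent identity -/
theorem res_identity (hD : DenseRangeStmt) (V : ℝ → ℝ) (hV : Continuous V) (hVs : HasCompactSupport V) (b c : ℝ)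
    (hb : ∀ x, |V x| ≤ b) (hbc : b < c) (R R0 M : L2R →L[ℂ] L2R) (hR : IsResolvent V c R)
    (hR0 : IsResolvent (fun _ => 0) c R0) (hM : IsMul V M) : R - R0 = -(R.comp (M.comp R0)) := by
  have hc : (0:ℝ) < c := lt_of_le_of_lt ((abs_nonneg _).trans (hb 0)) hbc
  obtain ⟨T, hT⟩ : ∃ T : L2R →L[ℂ] L2R, T = R - R0 + R.comp (M.comp R0) := ⟨_, rfl⟩
  have hTw : ∀ (χ : 𝓢(ℝ, ℂ)) (w : L2R),
      (w : ℝ → ℂ) =ᵐ[volume] (fun x => -(deriv (deriv (χ : ℝ → ℂ)) x) +
        (((fun _ => (0:ℝ)) x + c : ℝ) : ℂ) * χ x) → T w = 0 := by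
    intro χ w hw
    have h0 := hR0 χ w hw
    have h1 := hM (R0 w)
    have h2 : ((w + M (R0 w) : L2R) : ℝ → ℂ) =ᵐ[volume]
        (fun x => -(deriv (deriv (χ : ℝ → ℂ)) x) + ((V x + c : ℝ) : ℂ) * χ x) := by
      filter_upwards [Lp.coeFn_add w (M (R0 w)), hw, h0, h1] with x g1 g2 g3 g4
      rw [g1, Pi.add_apply, g2, g4, g3]
      push_cast
      ring
    have h3 := hR χ _ h2
    have h4 : R (w + M (R0 w)) = R0 w := by
      apply Lp.ext
      filter_upwards [h3, h0] with x g1 g2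
      rw [g1, g2]
    rw [hT]
    simp only [ContinuousLinearMap.add_apply, ContinuousLinearMap.sub_apply,
      ContinuousLinearMap.comp_apply]
    rw [map_add] at h4
    rw [sub_add_eq_add_sub, h4, sub_self]
  have hT0 : ∀ f, T f = 0 := by
    intro f
    by_contra hne
    have hpos : 0 < ‖T f‖ := norm_pos_iff.2 hne
    have hK : 0 < ‖T‖ + 1 := by positivity
    obtain ⟨χ, w, hw, hwf⟩ := hD (fun _ => 0) continuous_const 0 c (by simp) hc f
      (‖T f‖ / (‖T‖ + 1)) (by positivity)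
    have h1 := hTw χ w hw
    have h2 : T f = T (f - w) := by rw [map_sub, h1, sub_zero]
    have h3 : ‖T f‖ ≤ ‖T‖ * ‖f - w‖ := by rw [h2]; exact T.le_opNorm _
    rw [norm_sub_rev, lt_div_iff₀ hK] at hwf
    have h4 : 0 ≤ ‖f - w‖ := norm_nonneg _
    nlinarith
  ext1 f
  have h := hT0 f
  rw [hT] at h
  simp only [ContinuousLinearMap.add_apply, ContinuousLinearMap.sub_apply,
    ContinuousLinearMap.neg_apply] at h ⊢
  exact eq_neg_of_add_eq_zero_left h

/-- the resolvent difference is a product of two Hilbert-Schmidt operators -/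
theorem res_diff_hs (hD : DenseRangeStmt) (hSA : SelfAdjStmt) (hEM : ExistsMulStmt) (hL : LocalHSStmt)
    (V : ℝ → ℝ) (hV : Continuous V) (hVs : HasCompactSupport V) (b c : ℝ)
    (hb : ∀ x, |V x| ≤ b) (hbc : b < c) (R R0 : L2R →L[ℂ] L2R) (hR : IsResolvent V c R)
    (hR0 : IsResolvent (fun _ => 0) c R0) (e : HilbertBasis ℕ ℂ L2R) :
    ∃ X Y : L2R →L[ℂ] L2R, Summable (fun i => ‖X (e i)‖ ^ 2) ∧ Summable (fun i => ‖Y (e i)‖ ^ 2) ∧
      R - R0 = (ContinuousLinearMap.adjoint X).comp Y := by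
  have hc : (0:ℝ) < c := lt_of_le_of_lt ((abs_nonneg _).trans (hb 0)) hbc
  have htc : Continuous (fun x => √|V x|) := Real.continuous_sqrt.comp hV.abs
  have hsc : Continuous (fun x => √(V x) - √(-(V x))) :=
    (Real.continuous_sqrt.comp hV).sub (Real.continuous_sqrt.comp hV.neg)
  have hts : HasCompactSupport (fun x => √|V x|) :=
    hVs.comp_left (g := fun y : ℝ => √|y|) (by simp)
  have hss : HasCompactSupport (fun x => √(V x) - √(-(V x))) :=
    hVs.comp_left (g := fun y : ℝ => √y - √(-y)) (by simp)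
  have hprod : ∀ y : ℝ, √|y| * (√y - √(-y)) = y := by
    intro y
    rcases le_total 0 y with h | h
    · rw [abs_of_nonneg h, Real.sqrt_eq_zero_of_nonpos (by linarith : -y ≤ 0), sub_zero,
        Real.mul_self_sqrt h]
    · rw [abs_of_nonpos h, Real.sqrt_eq_zero_of_nonpos h, zero_sub, mul_neg,
        Real.mul_self_sqrt (by linarith : (0:ℝ) ≤ -y), neg_neg]
  have hbt : ∀ x, abs (√(abs (V x))) ≤ √b := by
    intro x
    rw [abs_of_nonneg (Real.sqrt_nonneg _)]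
    exact Real.sqrt_le_sqrt (hb x)
  have hbs : ∀ x, |√(V x) - √(-(V x))| ≤ √b := by
    intro x
    rcases le_total 0 (V x) with h | h
    · rw [Real.sqrt_eq_zero_of_nonpos (by linarith : -(V x) ≤ 0), sub_zero,
        abs_of_nonneg (Real.sqrt_nonneg _)]
      exact Real.sqrt_le_sqrt ((le_abs_self _).trans (hb x))
    · rw [Real.sqrt_eq_zero_of_nonpos h, zero_sub, abs_neg, abs_of_nonneg (Real.sqrt_nonneg _)]
      exact Real.sqrt_le_sqrt ((neg_le_abs _).trans (hb x))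
  obtain ⟨Mt, hMt, -, hMts⟩ := hEM _ htc _ hbt
  obtain ⟨Ms, hMs, -, -⟩ := hEM _ hsc _ hbs
  have hM : IsMul V (Mt.comp Ms) := by
    intro f
    filter_upwards [hMt (Ms f), hMs f] with x h1 h2
    rw [ContinuousLinearMap.comp_apply, h1, h2, ← mul_assoc, ← Complex.ofReal_mul, hprod]
  have hid := res_identity hD V hV hVs b c hb hbc R R0 (Mt.comp Ms) hR hR0 hM
  refine ⟨Mt.comp R, -(Ms.comp R0), ?_, ?_, ?_⟩
  · obtain ⟨C, hC⟩ := hL V hV b c hb hbc R hR
    refine summable_of_sum_le (fun i => by positivity) (c := C * ∫ x, (√|V x|) ^ 2) fun J => ?_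
    exact hC _ htc hts Mt hMt e J
  · obtain ⟨C, hC⟩ := hL (fun _ => 0) continuous_const 0 c (by simp) hc R0 hR0
    refine summable_of_sum_le (fun i => by positivity)
      (c := C * ∫ x, (√(V x) - √(-(V x))) ^ 2) fun J => ?_
    have := hC _ hsc hss Ms hMs e J
    simpa using this
  · have hRs := hSA V hV b c hb hbc R hR
    rw [ContinuousLinearMap.adjoint_comp]
    rw [ContinuousLinearMap.isSelfAdjoint_iff'] at hRs hMts
    rw [hRs, hMts, hid]
    ext1 f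
    simp

end Pool.Agent.Helper209.PL.N5
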