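import Pool.Agent.Helper209.PL.Defs
import Pool.Agent.Helper209.PL.NDefs

set_option autoImplicit false

namespace Pool.Agent.Helper209.PL.N6

open MeasureTheory Set
open scoped SchwartzMap InnerProductSpace FourierTransform


/-- exponentials of selfadjoint operators are contractions -/
theorem exp_norm {H : Type} [NormedAddCommGroup H] [InnerProductSpace ℂ H] [CompleteSpace H]
    (R : H →L[ℂ] H) (hR : IsSelfAdjoint R) (t : ℝ) :
    ‖NormedSpace.exp (((t : ℂ) * Complex.I) • R)‖ ≤ 1 := by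
  rcases subsingleton_or_nontrivial (H →L[ℂ] H) with h | h
  · rw [Subsingleton.elim (NormedSpace.exp (((t : ℂ) * Complex.I) • R)) 0, norm_zero]
    exact zero_le_one
  · have hsa : IsSelfAdjoint ((t : ℂ) • R) := by
      have h1 : IsSelfAdjoint (t : ℂ) := Complex.conj_ofReal t
      exact h1.smul hR
    let a : selfAdjoint (H →L[ℂ] H) := ⟨(t : ℂ) • R, hsa⟩
    have h2 : NormedSpace.exp (((t : ℂ) * Complex.I) • R) = (selfAdjoint.expUnitary a : H →L[ℂ] H) := by
      rw [selfAdjoint.expUnitary_coe]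
      congr 1
      change ((t : ℂ) * Complex.I) • R = Complex.I • ((t : ℂ) • R)
      rw [smul_smul, mul_comm]
    rw [h2]
    exact (CStarRing.norm_coe_unitary _).le

theorem exp_pow {H : Type} [NormedAddCommGroup H] [InnerProductSpace ℂ H] [CompleteSpace H]
    (R : H →L[ℂ] H) (z : ℂ) (k : ℕ) :
    NormedSpace.exp (((k : ℂ) * z) • R) = (NormedSpace.exp (z • R)) ^ k := by
  letI : NormedAlgebra ℚ (H →L[ℂ] H) := NormedAlgebra.restrictScalars ℚ ℂ (H →L[ℂ] H)
  rw [← NormedSpace.exp_nsmul, mul_smul, Nat.cast_smul_eq_nsmul]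

theorem exp_cfc {H : Type} [NormedAddCommGroup H] [InnerProductSpace ℂ H] [CompleteSpace H]
    (R : H →L[ℂ] H) (hR : IsSelfAdjoint R) (z : ℂ) :
    NormedSpace.exp (z • R) = cfc (fun x : ℂ => Complex.exp (z * x)) R := by
  have hn : IsStarNormal R := hR.isStarNormal
  have hn' : IsStarNormal (z • R) := by
    constructor
    rw [star_smul]
    exact ((hn.star_comm_self).smul_left _).smul_right _
  rw [← CFC.complex_exp_eq_normedSpace_exp hn', ← cfc_comp_smul z Complex.exp R]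
  rfl

/-- functional calculus through an absolutely convergent Fourier expansion -/
theorem cfc_series {H : Type} [NormedAddCommGroup H] [InnerProductSpace ℂ H] [CompleteSpace H]
    (R : H →L[ℂ] H) (hR : IsSelfAdjoint R) (a : ℝ) (ha : ‖R‖ ≤ a) (F : ℝ → ℝ) (hF : Continuous F) (ω : ℝ)
    (cf : ℤ → ℂ) (hcf : Summable (fun k : ℤ => ‖cf k‖))
    (hs : ∀ r : ℝ, |r| ≤ a →
      HasSum (fun k : ℤ => cf k * Complex.exp (((k : ℝ) * ω * r : ℝ) * Complex.I)) ((F r : ℝ) : ℂ)) :
    HasSum (fun k : ℤ => cf k • NormedSpace.exp (((((k : ℝ) * ω : ℝ) : ℂ) * Complex.I) • R)) (cfc F R) := by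
  have hn : IsStarNormal R := hR.isStarNormal
  have hspec : ∀ z ∈ spectrum ℂ R, z = z.re ∧ |z.re| ≤ a := by
    intro z hz
    have h1 := hR.mem_spectrum_eq_re hz
    refine ⟨h1, ?_⟩
    have h2 := spectrum.norm_le_norm_mul_of_mem hz
    have h3 : ‖(1 : H →L[ℂ] H)‖ ≤ 1 := ContinuousLinearMap.norm_id_le
    rw [h1, Complex.norm_real, Real.norm_eq_abs] at h2
    have h4 : ‖R‖ * ‖(1 : H →L[ℂ] H)‖ ≤ ‖R‖ := mul_le_of_le_one_right (norm_nonneg _) h3
    rw [← Complex.ofReal_re z.re] at h2 ⊢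
    linarith
  have hFc : Continuous fun x : ℂ => ((F x.re : ℝ) : ℂ) := by fun_prop
  have hbound : ∀ s : Finset ℤ,
      ‖(∑ k ∈ s, cf k • NormedSpace.exp (((((k : ℝ) * ω : ℝ) : ℂ) * Complex.I) • R)) - cfc F R‖ ≤
        ∑' k : {k // k ∉ s}, ‖cf k‖ := by
    intro s
    have h1 : (∑ k ∈ s, cf k • NormedSpace.exp (((((k : ℝ) * ω : ℝ) : ℂ) * Complex.I) • R)) =
        cfc (fun x : ℂ => ∑ k ∈ s, cf k *
          Complex.exp ((((k : ℝ) * ω : ℝ) : ℂ) * Complex.I * x)) R := by
      have h2 : (fun x : ℂ => ∑ k ∈ s, cf k *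
          Complex.exp ((((k : ℝ) * ω : ℝ) : ℂ) * Complex.I * x)) =
          ∑ k ∈ s, fun x : ℂ => cf k * Complex.exp ((((k : ℝ) * ω : ℝ) : ℂ) * Complex.I * x) := by
        funext x
        rw [Finset.sum_apply]
      rw [h2, cfc_sum _ _ _ (fun k _ => by fun_prop)]
      apply Finset.sum_congr rfl
      intro k _
      rw [exp_cfc R hR, cfc_const_mul (cf k) _ R (by fun_prop)]
    rw [h1, cfc_real_eq_complex F hR, ← cfc_sub _ _ _ (by fun_prop) (by fun_prop)]
    apply norm_cfc_le (tsum_nonneg fun _ => norm_nonneg _)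
    intro z hz
    obtain ⟨hz1, hz2⟩ := hspec z hz
    have h3 := hs z.re hz2
    have h4 := h3.summable.sum_add_tsum_compl (s := s)
    rw [h3.tsum_eq] at h4
    have h5 : (∑ k ∈ s, cf k * Complex.exp ((((k : ℝ) * ω : ℝ) : ℂ) * Complex.I * z)) =
        ∑ k ∈ s, cf k * Complex.exp (((k : ℝ) * ω * z.re : ℝ) * Complex.I) := by
      apply Finset.sum_congr rfl
      intro k _
      congr 2
      rw [hz1]
      push_cast
      simp only [Complex.ofReal_re]
      ring
    rw [h5, ← h4]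
    rw [sub_add_cancel_left, norm_neg]
    have h6 : ∀ k : ℤ, ‖cf k * Complex.exp (((k : ℝ) * ω * z.re : ℝ) * Complex.I)‖ = ‖cf k‖ := by
      intro k
      rw [norm_mul, Complex.norm_exp_ofReal_mul_I, mul_one]
    have h7 : Summable fun k : {k // k ∉ s} => ‖cf k‖ :=
      hcf.comp_injective Subtype.val_injective
    exact tsum_of_norm_bounded h7.hasSum (fun k => le_of_eq (h6 k))
  have hlim : Filter.Tendsto (fun s : Finset ℤ => ∑' k : {k // k ∉ s}, ‖cf k‖) Filter.atTop
      (nhds 0) := tendsto_tsum_compl_atTop_zero (fun k => ‖cf k‖)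
  rw [HasSum, tendsto_iff_norm_sub_tendsto_zero]
  exact squeeze_zero (fun s => norm_nonneg _) hbound hlim

end Pool.Agent.Helper209.PL.N6
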