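import Pool.Agent.Helper209.PL.Defs
import Pool.Agent.Helper209.PL.NDefs

set_option autoImplicit false

namespace Pool.Agent.Helper209.PL.N7

open MeasureTheory Set
open scoped SchwartzMap InnerProductSpace FourierTransform




section NStmts
/-- proved elsewhere, use as hypotheses -/
def HsSumStmt : Prop := ∀ {H : Type} [NormedAddCommGroup H] [InnerProductSpace ℂ H] [CompleteSpace H]
    (b : HilbertBasis ℕ ℂ H) (X Y : ℕ → H →L[ℂ] H) (sx sy : ℕ → ℝ),
    (∀ k, HasSum (fun i => ‖X k (b i)‖ ^ 2) (sx k)) → (∀ k, HasSum (fun i => ‖Y k (b i)‖ ^ 2) (sy k)) →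
    Summable sx → Summable sy → ∀ (T : H →L[ℂ] H),
    (∀ f : H, HasSum (fun k => (ContinuousLinearMap.adjoint (X k)) (Y k f)) (T f)) →
    ∃ X' Y' : H →L[ℂ] H, Summable (fun i => ‖X' (b i)‖ ^ 2) ∧ Summable (fun i => ‖Y' (b i)‖ ^ 2) ∧
      T = (ContinuousLinearMap.adjoint X').comp Y'

def HsIndepStmt : Prop := ∀ {H : Type} [NormedAddCommGroup H] [InnerProductSpace ℂ H] [CompleteSpace H]
    (b b' : HilbertBasis ℕ ℂ H) (X A : H →L[ℂ] H) (s : ℝ), HasSum (fun i => ‖X (b i)‖ ^ 2) s →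
    HasSum (fun i => ‖X (b' i)‖ ^ 2) s ∧ HasSum (fun i => ‖ContinuousLinearMap.adjoint X (b i)‖ ^ 2) s ∧
    (∃ s' : ℝ, s' ≤ ‖A‖ ^ 2 * s ∧ HasSum (fun i => ‖A (X (b i))‖ ^ 2) s') ∧
    (∃ s' : ℝ, s' ≤ ‖A‖ ^ 2 * s ∧ HasSum (fun i => ‖X (A (b i))‖ ^ 2) s')
end NStmts



theorem tc_balance {H : Type} [NormedAddCommGroup H] [InnerProductSpace ℂ H] [CompleteSpace H]
    (A B : H →L[ℂ] H) (s : ℝ) (h : ‖A‖ * ‖B‖ ≤ s) :
    ∃ A' B' : H →L[ℂ] H, ‖A'‖ ^ 2 ≤ s ∧ ‖B'‖ ^ 2 ≤ s ∧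
      ∀ D : H →L[ℂ] H, ∀ f : H, A' (D (B' f)) = A (D (B f)) := by
  have hs : 0 ≤ s := le_trans (mul_nonneg (norm_nonneg _) (norm_nonneg _)) h
  by_cases hA : A = 0
  · refine ⟨0, 0, by simpa using hs, by simpa using hs, fun D f => by simp [hA]⟩
  by_cases hB : B = 0
  · refine ⟨0, 0, by simpa using hs, by simpa using hs, fun D f => by simp [hB]⟩
  have hA0 : 0 < ‖A‖ := norm_pos_iff.2 hA
  have hB0 : 0 < ‖B‖ := norm_pos_iff.2 hB
  set t : ℝ := Real.sqrt (‖B‖ / ‖A‖) with ht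
  have ht0 : 0 < t := Real.sqrt_pos.2 (by positivity)
  have ht2 : t ^ 2 = ‖B‖ / ‖A‖ := Real.sq_sqrt (by positivity)
  refine ⟨(t : ℂ) • A, ((t⁻¹ : ℝ) : ℂ) • B, ?_, ?_, ?_⟩
  · rw [norm_smul, Complex.norm_real, Real.norm_eq_abs, abs_of_pos ht0, mul_pow, ht2]
    have : ‖B‖ / ‖A‖ * ‖A‖ ^ 2 = ‖A‖ * ‖B‖ := by field_simp
    rw [this]; exact h
  · rw [norm_smul, Complex.norm_real, Real.norm_eq_abs, abs_of_pos (inv_pos.2 ht0), mul_pow,
      inv_pow, ht2]
    have : (‖B‖ / ‖A‖)⁻¹ * ‖B‖ ^ 2 = ‖A‖ * ‖B‖ := by field_simp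
    rw [this]; exact h
  · intro D f
    simp only [ContinuousLinearMap.smul_apply, map_smul, smul_smul]
    have : (t : ℂ) * ((t⁻¹ : ℝ) : ℂ) = 1 := by
      rw [← Complex.ofReal_mul, mul_inv_cancel₀ ht0.ne', Complex.ofReal_one]
    first
      | rw [this, one_smul]
      | rw [mul_comm, this, one_smul]

theorem tc_nuc (hS : HsSumStmt) (hI : HsIndepStmt) {H : Type} [NormedAddCommGroup H] [InnerProductSpace ℂ H]
    [CompleteSpace H] (b : HilbertBasis ℕ ℂ H) (D T : H →L[ℂ] H) (N : ℝ) (hD : TCb b D) (h : Nuc D T N) :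
    TCb b T := by
  obtain ⟨X0, Y0, hX0, hY0, rfl⟩ := hD
  obtain ⟨A, B, s, hAB, hs, hsum⟩ := h
  have hbal := fun k => tc_balance (A k) (B k) (s k) (hAB k)
  choose A' B' hA' hB' heq using hbal
  obtain ⟨sX, hsX⟩ := hX0
  obtain ⟨sY, hsY⟩ := hY0
  have hsX0 : 0 ≤ sX := hsX.nonneg fun i => by positivity
  have hsY0 : 0 ≤ sY := hsY.nonneg fun i => by positivity
  have hx := fun k => (hI b b X0 (ContinuousLinearMap.adjoint (A' k)) sX hsX).2.2.2
  have hy := fun k => (hI b b Y0 (B' k) sY hsY).2.2.2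
  choose sx hsx1 hsx2 using hx
  choose sy hsy1 hsy2 using hy
  refine hS b (fun k => X0.comp (ContinuousLinearMap.adjoint (A' k))) (fun k => Y0.comp (B' k))
    sx sy ?_ ?_ ?_ ?_ T ?_
  · intro k; exact hsx2 k
  · intro k; exact hsy2 k
  · refine Summable.of_nonneg_of_le (fun k => (hsx2 k).nonneg fun i => by positivity) (fun k => ?_)
      (hs.summable.mul_right sX)
    refine (hsx1 k).trans ?_
    rw [LinearIsometryEquiv.norm_map]
    exact mul_le_mul_of_nonneg_right (hA' k) hsX0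
  · refine Summable.of_nonneg_of_le (fun k => (hsy2 k).nonneg fun i => by positivity) (fun k => ?_)
      (hs.summable.mul_right sY)
    exact (hsy1 k).trans (mul_le_mul_of_nonneg_right (hB' k) hsY0)
  · intro f
    have h1 := (ContinuousLinearMap.apply ℂ H f).hasSum hsum
    refine h1.congr_fun ?_
    intro k
    simp only [ContinuousLinearMap.adjoint_comp, ContinuousLinearMap.adjoint_adjoint,
      ContinuousLinearMap.comp_apply, ContinuousLinearMap.apply_apply]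
    have := heq k ((ContinuousLinearMap.adjoint X0).comp Y0) f
    simpa using this

theorem tc_parseval {H : Type} [NormedAddCommGroup H] [InnerProductSpace ℂ H]
    [CompleteSpace H] (b : HilbertBasis ℕ ℂ H) (u : H) :
    HasSum (fun i => ‖((innerSL ℂ u).smulRight (b 0) : H →L[ℂ] H) (b i)‖ ^ 2) (‖u‖ ^ 2) := by
  have h := b.hasSum_inner_mul_inner u u
  have h1 := Complex.reCLM.hasSum h
  have e0 : ‖b 0‖ = 1 := b.orthonormal.1 0
  have e1 : Complex.reCLM ⟪u, u⟫_ℂ = ‖u‖ ^ 2 := by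
    have := inner_self_eq_norm_sq (𝕜 := ℂ) u
    simpa using this
  rw [e1] at h1
  refine h1.congr_fun ?_
  intro i
  simp only [ContinuousLinearMap.smulRight_apply, innerSL_apply_apply, norm_smul, e0, mul_one,
    Function.comp_apply]
  have e2 : ⟪u, b i⟫_ℂ * ⟪b i, u⟫_ℂ = ((‖⟪u, b i⟫_ℂ‖ ^ 2 : ℝ) : ℂ) := by
    rw [← inner_conj_symm (b i) u, Complex.mul_conj, Complex.normSq_eq_norm_sq]
  rw [e2]
  exact (Complex.ofReal_re _).symm

theorem tc_rank (hS : HsSumStmt) {H : Type} [NormedAddCommGroup H] [InnerProductSpace ℂ H]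
    [CompleteSpace H] (b : HilbertBasis ℕ ℂ H) (u v : ℕ → H) (hu : Summable (fun n => ‖u n‖ ^ 2))
    (hv : Summable (fun n => ‖v n‖ ^ 2)) (T : H →L[ℂ] H) (hT : ∀ f : H, HasSum (fun n => ⟪v n, f⟫_ℂ • u n) (T f)) :
    TCb b T := by
  have e0 : ‖b 0‖ = 1 := b.orthonormal.1 0
  refine hS b (fun k => (innerSL ℂ (u k)).smulRight (b 0)) (fun k => (innerSL ℂ (v k)).smulRight (b 0))
    (fun k => ‖u k‖ ^ 2) (fun k => ‖v k‖ ^ 2) (fun k => tc_parseval b (u k))
    (fun k => tc_parseval b (v k)) hu hv T ?_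
  intro f
  refine (hT f).congr_fun ?_
  intro k
  refine (ext_inner_right ℂ fun w => ?_)
  rw [ContinuousLinearMap.adjoint_inner_left]
  simp only [ContinuousLinearMap.smulRight_apply, innerSL_apply_apply, inner_smul_left,
    inner_smul_right]
  have : ⟪b 0, b 0⟫_ℂ = 1 := by
    rw [inner_self_eq_norm_sq_to_K, e0]; simp
  rw [this]
  ring

theorem tc_add (hS : HsSumStmt) {H : Type} [NormedAddCommGroup H] [InnerProductSpace ℂ H]
    [CompleteSpace H] (b : HilbertBasis ℕ ℂ H) (T1 T2 : H →L[ℂ] H) (h1 : TCb b T1) (h2 : TCb b T2) (z : ℂ) :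
    TCb b (T1 + z • T2) := by
  obtain ⟨X1, Y1, hX1, hY1, rfl⟩ := h1
  obtain ⟨X2, Y2, hX2, hY2, rfl⟩ := h2
  let X : ℕ → H →L[ℂ] H := fun k => if k = 0 then X1 else if k = 1 then X2 else 0
  let Y : ℕ → H →L[ℂ] H := fun k => if k = 0 then Y1 else if k = 1 then z • Y2 else 0
  have hX : ∀ k, Summable (fun i => ‖X k (b i)‖ ^ 2) := by
    intro k
    by_cases h0 : k = 0
    · simpa [X, h0] using hX1
    · by_cases h1 : k = 1
      · simpa [X, h1] using hX2
      · simpa [X, h0, h1] using (summable_zero : Summable fun _ : ℕ => (0 : ℝ))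
  have hY : ∀ k, Summable (fun i => ‖Y k (b i)‖ ^ 2) := by
    intro k
    by_cases h0 : k = 0
    · simpa [Y, h0] using hY1
    · by_cases h1 : k = 1
      · have h3 := hY2.mul_left (‖z‖ ^ 2)
        refine h3.congr ?_
        intro i
        simp [Y, h1, norm_smul, mul_pow]
      · simpa [Y, h0, h1] using (summable_zero : Summable fun _ : ℕ => (0 : ℝ))
  refine hS b X Y (fun k => ∑' i, ‖X k (b i)‖ ^ 2) (fun k => ∑' i, ‖Y k (b i)‖ ^ 2)
    (fun k => (hX k).hasSum) (fun k => (hY k).hasSum) ?_ ?_ _ ?_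
  · refine summable_of_ne_finset_zero (s := {0, 1}) ?_
    intro k hk
    simp only [Finset.mem_insert, Finset.mem_singleton, not_or] at hk
    simp [X, hk.1, hk.2]
  · refine summable_of_ne_finset_zero (s := {0, 1}) ?_
    intro k hk
    simp only [Finset.mem_insert, Finset.mem_singleton, not_or] at hk
    simp [Y, hk.1, hk.2]
  · intro f
    have h : HasSum (fun k => (ContinuousLinearMap.adjoint (X k)) (Y k f))
        (∑ k ∈ ({0, 1} : Finset ℕ), (ContinuousLinearMap.adjoint (X k)) (Y k f)) :=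
      hasSum_sum_of_ne_finset_zero (by
        intro k hk
        simp only [Finset.mem_insert, Finset.mem_singleton, not_or] at hk
        simp [Y, hk.1, hk.2])
    have e : ∑ k ∈ ({0, 1} : Finset ℕ), (ContinuousLinearMap.adjoint (X k)) (Y k f) =
        ((ContinuousLinearMap.adjoint X1).comp Y1 + z • (ContinuousLinearMap.adjoint X2).comp Y2) f := by
      rw [Finset.sum_pair (by norm_num)]
      simp [X, Y]
    rw [e] at h
    exact h

end Pool.Agent.Helper209.PL.N7
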