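import Pool.Agent.Helper209.PL.Defs
import Pool.Agent.Helper209.PL.NDefs

set_option autoImplicit false

namespace Pool.Agent.Helper209.PL.N8

open MeasureTheory Set
open scoped SchwartzMap InnerProductSpace FourierTransform






section NStmts
/-- proved elsewhere, use as hypotheses -/
def NucMulStmt : Prop := ∀ {H : Type} [NormedAddCommGroup H] [InnerProductSpace ℂ H] [CompleteSpace H]
    (D T P Q : H →L[ℂ] H) (N : ℝ), Nuc D T N → Nuc D (P.comp (T.comp Q)) (‖P‖ * ‖Q‖ * N)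

def NucSumStmt : Prop := ∀ {H : Type} [NormedAddCommGroup H] [InnerProductSpace ℂ H] [CompleteSpace H]
    {ι : Type} [Countable ι] (D T : H →L[ℂ] H) (S : ι → H →L[ℂ] H) (N : ι → ℝ) (N0 : ℝ), (∀ k, Nuc D (S k) (N k)) →
    HasSum N N0 → HasSum S T → Nuc D T N0

def NucExpStmt : Prop := ∀ {H : Type} [NormedAddCommGroup H] [InnerProductSpace ℂ H] [CompleteSpace H]
    (R R0 : H →L[ℂ] H) (z : ℂ),
    ∃ N : ℝ, Nuc (R - R0) (NormedSpace.exp (z • R) - NormedSpace.exp (z • R0)) N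

def NucPowStmt : Prop := ∀ {H : Type} [NormedAddCommGroup H] [InnerProductSpace ℂ H] [CompleteSpace H]
    (D U U0 : H →L[ℂ] H), ‖U‖ ≤ 1 → ‖U0‖ ≤ 1 → ∀ (N : ℝ), 0 ≤ N → Nuc D (U - U0) N → ∀ (k : ℕ),
    Nuc D (U ^ k - U0 ^ k) (k * N)

def FourierExpansionStmt : Prop := ∀ (γ m a : ℝ), 1 < γ → 0 < m → 0 < a →
    ∃ (ω : ℝ) (cf : ℤ → ℂ), Summable (fun k : ℤ => (1 + |(k : ℝ)|) * ‖cf k‖) ∧
      ∀ r : ℝ, |r| ≤ a → HasSum (fun k : ℤ => cf k * Complex.exp (((k : ℝ) * ω * r : ℝ) * Complex.I))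
        (((if 0 < r then (max (m - 1 / r) 0) ^ γ else 0 : ℝ)) : ℂ)

def ExpNormStmt : Prop := ∀ {H : Type} [NormedAddCommGroup H] [InnerProductSpace ℂ H] [CompleteSpace H]
    (R : H →L[ℂ] H), IsSelfAdjoint R → ∀ (t : ℝ), ‖NormedSpace.exp (((t : ℂ) * Complex.I) • R)‖ ≤ 1

def ExpPowStmt : Prop := ∀ {H : Type} [NormedAddCommGroup H] [InnerProductSpace ℂ H] [CompleteSpace H]
    (R : H →L[ℂ] H) (z : ℂ) (k : ℕ),
    NormedSpace.exp (((k : ℂ) * z) • R) = (NormedSpace.exp (z • R)) ^ k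

def CfcSeriesStmt : Prop := ∀ {H : Type} [NormedAddCommGroup H] [InnerProductSpace ℂ H] [CompleteSpace H]
    (R : H →L[ℂ] H), IsSelfAdjoint R → ∀ (a : ℝ), ‖R‖ ≤ a → ∀ (F : ℝ → ℝ), Continuous F → ∀ (ω : ℝ)
    (cf : ℤ → ℂ), Summable (fun k : ℤ => ‖cf k‖) →
    (∀ r : ℝ, |r| ≤ a →
      HasSum (fun k : ℤ => cf k * Complex.exp (((k : ℝ) * ω * r : ℝ) * Complex.I)) ((F r : ℝ) : ℂ)) →
    HasSum (fun k : ℤ => cf k • NormedSpace.exp (((((k : ℝ) * ω : ℝ) : ℂ) * Complex.I) • R)) (cfc F R)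
end NStmts

theorem nucNonneg {H : Type} [NormedAddCommGroup H] [InnerProductSpace ℂ H] [CompleteSpace H]
    {D T : H →L[ℂ] H} {N : ℝ} (h : Nuc D T N) : 0 ≤ N := by
  obtain ⟨A, B, s, h1, h2, _⟩ := h
  exact h2.nonneg (fun k => (by positivity : 0 ≤ ‖A k‖ * ‖B k‖).trans (h1 k))

theorem nucMono {H : Type} [NormedAddCommGroup H] [InnerProductSpace ℂ H] [CompleteSpace H]
    {D T : H →L[ℂ] H} {N N' : ℝ} (h : Nuc D T N) (hN : N ≤ N') : Nuc D T N' := by
  obtain ⟨A, B, s, h1, h2, h3⟩ := h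
  refine ⟨A, B, fun k => s k + if k = 0 then N' - N else 0, fun k => ?_, ?_, h3⟩
  · refine (h1 k).trans ?_
    show s k ≤ s k + if k = 0 then N' - N else 0
    split_ifs
    · linarith
    · simp
  · have := h2.add (hasSum_ite_eq (0 : ℕ) (N' - N))
    convert this using 1
    ring

theorem continuous_F (γ m : ℝ) (hγ : 1 < γ) (hm : 0 < m) :
    Continuous (fun r : ℝ => if 0 < r then (max (m - 1 / r) 0) ^ γ else 0) := by
  have h1 : (fun r : ℝ => if 0 < r then (max (m - 1 / r) 0) ^ γ else 0) =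
      fun r : ℝ => (max (m - 1 / (max r (1 / m))) 0) ^ γ := by
    funext r
    have hm' : 0 < 1 / m := by positivity
    rcases le_or_gt (1 / m) r with h | h
    · have hr : 0 < r := lt_of_lt_of_le hm' h
      rw [if_pos hr, max_eq_left h]
    · have h0 : max r (1 / m) = 1 / m := max_eq_right h.le
      rw [h0, one_div_one_div, sub_self, max_self, Real.zero_rpow (by linarith)]
      split_ifs with hr
      · have : m - 1 / r ≤ 0 := by
          have h2 : m ≤ 1 / r := by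
            rw [le_div_iff₀ hr]
            have := (lt_div_iff₀ hm).1 h
            nlinarith
          linarith
        rw [max_eq_right this, Real.zero_rpow (by linarith)]
      · rfl
  rw [h1]
  refine Continuous.rpow_const ?_ (fun x => Or.inr (by linarith))
  refine Continuous.max ?_ continuous_const
  refine continuous_const.sub (Continuous.div continuous_const
    (continuous_id.max continuous_const) ?_)
  intro x
  have hm' : 0 < 1 / m := by positivity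
  exact (lt_of_lt_of_le hm' (le_max_right _ _)).ne'

/-- the difference of the functional calculi is nuclear relative to the resolvent difference -/
theorem negPow_diff_nuc (h1 : NucMulStmt) (h2 : NucSumStmt) (h3 : NucExpStmt) (h4 : NucPowStmt)
    (h5 : FourierExpansionStmt) (h6 : ExpNormStmt) (h7 : ExpPowStmt) (h8 : CfcSeriesStmt)
    {H : Type} [NormedAddCommGroup H] [InnerProductSpace ℂ H] [CompleteSpace H]
    (γ μ c : ℝ) (hγ : 1 < γ) (hμ : 0 < μ) (hc : 0 < c)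
    (R R0 : H →L[ℂ] H) (hR : IsSelfAdjoint R) (hR0 : IsSelfAdjoint R0) :
    ∃ N : ℝ, Nuc (R - R0) (negPow γ μ c R - negPow γ μ c R0) N := by
  have hm : 0 < μ + c := by positivity
  set a : ℝ := max ‖R‖ ‖R0‖ + 1 with ha
  have ha0 : 0 < a := by positivity
  have hRa : ‖R‖ ≤ a := (le_max_left _ _).trans (by linarith)
  have hR0a : ‖R0‖ ≤ a := (le_max_right _ _).trans (by linarith)
  obtain ⟨ω, cf, hcf, hF⟩ := h5 γ (μ + c) a hγ hm ha0
  have hcf' : Summable (fun k : ℤ => ‖cf k‖) := by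
    refine Summable.of_nonneg_of_le (fun k => norm_nonneg _) (fun k => ?_) hcf
    nlinarith [norm_nonneg (cf k), abs_nonneg (k : ℝ), mul_nonneg (abs_nonneg (k : ℝ)) (norm_nonneg (cf k))]
  have hcont := continuous_F γ (μ + c) hγ hm
  have s1 := h8 R hR a hRa _ hcont ω cf hcf' hF
  have s0 := h8 R0 hR0 a hR0a _ hcont ω cf hcf' hF
  have s := s1.sub s0
  obtain ⟨N1, hN1⟩ := h3 R R0 ((ω : ℂ) * Complex.I)
  obtain ⟨N2, hN2⟩ := h3 R R0 (((-ω : ℝ) : ℂ) * Complex.I)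
  set M := max N1 N2 with hM
  have hM0 : 0 ≤ M := (nucNonneg hN1).trans (le_max_left _ _)
  have key : ∀ k : ℤ, Nuc (R - R0)
      (NormedSpace.exp (((((k : ℝ) * ω : ℝ) : ℂ) * Complex.I) • R) -
        NormedSpace.exp (((((k : ℝ) * ω : ℝ) : ℂ) * Complex.I) • R0)) (|(k : ℝ)| * M) := by
    intro k
    rcases Int.eq_nat_or_neg k with ⟨n, rfl | rfl⟩
    · have e : (((((n : ℤ) : ℝ) * ω : ℝ) : ℂ) * Complex.I) = (n : ℂ) * ((ω : ℂ) * Complex.I) := by
        push_cast; ring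
      rw [e, h7, h7]
      refine nucMono (h4 _ _ _ (h6 R hR ω) (h6 R0 hR0 ω) N1 (nucNonneg hN1) hN1 n) ?_
      have : |(((n : ℤ) : ℝ))| = (n : ℝ) := by simp
      rw [this]
      exact mul_le_mul_of_nonneg_left (le_max_left _ _) (by positivity)
    · have e : (((((-(n : ℤ) : ℤ) : ℝ)) * ω : ℝ) : ℂ) * Complex.I =
          (n : ℂ) * (((-ω : ℝ) : ℂ) * Complex.I) := by
        push_cast; ring
      rw [e, h7, h7]
      refine nucMono (h4 _ _ _ (h6 R hR (-ω)) (h6 R0 hR0 (-ω)) N2 (nucNonneg hN2) hN2 n) ?_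
      have : |(((-(n : ℤ) : ℤ) : ℝ))| = (n : ℝ) := by simp
      rw [this]
      exact mul_le_mul_of_nonneg_left (le_max_right _ _) (by positivity)
  have key2 : ∀ k : ℤ, Nuc (R - R0)
      (cf k • NormedSpace.exp (((((k : ℝ) * ω : ℝ) : ℂ) * Complex.I) • R) -
        cf k • NormedSpace.exp (((((k : ℝ) * ω : ℝ) : ℂ) * Complex.I) • R0))
        (‖cf k‖ * (|(k : ℝ)| * M)) := by
    intro k
    have h := h1 _ _ (cf k • (1 : H →L[ℂ] H)) 1 _ (key k)
    have e : (cf k • (1 : H →L[ℂ] H)).comp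
        ((NormedSpace.exp (((((k : ℝ) * ω : ℝ) : ℂ) * Complex.I) • R) -
        NormedSpace.exp (((((k : ℝ) * ω : ℝ) : ℂ) * Complex.I) • R0)).comp (1 : H →L[ℂ] H)) =
        cf k • NormedSpace.exp (((((k : ℝ) * ω : ℝ) : ℂ) * Complex.I) • R) -
        cf k • NormedSpace.exp (((((k : ℝ) * ω : ℝ) : ℂ) * Complex.I) • R0) := by
      ext x
      simp [smul_sub]
    rw [e] at h
    refine nucMono h ?_
    have hk : 0 ≤ |(k : ℝ)| * M := by positivity
    have n1 : ‖(1 : H →L[ℂ] H)‖ ≤ 1 := ContinuousLinearMap.norm_id_le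
    have n2 : ‖cf k • (1 : H →L[ℂ] H)‖ ≤ ‖cf k‖ := by
      rw [norm_smul]
      exact mul_le_of_le_one_right (norm_nonneg _) n1
    calc ‖cf k • (1 : H →L[ℂ] H)‖ * ‖(1 : H →L[ℂ] H)‖ * (|(k : ℝ)| * M)
        ≤ ‖cf k‖ * 1 * (|(k : ℝ)| * M) := by gcongr
      _ = ‖cf k‖ * (|(k : ℝ)| * M) := by ring
  have hsum : Summable (fun k : ℤ => ‖cf k‖ * (|(k : ℝ)| * M)) := by
    refine Summable.of_nonneg_of_le (fun k => by positivity) (fun k => ?_) (hcf.mul_left M)
    have : 0 ≤ M * ‖cf k‖ := by positivity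
    nlinarith
  refine ⟨_, h2 (R - R0) _ _ _ _ key2 hsum.hasSum ?_⟩
  exact s

end Pool.Agent.Helper209.PL.N8
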