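import Pool.Agent.Helper209.PL.Main4
import Pool.Agent.Helper209.PL.N1a
import Pool.Agent.Helper209.PL.N1b
import Pool.Agent.Helper209.PL.N2
import Pool.Agent.Helper209.PL.N3
import Pool.Agent.Helper209.PL.N4
import Pool.Agent.Helper209.PL.N5
import Pool.Agent.Helper209.PL.N6
import Pool.Agent.Helper209.PL.N7
import Pool.Agent.Helper209.PL.N8

set_option autoImplicit false

namespace Pool.Agent.Helper209.PL

open MeasureTheory Set
open scoped SchwartzMap InnerProductSpace FourierTransform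

theorem hsSum : N7.HsSumStmt := fun b X Y sx sy hX hY hsx hsy T hT => N1a.hs_sum b X Y sx sy hX hY hsx hsy T hT
theorem hsIndep : N7.HsIndepStmt := fun b b' X A s hX => N1b.hs_indep b b' X A s hX

theorem negPow_diff_nuc {H : Type} [NormedAddCommGroup H] [InnerProductSpace ℂ H] [CompleteSpace H]
    (γ μ c : ℝ) (hγ : 1 < γ) (hμ : 0 < μ) (hc : 0 < c)
    (R R0 : H →L[ℂ] H) (hR : IsSelfAdjoint R) (hR0 : IsSelfAdjoint R0) :
    ∃ N : ℝ, Nuc (R - R0) (negPow γ μ c R - negPow γ μ c R0) N :=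
  N8.negPow_diff_nuc (fun D T P Q N h => N2.nuc_mul D T P Q N h)
    (fun D T S N N0 h hN hS => N2.nuc_sum D T S N N0 h hN hS)
    (fun R R0 z => N2.nuc_exp R R0 z)
    (fun D U U0 hU hU0 N hN h k => N2.nuc_pow D U U0 hU hU0 N hN h k)
    (fun γ m a hγ hm ha => N3.fourier_expansion γ m a hγ hm ha)
    (fun R hR t => N6.exp_norm R hR t) (fun R z k => N6.exp_pow R z k)
    (fun R hR a ha F hF ω cf hcf hs => N6.cfc_series R hR a ha F hF ω cf hcf hs)
    γ μ c hγ hμ hc R R0 hR hR0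

theorem localHS : N5.LocalHSStmt := by
  intro V hV b c hb hbc R hR
  obtain ⟨K, hK0, hK⟩ := Res3.sup_bound V hV b c hb hbc
  refine ⟨K ^ 2 * ‖(1 : L2R →L[ℂ] L2R)‖ ^ 2, ?_⟩
  intro θ hθ hθs Θ hΘ e J
  have := ResLoc.res_local (fun V hV b c hb hbc f ε hε => dense_range V hV b c hb hbc f ε hε) V hV b c hb hbc
      K hK0 hK R hR θ hθ hθs Θ hΘ 1 e J
  simpa using this

theorem res_diff_tc (V : ℝ → ℝ) (hV : Continuous V) (hVs : HasCompactSupport V) (b c : ℝ)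
    (hb : ∀ x, |V x| ≤ b) (hbc : b < c) (R R0 : L2R →L[ℂ] L2R) (hR : IsResolvent V c R)
    (hR0 : IsResolvent (fun _ => 0) c R0) (e : HilbertBasis ℕ ℂ L2R) : TCb e (R - R0) :=
  N5.res_diff_hs (fun V hV b c hb hbc f ε hε => dense_range V hV b c hb hbc f ε hε)
    (fun V hV b c hb hbc R hR => (res_selfAdjoint V hV b c hb hbc R hR).1)
    (fun v hv B hB => Res2.exists_mul v hv B hB) localHS V hV hVs b c hb hbc R R0 hR hR0 e

/-- the operator inside the trace is trace class -/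
theorem inside_tc (γ : ℝ) (hγ : 1 < γ) (μ : ℝ) (hμ : 0 < μ) (V : ℝ → ℝ) (hV : Continuous V)
    (hVs : HasCompactSupport V) (b c : ℝ) (hb : ∀ x, |V x| ≤ b) (hbc : b < c)
    (R R0 M : L2R →L[ℂ] L2R) (hR : IsResolvent V c R) (hR0 : IsResolvent (fun _ => 0) c R0) (hM : IsMul V M)
    (e : HilbertBasis ℕ ℂ L2R) : TCb e (insideOp γ μ c R R0 M) := by
  have hb0 : 0 ≤ b := (abs_nonneg _).trans (hb 0)
  have hc0 : 0 < c := by linarith
  obtain ⟨hsa, -⟩ := res_selfAdjoint V hV b c hb hbc R hR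
  obtain ⟨hsa0, -⟩ := res_selfAdjoint (fun _ => 0) continuous_const 0 c (isResolvent_zero_bound hc0).1 hc0 R0 hR0
  have hD := res_diff_tc V hV hVs b c hb hbc R R0 hR hR0 e
  obtain ⟨N, hN⟩ := negPow_diff_nuc γ μ c hγ hμ hc0 R R0 hsa hsa0
  have h1 := N7.tc_nuc hsSum hsIndep e (R - R0) _ N hD hN
  obtain ⟨hk1, hk2, -⟩ := MulFacts.symbol_facts (γ - 1) μ (by linarith) hμ
  obtain ⟨u, v, hu, hv, huv⟩ := N4.rank_one_series _ V hk1 hk2 hV hVs (negPow (γ - 1) μ c R0) M hM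
    (fun f => negPow_fourier (γ - 1) μ c (by linarith) hμ hc0 R0 hR0 hsa0 f)
  have h2 : TCb e ((negPow (γ - 1) μ c R0).comp M) := N7.tc_rank hsSum e u v hu hv _ huv
  exact N7.tc_add hsSum e _ _ h1 h2 (γ : ℂ)

end Pool.Agent.Helper209.PL
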