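import Pool.Agent.Helper209.PL.Defs
import Pool.Agent.Helper209.PL.NDefs

set_option autoImplicit false

namespace Pool.Agent.Helper209.PL.QA

open MeasureTheory Set
open scoped SchwartzMap InnerProductSpace FourierTransform





lemma rn_fiber (T : Finset ℤ) (k : ℕ) (F : ℤ → ℝ) (G : ℕ → ℝ) (hG : ∀ i ∈ Finset.range (k + 1), 0 ≤ G i)
    (hT : ∀ m ∈ T, m.natAbs ∈ Finset.range (k + 1)) (hF : ∀ m ∈ T, F m ≤ G m.natAbs) :
    ∑ m ∈ T, F m ≤ 2 * ∑ i ∈ Finset.range (k + 1), G i := by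
  calc ∑ m ∈ T, F m ≤ ∑ m ∈ T, G m.natAbs := Finset.sum_le_sum hF
    _ = ∑ i ∈ Finset.range (k + 1), ∑ m ∈ T with m.natAbs = i, G m.natAbs :=
        (Finset.sum_fiberwise_of_maps_to hT _).symm
    _ ≤ ∑ i ∈ Finset.range (k + 1), 2 * G i := by
        refine Finset.sum_le_sum ?_
        intro i hi
        have h1 : ∑ m ∈ T with m.natAbs = i, G m.natAbs
            = ((T.filter (fun m => m.natAbs = i)).card : ℝ) * G i := by
          rw [Finset.sum_congr rfl (g := fun _ => G i)]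
          · rw [Finset.sum_const, nsmul_eq_mul]
          · intro m hm
            rw [Finset.mem_filter] at hm
            rw [hm.2]
        rw [h1]
        refine mul_le_mul_of_nonneg_right ?_ (hG i hi)
        have h2 : (T.filter (fun m => m.natAbs = i)) ⊆ {(i : ℤ), -(i : ℤ)} := by
          intro m hm
          rw [Finset.mem_filter] at hm
          rw [Finset.mem_insert, Finset.mem_singleton]
          have := hm.2
          omega
        have h3 := (Finset.card_le_card h2).trans Finset.card_le_two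
        exact_mod_cast h3
    _ = 2 * ∑ i ∈ Finset.range (k + 1), G i := by rw [Finset.mul_sum]

lemma rn_step (β : ℝ) (hβ : 0 < β) (hβ1 : β ≤ 1) (j : ℕ) :
    β * ((j : ℝ) + 1) ^ (β - 1) ≤ ((j : ℝ) + 1) ^ β - (j : ℝ) ^ β := by
  have hj : (0 : ℝ) < (j : ℝ) + 1 := by positivity
  have hj0 : (0 : ℝ) ≤ (j : ℝ) := j.cast_nonneg
  have h := _root_.rpow_one_add_le_one_add_mul_self (s := -1 / ((j : ℝ) + 1)) (p := β)
    (by rw [le_div_iff₀ hj]; linarith) hβ.le hβ1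
  have h1 : 1 + -1 / ((j : ℝ) + 1) = (j : ℝ) / ((j : ℝ) + 1) := by
    field_simp
    ring
  rw [h1, Real.div_rpow hj0 hj.le] at h
  have hp : 0 < ((j : ℝ) + 1) ^ β := Real.rpow_pos_of_pos hj _
  rw [div_le_iff₀ hp] at h
  have h2 : ((j : ℝ) + 1) ^ (β - 1) = ((j : ℝ) + 1) ^ β / ((j : ℝ) + 1) := by
    rw [Real.rpow_sub_one hj.ne']
  rw [h2]
  have h3 : (1 + β * (-1 / ((j : ℝ) + 1))) * ((j : ℝ) + 1) ^ β
      = ((j : ℝ) + 1) ^ β - β * (((j : ℝ) + 1) ^ β / ((j : ℝ) + 1)) := by ring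
  rw [h3] at h
  linarith

lemma rn_sum (β : ℝ) (hβ : 0 < β) (hβ1 : β ≤ 1) (k : ℕ) :
    ∑ j ∈ Finset.range (k + 1), ((j : ℝ) + 1 / 2) ^ (β - 1) ≤ 2 / β * ((k : ℝ) + 1 / 2) ^ β := by
  have h1 : ∀ j : ℕ, ((j : ℝ) + 1 / 2) ^ (β - 1) ≤ (2 : ℝ) ^ (1 - β) / β *
      (((j : ℝ) + 1) ^ β - (j : ℝ) ^ β) := by
    intro j
    have hj0 : (0 : ℝ) ≤ (j : ℝ) := j.cast_nonneg
    have h2 := rn_step β hβ hβ1 j
    have h3 : (2 * ((j : ℝ) + 1 / 2)) ^ (β - 1) ≤ ((j : ℝ) + 1) ^ (β - 1) :=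
      Real.rpow_le_rpow_of_nonpos (by positivity) (by linarith) (by linarith)
    rw [Real.mul_rpow (by norm_num) (by positivity)] at h3
    have h4 : (2 : ℝ) ^ (1 - β) * 2 ^ (β - 1) = 1 := by
      rw [← Real.rpow_add (by norm_num)]
      simp
    have h5 : (0 : ℝ) < 2 ^ (1 - β) := Real.rpow_pos_of_pos (by norm_num) _
    calc ((j : ℝ) + 1 / 2) ^ (β - 1)
        = ((2 : ℝ) ^ (1 - β) * 2 ^ (β - 1)) * ((j : ℝ) + 1 / 2) ^ (β - 1) := by rw [h4, one_mul]
      _ = (2 : ℝ) ^ (1 - β) * (2 ^ (β - 1) * ((j : ℝ) + 1 / 2) ^ (β - 1)) := by ring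
      _ ≤ (2 : ℝ) ^ (1 - β) * ((j : ℝ) + 1) ^ (β - 1) := mul_le_mul_of_nonneg_left h3 h5.le
      _ = (2 : ℝ) ^ (1 - β) / β * (β * ((j : ℝ) + 1) ^ (β - 1)) := by field_simp
      _ ≤ _ := mul_le_mul_of_nonneg_left h2 (by positivity)
  have h6 : ∑ j ∈ Finset.range (k + 1), (((j : ℝ) + 1) ^ β - (j : ℝ) ^ β) = ((k : ℝ) + 1) ^ β := by
    have := Finset.sum_range_sub (fun j : ℕ => (j : ℝ) ^ β) (k + 1)
    push_cast at this
    rw [this, Real.zero_rpow hβ.ne', sub_zero]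
  have hk0 : (0 : ℝ) ≤ (k : ℝ) := k.cast_nonneg
  have h7 : ((k : ℝ) + 1) ^ β ≤ 2 ^ β * ((k : ℝ) + 1 / 2) ^ β := by
    rw [← Real.mul_rpow (by norm_num) (by positivity)]
    exact Real.rpow_le_rpow (by positivity) (by linarith) hβ.le
  have h8 : (2 : ℝ) ^ (1 - β) * 2 ^ β = 2 := by
    rw [← Real.rpow_add (by norm_num)]
    simp
  calc ∑ j ∈ Finset.range (k + 1), ((j : ℝ) + 1 / 2) ^ (β - 1)
      ≤ ∑ j ∈ Finset.range (k + 1), (2 : ℝ) ^ (1 - β) / β * (((j : ℝ) + 1) ^ β - (j : ℝ) ^ β) :=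
        Finset.sum_le_sum (fun j _ => h1 j)
    _ = (2 : ℝ) ^ (1 - β) / β * ((k : ℝ) + 1) ^ β := by rw [← Finset.mul_sum, h6]
    _ ≤ (2 : ℝ) ^ (1 - β) / β * (2 ^ β * ((k : ℝ) + 1 / 2) ^ β) :=
        mul_le_mul_of_nonneg_left h7 (by positivity)
    _ = ((2 : ℝ) ^ (1 - β) * 2 ^ β) / β * ((k : ℝ) + 1 / 2) ^ β := by ring
    _ = _ := by rw [h8]

/-- Riemann sums without resonance -/
theorem riemann_nonres (β : ℝ) (hβ : 0 < β) : ∃ C : ℝ, 0 < C ∧ ∀ (μ L : ℝ), 0 < μ → 0 < L → ∀ k : ℕ,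
    Real.sqrt μ * L = 2 * Real.pi * (k + 1 / 2) → ∀ s : Finset ℤ,
      (1 / L) * ∑ m ∈ s, (if mom L m ^ 2 < μ then (μ - mom L m ^ 2) ^ (β - 1) else 0) ≤ C * μ ^ (β - 1 / 2) := by
  refine ⟨2 / Real.pi + 2 / (β * Real.pi), by positivity, ?_⟩
  intro μ L hμ hL k hk s
  have hπ := Real.pi_pos
  set h : ℝ := 2 * Real.pi / L with hh
  have hh0 : 0 < h := by positivity
  set a : ℝ := (k : ℝ) + 1 / 2 with ha
  have ha0 : 0 < a := by positivity
  have hsq : Real.sqrt μ = h * a := by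
    rw [hh, div_mul_eq_mul_div, eq_div_iff hL.ne', hk]
  have hμe : μ = (h * a) ^ 2 := by
    rw [← hsq, Real.sq_sqrt hμ.le]
  have hmom : ∀ m : ℤ, mom L m = h * m := by
    intro m
    unfold mom
    rw [hh]
    ring
  have hLh : 1 / L = h / (2 * Real.pi) := by
    rw [hh]
    field_simp
  rw [← Finset.sum_filter]
  set T := s.filter (fun m => mom L m ^ 2 < μ) with hTdef
  have habs : ∀ m ∈ T, |(m : ℝ)| < a := by
    intro m hm
    rw [hTdef, Finset.mem_filter, hmom, hμe] at hm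
    have h1 := abs_lt_of_sq_lt_sq hm.2 (by positivity)
    rw [abs_lt] at h1
    have h2 : h * (m : ℝ) < h * a := h1.2
    have h3 : h * (-a) < h * (m : ℝ) := by linarith [h1.1]
    rw [abs_lt]
    exact ⟨lt_of_mul_lt_mul_left h3 hh0.le, lt_of_mul_lt_mul_left h2 hh0.le⟩
  have hnat : ∀ m : ℤ, ((m.natAbs : ℕ) : ℝ) = |(m : ℝ)| := by
    intro m
    rw [Nat.cast_natAbs, Int.cast_abs]
  have hT : ∀ m ∈ T, m.natAbs ∈ Finset.range (k + 1) := by
    intro m hm
    have h1 := habs m hm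
    rw [← hnat, ha] at h1
    rw [Finset.mem_range]
    by_contra hcon
    push Not at hcon
    have h2 : ((k : ℝ) + 1) ≤ (m.natAbs : ℝ) := by exact_mod_cast hcon
    linarith
  have hpow : μ ^ (β - 1 / 2) = (h * a) ^ (2 * β - 1) := by
    rw [hμe, ← Real.rpow_natCast, ← Real.rpow_mul (by positivity)]
    congr 1
    push_cast
    ring
  have hμp : 0 < μ ^ (β - 1 / 2) := Real.rpow_pos_of_pos hμ _
  rcases le_or_gt 1 β with hb | hb
  · -- β ≥ 1
    have hF : ∀ m ∈ T, (μ - mom L m ^ 2) ^ (β - 1) ≤ μ ^ (β - 1) := by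
      intro m hm
      rw [hTdef, Finset.mem_filter] at hm
      refine Real.rpow_le_rpow (by linarith [hm.2]) ?_ (by linarith)
      have := sq_nonneg (mom L m)
      linarith
    have h1 := rn_fiber T k (fun m => (μ - mom L m ^ 2) ^ (β - 1)) (fun _ => μ ^ (β - 1))
      (fun i _ => (Real.rpow_pos_of_pos hμ _).le) hT hF
    rw [Finset.sum_const, Finset.card_range, nsmul_eq_mul] at h1
    have h2 : (((k + 1 : ℕ) : ℝ)) ≤ 2 * a := by
      push_cast
      rw [ha]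
      have : (0 : ℝ) ≤ (k : ℝ) := k.cast_nonneg
      linarith
    have hP : 0 < μ ^ (β - 1) := Real.rpow_pos_of_pos hμ _
    have h3 : ∑ m ∈ T, (μ - mom L m ^ 2) ^ (β - 1) ≤ 4 * a * μ ^ (β - 1) := by
      nlinarith
    have h4 : μ ^ (β - 1 / 2) = (h * a) * μ ^ (β - 1) := by
      have : β - 1 / 2 = 1 / 2 + (β - 1) := by ring
      rw [this, Real.rpow_add hμ, ← Real.sqrt_eq_rpow, hsq]
    calc (1 / L) * ∑ m ∈ T, (μ - mom L m ^ 2) ^ (β - 1) ≤ (1 / L) * (4 * a * μ ^ (β - 1)) :=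
          mul_le_mul_of_nonneg_left h3 (by positivity)
      _ = 2 / Real.pi * μ ^ (β - 1 / 2) := by
          rw [hLh, h4]
          field_simp
          ring
      _ ≤ _ := by
          refine mul_le_mul_of_nonneg_right ?_ hμp.le
          have : 0 < 2 / (β * Real.pi) := by positivity
          linarith
  · -- β < 1
    have hF : ∀ m ∈ T, (μ - mom L m ^ 2) ^ (β - 1) ≤
        (h ^ 2 * a) ^ (β - 1) * (a - (m.natAbs : ℝ)) ^ (β - 1) := by
      intro m hm
      have h1 := habs m hm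
      have h2 : 0 < a - (m.natAbs : ℝ) := by rw [hnat]; linarith
      rw [← Real.mul_rpow (by positivity) h2.le]
      refine Real.rpow_le_rpow_of_nonpos (by positivity) ?_ (by linarith)
      rw [hmom, hμe, hnat]
      have h3 : (h * (m : ℝ)) ^ 2 = h ^ 2 * |(m : ℝ)| ^ 2 := by
        rw [mul_pow, sq_abs]
      rw [h3]
      have h4 : 0 ≤ |(m : ℝ)| := abs_nonneg _
      have h5 : 0 ≤ h ^ 2 * ((a - |(m : ℝ)|) * |(m : ℝ)|) := by
        have : 0 ≤ a - |(m : ℝ)| := by linarith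
        positivity
      nlinarith [h5]
    have h1 := rn_fiber T k (fun m => (μ - mom L m ^ 2) ^ (β - 1))
      (fun i => (h ^ 2 * a) ^ (β - 1) * (a - (i : ℝ)) ^ (β - 1)) (by
        intro i hi
        rw [Finset.mem_range] at hi
        have : (i : ℝ) ≤ k := by exact_mod_cast Nat.lt_succ_iff.1 hi
        have h2 : 0 ≤ a - (i : ℝ) := by rw [ha]; linarith
        positivity) hT hF
    rw [← Finset.mul_sum] at h1
    have h2 : ∑ i ∈ Finset.range (k + 1), (a - (i : ℝ)) ^ (β - 1)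
        = ∑ j ∈ Finset.range (k + 1), ((j : ℝ) + 1 / 2) ^ (β - 1) := by
      rw [← Finset.sum_range_reflect]
      refine Finset.sum_congr rfl ?_
      intro j hj
      rw [Finset.mem_range] at hj
      have h3 : ((k + 1 - 1 - j : ℕ) : ℝ) = (k : ℝ) - (j : ℝ) := by
        rw [Nat.add_sub_cancel, Nat.cast_sub (by omega)]
      rw [h3, ha]
      congr 1
      ring
    rw [h2] at h1
    have h3 := rn_sum β hβ hb.le k
    rw [← ha] at h3
    have hA : 0 < (h ^ 2 * a) ^ (β - 1) := Real.rpow_pos_of_pos (by positivity) _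
    have h4 : ∑ m ∈ T, (μ - mom L m ^ 2) ^ (β - 1) ≤
        2 * ((h ^ 2 * a) ^ (β - 1) * (2 / β * a ^ β)) := by
      refine h1.trans ?_
      have := mul_le_mul_of_nonneg_left h3 hA.le
      linarith
    have h5 : (h ^ 2 * a) ^ (β - 1) * a ^ β * h = (h * a) ^ (2 * β - 1) := by
      rw [Real.mul_rpow (by positivity) ha0.le, Real.mul_rpow hh0.le ha0.le]
      have e1 : (h ^ 2) ^ (β - 1) = h ^ (2 * β - 2) := by
        rw [← Real.rpow_natCast, ← Real.rpow_mul hh0.le]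
        congr 1
        push_cast
        ring
      have e2 : h ^ (2 * β - 1) = h ^ (2 * β - 2) * h := by
        have : 2 * β - 1 = (2 * β - 2) + 1 := by ring
        rw [this, Real.rpow_add_one hh0.ne']
      have e3 : a ^ (2 * β - 1) = a ^ (β - 1) * a ^ β := by
        rw [← Real.rpow_add ha0]
        congr 1
        ring
      rw [e1, e2, e3]
      ring
    calc (1 / L) * ∑ m ∈ T, (μ - mom L m ^ 2) ^ (β - 1)
        ≤ (1 / L) * (2 * ((h ^ 2 * a) ^ (β - 1) * (2 / β * a ^ β))) :=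
          mul_le_mul_of_nonneg_left h4 (by positivity)
      _ = 2 / (β * Real.pi) * ((h ^ 2 * a) ^ (β - 1) * a ^ β * h) := by
          rw [hLh]
          field_simp
      _ = 2 / (β * Real.pi) * μ ^ (β - 1 / 2) := by rw [h5, hpow]
      _ ≤ _ := by
          refine mul_le_mul_of_nonneg_right ?_ hμp.le
          have : 0 < 2 / Real.pi := by positivity
          linarith

end Pool.Agent.Helper209.PL.QA
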