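import Pool.Agent.Helper209.PL.Defs
import Pool.Agent.Helper209.PL.NDefs

set_option autoImplicit false

namespace Pool.Agent.Helper209.PL.QB

open MeasureTheory Set
open scoped SchwartzMap InnerProductSpace FourierTransform


/-- proved elsewhere, use as hypothesis -/
def WboundStmt : Prop := ∀ (β : ℝ), 0 < β → ∀ (μ δ a b : ℝ), 0 < δ → δ < μ → a < b →
    ∫⁻ t in Ioo δ μ, ENNReal.ofReal (if a < μ - t ∧ μ - t ≤ b then t ^ (β - 1) else 0)
      ≤ ENNReal.ofReal (if a < μ - δ then (1 + 1 / β) * ((b - a) * (μ - a) ^ (β - 1)) else 0)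

/-- the bound up to the edge -/
theorem wbound0 (hW : WboundStmt) (β : ℝ) (hβ : 0 < β) (μ a b : ℝ) (hμ : 0 < μ) (hab : a < b) :
    ∫⁻ t in Ioo 0 μ, ENNReal.ofReal (if a < μ - t ∧ μ - t ≤ b then t ^ (β - 1) else 0)
      ≤ ENNReal.ofReal (if a < μ then (1 + 1 / β) * ((b - a) * (μ - a) ^ (β - 1)) else 0) := by
  have hU : Ioo 0 μ = ⋃ n : ℕ, Ioo (μ / ((n:ℝ) + 2)) μ := by
    ext t
    simp only [mem_iUnion, mem_Ioo]
    constructor
    · rintro ⟨h1, h2⟩
      obtain ⟨n, hn⟩ := exists_nat_gt (μ / t)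
      refine ⟨n, ?_, h2⟩
      rw [div_lt_iff₀ (by positivity)]
      rw [div_lt_iff₀ h1] at hn
      nlinarith
    · rintro ⟨n, h1, h2⟩
      exact ⟨lt_trans (by positivity) h1, h2⟩
  have hdir : Directed (· ⊆ ·) (fun n : ℕ => Ioo (μ / ((n:ℝ) + 2)) μ) := by
    refine Monotone.directed_le (f := fun n : ℕ => Ioo (μ / ((n:ℝ) + 2)) μ) ?_
    intro m n hmn
    refine Ioo_subset_Ioo_left ?_
    have : (m:ℝ) ≤ n := by exact_mod_cast hmn
    exact div_le_div_of_nonneg_left hμ.le (by positivity) (by linarith)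
  rw [hU, setLIntegral_iUnion_of_directed _ hdir]
  refine iSup_le fun n => ?_
  have hδ : 0 < μ / ((n:ℝ) + 2) := by positivity
  have hδ2 : μ / ((n:ℝ) + 2) < μ := by
    rw [div_lt_iff₀ (by positivity)]
    have : (0:ℝ) ≤ n := Nat.cast_nonneg n
    nlinarith
  refine (hW β hβ μ (μ / ((n:ℝ) + 2)) a b hδ hδ2 hab).trans ?_
  by_cases h : a < μ - μ / ((n:ℝ) + 2)
  · rw [if_pos h, if_pos (by linarith)]
  · rw [if_neg h]
    simp

end Pool.Agent.Helper209.PL.QB
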