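import Pool.Agent.Helper209.PL.Defs
import Pool.Agent.Helper209.PL.NDefs

set_option autoImplicit false

namespace Pool.Agent.Helper209.PL.QC

open MeasureTheory Set
open scoped SchwartzMap InnerProductSpace FourierTransform




theorem riem_sum (f : ℤ → ℝ) (hev : ∀ n, f (-n) = f n) (N : ℕ)
    (hN : ∀ n : ℕ, N ≤ n → f n = 0) :
    ∑' n : ℤ, f n = ∑ n ∈ Finset.range N, f (n : ℤ) +
      ∑ n ∈ Finset.range N, f ((n + 1 : ℕ) : ℤ) := by
  have h2 : ∀ n : ℕ, f (-((n : ℤ) + 1)) = f ((n + 1 : ℕ) : ℤ) := by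
    intro n
    rw [hev]
    rfl
  have hs1 : Summable (fun n : ℕ => f (n : ℤ)) := by
    apply summable_of_ne_finset_zero (s := Finset.range N)
    intro n hn
    rw [Finset.mem_range, not_lt] at hn
    exact hN n hn
  have hs2 : Summable (fun n : ℕ => f ((n + 1 : ℕ) : ℤ)) := by
    apply summable_of_ne_finset_zero (s := Finset.range N)
    intro n hn
    rw [Finset.mem_range, not_lt] at hn
    exact hN (n + 1) (by omega)
  have hs3 : Summable (fun n : ℕ => f (-((n : ℤ) + 1))) := by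
    simp only [h2]
    exact hs2
  rw [tsum_of_nat_of_neg_add_one hs1 hs3]
  simp only [h2]
  congr 1
  · apply tsum_eq_sum
    intro n hn
    rw [Finset.mem_range, not_lt] at hn
    exact hN n hn
  · apply tsum_eq_sum
    intro n hn
    rw [Finset.mem_range, not_lt] at hn
    exact hN (n + 1) (by omega)

theorem riem_aux (g : ℝ → ℝ) (hev : ∀ x, g (-x) = g x) (hanti : AntitoneOn g (Set.Ici 0))
    (N : ℕ) (hN : ∀ x : ℝ, (N : ℝ) ≤ x → g x = 0) :
    |(∑' n : ℤ, g n) - ∫ x : ℝ, g x| ≤ g 0 := by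
  have e1 : ∑' n : ℤ, g n = ∑ n ∈ Finset.range N, g ((0:ℝ) + (n : ℝ)) +
      ∑ n ∈ Finset.range N, g ((0:ℝ) + ((n + 1 : ℕ) : ℝ)) := by
    have h1 := riem_sum (fun n : ℤ => g (n : ℝ)) (fun n => by
      show g ((-n : ℤ) : ℝ) = g (n : ℝ)
      rw [Int.cast_neg, hev]) N (fun n hn => by
      show g (((n : ℕ) : ℤ) : ℝ) = 0
      rw [Int.cast_natCast]
      exact hN _ (by exact_mod_cast hn))
    rw [h1]
    simp only [Int.cast_natCast, zero_add]
  have hga : ∀ x, g |x| = g x := by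
    intro x
    rcases abs_choice x with h | h
    · rw [h]
    · rw [h, hev]
  have e2 : ∫ x : ℝ, g x = 2 * ∫ x in (0:ℝ)..((0:ℝ) + (N : ℕ)), g x := by
    have h1 : ∫ x : ℝ, g x = ∫ x : ℝ, g |x| := by
      congr 1
      funext x
      rw [hga]
    rw [h1, integral_comp_abs, zero_add, intervalIntegral.integral_of_le (Nat.cast_nonneg N)]
    congr 1
    apply setIntegral_eq_of_subset_of_forall_sdiff_eq_zero measurableSet_Ioi
    · exact Set.Ioc_subset_Ioi_self
    · rintro x ⟨hx1, hx2⟩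
      apply hN
      by_contra hc
      push Not at hc
      exact hx2 ⟨hx1, hc.le⟩
  have hant : AntitoneOn g (Set.Icc (0:ℝ) (0 + (N : ℕ))) :=
    hanti.mono Set.Icc_subset_Ici_self
  have i1 := hant.sum_le_integral
  have i2 := hant.integral_le_sum
  have htel : ∑ n ∈ Finset.range N, g ((0:ℝ) + (n : ℝ)) -
      ∑ n ∈ Finset.range N, g ((0:ℝ) + ((n + 1 : ℕ) : ℝ)) = g 0 := by
    rw [← Finset.sum_sub_distrib]
    have := Finset.sum_range_sub' (fun n : ℕ => g ((0:ℝ) + (n : ℝ))) N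
    rw [this]
    simp only [Nat.cast_zero, add_zero, zero_add]
    rw [hN N le_rfl]
    ring
  rw [e1, e2, abs_le]
  constructor <;> linarith

/-- Riemann sums of a unimodal function -/
theorem riem_bv (β : ℝ) (hβ : 0 < β) (μ : ℝ) (hμ : 0 < μ) (L : ℝ) (hL : 0 < L) :
      |(1 / L) * (∑' n : ℤ, (max (μ - mom L n ^ 2) 0) ^ β)
        - (1 / (2 * Real.pi)) * ∫ p : ℝ, (max (μ - p ^ 2) 0) ^ β| ≤ μ ^ β / L := by
  set h : ℝ := 2 * Real.pi / L with hh
  have hpi := Real.pi_pos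
  have hpos : 0 < h := by positivity
  set f : ℝ → ℝ := fun p => (max (μ - p ^ 2) 0) ^ β with hf
  obtain ⟨N, hN⟩ := exists_nat_gt (Real.sqrt μ / h)
  have hf0 : ∀ p : ℝ, Real.sqrt μ ≤ p → f p = 0 := by
    intro p hp
    have h1 : μ ≤ p ^ 2 := by
      rw [← Real.sq_sqrt hμ.le]
      exact pow_le_pow_left₀ (Real.sqrt_nonneg _) hp 2
    show (max (μ - p ^ 2) 0) ^ β = 0
    rw [max_eq_right (by linarith), Real.zero_rpow hβ.ne']
  have key := riem_aux (fun x => f (h * x)) (by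
    intro x
    show (max (μ - (h * -x) ^ 2) 0) ^ β = (max (μ - (h * x) ^ 2) 0) ^ β
    congr 2
    ring) (by
    intro x hx y hy hxy
    show (max (μ - (h * y) ^ 2) 0) ^ β ≤ (max (μ - (h * x) ^ 2) 0) ^ β
    apply Real.rpow_le_rpow (le_max_right _ _) _ hβ.le
    apply max_le_max _ le_rfl
    have h1 : h * x ≤ h * y := mul_le_mul_of_nonneg_left hxy hpos.le
    have h2 : 0 ≤ h * x := mul_nonneg hpos.le hx
    have := pow_le_pow_left₀ h2 h1 2
    linarith) N (by
    intro x hx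
    apply hf0
    have h1 : Real.sqrt μ / h ≤ x := hN.le.trans hx
    rw [div_le_iff₀ hpos] at h1
    linarith)
  have hint : ∫ x : ℝ, f (h * x) = h⁻¹ * ∫ p : ℝ, f p := by
    rw [Measure.integral_comp_mul_left, abs_of_pos (inv_pos.2 hpos), smul_eq_mul]
  have hsum : ∑' n : ℤ, (max (μ - mom L n ^ 2) 0) ^ β = ∑' n : ℤ, f (h * (n : ℝ)) := by
    congr 1
    funext n
    show _ = (max (μ - (h * (n : ℝ)) ^ 2) 0) ^ β
    unfold mom
    rw [hh]
    congr 4
    ring
  have h00 : f (h * 0) = μ ^ β := by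
    show (max (μ - (h * 0) ^ 2) 0) ^ β = μ ^ β
    congr 1
    rw [mul_zero]
    simp [hμ.le]
  have key : |(∑' n : ℤ, f (h * (n : ℝ))) - ∫ x : ℝ, f (h * x)| ≤ f (h * 0) := key
  rw [hint, h00] at key
  rw [hsum]
  have e : (1 / L) * (∑' n : ℤ, f (h * (n : ℝ))) - (1 / (2 * Real.pi)) * ∫ p : ℝ, f p =
      (1 / L) * ((∑' n : ℤ, f (h * (n : ℝ))) - h⁻¹ * ∫ p : ℝ, f p) := by
    rw [hh]
    field_simp
  have hfin : |(1 / L) * (∑' n : ℤ, f (h * (n : ℝ))) - (1 / (2 * Real.pi)) * ∫ p : ℝ, f p| ≤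
      μ ^ β / L := by
    rw [e, abs_mul, abs_of_pos (by positivity : 0 < 1 / L), div_eq_mul_one_div (μ ^ β) L,
      mul_comm (μ ^ β)]
    exact mul_le_mul_of_nonneg_left key (by positivity)
  exact hfin

end Pool.Agent.Helper209.PL.QC
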