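import Pool.Agent.Helper209.PL.Main3
import Pool.Agent.Helper209.PL.LineFam2
import Pool.Agent.Helper209.PL.Integ2
import Pool.Agent.Helper209.PL.Off2
import Pool.Agent.Helper209.PL.LineApprox2
import Pool.Agent.Helper209.PL.QA
import Pool.Agent.Helper209.PL.QB
import Pool.Agent.Helper209.PL.QC

set_option autoImplicit false

namespace Pool.Agent.Helper209.PL

open MeasureTheory Set
open scoped SchwartzMap InnerProductSpace FourierTransform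

theorem hOffInt0 : Integ2.OffIntegral0Stmt := by
  intro β hβ
  exact Off2.off_integral0 (fun β hβ μ a b hμ hab => QB.wbound0
      (fun β hβ μ δ a b hδ hδμ hab => Layer.wbound β hβ μ δ a b hδ hδμ hab) β hβ μ a b hμ hab)
    (fun β hβ => QA.riemann_nonres β hβ) (fun L hL W hW m s => Orth.vh_bessel L hL W hW m s) β hβ

theorem integ2 (γ : ℝ) (hγ : 1 < γ) :
    ∃ C : ℝ, 0 < C ∧ ∀ (μ : ℝ), 0 < μ → ∀ (B F ε : ℝ), 0 ≤ B → 0 ≤ F → 0 < ε →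
      ∃ L0 : ℝ, 0 < L0 ∧ ∀ L : ℝ, L0 ≤ L → ∀ k : ℕ, Real.sqrt μ * L = 2 * Real.pi * (k + 1 / 2) →
        ∀ (V : ℝ → ℝ), Continuous V → HasCompactSupport V → (∫ x, V x ^ 2) ≤ B ^ 2 → (∫ x, FF γ μ (V x)) ≤ F →
        ∀ (M : ℝ), μ ≤ M → ∀ (G : ℝ → ℝ),
        IntervalIntegrable (fun t : ℝ => t ^ (γ - 2) * G t) volume 0 M → LevelBounds L μ M V G →
        γ * (γ - 1) * ∫ t in (0 : ℝ)..M, t ^ (γ - 2) * G t ≤ C * (∫ x, FF γ μ (V x)) + ε :=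
  Integ2.integ2 (fun β hβ => Layer.beta_int β hβ) hFFB
    (fun β hβ q hq μ hμ M hM L hL v hv => NegLayer.neg_layer β hβ q hq μ hμ M hM L hL v hv)
    (fun L W μ => Off.off_measurable L W μ)
    (fun L hL W hW ν => BoxLevel.offE_lt_top hVh L hL W hW ν) hOffInt0 γ hγ

theorem line_family2 {ι : Type} [Fintype ι] (L ρ μ : ℝ) (hρ : 0 < ρ) (hL : 4 * ρ < L) (hμ : 0 < μ)
    (V : ℝ → ℝ) (hV : Continuous V)
    (χ : ι → 𝓢(ℝ, ℂ)) (Λ : ℝ) (hΛ : 0 < Λ)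
    (hBes : ∀ a : L2R, ∑ j, ‖∫ x, χ j x * (starRingEnd ℂ) (a x)‖ ^ 2 ≤ Λ * ‖a‖ ^ 2)
    (t : ℝ) (ht : 0 < t) (G : ℝ)
    (hG : G = (1 / Λ) * locEn V ρ (μ - t) χ
        - ((1 / L) * ∫ x, cutoff ρ x ^ 2) * bgsum L (μ - t)
        + (1 / L) * bgcount L (μ - t) * (∫ x in (-(L / 2))..(L / 2), cutoff ρ x ^ 2 * V x)
        - (1 / L) * bgcount L (μ - t) * (∫ x in (-(L / 2))..(L / 2), deriv (cocut ρ) x ^ 2)) :
    (t < μ → G ≤ 3 * (∫ x in (-(L / 2))..(L / 2), (max (-V x) 0) ^ (3 / 2 : ℝ))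
      + (Real.sqrt (μ - t) / Real.pi + 9 / L) * (∫ x in (-(L / 2))..(L / 2), |V x|)) ∧
    (t < μ → G ≤ (8 / Real.sqrt (μ - t)) * (∫ x in (-(L / 2))..(L / 2), V1 μ (V x) ^ 2)
      + 11 * (∫ x in (-(L / 2))..(L / 2), V2 μ (V x) ^ (3 / 2 : ℝ))
      + (Real.sqrt (μ - t) / Real.pi + 1 / L) * (∫ x in (-(L / 2))..(L / 2), (V2 μ (V x) + V3 μ (V x)))
      + (8 / L) * (∫ x in (-(L / 2))..(L / 2), |V x|)
      + 2 * (offE L (fun x => V1 μ (V x)) (μ - t)).toReal) ∧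
    (μ ≤ t → G ≤ (∫ x in (-(L / 2))..(L / 2), (max (-V x - (t - μ)) 0) ^ (3 / 2 : ℝ))
      + (2 / L) * (∫ x in (-(L / 2))..(L / 2), max (-V x - (t - μ)) 0)) :=
  LineFam2.line_family2 hBoxLevel (fun L hL m n => Orth.wave_orth L hL m n)
    (fun L hL f hf s => Orth.wave_bessel L hL f hf s) hCut L ρ μ hρ hL hμ V hV χ Λ hΛ hBes t ht G hG

/-- data of a resolvent used below -/
def DenseProp (V : ℝ → ℝ) (c : ℝ) : Prop :=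
  ∀ (f : L2R) (ε : ℝ), 0 < ε → ∃ (χ : 𝓢(ℝ, ℂ)) (w : L2R),
      (w : ℝ → ℂ) =ᵐ[volume] (fun x => -(deriv (deriv (χ : ℝ → ℂ)) x) + ((V x + c : ℝ) : ℂ) * χ x) ∧
      ‖w - f‖ < ε

theorem line_approx2 (V : ℝ → ℝ) (hV : Continuous V) (c : ℝ) (hD : DenseProp V c)
    (K : ℝ) (hK0 : 0 < K) (hK : LineApprox.SupProp V c K)
    (R : L2R →L[ℂ] L2R) (hR : IsResolvent V c R) (hsa : IsSelfAdjoint R)
    (ρ : ℝ) (hρ : 0 < ρ) (Θ : L2R →L[ℂ] L2R) (hΘ : IsMul (cutoff ρ) Θ) (e : HilbertBasis ℕ ℂ L2R)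
    (J : Finset ℕ) (ν : ℝ) (hν : 0 < ν + c) (ε : ℝ) (hε : 0 < ε) :
    ∃ (N : ℕ) (χ : Fin N → 𝓢(ℝ, ℂ)) (Λ : ℝ), 1 ≤ Λ ∧
      (∀ a : L2R, ∑ j, ‖∫ x, χ j x * (starRingEnd ℂ) (a x)‖ ^ 2 ≤ Λ * ‖a‖ ^ 2) ∧
      ∑ i ∈ J, (⟪Θ (e i), negPow 1 ν c R (Θ (e i))⟫_ℂ).re
        ≤ (1 / Λ) * locEn V ρ ν χ + K ^ 2 * (ν + c) ^ 2 * (∫ x, deriv (cutoff ρ) x ^ 2) + ε := by
  refine LineApprox2.line_approx2 hCut (fun θ hθ hs V hV χ => Cut.ims θ hθ hs V hV χ) ?_ ?_ ?_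
    V hV c hD K hK0 hK R hR hsa ρ hρ Θ hΘ e J ν hν ε hε
  · intro V hV c K hK0 hK ι _ χ w hw Λ hΛ0 hΛ x
    exact ResLoc.sup_family V hV c K hK0 hK χ w hw Λ hΛ0 hΛ x
  · intro H _ _ _ b X Y hX hY
    exact Hs.hs_cyclic b X Y hX hY
  · intro H _ _ _ ν c hνc R hR k hk
    exact Cfc2.level_factor ν c hνc R hR k hk

/-- level bounds for localised traces on the line, general potentials -/
theorem line_level2 (V : ℝ → ℝ) (hV : Continuous V) (c : ℝ) (hc0 : 0 < c) (hD : DenseProp V c)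
    (K : ℝ) (hK0 : 0 < K) (hK : LineApprox.SupProp V c K)
    (R : L2R →L[ℂ] L2R) (hR : IsResolvent V c R) (hsa : IsSelfAdjoint R)
    (Kc ρ : ℝ) (hρ : 0 < ρ)
    (hKc1 : (∫ x, deriv (cutoff ρ) x ^ 2) ≤ Kc / ρ)
    (hKc2 : ∀ L : ℝ, 0 < L → (∫ x in (-(L / 2))..(L / 2), deriv (cocut ρ) x ^ 2) ≤ Kc / ρ)
    (hKc0 : 0 < Kc)
    (L : ℝ) (hL : 4 * ρ < L) (μ : ℝ) (hμ : 0 < μ)
    (Θ : L2R →L[ℂ] L2R) (hΘ : IsMul (cutoff ρ) Θ) (e : HilbertBasis ℕ ℂ L2R) (J : Finset ℕ) :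
    LevelBounds L μ (μ + c) V (fun t =>
      (∑ i ∈ J, (⟪Θ (e i), negPow 1 (μ - t) c R (Θ (e i))⟫_ℂ).re)
        - ((1 / L) * ∫ x, cutoff ρ x ^ 2) * bgsum L (μ - t)
        + (1 / L) * bgcount L (μ - t) * (∫ x in (-(L / 2))..(L / 2), cutoff ρ x ^ 2 * V x)
        - ((Real.sqrt μ / Real.pi + 1 / L) * (Kc / ρ) + K ^ 2 * (μ + c) ^ 2 * (Kc / ρ))) := by
  have hL0 : 0 < L := by linarith
  have key : ∀ t : ℝ, 0 < t → t < μ + c → ∀ ε : ℝ, 0 < ε → ∃ G0 : ℝ,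
      ((∑ i ∈ J, (⟪Θ (e i), negPow 1 (μ - t) c R (Θ (e i))⟫_ℂ).re)
        - ((1 / L) * ∫ x, cutoff ρ x ^ 2) * bgsum L (μ - t)
        + (1 / L) * bgcount L (μ - t) * (∫ x in (-(L / 2))..(L / 2), cutoff ρ x ^ 2 * V x)
        - ((Real.sqrt μ / Real.pi + 1 / L) * (Kc / ρ) + K ^ 2 * (μ + c) ^ 2 * (Kc / ρ))) ≤ G0 + ε ∧
      (t < μ → G0 ≤ 3 * (∫ x in (-(L / 2))..(L / 2), (max (-V x) 0) ^ (3 / 2 : ℝ))
      + (Real.sqrt (μ - t) / Real.pi + 9 / L) * (∫ x in (-(L / 2))..(L / 2), |V x|)) ∧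
    (t < μ → G0 ≤ (8 / Real.sqrt (μ - t)) * (∫ x in (-(L / 2))..(L / 2), V1 μ (V x) ^ 2)
      + 11 * (∫ x in (-(L / 2))..(L / 2), V2 μ (V x) ^ (3 / 2 : ℝ))
      + (Real.sqrt (μ - t) / Real.pi + 1 / L) * (∫ x in (-(L / 2))..(L / 2), (V2 μ (V x) + V3 μ (V x)))
      + (8 / L) * (∫ x in (-(L / 2))..(L / 2), |V x|)
      + 2 * (offE L (fun x => V1 μ (V x)) (μ - t)).toReal) ∧
    (μ ≤ t → G0 ≤ (∫ x in (-(L / 2))..(L / 2), (max (-V x - (t - μ)) 0) ^ (3 / 2 : ℝ))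
      + (2 / L) * (∫ x in (-(L / 2))..(L / 2), max (-V x - (t - μ)) 0)) := by
    intro t ht htc ε hε
    obtain ⟨N, χ, Λ, hΛ1, hBes, hS⟩ := line_approx2 V hV c hD K hK0 hK R hR hsa ρ hρ Θ hΘ e J (μ - t)
      (by linarith) ε hε
    refine ⟨_, ?_, line_family2 L ρ μ hρ hL hμ V hV χ Λ (by linarith) hBes t ht _ rfl⟩
    obtain ⟨hc1, hc2⟩ := bgcount_bound L hL0 μ (μ - t) (by linarith) hμ
    have h1 : (1 / L) * bgcount L (μ - t) * (∫ x in (-(L / 2))..(L / 2), deriv (cocut ρ) x ^ 2)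
        ≤ (Real.sqrt μ / Real.pi + 1 / L) * (Kc / ρ) := by
      have hn : 0 ≤ ∫ x in (-(L / 2))..(L / 2), deriv (cocut ρ) x ^ 2 :=
        intervalIntegral.integral_nonneg (by linarith) (fun x _ => sq_nonneg _)
      exact mul_le_mul hc2 (hKc2 L hL0) hn (hc1.trans hc2)
    have h2 : K ^ 2 * (μ - t + c) ^ 2 * (∫ x, deriv (cutoff ρ) x ^ 2)
        ≤ K ^ 2 * (μ + c) ^ 2 * (Kc / ρ) := by
      have hn : 0 ≤ ∫ x, deriv (cutoff ρ) x ^ 2 := integral_nonneg (fun x => sq_nonneg _)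
      have h3 : (μ - t + c) ^ 2 ≤ (μ + c) ^ 2 := by
        apply pow_le_pow_left₀ (by linarith) (by linarith)
      exact mul_le_mul (mul_le_mul_of_nonneg_left h3 (sq_nonneg _)) hKc1 hn (by positivity)
    linarith
  refine ⟨?_, ?_, ?_⟩
  · intro t ht htμ
    refine le_of_forall_pos_le_add (fun ε hε => ?_)
    obtain ⟨G0, h1, h2, -, -⟩ := key t ht (by linarith) ε hε
    have := h2 htμ
    dsimp only
    linarith
  · intro t ht htμ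
    refine le_of_forall_pos_le_add (fun ε hε => ?_)
    obtain ⟨G0, h1, -, h2, -⟩ := key t ht (by linarith) ε hε
    have := h2 htμ
    dsimp only
    linarith
  · intro t htμ htM
    refine le_of_forall_pos_le_add (fun ε hε => ?_)
    obtain ⟨G0, h1, -, -, h2⟩ := key t (by linarith) htM ε hε
    have := h2 htμ
    dsimp only
    linarith

end Pool.Agent.Helper209.PL
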