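import Pool.Agent.Helper209.PL.Main7

set_option autoImplicit false

namespace Pool.Agent.Helper209.PL

open MeasureTheory Set
open scoped SchwartzMap InnerProductSpace FourierTransform

/-- bound for localised traces of `(H-μ)_-^γ`, uniform version -/
theorem local_bound2 (γ : ℝ) (hγ : 1 < γ) : ∃ C : ℝ, 0 < C ∧ ∀ (μ : ℝ), 0 < μ →
    ∀ (B F c K ε : ℝ), 0 ≤ B → 0 ≤ F → 0 < c → 0 < K → 0 < ε → ∃ ρ0 : ℝ, 0 < ρ0 ∧ ∀ ρ : ℝ, ρ0 ≤ ρ →
    ∀ (V : ℝ → ℝ), Continuous V → HasCompactSupport V → (∫ x, V x ^ 2) ≤ B ^ 2 → (∫ x, FF γ μ (V x)) ≤ F →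
    DenseProp V c → LineApprox.SupProp V c K →
    ∀ (R : L2R →L[ℂ] L2R), IsResolvent V c R → IsSelfAdjoint R →
      ∀ (Θ : L2R →L[ℂ] L2R), IsMul (cutoff ρ) Θ → ∀ (e : HilbertBasis ℕ ℂ L2R) (J : Finset ℕ),
        ∑ i ∈ J, (⟪Θ (e i), negPow γ μ c R (Θ (e i))⟫_ℂ).re
          ≤ C * (∫ x, FF γ μ (V x)) + ε
            + ((1 / (2 * Real.pi)) * ∫ p : ℝ, (max (μ - p ^ 2) 0) ^ γ) * (∫ x, cutoff ρ x ^ 2)
            - γ * (((1 / (2 * Real.pi)) * ∫ p : ℝ, (max (μ - p ^ 2) 0) ^ (γ - 1)) * ∫ x, cutoff ρ x ^ 2 * V x) := by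
  obtain ⟨C, hC, hint⟩ := integ2 γ hγ
  refine ⟨C, hC, ?_⟩
  intro μ hμ B F c K ε hB0 hF0 hc0 hK0 hε
  obtain ⟨Kc, hKc0, hKc⟩ := Cut.cutoff_deriv
  obtain ⟨L1, hL1, hint1⟩ := hint μ hμ B F (ε / 4) hB0 hF0 (by positivity)
  obtain ⟨L2, hL2, hr1⟩ := Riem.riem_c1 γ hγ μ hμ (ε / 4) (by positivity)
  set M : ℝ := μ + c with hM
  have hM0 : 0 < M := by positivity
  have hsμ : 0 < Real.sqrt μ := Real.sqrt_pos.2 hμ
  set D : ℝ := (Real.sqrt μ / Real.pi + 1 + K ^ 2 * M ^ 2) * Kc * (γ * M ^ (γ - 1)) with hD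
  have hD0 : 0 < D := by
    have : 0 < M ^ (γ - 1) := Real.rpow_pos_of_pos hM0 _
    positivity
  set D2 : ℝ := 4 * (γ * (B * μ ^ (γ - 1))) / ε with hD2
  have hμγ : 0 < μ ^ (γ - 1) := Real.rpow_pos_of_pos hμ _
  have hD20 : 0 ≤ D2 := by positivity
  refine ⟨max (max 1 (D2 ^ 2)) (max (max L1 L2) (4 * D / ε)), by positivity, ?_⟩
  intro ρ hρ V hV hVs hVB hVF hDen hK R hR hsa Θ hΘ e J
  have hρ1 : 1 ≤ ρ := le_trans (le_trans (le_max_left _ _) (le_max_left _ _)) hρ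
  have hρD2 : D2 ^ 2 ≤ ρ := le_trans (le_trans (le_max_right _ _) (le_max_left _ _)) hρ
  have hρL1 : L1 ≤ ρ := le_trans (le_trans (le_trans (le_max_left _ _) (le_max_left _ _)) (le_max_right _ _)) hρ
  have hρL2 : L2 ≤ ρ := le_trans (le_trans (le_trans (le_max_right _ _) (le_max_left _ _)) (le_max_right _ _)) hρ
  have hρD : 4 * D / ε ≤ ρ := le_trans (le_trans (le_max_right _ _) (le_max_right _ _)) hρ
  have hρ0 : 0 < ρ := by linarith
  obtain ⟨-, -, hKc1, hKc2, hcut4⟩ := hKc ρ hρ0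
  obtain ⟨hcC, hcoC, hcs, hc01, hco01, hcsum, hc1, hc2⟩ := Cut.cutoff_facts ρ hρ0
  -- the box
  set k : ℕ := ⌈8 * ρ * Real.sqrt μ / (2 * Real.pi)⌉₊ with hk
  set L : ℝ := 2 * Real.pi * (k + 1 / 2) / Real.sqrt μ with hL
  have hkL : Real.sqrt μ * L = 2 * Real.pi * (k + 1 / 2) := by
    rw [hL]; field_simp
  have hL8 : 8 * ρ ≤ L := by
    have h1 : 8 * ρ * Real.sqrt μ / (2 * Real.pi) ≤ k := Nat.le_ceil _
    rw [div_le_iff₀ (by positivity)] at h1
    rw [hL, le_div_iff₀ hsμ]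
    have := Real.pi_pos
    nlinarith
  have hL0 : 0 < L := by linarith
  have h4 : 4 * ρ < L := by linarith
  have hLρ : ρ ≤ L := by linarith
  set κ : ℝ := (1 / L) * ∫ x, cutoff ρ x ^ 2 with hκ
  set E : ℝ := (Real.sqrt μ / Real.pi + 1 / L) * (Kc / ρ) + K ^ 2 * (μ + c) ^ 2 * (Kc / ρ) with hE
  set IB : ℝ := ∫ x in (-(L / 2))..(L / 2), cutoff ρ x ^ 2 * V x with hIB
  set IV : ℝ := ∫ x, cutoff ρ x ^ 2 * V x with hIV
  have hIBV : IB = IV := by
    rw [hIB, hIV, intervalIntegral.integral_of_le (by linarith)]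
    apply setIntegral_eq_integral_of_forall_compl_eq_zero
    intro x hx
    rw [(hc2 x ?_).1]
    · ring
    · by_contra hlt
      push Not at hlt
      apply hx
      rw [abs_lt] at hlt
      constructor <;> linarith
  have hIVb : |IV| ≤ Real.sqrt L * B := by
    rw [← hIBV]
    have hbox : (∫ x in (-(L / 2))..(L / 2), V x ^ 2) ≤ B ^ 2 :=
      (Integ.integ_box_le_all (f := fun x => V x ^ 2) (hV.pow 2)
        (hVs.comp_left (g := fun y : ℝ => y ^ 2) (by simp)) (fun x => sq_nonneg _) hL0.le).trans hVB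
    refine le_trans ?_ (Integ2.box_cs V hV L B hL0 hB0 hbox)
    rw [hIB]
    refine (intervalIntegral.abs_integral_le_integral_abs (by linarith)).trans ?_
    refine intervalIntegral.integral_mono (by linarith)
      (((hcC.continuous.pow 2).mul hV).abs.intervalIntegrable _ _) (hV.abs.intervalIntegrable _ _) (fun x => ?_)
    show |cutoff ρ x ^ 2 * V x| ≤ |V x|
    rw [abs_mul, abs_of_nonneg (sq_nonneg _)]
    have h1 := (hc01 x).1
    have h2 := (hc01 x).2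
    have h3 : cutoff ρ x ^ 2 ≤ 1 := pow_le_one₀ h1 h2
    exact mul_le_of_le_one_left (abs_nonneg _) h3
  have hlev := line_level2 V hV c hc0 hDen K hK0 hK R hR hsa Kc ρ hρ0 hKc1 hKc2 hKc0 L h4 μ hμ Θ hΘ e J
  set S : ℝ → ℝ := fun t => ∑ i ∈ J, (⟪Θ (e i), negPow 1 (μ - t) c R (Θ (e i))⟫_ℂ).re with hS
  -- integrability
  have hβ : 0 < γ - 1 := by linarith
  have hexp : γ - 1 - 1 = γ - 2 := by ring
  obtain ⟨hb1, hb2, hb3, hb4⟩ := bg_layer (γ - 1) hβ μ hμ M (by linarith) L hL0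
  rw [hexp] at hb1 hb2 hb3 hb4
  have hgg : γ - 1 + 1 = γ := by ring
  rw [hgg] at hb2
  have hc5 : IntervalIntegrable (fun t : ℝ => t ^ (γ - 2)) volume 0 M :=
    intervalIntegral.intervalIntegrable_rpow' (by linarith)
  have hc6 : (∫ t in (0 : ℝ)..M, t ^ (γ - 2)) = M ^ (γ - 1) / (γ - 1) := by
    rw [integral_rpow (Or.inl (by linarith))]
    have : γ - 2 + 1 = γ - 1 := by ring
    rw [this, Real.zero_rpow hβ.ne', sub_zero]
  have hSi : IntervalIntegrable (fun t : ℝ => t ^ (γ - 2) * S t) volume 0 M := by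
    have : (fun t : ℝ => t ^ (γ - 2) * S t) = fun t => ∑ i ∈ J,
        t ^ (γ - 2) * (⟪Θ (e i), negPow 1 (μ - t) c R (Θ (e i))⟫_ℂ).re := by
      funext t; rw [hS]; simp only [Finset.mul_sum]
    rw [this]
    have hh := IntervalIntegrable.sum J (fun i _ => (Cfc1.layer_cfc γ μ c hγ hμ hc0 R hsa (Θ (e i))).1)
    have e0 : (fun t : ℝ => ∑ i ∈ J, t ^ (γ - 2) * (⟪Θ (e i), negPow 1 (μ - t) c R (Θ (e i))⟫_ℂ).re)
        = ∑ i ∈ J, fun t : ℝ => t ^ (γ - 2) * (⟪Θ (e i), negPow 1 (μ - t) c R (Θ (e i))⟫_ℂ).re := by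
      funext t
      rw [Finset.sum_apply]
    rw [e0]
    exact hh
  have hSe : γ * (γ - 1) * (∫ t in (0 : ℝ)..M, t ^ (γ - 2) * S t)
      = ∑ i ∈ J, (⟪Θ (e i), negPow γ μ c R (Θ (e i))⟫_ℂ).re := by
    have : (fun t : ℝ => t ^ (γ - 2) * S t) = fun t => ∑ i ∈ J,
        t ^ (γ - 2) * (⟪Θ (e i), negPow 1 (μ - t) c R (Θ (e i))⟫_ℂ).re := by
      funext t; rw [hS]; simp only [Finset.mul_sum]
    rw [this, intervalIntegral.integral_finsetSum
      (fun i _ => (Cfc1.layer_cfc γ μ c hγ hμ hc0 R hsa (Θ (e i))).1), Finset.mul_sum]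
    refine Finset.sum_congr rfl (fun i _ => ?_)
    exact ((Cfc1.layer_cfc γ μ c hγ hμ hc0 R hsa (Θ (e i))).2).symm
  set G : ℝ → ℝ := fun t => S t - κ * bgsum L (μ - t) + (1 / L) * bgcount L (μ - t) * IB - E with hG
  have hGform : ∀ t, t ^ (γ - 2) * G t = t ^ (γ - 2) * S t - κ * (t ^ (γ - 2) * bgsum L (μ - t))
      + (1 / L * IB) * (t ^ (γ - 2) * bgcount L (μ - t)) - E * t ^ (γ - 2) := by
    intro t; rw [hG]; ring
  have hGi : IntervalIntegrable (fun t : ℝ => t ^ (γ - 2) * G t) volume 0 M := by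
    simp_rw [hGform]
    exact (((hSi.sub (hb1.const_mul κ)).add (hb3.const_mul (1 / L * IB))).sub (hc5.const_mul E))
  have hmain := hint1 L (by linarith) k hkL V hV hVs hVB hVF M (by linarith) G hGi hlev
  have hGe : γ * (γ - 1) * (∫ t in (0 : ℝ)..M, t ^ (γ - 2) * G t)
      = (∑ i ∈ J, (⟪Θ (e i), negPow γ μ c R (Θ (e i))⟫_ℂ).re)
        - κ * (∑' n : ℤ, (max (μ - mom L n ^ 2) 0) ^ γ)
        + (1 / L * IB) * (γ * (∑' n : ℤ, (max (μ - mom L n ^ 2) 0) ^ (γ - 1)))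
        - E * (γ * M ^ (γ - 1)) := by
    simp_rw [hGform]
    rw [intervalIntegral.integral_sub (((hSi.sub (hb1.const_mul κ)).add (hb3.const_mul (1 / L * IB))))
      (hc5.const_mul E), intervalIntegral.integral_add (hSi.sub (hb1.const_mul κ)) (hb3.const_mul (1 / L * IB)),
      intervalIntegral.integral_sub hSi (hb1.const_mul κ), intervalIntegral.integral_const_mul,
      intervalIntegral.integral_const_mul, intervalIntegral.integral_const_mul, hb2, hb4, hc6, ← hSe]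
    have h1 : γ ≠ 0 := by positivity
    have h2 : γ - 1 ≠ 0 := hβ.ne'
    field_simp
  rw [hGe] at hmain
  -- Riemann sums
  have hA := hr1 L (by linarith)
  have hB := QC.riem_bv (γ - 1) hβ μ hμ L hL0
  rw [abs_le] at hA
  set SA : ℝ := ∑' n : ℤ, (max (μ - mom L n ^ 2) 0) ^ γ with hSA
  set SB : ℝ := ∑' n : ℤ, (max (μ - mom L n ^ 2) 0) ^ (γ - 1) with hSB
  set A0 : ℝ := (1 / (2 * Real.pi)) * ∫ p : ℝ, (max (μ - p ^ 2) 0) ^ γ with hA0
  set B0' : ℝ := (1 / (2 * Real.pi)) * ∫ p : ℝ, (max (μ - p ^ 2) 0) ^ (γ - 1) with hB0'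
  set Q : ℝ := ∫ x, cutoff ρ x ^ 2 with hQ
  have hQ0 : 0 ≤ Q := integral_nonneg (fun x => sq_nonneg _)
  have h1 : κ * SA ≤ A0 * Q + ε / 4 := by
    have e1 : κ * SA = Q * (1 / L * SA) := by rw [hκ]; ring
    rw [e1]
    have e2 : Q * (1 / L * SA) ≤ Q * (A0 + ε / 4 / L) := mul_le_mul_of_nonneg_left (by linarith [hA.2]) hQ0
    have e3 : Q * (ε / 4 / L) ≤ ε / 4 := by
      have : Q * (ε / 4 / L) = (Q / L) * (ε / 4) := by ring
      rw [this]
      have h5 : Q / L ≤ 1 := by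
        rw [div_le_one hL0]; linarith
      calc Q / L * (ε / 4) ≤ 1 * (ε / 4) := by gcongr
        _ = ε / 4 := one_mul _
    linarith [e2, e3, mul_add Q A0 (ε / 4 / L), mul_comm Q A0]
  have h2 : -((1 / L * IB) * (γ * SB)) ≤ -(γ * (B0' * IV)) + ε / 4 := by
    rw [hIBV]
    have e1 : (1 / L * IV) * (γ * SB) = γ * IV * (1 / L * SB) := by ring
    rw [e1]
    have e2 : |γ * IV * (1 / L * SB - B0')| ≤ ε / 4 := by
      rw [abs_mul, abs_mul, abs_of_pos (by linarith : (0 : ℝ) < γ)]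
      have hsL : 0 < Real.sqrt L := Real.sqrt_pos.2 hL0
      have hDL : D2 ≤ Real.sqrt L := Real.le_sqrt_of_sq_le (hρD2.trans hLρ)
      rw [hD2, div_le_iff₀ hε] at hDL
      calc γ * |IV| * |1 / L * SB - B0'| ≤ γ * (Real.sqrt L * B) * (μ ^ (γ - 1) / L) := by
            gcongr
        _ = (γ * (B * μ ^ (γ - 1))) / Real.sqrt L := by
            have hLs : Real.sqrt L * Real.sqrt L = L := Real.mul_self_sqrt hL0.le
            rw [← mul_div_assoc, div_eq_div_iff hL0.ne' hsL.ne']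
            calc γ * (Real.sqrt L * B) * μ ^ (γ - 1) * Real.sqrt L
                = γ * (B * μ ^ (γ - 1)) * (Real.sqrt L * Real.sqrt L) := by ring
              _ = _ := by rw [hLs]
        _ ≤ ε / 4 := by
            rw [div_le_iff₀ hsL]
            linarith
    have := (abs_le.1 e2).1
    nlinarith [this]
  have h3 : E * (γ * M ^ (γ - 1)) ≤ ε / 4 := by
    have hγM : 0 < γ * M ^ (γ - 1) := by
      have : 0 < M ^ (γ - 1) := Real.rpow_pos_of_pos hM0 _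
      positivity
    have e1 : E ≤ (Real.sqrt μ / Real.pi + 1 + K ^ 2 * M ^ 2) * Kc / ρ := by
      have : 1 / L ≤ 1 := by
        rw [div_le_one hL0]; linarith
      have e2 : E = (Real.sqrt μ / Real.pi + 1 / L + K ^ 2 * M ^ 2) * Kc / ρ := by
        rw [hE, hM]; ring
      rw [e2]
      gcongr
    calc E * (γ * M ^ (γ - 1)) ≤ ((Real.sqrt μ / Real.pi + 1 + K ^ 2 * M ^ 2) * Kc / ρ) * (γ * M ^ (γ - 1)) := by
          gcongr
      _ = D / ρ := by rw [hD]; ring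
      _ ≤ ε / 4 := by
          rw [div_le_iff₀ hρ0]
          rw [div_le_iff₀ hε] at hρD
          linarith
  linarith [hmain, h1, h2, h3]

end Pool.Agent.Helper209.PL
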