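import Pool.Agent.Helper209.PL.Defs

set_option autoImplicit false

namespace Pool.Agent.Helper209.PL.Res3M

open MeasureTheory Set
open scoped SchwartzMap InnerProductSpace FourierTransform


section WStmts
def DenseRangeStmt : Prop := ∀ (V : ℝ → ℝ), Measurable V → ∀ (b c : ℝ), (∀ x, |V x| ≤ b) → b < c →
    ∀ (f : L2R) (ε : ℝ), 0 < ε → ∃ (χ : 𝓢(ℝ, ℂ)) (w : L2R),
      (w : ℝ → ℂ) =ᵐ[volume] (fun x => -(deriv (deriv (χ : ℝ → ℂ)) x) + ((V x + c : ℝ) : ℂ) * χ x) ∧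
      ‖w - f‖ < ε
end WStmts

/-- the real bilinear map `(a, b) ↦ conj a * b` -/
noncomputable def Lc26 : ℂ →L[ℝ] ℂ →L[ℝ] ℂ :=
  (ContinuousLinearMap.mul ℝ ℂ).comp (Complex.conjCLE : ℂ →L[ℝ] ℂ)

theorem Lc26_apply (a b : ℂ) : Lc26 a b = (starRingEnd ℂ) a * b := rfl

theorem int_pair26 (f g : 𝓢(ℝ, ℂ)) : Integrable (fun x => (starRingEnd ℂ) (f x) * g x) volume :=
  (SchwartzMap.pairing Lc26 f g).integrable

/-- derivative of a Schwartz function -/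
noncomputable def Ds26 (f : 𝓢(ℝ, ℂ)) : 𝓢(ℝ, ℂ) := SchwartzMap.derivCLM ℝ ℂ f

theorem Ds26_apply (f : 𝓢(ℝ, ℂ)) (x : ℝ) : Ds26 f x = deriv f x := rfl

theorem Ds26_coe (f : 𝓢(ℝ, ℂ)) : ((Ds26 f : 𝓢(ℝ, ℂ)) : ℝ → ℂ) = deriv (f : ℝ → ℂ) := rfl

theorem ibp26 (f g : 𝓢(ℝ, ℂ)) :
    ∫ x, (starRingEnd ℂ) (Ds26 f x) * Ds26 g x = - ∫ x, (starRingEnd ℂ) (Ds26 (Ds26 f) x) * g x :=
  SchwartzMap.integral_bilinear_deriv_right_eq_neg_left (Ds26 f) g Lc26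

theorem int_pairV26 (V : ℝ → ℝ) (hV : Measurable V) (b c : ℝ) (hb : ∀ x, |V x| ≤ b) (f g : 𝓢(ℝ, ℂ)) :
    Integrable (fun x => ((V x + c : ℝ) : ℂ) * ((starRingEnd ℂ) (f x) * g x)) volume := by
  refine (int_pair26 f g).bdd_mul (c := b + |c|) ?_ ?_
  · exact (Complex.measurable_ofReal.comp (hV.add_const c)).aestronglyMeasurable
  · refine Filter.Eventually.of_forall fun x => ?_
    rw [Complex.norm_real, Real.norm_eq_abs]
    exact (abs_add_le _ _).trans (by linarith [hb x])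

/-- the quadratic form -/
noncomputable def Bf26 (V : ℝ → ℝ) (c : ℝ) (f g : 𝓢(ℝ, ℂ)) : ℂ :=
  (∫ x, (starRingEnd ℂ) (Ds26 f x) * Ds26 g x) + ∫ x, ((V x + c : ℝ) : ℂ) * ((starRingEnd ℂ) (f x) * g x)

theorem Bf26_conj (V : ℝ → ℝ) (c : ℝ) (f g : 𝓢(ℝ, ℂ)) :
    (starRingEnd ℂ) (Bf26 V c f g) = Bf26 V c g f := by
  unfold Bf26
  rw [map_add, ← integral_conj, ← integral_conj]
  congr 1
  · refine integral_congr_ae (Filter.Eventually.of_forall fun x => ?_)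
    beta_reduce
    rw [map_mul, Complex.conj_conj, mul_comm]
  · refine integral_congr_ae (Filter.Eventually.of_forall fun x => ?_)
    beta_reduce
    rw [map_mul, map_mul, Complex.conj_conj, Complex.conj_ofReal]
    ring

theorem inner_eq_Bf26 (V : ℝ → ℝ) (hV : Measurable V) (b c : ℝ) (hb : ∀ x, |V x| ≤ b)
    (f g : 𝓢(ℝ, ℂ)) (w h : L2R)
    (hw : (w : ℝ → ℂ) =ᵐ[volume] (fun x => -(deriv (deriv (f : ℝ → ℂ)) x) + ((V x + c : ℝ) : ℂ) * f x))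
    (hh : (h : ℝ → ℂ) =ᵐ[volume] (g : ℝ → ℂ)) :
    ⟪w, h⟫_ℂ = Bf26 V c f g := by
  rw [L2.inner_def]
  unfold Bf26
  have hI1 : Integrable (fun x => -((starRingEnd ℂ) (Ds26 (Ds26 f) x) * g x)) volume := (int_pair26 _ _).neg
  rw [ibp26, ← integral_neg, ← integral_add hI1 (int_pairV26 V hV b c hb f g)]
  refine integral_congr_ae ?_
  filter_upwards [hw, hh] with x h1 h2
  rw [h1, h2, RCLike.inner_apply', map_add, map_neg, map_mul, Complex.conj_ofReal]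
  have h3 : Ds26 (Ds26 f) x = deriv (deriv (f : ℝ → ℂ)) x := rfl
  rw [h3]
  ring

theorem reCLM_int26 {F : ℝ → ℂ} (hF : Integrable F volume) : ∫ x, (F x).re = (∫ x, F x).re :=
  integral_re hF

theorem re_Bf26 (V : ℝ → ℝ) (hV : Measurable V) (b c : ℝ) (hb : ∀ x, |V x| ≤ b) (f : 𝓢(ℝ, ℂ)) :
    (Bf26 V c f f).re = (∫ x, ‖Ds26 f x‖ ^ 2) + ∫ x, (V x + c) * ‖f x‖ ^ 2 := by
  unfold Bf26
  rw [Complex.add_re]
  congr 1
  · have h1 := reCLM_int26 (int_pair26 (Ds26 f) (Ds26 f))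
    rw [← h1]
    refine integral_congr_ae (Filter.Eventually.of_forall fun x => ?_)
    beta_reduce
    rw [Complex.conj_mul', ← Complex.ofReal_pow, Complex.ofReal_re]
  · have h1 := reCLM_int26 (int_pairV26 V hV b c hb f f)
    rw [← h1]
    refine integral_congr_ae (Filter.Eventually.of_forall fun x => ?_)
    beta_reduce
    rw [Complex.conj_mul', ← Complex.ofReal_pow, ← Complex.ofReal_mul, Complex.ofReal_re]

theorem intsq26 (f : 𝓢(ℝ, ℂ)) : Integrable (fun x => ‖f x‖ ^ 2) volume :=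
  (f.memLp 2 volume).integrable_norm_pow (by norm_num)

theorem re_Bf26_ge (V : ℝ → ℝ) (hV : Measurable V) (b c : ℝ) (hb : ∀ x, |V x| ≤ b) (f : 𝓢(ℝ, ℂ)) :
    (∫ x, ‖Ds26 f x‖ ^ 2) + (c - b) * ∫ x, ‖f x‖ ^ 2 ≤ (Bf26 V c f f).re := by
  rw [re_Bf26 V hV b c hb, ← integral_const_mul]
  have hI : Integrable (fun x => (V x + c) * ‖f x‖ ^ 2) volume := by
    refine (intsq26 f).bdd_mul (c := b + |c|) ?_ ?_
    · exact (hV.add_const c).aestronglyMeasurable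
    · refine Filter.Eventually.of_forall fun x => ?_
      rw [Real.norm_eq_abs]
      exact (abs_add_le _ _).trans (by linarith [hb x])
  have := integral_mono ((intsq26 f).const_mul (c - b)) hI (fun x => by
    beta_reduce
    have h1 := (abs_le.1 (hb x)).1
    have h2 : 0 ≤ ‖f x‖ ^ 2 := by positivity
    nlinarith)
  linarith

theorem normsq26 (f : 𝓢(ℝ, ℂ)) (h : L2R) (hh : (h : ℝ → ℂ) =ᵐ[volume] (f : ℝ → ℂ)) :
    ‖h‖ ^ 2 = ∫ x, ‖f x‖ ^ 2 := by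
  have h1 : ((⟪h, h⟫_ℂ : ℂ)).re = ‖h‖ ^ 2 := by
    rw [← inner_self_eq_norm_sq (𝕜 := ℂ)]
    rfl
  rw [← h1, L2.inner_def]
  have h2 := reCLM_int26 (int_pair26 f f)
  have h3 : (∫ x, ⟪(h : ℝ → ℂ) x, (h : ℝ → ℂ) x⟫_ℂ) = ∫ x, (starRingEnd ℂ) (f x) * f x := by
    refine integral_congr_ae ?_
    filter_upwards [hh] with x h1
    rw [h1, RCLike.inner_apply']
  rw [h3, ← h2]
  refine integral_congr_ae (Filter.Eventually.of_forall fun x => ?_)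
  beta_reduce
  rw [Complex.conj_mul', ← Complex.ofReal_pow, Complex.ofReal_re]

open Filter Topology in
theorem sq_norm_le26 (f : 𝓢(ℝ, ℂ)) (x : ℝ) :
    ‖f x‖ ^ 2 ≤ (∫ t, ‖f t‖ ^ 2) + ∫ t, ‖Ds26 f t‖ ^ 2 := by
  have hsum : Integrable (fun t => ‖f t‖ ^ 2 + ‖Ds26 f t‖ ^ 2) volume := (intsq26 f).add (intsq26 _)
  have hder : ∀ t : ℝ, HasDerivAt (fun t => ‖f t‖ ^ 2) (2 * ⟪f t, Ds26 f t⟫_ℝ) t := by
    intro t
    exact (f.hasDerivAt t).norm_sq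
  have hbd : ∀ t : ℝ, |2 * ⟪f t, Ds26 f t⟫_ℝ| ≤ ‖f t‖ ^ 2 + ‖Ds26 f t‖ ^ 2 := by
    intro t
    rw [abs_mul, abs_of_pos (by norm_num : (0 : ℝ) < 2)]
    have h1 := abs_real_inner_le_norm (f t) (Ds26 f t)
    nlinarith [sq_nonneg (‖f t‖ - ‖Ds26 f t‖)]
  have hcont : Continuous (fun t => 2 * ⟪f t, Ds26 f t⟫_ℝ) :=
    continuous_const.mul (f.continuous.inner (Ds26 f).continuous)
  have hint : Integrable (fun t => 2 * ⟪f t, Ds26 f t⟫_ℝ) volume :=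
    hsum.mono' hcont.aestronglyMeasurable (Filter.Eventually.of_forall fun t => by
      rw [Real.norm_eq_abs]; exact hbd t)
  have hlim : Tendsto (fun t => ‖f t‖ ^ 2) atBot (𝓝 0) := by
    have h1 : Tendsto (f : ℝ → ℂ) (cocompact ℝ) (𝓝 0) := f.tendsto_cocompact
    have h2 : Tendsto (f : ℝ → ℂ) atBot (𝓝 0) := h1.mono_left atBot_le_cocompact
    have h3 := (h2.norm).pow 2
    simpa using h3
  have hftc := integral_Iic_of_hasDerivAt_of_tendsto' (a := x) (fun t _ => hder t) hint.integrableOn hlim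
  rw [sub_zero] at hftc
  rw [← hftc, ← integral_add (intsq26 f) (intsq26 _)]
  calc ∫ t in Iic x, 2 * ⟪f t, Ds26 f t⟫_ℝ ≤ ∫ t in Iic x, (‖f t‖ ^ 2 + ‖Ds26 f t‖ ^ 2) := by
        refine integral_mono hint.integrableOn hsum.integrableOn (fun t => ?_)
        exact (le_abs_self _).trans (hbd t)
    _ ≤ ∫ t, (‖f t‖ ^ 2 + ‖Ds26 f t‖ ^ 2) := by
        refine setIntegral_le_integral hsum (Filter.Eventually.of_forall fun t => ?_)
        rw [Pi.zero_apply]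
        positivity

/-- the dense set -/
def Sd26 (V : ℝ → ℝ) (c : ℝ) : Set L2R := {w | ∃ χ : 𝓢(ℝ, ℂ),
  (w : ℝ → ℂ) =ᵐ[volume] (fun x => -(deriv (deriv (χ : ℝ → ℂ)) x) + ((V x + c : ℝ) : ℂ) * χ x)}

theorem dense26 (hD : DenseRangeStmt) (V : ℝ → ℝ) (hV : Measurable V) (b c : ℝ)
    (hb : ∀ x, |V x| ≤ b) (hbc : b < c) : Dense (Sd26 V c) := by
  rw [Metric.dense_iff]
  intro f r hr
  obtain ⟨χ, w, h1, h2⟩ := hD V hV b c hb hbc f r hr
  exact ⟨w, by rw [Metric.mem_ball, dist_eq_norm]; exact h2, χ, h1⟩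

/-- uniqueness of the resolvent -/
theorem res_unique (hD : DenseRangeStmt) (V : ℝ → ℝ) (hV : Measurable V) (b c : ℝ)
    (hb : ∀ x, |V x| ≤ b) (hbc : b < c) (R R' : L2R →L[ℂ] L2R) (hR : IsResolvent V c R)
    (hR' : IsResolvent V c R') : R = R' := by
  have hS := dense26 hD V hV b c hb hbc
  have h1 : (R : L2R → L2R) = R' := by
    refine Continuous.ext_on hS R.continuous R'.continuous ?_
    rintro w ⟨χ, hw⟩
    exact Lp.ext ((hR χ w hw).trans (hR' χ w hw).symm)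
  exact ContinuousLinearMap.coeFn_injective h1

/-- the resolvent is self-adjoint and nonnegative -/
theorem res_selfAdjoint (hD : DenseRangeStmt) (V : ℝ → ℝ) (hV : Measurable V) (b c : ℝ)
    (hb : ∀ x, |V x| ≤ b) (hbc : b < c) (R : L2R →L[ℂ] L2R) (hR : IsResolvent V c R) :
    IsSelfAdjoint R ∧ ∀ f : L2R, 0 ≤ (⟪f, R f⟫_ℂ).re := by
  have hS := dense26 hD V hV b c hb hbc
  constructor
  · rw [ContinuousLinearMap.isSelfAdjoint_iff_isSymmetric]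
    have h1 : ∀ y ∈ Sd26 V c, ∀ x : L2R, ⟪R x, y⟫_ℂ = ⟪x, R y⟫_ℂ := by
      rintro y ⟨χ2, hy⟩
      have h2 : (fun x : L2R => ⟪R x, y⟫_ℂ) = (fun x : L2R => ⟪x, R y⟫_ℂ) := by
        refine Continuous.ext_on hS (R.continuous.inner continuous_const)
          (continuous_id.inner continuous_const) ?_
        rintro x ⟨χ1, hx⟩
        beta_reduce
        rw [inner_eq_Bf26 V hV b c hb χ1 χ2 x (R y) hx (hR χ2 y hy),
          ← inner_conj_symm, inner_eq_Bf26 V hV b c hb χ2 χ1 y (R x) hy (hR χ1 x hx), Bf26_conj]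
      intro x
      exact congrFun h2 x
    intro x y
    have h3 : (fun y : L2R => ⟪R x, y⟫_ℂ) = (fun y : L2R => ⟪x, R y⟫_ℂ) := by
      refine Continuous.ext_on hS (continuous_const.inner continuous_id)
        (continuous_const.inner R.continuous) ?_
      intro y hy
      exact h1 y hy x
    exact congrFun h3 y
  · have hcl : IsClosed {f : L2R | 0 ≤ (⟪f, R f⟫_ℂ).re} :=
      isClosed_le continuous_const (Complex.continuous_re.comp (continuous_id.inner R.continuous))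
    have hsub : Sd26 V c ⊆ {f : L2R | 0 ≤ (⟪f, R f⟫_ℂ).re} := by
      rintro w ⟨χ, hw⟩
      rw [Set.mem_ofPred_eq, inner_eq_Bf26 V hV b c hb χ χ w (R w) hw (hR χ w hw)]
      refine le_trans ?_ (re_Bf26_ge V hV b c hb χ)
      have h1 : 0 ≤ ∫ x, ‖Ds26 χ x‖ ^ 2 := integral_nonneg fun x => by positivity
      have h2 : 0 ≤ ∫ x, ‖χ x‖ ^ 2 := integral_nonneg fun x => by positivity
      have h3 : 0 ≤ c - b := by linarith
      positivity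
    intro f
    have h4 := hcl.closure_subset_iff.2 hsub
    rw [hS.closure_eq] at h4
    exact h4 (Set.mem_univ f)

/-- sup-norm bound for Schwartz functions -/
theorem sup_bound (b c : ℝ) (hbc : b < c) :
    ∃ K : ℝ, 0 < K ∧ ∀ (V : ℝ → ℝ), Measurable V → (∀ x, |V x| ≤ b) → ∀ (χ : 𝓢(ℝ, ℂ)) (w : L2R),
      (w : ℝ → ℂ) =ᵐ[volume] (fun x => -(deriv (deriv (χ : ℝ → ℂ)) x) + ((V x + c : ℝ) : ℂ) * χ x) →
      ∀ x : ℝ, ‖χ x‖ ≤ K * ‖w‖ := by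
  have hd : 0 < c - b := by linarith
  refine ⟨Real.sqrt (1 / (c - b) ^ 2 + 1 / (c - b)), Real.sqrt_pos.2 (by positivity), ?_⟩
  intro V hV hb χ w hw x
  have hχ := (χ.memLp 2 volume).coeFn_toLp
  set h : L2R := (χ.memLp 2 volume).toLp with hh
  have h1 := re_Bf26_ge V hV b c hb χ
  rw [← inner_eq_Bf26 V hV b c hb χ χ w h hw hχ, ← normsq26 χ h hχ] at h1
  have h2 : (⟪w, h⟫_ℂ).re ≤ ‖w‖ * ‖h‖ :=
    (Complex.re_le_norm _).trans (norm_inner_le_norm w h)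
  have h3 : 0 ≤ ∫ x, ‖Ds26 χ x‖ ^ 2 := integral_nonneg fun x => by positivity
  have hn : 0 ≤ ‖h‖ := norm_nonneg h
  have hw0 : 0 ≤ ‖w‖ := norm_nonneg w
  have h4 : ‖h‖ ≤ ‖w‖ / (c - b) := by
    rw [le_div_iff₀ hd]
    rcases hn.eq_or_lt with h0 | h0
    · rw [← h0]; simpa using hw0
    · have : (‖h‖ * (c - b)) * ‖h‖ ≤ ‖w‖ * ‖h‖ := by nlinarith
      exact le_of_mul_le_mul_right this h0
  have h5 : ∫ x, ‖Ds26 χ x‖ ^ 2 ≤ ‖w‖ ^ 2 / (c - b) := by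
    have : ‖w‖ * ‖h‖ ≤ ‖w‖ * (‖w‖ / (c - b)) := mul_le_mul_of_nonneg_left h4 hw0
    have h6 : 0 ≤ (c - b) * ‖h‖ ^ 2 := by positivity
    calc ∫ x, ‖Ds26 χ x‖ ^ 2 ≤ ‖w‖ * ‖h‖ := by linarith
      _ ≤ ‖w‖ * (‖w‖ / (c - b)) := this
      _ = ‖w‖ ^ 2 / (c - b) := by ring
  have h6 := sq_norm_le26 χ x
  rw [← normsq26 χ h hχ] at h6
  have h7 : ‖h‖ ^ 2 ≤ (‖w‖ / (c - b)) ^ 2 := pow_le_pow_left₀ hn h4 2
  have h8 : ‖χ x‖ ^ 2 ≤ (1 / (c - b) ^ 2 + 1 / (c - b)) * ‖w‖ ^ 2 := by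
    calc ‖χ x‖ ^ 2 ≤ (‖w‖ / (c - b)) ^ 2 + ‖w‖ ^ 2 / (c - b) := by linarith
      _ = _ := by rw [div_pow]; ring
  calc ‖χ x‖ = Real.sqrt (‖χ x‖ ^ 2) := (Real.sqrt_sq (norm_nonneg _)).symm
    _ ≤ Real.sqrt ((1 / (c - b) ^ 2 + 1 / (c - b)) * ‖w‖ ^ 2) := Real.sqrt_le_sqrt h8
    _ = Real.sqrt (1 / (c - b) ^ 2 + 1 / (c - b)) * ‖w‖ := by
        rw [Real.sqrt_mul (by positivity), Real.sqrt_sq hw0]

end Pool.Agent.Helper209.PL.Res3M
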