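import Pool.Agent.Helper209.PL.Main4
import Pool.Agent.Helper209.PL.Res2M
import Pool.Agent.Helper209.PL.Res3M
import Pool.Agent.Helper209.PL.ResLocM
import Pool.Agent.Helper209.PL.FourTrM

set_option autoImplicit false

namespace Pool.Agent.Helper209.PL

open MeasureTheory Set
open scoped SchwartzMap InnerProductSpace FourierTransform

/-- `(2π)⁻¹ ∫ (μ-p²)_+^{γ-1} dp` -/
noncomputable def B0 (γ μ : ℝ) : ℝ := (1 / (2 * Real.pi)) * ∫ p : ℝ, (max (μ - p ^ 2) 0) ^ (γ - 1)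

/-- local traces of the difference of the functional calculi -/
theorem diff_local (γ : ℝ) (hγ : 1 < γ) : ∃ C : ℝ, 0 < C ∧ ∀ (μ : ℝ), 0 < μ →
    ∀ (V : ℝ → ℝ), Continuous V → HasCompactSupport V → ∀ (b c : ℝ), (∀ x, |V x| ≤ b) → b < c →
    ∀ (R R0 : L2R →L[ℂ] L2R), IsResolvent V c R → IsResolvent (fun _ => 0) c R0 →
    ∀ (ε : ℝ), 0 < ε → ∃ ρ0 : ℝ, 0 < ρ0 ∧ ∀ ρ : ℝ, ρ0 ≤ ρ →
      ∀ (Θ : L2R →L[ℂ] L2R), IsMul (cutoff ρ) Θ → ∀ (e : HilbertBasis ℕ ℂ L2R),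
        (∑' i, ⟪Θ (e i), (negPow γ μ c R - negPow γ μ c R0) (Θ (e i))⟫_ℂ).re
          ≤ C * (∫ x, FF γ μ (V x)) - γ * (B0 γ μ * ∫ x, V x) + ε := by
  obtain ⟨C, hC, hloc⟩ := local_bound γ hγ
  refine ⟨C, hC, ?_⟩
  intro μ hμ V hV hVs b c hb hbc R R0 hR hR0 ε hε
  have hb0 : 0 ≤ b := (abs_nonneg _).trans (hb 0)
  have hc0 : 0 < c := by linarith
  obtain ⟨ρ0, hρ0, hρ⟩ := hloc μ hμ V hV hVs b c hb hbc R hR ε hε
  refine ⟨ρ0, hρ0, ?_⟩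
  intro ρ hρρ Θ hΘ e
  obtain ⟨hVρ, hbd⟩ := hρ ρ hρρ
  have hρpos : 0 < ρ := lt_of_lt_of_le hρ0 hρρ
  obtain ⟨hsa, -⟩ := res_selfAdjoint V hV b c hb hbc R hR
  obtain ⟨hsa0, -⟩ := res_selfAdjoint (fun _ => 0) continuous_const 0 c (isResolvent_zero_bound hc0).1 hc0 R0 hR0
  obtain ⟨hcC, -, hcs, -, -, -, hc1, -⟩ := Cut.cutoff_facts ρ hρpos
  have hN := fun i => Cfc1.negPow_nonneg γ μ c R hsa (Θ (e i))
  have hreal : ∀ i, ⟪Θ (e i), negPow γ μ c R (Θ (e i))⟫_ℂ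
      = (((⟪Θ (e i), negPow γ μ c R (Θ (e i))⟫_ℂ).re : ℝ) : ℂ) := by
    intro i
    have hsym := ContinuousLinearMap.isSelfAdjoint_iff_isSymmetric.1 (hN i).2
    have h1 : (starRingEnd ℂ) ⟪Θ (e i), negPow γ μ c R (Θ (e i))⟫_ℂ = ⟪Θ (e i), negPow γ μ c R (Θ (e i))⟫_ℂ := by
      rw [inner_conj_symm]
      exact hsym (Θ (e i)) (Θ (e i))
    exact (Complex.conj_eq_iff_re.1 h1).symm
  have hsumre : Summable (fun i => (⟪Θ (e i), negPow γ μ c R (Θ (e i))⟫_ℂ).re) :=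
    summable_of_sum_le (fun i => (hN i).1) (fun J => hbd Θ hΘ e J)
  have hle := hsumre.tsum_le_of_sum_le (fun J => hbd Θ hΘ e J)
  have hS1 : HasSum (fun i => ⟪Θ (e i), negPow γ μ c R (Θ (e i))⟫_ℂ)
      (((∑' i, (⟪Θ (e i), negPow γ μ c R (Θ (e i))⟫_ℂ).re) : ℝ) : ℂ) := by
    have h3 := Complex.hasSum_ofReal.2 hsumre.hasSum
    refine h3.congr_fun ?_
    intro i
    exact hreal i
  obtain ⟨hg1, hg2, hg3⟩ := MulFacts.symbol_facts γ μ (by linarith) hμ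
  have hS2 := FourTr.fourier_trace e _ hg1 hg2 (negPow γ μ c R0)
    (fun f => negPow_fourier γ μ c (by linarith) hμ hc0 R0 hR0 hsa0 f) (cutoff ρ) (cutoff ρ)
    hcC.continuous hcs hcC.continuous hcs Θ Θ hΘ hΘ
  rw [hg3] at hS2
  have hQ : (∫ x, cutoff ρ x * cutoff ρ x) = ∫ x, cutoff ρ x ^ 2 := by
    congr 1
    funext x
    ring
  rw [hQ] at hS2
  have hfin := hS1.sub hS2
  have hcong : (fun i => ⟪Θ (e i), (negPow γ μ c R - negPow γ μ c R0) (Θ (e i))⟫_ℂ)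
      = fun i => ⟪Θ (e i), negPow γ μ c R (Θ (e i))⟫_ℂ - ⟪Θ (e i), negPow γ μ c R0 (Θ (e i))⟫_ℂ := by
    funext i
    rw [ContinuousLinearMap.sub_apply, inner_sub_right]
  rw [hcong, hfin.tsum_eq]
  simp only [Complex.sub_re, Complex.ofReal_re, ← Complex.ofReal_mul]
  unfold B0
  linarith [hle]

/-- trace of the difference, potentials in `C_c` -/
theorem diff_bound (γ : ℝ) (hγ : 1 < γ) : ∃ C : ℝ, 0 < C ∧ ∀ (μ : ℝ), 0 < μ →
    ∀ (V : ℝ → ℝ), Continuous V → HasCompactSupport V → ∀ (b c : ℝ), (∀ x, |V x| ≤ b) → b < c →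
    ∀ (R R0 : L2R →L[ℂ] L2R), IsResolvent V c R → IsResolvent (fun _ => 0) c R0 →
    ∀ (e : HilbertBasis ℕ ℂ L2R) (X Y : L2R →L[ℂ] L2R), Summable (fun i => ‖X (e i)‖ ^ 2) →
      Summable (fun i => ‖Y (e i)‖ ^ 2) →
      negPow γ μ c R - negPow γ μ c R0 = (ContinuousLinearMap.adjoint X).comp Y →
      (∑' i, ⟪e i, (negPow γ μ c R - negPow γ μ c R0) (e i)⟫_ℂ).re
        ≤ C * (∫ x, FF γ μ (V x)) - γ * (B0 γ μ * ∫ x, V x) := by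
  obtain ⟨C, hC, hloc⟩ := diff_local γ hγ
  refine ⟨C, hC, ?_⟩
  intro μ hμ V hV hVs b c hb hbc R R0 hR hR0 e X Y hX hY hT
  have hex : ∀ n : ℕ, ∃ Θ : L2R →L[ℂ] L2R, IsMul (cutoff ((n : ℝ) + 1)) Θ :=
    fun n => MulFacts.exists_cutoff _ (by positivity)
  choose Θ hΘ using hex
  have h1 : ∀ n, IsSelfAdjoint (Θ n) := fun n => (MulFacts.isMul_cutoff _ (by positivity) _ (hΘ n)).1
  have h2 : ∀ n, ‖Θ n‖ ≤ 1 := fun n => (MulFacts.isMul_cutoff _ (by positivity) _ (hΘ n)).2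
  obtain ⟨h3, h4⟩ := Hs.trace_limit e X Y hX hY _ hT Θ h1 h2
    (fun φ => MulFacts.cutoff_tendsto Θ hΘ φ)
  have h5 := (Complex.continuous_re.tendsto _).comp h4
  refine le_of_forall_pos_le_add (fun ε hε => ?_)
  obtain ⟨ρ0, hρ0, hb2⟩ := hloc μ hμ V hV hVs b c hb hbc R R0 hR hR0 ε hε
  refine le_of_tendsto h5 ?_
  filter_upwards [Filter.eventually_ge_atTop ⌈ρ0⌉₊] with n hn
  have hn' : ρ0 ≤ (n : ℝ) + 1 := by
    have := Nat.ceil_le.1 hn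
    linarith
  exact hb2 _ hn' (Θ n) (hΘ n) e

/-- measurable potentials -/
theorem dense_rangeM (V : ℝ → ℝ) (hV : Measurable V) (b c : ℝ)
    (hb : ∀ x, |V x| ≤ b) (hbc : b < c) (f : L2R) (ε : ℝ) (hε : 0 < ε) :
    ∃ (χ : 𝓢(ℝ, ℂ)) (w : L2R),
      (w : ℝ → ℂ) =ᵐ[volume] (fun x => -(deriv (deriv (χ : ℝ → ℂ)) x) + ((V x + c : ℝ) : ℂ) * χ x) ∧
      ‖w - f‖ < ε := Res2M.dense_range (fun c hc g => Res1.free_solve c hc g)
        (fun c hc => Res1.free_resolvent c hc) V hV b c hb hbc f ε hε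

theorem exists_resolventM (V : ℝ → ℝ) (hV : Measurable V) (b c : ℝ)
    (hb : ∀ x, |V x| ≤ b) (hbc : b < c) : ∃ R : L2R →L[ℂ] L2R, IsResolvent V c R :=
  Res2M.exists_resolvent (fun c hc g => Res1.free_solve c hc g)
        (fun c hc => Res1.free_resolvent c hc) V hV b c hb hbc

theorem res_uniqueM (V : ℝ → ℝ) (hV : Measurable V) (b c : ℝ)
    (hb : ∀ x, |V x| ≤ b) (hbc : b < c) (R R' : L2R →L[ℂ] L2R) (hR : IsResolvent V c R)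
    (hR' : IsResolvent V c R') : R = R' :=
  Res3M.res_unique (fun V hV b c hb hbc f ε hε => dense_rangeM V hV b c hb hbc f ε hε) V hV b c hb hbc R R' hR hR'

theorem res_selfAdjointM (V : ℝ → ℝ) (hV : Measurable V) (b c : ℝ)
    (hb : ∀ x, |V x| ≤ b) (hbc : b < c) (R : L2R →L[ℂ] L2R) (hR : IsResolvent V c R) : IsSelfAdjoint R :=
  (Res3M.res_selfAdjoint (fun V hV b c hb hbc f ε hε => dense_rangeM V hV b c hb hbc f ε hε)
    V hV b c hb hbc R hR).1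

end Pool.Agent.Helper209.PL
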