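import Pool.Agent.Helper209.PL.Defs
import Pool.Agent.Helper209.PL.NDefs
import Pool.Agent.Helper209.PL.FourTrM

set_option autoImplicit false

namespace Pool.Agent.Helper209.PL.N4M

open MeasureTheory Set
open scoped SchwartzMap InnerProductSpace FourierTransform






open Pool.Agent.Helper209.PL.FourTrM

theorem hasSum_of_ae (F : ℕ → L2R) (hF : Summable (fun n => ‖F n‖)) (G : L2R)
    (h : ∀ᵐ x ∂(volume : Measure ℝ), HasSum (fun n => ((F n : L2R) : ℝ → ℂ) x) ((G : ℝ → ℂ) x)) :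
    HasSum F G := by
  have h1 : ∑' n, ‖F n‖ₑ ≠ ⊤ := by
    have := hF.tsum_ofReal_ne_top
    simpa [ofReal_norm] using this
  have h2 := Lp.hasSum_coeFn_tsum h1
  have h3 : (∑' n, F n) = G := by
    apply Lp.ext
    filter_upwards [h, h2] with x hx1 hx2
    exact hx2.unique hx1
  rw [← h3]
  exact hF.of_norm.hasSum

/-- continuous functions with compact support as elements of `L²` -/
noncomputable def mk (h : ℝ → ℂ) (hc : Continuous h) (hs : HasCompactSupport h) : L2R :=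
  (hc.memLp_of_hasCompactSupport hs : MemLp h 2 (volume : Measure ℝ)).toLp h

theorem mk_ae (h : ℝ → ℂ) (hc : Continuous h) (hs : HasCompactSupport h) :
    ((mk h hc hs : L2R) : ℝ → ℂ) =ᵐ[volume] h := MemLp.coeFn_toLp _

theorem mk_norm_le (h k : ℝ → ℂ) (hc : Continuous h) (hs : HasCompactSupport h)
    (kc : Continuous k) (ks : HasCompactSupport k) (c : ℝ) (hk : ∀ x, ‖h x‖ ≤ c * ‖k x‖) :
    ‖mk h hc hs‖ ≤ c * ‖mk k kc ks‖ := by
  apply Lp.norm_le_mul_norm_of_ae_le_mul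
  filter_upwards [mk_ae h hc hs, mk_ae k kc ks] with x h1 h2
  rw [h1, h2]
  exact hk x

theorem cs_ofReal {V : ℝ → ℝ} (hVs : HasCompactSupport V) : HasCompactSupport (fun x => (V x : ℂ)) :=
  hVs.comp_left (g := fun r : ℝ => (r : ℂ)) rfl

theorem cs_bd {V : ℝ → ℝ} (hVs : HasCompactSupport V) : ∃ a : ℝ, 0 < a ∧ ∀ x, V x ≠ 0 → |x| ≤ a := by
  obtain ⟨r, hr⟩ := hVs.isCompact.isBounded.subset_closedBall 0
  refine ⟨max r 1, by positivity, fun x hx => ?_⟩
  have h1 := hr (subset_tsupport V hx)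
  rw [Metric.mem_closedBall, dist_zero_right, Real.norm_eq_abs] at h1
  exact h1.trans (le_max_left _ _)

/-- `g(P) V(x)` is a nuclear operator if `g` and `V` have compact support -/
theorem rank_one_series (g V : ℝ → ℝ) (hg : Continuous g) (hgs : HasCompactSupport g)
    (hV : MemLp (fun x => (V x : ℂ)) 2 (volume : Measure ℝ)) (a : ℝ) (ha : 0 < a)
    (hVa : ∀ x, V x ≠ 0 → |x| ≤ a) (N0 M : L2R →L[ℂ] L2R) (hM : IsMul V M)
    (hN : ∀ f : L2R, ((𝓕 (N0 f) : L2R) : ℝ → ℂ) =ᵐ[volume] (fun ξ => (g ξ : ℂ) * ((𝓕 f : L2R) : ℝ → ℂ) ξ)) :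
    ∃ (u v : ℕ → L2R), Summable (fun n => ‖u n‖ ^ 2) ∧ Summable (fun n => ‖v n‖ ^ 2) ∧
      ∀ f : L2R, HasSum (fun n => ⟪v n, f⟫_ℂ • u n) (N0 (M f)) := by
  obtain ⟨m, hm, hgm⟩ := cs_bd hgs
  have hgc : Continuous (fun x => (g x : ℂ)) := by fun_prop
  have hvb : ∀ (n : ℕ) (x : ℝ), ‖(((x / (2 * a)) ^ n : ℝ) : ℂ) * (V x : ℂ)‖ ≤ (1 / 2) ^ n * ‖(V x : ℂ)‖ := by
    intro n x
    rw [norm_mul, Complex.norm_real, Real.norm_eq_abs, abs_pow, abs_div, abs_of_pos (by positivity : 0 < 2 * a)]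
    by_cases hx : V x = 0
    · simp [hx]
    · apply mul_le_mul_of_nonneg_right _ (norm_nonneg _)
      apply pow_le_pow_left₀ (by positivity)
      rw [div_le_div_iff₀ (by positivity) (by norm_num)]
      have := hVa x hx
      linarith
  have hvm : ∀ n : ℕ, MemLp (fun x : ℝ => (((x / (2 * a)) ^ n : ℝ) : ℂ) * (V x : ℂ)) 2
      (volume : Measure ℝ) := by
    intro n
    refine hV.of_le_mul (c := (1 / 2) ^ n) ?_ (Filter.Eventually.of_forall (hvb n))
    have h1 : Continuous (fun x : ℝ => (((x / (2 * a)) ^ n : ℝ) : ℂ)) := by fun_prop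
    exact h1.aestronglyMeasurable.mul hV.1
  have hwc : ∀ n : ℕ, Continuous (fun ξ : ℝ =>
      ((((-(4 * Real.pi * a * ξ) : ℝ) : ℂ) * Complex.I) ^ n / (n.factorial : ℂ)) * (g ξ : ℂ)) := by
    intro n; fun_prop
  have hws : ∀ n : ℕ, HasCompactSupport (fun ξ : ℝ =>
      ((((-(4 * Real.pi * a * ξ) : ℝ) : ℂ) * Complex.I) ^ n / (n.factorial : ℂ)) * (g ξ : ℂ)) :=
    fun n => (cs_ofReal hgs).mul_left
  obtain ⟨v, hv⟩ : ∃ v : ℕ → L2R, v = fun n => (hvm n).toLp _ := ⟨_, rfl⟩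
  obtain ⟨w, hw⟩ : ∃ w : ℕ → L2R, w = fun n => mk _ (hwc n) (hws n) := ⟨_, rfl⟩
  obtain ⟨V0, hV0⟩ : ∃ V0 : ℝ, V0 = ‖hV.toLp _‖ := ⟨_, rfl⟩
  obtain ⟨G0, hG0⟩ : ∃ G0 : ℝ, G0 = ‖mk _ hgc (cs_ofReal hgs)‖ := ⟨_, rfl⟩
  have hV00 : 0 ≤ V0 := by rw [hV0]; exact norm_nonneg _
  have hG00 : 0 ≤ G0 := by rw [hG0]; exact norm_nonneg _
  have hvn : ∀ n, ‖v n‖ ≤ (1 / 2) ^ n * V0 := by
    intro n
    rw [hv, hV0]
    apply Lp.norm_le_mul_norm_of_ae_le_mul
    filter_upwards [(hvm n).coeFn_toLp, hV.coeFn_toLp] with x h1 h2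
    rw [h1, h2]
    exact hvb n x
  have hvn' : ∀ n, ‖v n‖ ≤ V0 := by
    intro n
    refine (hvn n).trans ?_
    apply mul_le_of_le_one_left hV00
    exact pow_le_one₀ (by norm_num) (by norm_num)
  obtain ⟨b, hb⟩ : ∃ b : ℝ, b = 4 * Real.pi * a * m := ⟨_, rfl⟩
  have hb0 : 0 ≤ b := by
    rw [hb]
    have := Real.pi_pos
    positivity
  have hwn : ∀ n, ‖w n‖ ≤ (b ^ n / n.factorial) * G0 := by
    intro n
    rw [hw, hG0]
    apply mk_norm_le
    intro x
    rw [norm_mul, norm_div, norm_pow, norm_mul, Complex.norm_I, mul_one, Complex.norm_real,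
      Real.norm_eq_abs, abs_neg, Complex.norm_natCast]
    by_cases hx : g x = 0
    · simp [hx]
    · apply mul_le_mul_of_nonneg_right _ (norm_nonneg _)
      apply div_le_div_of_nonneg_right _ (by positivity)
      apply pow_le_pow_left₀ (abs_nonneg _)
      have h1 := hgm x hx
      have h2 := Real.pi_pos
      rw [abs_mul, abs_of_pos (by positivity : 0 < 4 * Real.pi * a), hb]
      exact mul_le_mul_of_nonneg_left h1 (by positivity)
  have hvae : ∀ᵐ x ∂(volume : Measure ℝ), ∀ n, ((v n : L2R) : ℝ → ℂ) x =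
      (((x / (2 * a)) ^ n : ℝ) : ℂ) * (V x : ℂ) := by
    rw [ae_all_iff]
    intro n
    rw [hv]
    exact (hvm n).coeFn_toLp
  have hwae : ∀ᵐ x ∂(volume : Measure ℝ), ∀ n, ((w n : L2R) : ℝ → ℂ) x =
      ((((-(4 * Real.pi * a * x) : ℝ) : ℂ) * Complex.I) ^ n / (n.factorial : ℂ)) * (g x : ℂ) := by
    rw [ae_all_iff]
    intro n
    rw [hw]
    exact mk_ae _ _ _
  -- expansion of the localized plane waves
  have hek : ∀ ξ : ℝ, HasSum (fun n : ℕ =>
      ((((4 * Real.pi * a * ξ : ℝ) : ℂ) * Complex.I) ^ n / (n.factorial : ℂ)) • v n)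
      (ek V hV ξ) := by
    intro ξ
    apply hasSum_of_ae
    · refine Summable.of_nonneg_of_le (fun _ => norm_nonneg _) (fun n => ?_)
        ((Real.summable_pow_div_factorial |4 * Real.pi * a * ξ|).mul_right V0)
      rw [norm_smul, norm_div, norm_pow, norm_mul, Complex.norm_I, mul_one, Complex.norm_real,
        Real.norm_eq_abs, Complex.norm_natCast]
      exact mul_le_mul_of_nonneg_left (hvn' n) (by positivity)
    · have h1 : ∀ᵐ x ∂(volume : Measure ℝ), ∀ n : ℕ,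
          ((((((4 * Real.pi * a * ξ : ℝ) : ℂ) * Complex.I) ^ n / (n.factorial : ℂ)) • v n : L2R) :
            ℝ → ℂ) x = ((((4 * Real.pi * a * ξ : ℝ) : ℂ) * Complex.I) ^ n / (n.factorial : ℂ)) *
            ((v n : L2R) : ℝ → ℂ) x := by
        rw [ae_all_iff]
        intro n
        exact Lp.coeFn_smul _ _
      filter_upwards [h1, hvae, ek_ae V hV ξ] with x x1 x2 x3
      rw [x3]
      have h2 := NormedSpace.expSeries_div_hasSum_exp
        ((((4 * Real.pi * a * ξ : ℝ) : ℂ) * Complex.I) * ((x / (2 * a) : ℝ) : ℂ))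
      rw [← Complex.exp_eq_exp_ℂ] at h2
      have h3 := h2.mul_right (V x : ℂ)
      have e1 : (((4 * Real.pi * a * ξ : ℝ) : ℂ) * Complex.I) * ((x / (2 * a) : ℝ) : ℂ) =
          ((2 * Real.pi * x * ξ : ℝ) : ℂ) * Complex.I := by
        have : (4 * Real.pi * a * ξ) * (x / (2 * a)) = 2 * Real.pi * x * ξ := by
          field_simp
          ring
        rw [← this]
        push_cast
        ring
      rw [e1] at h3
      refine h3.congr_fun ?_
      intro n
      rw [x1, x2, ← e1, mul_pow, Complex.ofReal_pow]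
      ring
  have hinner : ∀ (f : L2R) (ξ : ℝ), HasSum (fun n : ℕ =>
      ((((-(4 * Real.pi * a * ξ) : ℝ) : ℂ) * Complex.I) ^ n / (n.factorial : ℂ)) * ⟪v n, f⟫_ℂ)
      ⟪ek V hV ξ, f⟫_ℂ := by
    intro f ξ
    have h1 := (hek ξ).map (⟨⟨fun x => ⟪x, f⟫_ℂ, inner_zero_left f⟩,
      fun x y => inner_add_left x y f⟩ : L2R →+ ℂ) (by
        show Continuous (fun x : L2R => ⟪x, f⟫_ℂ)
        fun_prop)
    refine h1.congr_fun ?_
    intro n
    show _ = ⟪((((4 * Real.pi * a * ξ : ℝ) : ℂ) * Complex.I) ^ n / (n.factorial : ℂ)) • v n, f⟫_ℂ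
    rw [inner_smul_left]
    congr 1
    rw [map_div₀, map_pow, map_mul, Complex.conj_ofReal, Complex.conj_I, map_natCast,
      Complex.ofReal_neg, neg_mul, mul_neg]
  refine ⟨fun n => (Lp.fourierTransformₗᵢ ℝ ℂ).symm (w n), v, ?_, ?_, ?_⟩
  · refine Summable.of_nonneg_of_le (fun _ => by positivity) (fun n => ?_)
      ((Real.summable_pow_div_factorial (b ^ 2)).mul_right (G0 ^ 2))
    rw [LinearIsometryEquiv.norm_map]
    have h1 := hwn n
    have h2 : ‖w n‖ ^ 2 ≤ ((b ^ n / n.factorial) * G0) ^ 2 :=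
      pow_le_pow_left₀ (norm_nonneg _) h1 2
    refine h2.trans ?_
    rw [mul_pow, div_pow, ← pow_mul, ← pow_mul, mul_comm n 2]
    apply mul_le_mul_of_nonneg_right _ (by positivity)
    apply div_le_div_of_nonneg_left (by positivity) (by positivity)
    have h3 : (1 : ℝ) ≤ (n.factorial : ℝ) := by exact_mod_cast Nat.one_le_iff_ne_zero.2 (Nat.factorial_ne_zero n)
    nlinarith
  · refine Summable.of_nonneg_of_le (fun _ => by positivity) (fun n => ?_)
      ((summable_geometric_of_lt_one (r := 1 / 4) (by norm_num) (by norm_num)).mul_right (V0 ^ 2))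
    have h2 : ‖v n‖ ^ 2 ≤ ((1 / 2) ^ n * V0) ^ 2 := pow_le_pow_left₀ (norm_nonneg _) (hvn n) 2
    refine h2.trans (le_of_eq ?_)
    rw [mul_pow, ← pow_mul, mul_comm n 2, pow_mul]
    norm_num
  · intro f
    have key : HasSum (fun n => ⟪v n, f⟫_ℂ • w n) (𝓕 (N0 (M f)) : L2R) := by
      apply hasSum_of_ae
      · refine Summable.of_nonneg_of_le (fun _ => norm_nonneg _) (fun n => ?_)
          ((Real.summable_pow_div_factorial b).mul_right (G0 * (V0 * ‖f‖)))
        rw [norm_smul]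
        calc ‖⟪v n, f⟫_ℂ‖ * ‖w n‖ ≤ (V0 * ‖f‖) * ((b ^ n / n.factorial) * G0) := by
              apply mul_le_mul _ (hwn n) (norm_nonneg _) (by positivity)
              exact (norm_inner_le_norm _ _).trans
                (mul_le_mul_of_nonneg_right (hvn' n) (norm_nonneg _))
          _ = _ := by ring
      · have h1 : ∀ᵐ x ∂(volume : Measure ℝ), ∀ n : ℕ,
            ((⟪v n, f⟫_ℂ • w n : L2R) : ℝ → ℂ) x = ⟪v n, f⟫_ℂ * ((w n : L2R) : ℝ → ℂ) x := by
          rw [ae_all_iff]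
          intro n
          exact Lp.coeFn_smul _ _
        filter_upwards [h1, hwae, hN (M f), fourier_ae (M f) (mul_integrable V hV M hM f)]
          with ξ x1 x2 x3 x4
        rw [x3, x4, mul_fourier V hV M hM]
        refine ((hinner f ξ).mul_left (g ξ : ℂ)).congr_fun ?_
        intro n
        rw [x1, x2]
        ring
    have h2 := ((Lp.fourierTransformₗᵢ ℝ ℂ).symm.toContinuousLinearEquiv.toContinuousLinearMap).hasSum key
    have e1 : (Lp.fourierTransformₗᵢ ℝ ℂ).symm.toContinuousLinearEquiv.toContinuousLinearMap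
        (𝓕 (N0 (M f)) : L2R) = N0 (M f) := (Lp.fourierTransformₗᵢ ℝ ℂ).symm_apply_apply _
    rw [e1] at h2
    refine h2.congr_fun ?_
    intro n
    exact ((Lp.fourierTransformₗᵢ ℝ ℂ).symm.map_smul _ _).symm

end Pool.Agent.Helper209.PL.N4M
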