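import Pool.Agent.Helper209.PL.Defs
import Pool.Agent.Helper209.PL.NDefs

set_option autoImplicit false

namespace Pool.Agent.Helper209.PL.P1

open MeasureTheory Set
open scoped SchwartzMap InnerProductSpace FourierTransform






section NStmts
/-- proved elsewhere, use as hypotheses -/
def NucMulStmt : Prop := ∀ {H : Type} [NormedAddCommGroup H] [InnerProductSpace ℂ H] [CompleteSpace H]
    (D T P Q : H →L[ℂ] H) (N : ℝ), Nuc D T N → Nuc D (P.comp (T.comp Q)) (‖P‖ * ‖Q‖ * N)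

def NucSumStmt : Prop := ∀ {H : Type} [NormedAddCommGroup H] [InnerProductSpace ℂ H] [CompleteSpace H]
    {ι : Type} [Countable ι] (D T : H →L[ℂ] H) (S : ι → H →L[ℂ] H) (N : ι → ℝ) (N0 : ℝ), (∀ k, Nuc D (S k) (N k)) →
    HasSum N N0 → HasSum S T → Nuc D T N0

def NucPowStmt : Prop := ∀ {H : Type} [NormedAddCommGroup H] [InnerProductSpace ℂ H] [CompleteSpace H]
    (D U U0 : H →L[ℂ] H), ‖U‖ ≤ 1 → ‖U0‖ ≤ 1 → ∀ (N : ℝ), 0 ≤ N → Nuc D (U - U0) N → ∀ (k : ℕ),
    Nuc D (U ^ k - U0 ^ k) (k * N)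

def FourierExpansionStmt : Prop := ∀ (γ m a : ℝ), 1 < γ → 0 < m → 0 < a →
    ∃ (ω : ℝ) (cf : ℤ → ℂ), Summable (fun k : ℤ => (1 + |(k : ℝ)|) * ‖cf k‖) ∧
      ∀ r : ℝ, |r| ≤ a → HasSum (fun k : ℤ => cf k * Complex.exp (((k : ℝ) * ω * r : ℝ) * Complex.I))
        (((if 0 < r then (max (m - 1 / r) 0) ^ γ else 0 : ℝ)) : ℂ)

def ExpNormStmt : Prop := ∀ {H : Type} [NormedAddCommGroup H] [InnerProductSpace ℂ H] [CompleteSpace H]
    (R : H →L[ℂ] H), IsSelfAdjoint R → ∀ (t : ℝ), ‖NormedSpace.exp (((t : ℂ) * Complex.I) • R)‖ ≤ 1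

def ExpPowStmt : Prop := ∀ {H : Type} [NormedAddCommGroup H] [InnerProductSpace ℂ H] [CompleteSpace H]
    (R : H →L[ℂ] H) (z : ℂ) (k : ℕ),
    NormedSpace.exp (((k : ℂ) * z) • R) = (NormedSpace.exp (z • R)) ^ k

def CfcSeriesStmt : Prop := ∀ {H : Type} [NormedAddCommGroup H] [InnerProductSpace ℂ H] [CompleteSpace H]
    (R : H →L[ℂ] H), IsSelfAdjoint R → ∀ (a : ℝ), ‖R‖ ≤ a → ∀ (F : ℝ → ℝ), Continuous F → ∀ (ω : ℝ)
    (cf : ℤ → ℂ), Summable (fun k : ℤ => ‖cf k‖) →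
    (∀ r : ℝ, |r| ≤ a →
      HasSum (fun k : ℤ => cf k * Complex.exp (((k : ℝ) * ω * r : ℝ) * Complex.I)) ((F r : ℝ) : ℂ)) →
    HasSum (fun k : ℤ => cf k • NormedSpace.exp (((((k : ℝ) * ω : ℝ) : ℂ) * Complex.I) • R)) (cfc F R)
end NStmts

theorem nuc_mono {H : Type} [NormedAddCommGroup H] [InnerProductSpace ℂ H] [CompleteSpace H]
    {D T : H →L[ℂ] H} {N N' : ℝ} (h : Nuc D T N) (hN : N ≤ N') : Nuc D T N' := by
  obtain ⟨A, B, s, hs, hsum, hT⟩ := h
  refine ⟨A, B, fun k => s k + (if k = 0 then N' - N else 0), ?_, ?_, hT⟩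
  · intro k
    refine le_trans (hs k) ?_
    have : 0 ≤ (if k = 0 then N' - N else 0) := by
      split_ifs
      · linarith
      · exact le_refl _
    linarith
  · have h0 : HasSum (fun k : ℕ => if k = 0 then N' - N else 0) (N' - N) := by
      exact hasSum_ite_eq 0 (N' - N)
    have := hsum.add h0
    simpa using this

theorem nuc_smul {H : Type} [NormedAddCommGroup H] [InnerProductSpace ℂ H] [CompleteSpace H]
    {D T : H →L[ℂ] H} {N : ℝ} (h : Nuc D T N) (c : ℂ) : Nuc D (c • T) (‖c‖ * N) := by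
  obtain ⟨A, B, s, hs, hsum, hT⟩ := h
  refine ⟨fun k => c • A k, B, fun k => ‖c‖ * s k, ?_, hsum.mul_left _, ?_⟩
  · intro k
    rw [norm_smul, mul_assoc]
    exact mul_le_mul_of_nonneg_left (hs k) (norm_nonneg _)
  · have := hT.const_smul c
    simpa [ContinuousLinearMap.smul_comp] using this

theorem nuc_self {H : Type} [NormedAddCommGroup H] [InnerProductSpace ℂ H] [CompleteSpace H]
    (D : H →L[ℂ] H) : Nuc D D 1 := by
  have h1 : ‖(1 : H →L[ℂ] H)‖ ≤ 1 := by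
    exact ContinuousLinearMap.norm_id_le
  refine ⟨fun k => if k = 0 then 1 else 0, fun k => if k = 0 then 1 else 0,
    fun k => if k = 0 then 1 else 0, ?_, hasSum_ite_eq 0 1, ?_⟩
  · intro k
    by_cases hk : k = 0
    · simp only [hk, if_true]
      nlinarith [norm_nonneg (1 : H →L[ℂ] H)]
    · simp [hk]
  · have h2 := hasSum_ite_eq (0 : ℕ) D
    convert h2 using 1
    funext k
    by_cases hk : k = 0
    · simp only [hk, if_true]
      change (1 : H →L[ℂ] H) * (D * 1) = D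
      rw [mul_one, one_mul]
    · simp [hk]

theorem nuc_zero {H : Type} [NormedAddCommGroup H] [InnerProductSpace ℂ H] [CompleteSpace H]
    (D : H →L[ℂ] H) : Nuc D 0 0 := by
  have := nuc_smul (nuc_self D) 0
  simpa using this

theorem nuc_add (h2 : NucSumStmt)
    {H : Type} [NormedAddCommGroup H] [InnerProductSpace ℂ H] [CompleteSpace H]
    {D T S : H →L[ℂ] H} {N M : ℝ} (hT : Nuc D T N) (hS : Nuc D S M) : Nuc D (T + S) (N + M) := by
  refine h2 (ι := Bool) D (T + S) (fun b => if b then T else S) (fun b => if b then N else M)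
    (N + M) ?_ ?_ ?_
  · intro b
    cases b
    · simpa using hS
    · simpa using hT
  · have := hasSum_fintype (fun b : Bool => if b then N else M)
    simpa using this
  · have := hasSum_fintype (fun b : Bool => if b then T else S)
    simpa using this

theorem nuc_pow_unif (h1 : NucMulStmt) (h2 : NucSumStmt)
    {H : Type} [NormedAddCommGroup H] [InnerProductSpace ℂ H] [CompleteSpace H] (a : ℝ) (ha : 0 ≤ a)
    (R R0 : H →L[ℂ] H) (hR : ‖R‖ ≤ a) (hR0 : ‖R0‖ ≤ a) (n : ℕ) :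
    Nuc (R - R0) (R ^ n - R0 ^ n) ((a + 2) ^ n) := by
  have hone : ‖(1 : H →L[ℂ] H)‖ ≤ 1 := ContinuousLinearMap.norm_id_le
  induction n with
  | zero =>
    simp only [pow_zero, sub_self]
    exact nuc_mono (nuc_zero _) zero_le_one
  | succ n ih =>
    have e : R ^ (n + 1) - R0 ^ (n + 1) =
        R.comp ((R ^ n - R0 ^ n).comp (1 : H →L[ℂ] H)) + (1 : H →L[ℂ] H).comp ((R - R0).comp (R0 ^ n)) := by
      change _ = R * ((R ^ n - R0 ^ n) * 1) + 1 * ((R - R0) * R0 ^ n)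
      rw [pow_succ', pow_succ']
      noncomm_ring
    rw [e]
    have hA := h1 (R - R0) _ R 1 _ ih
    have hB := h1 (R - R0) _ 1 (R0 ^ n) _ (nuc_self (R - R0))
    refine nuc_mono (nuc_add h2 hA hB) ?_
    have hpn : ‖R0 ^ n‖ ≤ (a + 2) ^ n := by
      rcases Nat.eq_zero_or_pos n with h0 | h0
      · subst h0
        simpa using hone
      · calc ‖R0 ^ n‖ ≤ ‖R0‖ ^ n := norm_pow_le' _ h0
          _ ≤ (a + 2) ^ n := pow_le_pow_left₀ (norm_nonneg _) (by linarith) n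
    have hp : 0 ≤ (a + 2) ^ n := by positivity
    have hx : ‖R‖ * ‖(1 : H →L[ℂ] H)‖ ≤ a := by
      calc ‖R‖ * ‖(1 : H →L[ℂ] H)‖ ≤ a * 1 :=
            mul_le_mul hR hone (norm_nonneg _) ha
        _ = a := mul_one a
    have hy : ‖(1 : H →L[ℂ] H)‖ * ‖R0 ^ n‖ ≤ (a + 2) ^ n := by
      calc ‖(1 : H →L[ℂ] H)‖ * ‖R0 ^ n‖ ≤ 1 * (a + 2) ^ n :=
            mul_le_mul hone hpn (norm_nonneg _) zero_le_one
        _ = (a + 2) ^ n := one_mul _
    have hz : ‖R‖ * ‖(1 : H →L[ℂ] H)‖ * (a + 2) ^ n ≤ a * (a + 2) ^ n :=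
      mul_le_mul_of_nonneg_right hx hp
    rw [pow_succ]
    nlinarith

/-- uniform version for exponentials -/
theorem nuc_exp_unif (h1 : NucMulStmt) (h2 : NucSumStmt)
    {H : Type} [NormedAddCommGroup H] [InnerProductSpace ℂ H] [CompleteSpace H] (a : ℝ) (ha : 0 ≤ a) (z : ℂ) :
    ∃ N : ℝ, 0 ≤ N ∧ ∀ (R R0 : H →L[ℂ] H), ‖R‖ ≤ a → ‖R0‖ ≤ a →
      Nuc (R - R0) (NormedSpace.exp (z • R) - NormedSpace.exp (z • R0)) N := by
  have hsum : Summable (fun n : ℕ => ‖((n.factorial : ℂ)⁻¹ * z ^ n)‖ * (a + 2) ^ n) := by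
    have := Real.summable_pow_div_factorial (‖z‖ * (a + 2))
    refine this.congr fun n => ?_
    rw [norm_mul, norm_inv, norm_pow, Complex.norm_natCast, mul_pow]
    ring
  refine ⟨∑' n : ℕ, ‖((n.factorial : ℂ)⁻¹ * z ^ n)‖ * (a + 2) ^ n,
    tsum_nonneg fun n => by positivity, ?_⟩
  intro R R0 hR hR0
  refine h2 (ι := ℕ) (R - R0) _ (fun n => ((n.factorial : ℂ)⁻¹ * z ^ n) • (R ^ n - R0 ^ n))
    _ _ (fun n => nuc_smul (nuc_pow_unif h1 h2 a ha R R0 hR hR0 n) _) hsum.hasSum ?_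
  have e1 := NormedSpace.exp_series_hasSum_exp' (𝕂 := ℂ) (z • R)
  have e2 := NormedSpace.exp_series_hasSum_exp' (𝕂 := ℂ) (z • R0)
  have e3 := e1.sub e2
  have e4 : (fun n : ℕ => ((n.factorial : ℂ)⁻¹ * z ^ n) • (R ^ n - R0 ^ n)) =
      fun n : ℕ => ((n.factorial : ℂ)⁻¹) • (z • R) ^ n - ((n.factorial : ℂ)⁻¹) • (z • R0) ^ n := by
    funext n
    rw [smul_pow, smul_pow, smul_sub, smul_smul, smul_smul]
  rw [e4]
  exact e3

/-- the difference of the functional calculi is nuclear relative to the resolvent difference,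
with a uniform constant -/
theorem negPow_diff_unif (h1 : NucMulStmt) (h2 : NucSumStmt) (h4 : NucPowStmt)
    (h5 : FourierExpansionStmt) (h6 : ExpNormStmt) (h7 : ExpPowStmt) (h8 : CfcSeriesStmt)
    {H : Type} [NormedAddCommGroup H] [InnerProductSpace ℂ H] [CompleteSpace H]
    (γ μ c a : ℝ) (hγ : 1 < γ) (hμ : 0 < μ) (hc : 0 < c) (ha : 0 < a) :
    ∃ N : ℝ, 0 ≤ N ∧ ∀ (R R0 : H →L[ℂ] H), IsSelfAdjoint R → IsSelfAdjoint R0 → ‖R‖ ≤ a → ‖R0‖ ≤ a →
      Nuc (R - R0) (negPow γ μ c R - negPow γ μ c R0) N := by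
  have hm : 0 < μ + c := by linarith
  obtain ⟨ω, cf, hcf, hexp⟩ := h5 γ (μ + c) a hγ hm ha
  obtain ⟨N1, hN1, hE1⟩ := nuc_exp_unif h1 h2 (H := H) a ha.le (((ω : ℝ) : ℂ) * Complex.I)
  obtain ⟨N2, hN2, hE2⟩ := nuc_exp_unif h1 h2 (H := H) a ha.le ((((-ω : ℝ)) : ℂ) * Complex.I)
  set M : ℝ := max N1 N2 with hM
  have hM0 : 0 ≤ M := le_trans hN1 (le_max_left _ _)
  have hsumcf : Summable (fun k : ℤ => ‖cf k‖) := by
    refine Summable.of_nonneg_of_le (fun k => norm_nonneg _) (fun k => ?_) hcf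
    nlinarith [abs_nonneg (k : ℝ), norm_nonneg (cf k)]
  have hsum : Summable (fun k : ℤ => ‖cf k‖ * (|(k : ℝ)| * M)) := by
    refine Summable.of_nonneg_of_le (fun k => by positivity) (fun k => ?_) (hcf.mul_left M)
    nlinarith [abs_nonneg (k : ℝ), norm_nonneg (cf k), mul_nonneg hM0 (norm_nonneg (cf k))]
  -- the function is continuous
  have hFc : Continuous (fun r : ℝ => if 0 < r then (max (μ + c - 1 / r) 0) ^ γ else 0) := by
    have hG : Continuous (fun r : ℝ => (max (μ + c - 1 / max r (1 / (μ + c))) 0) ^ γ) := by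
      apply Continuous.rpow_const
      · apply Continuous.max _ continuous_const
        apply continuous_const.sub
        apply Continuous.div continuous_const (continuous_id.max continuous_const)
        intro r
        have : 0 < max r (1 / (μ + c)) := lt_of_lt_of_le (by positivity) (le_max_right _ _)
        exact this.ne'
      · intro r
        right
        linarith
    convert hG using 2 with r
    by_cases hr : 1 / (μ + c) ≤ r
    · have hr0 : 0 < r := lt_of_lt_of_le (by positivity) hr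
      rw [if_pos hr0, max_eq_left hr]
    · push Not at hr
      rw [max_eq_right hr.le]
      have e1 : μ + c - 1 / (1 / (μ + c)) = 0 := by
        rw [one_div_one_div, sub_self]
      rw [e1, max_self, Real.zero_rpow (by linarith)]
      split_ifs with h0
      · have : μ + c - 1 / r ≤ 0 := by
          rw [sub_nonpos, le_div_iff₀ h0]
          rw [lt_div_iff₀ hm] at hr
          linarith
        rw [max_eq_right this, Real.zero_rpow (by linarith)]
      · rfl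
  refine ⟨∑' k : ℤ, ‖cf k‖ * (|(k : ℝ)| * M), tsum_nonneg fun k => by positivity, ?_⟩
  intro R R0 hRs hR0s hR hR0
  have e1 := h8 R hRs a hR _ hFc ω cf hsumcf (fun r hr => hexp r hr)
  have e2 := h8 R0 hR0s a hR0 _ hFc ω cf hsumcf (fun r hr => hexp r hr)
  have hsub := e1.sub e2
  refine h2 (ι := ℤ) (R - R0) _ _ _ _ (fun k => ?_) hsum.hasSum hsub
  rw [← smul_sub]
  apply nuc_smul
  have hkey : ∀ (t : ℝ) (N : ℝ), 0 ≤ N → N ≤ M →
      (Nuc (R - R0) (NormedSpace.exp (((t : ℂ) * Complex.I) • R) -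
        NormedSpace.exp (((t : ℂ) * Complex.I) • R0)) N) → ∀ n : ℕ,
      Nuc (R - R0) (NormedSpace.exp (((n : ℂ) * ((t : ℂ) * Complex.I)) • R) -
        NormedSpace.exp (((n : ℂ) * ((t : ℂ) * Complex.I)) • R0)) (n * M) := by
    intro t N hN hNM hNuc n
    rw [h7 R _ n, h7 R0 _ n]
    refine nuc_mono (h4 (R - R0) _ _ (h6 R hRs t) (h6 R0 hR0s t) N hN hNuc n) ?_
    exact mul_le_mul_of_nonneg_left hNM (by positivity)
  rcases Int.eq_nat_or_neg k with ⟨n, hn | hn⟩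
  · have := hkey ω N1 hN1 (le_max_left _ _) (hE1 R R0 hR hR0) n
    rw [hn]
    have e3 : (((((n : ℤ) : ℝ) * ω : ℝ) : ℂ) * Complex.I) = (n : ℂ) * ((ω : ℂ) * Complex.I) := by
      push_cast
      ring
    have e4 : |((n : ℤ) : ℝ)| = (n : ℝ) := by
      simp
    rw [e3, e4]
    exact this
  · have := hkey (-ω) N2 hN2 (le_max_right _ _) (hE2 R R0 hR hR0) n
    rw [hn]
    have e3 : (((((-(n : ℤ) : ℤ)) : ℝ) * ω : ℝ) : ℂ) * Complex.I =
        (n : ℂ) * (((-ω : ℝ) : ℂ) * Complex.I) := by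
      push_cast
      ring
    have e4 : |((-(n : ℤ) : ℤ) : ℝ)| = (n : ℝ) := by
      simp
    rw [e3, e4]
    exact this

end Pool.Agent.Helper209.PL.P1
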