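import Pool.Agent.Helper209.PL.Defs
import Pool.Agent.Helper209.PL.NDefs

set_option autoImplicit false

namespace Pool.Agent.Helper209.PL.P2

open MeasureTheory Set
open scoped SchwartzMap InnerProductSpace FourierTransform




section NStmts
def HsIndepStmt : Prop := ∀ {H : Type} [NormedAddCommGroup H] [InnerProductSpace ℂ H] [CompleteSpace H]
    (b b' : HilbertBasis ℕ ℂ H) (X A : H →L[ℂ] H) (s : ℝ), HasSum (fun i => ‖X (b i)‖ ^ 2) s →
    HasSum (fun i => ‖X (b' i)‖ ^ 2) s ∧ HasSum (fun i => ‖ContinuousLinearMap.adjoint X (b i)‖ ^ 2) s ∧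
    (∃ s' : ℝ, s' ≤ ‖A‖ ^ 2 * s ∧ HasSum (fun i => ‖A (X (b i))‖ ^ 2) s') ∧
    (∃ s' : ℝ, s' ≤ ‖A‖ ^ 2 * s ∧ HasSum (fun i => ‖X (A (b i))‖ ^ 2) s')
end NStmts

/-- trace bound for operators that are nuclear relative to a product of Hilbert-Schmidt operators -/
theorem nuc_trace (hI : HsIndepStmt) {H : Type} [NormedAddCommGroup H] [InnerProductSpace ℂ H] [CompleteSpace H]
    (e : HilbertBasis ℕ ℂ H) (X Y : H →L[ℂ] H) (sx sy : ℝ) (hX : HasSum (fun i => ‖X (e i)‖ ^ 2) sx)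
    (hY : HasSum (fun i => ‖Y (e i)‖ ^ 2) sy) (T : H →L[ℂ] H) (N : ℝ)
    (hT : Nuc ((ContinuousLinearMap.adjoint X).comp Y) T N) :
    Summable (fun i => ⟪e i, T (e i)⟫_ℂ) ∧ ‖∑' i, ⟪e i, T (e i)⟫_ℂ‖ ≤ N * (Real.sqrt sx * Real.sqrt sy) := by
  obtain ⟨A, B, s, hs, hsN, hsum⟩ := hT
  set F : ℕ × ℕ → ℂ := fun p => ⟪e p.2, ((A p.1).comp (((ContinuousLinearMap.adjoint X).comp Y).comp (B p.1))) (e p.2)⟫_ℂ with hF
  have hFeq : ∀ k i, ‖F (k, i)‖ ≤ ‖X (ContinuousLinearMap.adjoint (A k) (e i))‖ * ‖Y (B k (e i))‖ := by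
    intro k i
    have : F (k, i) = ⟪X (ContinuousLinearMap.adjoint (A k) (e i)), Y (B k (e i))⟫_ℂ := by
      simp only [hF, ContinuousLinearMap.comp_apply]
      rw [← ContinuousLinearMap.adjoint_inner_left (A k), ContinuousLinearMap.adjoint_inner_right X]
    rw [this]
    exact norm_inner_le_norm _ _
  have hsx : 0 ≤ sx := hX.nonneg (fun i => by positivity)
  have hsy : 0 ≤ sy := hY.nonneg (fun i => by positivity)
  have hfin : ∀ k (u : Finset ℕ), ∑ i ∈ u, ‖F (k, i)‖ ≤ s k * (Real.sqrt sx * Real.sqrt sy) := by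
    intro k u
    obtain ⟨p, hp, hpS⟩ := (hI e e X (ContinuousLinearMap.adjoint (A k)) sx hX).2.2.2
    obtain ⟨q, hq, hqS⟩ := (hI e e Y (B k) sy hY).2.2.2
    have h1 : ∑ i ∈ u, ‖F (k, i)‖ ≤ ∑ i ∈ u, ‖X (ContinuousLinearMap.adjoint (A k) (e i))‖ * ‖Y (B k (e i))‖ :=
      Finset.sum_le_sum (fun i _ => hFeq k i)
    have h2 := Real.sum_mul_le_sqrt_mul_sqrt u (fun i => ‖X (ContinuousLinearMap.adjoint (A k) (e i))‖) (fun i => ‖Y (B k (e i))‖)
    have h3 : ∑ i ∈ u, ‖X (ContinuousLinearMap.adjoint (A k) (e i))‖ ^ 2 ≤ p :=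
      sum_le_hasSum u (fun i _ => by positivity) hpS
    have h4 : ∑ i ∈ u, ‖Y (B k (e i))‖ ^ 2 ≤ q :=
      sum_le_hasSum u (fun i _ => by positivity) hqS
    have h5 : Real.sqrt (∑ i ∈ u, ‖X (ContinuousLinearMap.adjoint (A k) (e i))‖ ^ 2) ≤ ‖A k‖ * Real.sqrt sx := by
      have : ‖A k‖ * Real.sqrt sx = Real.sqrt (‖A k‖ ^ 2 * sx) := by
        rw [Real.sqrt_mul (by positivity), Real.sqrt_sq (norm_nonneg _)]
      rw [this]
      apply Real.sqrt_le_sqrt
      have hn : ‖ContinuousLinearMap.adjoint (A k)‖ = ‖A k‖ := LinearIsometryEquiv.norm_map _ _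
      rw [hn] at hp
      linarith
    have h6 : Real.sqrt (∑ i ∈ u, ‖Y (B k (e i))‖ ^ 2) ≤ ‖B k‖ * Real.sqrt sy := by
      have : ‖B k‖ * Real.sqrt sy = Real.sqrt (‖B k‖ ^ 2 * sy) := by
        rw [Real.sqrt_mul (by positivity), Real.sqrt_sq (norm_nonneg _)]
      rw [this]
      apply Real.sqrt_le_sqrt
      linarith
    calc ∑ i ∈ u, ‖F (k, i)‖ ≤ _ := h1
      _ ≤ _ := h2
      _ ≤ (‖A k‖ * Real.sqrt sx) * (‖B k‖ * Real.sqrt sy) :=
        mul_le_mul h5 h6 (Real.sqrt_nonneg _) (by positivity)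
      _ = (‖A k‖ * ‖B k‖) * (Real.sqrt sx * Real.sqrt sy) := by ring
      _ ≤ s k * (Real.sqrt sx * Real.sqrt sy) :=
        mul_le_mul_of_nonneg_right (hs k) (by positivity)
  have hsm : ∀ k, Summable (fun i => ‖F (k, i)‖) := fun k =>
    summable_of_sum_le (fun i => norm_nonneg _) (hfin k)
  have htk : ∀ k, ∑' i, ‖F (k, i)‖ ≤ s k * (Real.sqrt sx * Real.sqrt sy) := fun k =>
    (hsm k).tsum_le_of_sum_le (hfin k)
  have hsC : Summable (fun k => s k * (Real.sqrt sx * Real.sqrt sy)) := hsN.summable.mul_right _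
  have hkk : Summable (fun k => ∑' i, ‖F (k, i)‖) :=
    Summable.of_nonneg_of_le (fun k => tsum_nonneg (fun i => norm_nonneg _)) htk hsC
  have hall : Summable (fun p : ℕ × ℕ => ‖F p‖) :=
    (summable_prod_of_nonneg (fun p => norm_nonneg _)).2 ⟨hsm, hkk⟩
  have hallF : Summable F := hall.of_norm
  have hinner : ∀ i, HasSum (fun k => F (k, i)) ⟪e i, T (e i)⟫_ℂ := by
    intro i
    have h1 : HasSum (fun k => ((A k).comp (((ContinuousLinearMap.adjoint X).comp Y).comp (B k))) (e i)) (T (e i)) := by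
      have := (ContinuousLinearMap.apply ℂ H (e i)).hasSum hsum
      simpa using this
    have h2 := (innerSL ℂ (e i)).hasSum h1
    simpa [hF] using h2
  have hswap : Summable (fun p : ℕ × ℕ => F (p.2, p.1)) := hallF.prod_symm
  have hti : ∀ i, ∑' k, F (k, i) = ⟪e i, T (e i)⟫_ℂ := fun i => (hinner i).tsum_eq
  have hS : Summable (fun i => ⟪e i, T (e i)⟫_ℂ) := by
    have := hswap.prod
    simpa [hti] using this
  refine ⟨hS, ?_⟩
  have e1 : ∑' i, ⟪e i, T (e i)⟫_ℂ = ∑' p : ℕ × ℕ, F p := by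
    have h1 : ∑' p : ℕ × ℕ, F (p.2, p.1) = ∑' i, ∑' k, F (k, i) := hswap.tsum_prod
    have h2 : ∑' p : ℕ × ℕ, F (p.2, p.1) = ∑' p : ℕ × ℕ, F p :=
      (Equiv.prodComm ℕ ℕ).tsum_eq F
    rw [← h2, h1]
    exact (tsum_congr hti).symm
  rw [e1]
  calc ‖∑' p : ℕ × ℕ, F p‖ ≤ ∑' p : ℕ × ℕ, ‖F p‖ := norm_tsum_le_tsum_norm hall
    _ = ∑' k, ∑' i, ‖F (k, i)‖ := hall.tsum_prod
    _ ≤ ∑' k, s k * (Real.sqrt sx * Real.sqrt sy) := hkk.tsum_le_tsum htk hsC
    _ = N * (Real.sqrt sx * Real.sqrt sy) := by rw [tsum_mul_right, hsN.tsum_eq]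

/-- the trace formula for `G V G`, `G` selfadjoint, via a factorisation `V = s t` -/
theorem approx_cc (V : ℝ → ℝ) (hV : Measurable V) (b : ℝ) (hb : ∀ x, |V x| ≤ b) (hVi : Integrable V) :
    ∃ W : ℕ → ℝ → ℝ, (∀ n, Continuous (W n)) ∧ (∀ n, HasCompactSupport (W n)) ∧ (∀ n x, |W n x| ≤ b) ∧
      Filter.Tendsto (fun n => ∫ x, |W n x - V x|) Filter.atTop (nhds 0) := by
  have hb0 : 0 ≤ b := le_trans (abs_nonneg _) (hb 0)
  have hex : ∀ n : ℕ, ∃ g : ℝ → ℝ, HasCompactSupport g ∧ (∫ x, ‖V x - g x‖) ≤ 1 / ((n : ℝ) + 1) ∧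
      Continuous g ∧ Integrable g := fun n =>
    hVi.exists_hasCompactSupport_integral_sub_le (by positivity)
  choose g hgc hgi hgcont hgint using hex
  refine ⟨fun n x => max (-b) (min b (g n x)), ?_, ?_, ?_, ?_⟩
  · intro n
    exact continuous_const.max (continuous_const.min (hgcont n))
  · intro n
    show HasCompactSupport ((fun y => max (-b) (min b y)) ∘ (g n))
    apply (hgc n).comp_left
    simp [hb0]
  · intro n x
    rw [abs_le]
    constructor
    · exact le_max_left _ _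
    · exact max_le (by linarith) (min_le_left _ _)
  · have hpt : ∀ n x, |max (-b) (min b (g n x)) - V x| ≤ ‖V x - g n x‖ := by
      intro n x
      have h1 : V x = max (-b) (min b (V x)) := by
        have := abs_le.1 (hb x)
        rw [min_eq_right this.2, max_eq_right this.1]
      rw [Real.norm_eq_abs, abs_sub_comm (V x) (g n x)]
      conv_lhs => rw [h1]
      calc |max (-b) (min b (g n x)) - max (-b) (min b (V x))| ≤ |min b (g n x) - min b (V x)| := by
            have := abs_max_sub_max_le_abs (min b (g n x)) (min b (V x)) (-b)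
            rwa [max_comm (-b), max_comm (-b)]
        _ ≤ |g n x - V x| := by
            have := abs_min_sub_min_le_max b (g n x) b (V x)
            simpa using this
    have hle : ∀ n, ∫ x, |max (-b) (min b (g n x)) - V x| ≤ 1 / ((n : ℝ) + 1) := by
      intro n
      refine le_trans ?_ (hgi n)
      apply integral_mono_of_nonneg
      · exact Filter.Eventually.of_forall (fun x => abs_nonneg _)
      · exact (hVi.sub (hgint n)).norm
      · exact Filter.Eventually.of_forall (fun x => hpt n x)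
    have ht : Filter.Tendsto (fun n : ℕ => 1 / ((n : ℝ) + 1)) Filter.atTop (nhds 0) :=
      tendsto_one_div_add_atTop_nhds_zero_nat
    exact squeeze_zero (fun n => integral_nonneg (fun x => abs_nonneg _)) hle ht



/-- the right-hand side is Lipschitz on bounded sets -/
theorem ff_lipschitz (γ μ b : ℝ) (hγ : 1 < γ) (hμ : 0 < μ) (hb : 0 ≤ b) :
    ∃ K : ℝ, 0 ≤ K ∧ ∀ y z : ℝ, |y| ≤ b → |z| ≤ b → |FF γ μ y - FF γ μ z| ≤ K * |y - z| := by
  have hp : 1 ≤ γ + 1 / 2 := by linarith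
  refine ⟨(γ + 1 / 2) * (μ + b) ^ (γ + 1 / 2 - 1) + (γ + 1 / 2) * μ ^ (γ - 1 / 2), by positivity, ?_⟩
  intro y z hy hz
  have hpow : ∀ u ∈ Set.Icc (0 : ℝ) (μ + b), ∀ v ∈ Set.Icc (0 : ℝ) (μ + b),
      |v ^ (γ + 1 / 2) - u ^ (γ + 1 / 2)| ≤ (γ + 1 / 2) * (μ + b) ^ (γ + 1 / 2 - 1) * |v - u| := by
    intro u hu v hv
    have := (convex_Icc (0 : ℝ) (μ + b)).norm_image_sub_le_of_norm_hasDerivWithin_le
      (f := fun t => t ^ (γ + 1 / 2)) (f' := fun t => (γ + 1 / 2) * t ^ (γ + 1 / 2 - 1))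
      (C := (γ + 1 / 2) * (μ + b) ^ (γ + 1 / 2 - 1))
      (fun t ht => (Real.hasDerivAt_rpow_const (Or.inr hp)).hasDerivWithinAt)
      (fun t ht => ?_) hu hv
    · simpa [Real.norm_eq_abs] using this
    · rw [Real.norm_eq_abs, abs_of_nonneg (by have := ht.1; positivity)]
      apply mul_le_mul_of_nonneg_left _ (by linarith)
      exact Real.rpow_le_rpow ht.1 ht.2 (by linarith)
  have hmem : ∀ w : ℝ, |w| ≤ b → max (μ - w) 0 ∈ Set.Icc (0 : ℝ) (μ + b) := by
    intro w hw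
    have := abs_le.1 hw
    exact ⟨le_max_right _ _, max_le (by linarith) (by linarith)⟩
  have h1 := hpow _ (hmem z hz) _ (hmem y hy)
  have h2 : |max (μ - y) 0 - max (μ - z) 0| ≤ |y - z| := by
    have := abs_max_sub_max_le_abs (μ - y) (μ - z) 0
    refine this.trans ?_
    rw [show μ - y - (μ - z) = -(y - z) by ring, abs_neg]
  have h3 : |max (μ - y) 0 ^ (γ + 1 / 2) - max (μ - z) 0 ^ (γ + 1 / 2)| ≤
      (γ + 1 / 2) * (μ + b) ^ (γ + 1 / 2 - 1) * |y - z| :=
    h1.trans (mul_le_mul_of_nonneg_left h2 (by positivity))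
  have h4 : FF γ μ y - FF γ μ z = (max (μ - y) 0 ^ (γ + 1 / 2) - max (μ - z) 0 ^ (γ + 1 / 2)) +
      (γ + 1 / 2) * μ ^ (γ - 1 / 2) * (y - z) := by
    unfold FF; ring
  rw [h4]
  refine (abs_add_le _ _).trans ?_
  rw [abs_mul ((γ + 1 / 2) * μ ^ (γ - 1 / 2)), abs_of_nonneg (show 0 ≤ (γ + 1 / 2) * μ ^ (γ - 1 / 2) by positivity), add_mul]
  linarith

/-- convergence of the right-hand sides -/
theorem ff_tendsto (γ μ b : ℝ) (hγ : 1 < γ) (hμ : 0 < μ) (V : ℝ → ℝ) (hV : Measurable V)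
    (hb : ∀ x, |V x| ≤ b) (hVi : Integrable V) (W : ℕ → ℝ → ℝ) (hW : ∀ n, Measurable (W n))
    (hWb : ∀ n x, |W n x| ≤ b) (hWi : ∀ n, Integrable (W n))
    (hlim : Filter.Tendsto (fun n => ∫ x, |W n x - V x|) Filter.atTop (nhds 0)) :
    Integrable (fun x => FF γ μ (V x)) ∧
    Filter.Tendsto (fun n => ∫ x, FF γ μ (W n x)) Filter.atTop (nhds (∫ x, FF γ μ (V x))) := by
  have hb0 : 0 ≤ b := le_trans (abs_nonneg _) (hb 0)
  obtain ⟨K, hK, hL⟩ := ff_lipschitz γ μ b hγ hμ hb0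
  have h0 : FF γ μ 0 = 0 := by
    unfold FF
    simp [max_eq_left hμ.le]
  have hFm : Measurable (FF γ μ) := by
    unfold FF
    fun_prop
  have hint : ∀ U : ℝ → ℝ, Measurable U → (∀ x, |U x| ≤ b) → Integrable U →
      Integrable (fun x => FF γ μ (U x)) := by
    intro U hU hUb hUi
    refine Integrable.mono' (hUi.norm.const_mul K) (hFm.comp hU).aestronglyMeasurable ?_
    refine Filter.Eventually.of_forall (fun x => ?_)
    have := hL (U x) 0 (hUb x) (by simpa using hb0)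
    rw [h0, sub_zero, sub_zero] at this
    simpa [Real.norm_eq_abs] using this
  have hVI := hint V hV hb hVi
  refine ⟨hVI, ?_⟩
  rw [tendsto_iff_norm_sub_tendsto_zero]
  have hlim' : Filter.Tendsto (fun n => K * ∫ x, |W n x - V x|) Filter.atTop (nhds 0) := by
    simpa using hlim.const_mul K
  refine squeeze_zero (fun n => norm_nonneg _) (fun n => ?_) hlim'
  rw [← integral_sub (hint (W n) (hW n) (hWb n) (hWi n)) hVI]
  refine (norm_integral_le_integral_norm _).trans ?_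
  rw [← integral_const_mul]
  apply integral_mono_of_nonneg
  · exact Filter.Eventually.of_forall (fun x => norm_nonneg _)
  · exact ((hWi n).sub hVi).norm.const_mul K
  · exact Filter.Eventually.of_forall (fun x => by
      have := hL (W n x) (V x) (hWb n x) (hb x)
      simpa [Real.norm_eq_abs] using this)

end Pool.Agent.Helper209.PL.P2
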