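import Pool.Agent.Helper209.PL.Defs
import Pool.Agent.Helper209.PL.NDefs

set_option autoImplicit false

namespace Pool.Agent.Helper209.PL.P3

open MeasureTheory Set
open scoped SchwartzMap InnerProductSpace FourierTransform


section WDefs





end WDefs

section WStmts
/-- proved elsewhere, use as hypotheses -/
def DenseRangeStmt : Prop := ∀ (V : ℝ → ℝ), Measurable V → ∀ (b c : ℝ), (∀ x, |V x| ≤ b) → b < c →
    ∀ (f : L2R) (ε : ℝ), 0 < ε → ∃ (χ : 𝓢(ℝ, ℂ)) (w : L2R),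
      (w : ℝ → ℂ) =ᵐ[volume] (fun x => -(deriv (deriv (χ : ℝ → ℂ)) x) + ((V x + c : ℝ) : ℂ) * χ x) ∧
      ‖w - f‖ < ε

def SelfAdjStmt : Prop := ∀ (V : ℝ → ℝ), Measurable V → ∀ (b c : ℝ), (∀ x, |V x| ≤ b) → b < c →
    ∀ (R : L2R →L[ℂ] L2R), IsResolvent V c R → IsSelfAdjoint R

def ExistsMulStmt : Prop := ∀ (v : ℝ → ℝ), Measurable v → ∀ (B : ℝ), (∀ x, |v x| ≤ B) →
    ∃ M : L2R →L[ℂ] L2R, IsMul v M ∧ ‖M‖ ≤ B ∧ IsSelfAdjoint M

/-- local Hilbert-Schmidt bound, uniform in the potential -/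
def LocalHSUStmt : Prop := ∀ (b c : ℝ), b < c → ∃ K : ℝ, 0 ≤ K ∧ ∀ (V : ℝ → ℝ), Measurable V → (∀ x, |V x| ≤ b) →
    ∀ (R : L2R →L[ℂ] L2R), IsResolvent V c R → ∀ (θ : ℝ → ℝ), Measurable θ → Integrable (fun x => θ x ^ 2) volume →
    ∀ (Θ : L2R →L[ℂ] L2R), IsMul θ Θ → ∀ (e : HilbertBasis ℕ ℂ L2R) (J : Finset ℕ),
    ∑ j ∈ J, ‖Θ (R (e j))‖ ^ 2 ≤ K * ∫ x, θ x ^ 2
end WStmts


theorem int_conj_mul (f g : 𝓢(ℝ, ℂ)) :
    Integrable (fun x => (starRingEnd ℂ) (f x) * g x) (volume : Measure ℝ) := by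
  have hf : MemLp (fun x => (starRingEnd ℂ) (f x)) 2 (volume : Measure ℝ) :=
    (f.memLp 2 volume).star
  have hg : MemLp (fun x => g x) 2 (volume : Measure ℝ) := g.memLp 2 volume
  exact hf.integrable_mul hg

theorem byparts (f : 𝓢(ℝ, ℂ)) :
    ∫ x, (starRingEnd ℂ) (f x) * deriv (deriv (f : ℝ → ℂ)) x =
      - ∫ x, (starRingEnd ℂ) (deriv (f : ℝ → ℂ) x) * deriv (f : ℝ → ℂ) x := by
  set f1 : 𝓢(ℝ, ℂ) := SchwartzMap.derivCLM ℂ ℂ f with hf1
  set f2 : 𝓢(ℝ, ℂ) := SchwartzMap.derivCLM ℂ ℂ f1 with hf2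
  have e1 : ∀ x, f1 x = deriv (f : ℝ → ℂ) x := fun x => rfl
  have e1' : (f1 : ℝ → ℂ) = deriv (f : ℝ → ℂ) := funext e1
  have e2 : ∀ x, f2 x = deriv (deriv (f : ℝ → ℂ)) x := by
    intro x
    rw [← e1']
    rfl
  simp_rw [← e2, ← e1]
  have hd1 : ∀ x, HasDerivAt (f : ℝ → ℂ) (f1 x) x := fun x =>
    (f.differentiable x).hasDerivAt
  have hd2 : ∀ x, HasDerivAt (f1 : ℝ → ℂ) (f2 x) x := fun x =>
    (f1.differentiable x).hasDerivAt
  have hc : ∀ x, HasDerivAt (fun x => (starRingEnd ℂ) (f x)) ((starRingEnd ℂ) (f1 x)) x :=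
    fun x => (hd1 x).star
  exact integral_mul_deriv_eq_deriv_mul_of_integrable (fun x _ => hc x) (fun x _ => hd2 x)
    (int_conj_mul f f2) (int_conj_mul f1 f1) (int_conj_mul f f1)

theorem int_bdd (U : ℝ → ℝ) (hU : Measurable U) (B : ℝ) (hB : ∀ x, |U x| ≤ B) (f g : 𝓢(ℝ, ℂ)) :
    Integrable (fun x => (U x : ℂ) * ((starRingEnd ℂ) (f x) * g x)) (volume : Measure ℝ) := by
  refine (int_conj_mul f g).bdd_mul (c := B) ?_ ?_
  · exact (Complex.measurable_ofReal.comp hU).aestronglyMeasurable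
  · refine Filter.Eventually.of_forall fun x => ?_
    rw [Complex.norm_real]
    exact hB x

theorem conj_mul_self (z : ℂ) : (starRingEnd ℂ) z * z = ((‖z‖ ^ 2 : ℝ) : ℂ) := by
  rw [mul_comm, Complex.mul_conj, Complex.normSq_eq_norm_sq]

theorem quad_form (U : ℝ → ℝ) (hU : Measurable U) (B m : ℝ) (hB : ∀ x, |U x| ≤ B)
    (hm : ∀ x, m ≤ U x) (f : 𝓢(ℝ, ℂ)) :
    m * ∫ x, ‖f x‖ ^ 2 ≤
      (∫ x, (starRingEnd ℂ) (f x) * (-(deriv (deriv (f : ℝ → ℂ)) x) + (U x : ℂ) * f x)).re := by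
  set f1 : 𝓢(ℝ, ℂ) := SchwartzMap.derivCLM ℂ ℂ f with hf1
  set f2 : 𝓢(ℝ, ℂ) := SchwartzMap.derivCLM ℂ ℂ f1 with hf2
  have e1' : (f1 : ℝ → ℂ) = deriv (f : ℝ → ℂ) := rfl
  have e2 : ∀ x, f2 x = deriv (deriv (f : ℝ → ℂ)) x := by
    intro x
    rw [← e1']
    rfl
  have h1 : ∫ x, (starRingEnd ℂ) (f x) * (-(deriv (deriv (f : ℝ → ℂ)) x) + (U x : ℂ) * f x) =
      - (∫ x, (starRingEnd ℂ) (f x) * deriv (deriv (f : ℝ → ℂ)) x) +
      ∫ x, (U x : ℂ) * ((starRingEnd ℂ) (f x) * f x) := by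
    rw [← integral_neg, ← integral_add]
    · congr 1
      ext x
      ring
    · simp_rw [← e2]
      exact (int_conj_mul f f2).neg
    · exact int_bdd U hU B hB f f
  rw [h1, byparts f, neg_neg]
  have h2 : ∫ x, (starRingEnd ℂ) (deriv (f : ℝ → ℂ) x) * deriv (f : ℝ → ℂ) x =
      ((∫ x, ‖deriv (f : ℝ → ℂ) x‖ ^ 2 : ℝ) : ℂ) := by
    rw [← integral_complex_ofReal]
    simp_rw [conj_mul_self]
  have h3 : ∫ x, (U x : ℂ) * ((starRingEnd ℂ) (f x) * f x) =
      ((∫ x, U x * ‖f x‖ ^ 2 : ℝ) : ℂ) := by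
    rw [← integral_complex_ofReal]
    simp_rw [conj_mul_self]
    push_cast
    rfl
  rw [h2, h3, ← Complex.ofReal_add, Complex.ofReal_re]
  have h4 : 0 ≤ ∫ x, ‖deriv (f : ℝ → ℂ) x‖ ^ 2 := integral_nonneg fun x => by positivity
  have hi : Integrable (fun x => ‖f x‖ ^ 2) (volume : Measure ℝ) := by
    have := (int_conj_mul f f).re
    refine this.congr (Filter.Eventually.of_forall fun x => ?_)
    simp only [conj_mul_self]
    norm_cast
  have hi2 : Integrable (fun x => U x * ‖f x‖ ^ 2) (volume : Measure ℝ) := by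
    have := (int_bdd U hU B hB f f).re
    refine this.congr (Filter.Eventually.of_forall fun x => ?_)
    simp only [conj_mul_self]
    norm_cast
  have h5 : m * ∫ x, ‖f x‖ ^ 2 ≤ ∫ x, U x * ‖f x‖ ^ 2 := by
    rw [← integral_const_mul]
    refine integral_mono (hi.const_mul m) hi2 fun x => ?_
    exact mul_le_mul_of_nonneg_right (hm x) (by positivity)
  linarith

/-- the dense subspace -/
def DS (V : ℝ → ℝ) (c : ℝ) : Set L2R := {w | ∃ χ : 𝓢(ℝ, ℂ),
  (w : ℝ → ℂ) =ᵐ[volume] (fun x => -(deriv (deriv (χ : ℝ → ℂ)) x) + ((V x + c : ℝ) : ℂ) * χ x)}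

theorem dense_DS (hD : DenseRangeStmt) (V : ℝ → ℝ) (hV : Measurable V) (b c : ℝ)
    (hb : ∀ x, |V x| ≤ b) (hbc : b < c) : Dense (DS V c) := by
  rw [Metric.dense_iff]
  intro f ε hε
  obtain ⟨χ, w, hw, hwf⟩ := hD V hV b c hb hbc f ε hε
  refine ⟨w, ?_, χ, hw⟩
  rw [Metric.mem_ball, dist_eq_norm]
  exact hwf

/-- resolvents are bounded by the distance to the spectrum -/
theorem res_norm (hD : DenseRangeStmt) (V : ℝ → ℝ) (hV : Measurable V) (b c : ℝ) (hb : ∀ x, |V x| ≤ b) (hbc : b < c)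
    (R : L2R →L[ℂ] L2R) (hR : IsResolvent V c R) : ‖R‖ ≤ 1 / (c - b) := by
  have hcb : 0 < c - b := by linarith
  have key : ∀ w ∈ DS V c, ‖R w‖ ≤ 1 / (c - b) * ‖w‖ := by
    rintro w ⟨χ, hw⟩
    have hRw := hR χ w hw
    have h1 : inner ℂ (R w) w = ∫ x, (starRingEnd ℂ) (χ x) *
        (-(deriv (deriv (χ : ℝ → ℂ)) x) + ((V x + c : ℝ) : ℂ) * χ x) := by
      rw [MeasureTheory.L2.inner_def]
      refine integral_congr_ae ?_
      filter_upwards [hw, hRw] with x hx1 hx2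
      rw [hx1, hx2]
      simp [mul_comm]
    have h2 := quad_form (fun x => V x + c) (hV.add_const c) (b + |c|) (c - b)
      (fun x => (abs_add_le _ _).trans (by linarith [hb x]))
      (fun x => by have := (abs_le.mp (hb x)).1; linarith) χ
    rw [← h1] at h2
    have h3 : ∫ x, ‖χ x‖ ^ 2 = ‖R w‖ ^ 2 := by
      have : inner ℂ (R w) (R w) = ((∫ x, ‖χ x‖ ^ 2 : ℝ) : ℂ) := by
        rw [MeasureTheory.L2.inner_def, ← integral_complex_ofReal]
        refine integral_congr_ae ?_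
        filter_upwards [hRw] with x hx2
        rw [hx2, RCLike.inner_apply, mul_comm]
        exact conj_mul_self _
      have h := inner_self_eq_norm_sq (𝕜 := ℂ) (R w)
      rw [this] at h
      rw [← h]
      exact (Complex.ofReal_re _).symm
    rw [h3] at h2
    have h4 : (inner ℂ (R w) w).re ≤ ‖R w‖ * ‖w‖ :=
      (Complex.re_le_norm _).trans (norm_inner_le_norm _ _)
    have h5 : (c - b) * ‖R w‖ ^ 2 ≤ ‖R w‖ * ‖w‖ := h2.trans h4
    rw [div_mul_eq_mul_div, one_mul, le_div_iff₀ hcb]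
    rcases (norm_nonneg (R w)).eq_or_lt with h0 | h0
    · rw [← h0]; simp
    · have : ‖R w‖ * ((c - b) * ‖R w‖) ≤ ‖R w‖ * ‖w‖ := by linarith
      have := le_of_mul_le_mul_left this h0
      linarith
  refine ContinuousLinearMap.opNorm_le_bound _ (by positivity) ?_
  have hcl : IsClosed {f : L2R | ‖R f‖ ≤ 1 / (c - b) * ‖f‖} :=
    isClosed_le (by fun_prop) (by fun_prop)
  intro f
  have := hcl.closure_subset_iff.mpr key
  rw [(dense_DS hD V hV b c hb hbc).closure_eq] at this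
  exact this (Set.mem_univ f)

/-- second resolvent identity for two potentials -/
theorem res_identity2 (hD : DenseRangeStmt) (V W : ℝ → ℝ) (hV : Measurable V) (hW : Measurable W) (b c : ℝ)
    (hb : ∀ x, |V x| ≤ b) (hb' : ∀ x, |W x| ≤ b) (hbc : b < c) (R S M : L2R →L[ℂ] L2R)
    (hR : IsResolvent V c R) (hS : IsResolvent W c S) (hM : IsMul (fun x => V x - W x) M) :
    R - S = -(R.comp (M.comp S)) := by
  have key : Set.EqOn (R - S) (-(R.comp (M.comp S))) (DS W c) := by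
    rintro w ⟨χ, hw⟩
    have h1 := hS χ w hw
    have h2 : R (w + M (S w)) = S w := by
      apply Lp.ext
      refine (hR χ (w + M (S w)) ?_).trans h1.symm
      filter_upwards [Lp.coeFn_add w (M (S w)), hw, hM (S w), h1] with x hx1 hx2 hx3 hx4
      rw [hx1, Pi.add_apply, hx2, hx3, hx4]
      push_cast
      ring
    rw [map_add] at h2
    change R w - S w = - (R (M (S w)))
    calc R w - S w = R w - (R w + R (M (S w))) := by rw [h2]
      _ = - (R (M (S w))) := by abel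
  have := Continuous.ext_on (dense_DS hD W hW b c hb' hbc) (R - S).continuous
    (-(R.comp (M.comp S))).continuous key
  exact ContinuousLinearMap.coeFn_injective this

/-- the resolvent difference is a product of two Hilbert-Schmidt operators, with bounds -/
theorem res_diff_hs2 (hD : DenseRangeStmt) (hSA : SelfAdjStmt) (hEM : ExistsMulStmt) (hL : LocalHSUStmt)
    (b c : ℝ) (hbc : b < c) : ∃ K : ℝ, 0 ≤ K ∧ ∀ (V W : ℝ → ℝ), Measurable V → Measurable W →
    (∀ x, |V x| ≤ b) → (∀ x, |W x| ≤ b) → Integrable (fun x => V x - W x) volume →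
    ∀ (R S : L2R →L[ℂ] L2R), IsResolvent V c R → IsResolvent W c S → ∀ (e : HilbertBasis ℕ ℂ L2R),
    ∃ (X Y : L2R →L[ℂ] L2R) (sx sy : ℝ), HasSum (fun i => ‖X (e i)‖ ^ 2) sx ∧
      HasSum (fun i => ‖Y (e i)‖ ^ 2) sy ∧ sx ≤ K * (∫ x, |V x - W x|) ∧ sy ≤ K * (∫ x, |V x - W x|) ∧
      R - S = (ContinuousLinearMap.adjoint X).comp Y := by
  obtain ⟨K, hK0, hK⟩ := hL b c hbc
  refine ⟨K, hK0, ?_⟩
  intro V W hV hW hb hb' hi R S hR hS e
  set t : ℝ → ℝ := fun x => Real.sqrt |V x - W x| with ht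
  set s : ℝ → ℝ := fun x => (V x - W x) / Real.sqrt |V x - W x| with hs
  have hU : Measurable (fun x => V x - W x) := hV.sub hW
  have htm : Measurable t := (hU.abs).sqrt
  have hsm : Measurable s := hU.div htm
  have ht2 : ∀ x, t x ^ 2 = |V x - W x| := fun x => Real.sq_sqrt (abs_nonneg _)
  have hs2 : ∀ x, s x ^ 2 = |V x - W x| := by
    intro x
    simp only [hs]
    rw [div_pow, Real.sq_sqrt (abs_nonneg _), ← sq_abs (V x - W x), pow_two, mul_self_div_self]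
  have hts : ∀ x, t x * s x = V x - W x := by
    intro x
    simp only [hs, ht]
    by_cases h0 : V x - W x = 0
    · simp [h0]
    · have : Real.sqrt |V x - W x| ≠ 0 := by
        have : 0 < |V x - W x| := abs_pos.mpr h0
        positivity
      field_simp
  have hUb : ∀ x, |V x - W x| ≤ 2 * b := fun x =>
    (abs_sub _ _).trans (by linarith [hb x, hb' x])
  have htb : ∀ x, |t x| ≤ Real.sqrt (2 * b) := by
    intro x
    rw [abs_of_nonneg (Real.sqrt_nonneg _)]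
    exact Real.sqrt_le_sqrt (hUb x)
  have hsb : ∀ x, |s x| ≤ Real.sqrt (2 * b) := by
    intro x
    rw [← Real.sqrt_sq_eq_abs, hs2]
    exact Real.sqrt_le_sqrt (hUb x)
  obtain ⟨Mt, hMt, -, hMta⟩ := hEM t htm _ htb
  obtain ⟨Ms, hMs, -, hMsa⟩ := hEM s hsm _ hsb
  have hMU : IsMul (fun x => V x - W x) (Mt.comp Ms) := by
    intro f
    filter_upwards [hMt (Ms f), hMs f] with x hx1 hx2
    rw [ContinuousLinearMap.comp_apply, hx1, hx2, ← mul_assoc]
    rw [← hts x]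
    push_cast
    rfl
  have hid := res_identity2 hD V W hV hW b c hb hb' hbc R S (Mt.comp Ms) hR hS hMU
  have hRa := hSA V hV b c hb hbc R hR
  have hit : Integrable (fun x => t x ^ 2) volume := by
    simp_rw [ht2]; exact hi.abs
  have his : Integrable (fun x => s x ^ 2) volume := by
    simp_rw [hs2]; exact hi.abs
  have hbt := hK V hV hb R hR t htm hit Mt hMt e
  have hbs := hK W hW hb' S hS s hsm his Ms hMs e
  simp_rw [ht2] at hbt
  simp_rw [hs2] at hbs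
  have hsx : Summable (fun i => ‖(Mt.comp R) (e i)‖ ^ 2) :=
    summable_of_sum_le (fun i => by positivity) hbt
  have hnY : ∀ i, ‖(-(Ms.comp S)) (e i)‖ = ‖Ms (S (e i))‖ := by
    intro i
    rw [ContinuousLinearMap.neg_apply, norm_neg]
    rfl
  have hbs' : ∀ J : Finset ℕ, ∑ j ∈ J, ‖(-(Ms.comp S)) (e j)‖ ^ 2 ≤ K * ∫ x, |V x - W x| := by
    intro J
    simp_rw [hnY]
    exact hbs J
  have hsy : Summable (fun i => ‖(-(Ms.comp S)) (e i)‖ ^ 2) :=
    summable_of_sum_le (fun i => by positivity) hbs'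
  refine ⟨Mt.comp R, -(Ms.comp S), _, _, hsx.hasSum, hsy.hasSum, ?_, ?_, ?_⟩
  · exact hasSum_le_of_sum_le hsx.hasSum hbt
  · exact hasSum_le_of_sum_le hsy.hasSum hbs'
  · rw [hid, ContinuousLinearMap.adjoint_comp]
    have e1 : ContinuousLinearMap.adjoint R = R := hRa
    have e2 : ContinuousLinearMap.adjoint Mt = Mt := hMta
    rw [e1, e2]
    ext1 f
    simp

end Pool.Agent.Helper209.PL.P3
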