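import Pool.Agent.Helper209.PL.Main5
import Pool.Agent.Helper209.PL.MainM1
import Pool.Agent.Helper209.PL.N4M
import Pool.Agent.Helper209.PL.P1
import Pool.Agent.Helper209.PL.P2
import Pool.Agent.Helper209.PL.P3

set_option autoImplicit false

namespace Pool.Agent.Helper209.PL

open MeasureTheory Set
open scoped SchwartzMap InnerProductSpace FourierTransform

theorem diff_unif {H : Type} [NormedAddCommGroup H] [InnerProductSpace ℂ H] [CompleteSpace H]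
    (γ μ c a : ℝ) (hγ : 1 < γ) (hμ : 0 < μ) (hc : 0 < c) (ha : 0 < a) :
    ∃ N : ℝ, 0 ≤ N ∧ ∀ (R R0 : H →L[ℂ] H), IsSelfAdjoint R → IsSelfAdjoint R0 → ‖R‖ ≤ a → ‖R0‖ ≤ a →
      Nuc (R - R0) (negPow γ μ c R - negPow γ μ c R0) N :=
  P1.negPow_diff_unif (fun D T P Q N h => N2.nuc_mul D T P Q N h)
    (fun D T S N N0 h hN hS => N2.nuc_sum D T S N N0 h hN hS)
    (fun D U U0 hU hU0 N hN h k => N2.nuc_pow D U U0 hU hU0 N hN h k)
    (fun γ m a hγ hm ha => N3.fourier_expansion γ m a hγ hm ha)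
    (fun R hR t => N6.exp_norm R hR t) (fun R z k => N6.exp_pow R z k)
    (fun R hR a ha F hF ω cf hcf hs => N6.cfc_series R hR a ha F hF ω cf hcf hs)
    γ μ c a hγ hμ hc ha

theorem hsIndepP : P2.HsIndepStmt := fun b b' X A s hX => N1b.hs_indep b b' X A s hX

theorem denseM : P3.DenseRangeStmt := fun V hV b c hb hbc f ε hε => dense_rangeM V hV b c hb hbc f ε hε

theorem selfM : P3.SelfAdjStmt := fun V hV b c hb hbc R hR => res_selfAdjointM V hV b c hb hbc R hR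

theorem mulM : P3.ExistsMulStmt := fun v hv B hB => Res2M.exists_mul v hv B hB

theorem localHSU : P3.LocalHSUStmt := by
  intro b c hbc
  obtain ⟨K, hK0, hK⟩ := Res3M.sup_bound b c hbc
  refine ⟨K ^ 2 * ‖(1 : L2R →L[ℂ] L2R)‖ ^ 2, by positivity, ?_⟩
  intro V hV hb R hR θ hθ hθ2 Θ hΘ e J
  have := ResLocM.res_local (fun V hV b c hb hbc f ε hε => dense_rangeM V hV b c hb hbc f ε hε) V hV b c hb hbc
      K hK0 (hK V hV hb) R hR θ hθ hθ2 Θ hΘ 1 e J
  simpa using this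

theorem res_normM (V : ℝ → ℝ) (hV : Measurable V) (b c : ℝ) (hb : ∀ x, |V x| ≤ b) (hbc : b < c)
    (R : L2R →L[ℂ] L2R) (hR : IsResolvent V c R) : ‖R‖ ≤ 1 / (c - b) :=
  P3.res_norm denseM V hV b c hb hbc R hR

theorem res_diffM (b c : ℝ) (hbc : b < c) : ∃ K : ℝ, 0 ≤ K ∧ ∀ (V W : ℝ → ℝ), Measurable V → Measurable W →
    (∀ x, |V x| ≤ b) → (∀ x, |W x| ≤ b) → Integrable (fun x => V x - W x) volume →
    ∀ (R S : L2R →L[ℂ] L2R), IsResolvent V c R → IsResolvent W c S → ∀ (e : HilbertBasis ℕ ℂ L2R),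
    ∃ (X Y : L2R →L[ℂ] L2R) (sx sy : ℝ), HasSum (fun i => ‖X (e i)‖ ^ 2) sx ∧
      HasSum (fun i => ‖Y (e i)‖ ^ 2) sy ∧ sx ≤ K * (∫ x, |V x - W x|) ∧ sy ≤ K * (∫ x, |V x - W x|) ∧
      R - S = (ContinuousLinearMap.adjoint X).comp Y :=
  P3.res_diff_hs2 denseM selfM mulM localHSU b c hbc

/-- the difference of the functional calculi is trace class, with a bound on its trace -/
theorem diff_tcM (γ μ : ℝ) (hγ : 1 < γ) (hμ : 0 < μ) (b c : ℝ) (hb0 : 0 ≤ b) (hbc : b < c) :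
    ∃ K : ℝ, 0 ≤ K ∧ ∀ (V W : ℝ → ℝ), Measurable V → Measurable W →
    (∀ x, |V x| ≤ b) → (∀ x, |W x| ≤ b) → Integrable (fun x => V x - W x) volume →
    ∀ (R S : L2R →L[ℂ] L2R), IsResolvent V c R → IsResolvent W c S → ∀ (e : HilbertBasis ℕ ℂ L2R),
    TCb e (negPow γ μ c R - negPow γ μ c S) ∧
    Summable (fun i => ⟪e i, (negPow γ μ c R - negPow γ μ c S) (e i)⟫_ℂ) ∧
    ‖∑' i, ⟪e i, (negPow γ μ c R - negPow γ μ c S) (e i)⟫_ℂ‖ ≤ K * ∫ x, |V x - W x| := by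
  have hc0 : 0 < c := by linarith
  have ha : 0 < 1 / (c - b) := by
    have : 0 < c - b := by linarith
    positivity
  obtain ⟨N, hN, hN2⟩ := diff_unif (H := L2R) γ μ c (1 / (c - b)) hγ hμ hc0 ha
  obtain ⟨K, hK, hK2⟩ := res_diffM b c hbc
  refine ⟨N * K, by positivity, ?_⟩
  intro V W hV hW hbV hbW hVW R S hR hS e
  obtain ⟨X, Y, sx, sy, hX, hY, hsx, hsy, hRS⟩ := hK2 V W hV hW hbV hbW hVW R S hR hS e
  have hnuc := hN2 R S (res_selfAdjointM V hV b c hbV hbc R hR) (res_selfAdjointM W hW b c hbW hbc S hS)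
    (res_normM V hV b c hbV hbc R hR) (res_normM W hW b c hbW hbc S hS)
  have h1 : TCb e (negPow γ μ c R - negPow γ μ c S) :=
    N7.tc_nuc hsSum hsIndep e (R - S) _ N ⟨X, Y, hX.summable, hY.summable, hRS⟩ hnuc
  rw [hRS] at hnuc
  obtain ⟨h2, h3⟩ := P2.nuc_trace hsIndepP e X Y sx sy hX hY _ N hnuc
  refine ⟨h1, h2, h3.trans ?_⟩
  have hI : 0 ≤ ∫ x, |V x - W x| := integral_nonneg (fun x => abs_nonneg _)
  have h4 : Real.sqrt sx * Real.sqrt sy ≤ K * ∫ x, |V x - W x| := by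
    calc Real.sqrt sx * Real.sqrt sy ≤ Real.sqrt (K * ∫ x, |V x - W x|) * Real.sqrt (K * ∫ x, |V x - W x|) := by
          gcongr
      _ = K * ∫ x, |V x - W x| := Real.mul_self_sqrt (by positivity)
  calc N * (Real.sqrt sx * Real.sqrt sy) ≤ N * (K * ∫ x, |V x - W x|) := by gcongr
    _ = N * K * ∫ x, |V x - W x| := by ring

/-- trace of the difference, bounded integrable potentials -/
theorem diff_boundM (γ : ℝ) (hγ : 1 < γ) : ∃ C : ℝ, 0 < C ∧ ∀ (μ : ℝ), 0 < μ →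
    ∀ (V : ℝ → ℝ), Measurable V → Integrable V → ∀ (b c : ℝ), (∀ x, |V x| ≤ b) → b < c →
    ∀ (R R0 : L2R →L[ℂ] L2R), IsResolvent V c R → IsResolvent (fun _ => 0) c R0 →
    ∀ (e : HilbertBasis ℕ ℂ L2R),
      (∑' i, ⟪e i, (negPow γ μ c R - negPow γ μ c R0) (e i)⟫_ℂ).re
        ≤ C * (∫ x, FF γ μ (V x)) - γ * (B0 γ μ * ∫ x, V x) := by
  obtain ⟨C, hC, hcc⟩ := diff_bound γ hγ
  refine ⟨C, hC, ?_⟩
  intro μ hμ V hV hVi b c hb hbc R R0 hR hR0 e
  have hb0 : 0 ≤ b := (abs_nonneg _).trans (hb 0)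
  have hc0 : 0 < c := by linarith
  obtain ⟨W, hWc, hWs, hWb, hWl⟩ := P2.approx_cc V hV b hb hVi
  have hWi : ∀ n, Integrable (W n) := fun n => (hWc n).integrable_of_hasCompactSupport (hWs n)
  obtain ⟨K, hK, hK2⟩ := diff_tcM γ μ hγ hμ b c hb0 hbc
  choose S hS using fun n => exists_resolvent (W n) (hWc n) b c (hWb n) hbc
  have hz : ∀ x : ℝ, |(fun _ : ℝ => (0 : ℝ)) x| ≤ b := fun x => by simpa using hb0
  -- traces of approximants
  have h1 : ∀ n, (∑' i, ⟪e i, (negPow γ μ c (S n) - negPow γ μ c R0) (e i)⟫_ℂ).re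
      ≤ C * (∫ x, FF γ μ (W n x)) - γ * (B0 γ μ * ∫ x, W n x) := by
    intro n
    obtain ⟨⟨X, Y, hX, hY, hT⟩, -, -⟩ := hK2 (W n) (fun _ => 0) (hWc n).measurable measurable_const (hWb n) hz
      (by simpa using hWi n) (S n) R0 (hS n) hR0 e
    exact hcc μ hμ (W n) (hWc n) (hWs n) b c (hWb n) hbc (S n) R0 (hS n) hR0 e X Y hX hY hT
  have h2 : ∀ n, (∑' i, ⟪e i, (negPow γ μ c R - negPow γ μ c R0) (e i)⟫_ℂ).re
      ≤ (∑' i, ⟪e i, (negPow γ μ c (S n) - negPow γ μ c R0) (e i)⟫_ℂ).re + K * ∫ x, |W n x - V x| := by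
    intro n
    obtain ⟨-, ha1, ha2⟩ := hK2 V (W n) hV (hWc n).measurable hb (hWb n) (hVi.sub (hWi n)) R (S n) hR (hS n) e
    obtain ⟨-, hb1, -⟩ := hK2 (W n) (fun _ => 0) (hWc n).measurable measurable_const (hWb n) hz
      (by simpa using hWi n) (S n) R0 (hS n) hR0 e
    have hsplit : (fun i => ⟪e i, (negPow γ μ c R - negPow γ μ c R0) (e i)⟫_ℂ)
        = fun i => ⟪e i, (negPow γ μ c R - negPow γ μ c (S n)) (e i)⟫_ℂ
          + ⟪e i, (negPow γ μ c (S n) - negPow γ μ c R0) (e i)⟫_ℂ := by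
      funext i
      rw [← inner_add_right, ← ContinuousLinearMap.add_apply]
      congr 3
      abel
    rw [hsplit, ha1.tsum_add hb1, Complex.add_re]
    have h3 : (∑' i, ⟪e i, (negPow γ μ c R - negPow γ μ c (S n)) (e i)⟫_ℂ).re ≤ K * ∫ x, |W n x - V x| := by
      refine (Complex.re_le_norm _).trans (ha2.trans (le_of_eq ?_))
      congr 2
      funext x
      rw [abs_sub_comm]
    linarith
  have h3 := (P2.ff_tendsto γ μ b hγ hμ V hV hb hVi W (fun n => (hWc n).measurable) hWb hWi hWl).2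
  have h4 : Filter.Tendsto (fun n => ∫ x, W n x) Filter.atTop (nhds (∫ x, V x)) := by
    rw [tendsto_iff_norm_sub_tendsto_zero]
    refine squeeze_zero (fun n => norm_nonneg _) (fun n => ?_) hWl
    rw [← integral_sub (hWi n) hVi]
    exact norm_integral_le_integral_norm _
  have h5 : Filter.Tendsto (fun n => (C * (∫ x, FF γ μ (W n x)) - γ * (B0 γ μ * ∫ x, W n x))
      + K * ∫ x, |W n x - V x|) Filter.atTop
      (nhds ((C * (∫ x, FF γ μ (V x)) - γ * (B0 γ μ * ∫ x, V x)) + K * 0)) :=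
    ((h3.const_mul C).sub ((h4.const_mul (B0 γ μ)).const_mul γ)).add (hWl.const_mul K)
  rw [mul_zero, add_zero] at h5
  refine ge_of_tendsto h5 (Filter.Eventually.of_forall (fun n => ?_))
  linarith [h1 n, h2 n]

end Pool.Agent.Helper209.PL
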