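import Pool.Agent.Helper209.PL.Defs
import Pool.Agent.Helper209.PL.NDefs

set_option autoImplicit false

namespace Pool.Agent.Helper209.PL.QF1

open MeasureTheory Set
open scoped SchwartzMap InnerProductSpace FourierTransform








/-- the derivative as a Schwartz function -/
theorem exists_deriv (χ : 𝓢(ℝ, ℂ)) : ∃ χ1 : 𝓢(ℝ, ℂ), (χ1 : ℝ → ℂ) = deriv (χ : ℝ → ℂ) :=
  ⟨SchwartzMap.derivCLM ℝ ℂ χ, rfl⟩

theorem int_sq (χ : 𝓢(ℝ, ℂ)) : Integrable (fun x => ‖χ x‖ ^ 2) volume := by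
  have h := χ.memLp 2 (volume : Measure ℝ)
  exact (memLp_two_iff_integrable_sq_norm h.1).1 h

theorem inner_le_aux (u v : ℂ) {l : ℝ} (hl : 0 < l) :
    2 * inner ℝ u v ≤ l * ‖u‖ ^ 2 + ‖v‖ ^ 2 / l := by
  have h1 : inner ℝ u v ≤ ‖u‖ * ‖v‖ := real_inner_le_norm u v
  have h2 : 2 * (‖u‖ * ‖v‖) ≤ l * ‖u‖ ^ 2 + ‖v‖ ^ 2 / l := by
    have h3 : l * ‖u‖ ^ 2 + ‖v‖ ^ 2 / l - 2 * (‖u‖ * ‖v‖) = (l * ‖u‖ - ‖v‖) ^ 2 / l := by
      field_simp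
      ring
    have h4 : 0 ≤ (l * ‖u‖ - ‖v‖) ^ 2 / l := by positivity
    linarith
  linarith

theorem int_inner (f g : 𝓢(ℝ, ℂ)) : Integrable (fun x => inner ℝ (f x) (g x)) volume := by
  have h1 := (int_sq f).add (int_sq g)
  refine h1.mono' ?_ (Filter.Eventually.of_forall fun x => ?_)
  · exact (f.continuous.inner g.continuous).aestronglyMeasurable
  · have h2 := abs_real_inner_le_norm (f x) (g x)
    rw [Real.norm_eq_abs, Pi.add_apply]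
    nlinarith [sq_nonneg (‖f x‖ - ‖g x‖), norm_nonneg (f x), norm_nonneg (g x)]

/-- the sup bound -/
theorem sup_bound (χ χ1 : 𝓢(ℝ, ℂ)) (h1 : (χ1 : ℝ → ℂ) = deriv (χ : ℝ → ℂ)) {l : ℝ} (hl : 0 < l)
    (x : ℝ) : ‖χ x‖ ^ 2 ≤ l * (∫ x, ‖χ x‖ ^ 2) + (∫ x, ‖χ1 x‖ ^ 2) / l := by
  have hd : ∀ t, HasDerivAt (fun t => ‖χ t‖ ^ 2) (2 * inner ℝ (χ t) (χ1 t)) t := by
    intro t
    have := (χ.differentiableAt (x := t)).hasDerivAt.norm_sq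
    rw [h1]
    exact this
  have hint : Integrable (fun t => 2 * inner ℝ (χ t) (χ1 t)) volume := (int_inner χ χ1).const_mul 2
  have hlim : Filter.Tendsto (fun t => ‖χ t‖ ^ 2) Filter.atBot (nhds 0) := by
    have h2 : Filter.Tendsto (χ : ℝ → ℂ) (Filter.cocompact ℝ) (nhds 0) :=
      ZeroAtInftyContinuousMapClass.zero_at_infty χ
    have h3 := (h2.mono_left atBot_le_cocompact).norm.pow 2
    simpa using h3
  have h2 := integral_Iic_of_hasDerivAt_of_tendsto' (a := x) (fun t _ => hd t) hint.integrableOn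
    hlim
  rw [sub_zero] at h2
  rw [← h2]
  have i1 := (int_sq χ).const_mul l
  have i2 := (int_sq χ1).div_const l
  calc ∫ t in Iic x, 2 * inner ℝ (χ t) (χ1 t) ≤ ∫ t in Iic x, (l * ‖χ t‖ ^ 2 + ‖χ1 t‖ ^ 2 / l) := by
        apply integral_mono hint.integrableOn (i1.add i2).integrableOn
        intro t
        exact inner_le_aux _ _ hl
    _ ≤ ∫ t, (l * ‖χ t‖ ^ 2 + ‖χ1 t‖ ^ 2 / l) := by
        apply setIntegral_le_integral (i1.add i2)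
        exact Filter.Eventually.of_forall fun t => by
          show 0 ≤ l * ‖χ t‖ ^ 2 + ‖χ1 t‖ ^ 2 / l
          positivity
    _ = l * (∫ x, ‖χ x‖ ^ 2) + (∫ x, ‖χ1 x‖ ^ 2) / l := by
        rw [integral_add i1 i2, integral_const_mul, integral_div]

/-- integration by parts -/
theorem parts (χ χ1 : 𝓢(ℝ, ℂ)) (h1 : (χ1 : ℝ → ℂ) = deriv (χ : ℝ → ℂ)) :
    ∫ x, inner ℝ (χ x) (deriv (χ1 : ℝ → ℂ) x) = -∫ x, ‖χ1 x‖ ^ 2 := by
  have h := SchwartzMap.integral_bilinear_deriv_right_eq_neg_left χ χ1 (innerSL ℝ)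
  have h' : ∫ x, inner ℝ (χ x) (deriv (χ1 : ℝ → ℂ) x) =
      -∫ x, inner ℝ (deriv (χ : ℝ → ℂ) x) (χ1 x) := h
  rw [h', ← h1]
  congr 1
  apply integral_congr_ae
  exact Filter.Eventually.of_forall fun x => real_inner_self_eq_norm_sq _

theorem re_inner_L2 (f g : L2R) : RCLike.re (inner ℂ f g) =
    ∫ x, inner ℝ ((f : ℝ → ℂ) x) ((g : ℝ → ℂ) x) := by
  rw [L2.inner_def, ← integral_re (L2.integrable_inner f g)]
  rfl

/-- bounds for the free operator on Schwartz functions -/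
theorem free_bounds (c : ℝ) (hc : 0 < c) (χ : 𝓢(ℝ, ℂ)) (w : L2R)
    (hw : (w : ℝ → ℂ) =ᵐ[volume] (fun x => -(deriv (deriv (χ : ℝ → ℂ)) x) + (c : ℂ) * χ x)) :
    (∀ x : ℝ, ‖χ x‖ ≤ 2 * c ^ (-(3 / 4 : ℝ)) * ‖w‖) ∧
    (∀ h : L2R, (h : ℝ → ℂ) =ᵐ[volume] (χ : ℝ → ℂ) → ‖h‖ ≤ (1 / c) * ‖w‖) := by
  obtain ⟨χ1, h1⟩ := exists_deriv χ
  obtain ⟨χ2, h2⟩ := exists_deriv χ1
  have key : ∀ h : L2R, (h : ℝ → ℂ) =ᵐ[volume] (χ : ℝ → ℂ) →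
      ‖h‖ ^ 2 = (∫ x, ‖χ x‖ ^ 2) ∧ (∫ x, ‖χ1 x‖ ^ 2) + c * (∫ x, ‖χ x‖ ^ 2) ≤ ‖h‖ * ‖w‖ := by
    intro h hh
    have e1 : ‖h‖ ^ 2 = ∫ x, ‖χ x‖ ^ 2 := by
      rw [← inner_self_eq_norm_sq (𝕜 := ℂ) h, re_inner_L2]
      apply integral_congr_ae
      filter_upwards [hh] with x hx
      rw [hx, real_inner_self_eq_norm_sq]
    refine ⟨e1, ?_⟩
    have e2 : RCLike.re (inner ℂ h w) = (∫ x, ‖χ1 x‖ ^ 2) + c * (∫ x, ‖χ x‖ ^ 2) := by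
      rw [re_inner_L2]
      have e3 : ∫ x, inner ℝ ((h : ℝ → ℂ) x) ((w : ℝ → ℂ) x) =
          ∫ x, (-(inner ℝ (χ x) (χ2 x)) + c * ‖χ x‖ ^ 2) := by
        apply integral_congr_ae
        filter_upwards [hh, hw] with x hx hx'
        rw [hx, hx', h2, h1, inner_add_right, inner_neg_right]
        congr 1
        have e4 : (c : ℂ) * χ x = (c : ℝ) • χ x := by simp
        rw [e4, inner_smul_right, real_inner_self_eq_norm_sq]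
      have i3 : Integrable (fun x => -(inner ℝ (χ x) (χ2 x))) volume := (int_inner χ χ2).neg
      rw [e3, integral_add i3 ((int_sq χ).const_mul c), integral_neg,
        integral_const_mul, h2, parts χ χ1 h1, neg_neg]
    rw [← e2]
    exact re_inner_le_norm h w
  -- the `L²` bound
  have hL2 : ∀ h : L2R, (h : ℝ → ℂ) =ᵐ[volume] (χ : ℝ → ℂ) → ‖h‖ ≤ (1 / c) * ‖w‖ := by
    intro h hh
    obtain ⟨e1, e2⟩ := key h hh
    rw [← e1] at e2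
    have hD : 0 ≤ ∫ x, ‖χ1 x‖ ^ 2 := integral_nonneg fun x => by positivity
    rcases (norm_nonneg h).eq_or_lt with h0 | h0
    · rw [← h0]; positivity
    · have e3 : c * ‖h‖ ≤ ‖w‖ := by
        have e4 : (c * ‖h‖) * ‖h‖ ≤ ‖w‖ * ‖h‖ := by linarith
        exact le_of_mul_le_mul_right e4 h0
      rw [one_div, inv_mul_eq_div, le_div_iff₀ hc]
      linarith
  refine ⟨?_, hL2⟩
  intro x
  obtain ⟨h, hh⟩ : ∃ h : L2R, (h : ℝ → ℂ) =ᵐ[volume] (χ : ℝ → ℂ) :=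
    ⟨(χ.memLp 2 (volume : Measure ℝ)).toLp χ, MemLp.coeFn_toLp _⟩
  obtain ⟨e1, e2⟩ := key h hh
  have e3 := hL2 h hh
  have hs : 0 < Real.sqrt c := Real.sqrt_pos.2 hc
  have hss : Real.sqrt c * Real.sqrt c = c := Real.mul_self_sqrt hc.le
  have e4 := sup_bound χ χ1 h1 hs x
  have e5 : Real.sqrt c * (∫ x, ‖χ x‖ ^ 2) + (∫ x, ‖χ1 x‖ ^ 2) / Real.sqrt c =
      ((∫ x, ‖χ1 x‖ ^ 2) + c * (∫ x, ‖χ x‖ ^ 2)) / Real.sqrt c := by
    rw [add_div, mul_div_right_comm c]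
    have : c / Real.sqrt c = Real.sqrt c := by
      rw [div_eq_iff hs.ne', hss]
    rw [this]
    ring
  have e6 : (∫ x, ‖χ1 x‖ ^ 2) + c * (∫ x, ‖χ x‖ ^ 2) ≤ ‖w‖ ^ 2 / c := by
    calc _ ≤ ‖h‖ * ‖w‖ := e2
      _ ≤ (1 / c) * ‖w‖ * ‖w‖ := mul_le_mul_of_nonneg_right e3 (norm_nonneg _)
      _ = ‖w‖ ^ 2 / c := by ring
  have e7 : ‖χ x‖ ^ 2 ≤ ‖w‖ ^ 2 / c / Real.sqrt c := by
    rw [e5] at e4
    exact e4.trans (div_le_div_of_nonneg_right e6 hs.le)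
  have e8 : (c ^ (-(3 / 4 : ℝ))) ^ 2 = 1 / (c * Real.sqrt c) := by
    rw [← Real.rpow_natCast, ← Real.rpow_mul hc.le, Real.sqrt_eq_rpow]
    have : c * c ^ (1 / 2 : ℝ) = c ^ (3 / 2 : ℝ) := by
      nth_rewrite 1 [← Real.rpow_one c]
      rw [← Real.rpow_add hc]
      norm_num
    rw [this, one_div, ← Real.rpow_neg hc.le]
    norm_num
  have hr : 0 ≤ c ^ (-(3 / 4 : ℝ)) := by positivity
  apply le_of_sq_le_sq _ (by positivity)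
  have e9 : (2 * c ^ (-(3 / 4 : ℝ)) * ‖w‖) ^ 2 = 4 * (‖w‖ ^ 2 / c / Real.sqrt c) := by
    rw [mul_pow, mul_pow, e8]
    field_simp
    ring
  rw [e9]
  have e10 : 0 ≤ ‖w‖ ^ 2 / c / Real.sqrt c := by positivity
  linarith

/-- form bound -/
theorem form_bound (V : ℝ → ℝ) (hV : Measurable V) (hVi : Integrable (fun x => V x ^ 2) volume) (B c : ℝ)
    (hB0 : 0 ≤ B) (hB : (∫ x, V x ^ 2) ≤ B ^ 2) (hc : 16 * (B + 1) ^ 2 ≤ c) (χ : 𝓢(ℝ, ℂ)) :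
    0 ≤ (∫ x, ‖deriv (χ : ℝ → ℂ) x‖ ^ 2) + ∫ x, (V x + c) * ‖χ x‖ ^ 2 := by
  obtain ⟨χ1, h1⟩ := exists_deriv χ
  rw [← h1]
  have hD : 0 ≤ ∫ x, ‖χ1 x‖ ^ 2 := integral_nonneg fun x => by positivity
  have hA : 0 ≤ ∫ x, ‖χ x‖ ^ 2 := integral_nonneg fun x => by positivity
  by_cases hint : Integrable (fun x => (V x + c) * ‖χ x‖ ^ 2) volume
  swap
  · rw [integral_undef hint]
    linarith
  obtain ⟨A, hAdef⟩ : ∃ A, A = ∫ x, ‖χ x‖ ^ 2 := ⟨_, rfl⟩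
  obtain ⟨D, hDdef⟩ : ∃ D, D = ∫ x, ‖χ1 x‖ ^ 2 := ⟨_, rfl⟩
  rw [← hAdef] at hA
  rw [← hDdef] at hD ⊢
  have hB1 : 0 < B + 1 := by linarith
  have hsup : ∀ x, ‖χ x‖ ^ 2 ≤ (B + 1) / 2 * A + D / ((B + 1) / 2) := by
    intro x
    rw [hAdef, hDdef]
    exact sup_bound χ χ1 h1 (by positivity) x
  obtain ⟨M, hM⟩ : ∃ M, M = (B + 1) / 2 * A + D / ((B + 1) / 2) := ⟨_, rfl⟩
  rw [← hM] at hsup
  have hM0 : 0 ≤ M := by rw [hM]; positivity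
  have hpt : ∀ x, (c - (B + 1) / 2) * ‖χ x‖ ^ 2 - 1 / (2 * (B + 1)) * M * V x ^ 2 ≤
      (V x + c) * ‖χ x‖ ^ 2 := by
    intro x
    have g1 : -V x * ‖χ x‖ ^ 2 ≤ (1 / (2 * (B + 1)) * V x ^ 2 + (B + 1) / 2) * ‖χ x‖ ^ 2 := by
      apply mul_le_mul_of_nonneg_right _ (by positivity)
      have g2 : 1 / (2 * (B + 1)) * V x ^ 2 + (B + 1) / 2 + V x =
          (V x + (B + 1)) ^ 2 / (2 * (B + 1)) := by
        field_simp
        ring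
      have g3 : 0 ≤ (V x + (B + 1)) ^ 2 / (2 * (B + 1)) := by positivity
      linarith
    have g4 : 1 / (2 * (B + 1)) * V x ^ 2 * ‖χ x‖ ^ 2 ≤ 1 / (2 * (B + 1)) * V x ^ 2 * M :=
      mul_le_mul_of_nonneg_left (hsup x) (by positivity)
    linarith
  have i1 := (int_sq χ).const_mul (c - (B + 1) / 2)
  have i2 := hVi.const_mul (1 / (2 * (B + 1)) * M)
  have hmono : ∫ x, ((c - (B + 1) / 2) * ‖χ x‖ ^ 2 - 1 / (2 * (B + 1)) * M * V x ^ 2) ≤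
      ∫ x, (V x + c) * ‖χ x‖ ^ 2 := integral_mono (i1.sub i2) hint hpt
  rw [integral_sub i1 i2, integral_const_mul, integral_const_mul, ← hAdef] at hmono
  have g5 : 1 / (2 * (B + 1)) * M * (∫ x, V x ^ 2) ≤ 1 / (2 * (B + 1)) * M * B ^ 2 :=
    mul_le_mul_of_nonneg_left hB (by positivity)
  have g6 : 1 / (2 * (B + 1)) * M * B ^ 2 = B ^ 2 / 4 * A + B ^ 2 / (B + 1) ^ 2 * D := by
    rw [hM]
    field_simp
    ring
  have g7 : B ^ 2 / (B + 1) ^ 2 ≤ 1 := by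
    rw [div_le_one (by positivity)]
    nlinarith
  have g8 : B ^ 2 / (B + 1) ^ 2 * D ≤ 1 * D := mul_le_mul_of_nonneg_right g7 hD
  have g9 : 0 ≤ (c - (B + 1) / 2 - B ^ 2 / 4) * A := by
    apply mul_nonneg _ hA
    nlinarith
  linarith

end Pool.Agent.Helper209.PL.QF1
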