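import Pool.Agent.Helper209.PL.Defs
import Pool.Agent.Helper209.PL.NDefs

set_option autoImplicit false

namespace Pool.Agent.Helper209.PL.QF2

open MeasureTheory Set
open scoped SchwartzMap InnerProductSpace FourierTransform








/-- proved elsewhere, use as hypothesis: bounds for the free operator on Schwartz functions -/
def FreeBoundsStmt : Prop := ∀ (c : ℝ), 0 < c → ∀ (χ : 𝓢(ℝ, ℂ)) (w : L2R),
    (w : ℝ → ℂ) =ᵐ[volume] (fun x => -(deriv (deriv (χ : ℝ → ℂ)) x) + (c : ℂ) * χ x) →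
    (∀ x : ℝ, ‖χ x‖ ≤ 2 * c ^ (-(3 / 4 : ℝ)) * ‖w‖) ∧
    (∀ h : L2R, (h : ℝ → ℂ) =ᵐ[volume] (χ : ℝ → ℂ) → ‖h‖ ≤ (1 / c) * ‖w‖)

/-- bounds for the operator with an `L²` potential on Schwartz functions -/
theorem l2_bounds (hF : FreeBoundsStmt) (V : ℝ → ℝ) (hV : Measurable V) (hVi : Integrable (fun x => V x ^ 2) volume)
    (B c : ℝ) (hB0 : 0 ≤ B) (hB : (∫ x, V x ^ 2) ≤ B ^ 2) (hc : 16 * (B + 1) ^ 2 ≤ c) (χ : 𝓢(ℝ, ℂ)) (w : L2R)
    (hw : (w : ℝ → ℂ) =ᵐ[volume] (fun x => -(deriv (deriv (χ : ℝ → ℂ)) x) + ((V x + c : ℝ) : ℂ) * χ x)) :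
    (∀ x : ℝ, ‖χ x‖ ≤ ‖w‖) ∧ (∀ h : L2R, (h : ℝ → ℂ) =ᵐ[volume] (χ : ℝ → ℂ) → ‖h‖ ≤ ‖w‖) := by
  have hB1 : 1 ≤ B + 1 := by linarith
  have hc16 : 16 ≤ c := by nlinarith [sq_nonneg B]
  have hc0 : 0 < c := by linarith
  -- the numerical constant
  have hκ : 2 * c ^ (-(3 / 4 : ℝ)) ≤ 1 / (4 * (B + 1)) := by
    set y := c ^ (3 / 4 : ℝ) with hy
    have hy0 : 0 < y := Real.rpow_pos_of_pos hc0 _
    have hy4 : y ^ 4 = c ^ 3 := by
      rw [hy, ← Real.rpow_natCast, ← Real.rpow_mul hc0.le, ← Real.rpow_natCast]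
      norm_num
    have h1 : (8 * (B + 1)) ^ 4 ≤ y ^ 4 := by
      rw [hy4]
      have h2 : (16 * (B + 1) ^ 2) ^ 3 ≤ c ^ 3 := pow_le_pow_left₀ (by positivity) hc 3
      refine le_trans ?_ h2
      have h3 : (B + 1) ^ 4 ≤ (B + 1) ^ 6 := pow_le_pow_right₀ hB1 (by norm_num)
      have h4 : (8 * (B + 1)) ^ 4 = 4096 * (B + 1) ^ 4 := by ring
      have h5 : (16 * (B + 1) ^ 2) ^ 3 = 4096 * (B + 1) ^ 6 := by ring
      rw [h4, h5]
      linarith
    have h6 : 8 * (B + 1) ≤ y := le_of_pow_le_pow_left₀ (by norm_num) hy0.le h1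
    rw [Real.rpow_neg hc0.le, ← hy, ← div_eq_mul_inv, div_le_div_iff₀ hy0 (by positivity)]
    linarith
  -- the product `V χ`
  have hVm : MemLp V 2 (volume : Measure ℝ) :=
    (memLp_two_iff_integrable_sq hV.aestronglyMeasurable).2 hVi
  obtain ⟨C, hC⟩ : ∃ C : ℝ, ∀ x, ‖χ x‖ ≤ C := by
    obtain ⟨C, hC⟩ := χ.decay 0 0
    refine ⟨C, fun x => ?_⟩
    have := hC.2 x
    simpa using this
  have hmeas : AEStronglyMeasurable (fun x => ((V x : ℝ) : ℂ) * χ x) (volume : Measure ℝ) :=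
    (Complex.measurable_ofReal.comp hV).aestronglyMeasurable.mul χ.continuous.aestronglyMeasurable
  have hvm : MemLp (fun x => ((V x : ℝ) : ℂ) * χ x) 2 (volume : Measure ℝ) := by
    refine hVm.of_le_mul (c := C) hmeas (Filter.Eventually.of_forall fun x => ?_)
    rw [norm_mul, Complex.norm_real, mul_comm]
    exact mul_le_mul_of_nonneg_right (hC x) (norm_nonneg _)
  set v : L2R := hvm.toLp _ with hv
  set VL : Lp ℝ 2 (volume : Measure ℝ) := hVm.toLp V with hVL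
  have hVLn : ‖VL‖ ≤ B := by
    rw [hVL, Lp.norm_toLp, hVm.eLpNorm_eq_integral_rpow_norm (by norm_num) (by norm_num),
      ENNReal.toReal_ofReal (by positivity)]
    have e1 : (∫ a, ‖V a‖ ^ (2 : ENNReal).toReal) = ∫ x, V x ^ 2 := by
      refine integral_congr_ae (Filter.Eventually.of_forall fun x => ?_)
      show ‖V x‖ ^ (2 : ENNReal).toReal = V x ^ 2
      rw [ENNReal.toReal_ofNat, Real.rpow_two, Real.norm_eq_abs, sq_abs]
    rw [e1, ENNReal.toReal_ofNat]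
    have h0 : 0 ≤ ∫ x, V x ^ 2 := integral_nonneg fun x => sq_nonneg _
    calc (∫ x, V x ^ 2) ^ ((2 : ℝ)⁻¹) ≤ (B ^ 2) ^ ((2 : ℝ)⁻¹) :=
          Real.rpow_le_rpow h0 hB (by norm_num)
      _ = B := by
          rw [← Real.rpow_natCast, ← Real.rpow_mul hB0]
          norm_num
  set g : L2R := w - v with hg
  have hgae : (g : ℝ → ℂ) =ᵐ[volume] (fun x => -(deriv (deriv (χ : ℝ → ℂ)) x) + (c : ℂ) * χ x) := by
    filter_upwards [Lp.coeFn_sub w v, hw, hvm.coeFn_toLp] with x h1 h2 h3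
    rw [hg, h1, Pi.sub_apply, h2, h3]
    push_cast
    ring
  obtain ⟨hsup, hnorm⟩ := hF c hc0 χ g hgae
  have hS : ∀ x, ‖χ x‖ ≤ 1 / (4 * (B + 1)) * ‖g‖ := fun x =>
    (hsup x).trans (mul_le_mul_of_nonneg_right hκ (norm_nonneg _))
  have hvn : ‖v‖ ≤ 1 / (4 * (B + 1)) * ‖g‖ * ‖VL‖ := by
    refine Lp.norm_le_mul_norm_of_ae_le_mul ?_
    filter_upwards [hvm.coeFn_toLp, hVm.coeFn_toLp] with x h1 h2
    rw [hv, h1, hVL, h2, norm_mul, Complex.norm_real, mul_comm]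
    exact mul_le_mul_of_nonneg_right (hS x) (norm_nonneg _)
  have hg0 := norm_nonneg g
  have hq : 1 / (4 * (B + 1)) * B ≤ 1 / 4 := by
    rw [div_mul_eq_mul_div, div_le_div_iff₀ (by positivity) (by norm_num)]
    linarith
  have hq' : 1 / (4 * (B + 1)) ≤ 1 / 4 := by
    rw [div_le_div_iff₀ (by positivity) (by norm_num)]
    linarith
  have hvn2 : ‖v‖ ≤ 1 / 4 * ‖g‖ := by
    refine hvn.trans ?_
    have h1 : 1 / (4 * (B + 1)) * ‖g‖ * ‖VL‖ ≤ 1 / (4 * (B + 1)) * ‖g‖ * B :=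
      mul_le_mul_of_nonneg_left hVLn (by positivity)
    have h2 : 1 / (4 * (B + 1)) * ‖g‖ * B = (1 / (4 * (B + 1)) * B) * ‖g‖ := by ring
    rw [h2] at h1
    exact h1.trans (mul_le_mul_of_nonneg_right hq hg0)
  have htri : ‖g‖ ≤ ‖w‖ + ‖v‖ := norm_sub_le w v
  have hgw : ‖g‖ ≤ 4 / 3 * ‖w‖ := by linarith
  have hw0 := norm_nonneg w
  refine ⟨fun x => ?_, fun h hh => ?_⟩
  · have h1 := (hS x).trans (mul_le_mul_of_nonneg_right hq' hg0)
    linarith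
  · have h1 := hnorm h hh
    have h2 : 1 / c ≤ 1 / 16 := one_div_le_one_div_of_le (by norm_num) hc16
    have h3 := mul_le_mul_of_nonneg_right h2 hg0
    linarith

end Pool.Agent.Helper209.PL.QF2
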