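import Pool.Agent.Helper209.PL.Defs
import Pool.Agent.Helper209.PL.NDefs

set_option autoImplicit false

namespace Pool.Agent.Helper209.PL.QF3

open MeasureTheory Set
open scoped SchwartzMap InnerProductSpace FourierTransform








/-- proved elsewhere, use as hypothesis: bounds for the free operator on Schwartz functions -/
def FreeBoundsStmt : Prop := ∀ (c : ℝ), 0 < c → ∀ (χ : 𝓢(ℝ, ℂ)) (w : L2R),
    (w : ℝ → ℂ) =ᵐ[volume] (fun x => -(deriv (deriv (χ : ℝ → ℂ)) x) + (c : ℂ) * χ x) →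
    (∀ x : ℝ, ‖χ x‖ ≤ 2 * c ^ (-(3 / 4 : ℝ)) * ‖w‖) ∧
    (∀ h : L2R, (h : ℝ → ℂ) =ᵐ[volume] (χ : ℝ → ℂ) → ‖h‖ ≤ (1 / c) * ‖w‖)

/-- proved elsewhere, use as hypothesis: bounds for the operator with potential on Schwartz functions -/
def L2BoundsStmt : Prop := ∀ (V : ℝ → ℝ), Measurable V → Integrable (fun x => V x ^ 2) volume → ∀ (B c : ℝ),
    0 ≤ B → (∫ x, V x ^ 2) ≤ B ^ 2 → 16 * (B + 1) ^ 2 ≤ c → ∀ (χ : 𝓢(ℝ, ℂ)) (w : L2R),
    (w : ℝ → ℂ) =ᵐ[volume] (fun x => -(deriv (deriv (χ : ℝ → ℂ)) x) + ((V x + c : ℝ) : ℂ) * χ x) →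
    (∀ x : ℝ, ‖χ x‖ ≤ ‖w‖) ∧ (∀ h : L2R, (h : ℝ → ℂ) =ᵐ[volume] (χ : ℝ → ℂ) → ‖h‖ ≤ ‖w‖)

/-- proved elsewhere, use as hypothesis: solvability of `-χ'' + cχ = g` in Schwartz space -/
def FreeSolveStmt : Prop := ∀ (c : ℝ), 0 < c → ∀ (g : 𝓢(ℝ, ℂ)),
    ∃ χ : 𝓢(ℝ, ℂ), ∀ x : ℝ, -(deriv (deriv (χ : ℝ → ℂ)) x) + (c : ℂ) * χ x = g x

def Adm (V : ℝ → ℝ) (c : ℝ) (χ : 𝓢(ℝ, ℂ)) (w : L2R) : Prop :=
  (w : ℝ → ℂ) =ᵐ[volume] (fun x => -(deriv (deriv (χ : ℝ → ℂ)) x) + ((V x + c : ℝ) : ℂ) * χ x)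

lemma deriv2_add (χ χ' : 𝓢(ℝ, ℂ)) (x : ℝ) :
    deriv (deriv ((χ + χ' : 𝓢(ℝ, ℂ)) : ℝ → ℂ)) x = deriv (deriv (χ : ℝ → ℂ)) x + deriv (deriv (χ' : ℝ → ℂ)) x := by
  have h1 : ((χ + χ' : 𝓢(ℝ, ℂ)) : ℝ → ℂ) = fun y => χ y + χ' y := by
    ext y; simp
  have h2 : deriv ((χ + χ' : 𝓢(ℝ, ℂ)) : ℝ → ℂ) = fun y => deriv (χ : ℝ → ℂ) y + deriv (χ' : ℝ → ℂ) y := by
    rw [h1]
    ext y
    exact deriv_fun_add (χ.differentiableAt) (χ'.differentiableAt)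
  rw [h2]
  have s1 : DifferentiableAt ℝ (deriv (χ : ℝ → ℂ)) x :=
    ((χ.smooth 2).differentiable_deriv_two) x
  have s2 : DifferentiableAt ℝ (deriv (χ' : ℝ → ℂ)) x :=
    ((χ'.smooth 2).differentiable_deriv_two) x
  exact deriv_fun_add s1 s2

lemma adm_add {V : ℝ → ℝ} {c : ℝ} {χ χ' : 𝓢(ℝ, ℂ)} {w w' : L2R} (h : Adm V c χ w) (h' : Adm V c χ' w') :
    Adm V c (χ + χ') (w + w') := by
  unfold Adm at *
  filter_upwards [h, h', Lp.coeFn_add w w'] with x hx hx' hadd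
  rw [hadd, Pi.add_apply, hx, hx', deriv2_add, add_apply]
  ring

lemma step (hF : FreeBoundsStmt) (hS : FreeSolveStmt) (V : ℝ → ℝ) (hV : Measurable V)
    (hVi : Integrable (fun x => V x ^ 2) volume)
    (B c : ℝ) (hB0 : 0 ≤ B) (hB : (∫ x, V x ^ 2) ≤ B ^ 2) (hc : 16 * (B + 1) ^ 2 ≤ c) (f : L2R) (δ : ℝ) (hδ : 0 < δ) :
    ∃ (χ : 𝓢(ℝ, ℂ)) (w : L2R), Adm V c χ w ∧ ‖w - f‖ ≤ (1 / 2) * ‖f‖ + δ := by
  have hc0 : 0 < c := lt_of_lt_of_le (by positivity) hc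
  obtain ⟨g, hg⟩ : ∃ g : 𝓢(ℝ, ℂ), ‖g.toLp 2 volume - f‖ < δ / 2 := by
    have hd := SchwartzMap.denseRange_toLpCLM (E := ℝ) (F := ℂ) (p := 2) (μ := volume) (by norm_num)
    have := hd.exists_dist_lt f (half_pos hδ)
    obtain ⟨g, hg⟩ := this
    refine ⟨g, ?_⟩
    rw [dist_comm, dist_eq_norm] at hg
    exact hg
  obtain ⟨χ, hχ⟩ := hS c hc0 g
  set w0 : L2R := g.toLp 2 volume with hw0
  have hw0ae : (w0 : ℝ → ℂ) =ᵐ[volume] (fun x => -(deriv (deriv (χ : ℝ → ℂ)) x) + (c : ℂ) * χ x) := by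
    filter_upwards [g.coeFn_toLp 2 volume] with x hx
    rw [hw0, hx, hχ x]
  obtain ⟨hb, -⟩ := hF c hc0 χ w0 hw0ae
  set M : ℝ := 2 * c ^ (-(3 / 4 : ℝ)) * ‖w0‖ with hM
  have hM0 : 0 ≤ M := by positivity
  -- the product
  have hVm : MemLp V 2 volume := by
    rw [memLp_two_iff_integrable_sq hV.aestronglyMeasurable]
    exact hVi
  have hVχ : MemLp (fun x => (V x : ℂ) * χ x) 2 volume := by
    have h1 : MemLp (fun x => M * V x) 2 volume := hVm.const_mul M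
    refine h1.of_le ?_ ?_
    · exact ((Complex.measurable_ofReal.comp hV).aestronglyMeasurable).mul χ.continuous.aestronglyMeasurable
    · filter_upwards with x
      rw [norm_mul, norm_mul, Complex.norm_real, Real.norm_of_nonneg hM0, mul_comm]
      exact mul_le_mul_of_nonneg_right (hb x) (norm_nonneg _)
  set v : L2R := hVχ.toLp _ with hv
  have hvae : (v : ℝ → ℂ) =ᵐ[volume] fun x => (V x : ℂ) * χ x := hVχ.coeFn_toLp
  have hvn : ‖v‖ ≤ M * B := by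
    have h2 : ‖v‖ ^ 2 ≤ (M * B) ^ 2 := by
      have e1 : ‖v‖ ^ 2 = ∫ x, ‖(v : ℝ → ℂ) x‖ ^ 2 := by
        have := L2.inner_def (𝕜 := ℂ) v v
        have h3 : ((‖v‖ ^ 2 : ℝ) : ℂ) = ∫ x, ((‖(v : ℝ → ℂ) x‖ ^ 2 : ℝ) : ℂ) := by
          have h4 := inner_self_eq_norm_sq_to_K (𝕜 := ℂ) v
          rw [this] at h4
          push_cast
          rw [show ((‖v‖ : ℂ)) ^ 2 = (RCLike.ofReal ‖v‖ : ℂ) ^ 2 from rfl, ← h4]
          refine integral_congr_ae ?_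
          filter_upwards with x
          rw [inner_self_eq_norm_sq_to_K]
          simp
        have h6 : (∫ x, ((‖(v : ℝ → ℂ) x‖ ^ 2 : ℝ) : ℂ)) = ((∫ x, ‖(v : ℝ → ℂ) x‖ ^ 2 : ℝ) : ℂ) := integral_complex_ofReal
        rw [h6] at h3
        exact_mod_cast h3
      rw [e1]
      calc ∫ x, ‖(v : ℝ → ℂ) x‖ ^ 2 ≤ ∫ x, M ^ 2 * V x ^ 2 := by
            refine integral_mono_ae ?_ (hVi.const_mul _) ?_
            · have h5 : MemLp (v : ℝ → ℂ) 2 volume := Lp.memLp v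
              exact h5.integrable_norm_pow (by norm_num)
            · filter_upwards [hvae] with x hx
              rw [hx, norm_mul, mul_pow, Complex.norm_real, Real.norm_eq_abs, sq_abs, mul_comm]
              gcongr
              exact hb x
        _ = M ^ 2 * ∫ x, V x ^ 2 := integral_const_mul _ _
        _ ≤ M ^ 2 * B ^ 2 := by gcongr
        _ = (M * B) ^ 2 := by ring
    exact le_of_sq_le_sq h2 (by positivity)
  have hkey : 2 * c ^ (-(3 / 4 : ℝ)) * B ≤ 1 / 4 := by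
    have h1 : 8 * (B + 1) ≤ c ^ (3 / 4 : ℝ) := by
      calc 8 * (B + 1) ≤ (16 * (B + 1) ^ 2) ^ (3 / 4 : ℝ) := by
            have e : (16 : ℝ) * (B + 1) ^ 2 = (4 * (B + 1)) ^ (2 : ℝ) := by
              rw [show (2 : ℝ) = ((2 : ℕ) : ℝ) by norm_num, Real.rpow_natCast]; ring
            rw [e, ← Real.rpow_mul (by positivity), show (2 : ℝ) * (3 / 4) = 1 + 1 / 2 by norm_num,
              Real.rpow_add (by positivity), Real.rpow_one, ← Real.sqrt_eq_rpow]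
            have h2 : 2 ≤ Real.sqrt (4 * (B + 1)) := by
              rw [show (2 : ℝ) = Real.sqrt (2 ^ 2) by rw [Real.sqrt_sq (by norm_num)]]
              exact Real.sqrt_le_sqrt (by nlinarith)
            nlinarith
        _ ≤ c ^ (3 / 4 : ℝ) := Real.rpow_le_rpow (by positivity) hc (by norm_num)
    rw [Real.rpow_neg hc0.le]
    have h3 : 0 < c ^ (3 / 4 : ℝ) := by positivity
    rw [mul_assoc, inv_mul_eq_div, mul_div_assoc', div_le_iff₀ h3]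
    linarith
  refine ⟨χ, w0 + v, ?_, ?_⟩
  · unfold Adm
    filter_upwards [hw0ae, hvae, Lp.coeFn_add w0 v] with x h1 h2 h3
    rw [h3, Pi.add_apply, h1, h2]
    push_cast
    ring
  · have h1 : ‖w0 + v - f‖ ≤ ‖w0 - f‖ + ‖v‖ := by
      have : w0 + v - f = (w0 - f) + v := by abel
      rw [this]
      exact norm_add_le _ _
    have h2 : ‖w0‖ ≤ ‖f‖ + δ / 2 := by
      have : w0 = (w0 - f) + f := by abel
      calc ‖w0‖ = ‖(w0 - f) + f‖ := by rw [← this]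
        _ ≤ ‖w0 - f‖ + ‖f‖ := norm_add_le _ _
        _ ≤ ‖f‖ + δ / 2 := by linarith
    have h3 : M * B ≤ (1 / 4) * ‖w0‖ := by
      calc M * B = (2 * c ^ (-(3 / 4 : ℝ)) * B) * ‖w0‖ := by rw [hM]; ring
        _ ≤ _ := mul_le_mul_of_nonneg_right hkey (norm_nonneg _)
    have h4 := norm_nonneg f
    linarith

/-- the range of the operator on Schwartz functions is dense -/
theorem l2_dense (hF : FreeBoundsStmt) (hS : FreeSolveStmt) (V : ℝ → ℝ) (hV : Measurable V)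
    (hVi : Integrable (fun x => V x ^ 2) volume)
    (B c : ℝ) (hB0 : 0 ≤ B) (hB : (∫ x, V x ^ 2) ≤ B ^ 2) (hc : 16 * (B + 1) ^ 2 ≤ c) (f : L2R) (ε : ℝ) (hε : 0 < ε) :
    ∃ (χ : 𝓢(ℝ, ℂ)) (w : L2R),
      (w : ℝ → ℂ) =ᵐ[volume] (fun x => -(deriv (deriv (χ : ℝ → ℂ)) x) + ((V x + c : ℝ) : ℂ) * χ x) ∧
      ‖w - f‖ < ε := by
  have main : ∀ n : ℕ, ∃ (χ : 𝓢(ℝ, ℂ)) (w : L2R), Adm V c χ w ∧ ‖w - f‖ ≤ (1 / 2) ^ n * ‖f‖ + 2 * (ε / 4) := by
    intro n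
    induction n with
    | zero =>
      refine ⟨0, 0, ?_, ?_⟩
      · unfold Adm
        filter_upwards [Lp.coeFn_zero ℂ 2 (volume : Measure ℝ)] with x hx
        rw [hx]
        have h0 : ((0 : 𝓢(ℝ, ℂ)) : ℝ → ℂ) = fun _ => 0 := by ext y; simp
        rw [h0]
        simp
      · rw [zero_sub, norm_neg, pow_zero, one_mul]
        linarith
    | succ n ih =>
      obtain ⟨χ, w, h1, h2⟩ := ih
      obtain ⟨χ', w', h3, h4⟩ := step hF hS V hV hVi B c hB0 hB hc (f - w) (ε / 4) (by linarith)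
      refine ⟨χ + χ', w + w', adm_add h1 h3, ?_⟩
      have e : w + w' - f = w' - (f - w) := by abel
      rw [e]
      rw [norm_sub_rev] at h2
      have : (1 / 2 : ℝ) ^ (n + 1) * ‖f‖ = (1 / 2) * ((1 / 2) ^ n * ‖f‖) := by ring
      rw [this]
      linarith
  obtain ⟨n, hn⟩ : ∃ n : ℕ, (1 / 2 : ℝ) ^ n * ‖f‖ < ε / 2 := by
    have h1 : Filter.Tendsto (fun n : ℕ => (1 / 2 : ℝ) ^ n * ‖f‖) Filter.atTop (nhds (0 * ‖f‖)) :=
      (tendsto_pow_atTop_nhds_zero_of_lt_one (by norm_num) (by norm_num)).mul_const _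
    rw [zero_mul] at h1
    exact (h1.eventually_lt_const (by linarith)).exists
  obtain ⟨χ, w, h1, h2⟩ := main n
  exact ⟨χ, w, h1, by linarith⟩

end Pool.Agent.Helper209.PL.QF3
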