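import Pool.Agent.Helper209.PL.Defs
import Pool.Agent.Helper209.PL.NDefs

set_option autoImplicit false

namespace Pool.Agent.Helper209.PL.QF4

open MeasureTheory Set
open scoped SchwartzMap InnerProductSpace FourierTransform








/-- proved elsewhere, use as hypothesis: bounds for the operator with potential on Schwartz functions -/
def L2BoundsStmt : Prop := ∀ (V : ℝ → ℝ), Measurable V → Integrable (fun x => V x ^ 2) volume → ∀ (B c : ℝ),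
    0 ≤ B → (∫ x, V x ^ 2) ≤ B ^ 2 → 16 * (B + 1) ^ 2 ≤ c → ∀ (χ : 𝓢(ℝ, ℂ)) (w : L2R),
    (w : ℝ → ℂ) =ᵐ[volume] (fun x => -(deriv (deriv (χ : ℝ → ℂ)) x) + ((V x + c : ℝ) : ℂ) * χ x) →
    (∀ x : ℝ, ‖χ x‖ ≤ ‖w‖) ∧ (∀ h : L2R, (h : ℝ → ℂ) =ᵐ[volume] (χ : ℝ → ℂ) → ‖h‖ ≤ ‖w‖)

/-- proved elsewhere, use as hypothesis: the range of the operator on Schwartz functions is dense -/
def L2DenseStmt : Prop := ∀ (V : ℝ → ℝ), Measurable V → Integrable (fun x => V x ^ 2) volume → ∀ (B c : ℝ),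
    0 ≤ B → (∫ x, V x ^ 2) ≤ B ^ 2 → 16 * (B + 1) ^ 2 ≤ c → ∀ (f : L2R) (ε : ℝ), 0 < ε →
    ∃ (χ : 𝓢(ℝ, ℂ)) (w : L2R),
      (w : ℝ → ℂ) =ᵐ[volume] (fun x => -(deriv (deriv (χ : ℝ → ℂ)) x) + ((V x + c : ℝ) : ℂ) * χ x) ∧
      ‖w - f‖ < ε

/-- proved elsewhere, use as hypothesis -/
def FormBoundStmt : Prop := ∀ (V : ℝ → ℝ), Measurable V → Integrable (fun x => V x ^ 2) volume → ∀ (B c : ℝ),
    0 ≤ B → (∫ x, V x ^ 2) ≤ B ^ 2 → 16 * (B + 1) ^ 2 ≤ c → ∀ (χ : 𝓢(ℝ, ℂ)),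
    0 ≤ (∫ x, ‖deriv (χ : ℝ → ℂ) x‖ ^ 2) + ∫ x, (V x + c) * ‖χ x‖ ^ 2

/-! ### auxiliary -/

/-- the second derivative on Schwartz functions -/
noncomputable def DD (χ : 𝓢(ℝ, ℂ)) : 𝓢(ℝ, ℂ) := SchwartzMap.derivCLM ℂ ℂ (SchwartzMap.derivCLM ℂ ℂ χ)

theorem DD_apply (χ : 𝓢(ℝ, ℂ)) (x : ℝ) : DD χ x = deriv (deriv (χ : ℝ → ℂ)) x := by
  have h : ((SchwartzMap.derivCLM ℂ ℂ χ : 𝓢(ℝ, ℂ)) : ℝ → ℂ) = deriv (χ : ℝ → ℂ) := by
    funext y; exact SchwartzMap.derivCLM_apply ℂ χ y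
  unfold DD
  rw [SchwartzMap.derivCLM_apply, h]

/-- bounded Schwartz functions -/
theorem schwartz_bdd (χ : 𝓢(ℝ, ℂ)) : ∃ C : ℝ, ∀ x, ‖χ x‖ ≤ C := by
  obtain ⟨C, _, hC⟩ := χ.decay 0 0
  exact ⟨C, fun x => by simpa using hC x⟩

theorem memLp_mul (v : ℝ → ℝ) (hv : Measurable v) (hvi : Integrable (fun x => v x ^ 2) volume)
    (χ : 𝓢(ℝ, ℂ)) : MemLp (fun x => (v x : ℂ) * χ x) 2 volume := by
  obtain ⟨C, hC⟩ := schwartz_bdd χ
  have h1 : MemLp v 2 volume := (memLp_two_iff_integrable_sq hv.aestronglyMeasurable).mpr hvi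
  refine MemLp.of_le_mul (c := C) h1 ?_ (Filter.Eventually.of_forall fun x => ?_)
  · exact ((Complex.measurable_ofReal.comp hv).mul χ.continuous.measurable).aestronglyMeasurable
  · rw [norm_mul, Complex.norm_real, mul_comm]
    exact mul_le_mul_of_nonneg_right (hC x) (norm_nonneg _)

/-- multiplication by `v` as a linear map on Schwartz functions -/
noncomputable def Mop (v : ℝ → ℝ) (hv : ∀ χ : 𝓢(ℝ, ℂ), MemLp (fun x => (v x : ℂ) * χ x) 2 volume) :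
    𝓢(ℝ, ℂ) →ₗ[ℂ] L2R where
  toFun χ := (hv χ).toLp _
  map_add' χ₁ χ₂ := by
    rw [← MemLp.toLp_add]
    congr 1
    funext x
    simp [mul_add]
  map_smul' a χ := by
    rw [RingHom.id_apply, ← MemLp.toLp_const_smul]
    congr 1
    funext x
    simp
    ring

theorem Mop_coe (v : ℝ → ℝ) (hv : ∀ χ : 𝓢(ℝ, ℂ), MemLp (fun x => (v x : ℂ) * χ x) 2 volume)
    (χ : 𝓢(ℝ, ℂ)) : ((Mop v hv χ : L2R) : ℝ → ℂ) =ᵐ[volume] fun x => (v x : ℂ) * χ x :=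
  (hv χ).coeFn_toLp

/-- the embedding -/
noncomputable def J : 𝓢(ℝ, ℂ) →ₗ[ℂ] L2R := (SchwartzMap.toLpCLM ℂ ℂ 2 volume).toLinearMap

theorem J_coe (χ : 𝓢(ℝ, ℂ)) : ((J χ : L2R) : ℝ → ℂ) =ᵐ[volume] χ := χ.coeFn_toLp 2 volume

theorem memLp_mulc (V : ℝ → ℝ) (hV : Measurable V) (hVi : Integrable (fun x => V x ^ 2) volume)
    (c : ℝ) (χ : 𝓢(ℝ, ℂ)) : MemLp (fun x => ((V x + c : ℝ) : ℂ) * χ x) 2 volume := by
  have h1 := memLp_mul V hV hVi χ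
  have h2 := (χ.memLp 2 volume).const_mul (c : ℂ)
  have h3 := h1.add h2
  refine h3.ae_eq (Filter.Eventually.of_forall fun x => ?_)
  simp only [Pi.add_apply]
  push_cast
  ring

/-- the operator on Schwartz functions -/
noncomputable def Aop (V : ℝ → ℝ) (hV : Measurable V) (hVi : Integrable (fun x => V x ^ 2) volume)
    (c : ℝ) : 𝓢(ℝ, ℂ) →ₗ[ℂ] L2R :=
  Mop (fun x => V x + c) (memLp_mulc V hV hVi c) -
    J ∘ₗ (SchwartzMap.derivCLM ℂ ℂ).toLinearMap ∘ₗ (SchwartzMap.derivCLM ℂ ℂ).toLinearMap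

theorem Aop_apply (V : ℝ → ℝ) (hV : Measurable V) (hVi : Integrable (fun x => V x ^ 2) volume)
    (c : ℝ) (χ : 𝓢(ℝ, ℂ)) : Aop V hV hVi c χ =
      Mop (fun x => V x + c) (memLp_mulc V hV hVi c) χ - J (DD χ) := rfl

theorem Aop_coe (V : ℝ → ℝ) (hV : Measurable V) (hVi : Integrable (fun x => V x ^ 2) volume)
    (c : ℝ) (χ : 𝓢(ℝ, ℂ)) : ((Aop V hV hVi c χ : L2R) : ℝ → ℂ) =ᵐ[volume]
      fun x => -(deriv (deriv (χ : ℝ → ℂ)) x) + ((V x + c : ℝ) : ℂ) * χ x := by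
  rw [Aop_apply]
  filter_upwards [Lp.coeFn_sub (Mop (fun x => V x + c) (memLp_mulc V hV hVi c) χ) (J (DD χ)),
    Mop_coe (fun x => V x + c) (memLp_mulc V hV hVi c) χ, J_coe (DD χ)] with x h1 h2 h3
  rw [h1, Pi.sub_apply, h2, h3, DD_apply]
  ring

theorem resolvent_iff (V : ℝ → ℝ) (hV : Measurable V) (hVi : Integrable (fun x => V x ^ 2) volume)
    (c : ℝ) (R : L2R →L[ℂ] L2R) : IsResolvent V c R ↔ ∀ χ, R (Aop V hV hVi c χ) = J χ := by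
  constructor
  · intro h χ
    have h1 := h χ _ (Aop_coe V hV hVi c χ)
    apply Lp.ext
    exact h1.trans (J_coe χ).symm
  · intro h χ f hf
    have : f = Aop V hV hVi c χ := by
      apply Lp.ext
      exact hf.trans (Aop_coe V hV hVi c χ).symm
    rw [this, h]
    exact J_coe χ

theorem dense_A (hD : L2DenseStmt) (V : ℝ → ℝ) (hV : Measurable V)
    (hVi : Integrable (fun x => V x ^ 2) volume) (B c : ℝ) (hB0 : 0 ≤ B) (hB : (∫ x, V x ^ 2) ≤ B ^ 2)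
    (hc : 16 * (B + 1) ^ 2 ≤ c) : DenseRange (Aop V hV hVi c) := by
  rw [Metric.denseRange_iff]
  intro f ε hε
  obtain ⟨χ, w, hw, hn⟩ := hD V hV hVi B c hB0 hB hc f ε hε
  refine ⟨χ, ?_⟩
  have : w = Aop V hV hVi c χ := by
    apply Lp.ext
    exact hw.trans (Aop_coe V hV hVi c χ).symm
  rw [← this, dist_comm, dist_eq_norm]
  exact hn

theorem norm_J_le (hB' : L2BoundsStmt) (V : ℝ → ℝ) (hV : Measurable V)
    (hVi : Integrable (fun x => V x ^ 2) volume) (B c : ℝ) (hB0 : 0 ≤ B) (hB : (∫ x, V x ^ 2) ≤ B ^ 2)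
    (hc : 16 * (B + 1) ^ 2 ≤ c) (χ : 𝓢(ℝ, ℂ)) : ‖J χ‖ ≤ 1 * ‖Aop V hV hVi c χ‖ := by
  rw [one_mul]
  exact (hB' V hV hVi B c hB0 hB hc χ _ (Aop_coe V hV hVi c χ)).2 _ (J_coe χ)

theorem sup_le (hB' : L2BoundsStmt) (V : ℝ → ℝ) (hV : Measurable V)
    (hVi : Integrable (fun x => V x ^ 2) volume) (B c : ℝ) (hB0 : 0 ≤ B) (hB : (∫ x, V x ^ 2) ≤ B ^ 2)
    (hc : 16 * (B + 1) ^ 2 ≤ c) (χ : 𝓢(ℝ, ℂ)) (x : ℝ) : ‖χ x‖ ≤ ‖Aop V hV hVi c χ‖ :=
  (hB' V hV hVi B c hB0 hB hc χ _ (Aop_coe V hV hVi c χ)).1 x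

/-- integration by parts -/
theorem inner_J_deriv (χ₁ χ₂ : 𝓢(ℝ, ℂ)) :
    ⟪J χ₁, J (SchwartzMap.derivCLM ℂ ℂ χ₂)⟫_ℂ = - ⟪J (SchwartzMap.derivCLM ℂ ℂ χ₁), J χ₂⟫_ℂ := by
  have h1 := SchwartzMap.inner_toL2_toL2_eq χ₁ (SchwartzMap.derivCLM ℂ ℂ χ₂) volume
  have h2 := SchwartzMap.inner_toL2_toL2_eq (SchwartzMap.derivCLM ℂ ℂ χ₁) χ₂ volume
  change ⟪J χ₁, J (SchwartzMap.derivCLM ℂ ℂ χ₂)⟫_ℂ = _ at h1
  change ⟪J (SchwartzMap.derivCLM ℂ ℂ χ₁), J χ₂⟫_ℂ = _ at h2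
  rw [h1, h2]
  have h3 := SchwartzMap.integral_bilinear_deriv_right_eq_neg_left χ₁ χ₂
    ((ContinuousLinearMap.mul ℝ ℂ).comp (Complex.conjCLE : ℂ →L[ℝ] ℂ))
  simp only [ContinuousLinearMap.comp_apply, ContinuousLinearMap.mul_apply',
    ContinuousLinearEquiv.coe_coe, Complex.conjCLE_apply] at h3
  simp only [SchwartzMap.derivCLM_apply, RCLike.inner_apply]
  convert h3 using 1
  · congr 1; funext x; ring
  · congr 2; funext x; ring

theorem inner_J_DD (χ₁ χ₂ : 𝓢(ℝ, ℂ)) : ⟪J χ₁, J (DD χ₂)⟫_ℂ = ⟪J (DD χ₁), J χ₂⟫_ℂ := by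
  unfold DD
  rw [inner_J_deriv, ← neg_eq_iff_eq_neg.mpr (inner_J_deriv (SchwartzMap.derivCLM ℂ ℂ χ₁) χ₂)]

theorem inner_J_Mop (v : ℝ → ℝ) (hv : ∀ χ : 𝓢(ℝ, ℂ), MemLp (fun x => (v x : ℂ) * χ x) 2 volume)
    (χ₁ χ₂ : 𝓢(ℝ, ℂ)) : ⟪J χ₁, Mop v hv χ₂⟫_ℂ = ⟪Mop v hv χ₁, J χ₂⟫_ℂ := by
  rw [MeasureTheory.L2.inner_def, MeasureTheory.L2.inner_def]
  apply integral_congr_ae
  filter_upwards [J_coe χ₁, J_coe χ₂, Mop_coe v hv χ₁, Mop_coe v hv χ₂] with x h1 h2 h3 h4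
  rw [h1, h2, h3, h4]
  simp only [RCLike.inner_apply, map_mul, Complex.conj_ofReal]
  ring

theorem inner_A_symm (V : ℝ → ℝ) (hV : Measurable V) (hVi : Integrable (fun x => V x ^ 2) volume)
    (c : ℝ) (χ₁ χ₂ : 𝓢(ℝ, ℂ)) :
    ⟪J χ₁, Aop V hV hVi c χ₂⟫_ℂ = ⟪Aop V hV hVi c χ₁, J χ₂⟫_ℂ := by
  rw [Aop_apply, Aop_apply, inner_sub_right, inner_sub_left, inner_J_Mop, inner_J_DD]

theorem re_inner_A (V : ℝ → ℝ) (hV : Measurable V) (hVi : Integrable (fun x => V x ^ 2) volume)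
    (c : ℝ) (χ : 𝓢(ℝ, ℂ)) :
    (⟪Aop V hV hVi c χ, J χ⟫_ℂ).re =
      (∫ x, ‖deriv (χ : ℝ → ℂ) x‖ ^ 2) + ∫ x, (V x + c) * ‖χ x‖ ^ 2 := by
  rw [Aop_apply, inner_sub_left, Complex.sub_re]
  have h1 : ⟪Mop (fun x => V x + c) (memLp_mulc V hV hVi c) χ, J χ⟫_ℂ =
      ((∫ x, (V x + c) * ‖χ x‖ ^ 2 : ℝ) : ℂ) := by
    rw [MeasureTheory.L2.inner_def, ← integral_complex_ofReal]
    apply integral_congr_ae
    filter_upwards [J_coe χ, Mop_coe (fun x => V x + c) (memLp_mulc V hV hVi c) χ] with x h1 h2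
    rw [h1, h2]
    simp only [RCLike.inner_apply, map_mul, Complex.conj_ofReal]
    push_cast
    have := Complex.mul_conj' (χ x)
    linear_combination ((V x : ℂ) + c) * this
  have h2 : ⟪J (DD χ), J χ⟫_ℂ = -((∫ x, ‖deriv (χ : ℝ → ℂ) x‖ ^ 2 : ℝ) : ℂ) := by
    rw [← inner_J_DD]
    unfold DD
    rw [inner_J_deriv]
    have h3 := SchwartzMap.inner_toL2_toL2_eq (SchwartzMap.derivCLM ℂ ℂ χ)
      (SchwartzMap.derivCLM ℂ ℂ χ) volume
    change ⟪J (SchwartzMap.derivCLM ℂ ℂ χ), J (SchwartzMap.derivCLM ℂ ℂ χ)⟫_ℂ = _ at h3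
    rw [h3, ← integral_complex_ofReal]
    congr 2
    funext x
    rw [SchwartzMap.derivCLM_apply, RCLike.inner_apply, Complex.mul_conj']
    push_cast
    rfl
  rw [h1, h2]
  simp only [Complex.ofReal_re, Complex.neg_re]
  ring

theorem norm_R_le (hB' : L2BoundsStmt) (hD : L2DenseStmt) (V : ℝ → ℝ) (hV : Measurable V)
    (hVi : Integrable (fun x => V x ^ 2) volume) (B c : ℝ) (hB0 : 0 ≤ B) (hB : (∫ x, V x ^ 2) ≤ B ^ 2)
    (hc : 16 * (B + 1) ^ 2 ≤ c) (R : L2R →L[ℂ] L2R) (hR : IsResolvent V c R) : ‖R‖ ≤ 1 := by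
  have hR' := (resolvent_iff V hV hVi c R).mp hR
  have hd := dense_A hD V hV hVi B c hB0 hB hc
  apply ContinuousLinearMap.opNorm_le_bound _ zero_le_one
  intro f
  refine hd.induction_on (p := fun f => ‖R f‖ ≤ 1 * ‖f‖) f ?_ ?_
  · exact isClosed_le (R.continuous.norm) (continuous_const.mul continuous_norm)
  · intro χ
    rw [hR']
    exact norm_J_le hB' V hV hVi B c hB0 hB hc χ

theorem norm_Mop_le (v : ℝ → ℝ) (hvm : Measurable v) (hvi : Integrable (fun x => v x ^ 2) volume)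
    (hv : ∀ χ : 𝓢(ℝ, ℂ), MemLp (fun x => (v x : ℂ) * χ x) 2 volume)
    (χ : 𝓢(ℝ, ℂ)) (C : ℝ) (hC0 : 0 ≤ C) (hC : ∀ x, ‖χ x‖ ≤ C) :
    ‖Mop v hv χ‖ ≤ C * Real.sqrt (∫ x, v x ^ 2) := by
  have h1 : ‖Mop v hv χ‖ ^ 2 = ∫ x, ‖(v x : ℂ) * χ x‖ ^ 2 := by
    have h2 : ⟪Mop v hv χ, Mop v hv χ⟫_ℂ = ((∫ x, ‖(v x : ℂ) * χ x‖ ^ 2 : ℝ) : ℂ) := by
      rw [MeasureTheory.L2.inner_def, ← integral_complex_ofReal]
      apply integral_congr_ae
      filter_upwards [Mop_coe v hv χ] with x h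
      rw [h, RCLike.inner_apply, Complex.mul_conj']
      push_cast
      rfl
    have h3 := inner_self_eq_norm_sq_to_K (𝕜 := ℂ) (Mop v hv χ)
    rw [h2] at h3
    apply Complex.ofReal_injective
    rw [h3]
    push_cast
    rfl
  have h4 : (∫ x, ‖(v x : ℂ) * χ x‖ ^ 2) ≤ ∫ x, C ^ 2 * v x ^ 2 := by
    apply integral_mono_of_nonneg
    · exact Filter.Eventually.of_forall fun x => by positivity
    · exact hvi.const_mul _
    · refine Filter.Eventually.of_forall fun x => ?_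
      simp only
      rw [norm_mul, mul_pow, Complex.norm_real, Real.norm_eq_abs, sq_abs, mul_comm]
      exact mul_le_mul_of_nonneg_right (pow_le_pow_left₀ (norm_nonneg _) (hC x) 2) (sq_nonneg _)
  rw [integral_const_mul] at h4
  have h5 : 0 ≤ ∫ x, v x ^ 2 := integral_nonneg fun x => sq_nonneg _
  apply le_of_sq_le_sq _ (by positivity)
  rw [h1, mul_pow, Real.sq_sqrt h5]
  exact h4

section
variable (V : ℝ → ℝ) (hV : Measurable V) (hVi : Integrable (fun x => V x ^ 2) volume)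
    (B c : ℝ) (hB0 : 0 ≤ B) (hB : (∫ x, V x ^ 2) ≤ B ^ 2) (hc : 16 * (B + 1) ^ 2 ≤ c)
include hV hVi hB0 hB hc

/-- existence of the resolvent -/
theorem l2_exists (hB' : L2BoundsStmt) (hD : L2DenseStmt) : ∃ R : L2R →L[ℂ] L2R, IsResolvent V c R := by
  have hd := dense_A hD V hV hVi B c hB0 hB hc
  refine ⟨J.extendOfNorm (Aop V hV hVi c), ?_⟩
  rw [resolvent_iff V hV hVi]
  intro χ
  exact LinearMap.extendOfNorm_eq hd ⟨1, norm_J_le hB' V hV hVi B c hB0 hB hc⟩ χ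

/-- uniqueness, norm bound, self-adjointness, nonnegativity -/
theorem l2_props (hB' : L2BoundsStmt) (hD : L2DenseStmt) (hQ : FormBoundStmt) (R : L2R →L[ℂ] L2R)
    (hR : IsResolvent V c R) :
    (∀ R' : L2R →L[ℂ] L2R, IsResolvent V c R' → R' = R) ∧ ‖R‖ ≤ 1 ∧ IsSelfAdjoint R ∧
      ∀ f : L2R, 0 ≤ (⟪f, R f⟫_ℂ).re := by
  have hR' := (resolvent_iff V hV hVi c R).mp hR
  have hd := dense_A hD V hV hVi B c hB0 hB hc
  refine ⟨?_, norm_R_le hB' hD V hV hVi B c hB0 hB hc R hR, ?_, ?_⟩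
  · intro S hS
    have hS' := (resolvent_iff V hV hVi c S).mp hS
    apply ContinuousLinearMap.coeFn_injective
    refine hd.equalizer S.continuous R.continuous ?_
    funext χ
    simp only [Function.comp_apply]
    rw [hS', hR']
  · rw [ContinuousLinearMap.isSelfAdjoint_iff_isSymmetric]
    intro f g
    refine hd.induction_on₂ (p := fun f g => ⟪R f, g⟫_ℂ = ⟪f, R g⟫_ℂ) ?_ ?_ f g
    · exact isClosed_eq ((R.continuous.comp continuous_fst).inner continuous_snd)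
        (continuous_fst.inner (R.continuous.comp continuous_snd))
    · intro χ₁ χ₂
      rw [hR', hR']
      exact inner_A_symm V hV hVi c χ₁ χ₂
  · intro f
    refine hd.induction_on (p := fun f => 0 ≤ (⟪f, R f⟫_ℂ).re) f ?_ ?_
    · exact isClosed_le continuous_const (Complex.continuous_re.comp
        (continuous_id.inner R.continuous))
    · intro χ
      rw [hR', re_inner_A]
      exact hQ V hV hVi B c hB0 hB hc χ

/-- continuity in the potential -/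
theorem l2_diff (hB' : L2BoundsStmt) (hD : L2DenseStmt) (W : ℝ → ℝ) (hW : Measurable W)
    (hWi : Integrable (fun x => W x ^ 2) volume) (hWB : (∫ x, W x ^ 2) ≤ B ^ 2) (R S : L2R →L[ℂ] L2R)
    (hR : IsResolvent V c R) (hS : IsResolvent W c S) : ‖R - S‖ ≤ Real.sqrt (∫ x, (V x - W x) ^ 2) := by
  have hR' := (resolvent_iff V hV hVi c R).mp hR
  have hS' := (resolvent_iff W hW hWi c S).mp hS
  have hd := dense_A hD V hV hVi B c hB0 hB hc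
  have hSn := norm_R_le hB' hD W hW hWi B c hB0 hWB hc S hS
  have hVW : Measurable (fun x => V x - W x) := hV.sub hW
  have hVWi : Integrable (fun x => (V x - W x) ^ 2) volume := by
    have h1 := (memLp_two_iff_integrable_sq hV.aestronglyMeasurable).mpr hVi
    have h2 := (memLp_two_iff_integrable_sq hW.aestronglyMeasurable).mpr hWi
    exact (memLp_two_iff_integrable_sq hVW.aestronglyMeasurable).mp (h1.sub h2)
  set hm := memLp_mul (fun x => V x - W x) hVW hVWi with hm_def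
  have key : ∀ χ, Aop V hV hVi c χ = Aop W hW hWi c χ + Mop (fun x => V x - W x) hm χ := by
    intro χ
    apply Lp.ext
    filter_upwards [Aop_coe V hV hVi c χ, Aop_coe W hW hWi c χ, Mop_coe (fun x => V x - W x) hm χ,
      Lp.coeFn_add (Aop W hW hWi c χ) (Mop (fun x => V x - W x) hm χ)] with x h1 h2 h3 h4
    rw [h4, Pi.add_apply, h1, h2, h3]
    push_cast
    ring
  apply ContinuousLinearMap.opNorm_le_bound _ (Real.sqrt_nonneg _)
  intro f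
  refine hd.induction_on
    (p := fun f => ‖(R - S) f‖ ≤ Real.sqrt (∫ x, (V x - W x) ^ 2) * ‖f‖) f ?_ ?_
  · exact isClosed_le ((R - S).continuous.norm) (continuous_const.mul continuous_norm)
  · intro χ
    have e : (R - S) (Aop V hV hVi c χ) = - S (Mop (fun x => V x - W x) hm χ) := by
      rw [ContinuousLinearMap.sub_apply, hR']
      nth_rewrite 1 [key χ]
      rw [map_add, hS']
      abel
    rw [e, norm_neg]
    calc ‖S (Mop (fun x => V x - W x) hm χ)‖ ≤ ‖S‖ * ‖Mop (fun x => V x - W x) hm χ‖ := S.le_opNorm _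
      _ ≤ 1 * ‖Mop (fun x => V x - W x) hm χ‖ := mul_le_mul_of_nonneg_right hSn (norm_nonneg _)
      _ = ‖Mop (fun x => V x - W x) hm χ‖ := one_mul _
      _ ≤ ‖Aop V hV hVi c χ‖ * Real.sqrt (∫ x, (V x - W x) ^ 2) :=
        norm_Mop_le _ hVW hVWi hm χ _ (norm_nonneg _) (sup_le hB' V hV hVi B c hB0 hB hc χ)
      _ = _ := mul_comm _ _
end

end Pool.Agent.Helper209.PL.QF4
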