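import Pool.Agent.Helper209.PL.Defs
import Pool.Agent.Helper209.PL.NDefs

set_option autoImplicit false

namespace Pool.Agent.Helper209.PL.QG

open MeasureTheory Set
open scoped SchwartzMap InnerProductSpace FourierTransform




lemma hd_maxrpow (s : ℝ) (hs : 1 < s) (t : ℝ) :
    HasDerivAt (fun x : ℝ => (max x 0) ^ s) (s * (max t 0) ^ (s - 1)) t := by
  rcases lt_trichotomy t 0 with ht | ht | ht
  · have h1 : (fun x : ℝ => (max x 0) ^ s) =ᶠ[nhds t] fun _ => 0 := by
      filter_upwards [gt_mem_nhds ht] with x hx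
      rw [max_eq_right (le_of_lt hx), Real.zero_rpow (by linarith)]
    rw [max_eq_right ht.le, Real.zero_rpow (by linarith), mul_zero]
    exact (hasDerivAt_const t (0:ℝ)).congr_of_eventuallyEq h1
  · subst ht
    rw [max_self, Real.zero_rpow (by linarith), mul_zero]
    have h1 : HasDerivWithinAt (fun x : ℝ => (max x 0) ^ s) 0 (Iic 0) 0 := by
      refine (hasDerivWithinAt_const 0 (Iic 0) (0:ℝ)).congr ?_ ?_
      · intro x hx
        rw [max_eq_right hx, Real.zero_rpow (by linarith)]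
      · rw [max_self, Real.zero_rpow (by linarith)]
    have h2 : HasDerivWithinAt (fun x : ℝ => (max x 0) ^ s) 0 (Ici 0) 0 := by
      have h3 := (Real.hasDerivAt_rpow_const (x := 0) (p := s) (Or.inr hs.le)).hasDerivWithinAt
        (s := Ici 0)
      rw [Real.zero_rpow (by linarith), mul_zero] at h3
      refine h3.congr ?_ ?_
      · intro x hx
        rw [max_eq_left hx]
      · rw [max_self]
    have := h1.union h2
    rwa [Iic_union_Ici, hasDerivWithinAt_univ] at this
  · have h1 : (fun x : ℝ => (max x 0) ^ s) =ᶠ[nhds t] fun x => x ^ s := by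
      filter_upwards [lt_mem_nhds ht] with x hx
      rw [max_eq_left (le_of_lt hx)]
    rw [max_eq_left ht.le]
    exact (Real.hasDerivAt_rpow_const (Or.inl ht.ne')).congr_of_eventuallyEq h1

/-- derivative of `FF` -/
noncomputable def gg (γ μ y : ℝ) : ℝ :=
  -((γ + 1 / 2) * (max (μ - y) 0) ^ (γ + 1 / 2 - 1)) + (γ + 1 / 2) * μ ^ (γ - 1 / 2)

lemma FF_deriv (γ μ : ℝ) (hγ : 1 < γ) (y : ℝ) : HasDerivAt (FF γ μ) (gg γ μ y) y := by
  have h1 : HasDerivAt (fun y : ℝ => μ - y) (-1) y := by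
    simpa using (hasDerivAt_id y).const_sub μ
  have h2 := (hd_maxrpow (γ + 1 / 2) (by linarith) (μ - y)).comp y h1
  have h3 : HasDerivAt (fun y : ℝ => (γ + 1 / 2) * μ ^ (γ - 1 / 2) * y)
      ((γ + 1 / 2) * μ ^ (γ - 1 / 2)) y := by
    simpa using (hasDerivAt_id y).const_mul ((γ + 1 / 2) * μ ^ (γ - 1 / 2))
  have h4 := (h2.sub_const (μ ^ (γ + 1 / 2))).add h3
  refine h4.congr_deriv ?_
  unfold gg
  ring

lemma gg_cont (γ μ : ℝ) (hγ : 1 < γ) : Continuous (gg γ μ) := by
  unfold gg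
  refine Continuous.add (Continuous.neg (continuous_const.mul ?_)) continuous_const
  refine Continuous.rpow_const (by fun_prop) ?_
  intro x
  right
  linarith

lemma gg_zero (γ μ : ℝ) (hμ : 0 < μ) : gg γ μ 0 = 0 := by
  unfold gg
  rw [sub_zero, max_eq_left hμ.le, show γ + 1 / 2 - 1 = γ - 1 / 2 by ring]
  ring

lemma gg_diff (γ μ : ℝ) (hμ : 0 < μ) : DifferentiableAt ℝ (gg γ μ) 0 := by
  have h1 : gg γ μ =ᶠ[nhds 0] fun y =>
      -((γ + 1 / 2) * (μ - y) ^ (γ + 1 / 2 - 1)) + (γ + 1 / 2) * μ ^ (γ - 1 / 2) := by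
    filter_upwards [gt_mem_nhds hμ] with y hy
    unfold gg
    rw [max_eq_left (by linarith [(show y < μ from hy)])]
  have h2 : DifferentiableAt ℝ (fun y : ℝ =>
      -((γ + 1 / 2) * (μ - y) ^ (γ + 1 / 2 - 1)) + (γ + 1 / 2) * μ ^ (γ - 1 / 2)) 0 := by
    have h3 : DifferentiableAt ℝ (fun y : ℝ => (μ - y) ^ (γ + 1 / 2 - 1)) 0 := by
      apply DifferentiableAt.rpow_const
      · fun_prop
      · left
        simp [hμ.ne']
    exact ((h3.const_mul _).neg).add_const _
  exact h2.congr_of_eventuallyEq h1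

lemma gg_bound (γ μ : ℝ) (hγ : 1 < γ) (hμ : 0 < μ) (k : ℝ) (hk : 0 ≤ k) :
    ∃ C, 0 ≤ C ∧ ∀ y, |y| ≤ k → |gg γ μ y| ≤ C * |y| := by
  have h1 : Icc (-(k+1)) (k+1) ∈ nhds (0:ℝ) := Icc_mem_nhds (by linarith) (by linarith)
  have h2 : ContinuousOn (dslope (gg γ μ) 0) (Icc (-(k+1)) (k+1)) :=
    (continuousOn_dslope h1).mpr ⟨(gg_cont γ μ hγ).continuousOn, gg_diff γ μ hμ⟩
  obtain ⟨C, hC⟩ := isCompact_Icc.exists_bound_of_continuousOn h2
  refine ⟨C, (norm_nonneg _).trans (hC 0 ⟨by linarith, by linarith⟩), ?_⟩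
  intro y hy
  have h3 := sub_smul_dslope (gg γ μ) 0 y
  rw [gg_zero γ μ hμ, sub_zero, sub_zero, smul_eq_mul] at h3
  rw [← h3, abs_mul, mul_comm]
  have hy' := abs_le.mp hy
  exact mul_le_mul_of_nonneg_right (hC y ⟨by linarith, by linarith⟩) (abs_nonneg _)

lemma FF_lip (γ μ : ℝ) (hγ : 1 < γ) (hμ : 0 < μ) (k : ℝ) (hk : 0 ≤ k) :
    ∃ C, 0 ≤ C ∧ ∀ a b, |a| ≤ k → |b| ≤ k →
      |FF γ μ a - FF γ μ b| ≤ C * ((|a| + |b|) * |a - b|) := by
  obtain ⟨C, hC0, hC⟩ := gg_bound γ μ hγ hμ k hk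
  refine ⟨C, hC0, ?_⟩
  intro a b ha hb
  have h1 := Convex.norm_image_sub_le_of_norm_hasDerivWithin_le (f := FF γ μ) (f' := gg γ μ)
    (s := Icc (-(max |a| |b|)) (max |a| |b|)) (x := b) (y := a) (C := C * (|a| + |b|))
    (fun x _ => (FF_deriv γ μ hγ x).hasDerivWithinAt) (fun x hx => by
      have hx' : |x| ≤ max |a| |b| := abs_le.mpr hx
      have h2 : |x| ≤ k := hx'.trans (max_le ha hb)
      rw [Real.norm_eq_abs]
      refine (hC x h2).trans (mul_le_mul_of_nonneg_left (hx'.trans ?_) hC0)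
      exact max_le (by linarith [abs_nonneg b]) (by linarith [abs_nonneg a])) (convex_Icc _ _)
    (abs_le.mp (le_max_right _ _)) (abs_le.mp (le_max_left _ _))
  rw [Real.norm_eq_abs, Real.norm_eq_abs] at h1
  rw [← mul_assoc]
  exact h1

lemma FF_zero (γ μ : ℝ) (hμ : 0 < μ) : FF γ μ 0 = 0 := by
  unfold FF
  rw [sub_zero, max_eq_left hμ.le]
  ring

lemma FF_nonneg (γ μ : ℝ) (hγ : 1 < γ) (hμ : 0 < μ) (y : ℝ) : 0 ≤ FF γ μ y := by
  unfold FF
  set s := γ + 1 / 2 with hs
  have hs1 : 1 ≤ s := by linarith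
  have h1 : max (μ - y) 0 = μ * (1 + (max (μ - y) 0 / μ - 1)) := by
    field_simp
    ring
  have h2 : 0 ≤ max (μ - y) 0 / μ := div_nonneg (le_max_right _ _) hμ.le
  have h3 := one_add_mul_self_le_rpow_one_add (s := max (μ - y) 0 / μ - 1) (p := s)
    (by linarith) hs1
  have h4 : (max (μ - y) 0) ^ s = μ ^ s * (1 + (max (μ - y) 0 / μ - 1)) ^ s := by
    conv_lhs => rw [h1]
    rw [Real.mul_rpow hμ.le (by linarith)]
  have h5 : μ ^ s = μ ^ (γ - 1/2) * μ := by
    rw [← Real.rpow_add_one hμ.ne']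
    congr 1
    rw [hs]
    ring
  have h6 : -y / μ ≤ max (μ - y) 0 / μ - 1 := by
    rw [div_le_iff₀ hμ, sub_mul, div_mul_cancel₀ _ hμ.ne', one_mul]
    have := le_max_left (μ - y) 0
    linarith
  have hpos : 0 < μ ^ s := Real.rpow_pos_of_pos hμ s
  have h7 : μ ^ s * (1 + s * (-y / μ)) ≤ (max (μ - y) 0) ^ s := by
    rw [h4]
    refine mul_le_mul_of_nonneg_left ?_ hpos.le
    refine le_trans ?_ h3
    have := mul_le_mul_of_nonneg_left h6 (by linarith : 0 ≤ s)
    linarith
  have h8 : μ ^ s * (1 + s * (-y / μ)) = μ ^ s - s * μ ^ (γ - 1/2) * y := by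
    rw [h5]
    field_simp
    ring
  linarith

/-- approximation of `L²` potentials by `C_c` potentials -/
theorem approx_l2 (γ μ : ℝ) (hγ : 1 < γ) (hμ : 0 < μ) (V : ℝ → ℝ) (hV : Measurable V)
    (hVi : Integrable (fun x => V x ^ 2) volume) (hF : Integrable (fun x => FF γ μ (V x)) volume)
    (ε : ℝ) (hε : 0 < ε) :
    ∃ W : ℝ → ℝ, Continuous W ∧ HasCompactSupport W ∧ (∫ x, (V x - W x) ^ 2) ≤ ε ∧
      (∫ x, FF γ μ (W x)) ≤ (∫ x, FF γ μ (V x)) + ε := by
  classical
  -- truncation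
  have hUm : ∀ n : ℕ, Measurable (fun x => if |V x| ≤ (n : ℝ) then V x else 0) := by
    intro n
    exact Measurable.ite (measurableSet_le hV.abs measurable_const) hV measurable_const
  have hlim : Filter.Tendsto (fun n : ℕ => ∫ x, (V x - (if |V x| ≤ (n : ℝ) then V x else 0)) ^ 2)
      Filter.atTop (nhds (∫ _x : ℝ, (0 : ℝ))) := by
    refine tendsto_integral_of_dominated_convergence (fun x => V x ^ 2) ?_ hVi ?_ ?_
    · intro n
      exact ((hV.sub (hUm n)).pow_const 2).aestronglyMeasurable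
    · intro n
      refine Filter.Eventually.of_forall (fun x => ?_)
      rw [Real.norm_eq_abs, abs_of_nonneg (sq_nonneg _)]
      by_cases h : |V x| ≤ (n : ℝ)
      · rw [if_pos h, sub_self]
        nlinarith [sq_nonneg (V x)]
      · rw [if_neg h, sub_zero]
    · refine Filter.Eventually.of_forall (fun x => ?_)
      obtain ⟨N, hN⟩ := exists_nat_ge |V x|
      refine tendsto_const_nhds.congr' ?_
      filter_upwards [Filter.eventually_ge_atTop N] with n hn
      have : |V x| ≤ (n : ℝ) := hN.trans (by exact_mod_cast hn)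
      rw [if_pos this, sub_self]
      norm_num
  rw [integral_zero] at hlim
  obtain ⟨n, hn⟩ := (hlim.eventually (gt_mem_nhds (by positivity : 0 < ε / 4))).exists
  set U : ℝ → ℝ := fun x => if |V x| ≤ (n : ℝ) then V x else 0 with hU
  have hUmeas : Measurable U := hUm n
  have hUk : ∀ x, |U x| ≤ n := by
    intro x
    simp only [hU]
    split_ifs with h
    · exact h
    · simp
  have hUV : ∀ x, U x ^ 2 ≤ V x ^ 2 := by
    intro x
    simp only [hU]
    split_ifs with h
    · exact le_rfl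
    · nlinarith [sq_nonneg (V x)]
  have hFU : ∀ x, FF γ μ (U x) ≤ FF γ μ (V x) := by
    intro x
    simp only [hU]
    split_ifs with h
    · exact le_rfl
    · rw [FF_zero γ μ hμ]
      exact FF_nonneg γ μ hγ hμ _
  have hUi : Integrable (fun x => U x ^ 2) volume := by
    refine hVi.mono' (hUmeas.pow_const 2).aestronglyMeasurable
      (Filter.Eventually.of_forall (fun x => ?_))
    rw [Real.norm_eq_abs, abs_of_nonneg (sq_nonneg _)]
    exact hUV x
  have hUL : MemLp U (ENNReal.ofReal 2) volume := by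
    rw [show ENNReal.ofReal 2 = 2 by simp]
    exact (memLp_two_iff_integrable_sq hUmeas.aestronglyMeasurable).mpr hUi
  obtain ⟨C, hC0, hC⟩ := FF_lip γ μ hγ hμ (n : ℝ) (Nat.cast_nonneg n)
  set A := ∫ x, V x ^ 2 with hA
  have hA0 : 0 ≤ A := integral_nonneg (fun x => sq_nonneg _)
  set η := ε / (2 * (C + 1) * (A + 1)) with hη
  have hηp : 0 < η := by positivity
  set δ := min (ε / 4) (ε / (2 * (C + 1) * (1 + 1 / η))) with hδ
  have hδp : 0 < δ := by
    apply lt_min <;> positivity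
  obtain ⟨g, hgc, hgi, hgcont, hgL⟩ :=
    hUL.exists_hasCompactSupport_integral_rpow_sub_le (by norm_num : (0:ℝ) < 2) hδp
  have hn0 : (0 : ℝ) ≤ n := Nat.cast_nonneg n
  set W : ℝ → ℝ := fun x => max (-(n : ℝ)) (min (n : ℝ) (g x)) with hW
  have hWc : Continuous W := by
    simp only [hW]
    fun_prop
  have hWk : ∀ x, |W x| ≤ n := by
    intro x
    rw [abs_le]
    exact ⟨le_max_left _ _, max_le (by linarith) (min_le_left _ _)⟩
  have hUW : ∀ x, |U x - W x| ≤ |U x - g x| := by
    intro x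
    have h1 := abs_le.mp (hUk x)
    have h2 : W x = max (-(n : ℝ)) (min (n : ℝ) (g x)) := rfl
    rcases le_total (g x) n with h3 | h3
    · rw [min_eq_right h3] at h2
      rcases le_total (-(n : ℝ)) (g x) with h4 | h4
      · rw [max_eq_right h4] at h2
        rw [h2]
      · rw [max_eq_left h4] at h2
        rw [h2, abs_of_nonneg (by linarith [h1.1]), abs_of_nonneg (by linarith [h1.1])]
        linarith
    · rw [min_eq_left h3, max_eq_right (by linarith)] at h2
      rw [h2, abs_of_nonpos (by linarith [h1.2]), abs_of_nonpos (by linarith [h1.2])]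
      linarith
  have hUW2 : ∀ x, (U x - W x) ^ 2 ≤ (U x - g x) ^ 2 := by
    intro x
    exact sq_le_sq.mpr (hUW x)
  have hgi' : ∫ x, (U x - g x) ^ 2 ≤ δ := by
    refine le_trans (le_of_eq ?_) hgi
    refine integral_congr_ae (Filter.Eventually.of_forall (fun x => ?_))
    show (U x - g x) ^ 2 = ‖U x - g x‖ ^ (2:ℝ)
    rw [Real.rpow_two, Real.norm_eq_abs, sq_abs]
  have hUgI : Integrable (fun x => (U x - g x) ^ 2) volume := by
    have h1 : MemLp (fun x => U x - g x) 2 volume := by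
      rw [show ENNReal.ofReal 2 = 2 by simp] at hUL hgL
      exact hUL.sub hgL
    exact h1.integrable_sq
  have hUWI : Integrable (fun x => (U x - W x) ^ 2) volume := by
    refine hUgI.mono' ((hUmeas.sub hWc.measurable).pow_const 2).aestronglyMeasurable
      (Filter.Eventually.of_forall (fun x => ?_))
    rw [Real.norm_eq_abs, abs_of_nonneg (sq_nonneg _)]
    exact hUW2 x
  have hUWint : ∫ x, (U x - W x) ^ 2 ≤ δ :=
    (integral_mono hUWI hUgI hUW2).trans hgi'
  have hVUI : Integrable (fun x => (V x - U x) ^ 2) volume := by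
    refine hVi.mono' ((hV.sub hUmeas).pow_const 2).aestronglyMeasurable
      (Filter.Eventually.of_forall (fun x => ?_))
    rw [Real.norm_eq_abs, abs_of_nonneg (sq_nonneg _)]
    simp only [hU]
    split_ifs with h
    · rw [sub_self]
      nlinarith [sq_nonneg (V x)]
    · rw [sub_zero]
  refine ⟨W, hWc, ?_, ?_, ?_⟩
  · exact hgc.comp_left (g := fun y => max (-(n : ℝ)) (min (n : ℝ) y)) (by
      show max (-(n : ℝ)) (min (n : ℝ) 0) = 0
      rw [min_eq_right hn0, max_eq_right (by linarith)])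
  · have h1 : ∫ x, (V x - W x) ^ 2 ≤ ∫ x, (2 * (V x - U x) ^ 2 + 2 * (U x - W x) ^ 2) := by
      refine integral_mono_of_nonneg (Filter.Eventually.of_forall (fun x => sq_nonneg _))
        ((hVUI.const_mul 2).add (hUWI.const_mul 2)) (Filter.Eventually.of_forall (fun x => ?_))
      show (V x - W x) ^ 2 ≤ 2 * (V x - U x) ^ 2 + 2 * (U x - W x) ^ 2
      nlinarith [sq_nonneg ((V x - U x) - (U x - W x))]
    have h2 : ∫ x, (2 * (V x - U x) ^ 2 + 2 * (U x - W x) ^ 2) =
        2 * (∫ x, (V x - U x) ^ 2) + 2 * ∫ x, (U x - W x) ^ 2 := by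
      rw [integral_add (hVUI.const_mul 2) (hUWI.const_mul 2), integral_const_mul,
        integral_const_mul]
    have h3 : δ ≤ ε / 4 := min_le_left _ _
    have h4 : ∫ x, (V x - U x) ^ 2 < ε / 4 := hn
    linarith
  · have hpt : ∀ x, FF γ μ (W x) ≤
        FF γ μ (V x) + (C * η * V x ^ 2 + C * (1 + 1 / η) * (U x - W x) ^ 2) := by
      intro x
      have h1 := hC (U x) (W x) (hUk x) (hWk x)
      have h2 := (abs_le.mp h1).1
      have h3 : |W x| ≤ |U x| + |U x - W x| := by
        have := abs_sub_abs_le_abs_sub (W x) (U x)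
        rw [abs_sub_comm (W x) (U x)] at this
        linarith
      have h4 : (|U x| + |W x|) * |U x - W x| ≤ η * V x ^ 2 + (1 + 1 / η) * (U x - W x) ^ 2 := by
        have h5 : (|U x| + |W x|) * |U x - W x| ≤
            (2 * |U x| + |U x - W x|) * |U x - W x| :=
          mul_le_mul_of_nonneg_right (by linarith) (abs_nonneg _)
        have h6 : |U x - W x| ^ 2 = (U x - W x) ^ 2 := sq_abs _
        have h7 : |U x| ^ 2 = U x ^ 2 := sq_abs _
        have h8 : 2 * |U x| * |U x - W x| ≤ η * |U x| ^ 2 + (1 / η) * |U x - W x| ^ 2 := by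
          have h9 : 0 ≤ (η * |U x| - |U x - W x|) ^ 2 / η := div_nonneg (sq_nonneg _) hηp.le
          have h10 : (η * |U x| - |U x - W x|) ^ 2 / η =
              η * |U x| ^ 2 + (1 / η) * |U x - W x| ^ 2 - 2 * |U x| * |U x - W x| := by
            field_simp
            ring
          linarith
        have h11 : η * U x ^ 2 ≤ η * V x ^ 2 := mul_le_mul_of_nonneg_left (hUV x) hηp.le
        rw [h7, h6] at h8
        nlinarith
      have h5 := mul_le_mul_of_nonneg_left h4 hC0
      have h6 := hFU x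
      nlinarith
    have hRI : Integrable (fun x => C * η * V x ^ 2 + C * (1 + 1 / η) * (U x - W x) ^ 2) volume :=
      (hVi.const_mul (C * η)).add (hUWI.const_mul (C * (1 + 1 / η)))
    have h1 : ∫ x, FF γ μ (W x) ≤
        ∫ x, (FF γ μ (V x) + (C * η * V x ^ 2 + C * (1 + 1 / η) * (U x - W x) ^ 2)) := by
      refine integral_mono_of_nonneg (Filter.Eventually.of_forall
        (fun x => FF_nonneg γ μ hγ hμ _)) (hF.add hRI) (Filter.Eventually.of_forall hpt)
    have h2 : ∫ x, (FF γ μ (V x) + (C * η * V x ^ 2 + C * (1 + 1 / η) * (U x - W x) ^ 2)) =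
        (∫ x, FF γ μ (V x)) + (C * η * A + C * (1 + 1 / η) * ∫ x, (U x - W x) ^ 2) := by
      rw [integral_add hF hRI, integral_add (hVi.const_mul (C * η))
        (hUWI.const_mul (C * (1 + 1 / η))), integral_const_mul, integral_const_mul]
    have h3 : C * η * A ≤ ε / 2 := by
      have : C * η * A = ε / 2 * ((C / (C + 1)) * (A / (A + 1))) := by
        rw [hη]
        field_simp
      rw [this]
      have h4 : C / (C + 1) ≤ 1 := by rw [div_le_one (by linarith)]; linarith
      have h5 : A / (A + 1) ≤ 1 := by rw [div_le_one (by linarith)]; linarith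
      have h6 : (C / (C + 1)) * (A / (A + 1)) ≤ 1 :=
        mul_le_one₀ h4 (by positivity) h5
      nlinarith
    have h4 : C * (1 + 1 / η) * (∫ x, (U x - W x) ^ 2) ≤ ε / 2 := by
      have h5 : (∫ x, (U x - W x) ^ 2) ≤ ε / (2 * (C + 1) * (1 + 1 / η)) :=
        hUWint.trans (min_le_right _ _)
      have h6 : 0 < 1 + 1 / η := by positivity
      calc C * (1 + 1 / η) * (∫ x, (U x - W x) ^ 2)
          ≤ C * (1 + 1 / η) * (ε / (2 * (C + 1) * (1 + 1 / η))) :=
            mul_le_mul_of_nonneg_left h5 (by positivity)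
        _ = ε / 2 * (C / (C + 1)) := by field_simp
        _ ≤ ε / 2 := by
          have h4 : C / (C + 1) ≤ 1 := by rw [div_le_one (by linarith)]; linarith
          nlinarith
    linarith

end Pool.Agent.Helper209.PL.QG
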