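import Pool.Agent.Helper209.PL.Defs
import Pool.Agent.Helper209.PL.NDefs

set_option autoImplicit false

namespace Pool.Agent.Helper209.PL.QH1

open MeasureTheory Set
open scoped SchwartzMap InnerProductSpace FourierTransform








/-- `N0` is the Fourier multiplier with symbol `g` -/
def IsMultiplier (g : ℝ → ℝ) (N0 : L2R →L[ℂ] L2R) : Prop :=
  ∀ f : L2R, ((𝓕 (N0 f) : L2R) : ℝ → ℂ) =ᵐ[volume] (fun ξ => (g ξ : ℂ) * ((𝓕 f : L2R) : ℝ → ℂ) ξ)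

theorem q1_fourierInv_ae (u : L2R) (hu : Integrable (u : ℝ → ℂ)) :
    ((𝓕⁻ u : L2R) : ℝ → ℂ) =ᵐ[volume] 𝓕⁻ (u : ℝ → ℂ) := by
  have hcont : Continuous (𝓕⁻ (u : ℝ → ℂ)) := by
    have h1 : Continuous (𝓕 (u : ℝ → ℂ)) :=
      VectorFourier.fourierIntegral_continuous Real.continuous_fourierChar
      (innerSL ℝ).continuous₂ hu
    have h2 : 𝓕⁻ (u : ℝ → ℂ) = fun w => 𝓕 (u : ℝ → ℂ) (-w) := by
      funext w
      exact Real.fourierInv_eq_fourier_neg _ w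
    rw [h2]
    exact h1.comp continuous_neg
  apply ae_eq_of_integral_contDiff_smul_eq
    ((Lp.memLp (𝓕⁻ u : L2R)).locallyIntegrable one_le_two) hcont.locallyIntegrable
  intro g hg hgs
  have hg₁ : HasCompactSupport (Complex.ofRealCLM ∘ g) := hgs.comp_left rfl
  have hg₂ : ContDiff ℝ (⊤ : ℕ∞) (Complex.ofRealCLM ∘ g) := by fun_prop
  obtain ⟨φ, hφ⟩ : ∃ φ : 𝓢(ℝ, ℂ), ∀ x, φ x = (g x : ℂ) := ⟨hg₁.toSchwartzMap hg₂, fun x => rfl⟩
  have e1 : ∫ x, g x • ((𝓕⁻ u : L2R) : ℝ → ℂ) x = Lp.toTemperedDistribution (𝓕⁻ u : L2R) φ := by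
    rw [Lp.toTemperedDistribution_apply]
    apply integral_congr_ae
    filter_upwards with x
    rw [hφ]
    simp
  have e2 : Lp.toTemperedDistribution (𝓕⁻ u : L2R) φ = Lp.toTemperedDistribution u (𝓕⁻ φ) := by
    rw [← Lp.fourierInv_toTemperedDistribution_eq]
    rfl
  have e3 : ∫ x, g x • (𝓕⁻ (u : ℝ → ℂ)) x = ∫ x, φ x • (𝓕⁻ (u : ℝ → ℂ)) x := by
    apply integral_congr_ae
    filter_upwards with x
    rw [hφ]
    simp
  rw [e1, e2, e3, Lp.toTemperedDistribution_apply]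
  have hc : Continuous fun p : ℝ × ℝ => (-innerₗ ℝ) p.1 p.2 := by
    have := (innerSL ℝ (E := ℝ)).continuous₂.neg
    exact this
  have h := VectorFourier.integral_fourierIntegral_smul_eq_flip (μ := (volume : Measure ℝ))
    (ν := (volume : Measure ℝ)) (e := Real.fourierChar) (L := -innerₗ ℝ)
    (f := (φ : ℝ → ℂ)) (g := (u : ℝ → ℂ)) Real.continuous_fourierChar
    hc φ.integrable hu
  have hflip : (-innerₗ ℝ : ℝ →ₗ[ℝ] ℝ →ₗ[ℝ] ℝ).flip = -innerₗ ℝ := by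
    ext
    simp
  rw [hflip] at h
  have e4 : ∀ x, (𝓕⁻ φ) x = 𝓕⁻ (φ : ℝ → ℂ) x := fun x => by
    rw [SchwartzMap.fourierInv_coe]
  simp only [e4]
  exact h

theorem q1_ek_memLp (θ : ℝ → ℝ) (h : Continuous θ) (hs : HasCompactSupport θ) (ξ : ℝ) :
    MemLp (fun x : ℝ => Complex.exp ((2 * Real.pi * x * ξ : ℝ) * Complex.I) * (θ x : ℂ)) 2
      (volume : Measure ℝ) := by
  apply Continuous.memLp_of_hasCompactSupport
  · fun_prop
  · have h1 : HasCompactSupport (fun x => (θ x : ℂ)) := hs.comp_left (g := fun r : ℝ => (r : ℂ)) rfl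
    exact h1.mul_left

/-- the function `e^{2πixξ} θ(x)` -/
noncomputable def q1_ek (θ : ℝ → ℝ) (h : Continuous θ) (hs : HasCompactSupport θ) (ξ : ℝ) : L2R :=
  (q1_ek_memLp θ h hs ξ).toLp _

theorem q1_ek_ae (θ : ℝ → ℝ) (h : Continuous θ) (hs : HasCompactSupport θ) (ξ : ℝ) :
    ((q1_ek θ h hs ξ : L2R) : ℝ → ℂ) =ᵐ[volume]
      fun x : ℝ => Complex.exp ((2 * Real.pi * x * ξ : ℝ) * Complex.I) * (θ x : ℂ) :=
  (q1_ek_memLp θ h hs ξ).coeFn_toLp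

theorem q1_ek_norm (θ : ℝ → ℝ) (h : Continuous θ) (hs : HasCompactSupport θ) (ξ : ℝ) :
    ‖q1_ek θ h hs ξ‖ ^ 2 = ∫ x, θ x ^ 2 := by
  have h1 : ⟪q1_ek θ h hs ξ, q1_ek θ h hs ξ⟫_ℂ = ((∫ x, θ x ^ 2 : ℝ) : ℂ) := by
    rw [L2.inner_def, ← integral_complex_ofReal]
    apply integral_congr_ae
    filter_upwards [q1_ek_ae θ h hs ξ] with x hx1
    rw [hx1]
    simp only [RCLike.inner_apply, map_mul, Complex.conj_ofReal]
    have e : (starRingEnd ℂ) (Complex.exp ((2 * Real.pi * x * ξ : ℝ) * Complex.I)) *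
        Complex.exp ((2 * Real.pi * x * ξ : ℝ) * Complex.I) = 1 := by
      rw [← Complex.exp_conj, ← Complex.exp_add, map_mul, Complex.conj_ofReal, Complex.conj_I,
        mul_neg, neg_add_cancel, Complex.exp_zero]
    push_cast at e ⊢
    linear_combination (θ x : ℂ) ^ 2 * e
  rw [inner_self_eq_norm_sq_to_K] at h1
  apply Complex.ofReal_injective
  rw [← h1]
  push_cast
  rfl

theorem q1_parseval (b : HilbertBasis ℕ ℂ L2R) (x : L2R) :
    HasSum (fun i => ‖⟪x, b i⟫_ℂ‖ ^ 2) (‖x‖ ^ 2) := by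
  have h1 := (RCLike.hasSum_re ℂ (b.hasSum_inner_mul_inner x x))
  rw [inner_self_eq_norm_sq] at h1
  have e : (fun i => ‖⟪x, b i⟫_ℂ‖ ^ 2) = fun i => RCLike.re (⟪x, b i⟫_ℂ * ⟪b i, x⟫_ℂ) := by
    funext i
    rw [inner_mul_symm_re_eq_norm, norm_mul, norm_inner_symm (b i) x, sq]
  rw [e]
  exact h1

theorem q1_point (g : ℝ → ℝ) (hg : Continuous g) (hgs : HasCompactSupport g) (N0 : L2R →L[ℂ] L2R)
    (hN : IsMultiplier g N0) (f : L2R) :
    ∀ᵐ x : ℝ, ((N0 f : L2R) : ℝ → ℂ) x = ⟪q1_ek g hg hgs (-x), (𝓕 f : L2R)⟫_ℂ := by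
  have hgm : MemLp (fun x => (g x : ℂ)) 2 (volume : Measure ℝ) := by
    apply Continuous.memLp_of_hasCompactSupport
    · fun_prop
    · exact hgs.comp_left (g := fun r : ℝ => (r : ℂ)) rfl
  have hint : Integrable (fun x => (g x : ℂ) * ((𝓕 f : L2R) : ℝ → ℂ) x) :=
    hgm.integrable_mul (Lp.memLp (𝓕 f : L2R))
  have hwint : Integrable ((𝓕 (N0 f) : L2R) : ℝ → ℂ) := hint.congr (hN f).symm
  have h1 := q1_fourierInv_ae (𝓕 (N0 f) : L2R) hwint
  have h2 : (𝓕⁻ (𝓕 (N0 f) : L2R) : L2R) = N0 f := FourierTransform.fourierInv_fourier_eq _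
  rw [h2] at h1
  filter_upwards [h1] with x hx
  rw [hx, L2.inner_def, Real.fourierInv_eq']
  apply integral_congr_ae
  filter_upwards [q1_ek_ae g hg hgs (-x), hN f] with y hy1 hy2
  rw [hy1, hy2]
  simp only [RCLike.inner_apply, map_mul, Complex.conj_ofReal, smul_eq_mul]
  rw [← Complex.exp_conj]
  simp only [map_mul, Complex.conj_ofReal, Complex.conj_I]
  have e : ((2 * Real.pi * (x * (starRingEnd ℝ) y) : ℝ) : ℂ) * Complex.I =
      ((2 * Real.pi * y * -x : ℝ) : ℂ) * -Complex.I := by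
    rw [conj_trivial]
    push_cast
    ring
  rw [e]
  ring

/-- pointwise bound and completeness relation for Fourier multipliers of compact support -/
theorem mult_point (g : ℝ → ℝ) (hg : Continuous g) (hgs : HasCompactSupport g) (N0 : L2R →L[ℂ] L2R)
    (hN : IsMultiplier g N0) :
    (∀ f : L2R, ∀ᵐ x : ℝ, ‖((N0 f : L2R) : ℝ → ℂ) x‖ ≤ Real.sqrt (∫ ξ, g ξ ^ 2) * ‖f‖) ∧
    (∀ b : HilbertBasis ℕ ℂ L2R, ∀ᵐ x : ℝ, HasSum (fun i => ‖((N0 (b i) : L2R) : ℝ → ℂ) x‖ ^ 2) (∫ ξ, g ξ ^ 2)) := by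
  have hn : ∀ x, ‖q1_ek g hg hgs x‖ = Real.sqrt (∫ ξ, g ξ ^ 2) := by
    intro x
    rw [← q1_ek_norm g hg hgs x, Real.sqrt_sq (norm_nonneg _)]
  constructor
  · intro f
    filter_upwards [q1_point g hg hgs N0 hN f] with x hx
    rw [hx, ← hn (-x)]
    refine (norm_inner_le_norm _ _).trans ?_
    rw [Lp.norm_fourier_eq]
  · intro b
    have hall : ∀ᵐ x : ℝ, ∀ i, ((N0 (b i) : L2R) : ℝ → ℂ) x =
        ⟪q1_ek g hg hgs (-x), (𝓕 (b i) : L2R)⟫_ℂ :=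
      ae_all_iff.2 fun i => q1_point g hg hgs N0 hN (b i)
    filter_upwards [hall] with x hx
    set k : L2R := 𝓕⁻ (q1_ek g hg hgs (-x)) with hk
    have hk2 : (𝓕 k : L2R) = q1_ek g hg hgs (-x) := FourierTransform.fourier_fourierInv_eq _
    have h1 := q1_parseval b k
    have h2 : ‖k‖ ^ 2 = ∫ ξ, g ξ ^ 2 := by
      rw [← q1_ek_norm g hg hgs (-x), ← hk2, Lp.norm_fourier_eq]
    rw [h2] at h1
    have h3 : ∀ i, ((N0 (b i) : L2R) : ℝ → ℂ) x = ⟪k, b i⟫_ℂ := by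
      intro i
      rw [hx i, ← hk2, Lp.inner_fourier_eq]
    simp only [h3]
    exact h1

end Pool.Agent.Helper209.PL.QH1
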