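import Pool.Agent.Helper209.PL.Defs
import Pool.Agent.Helper209.PL.NDefs

set_option autoImplicit false

namespace Pool.Agent.Helper209.PL.QH2

open MeasureTheory Set
open scoped SchwartzMap InnerProductSpace FourierTransform








/-- `N0` is the Fourier multiplier with symbol `g` -/
def IsMultiplier (g : ℝ → ℝ) (N0 : L2R →L[ℂ] L2R) : Prop :=
  ∀ f : L2R, ((𝓕 (N0 f) : L2R) : ℝ → ℂ) =ᵐ[volume] (fun ξ => (g ξ : ℂ) * ((𝓕 f : L2R) : ℝ → ℂ) ξ)

/-- proved elsewhere, use as hypothesis -/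
def MultPointStmt : Prop := ∀ (g : ℝ → ℝ), Continuous g → HasCompactSupport g → ∀ (N0 : L2R →L[ℂ] L2R),
    IsMultiplier g N0 →
    (∀ f : L2R, ∀ᵐ x : ℝ, ‖((N0 f : L2R) : ℝ → ℂ) x‖ ≤ Real.sqrt (∫ ξ, g ξ ^ 2) * ‖f‖) ∧
    (∀ b : HilbertBasis ℕ ℂ L2R, ∀ᵐ x : ℝ, HasSum (fun i => ‖((N0 (b i) : L2R) : ℝ → ℂ) x‖ ^ 2) (∫ ξ, g ξ ^ 2))

/-- `W` is the product of the multiplication by `v` and the operator `Q` -/
def IsProd (v : ℝ → ℝ) (Q W : L2R →L[ℂ] L2R) : Prop :=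
  ∀ f : L2R, ((W f : L2R) : ℝ → ℂ) =ᵐ[volume] (fun x => (v x : ℂ) * ((Q f : L2R) : ℝ → ℂ) x)

theorem ep_nsq (f : L2R) : ‖f‖ ^ 2 = ∫ x, ‖(f : ℝ → ℂ) x‖ ^ 2 := by
  have h1 : ((‖f‖ : ℝ) : ℂ) ^ 2 = ⟪f, f⟫_ℂ := (inner_self_eq_norm_sq_to_K (𝕜 := ℂ) f).symm
  rw [L2.inner_def] at h1
  have h2 : ∫ a, ⟪(f : ℝ → ℂ) a, (f : ℝ → ℂ) a⟫_ℂ = ∫ a, ((‖(f : ℝ → ℂ) a‖ ^ 2 : ℝ) : ℂ) := by
    refine integral_congr_ae (Filter.Eventually.of_forall fun x => ?_)
    show ⟪(f : ℝ → ℂ) x, (f : ℝ → ℂ) x⟫_ℂ = ((‖(f : ℝ → ℂ) x‖ ^ 2 : ℝ) : ℂ)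
    rw [inner_self_eq_norm_sq_to_K]
    push_cast
    rfl
  rw [h2, integral_complex_ofReal] at h1
  exact_mod_cast h1

/-- products `U(x) g(P)` with `U` in `L²` are Hilbert-Schmidt operators -/
theorem exists_prod (hM : MultPointStmt) (g : ℝ → ℝ) (hg : Continuous g) (hgs : HasCompactSupport g)
    (N0 : L2R →L[ℂ] L2R) (hN : IsMultiplier g N0) (U : ℝ → ℝ) (hU : Measurable U)
    (hUi : Integrable (fun x => U x ^ 2) volume) :
    ∃ Y : L2R →L[ℂ] L2R, IsProd U N0 Y ∧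
      ∀ b : HilbertBasis ℕ ℂ L2R, HasSum (fun i => ‖Y (b i)‖ ^ 2) ((∫ ξ, g ξ ^ 2) * ∫ x, U x ^ 2) := by
  obtain ⟨hpt, hsum⟩ := hM g hg hgs N0 hN
  set G : ℝ := ∫ ξ, g ξ ^ 2 with hG
  have hG0 : 0 ≤ G := integral_nonneg fun x => sq_nonneg _
  have hUL : MemLp U 2 (volume : Measure ℝ) :=
    (memLp_two_iff_integrable_sq hU.aestronglyMeasurable).2 hUi
  have hF : ∀ f : L2R, MemLp (fun x => (U x : ℂ) * ((N0 f : L2R) : ℝ → ℂ) x) 2 volume := by
    intro f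
    refine hUL.of_le_mul (c := Real.sqrt G * ‖f‖) ?_ ?_
    · exact (Complex.continuous_ofReal.measurable.comp hU).aestronglyMeasurable.mul
        (Lp.aestronglyMeasurable _)
    · filter_upwards [hpt f] with x hx
      rw [norm_mul, Complex.norm_real, mul_comm]
      exact mul_le_mul_of_nonneg_right hx (norm_nonneg _)
  let Y0 : L2R →ₗ[ℂ] L2R :=
    { toFun := fun f => (hF f).toLp _
      map_add' := by
        intro f f'
        rw [← MemLp.toLp_add]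
        apply (MemLp.toLp_eq_toLp_iff _ _).2
        rw [map_add]
        filter_upwards [Lp.coeFn_add (N0 f) (N0 f')] with x hx
        show (U x : ℂ) * ((N0 f + N0 f' : L2R) : ℝ → ℂ) x =
          (U x : ℂ) * ((N0 f : L2R) : ℝ → ℂ) x + (U x : ℂ) * ((N0 f' : L2R) : ℝ → ℂ) x
        rw [hx, Pi.add_apply, mul_add]
      map_smul' := by
        intro c f
        rw [RingHom.id_apply, ← MemLp.toLp_const_smul]
        apply (MemLp.toLp_eq_toLp_iff _ _).2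
        rw [map_smul]
        filter_upwards [Lp.coeFn_smul c (N0 f)] with x hx
        show (U x : ℂ) * ((c • N0 f : L2R) : ℝ → ℂ) x =
          c • ((U x : ℂ) * ((N0 f : L2R) : ℝ → ℂ) x)
        rw [hx, Pi.smul_apply, smul_eq_mul, smul_eq_mul]
        ring }
  have hY0 : ∀ f : L2R, ((Y0 f : L2R) : ℝ → ℂ) =ᵐ[volume]
      fun x => (U x : ℂ) * ((N0 f : L2R) : ℝ → ℂ) x := fun f => (hF f).coeFn_toLp
  have hbound : ∀ f : L2R, ‖Y0 f‖ ≤ (Real.sqrt G * ‖hUL.toLp U‖) * ‖f‖ := by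
    intro f
    have h1 : ‖Y0 f‖ ≤ (Real.sqrt G * ‖f‖) * ‖hUL.toLp U‖ := by
      apply Lp.norm_le_mul_norm_of_ae_le_mul
      filter_upwards [hY0 f, hUL.coeFn_toLp, hpt f] with x h1 h2 h3
      rw [h1, h2, norm_mul, Complex.norm_real, mul_comm]
      exact mul_le_mul_of_nonneg_right h3 (norm_nonneg _)
    refine h1.trans (le_of_eq ?_)
    ring
  refine ⟨Y0.mkContinuous _ hbound, fun f => hY0 f, fun b => ?_⟩
  have hYi : ∀ i, ((Y0 (b i) : L2R) : ℝ → ℂ) =ᵐ[volume]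
      fun x => (U x : ℂ) * ((N0 (b i) : L2R) : ℝ → ℂ) x := fun i => hY0 (b i)
  set F : ℕ → ℝ → ℝ := fun i x => U x ^ 2 * ‖((N0 (b i) : L2R) : ℝ → ℂ) x‖ ^ 2 with hFdef
  have hFae : ∀ i, (fun x => ‖((Y0 (b i) : L2R) : ℝ → ℂ) x‖ ^ 2) =ᵐ[volume] F i := by
    intro i
    filter_upwards [hYi i] with x hx
    rw [hx, norm_mul, mul_pow, Complex.norm_real, Real.norm_eq_abs, sq_abs]
  have hFint : ∀ i, Integrable (F i) volume := by
    intro i
    have h1 := (memLp_two_iff_integrable_sq_norm (Lp.aestronglyMeasurable (Y0 (b i)))).1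
      (Lp.memLp (Y0 (b i)))
    exact h1.congr (hFae i)
  have hFnn : ∀ i x, 0 ≤ F i x := fun i x => by
    rw [hFdef]
    positivity
  have hval : ∀ i, ∫ x, F i x = ‖Y0 (b i)‖ ^ 2 := by
    intro i
    rw [ep_nsq]
    exact (integral_congr_ae (hFae i)).symm
  have hsumF : Summable (fun i => ∫ x, ‖F i x‖) := by
    refine summable_of_sum_le (c := ∫ x, U x ^ 2 * G) (fun i => integral_nonneg fun x =>
      norm_nonneg _) (fun s => ?_)
    rw [← integral_finsetSum s (fun i _ => (hFint i).norm)]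
    refine integral_mono_ae (integrable_finsetSum s (fun i _ => (hFint i).norm))
      (hUi.mul_const G) ?_
    filter_upwards [hsum b] with x hx
    have h1 : ∑ i ∈ s, ‖F i x‖ = U x ^ 2 * ∑ i ∈ s, ‖((N0 (b i) : L2R) : ℝ → ℂ) x‖ ^ 2 := by
      rw [Finset.mul_sum]
      refine Finset.sum_congr rfl (fun i _ => ?_)
      rw [Real.norm_of_nonneg (hFnn i x)]
    show ∑ i ∈ s, ‖F i x‖ ≤ U x ^ 2 * G
    rw [h1]
    exact mul_le_mul_of_nonneg_left (sum_le_hasSum s (fun i _ => sq_nonneg _) hx) (sq_nonneg _)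
  have hmain := hasSum_integral_of_summable_integral_norm hFint hsumF
  have hlim : ∫ x, ∑' i, F i x = G * ∫ x, U x ^ 2 := by
    rw [mul_comm, ← integral_mul_const]
    refine integral_congr_ae ?_
    filter_upwards [hsum b] with x hx
    exact (hx.mul_left (U x ^ 2)).tsum_eq
  rw [hlim] at hmain
  have h2 : (fun i => ∫ x, F i x) = fun i => ‖Y0.mkContinuous _ hbound (b i)‖ ^ 2 := by
    funext i
    rw [hval i]
    rfl
  rw [← h2]
  exact hmain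

end Pool.Agent.Helper209.PL.QH2
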