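import Pool.Agent.Helper209.PL.Defs
import Pool.Agent.Helper209.PL.NDefs

set_option autoImplicit false

namespace Pool.Agent.Helper209.PL.QH3

open MeasureTheory Set
open scoped SchwartzMap InnerProductSpace FourierTransform








/-- `N0` is the Fourier multiplier with symbol `g` -/
def IsMultiplier (g : ℝ → ℝ) (N0 : L2R →L[ℂ] L2R) : Prop :=
  ∀ f : L2R, ((𝓕 (N0 f) : L2R) : ℝ → ℂ) =ᵐ[volume] (fun ξ => (g ξ : ℂ) * ((𝓕 f : L2R) : ℝ → ℂ) ξ)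

/-- proved elsewhere, use as hypothesis -/
def MultPointStmt : Prop := ∀ (g : ℝ → ℝ), Continuous g → HasCompactSupport g → ∀ (N0 : L2R →L[ℂ] L2R),
    IsMultiplier g N0 →
    (∀ f : L2R, ∀ᵐ x : ℝ, ‖((N0 f : L2R) : ℝ → ℂ) x‖ ≤ Real.sqrt (∫ ξ, g ξ ^ 2) * ‖f‖) ∧
    (∀ b : HilbertBasis ℕ ℂ L2R, ∀ᵐ x : ℝ, HasSum (fun i => ‖((N0 (b i) : L2R) : ℝ → ℂ) x‖ ^ 2) (∫ ξ, g ξ ^ 2))

/-- `W` is the product of the multiplication by `v` and the operator `Q` -/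
def IsProd (v : ℝ → ℝ) (Q W : L2R →L[ℂ] L2R) : Prop :=
  ∀ f : L2R, ((W f : L2R) : ℝ → ℂ) =ᵐ[volume] (fun x => (v x : ℂ) * ((Q f : L2R) : ℝ → ℂ) x)

/-- proved elsewhere, use as hypothesis -/
def ExistsProdStmt : Prop := ∀ (g : ℝ → ℝ), Continuous g → HasCompactSupport g → ∀ (N0 : L2R →L[ℂ] L2R),
    IsMultiplier g N0 → ∀ (U : ℝ → ℝ), Measurable U → Integrable (fun x => U x ^ 2) volume →
    ∃ Y : L2R →L[ℂ] L2R, IsProd U N0 Y ∧
      ∀ b : HilbertBasis ℕ ℂ L2R, HasSum (fun i => ‖Y (b i)‖ ^ 2) ((∫ ξ, g ξ ^ 2) * ∫ x, U x ^ 2)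

/-- proved elsewhere, use as hypothesis -/
def HsIndepStmt : Prop := ∀ {H : Type} [NormedAddCommGroup H] [InnerProductSpace ℂ H] [CompleteSpace H]
    (b b' : HilbertBasis ℕ ℂ H) (X A : H →L[ℂ] H) (s : ℝ), HasSum (fun i => ‖X (b i)‖ ^ 2) s →
    HasSum (fun i => ‖X (b' i)‖ ^ 2) s ∧ HasSum (fun i => ‖ContinuousLinearMap.adjoint X (b i)‖ ^ 2) s ∧
    (∃ s' : ℝ, s' ≤ ‖A‖ ^ 2 * s ∧ HasSum (fun i => ‖A (X (b i))‖ ^ 2) s') ∧
    (∃ s' : ℝ, s' ≤ ‖A‖ ^ 2 * s ∧ HasSum (fun i => ‖X (A (b i))‖ ^ 2) s')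

/-- proved elsewhere, use as hypothesis -/
def HsCyclicStmt : Prop := ∀ {H : Type} [NormedAddCommGroup H] [InnerProductSpace ℂ H] [CompleteSpace H]
    (b : HilbertBasis ℕ ℂ H) (X Y : H →L[ℂ] H), Summable (fun i => ‖X (b i)‖ ^ 2) →
    Summable (fun i => ‖Y (b i)‖ ^ 2) →
    Summable (fun j => ⟪Y (b j), X (b j)⟫_ℂ) ∧
    HasSum (fun i => ⟪ContinuousLinearMap.adjoint X (b i), ContinuousLinearMap.adjoint Y (b i)⟫_ℂ)
      (∑' j, ⟪Y (b j), X (b j)⟫_ℂ)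

/-- localised trace of `g(P) V(x)`, `g = g₀²` -/
theorem prod_trace (hM : MultPointStmt) (hE : ExistsProdStmt) (hI : HsIndepStmt) (hC : HsCyclicStmt)
    (g : ℝ → ℝ) (hg : Continuous g) (hgs : HasCompactSupport g)
    (G : L2R →L[ℂ] L2R) (hG : IsMultiplier g G) (hGs : IsSelfAdjoint G) (V : ℝ → ℝ) (hV : Measurable V)
    (hVi : Integrable (fun x => V x ^ 2) volume) (θ : ℝ → ℝ) (hθ : Continuous θ) (hθs : HasCompactSupport θ)
    (Θ W : L2R →L[ℂ] L2R) (hΘ : IsMul θ Θ) (hΘs : IsSelfAdjoint Θ) (hW : IsProd V (G.comp G) W)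
    (b : HilbertBasis ℕ ℂ L2R) :
    (∃ X Y : L2R →L[ℂ] L2R, Summable (fun i => ‖X (b i)‖ ^ 2) ∧ Summable (fun i => ‖Y (b i)‖ ^ 2) ∧
      Θ.comp ((ContinuousLinearMap.adjoint W).comp Θ) = (ContinuousLinearMap.adjoint X).comp Y) ∧
    HasSum (fun i => ⟪Θ (b i), ContinuousLinearMap.adjoint W (Θ (b i))⟫_ℂ)
      (((∫ ξ, g ξ ^ 2) * ∫ x, θ x ^ 2 * V x : ℝ) : ℂ) := by
  have hθi : Integrable (fun x => θ x ^ 2) volume := by
    refine Continuous.integrable_of_hasCompactSupport (hθ.pow 2) ?_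
    exact hθs.comp_left (g := fun y => y ^ 2) (by norm_num)
  obtain ⟨Y0, hY0, hY0s⟩ := hE g hg hgs G hG V hV hVi
  obtain ⟨Z, hZ, hZs⟩ := hE g hg hgs G hG θ hθ.measurable hθi
  have hWeq : W = Y0.comp G := by
    ext1 f
    apply Lp.ext
    have h1 := hW f
    have h2 := hY0 (G f)
    filter_upwards [h1, h2] with x h1 h2
    rw [ContinuousLinearMap.comp_apply]
    rw [h1, h2]
    rfl
  have hZeq : Z = Θ.comp G := by
    ext1 f
    apply Lp.ext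
    have h1 := hZ f
    have h2 := hΘ (G f)
    filter_upwards [h1, h2] with x h1 h2
    rw [ContinuousLinearMap.comp_apply]
    rw [h1, h2]
  set A : L2R →L[ℂ] L2R := Θ.comp Y0 with hA
  have hGa : ContinuousLinearMap.adjoint G = G := hGs
  have hΘa : ContinuousLinearMap.adjoint Θ = Θ := hΘs
  obtain ⟨sA, _, hAs⟩ := (hI b b Y0 Θ _ (hY0s b)).2.2.1
  have hAs' : HasSum (fun i => ‖A (b i)‖ ^ 2) sA := hAs
  have hAadj := (hI b b A A sA hAs').2.1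
  have hZadj := (hI b b Z Z _ (hZs b)).2.1
  have hfac : Θ.comp ((ContinuousLinearMap.adjoint W).comp Θ) =
      Z.comp (ContinuousLinearMap.adjoint A) := by
    rw [hWeq, hZeq, hA, ContinuousLinearMap.adjoint_comp, ContinuousLinearMap.adjoint_comp,
      hGa, hΘa]
    rfl
  refine ⟨⟨ContinuousLinearMap.adjoint Z, ContinuousLinearMap.adjoint A, hZadj.summable,
    hAadj.summable, ?_⟩, ?_⟩
  · rw [ContinuousLinearMap.adjoint_adjoint]
    exact hfac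
  · have hcyc := (hC b Z A (hZs b).summable hAs'.summable).2
    have e1 : (fun i => ⟪Θ (b i), ContinuousLinearMap.adjoint W (Θ (b i))⟫_ℂ) =
        fun i => ⟪ContinuousLinearMap.adjoint Z (b i), ContinuousLinearMap.adjoint A (b i)⟫_ℂ := by
      funext i
      have h1 : ⟪Θ (b i), ContinuousLinearMap.adjoint W (Θ (b i))⟫_ℂ =
          ⟪b i, Θ (ContinuousLinearMap.adjoint W (Θ (b i)))⟫_ℂ := by
        conv_lhs => rw [← hΘa]
        rw [ContinuousLinearMap.adjoint_inner_left, hΘa]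
      have h2 : Θ (ContinuousLinearMap.adjoint W (Θ (b i))) =
          Z (ContinuousLinearMap.adjoint A (b i)) := by
        have := congrArg (fun T : L2R →L[ℂ] L2R => T (b i)) hfac
        exact this
      rw [h1, h2, ContinuousLinearMap.adjoint_inner_left]
    rw [e1]
    have hnorm : ∀ f : L2R, ∫ x, ‖((f : L2R) : ℝ → ℂ) x‖ ^ 2 = ‖f‖ ^ 2 := by
      intro f
      have h1 : ⟪f, f⟫_ℂ = ∫ x, ⟪((f : L2R) : ℝ → ℂ) x, ((f : L2R) : ℝ → ℂ) x⟫_ℂ :=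
        MeasureTheory.L2.inner_def f f
      rw [inner_self_eq_norm_sq_to_K] at h1
      have h2 : ∀ x, ⟪((f : L2R) : ℝ → ℂ) x, ((f : L2R) : ℝ → ℂ) x⟫_ℂ =
          ((‖((f : L2R) : ℝ → ℂ) x‖ ^ 2 : ℝ) : ℂ) := by
        intro x
        rw [inner_self_eq_norm_sq_to_K]
        push_cast
        rfl
      simp only [h2] at h1
      rw [integral_complex_ofReal] at h1
      have h3 : ((‖f‖ ^ 2 : ℝ) : ℂ) = ((∫ x, ‖((f : L2R) : ℝ → ℂ) x‖ ^ 2 : ℝ) : ℂ) := by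
        rw [← h1]
        push_cast
        rfl
      exact (Complex.ofReal_injective h3).symm
    have hnormi : ∀ f : L2R, Integrable (fun x => ‖((f : L2R) : ℝ → ℂ) x‖ ^ 2) volume := by
      intro f
      have h1 := (MeasureTheory.L2.integrable_inner (𝕜 := ℂ) f f).re
      refine h1.congr ?_
      filter_upwards with x
      rw [inner_self_eq_norm_sq_to_K]
      simp
      norm_cast
    have hF_int : ∀ j, Integrable (fun x => ⟪((A (b j) : L2R) : ℝ → ℂ) x,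
        ((Z (b j) : L2R) : ℝ → ℂ) x⟫_ℂ) volume := fun j =>
      MeasureTheory.L2.integrable_inner (𝕜 := ℂ) (A (b j)) (Z (b j))
    have hF_sum : Summable (fun j => ∫ x, ‖⟪((A (b j) : L2R) : ℝ → ℂ) x,
        ((Z (b j) : L2R) : ℝ → ℂ) x⟫_ℂ‖) := by
      refine Summable.of_nonneg_of_le (fun j => integral_nonneg fun x => norm_nonneg _)
        (fun j => ?_) ((hAs'.summable.add (hZs b).summable).mul_left (1 / 2))
      calc ∫ x, ‖⟪((A (b j) : L2R) : ℝ → ℂ) x, ((Z (b j) : L2R) : ℝ → ℂ) x⟫_ℂ‖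
          ≤ ∫ x, (1 / 2) * (‖((A (b j) : L2R) : ℝ → ℂ) x‖ ^ 2
              + ‖((Z (b j) : L2R) : ℝ → ℂ) x‖ ^ 2) := by
            refine integral_mono (hF_int j).norm
              (((hnormi (A (b j))).add (hnormi (Z (b j)))).const_mul (1 / 2)) ?_
            intro x
            have h1 := norm_inner_le_norm (𝕜 := ℂ) (((A (b j) : L2R) : ℝ → ℂ) x)
              (((Z (b j) : L2R) : ℝ → ℂ) x)
            have h2 := two_mul_le_add_sq ‖((A (b j) : L2R) : ℝ → ℂ) x‖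
              ‖((Z (b j) : L2R) : ℝ → ℂ) x‖
            simp only
            linarith
        _ = (1 / 2) * (‖A (b j)‖ ^ 2 + ‖Z (b j)‖ ^ 2) := by
            rw [integral_const_mul, integral_add (hnormi _) (hnormi _), hnorm, hnorm]
    have hsum := hasSum_integral_of_summable_integral_norm hF_int hF_sum
    have hinner : ∀ j, ∫ x, ⟪((A (b j) : L2R) : ℝ → ℂ) x, ((Z (b j) : L2R) : ℝ → ℂ) x⟫_ℂ =
        ⟪A (b j), Z (b j)⟫_ℂ := fun j => (MeasureTheory.L2.inner_def (𝕜 := ℂ) _ _).symm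
    simp only [hinner] at hsum
    have hval : ∫ x, ∑' j, ⟪((A (b j) : L2R) : ℝ → ℂ) x, ((Z (b j) : L2R) : ℝ → ℂ) x⟫_ℂ =
        (((∫ ξ, g ξ ^ 2) * ∫ x, θ x ^ 2 * V x : ℝ) : ℂ) := by
      have hae : ∀ᵐ x : ℝ, ∑' j, ⟪((A (b j) : L2R) : ℝ → ℂ) x, ((Z (b j) : L2R) : ℝ → ℂ) x⟫_ℂ =
          (((∫ ξ, g ξ ^ 2) * (θ x ^ 2 * V x) : ℝ) : ℂ) := by
        have a1 : ∀ᵐ x : ℝ, ∀ j, ((A (b j) : L2R) : ℝ → ℂ) x =
            (θ x : ℂ) * ((Y0 (b j) : L2R) : ℝ → ℂ) x :=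
          ae_all_iff.2 fun j => hΘ (Y0 (b j))
        have a2 : ∀ᵐ x : ℝ, ∀ j, ((Y0 (b j) : L2R) : ℝ → ℂ) x =
            (V x : ℂ) * ((G (b j) : L2R) : ℝ → ℂ) x := ae_all_iff.2 fun j => hY0 (b j)
        have a3 : ∀ᵐ x : ℝ, ∀ j, ((Z (b j) : L2R) : ℝ → ℂ) x =
            (θ x : ℂ) * ((G (b j) : L2R) : ℝ → ℂ) x := ae_all_iff.2 fun j => hZ (b j)
        have a4 := (hM g hg hgs G hG).2 b
        filter_upwards [a1, a2, a3, a4] with x a1 a2 a3 a4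
        have h1 : ∀ j, ⟪((A (b j) : L2R) : ℝ → ℂ) x, ((Z (b j) : L2R) : ℝ → ℂ) x⟫_ℂ =
            ((θ x ^ 2 * V x * ‖((G (b j) : L2R) : ℝ → ℂ) x‖ ^ 2 : ℝ) : ℂ) := by
          intro j
          rw [a1, a2, a3, RCLike.inner_apply]
          have h2 : (((‖((G (b j) : L2R) : ℝ → ℂ) x‖ ^ 2 : ℝ)) : ℂ) =
              ((G (b j) : L2R) : ℝ → ℂ) x * (starRingEnd ℂ) (((G (b j) : L2R) : ℝ → ℂ) x) := by
            rw [Complex.mul_conj, Complex.normSq_eq_norm_sq]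
          rw [Complex.ofReal_mul, h2]
          simp only [map_mul, Complex.conj_ofReal]
          push_cast
          ring
        have h3 : HasSum (fun j => θ x ^ 2 * V x * ‖((G (b j) : L2R) : ℝ → ℂ) x‖ ^ 2)
            (θ x ^ 2 * V x * ∫ ξ, g ξ ^ 2) := a4.mul_left _
        have h4 := (Complex.hasSum_ofReal).2 h3
        simp only [h1]
        rw [h4.tsum_eq]
        congr 1
        ring
      rw [integral_congr_ae hae, integral_complex_ofReal, integral_const_mul]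
    rw [hval] at hsum
    rw [← hsum.tsum_eq]
    exact hcyc

end Pool.Agent.Helper209.PL.QH3
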