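import Pool.Agent.Helper209.PL.Defs
import Pool.Agent.Helper209.PL.NDefs

set_option autoImplicit false

namespace Pool.Agent.Helper209.PL.QI

open MeasureTheory Set
open scoped SchwartzMap InnerProductSpace FourierTransform




theorem negPow_fun_eq {a s : ℝ} (ha : 0 < a) (hs : 0 < s) (r : ℝ) :
    (if 0 < r then (max (a - 1 / r) 0) ^ s else 0) =
      (max (a - 1 / (max r (1 / (2 * a)))) 0) ^ s := by
  have h2a : (0 : ℝ) < 1 / (2 * a) := by positivity
  rcases le_or_gt (1 / (2 * a)) r with h | h
  · rw [if_pos (h2a.trans_le h), max_eq_left h]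
  · rw [max_eq_right h.le]
    have e1 : a - 1 / (1 / (2 * a)) = -a := by
      rw [one_div_one_div]; ring
    have e2 : max (-a) 0 = 0 := max_eq_right (by linarith)
    rw [e1, e2, Real.zero_rpow hs.ne']
    split_ifs with h0
    · have h3 : 2 * a < 1 / r := by
        rw [lt_div_iff₀ h0]
        rw [lt_div_iff₀ (by positivity)] at h
        linarith
      rw [max_eq_right (by linarith), Real.zero_rpow hs.ne']
    · rfl

theorem negPow_cont {a s : ℝ} (ha : 0 < a) (hs : 0 < s) :
    Continuous fun r : ℝ => if 0 < r then (max (a - 1 / r) 0) ^ s else 0 := by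
  have e : (fun r : ℝ => if 0 < r then (max (a - 1 / r) 0) ^ s else 0) =
      fun r => (max (a - 1 / (max r (1 / (2 * a)))) 0) ^ s := funext fun r => negPow_fun_eq ha hs r
  rw [e]
  apply Continuous.rpow_const
  · apply Continuous.max _ continuous_const
    apply Continuous.sub continuous_const
    apply Continuous.div continuous_const (by fun_prop)
    intro r
    exact (lt_of_lt_of_le (by positivity) (le_max_right r (1 / (2 * a)))).ne'
  · intro r
    exact Or.inr hs.le

/-- powers multiply -/
theorem negPow_sq {H : Type} [NormedAddCommGroup H] [InnerProductSpace ℂ H] [CompleteSpace H]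
    (s μ c : ℝ) (hs : 0 < s) (hμc : 0 < μ + c) (R : H →L[ℂ] H) (hR : IsSelfAdjoint R) :
    (negPow s μ c R).comp (negPow s μ c R) = negPow (2 * s) μ c R ∧ IsSelfAdjoint (negPow s μ c R) := by
  constructor
  · have hc := negPow_cont hμc hs
    have h1 := cfc_mul (fun r : ℝ => if 0 < r then (max (μ + c - 1 / r) 0) ^ s else 0)
      (fun r : ℝ => if 0 < r then (max (μ + c - 1 / r) 0) ^ s else 0) R
      hc.continuousOn hc.continuousOn
    have h2 : (fun r : ℝ => (if 0 < r then (max (μ + c - 1 / r) 0) ^ s else 0) *
        (if 0 < r then (max (μ + c - 1 / r) 0) ^ s else 0)) =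
        fun r : ℝ => if 0 < r then (max (μ + c - 1 / r) 0) ^ (2 * s) else 0 := by
      funext r
      split_ifs with h
      · rw [← Real.rpow_add_of_nonneg (le_max_right _ _) hs.le hs.le, two_mul]
      · simp
    rw [h2] at h1
    exact h1.symm
  · exact cfc_predicate _ _

end Pool.Agent.Helper209.PL.QI
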