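import Pool.Agent.Helper209.PL.Main8
import Pool.Agent.Helper209.PL.MainM2
import Pool.Agent.Helper209.PL.QF1
import Pool.Agent.Helper209.PL.QF2
import Pool.Agent.Helper209.PL.QF3
import Pool.Agent.Helper209.PL.QF4
import Pool.Agent.Helper209.PL.QG
import Pool.Agent.Helper209.PL.QI
import Pool.Agent.Helper209.PL.QH1
import Pool.Agent.Helper209.PL.QH2
import Pool.Agent.Helper209.PL.QH3

set_option autoImplicit false

namespace Pool.Agent.Helper209.PL

open MeasureTheory Set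
open scoped SchwartzMap InnerProductSpace FourierTransform

/-! ### resolvents of operators with `L²` potentials -/

theorem l2B : QF4.L2BoundsStmt := fun V hV hVi B c hB0 hB hc χ w hw =>
  QF2.l2_bounds (fun c hc χ w hw => QF1.free_bounds c hc χ w hw) V hV hVi B c hB0 hB hc χ w hw

theorem l2D : QF4.L2DenseStmt := fun V hV hVi B c hB0 hB hc f ε hε =>
  QF3.l2_dense (fun c hc χ w hw => QF1.free_bounds c hc χ w hw) (fun c hc g => Res1.free_solve c hc g)
    V hV hVi B c hB0 hB hc f ε hε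

theorem l2Q : QF4.FormBoundStmt := fun V hV hVi B c hB0 hB hc χ => QF1.form_bound V hV hVi B c hB0 hB hc χ

theorem nuc_norm {H : Type} [NormedAddCommGroup H] [InnerProductSpace ℂ H] [CompleteSpace H]
    (D T : H →L[ℂ] H) (N : ℝ) (h : Nuc D T N) : ‖T‖ ≤ N * ‖D‖ := by
  obtain ⟨A, B, s, h1, h2, h3⟩ := h
  have h4 : ∀ k, ‖(A k).comp (D.comp (B k))‖ ≤ s k * ‖D‖ := by
    intro k
    calc ‖(A k).comp (D.comp (B k))‖ ≤ ‖A k‖ * ‖D.comp (B k)‖ := ContinuousLinearMap.opNorm_comp_le _ _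
      _ ≤ ‖A k‖ * (‖D‖ * ‖B k‖) := by
          gcongr
          exact ContinuousLinearMap.opNorm_comp_le _ _
      _ = (‖A k‖ * ‖B k‖) * ‖D‖ := by ring
      _ ≤ s k * ‖D‖ := mul_le_mul_of_nonneg_right (h1 k) (norm_nonneg _)
  rw [← h3.tsum_eq]
  exact tsum_of_norm_bounded (h2.mul_right ‖D‖) h4

/-- bound for localised traces, potentials in `L²` -/
theorem local_bound3 (γ : ℝ) (hγ : 1 < γ) : ∃ C : ℝ, 0 < C ∧ ∀ (μ : ℝ), 0 < μ →
    ∀ (V : ℝ → ℝ), Measurable V → Integrable (fun x => V x ^ 2) volume → Integrable (fun x => FF γ μ (V x)) volume →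
    ∀ c : ℝ, 16 * (Real.sqrt (2 * (∫ x, V x ^ 2) + 2) + 1) ^ 2 ≤ c → ∀ (ε : ℝ), 0 < ε → ∃ ρ0 : ℝ, 0 < ρ0 ∧
    ∀ ρ : ℝ, ρ0 ≤ ρ → ∀ (R : L2R →L[ℂ] L2R), IsResolvent V c R →
      ∀ (Θ : L2R →L[ℂ] L2R), IsMul (cutoff ρ) Θ → ∀ (e : HilbertBasis ℕ ℂ L2R) (J : Finset ℕ),
        ∑ i ∈ J, (⟪Θ (e i), negPow γ μ c R (Θ (e i))⟫_ℂ).re
          ≤ C * (∫ x, FF γ μ (V x)) + ε
            + ((1 / (2 * Real.pi)) * ∫ p : ℝ, (max (μ - p ^ 2) 0) ^ γ) * (∫ x, cutoff ρ x ^ 2)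
            - γ * (((1 / (2 * Real.pi)) * ∫ p : ℝ, (max (μ - p ^ 2) 0) ^ (γ - 1)) * ∫ x, cutoff ρ x ^ 2 * V x) := by
  obtain ⟨C, hC, hloc⟩ := local_bound2 γ hγ
  obtain ⟨C2, hC2, hFF⟩ := FFB.ff_bounds γ hγ
  refine ⟨C, hC, ?_⟩
  intro μ hμ V hV hVi hFi c hc ε hε
  have hV0 : 0 ≤ ∫ x, V x ^ 2 := integral_nonneg (fun x => sq_nonneg _)
  set B : ℝ := Real.sqrt (2 * (∫ x, V x ^ 2) + 2) with hB
  have hB0 : 0 ≤ B := Real.sqrt_nonneg _
  have hB2 : B ^ 2 = 2 * (∫ x, V x ^ 2) + 2 := Real.sq_sqrt (by positivity)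
  have hc16 : 16 ≤ c := by nlinarith
  have hc0 : 0 < c := by linarith
  have hFn : ∀ x, 0 ≤ FF γ μ (V x) := fun x => (hFF μ hμ (V x)).1
  set F : ℝ := (∫ x, FF γ μ (V x)) + 1 with hF
  have hF0 : 0 ≤ F := by
    have : 0 ≤ ∫ x, FF γ μ (V x) := integral_nonneg hFn
    linarith
  obtain ⟨ρ0, hρ0, hb⟩ := hloc μ hμ B F c 1 ε hB0 hF0 hc0 one_pos hε
  refine ⟨ρ0, hρ0, ?_⟩
  intro ρ hρ R hR Θ hΘ e J
  have hρpos : 0 < ρ := lt_of_lt_of_le hρ0 hρ
  obtain ⟨hcC, -, hcs, hc01, -, -, -, -⟩ := Cut.cutoff_facts ρ hρpos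
  have hVB : (∫ x, V x ^ 2) ≤ B ^ 2 := by rw [hB2]; linarith
  obtain ⟨-, hRn, hRs, -⟩ := QF4.l2_props V hV hVi B c hB0 hVB hc l2B l2D l2Q R hR
  -- approximating potentials
  choose W hWc hWs hWV hWF using fun n : ℕ => QG.approx_l2 γ μ hγ hμ V hV hVi hFi (1 / ((n : ℝ) + 1)) (by positivity)
  have hn1 : ∀ n : ℕ, 1 / ((n : ℝ) + 1) ≤ 1 := fun n => by
    rw [div_le_one (by positivity)]
    have : (0 : ℝ) ≤ n := Nat.cast_nonneg n
    linarith
  have hWi : ∀ n, Integrable (fun x => W n x ^ 2) volume := fun n =>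
    Continuous.integrable_of_hasCompactSupport (f := fun x => W n x ^ 2) ((hWc n).pow 2)
      ((hWs n).comp_left (g := fun y : ℝ => y ^ 2) (by simp))
  have hVWi : ∀ n, Integrable (fun x => (V x - W n x) ^ 2) volume := by
    intro n
    have h1 : MemLp V 2 volume := (memLp_two_iff_integrable_sq hV.aestronglyMeasurable).2 hVi
    have h2 : MemLp (W n) 2 volume := (memLp_two_iff_integrable_sq (hWc n).aestronglyMeasurable).2 (hWi n)
    exact (memLp_two_iff_integrable_sq (hV.sub (hWc n).measurable).aestronglyMeasurable).1 (h1.sub h2)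
  have hWB : ∀ n, (∫ x, W n x ^ 2) ≤ B ^ 2 := by
    intro n
    rw [hB2]
    calc (∫ x, W n x ^ 2) ≤ ∫ x, (2 * V x ^ 2 + 2 * (V x - W n x) ^ 2) := by
          refine integral_mono (hWi n) ((hVi.const_mul 2).add ((hVWi n).const_mul 2)) (fun x => ?_)
          show W n x ^ 2 ≤ 2 * V x ^ 2 + 2 * (V x - W n x) ^ 2
          nlinarith [sq_nonneg (2 * V x - W n x)]
      _ = 2 * (∫ x, V x ^ 2) + 2 * ∫ x, (V x - W n x) ^ 2 := by
          rw [integral_add (hVi.const_mul 2) ((hVWi n).const_mul 2), integral_const_mul, integral_const_mul]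
      _ ≤ 2 * (∫ x, V x ^ 2) + 2 := by
          have := (hWV n).trans (hn1 n)
          linarith
  have hWFF : ∀ n, (∫ x, FF γ μ (W n x)) ≤ F := fun n => (hWF n).trans (by
    rw [hF]; linarith [hn1 n])
  choose S hS using fun n => QF4.l2_exists (W n) (hWc n).measurable (hWi n) B c hB0 (hWB n) hc l2B l2D
  have hSp := fun n => QF4.l2_props (W n) (hWc n).measurable (hWi n) B c hB0 (hWB n) hc l2B l2D l2Q (S n) (hS n)
  have hbd : ∀ n, ∑ i ∈ J, (⟪Θ (e i), negPow γ μ c (S n) (Θ (e i))⟫_ℂ).re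
          ≤ C * (∫ x, FF γ μ (W n x)) + ε
            + ((1 / (2 * Real.pi)) * ∫ p : ℝ, (max (μ - p ^ 2) 0) ^ γ) * (∫ x, cutoff ρ x ^ 2)
            - γ * (((1 / (2 * Real.pi)) * ∫ p : ℝ, (max (μ - p ^ 2) 0) ^ (γ - 1)) * ∫ x, cutoff ρ x ^ 2 * W n x) := by
    intro n
    refine hb ρ hρ (W n) (hWc n) (hWs n) (hWB n) (hWFF n) ?_ ?_ (S n) (hS n) (hSp n).2.2.1 Θ hΘ e J
    · intro f ε hε
      exact l2D (W n) (hWc n).measurable (hWi n) B c hB0 (hWB n) hc f ε hε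
    · intro χ w hw x
      rw [one_mul]
      exact (l2B (W n) (hWc n).measurable (hWi n) B c hB0 (hWB n) hc χ w hw).1 x
  -- convergence of the resolvents
  generalize hQQ : (∫ x, cutoff ρ x ^ 2) = Q at hbd ⊢
  generalize hAA : ((1 / (2 * Real.pi)) * ∫ p : ℝ, (max (μ - p ^ 2) 0) ^ γ) = A0 at hbd ⊢
  generalize hBB : ((1 / (2 * Real.pi)) * ∫ p : ℝ, (max (μ - p ^ 2) 0) ^ (γ - 1)) = B1 at hbd ⊢
  have hlim0 : Filter.Tendsto (fun n : ℕ => 1 / ((n : ℝ) + 1)) Filter.atTop (nhds 0) :=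
    tendsto_one_div_add_atTop_nhds_zero_nat
  have hlims : Filter.Tendsto (fun n : ℕ => Real.sqrt (1 / ((n : ℝ) + 1))) Filter.atTop (nhds 0) := by
    have := (Real.continuous_sqrt.tendsto 0).comp hlim0
    rw [Real.sqrt_zero] at this
    exact this
  obtain ⟨N, hN0, hN⟩ := diff_unif (H := L2R) γ μ c 1 hγ hμ hc0 one_pos
  have hdiff : ∀ n, ‖negPow γ μ c (S n) - negPow γ μ c R‖ ≤ N * Real.sqrt (1 / ((n : ℝ) + 1)) := by
    intro n
    rw [norm_sub_rev]
    refine (nuc_norm _ _ N (hN R (S n) hRs (hSp n).2.2.1 hRn (hSp n).2.1)).trans ?_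
    refine mul_le_mul_of_nonneg_left ?_ hN0
    refine (QF4.l2_diff V hV hVi B c hB0 hVB hc l2B l2D (W n) (hWc n).measurable (hWi n) (hWB n) R (S n)
      hR (hS n)).trans ?_
    exact Real.sqrt_le_sqrt (hWV n)
  have hlimN : Filter.Tendsto (fun n => negPow γ μ c (S n)) Filter.atTop (nhds (negPow γ μ c R)) := by
    rw [tendsto_iff_norm_sub_tendsto_zero]
    refine squeeze_zero (fun n => norm_nonneg _) hdiff ?_
    simpa using hlims.const_mul N
  have hl1 : Filter.Tendsto (fun n => ∑ i ∈ J, (⟪Θ (e i), negPow γ μ c (S n) (Θ (e i))⟫_ℂ).re) Filter.atTop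
      (nhds (∑ i ∈ J, (⟪Θ (e i), negPow γ μ c R (Θ (e i))⟫_ℂ).re)) := by
    refine tendsto_finsetSum _ (fun i _ => ?_)
    have h1 : Continuous (fun T : L2R →L[ℂ] L2R => (⟪Θ (e i), T (Θ (e i))⟫_ℂ).re) := by
      refine Complex.continuous_re.comp (continuous_const.inner ?_)
      exact (ContinuousLinearMap.apply ℂ L2R (Θ (e i))).continuous
    exact (h1.tendsto _).comp hlimN
  -- convergence of the linear term
  have hθ4 : Integrable (fun x => (cutoff ρ x ^ 2) ^ 2) volume :=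
    Continuous.integrable_of_hasCompactSupport (f := fun x => (cutoff ρ x ^ 2) ^ 2)
      ((hcC.continuous.pow 2).pow 2) (hcs.comp_left (g := fun y : ℝ => (y ^ 2) ^ 2) (by simp))
  have hθV : Integrable (fun x => cutoff ρ x ^ 2 * V x) volume := by
    have h1 : MemLp V 2 volume := (memLp_two_iff_integrable_sq hV.aestronglyMeasurable).2 hVi
    have h2 : MemLp (fun x => cutoff ρ x ^ 2) 2 volume :=
      (memLp_two_iff_integrable_sq (hcC.continuous.pow 2).aestronglyMeasurable).2 hθ4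
    exact MemLp.integrable_mul h2 h1
  have hθW : ∀ n, Integrable (fun x => cutoff ρ x ^ 2 * W n x) volume := by
    intro n
    exact ((hcC.continuous.pow 2).mul (hWc n)).integrable_of_hasCompactSupport (hWs n).mul_left
  have hl2 : Filter.Tendsto (fun n => ∫ x, cutoff ρ x ^ 2 * W n x) Filter.atTop
      (nhds (∫ x, cutoff ρ x ^ 2 * V x)) := by
    rw [tendsto_iff_norm_sub_tendsto_zero]
    set q : ℝ := ∫ x, (cutoff ρ x ^ 2) ^ 2 with hq
    have hest : ∀ n : ℕ, ‖(∫ x, cutoff ρ x ^ 2 * W n x) - ∫ x, cutoff ρ x ^ 2 * V x‖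
        ≤ Real.sqrt (1 / ((n : ℝ) + 1)) * ((q + 1) / 2) := by
      intro n
      rw [← integral_sub (hθW n) hθV]
      set δ : ℝ := Real.sqrt (1 / ((n : ℝ) + 1)) with hδ
      have hδ0 : 0 < δ := Real.sqrt_pos.2 (by positivity)
      have hδ2 : δ ^ 2 = 1 / ((n : ℝ) + 1) := Real.sq_sqrt (by positivity)
      refine (norm_integral_le_integral_norm _).trans ?_
      have h1 : ∀ x, ‖cutoff ρ x ^ 2 * W n x - cutoff ρ x ^ 2 * V x‖
          ≤ (δ / 2) * (cutoff ρ x ^ 2) ^ 2 + (1 / (2 * δ)) * (V x - W n x) ^ 2 := by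
        intro x
        rw [Real.norm_eq_abs, ← mul_sub, abs_mul, abs_sub_comm]
        have e1 : |cutoff ρ x ^ 2| ^ 2 = (cutoff ρ x ^ 2) ^ 2 := sq_abs _
        have e2 : |V x - W n x| ^ 2 = (V x - W n x) ^ 2 := sq_abs _
        rw [← e1, ← e2]
        set a := |cutoff ρ x ^ 2|
        set b := |V x - W n x|
        have h2 : 0 ≤ (δ * a - b) ^ 2 := sq_nonneg _
        have h3 : (δ / 2) * a ^ 2 + (1 / (2 * δ)) * b ^ 2 - a * b = (δ * a - b) ^ 2 / (2 * δ) := by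
          field_simp
          ring
        have h4 : 0 ≤ (δ * a - b) ^ 2 / (2 * δ) := by positivity
        linarith
      calc (∫ x, ‖cutoff ρ x ^ 2 * W n x - cutoff ρ x ^ 2 * V x‖)
          ≤ ∫ x, ((δ / 2) * (cutoff ρ x ^ 2) ^ 2 + (1 / (2 * δ)) * (V x - W n x) ^ 2) := by
            refine integral_mono ((hθW n).sub hθV).norm
              ((hθ4.const_mul _).add ((hVWi n).const_mul _)) (fun x => h1 x)
        _ = (δ / 2) * q + (1 / (2 * δ)) * ∫ x, (V x - W n x) ^ 2 := by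
            rw [integral_add (hθ4.const_mul _) ((hVWi n).const_mul _), integral_const_mul, integral_const_mul]
        _ ≤ (δ / 2) * q + (1 / (2 * δ)) * δ ^ 2 := by
            have := hWV n
            rw [← hδ2] at this
            gcongr
        _ = δ * ((q + 1) / 2) := by
            field_simp
    refine squeeze_zero (fun n => norm_nonneg _) hest ?_
    simpa using hlims.mul_const ((q + 1) / 2)
  -- the limit
  have h5 := fun n => mul_le_mul_of_nonneg_left (hWF n) hC.le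
  generalize (∫ x, FF γ μ (V x)) = IF at h5 ⊢
  have hl3 : Filter.Tendsto (fun n : ℕ => C * (IF + 1 / ((n : ℝ) + 1)) + ε + A0 * Q
            - γ * (B1 * ∫ x, cutoff ρ x ^ 2 * W n x))
      Filter.atTop (nhds (C * (IF + 0) + ε + A0 * Q - γ * (B1 * ∫ x, cutoff ρ x ^ 2 * V x))) := by
    have k1 : Filter.Tendsto (fun n : ℕ => C * (IF + 1 / ((n : ℝ) + 1)) + ε + A0 * Q) Filter.atTop
        (nhds (C * (IF + 0) + ε + A0 * Q)) :=
      (((hlim0.const_add IF).const_mul C).add_const ε).add_const (A0 * Q)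
    exact k1.sub ((hl2.const_mul B1).const_mul γ)
  rw [add_zero] at hl3
  refine le_of_tendsto_of_tendsto' hl1 hl3 (fun n => (hbd n).trans ?_)
  linarith [h5 n]

end Pool.Agent.Helper209.PL
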