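import Pool.Agent.Helper209.PL.Defs

set_option autoImplicit false

namespace Pool.Agent.Helper209.PL.Off

open MeasureTheory Set
open scoped SchwartzMap InnerProductSpace FourierTransform



/-- statements proved elsewhere, usable as hypotheses -/
def WboundStmt : Prop := ∀ (β : ℝ), 0 < β → ∀ (μ δ a b : ℝ), 0 < δ → δ < μ → a < b →
    ∫⁻ t in Ioo δ μ, ENNReal.ofReal (if a < μ - t ∧ μ - t ≤ b then t ^ (β - 1) else 0)
      ≤ ENNReal.ofReal (if a < μ - δ then (1 + 1 / β) * ((b - a) * (μ - a) ^ (β - 1)) else 0)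

def RiemannCutStmt : Prop := ∀ (β : ℝ), 0 < β → ∃ C : ℝ, 0 < C ∧ ∀ (μ δ : ℝ), 0 < δ → δ < μ →
    ∃ L0 : ℝ, 0 < L0 ∧ ∀ L : ℝ, L0 ≤ L → ∀ s : Finset ℤ,
      (1 / L) * ∑ m ∈ s, (if mom L m ^ 2 < μ - δ then (μ - mom L m ^ 2) ^ (β - 1) else 0) ≤ C * μ ^ (β - 1 / 2)

def VhBesselStmt : Prop := ∀ (L : ℝ), 0 < L → ∀ (W : ℝ → ℝ), Continuous W → ∀ (m : ℤ) (s : Finset ℤ),
    ∑ n ∈ s, ‖vh L W m n‖ ^ 2 ≤ (1 / L) * ∫ x in (-(L / 2))..(L / 2), W x ^ 2



theorem off_le (L : ℝ) (W : ℝ → ℝ) (ν : ℝ) (s : Finset ℤ) :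
    ENNReal.ofReal (∑ m ∈ s.filter (fun m => mom L m ^ 2 < ν), ∑ n ∈ s.filter (fun n => ν ≤ mom L n ^ 2),
          ‖vh L W m n‖ ^ 2 / (mom L n ^ 2 - mom L m ^ 2)) ≤ offE L W ν := by
  unfold offE
  have hnn : ∀ m ∈ s.filter (fun m => mom L m ^ 2 < ν), ∀ n ∈ s.filter (fun n => ν ≤ mom L n ^ 2),
      0 ≤ ‖vh L W m n‖ ^ 2 / (mom L n ^ 2 - mom L m ^ 2) := by
    intro m hm n hn
    rw [Finset.mem_filter] at hm hn
    have h1 := hm.2
    have h2 := hn.2
    have h3 : 0 ≤ mom L n ^ 2 - mom L m ^ 2 := by linarith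
    positivity
  rw [ENNReal.ofReal_sum_of_nonneg (fun m hm => Finset.sum_nonneg (hnn m hm))]
  refine le_trans (Finset.sum_le_sum fun m hm => ?_) (ENNReal.sum_le_tsum _)
  rw [ENNReal.ofReal_sum_of_nonneg (hnn m hm)]
  refine le_trans (Finset.sum_le_sum fun n hn => ?_) (ENNReal.sum_le_tsum _)
  rw [Finset.mem_filter] at hm hn
  rw [if_pos ⟨hm.2, hn.2⟩]

theorem off_measurable (L : ℝ) (W : ℝ → ℝ) (μ : ℝ) : Measurable (fun t : ℝ => offE L W (μ - t)) := by
  unfold offE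
  refine Measurable.ennreal_tsum fun m => Measurable.ennreal_tsum fun n => ?_
  refine ENNReal.measurable_ofReal.comp (Measurable.ite ?_ measurable_const measurable_const)
  have hm : Measurable (fun t : ℝ => μ - t) := measurable_const.sub measurable_id
  exact (measurableSet_lt measurable_const hm).inter (measurableSet_le hm measurable_const)

theorem off_integral (hW : WboundStmt) (hR : RiemannCutStmt) (hV : VhBesselStmt) (β : ℝ) (hβ : 0 < β) :
    ∃ C : ℝ, 0 < C ∧ ∀ (μ δ : ℝ), 0 < δ → δ < μ →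
    ∃ L0 : ℝ, 0 < L0 ∧ ∀ L : ℝ, L0 ≤ L → ∀ (W : ℝ → ℝ), Continuous W →
      ∫⁻ t in Ioo δ μ, ENNReal.ofReal (t ^ (β - 1)) * offE L W (μ - t)
        ≤ ENNReal.ofReal (C * μ ^ (β - 1 / 2) * ∫ x in (-(L / 2))..(L / 2), W x ^ 2) := by
  obtain ⟨CR, hCR, hR'⟩ := hR β hβ
  refine ⟨(1 + 1 / β) * CR, by positivity, fun μ δ hδ hδμ => ?_⟩
  obtain ⟨L0, hL0, hL⟩ := hR' μ δ hδ hδμ
  refine ⟨L0, hL0, fun L hLL W hWc => ?_⟩
  have hLpos : 0 < L := lt_of_lt_of_le hL0 hLL
  set I : ℝ := ∫ x in (-(L / 2))..(L / 2), W x ^ 2 with hI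
  have hInn : 0 ≤ I := intervalIntegral.integral_nonneg (by linarith) fun x _ => sq_nonneg _
  -- the integrand for a pair
  have hterm : ∀ m n : ℤ, ∀ t : ℝ, ENNReal.ofReal (t ^ (β - 1)) * ENNReal.ofReal
      (if mom L m ^ 2 < μ - t ∧ μ - t ≤ mom L n ^ 2 then
        ‖vh L W m n‖ ^ 2 / (mom L n ^ 2 - mom L m ^ 2) else 0) =
      ENNReal.ofReal (‖vh L W m n‖ ^ 2 / (mom L n ^ 2 - mom L m ^ 2)) * ENNReal.ofReal
      (if mom L m ^ 2 < μ - t ∧ μ - t ≤ mom L n ^ 2 then t ^ (β - 1) else 0) := by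
    intro m n t
    by_cases h : mom L m ^ 2 < μ - t ∧ μ - t ≤ mom L n ^ 2
    · rw [if_pos h, if_pos h, mul_comm]
    · rw [if_neg h, if_neg h, ENNReal.ofReal_zero, mul_zero, mul_zero]
  have hmeas : ∀ m n : ℤ, Measurable fun t : ℝ => ENNReal.ofReal (t ^ (β - 1)) * ENNReal.ofReal
      (if mom L m ^ 2 < μ - t ∧ μ - t ≤ mom L n ^ 2 then
        ‖vh L W m n‖ ^ 2 / (mom L n ^ 2 - mom L m ^ 2) else 0) := by
    intro m n
    have hm : Measurable (fun t : ℝ => μ - t) := measurable_const.sub measurable_id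
    refine (ENNReal.measurable_ofReal.comp (by fun_prop)).mul
      (ENNReal.measurable_ofReal.comp (Measurable.ite ?_ measurable_const measurable_const))
    exact (measurableSet_lt measurable_const hm).inter (measurableSet_le hm measurable_const)
  have hpair : ∀ m n : ℤ, ∫⁻ t in Ioo δ μ, ENNReal.ofReal (t ^ (β - 1)) * ENNReal.ofReal
      (if mom L m ^ 2 < μ - t ∧ μ - t ≤ mom L n ^ 2 then
        ‖vh L W m n‖ ^ 2 / (mom L n ^ 2 - mom L m ^ 2) else 0) ≤
      ENNReal.ofReal (if mom L m ^ 2 < μ - δ then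
        (1 + 1 / β) * (μ - mom L m ^ 2) ^ (β - 1) * ‖vh L W m n‖ ^ 2 else 0) := by
    intro m n
    by_cases hab : mom L m ^ 2 < mom L n ^ 2
    · simp only [hterm]
      rw [lintegral_const_mul' _ _ ENNReal.ofReal_ne_top]
      refine le_trans (mul_le_mul_right (hW β hβ μ δ _ _ hδ hδμ hab) _) ?_
      have hba : 0 < mom L n ^ 2 - mom L m ^ 2 := by linarith
      rw [← ENNReal.ofReal_mul (by positivity)]
      apply ENNReal.ofReal_le_ofReal
      by_cases h : mom L m ^ 2 < μ - δ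
      · rw [if_pos h, if_pos h]
        apply le_of_eq
        field_simp
      · rw [if_neg h, if_neg h, mul_zero]
    · have h0 : ∀ t : ℝ, ENNReal.ofReal (t ^ (β - 1)) * ENNReal.ofReal
          (if mom L m ^ 2 < μ - t ∧ μ - t ≤ mom L n ^ 2 then
            ‖vh L W m n‖ ^ 2 / (mom L n ^ 2 - mom L m ^ 2) else 0) = 0 := by
        intro t
        rw [if_neg, ENNReal.ofReal_zero, mul_zero]
        rintro ⟨h1, h2⟩
        exact hab (by linarith)
      simp only [h0, lintegral_zero]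
      exact zero_le
  have hrow : ∀ m : ℤ, ∑' n : ℤ, ENNReal.ofReal (if mom L m ^ 2 < μ - δ then
        (1 + 1 / β) * (μ - mom L m ^ 2) ^ (β - 1) * ‖vh L W m n‖ ^ 2 else 0) ≤
      ENNReal.ofReal (if mom L m ^ 2 < μ - δ then
        (1 + 1 / β) * (μ - mom L m ^ 2) ^ (β - 1) * ((1 / L) * I) else 0) := by
    intro m
    refine ENNReal.summable.tsum_le_of_sum_le fun s => ?_
    by_cases h : mom L m ^ 2 < μ - δ
    · simp only [if_pos h]
      have hc : 0 ≤ (1 + 1 / β) * (μ - mom L m ^ 2) ^ (β - 1) := by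
        have : 0 ≤ μ - mom L m ^ 2 := by linarith
        have := Real.rpow_nonneg this (β - 1)
        positivity
      rw [← ENNReal.ofReal_sum_of_nonneg (fun n _ => mul_nonneg hc (sq_nonneg _)), ← Finset.mul_sum]
      exact ENNReal.ofReal_le_ofReal (mul_le_mul_of_nonneg_left (hV L hLpos W hWc m s) hc)
    · simp only [if_neg h, ENNReal.ofReal_zero, Finset.sum_const_zero, le_refl]
  calc ∫⁻ t in Ioo δ μ, ENNReal.ofReal (t ^ (β - 1)) * offE L W (μ - t)
      = ∑' m : ℤ, ∑' n : ℤ, ∫⁻ t in Ioo δ μ, ENNReal.ofReal (t ^ (β - 1)) * ENNReal.ofReal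
          (if mom L m ^ 2 < μ - t ∧ μ - t ≤ mom L n ^ 2 then
            ‖vh L W m n‖ ^ 2 / (mom L n ^ 2 - mom L m ^ 2) else 0) := by
        unfold offE
        simp only [← ENNReal.tsum_mul_left]
        rw [lintegral_tsum fun m => (Measurable.ennreal_tsum fun n => hmeas m n).aemeasurable]
        refine tsum_congr fun m => ?_
        rw [lintegral_tsum fun n => (hmeas m n).aemeasurable]
    _ ≤ ∑' m : ℤ, ENNReal.ofReal (if mom L m ^ 2 < μ - δ then
        (1 + 1 / β) * (μ - mom L m ^ 2) ^ (β - 1) * ((1 / L) * I) else 0) :=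
        ENNReal.tsum_le_tsum fun m => le_trans (ENNReal.tsum_le_tsum fun n => hpair m n) (hrow m)
    _ ≤ _ := by
        refine ENNReal.summable.tsum_le_of_sum_le fun s => ?_
        have hnn : ∀ m ∈ s, 0 ≤ (if mom L m ^ 2 < μ - δ then
            (1 + 1 / β) * (μ - mom L m ^ 2) ^ (β - 1) * ((1 / L) * I) else 0) := by
          intro m _
          split_ifs with h
          · have h1 : 0 ≤ μ - mom L m ^ 2 := by linarith
            have h2 := Real.rpow_nonneg h1 (β - 1)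
            positivity
          · exact le_refl _
        rw [← ENNReal.ofReal_sum_of_nonneg hnn]
        apply ENNReal.ofReal_le_ofReal
        have hsum : ∑ m ∈ s, (if mom L m ^ 2 < μ - δ then
            (1 + 1 / β) * (μ - mom L m ^ 2) ^ (β - 1) * ((1 / L) * I) else 0) =
            ((1 + 1 / β) * I) * ((1 / L) * ∑ m ∈ s,
              (if mom L m ^ 2 < μ - δ then (μ - mom L m ^ 2) ^ (β - 1) else 0)) := by
          rw [Finset.mul_sum, Finset.mul_sum]
          refine Finset.sum_congr rfl fun m _ => ?_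
          split_ifs
          · ring
          · ring
        rw [hsum]
        have h1 := hL L hLL s
        have h2 : 0 ≤ (1 + 1 / β) * I := by positivity
        calc _ ≤ ((1 + 1 / β) * I) * (CR * μ ^ (β - 1 / 2)) := mul_le_mul_of_nonneg_left h1 h2
          _ = _ := by ring

end Pool.Agent.Helper209.PL.Off
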