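-- NOTE from helper439: sup_family needs `0 ≤ Λ` (the empty family with Λ < 0 is a counterexample), so I added the hypothesis hΛ0; res_local is unchanged.
import Pool.Agent.Helper209.PL.Defs

set_option autoImplicit false

namespace Pool.Agent.Helper209.PL.ResLoc

open MeasureTheory Set
open scoped SchwartzMap InnerProductSpace FourierTransform


section WStmts
def DenseRangeStmt : Prop := ∀ (V : ℝ → ℝ), Continuous V → ∀ (b c : ℝ), (∀ x, |V x| ≤ b) → b < c →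
    ∀ (f : L2R) (ε : ℝ), 0 < ε → ∃ (χ : 𝓢(ℝ, ℂ)) (w : L2R),
      (w : ℝ → ℂ) =ᵐ[volume] (fun x => -(deriv (deriv (χ : ℝ → ℂ)) x) + ((V x + c : ℝ) : ℂ) * χ x) ∧
      ‖w - f‖ < ε
end WStmts

/-- the relation `w = (-d²/dx² + V + c) χ` -/
def Rel (V : ℝ → ℝ) (c : ℝ) (χ : 𝓢(ℝ, ℂ)) (w : L2R) : Prop :=
  (w : ℝ → ℂ) =ᵐ[volume] (fun x => -(deriv (deriv (χ : ℝ → ℂ)) x) + ((V x + c : ℝ) : ℂ) * χ x)

theorem deriv2_eq (χ : 𝓢(ℝ, ℂ)) (x : ℝ) : deriv (deriv (χ : ℝ → ℂ)) x =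
    (SchwartzMap.derivCLM ℂ ℂ (SchwartzMap.derivCLM ℂ ℂ χ)) x := by
  rw [SchwartzMap.derivCLM_apply]
  congr 1

theorem Rel.zero (V : ℝ → ℝ) (c : ℝ) : Rel V c 0 0 := by
  unfold Rel
  filter_upwards [Lp.coeFn_zero ℂ 2 (volume : Measure ℝ)] with x hx
  rw [hx, deriv2_eq, map_zero, map_zero]
  simp

theorem Rel.add {V : ℝ → ℝ} {c : ℝ} {χ χ' : 𝓢(ℝ, ℂ)} {w w' : L2R} (h : Rel V c χ w)
    (h' : Rel V c χ' w') : Rel V c (χ + χ') (w + w') := by
  unfold Rel at h h' ⊢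
  filter_upwards [Lp.coeFn_add w w', h, h'] with x hx h1 h2
  rw [hx, Pi.add_apply, h1, h2, deriv2_eq, deriv2_eq, deriv2_eq, map_add, map_add,
    add_apply, add_apply]
  ring

theorem Rel.smul {V : ℝ → ℝ} {c : ℝ} {χ : 𝓢(ℝ, ℂ)} {w : L2R} (h : Rel V c χ w) (a : ℂ) :
    Rel V c (a • χ) (a • w) := by
  unfold Rel at h ⊢
  filter_upwards [Lp.coeFn_smul a w, h] with x hx h1
  rw [hx, Pi.smul_apply, h1, deriv2_eq, deriv2_eq, map_smul, map_smul,
    smul_apply, smul_apply]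
  simp only [smul_eq_mul]
  ring

theorem Rel.sum {V : ℝ → ℝ} {c : ℝ} {ι : Type} (s : Finset ι) (χ : ι → 𝓢(ℝ, ℂ)) (w : ι → L2R)
    (h : ∀ j, Rel V c (χ j) (w j)) (α : ι → ℂ) :
    Rel V c (∑ j ∈ s, α j • χ j) (∑ j ∈ s, α j • w j) := by
  classical
  induction s using Finset.induction_on with
  | empty => simpa using Rel.zero V c
  | insert a s ha ih =>
    rw [Finset.sum_insert ha, Finset.sum_insert ha]
    exact ((h a).smul (α a)).add ih

theorem schwartz_sum_apply {ι : Type} (s : Finset ι) (χ : ι → 𝓢(ℝ, ℂ)) (α : ι → ℂ) (x : ℝ) :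
    (∑ j ∈ s, α j • χ j) x = ∑ j ∈ s, α j * χ j x := by
  classical
  induction s using Finset.induction_on with
  | empty => simp
  | insert a s ha ih =>
    rw [Finset.sum_insert ha, Finset.sum_insert ha, add_apply, ih,
      smul_apply, smul_eq_mul]

/-- pointwise bound for families
(CORRECTED: `0 ≤ Λ` has been added; the statement fails without it for the empty family.) -/
theorem sup_family (V : ℝ → ℝ) (hV : Continuous V) (c K : ℝ) (hK0 : 0 < K)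
    (hK : ∀ (χ : 𝓢(ℝ, ℂ)) (w : L2R),
      (w : ℝ → ℂ) =ᵐ[volume] (fun x => -(deriv (deriv (χ : ℝ → ℂ)) x) + ((V x + c : ℝ) : ℂ) * χ x) →
      ∀ x : ℝ, ‖χ x‖ ≤ K * ‖w‖)
    {ι : Type} [Fintype ι] (χ : ι → 𝓢(ℝ, ℂ)) (w : ι → L2R)
    (hw : ∀ j, (w j : ℝ → ℂ) =ᵐ[volume]
      (fun x => -(deriv (deriv (χ j : ℝ → ℂ)) x) + ((V x + c : ℝ) : ℂ) * χ j x))
    (Λ : ℝ) (hΛ0 : 0 ≤ Λ)
    (hΛ : ∀ α : ι → ℂ, ‖∑ j, α j • w j‖ ^ 2 ≤ Λ * ∑ j, ‖α j‖ ^ 2) (x : ℝ) :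
    ∑ j, ‖χ j x‖ ^ 2 ≤ K ^ 2 * Λ := by
  set α : ι → ℂ := fun j => (starRingEnd ℂ) (χ j x) with hα
  set S : ℝ := ∑ j, ‖χ j x‖ ^ 2 with hS
  have hS0 : 0 ≤ S := Finset.sum_nonneg (fun j _ => by positivity)
  have h1 := hK _ _ (Rel.sum Finset.univ χ w hw α) x
  have h2 : (∑ j, α j • χ j) x = (S : ℂ) := by
    rw [schwartz_sum_apply, hS]
    push_cast
    refine Finset.sum_congr rfl (fun j _ => ?_)
    rw [hα]
    beta_reduce
    rw [← Complex.normSq_eq_conj_mul_self, Complex.normSq_eq_norm_sq]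
    push_cast
    rfl
  rw [h2, Complex.norm_real, Real.norm_eq_abs, abs_of_nonneg hS0] at h1
  have h3 := hΛ α
  have h4 : ∑ j, ‖α j‖ ^ 2 = S := by
    rw [hS]
    refine Finset.sum_congr rfl (fun j _ => ?_)
    rw [hα]
    beta_reduce
    rw [RCLike.norm_conj]
  rw [h4] at h3
  have h5 : S ^ 2 ≤ K ^ 2 * (Λ * S) := by
    calc S ^ 2 ≤ (K * ‖∑ j, α j • w j‖) ^ 2 := pow_le_pow_left₀ hS0 h1 2
      _ = K ^ 2 * ‖∑ j, α j • w j‖ ^ 2 := by ring
      _ ≤ _ := by gcongr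
  rcases hS0.eq_or_lt with h6 | h6
  · rw [← h6]; positivity
  · have h7 : S * S ≤ (K ^ 2 * Λ) * S := by nlinarith
    exact le_of_mul_le_mul_right h7 h6

theorem norm_sq_integral (f : L2R) : ‖f‖ ^ 2 = ∫ x, ‖(f : ℝ → ℂ) x‖ ^ 2 := by
  have h1 : ⟪f, f⟫_ℂ = ∫ x, ⟪(f : ℝ → ℂ) x, (f : ℝ → ℂ) x⟫_ℂ := L2.inner_def f f
  have h2 : ⟪f, f⟫_ℂ = ((‖f‖ ^ 2 : ℝ) : ℂ) := by
    rw [inner_self_eq_norm_sq_to_K]; push_cast; rfl
  have h3 : (∫ x, ⟪(f : ℝ → ℂ) x, (f : ℝ → ℂ) x⟫_ℂ) = ((∫ x, ‖(f : ℝ → ℂ) x‖ ^ 2 : ℝ) : ℂ) := by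
    rw [← integral_complex_ofReal]
    congr 1
    funext x
    rw [inner_self_eq_norm_sq_to_K]; push_cast; rfl
  rw [h2, h3] at h1
  exact_mod_cast h1

theorem sum_norm_sq {ι : Type} [Fintype ι] (v : ι → L2R) (hv : Orthonormal ℂ v) (α : ι → ℂ) :
    ‖∑ j, α j • v j‖ ^ 2 = ∑ j, ‖α j‖ ^ 2 := by
  have h1 : ⟪∑ j, α j • v j, ∑ j, α j • v j⟫_ℂ = ∑ j, (starRingEnd ℂ) (α j) * α j :=
    hv.inner_sum α α Finset.univ
  have h2 : ⟪∑ j, α j • v j, ∑ j, α j • v j⟫_ℂ = ((‖∑ j, α j • v j‖ ^ 2 : ℝ) : ℂ) := by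
    rw [inner_self_eq_norm_sq_to_K]; push_cast; rfl
  have h3 : ∑ j, (starRingEnd ℂ) (α j) * α j = ((∑ j, ‖α j‖ ^ 2 : ℝ) : ℂ) := by
    push_cast
    refine Finset.sum_congr rfl (fun j _ => ?_)
    rw [← Complex.normSq_eq_conj_mul_self, Complex.normSq_eq_norm_sq]
    push_cast
    rfl
  rw [h2, h3] at h1
  exact_mod_cast h1

/-- local Hilbert-Schmidt bound for the resolvent -/
theorem res_local (hD : DenseRangeStmt) (V : ℝ → ℝ) (hV : Continuous V) (b c : ℝ) (hb : ∀ x, |V x| ≤ b)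
    (hbc : b < c) (K : ℝ) (hK0 : 0 < K)
    (hK : ∀ (χ : 𝓢(ℝ, ℂ)) (w : L2R),
      (w : ℝ → ℂ) =ᵐ[volume] (fun x => -(deriv (deriv (χ : ℝ → ℂ)) x) + ((V x + c : ℝ) : ℂ) * χ x) →
      ∀ x : ℝ, ‖χ x‖ ≤ K * ‖w‖)
    (R : L2R →L[ℂ] L2R) (hR : IsResolvent V c R) (θ : ℝ → ℝ) (hθ : Continuous θ) (hθs : HasCompactSupport θ)
    (Θ : L2R →L[ℂ] L2R) (hΘ : IsMul θ Θ) (B : L2R →L[ℂ] L2R) (e : HilbertBasis ℕ ℂ L2R) (J : Finset ℕ) :
    ∑ j ∈ J, ‖Θ (R (B (e j)))‖ ^ 2 ≤ K ^ 2 * ‖B‖ ^ 2 * ∫ x, θ x ^ 2 := by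
  classical
  have hon : Orthonormal ℂ (fun j : J => e (j : ℕ)) :=
    e.orthonormal.comp _ Subtype.val_injective
  have hθ2 : Integrable (fun x => θ x ^ 2) volume := by
    refine Continuous.integrable_of_hasCompactSupport (by fun_prop) ?_
    exact hθs.comp_left (g := fun y : ℝ => y ^ 2) (zero_pow two_ne_zero)
  set I : ℝ := ∫ x, θ x ^ 2 with hI
  have hI0 : 0 ≤ I := integral_nonneg (fun x => by positivity)
  set q : ℝ := Real.sqrt (J.card) with hq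
  have hq0 : 0 ≤ q := Real.sqrt_nonneg _
  -- approximation
  have happ : ∀ ε : ℝ, 0 < ε → ∃ w : J → L2R, (∀ j, ‖w j - B (e (j : ℕ))‖ < ε) ∧
      ∑ j, ‖Θ (R (w j))‖ ^ 2 ≤ K ^ 2 * (‖B‖ + ε * q) ^ 2 * I := by
    intro ε hε
    have hch : ∀ j : J, ∃ (χ : 𝓢(ℝ, ℂ)) (w : L2R), Rel V c χ w ∧ ‖w - B (e (j : ℕ))‖ < ε :=
      fun j => hD V hV b c hb hbc (B (e (j : ℕ))) ε hε
    choose χ w hw hwε using hch
    refine ⟨w, hwε, ?_⟩
    have hΛ : ∀ α : J → ℂ, ‖∑ j, α j • w j‖ ^ 2 ≤ (‖B‖ + ε * q) ^ 2 * ∑ j, ‖α j‖ ^ 2 := by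
      intro α
      set A : ℝ := Real.sqrt (∑ j, ‖α j‖ ^ 2) with hA
      have hA0 : 0 ≤ A := Real.sqrt_nonneg _
      have hAs : A ^ 2 = ∑ j, ‖α j‖ ^ 2 :=
        Real.sq_sqrt (Finset.sum_nonneg (fun j _ => by positivity))
      have h1 : ‖∑ j, α j • e (j : ℕ)‖ = A := by
        rw [hA, ← sum_norm_sq _ hon α, Real.sqrt_sq (norm_nonneg _)]
      have h2 : ∑ j, ‖α j‖ ≤ q * A := by
        have := Finset.sum_mul_sq_le_sq_mul_sq Finset.univ (fun _ : J => (1:ℝ)) (fun j => ‖α j‖)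
        simp only [one_mul, one_pow, Finset.sum_const, Finset.card_univ, Fintype.card_coe,
          nsmul_eq_mul, mul_one] at this
        rw [← hAs] at this
        have h3 : (J.card : ℝ) = q ^ 2 := by rw [hq, Real.sq_sqrt (Nat.cast_nonneg _)]
        rw [h3, ← mul_pow] at this
        have h8 : 0 ≤ ∑ j, ‖α j‖ := Finset.sum_nonneg (fun j _ => norm_nonneg _)
        have h9 : 0 ≤ q * A := mul_nonneg hq0 hA0
        exact (pow_le_pow_iff_left₀ h8 h9 two_ne_zero).mp this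
      have h4 : ‖∑ j, α j • w j‖ ≤ (‖B‖ + ε * q) * A := by
        have h5 : ∑ j, α j • w j = B (∑ j, α j • e (j : ℕ)) + ∑ j, α j • (w j - B (e (j : ℕ))) := by
          rw [map_sum, ← Finset.sum_add_distrib]
          refine Finset.sum_congr rfl (fun j _ => ?_)
          rw [map_smul, smul_sub]
          abel
        rw [h5]
        refine (norm_add_le _ _).trans ?_
        have h6 : ‖B (∑ j, α j • e (j : ℕ))‖ ≤ ‖B‖ * A := by
          rw [← h1]; exact B.le_opNorm _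
        have h7 : ‖∑ j, α j • (w j - B (e (j : ℕ)))‖ ≤ ε * (q * A) := by
          refine (norm_sum_le _ _).trans ?_
          calc ∑ j, ‖α j • (w j - B (e (j : ℕ)))‖ ≤ ∑ j, ε * ‖α j‖ := by
                refine Finset.sum_le_sum (fun j _ => ?_)
                rw [norm_smul, mul_comm]
                gcongr
                exact (hwε j).le
            _ = ε * ∑ j, ‖α j‖ := by rw [Finset.mul_sum]
            _ ≤ _ := by gcongr
        nlinarith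
      rw [← hAs, ← mul_pow]
      exact pow_le_pow_left₀ (norm_nonneg _) h4 2
    have hsup := sup_family V hV c K hK0 hK χ w hw ((‖B‖ + ε * q) ^ 2) (by positivity) hΛ
    have hterm : ∀ j, ‖Θ (R (w j))‖ ^ 2 = ∫ x, θ x ^ 2 * ‖χ j x‖ ^ 2 := by
      intro j
      rw [norm_sq_integral]
      refine integral_congr_ae ?_
      have h1 := hR (χ j) (w j) (hw j)
      filter_upwards [hΘ (R (w j)), h1] with x hx h2
      rw [hx, h2, norm_mul, mul_pow, Complex.norm_real, Real.norm_eq_abs, sq_abs]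
    have hint : ∀ j, Integrable (fun x => θ x ^ 2 * ‖χ j x‖ ^ 2) volume := by
      intro j
      have hc : Continuous (χ j) := (χ j).continuous
      refine Continuous.integrable_of_hasCompactSupport ((hθ.pow 2).mul (hc.norm.pow 2)) ?_
      have hs2 : HasCompactSupport (fun x => θ x ^ 2) :=
        hθs.comp_left (g := fun y : ℝ => y ^ 2) (zero_pow two_ne_zero)
      exact HasCompactSupport.mul_right hs2
    simp_rw [hterm]
    rw [← integral_finsetSum _ (fun j _ => hint j), hI, ← integral_const_mul]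
    refine integral_mono (integrable_finsetSum _ (fun j _ => hint j)) (hθ2.const_mul _) (fun x => ?_)
    beta_reduce
    rw [← Finset.mul_sum, mul_comm]
    exact mul_le_mul_of_nonneg_right (hsup x) (by positivity)
  -- the limit
  choose w hw1 hw2 using fun n : ℕ => happ (1 / ((n : ℝ) + 1)) (by positivity)
  have hε : Filter.Tendsto (fun n : ℕ => 1 / ((n : ℝ) + 1)) Filter.atTop (nhds 0) :=
    tendsto_one_div_add_atTop_nhds_zero_nat
  have hlim : ∀ j : J, Filter.Tendsto (fun n => w n j) Filter.atTop (nhds (B (e (j : ℕ)))) := by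
    intro j
    rw [tendsto_iff_norm_sub_tendsto_zero]
    exact squeeze_zero (fun n => norm_nonneg _) (fun n => (hw1 n j).le) hε
  have hlim2 : Filter.Tendsto (fun n => ∑ j, ‖Θ (R (w n j))‖ ^ 2) Filter.atTop
      (nhds (∑ j : J, ‖Θ (R (B (e (j : ℕ))))‖ ^ 2)) := by
    refine tendsto_finsetSum _ (fun j _ => ?_)
    have h1 : Continuous (fun f : L2R => ‖Θ (R f)‖ ^ 2) := by fun_prop
    exact (h1.tendsto _).comp (hlim j)
  have hlim3 : Filter.Tendsto (fun n : ℕ => K ^ 2 * (‖B‖ + (1 / ((n : ℝ) + 1)) * q) ^ 2 * I)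
      Filter.atTop (nhds (K ^ 2 * (‖B‖ + 0 * q) ^ 2 * I)) :=
    ((((hε.mul_const q).const_add ‖B‖).pow 2).const_mul (K ^ 2)).mul_const I
  rw [zero_mul, add_zero] at hlim3
  rw [← Finset.sum_coe_sort J (fun j => ‖Θ (R (B (e j)))‖ ^ 2)]
  exact le_of_tendsto_of_tendsto' hlim2 hlim3 hw2

end Pool.Agent.Helper209.PL.ResLoc
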